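import Pool.Agent.Mrd.Box

/-!
Mrd ADD: from multiplicative to additive short intervals.
-/

set_option autoImplicit false

namespace Pool.Agent.Mrd

open Finset MeasureTheory Filter Topology

private theorem Add_csq (g : ℝ → ℝ) (A B : ℝ) (hAB : A < B)
    (h1 : IntervalIntegrable g volume A B) (h2 : IntervalIntegrable (fun y => g y ^ 2) volume A B) :
    ∫ y in A..B, g y ≤ Real.sqrt (B - A) * Real.sqrt (∫ y in A..B, g y ^ 2) := by
  have hL : 0 < B - A := sub_pos.2 hAB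
  set J := ∫ y in A..B, g y with hJ
  set K := ∫ y in A..B, g y ^ 2 with hK
  have key : ∀ s : ℝ, 2 * s * J ≤ s ^ 2 * (B - A) + K := by
    intro s
    have h3 : ∫ y in A..B, 2 * s * g y ≤ ∫ y in A..B, (s ^ 2 + g y ^ 2) := by
      refine intervalIntegral.integral_mono_on hAB.le (h1.const_mul _)
        (intervalIntegrable_const.add h2) ?_
      intro y _
      nlinarith [sq_nonneg (s - g y)]
    rw [intervalIntegral.integral_const_mul, intervalIntegral.integral_add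
      intervalIntegrable_const h2, intervalIntegral.integral_const, smul_eq_mul] at h3
    linarith
  have h4 := key (J / (B - A))
  have h5 : J ^ 2 ≤ (B - A) * K := by
    have h6 : 2 * (J / (B - A)) * J = 2 * J ^ 2 / (B - A) := by ring
    have h7 : (J / (B - A)) ^ 2 * (B - A) = J ^ 2 / (B - A) := by
      field_simp
    rw [h6, h7] at h4
    have h8 : J ^ 2 / (B - A) ≤ K := by
      have : 2 * J ^ 2 / (B - A) = J ^ 2 / (B - A) + J ^ 2 / (B - A) := by ring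
      linarith
    rwa [div_le_iff₀ hL, mul_comm] at h8
  rw [← Real.sqrt_mul hL.le]
  exact Real.le_sqrt_of_sq_le h5

private theorem Add_sum (g : ℝ → ℝ) (hg : ∀ y, 0 ≤ g y) (A B : ℝ) (a b H : ℕ) (hab : a ≤ b)
    (hA : A ≤ a + 1) (hB : (b : ℝ) + H ≤ B) (hH : 1 ≤ H)
    (hi : IntervalIntegrable g volume A B) :
    ∑ m ∈ Ioc a b, ∫ y in (m : ℝ)..((m + H : ℕ) : ℝ), g y ≤ H * ∫ y in A..B, g y := by
  have hab' : (a : ℝ) ≤ b := by exact_mod_cast hab
  have hH' : (1 : ℝ) ≤ H := by exact_mod_cast hH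
  have hAB : A ≤ B := by linarith
  have hsub : ∀ x y : ℝ, A ≤ x → x ≤ y → y ≤ B → IntervalIntegrable g volume x y := by
    intro x y h1 h2 h3
    refine hi.mono_set ?_
    rw [Set.uIcc_of_le h2, Set.uIcc_of_le hAB]
    exact Set.Icc_subset_Icc h1 h3
  have h1 : ∀ m ∈ Ioc a b, ∫ y in (m : ℝ)..((m + H : ℕ) : ℝ), g y =
      ∑ j ∈ range H, ∫ y in ((m + j : ℕ) : ℝ)..((m + j + 1 : ℕ) : ℝ), g y := by
    intro m hm
    rw [Finset.mem_Ioc] at hm
    have hm1 : (a : ℝ) + 1 ≤ m := by exact_mod_cast hm.1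
    have hm2 : (m : ℝ) ≤ b := by exact_mod_cast hm.2
    have h2 := intervalIntegral.sum_integral_adjacent_intervals (f := g) (μ := volume)
      (a := fun j : ℕ => ((m + j : ℕ) : ℝ)) (n := H) (by
        intro k hk
        have hk' : (k : ℝ) + 1 ≤ H := by exact_mod_cast hk
        refine hsub _ _ ?_ ?_ ?_
        · push_cast
          have : (0 : ℝ) ≤ k := Nat.cast_nonneg k
          linarith
        · push_cast
          linarith
        · push_cast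
          linarith)
    rw [Nat.add_zero] at h2
    exact h2.symm
  rw [Finset.sum_congr rfl h1, Finset.sum_comm]
  have h3 : ∀ j ∈ range H, ∑ m ∈ Ioc a b, ∫ y in ((m + j : ℕ) : ℝ)..((m + j + 1 : ℕ) : ℝ), g y ≤
      ∫ y in A..B, g y := by
    intro j hj
    rw [Finset.mem_range] at hj
    have hj' : (j : ℝ) + 1 ≤ H := by exact_mod_cast hj
    have hj0 : (0 : ℝ) ≤ j := Nat.cast_nonneg j
    have h4 : ∑ m ∈ Ioc a b, ∫ y in ((m + j : ℕ) : ℝ)..((m + j + 1 : ℕ) : ℝ), g y =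
        ∫ y in ((a + 1 + j : ℕ) : ℝ)..((b + 1 + j : ℕ) : ℝ), g y := by
      have h5 := intervalIntegral.sum_integral_adjacent_intervals (f := g) (μ := volume)
        (a := fun i : ℕ => ((a + 1 + i + j : ℕ) : ℝ)) (n := b - a) (by
          intro k hk
          have hk' : (k : ℝ) + 1 ≤ b - a := by
            rw [← Nat.cast_sub hab]
            exact_mod_cast hk
          have hk0 : (0 : ℝ) ≤ k := Nat.cast_nonneg k
          refine hsub _ _ ?_ ?_ ?_
          · push_cast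
            linarith
          · push_cast
            linarith
          · push_cast
            linarith)
      have h6 : a + 1 + (b - a) + j = b + 1 + j := by omega
      simp only [h6, Nat.add_zero] at h5
      rw [← h5]
      have h7 : Ioc a b = (range (b - a)).map (addLeftEmbedding (a + 1)) := by
        ext m
        simp only [Finset.mem_Ioc, Finset.mem_map, Finset.mem_range, addLeftEmbedding_apply]
        constructor
        · rintro ⟨h, h'⟩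
          exact ⟨m - (a + 1), by omega, by omega⟩
        · rintro ⟨i, hi', rfl⟩
          omega
      rw [h7, Finset.sum_map]
      refine Finset.sum_congr rfl fun i _ => ?_
      simp only [addLeftEmbedding_apply]
      congr 2
      ring
    rw [h4]
    refine intervalIntegral.integral_mono_interval ?_ ?_ ?_ ?_ hi
    · push_cast
      linarith
    · push_cast
      linarith
    · push_cast
      linarith
    · exact Filter.Eventually.of_forall fun y => hg y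
  calc ∑ j ∈ range H, ∑ m ∈ Ioc a b, ∫ y in ((m + j : ℕ) : ℝ)..((m + j + 1 : ℕ) : ℝ), g y
      ≤ ∑ _j ∈ range H, ∫ y in A..B, g y := Finset.sum_le_sum h3
    _ = H * ∫ y in A..B, g y := by
        rw [Finset.sum_const, Finset.card_range, nsmul_eq_mul]

private theorem Add_meas (f : ℕ → ℂ) (δ : ℝ) : Measurable (Gy f δ) := by
  unfold Gy
  refine Measurable.const_mul ?_ _
  have h1 : Measurable (fun q : ℕ × ℕ => ∑ n ∈ Ioc q.1 q.2, f n / n) := measurable_of_countable _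
  have h2 : Measurable (fun y : ℝ => (⌊y⌋₊, ⌊y * Real.exp δ⌋₊)) :=
    (Nat.measurable_floor).prodMk (Nat.measurable_floor.comp (measurable_id.mul_const _))
  exact h1.comp h2

private theorem Add_bdd (f : ℕ → ℂ) (hf : ∀ n, ‖f n‖ ≤ 1) (δ : ℝ) (hδ : 0 < δ) (A B y : ℝ)
    (hA : 0 ≤ A) (hy : y ∈ Set.Icc A B) : ‖Gy f δ y‖ ≤ δ⁻¹ * (B * Real.exp δ) := by
  unfold Gy
  have hB : 0 ≤ B := hA.trans (hy.1.trans hy.2)
  rw [norm_mul, norm_inv, Complex.norm_real, Real.norm_eq_abs, abs_of_pos hδ]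
  refine mul_le_mul_of_nonneg_left ?_ (inv_nonneg.2 hδ.le)
  calc ‖∑ n ∈ Ioc ⌊y⌋₊ ⌊y * Real.exp δ⌋₊, f n / n‖
      ≤ ∑ n ∈ Ioc ⌊y⌋₊ ⌊y * Real.exp δ⌋₊, ‖f n / n‖ := norm_sum_le _ _
    _ ≤ ∑ n ∈ Ioc ⌊y⌋₊ ⌊y * Real.exp δ⌋₊, (1 : ℝ) := by
        refine Finset.sum_le_sum fun n hn => ?_
        rw [Finset.mem_Ioc] at hn
        have hn1 : (1 : ℝ) ≤ n := by exact_mod_cast (by omega : 1 ≤ n)
        rw [norm_div, Complex.norm_natCast]
        exact (div_le_one₀ (by linarith)).2 ((hf n).trans hn1)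
    _ = ((⌊y * Real.exp δ⌋₊ - ⌊y⌋₊ : ℕ) : ℝ) := by simp
    _ ≤ (⌊y * Real.exp δ⌋₊ : ℝ) := by exact_mod_cast Nat.sub_le _ _
    _ ≤ y * Real.exp δ := Nat.floor_le (by
        have := hA.trans hy.1
        positivity)
    _ ≤ B * Real.exp δ := mul_le_mul_of_nonneg_right hy.2 (Real.exp_pos _).le

private theorem Add_int (f : ℕ → ℂ) (hf : ∀ n, ‖f n‖ ≤ 1) (δ : ℝ) (hδ : 0 < δ) (A B : ℝ)
    (hA : 0 ≤ A) (hAB : A ≤ B) : IntervalIntegrable (Gy f δ) volume A B := by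
  rw [intervalIntegrable_iff_integrableOn_Icc_of_le hAB]
  refine Measure.integrableOn_of_bounded (M := δ⁻¹ * (B * Real.exp δ)) (by simp)
    (Add_meas f δ).aestronglyMeasurable ?_
  rw [ae_restrict_iff' measurableSet_Icc]
  exact Filter.Eventually.of_forall fun y hy => Add_bdd f hf δ hδ A B y hA hy

private theorem Add_int2 (f : ℕ → ℂ) (hf : ∀ n, ‖f n‖ ≤ 1) (δ : ℝ) (hδ : 0 < δ) (A B : ℝ)
    (hA : 0 ≤ A) (hAB : A ≤ B) : IntervalIntegrable (fun y => ‖Gy f δ y‖ ^ 2) volume A B := by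
  rw [intervalIntegrable_iff_integrableOn_Icc_of_le hAB]
  refine Measure.integrableOn_of_bounded (M := (δ⁻¹ * (B * Real.exp δ)) ^ 2) (by simp)
    ((Add_meas f δ).norm.pow_const 2).aestronglyMeasurable ?_
  rw [ae_restrict_iff' measurableSet_Icc]
  refine Filter.Eventually.of_forall fun y hy => ?_
  rw [norm_pow, norm_norm]
  exact pow_le_pow_left₀ (norm_nonneg _) (Add_bdd f hf δ hδ A B y hA hy) 2

private theorem Add_len (a b α β : ℝ) (hab : a ≤ b) (hαβ : α ≤ β) :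
    0 ≤ ∫ y in a..b, (Set.Ico α β).indicator (fun _ => (1 : ℝ)) y ∧
    ∫ y in a..b, (Set.Ico α β).indicator (fun _ => (1 : ℝ)) y ≤ β - α ∧
    (a ≤ α → β ≤ b → ∫ y in a..b, (Set.Ico α β).indicator (fun _ => (1 : ℝ)) y = β - α) := by
  have h1 : ∫ y in a..b, (Set.Ico α β).indicator (fun _ => (1 : ℝ)) y =
      volume.real (Set.Ico α β ∩ Set.Icc a b) := by
    rw [intervalIntegral.integral_of_le hab, ← integral_Icc_eq_integral_Ioc,
      integral_indicator measurableSet_Ico, Measure.restrict_restrict measurableSet_Ico]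
    simp
  rw [h1]
  refine ⟨measureReal_nonneg, ?_, ?_⟩
  · calc volume.real (Set.Ico α β ∩ Set.Icc a b) ≤ volume.real (Set.Ico α β) :=
          measureReal_mono Set.inter_subset_left (by simp)
      _ = β - α := by simp [Measure.real, hαβ]
  · intro h2 h3
    have h4 : Set.Ico α β ∩ Set.Icc a b = Set.Ico α β := by
      refine Set.inter_eq_left.2 fun y hy => ⟨h2.trans hy.1, hy.2.le.trans h3⟩
    rw [h4]
    simp [Measure.real, hαβ]

private theorem Add_repr (f : ℕ → ℂ) (δ : ℝ) (m H : ℕ) (y : ℝ)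
    (hy : y ∈ Set.Icc (m : ℝ) ((m + H : ℕ) : ℝ)) :
    Gy f δ y = (δ : ℂ)⁻¹ * ∑ n ∈ Ioc m ⌊((m + H : ℕ) : ℝ) * Real.exp δ⌋₊,
      f n / n * (((Set.Ico ((n : ℝ) * Real.exp (-δ)) n).indicator (fun _ => (1 : ℝ)) y : ℝ) : ℂ) := by
  unfold Gy
  congr 1
  have hy0 : 0 ≤ y := le_trans (Nat.cast_nonneg m) hy.1
  have h1 : Ioc ⌊y⌋₊ ⌊y * Real.exp δ⌋₊ = (Ioc m ⌊((m + H : ℕ) : ℝ) * Real.exp δ⌋₊).filter
      (fun n : ℕ => y ∈ Set.Ico ((n : ℝ) * Real.exp (-δ)) n) := by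
    ext n
    rw [Finset.mem_filter, Finset.mem_Ioc, Finset.mem_Ioc, Set.mem_Ico, Nat.floor_lt hy0,
      Nat.le_floor_iff (by positivity), Nat.le_floor_iff (by positivity)]
    have h2 : (n : ℝ) * Real.exp (-δ) ≤ y ↔ (n : ℝ) ≤ y * Real.exp δ := by
      rw [Real.exp_neg, ← div_eq_mul_inv, div_le_iff₀ (Real.exp_pos δ)]
    rw [h2]
    constructor
    · rintro ⟨h3, h4⟩
      refine ⟨⟨?_, h4.trans (mul_le_mul_of_nonneg_right hy.2 (Real.exp_pos _).le)⟩, h4, h3⟩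
      exact_mod_cast lt_of_le_of_lt hy.1 h3
    · rintro ⟨_, h3, h4⟩
      exact ⟨h4, h3⟩
  rw [h1, Finset.sum_filter]
  refine Finset.sum_congr rfl fun n _ => ?_
  by_cases h : y ∈ Set.Ico ((n : ℝ) * Real.exp (-δ)) n
  · rw [if_pos h, Set.indicator_of_mem h]
    simp
  · rw [if_neg h, Set.indicator_of_notMem h]
    simp

private theorem Add_pt (f : ℕ → ℂ) (hf : ∀ n, ‖f n‖ ≤ 1) (X h : ℝ) (m H : ℕ) (h1 : 1 ≤ h)
    (hH : h ≤ H) (hX : 10 * (H : ℝ) ≤ X) (hm1 : 1 ≤ m) (hm : (m : ℝ) ≤ 3 * X) :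
    ‖∑ n ∈ Ioc m (m + H), f n - ∫ y in (m : ℝ)..((m + H : ℕ) : ℝ), Gy f (h / X) y‖ ≤ 7 * h := by
  have hX0 : 0 < X := by linarith
  obtain ⟨δ, hδ⟩ : ∃ δ, δ = h / X := ⟨_, rfl⟩
  have hδ0 : 0 < δ := by
    rw [hδ]
    positivity
  have hδX : δ * X = h := by
    rw [hδ]
    field_simp
  have hδ1 : δ ≤ 1 / 10 := by
    rw [hδ, div_le_iff₀ hX0]
    linarith
  rw [← hδ]
  have hexp1 : Real.exp δ - 1 ≤ 11 / 10 * δ := by
    have h2 := Real.abs_exp_sub_one_sub_id_le (x := δ) (by rw [abs_of_pos hδ0]; linarith)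
    have h3 := (abs_le.1 h2).2
    nlinarith
  have hexp2 : Real.exp (-δ) ≤ 1 - δ + δ ^ 2 := by
    have h2 := Real.abs_exp_sub_one_sub_id_le (x := -δ) (by rw [abs_neg, abs_of_pos hδ0]; linarith)
    have h3 := (abs_le.1 h2).2
    nlinarith
  have hexp3 : 1 - δ ≤ Real.exp (-δ) := by
    have := Real.add_one_le_exp (-δ)
    linarith
  have hexp4 : Real.exp (-δ) ≤ 1 := Real.exp_le_one_iff.2 (by linarith)
  have hexp5 : 1 ≤ Real.exp δ := Real.one_le_exp hδ0.le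
  have hmH : (m : ℝ) ≤ ((m + H : ℕ) : ℝ) := by exact_mod_cast Nat.le_add_right m H
  have hm0 : (1 : ℝ) ≤ m := by exact_mod_cast hm1
  obtain ⟨N, hN⟩ : ∃ N, N = ⌊((m + H : ℕ) : ℝ) * Real.exp δ⌋₊ := ⟨_, rfl⟩
  have hNle : (N : ℝ) ≤ ((m + H : ℕ) : ℝ) * Real.exp δ := by
    rw [hN]
    exact Nat.floor_le (by positivity)
  have hNge : m + H ≤ N := by
    rw [hN]
    refine Nat.le_floor ?_
    have : (0 : ℝ) ≤ ((m + H : ℕ) : ℝ) := Nat.cast_nonneg _
    nlinarith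
  obtain ⟨I, hI⟩ : ∃ I : ℕ → ℝ, I = fun n : ℕ => ∫ y in (m : ℝ)..((m + H : ℕ) : ℝ),
    (Set.Ico ((n : ℝ) * Real.exp (-δ)) n).indicator (fun _ => (1 : ℝ)) y := ⟨_, rfl⟩
  -- the integral
  have hint : ∫ y in (m : ℝ)..((m + H : ℕ) : ℝ), Gy f δ y =
      (δ : ℂ)⁻¹ * ∑ n ∈ Ioc m N, f n / n * ((I n : ℝ) : ℂ) := by
    have h2 : ∫ y in (m : ℝ)..((m + H : ℕ) : ℝ), Gy f δ y = ∫ y in (m : ℝ)..((m + H : ℕ) : ℝ),
        (δ : ℂ)⁻¹ * ∑ n ∈ Ioc m N, f n / n *
          (((Set.Ico ((n : ℝ) * Real.exp (-δ)) n).indicator (fun _ => (1 : ℝ)) y : ℝ) : ℂ) := by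
      refine intervalIntegral.integral_congr fun y hy => ?_
      rw [Set.uIcc_of_le hmH] at hy
      rw [hN]
      exact Add_repr f δ m H y hy
    rw [h2, intervalIntegral.integral_const_mul, intervalIntegral.integral_finsetSum]
    · congr 1
      refine Finset.sum_congr rfl fun n _ => ?_
      rw [intervalIntegral.integral_const_mul, intervalIntegral.integral_ofReal, hI]
    · intro n _
      refine IntervalIntegrable.const_mul ?_ _
      rw [intervalIntegrable_iff_integrableOn_Icc_of_le hmH]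
      refine Integrable.ofReal ?_
      refine IntegrableOn.indicator ?_ measurableSet_Ico
      exact integrableOn_const (by simp)
  -- the bounds for the lengths
  have hIb : ∀ n ∈ Ioc m N, 0 ≤ I n ∧ I n ≤ n * δ ∧
      ((m : ℝ) * Real.exp δ ≤ n → n ≤ m + H → n * (δ - δ ^ 2) ≤ I n) := by
    intro n hn
    have hn0 : (0 : ℝ) ≤ n := Nat.cast_nonneg n
    have h2 := Add_len (m : ℝ) ((m + H : ℕ) : ℝ) ((n : ℝ) * Real.exp (-δ)) n hmH
      (by nlinarith)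
    rw [hI]
    refine ⟨h2.1, h2.2.1.trans (by nlinarith), fun h3 h4 => ?_⟩
    have h5 : (m : ℝ) ≤ n * Real.exp (-δ) := by
      rw [Real.exp_neg, ← div_eq_mul_inv, le_div_iff₀ (Real.exp_pos δ)]
      exact h3
    have h6 := h2.2.2 h5 (by exact_mod_cast h4)
    beta_reduce
    rw [h6]
    nlinarith
  -- the coefficients
  obtain ⟨c, hc⟩ : ∃ c : ℕ → ℝ, c = fun n : ℕ => (if n ≤ m + H then (1 : ℝ) else 0) - I n / (n * δ) :=
    ⟨_, rfl⟩
  have hdiff : ∑ n ∈ Ioc m (m + H), f n - ∫ y in (m : ℝ)..((m + H : ℕ) : ℝ), Gy f δ y =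
      ∑ n ∈ Ioc m N, f n * ((c n : ℝ) : ℂ) := by
    have h2 : ∑ n ∈ Ioc m (m + H), f n = ∑ n ∈ Ioc m N, f n * (if n ≤ m + H then (1 : ℂ) else 0) := by
      have h3 : Ioc m (m + H) = (Ioc m N).filter (fun n => n ≤ m + H) := by
        ext n
        simp only [Finset.mem_Ioc, Finset.mem_filter]
        omega
      rw [h3, Finset.sum_filter]
      refine Finset.sum_congr rfl fun n _ => ?_
      split_ifs <;> simp
    rw [hint, h2, Finset.mul_sum, ← Finset.sum_sub_distrib]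
    refine Finset.sum_congr rfl fun n hn => ?_
    rw [Finset.mem_Ioc] at hn
    have hn0 : (n : ℂ) ≠ 0 := by
      have : n ≠ 0 := by omega
      exact_mod_cast this
    have hδc : (δ : ℂ) ≠ 0 := by exact_mod_cast hδ0.ne'
    rw [hc]
    push_cast
    split_ifs
    · rw [Complex.ofReal_one]
      field_simp
    · rw [Complex.ofReal_zero]
      field_simp
  have hcb : ∀ n ∈ Ioc m N, |c n| ≤ (if n ≤ ⌊(m : ℝ) * Real.exp δ⌋₊ then (1 : ℝ) else 0) +
      (if m + H < n then (1 : ℝ) else 0) + (if n ≤ m + H then δ else 0) := by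
    intro n hn
    obtain ⟨h2, h3, h4⟩ := hIb n hn
    rw [Finset.mem_Ioc] at hn
    have hn0 : (0 : ℝ) < n := by exact_mod_cast (by omega : 0 < n)
    have hnd : 0 < (n : ℝ) * δ := by positivity
    have h5 : 0 ≤ I n / (n * δ) := div_nonneg h2 hnd.le
    have h6 : I n / (n * δ) ≤ 1 := (div_le_one₀ hnd).2 h3
    rw [hc]
    beta_reduce
    by_cases h7 : n ≤ m + H
    · rw [if_pos h7, if_neg (show ¬ m + H < n by omega), if_pos h7]
      by_cases h8 : n ≤ ⌊(m : ℝ) * Real.exp δ⌋₊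
      · rw [if_pos h8, abs_le]
        constructor <;> linarith
      · rw [if_neg h8]
        have h9 : (m : ℝ) * Real.exp δ ≤ n := by
          by_contra h10
          exact h8 (Nat.le_floor (not_le.1 h10).le)
        have h10 := h4 h9 h7
        have h11 : 1 - δ ≤ I n / (n * δ) := by
          rw [le_div_iff₀ hnd]
          nlinarith
        rw [abs_le]
        constructor <;> linarith
    · rw [if_neg h7, if_pos (show m + H < n by omega), if_neg h7]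
      have h8 : (0 : ℝ) ≤ (if n ≤ ⌊(m : ℝ) * Real.exp δ⌋₊ then (1 : ℝ) else 0) := by
        split_ifs <;> norm_num
      rw [abs_le]
      constructor <;> linarith
  rw [hdiff]
  have hs1 : ∑ n ∈ Ioc m N, (if n ≤ ⌊(m : ℝ) * Real.exp δ⌋₊ then (1 : ℝ) else 0) ≤ 33 / 10 * h := by
    rw [← Finset.sum_filter, Finset.sum_const, nsmul_eq_mul, mul_one]
    have h2 : ((Ioc m N).filter (fun n => n ≤ ⌊(m : ℝ) * Real.exp δ⌋₊)).card ≤
        (Ioc m ⌊(m : ℝ) * Real.exp δ⌋₊).card := by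
      refine Finset.card_le_card fun n hn => ?_
      rw [Finset.mem_filter, Finset.mem_Ioc] at hn
      rw [Finset.mem_Ioc]
      exact ⟨hn.1.1, hn.2⟩
    rw [Nat.card_Ioc] at h2
    have h3 : m ≤ ⌊(m : ℝ) * Real.exp δ⌋₊ := Nat.le_floor (by nlinarith)
    have h4 : (⌊(m : ℝ) * Real.exp δ⌋₊ : ℝ) ≤ m * Real.exp δ := Nat.floor_le (by positivity)
    have h5 : (((Ioc m N).filter (fun n => n ≤ ⌊(m : ℝ) * Real.exp δ⌋₊)).card : ℝ) ≤
        (⌊(m : ℝ) * Real.exp δ⌋₊ : ℝ) - m := by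
      rw [← Nat.cast_sub h3]
      exact_mod_cast h2
    have h6 : (m : ℝ) * (Real.exp δ - 1) ≤ 3 * X * (11 / 10 * δ) :=
      mul_le_mul hm hexp1 (by linarith) (by positivity)
    nlinarith
  have hs2 : ∑ n ∈ Ioc m N, (if m + H < n then (1 : ℝ) else 0) ≤ 341 / 100 * h := by
    rw [← Finset.sum_filter, Finset.sum_const, nsmul_eq_mul, mul_one]
    have h2 : ((Ioc m N).filter (fun n => m + H < n)).card ≤ (Ioc (m + H) N).card := by
      refine Finset.card_le_card fun n hn => ?_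
      rw [Finset.mem_filter, Finset.mem_Ioc] at hn
      rw [Finset.mem_Ioc]
      exact ⟨hn.2, hn.1.2⟩
    rw [Nat.card_Ioc] at h2
    have h5 : (((Ioc m N).filter (fun n => m + H < n)).card : ℝ) ≤ (N : ℝ) - ((m + H : ℕ) : ℝ) := by
      rw [← Nat.cast_sub hNge]
      exact_mod_cast h2
    have h7 : ((m + H : ℕ) : ℝ) ≤ 31 / 10 * X := by
      push_cast
      linarith
    have h6 : ((m + H : ℕ) : ℝ) * (Real.exp δ - 1) ≤ 31 / 10 * X * (11 / 10 * δ) :=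
      mul_le_mul h7 hexp1 (by linarith) (by positivity)
    nlinarith
  have hs3 : ∑ n ∈ Ioc m N, (if n ≤ m + H then δ else 0) ≤ 1 / 10 * h := by
    rw [← Finset.sum_filter, Finset.sum_const, nsmul_eq_mul]
    have h2 : ((Ioc m N).filter (fun n => n ≤ m + H)).card ≤ (Ioc m (m + H)).card := by
      refine Finset.card_le_card fun n hn => ?_
      rw [Finset.mem_filter, Finset.mem_Ioc] at hn
      rw [Finset.mem_Ioc]
      exact ⟨hn.1.1, hn.2⟩
    rw [Nat.card_Ioc, Nat.add_sub_cancel_left] at h2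
    have h3 : (((Ioc m N).filter (fun n => n ≤ m + H)).card : ℝ) ≤ H := by exact_mod_cast h2
    have h4 : (((Ioc m N).filter (fun n => n ≤ m + H)).card : ℝ) * δ ≤ H * δ :=
      mul_le_mul_of_nonneg_right h3 hδ0.le
    have h5 : (H : ℝ) * δ ≤ X / 10 * δ := mul_le_mul_of_nonneg_right (by linarith) hδ0.le
    nlinarith
  calc ‖∑ n ∈ Ioc m N, f n * ((c n : ℝ) : ℂ)‖
      ≤ ∑ n ∈ Ioc m N, ‖f n * ((c n : ℝ) : ℂ)‖ := norm_sum_le _ _
    _ ≤ ∑ n ∈ Ioc m N, |c n| := by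
        refine Finset.sum_le_sum fun n _ => ?_
        rw [norm_mul, Complex.norm_real, Real.norm_eq_abs]
        exact mul_le_of_le_one_left (abs_nonneg _) (hf n)
    _ ≤ ∑ n ∈ Ioc m N, ((if n ≤ ⌊(m : ℝ) * Real.exp δ⌋₊ then (1 : ℝ) else 0) +
          (if m + H < n then (1 : ℝ) else 0) + (if n ≤ m + H then δ else 0)) :=
        Finset.sum_le_sum hcb
    _ ≤ 7 * h := by
        rw [Finset.sum_add_distrib, Finset.sum_add_distrib]
        linarith

/-- `δ = h/X ≤ 1/10`. For `3X/2 ≤ m ≤ 3X`: `∫_m^{m+H} Gy f δ y dy = ∑_n (f n/n) δ^{-1} |[ne^{-δ}, n) ∩ [m, m+H]|`; for `me^δ ≤ n ≤ m+H` the length is `n(1 - e^{-δ}) = nδ(1 + O(δ))`; the other `n` lie in `(m, me^δ]` or `(m+H, (m+H)e^δ]`, at most `C(h+1)` integers, each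
with weight `≤ 1` (and weight `≤ 1` in the sum to be compared). So `‖∑_{m<n≤m+H} f n - ∫_m^{m+H} Gy‖ ≤ C(h + 1 + δH) ≤ C'h`. Sum over `m`: `∑_m ∫_m^{m+H} ‖Gy‖ ≤ (H+1) ∫_{3X/2}^{7X/2} ‖Gy‖ ≤ 2H (2X)^{1/2} (∫ ‖Gy‖²)^{1/2}`; `box` (`δT = hT/X`). -/
theorem addint : ∃ C : ℝ, 0 < C ∧ ∀ (f : ℕ → ℂ) (X T h : ℝ) (H : ℕ), (∀ n, ‖f n‖ ≤ 1) →
    10 * (H : ℝ) ≤ X → 1 ≤ h → h ≤ H → 1 ≤ T → T ≤ X →
    ∑ m ∈ Ioc ⌊3 * X / 2⌋₊ ⌊3 * X⌋₊, ‖∑ n ∈ Ioc m (m + H), f n‖ ≤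
      C * H * X * Real.sqrt ((∫ t in (-T)..T, ‖Av f X t‖ ^ 2) + (X / (h * T)) ^ 2) + C * X * h := by
  obtain ⟨C0, hC0, hbox⟩ := box
  refine ⟨Real.sqrt (2 * C0) + 14, by positivity, fun f X T h H hf hX h1 hH hT hTX => ?_⟩
  have hX10 : 10 ≤ X := by linarith
  have hX0 : 0 < X := by linarith
  have hHr : (1 : ℝ) ≤ H := h1.trans hH
  have hH1 : 1 ≤ H := by exact_mod_cast hHr
  obtain ⟨δ, hδ⟩ : ∃ δ, δ = h / X := ⟨_, rfl⟩
  have hδ0 : 0 < δ := by
    rw [hδ]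
    positivity
  have hδ1 : δ ≤ 1 / 10 := by
    rw [hδ, div_le_iff₀ hX0]
    linarith
  obtain ⟨a, ha⟩ : ∃ a, a = ⌊3 * X / 2⌋₊ := ⟨_, rfl⟩
  obtain ⟨b, hb⟩ : ∃ b, b = ⌊3 * X⌋₊ := ⟨_, rfl⟩
  rw [← ha, ← hb]
  have hab : a ≤ b := by
    rw [ha, hb]
    exact Nat.floor_le_floor (by linarith)
  have ha1 : 3 * X / 2 < a + 1 := by
    rw [ha]
    exact Nat.lt_floor_add_one _
  have hb1 : (b : ℝ) ≤ 3 * X := by
    rw [hb]
    exact Nat.floor_le (by linarith)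
  obtain ⟨Q, hQ⟩ : ∃ Q, Q = (∫ t in (-T)..T, ‖Av f X t‖ ^ 2) + (X / (h * T)) ^ 2 := ⟨_, rfl⟩
  have hbox' := hbox f X δ T hf (by linarith) hδ0 hδ1 hT hTX
  have hQ2 : (∫ t in (-T)..T, ‖Av f X t‖ ^ 2) + 1 / (δ * T) ^ 2 = Q := by
    rw [hQ, hδ]
    congr 1
    field_simp
  rw [hQ2] at hbox'
  rw [← hQ]
  have hA0 : 0 ≤ 3 * X / 2 := by linarith
  have hAB : 3 * X / 2 < 7 * X / 2 := by linarith
  have hint1 := Add_int f hf δ hδ0 (3 * X / 2) (7 * X / 2) hA0 hAB.le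
  have hint2 := Add_int2 f hf δ hδ0 (3 * X / 2) (7 * X / 2) hA0 hAB.le
  have hcs := Add_csq (fun y => ‖Gy f δ y‖) (3 * X / 2) (7 * X / 2) hAB hint1.norm hint2
  beta_reduce at hcs
  have h2X : 7 * X / 2 - 3 * X / 2 = 2 * X := by ring
  rw [h2X] at hcs
  have hcs2 : ∫ y in (3 * X / 2)..(7 * X / 2), ‖Gy f δ y‖ ≤ Real.sqrt (2 * C0) * X * Real.sqrt Q := by
    refine hcs.trans ?_
    have h3 : Real.sqrt (∫ y in (3 * X / 2)..(7 * X / 2), ‖Gy f δ y‖ ^ 2) ≤ Real.sqrt (C0 * X * Q) :=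
      Real.sqrt_le_sqrt hbox'
    refine (mul_le_mul_of_nonneg_left h3 (Real.sqrt_nonneg _)).trans (le_of_eq ?_)
    rw [← Real.sqrt_mul (by positivity)]
    have h4 : 2 * X * (C0 * X * Q) = (2 * C0) * (X ^ 2 * Q) := by ring
    rw [h4, Real.sqrt_mul (show (0 : ℝ) ≤ 2 * C0 by positivity),
      Real.sqrt_mul (show (0 : ℝ) ≤ X ^ 2 by positivity), Real.sqrt_sq hX0.le]
    ring
  have hsum := Add_sum (fun y => ‖Gy f δ y‖) (fun y => norm_nonneg _) (3 * X / 2) (7 * X / 2) a b H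
    hab ha1.le (by linarith) hH1 hint1.norm
  have hterm : ∀ m ∈ Ioc a b, ‖∑ n ∈ Ioc m (m + H), f n‖ ≤
      (∫ y in (m : ℝ)..((m + H : ℕ) : ℝ), ‖Gy f δ y‖) + 7 * h := by
    intro m hm
    rw [Finset.mem_Ioc] at hm
    have hm1 : (a : ℝ) + 1 ≤ m := by exact_mod_cast hm.1
    have hm2 : (m : ℝ) ≤ b := by exact_mod_cast hm.2
    have h3 := Add_pt f hf X h m H h1 hH hX (by omega) (by linarith)
    rw [← hδ] at h3
    have h4 : ‖∫ y in (m : ℝ)..((m + H : ℕ) : ℝ), Gy f δ y‖ ≤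
        ∫ y in (m : ℝ)..((m + H : ℕ) : ℝ), ‖Gy f δ y‖ :=
      intervalIntegral.norm_integral_le_integral_norm (by exact_mod_cast Nat.le_add_right m H)
    have h5 := norm_le_norm_add_norm_sub' (∑ n ∈ Ioc m (m + H), f n)
      (∫ y in (m : ℝ)..((m + H : ℕ) : ℝ), Gy f δ y)
    linarith
  have hcard : ((Ioc a b).card : ℝ) ≤ 2 * X := by
    rw [Nat.card_Ioc, Nat.cast_sub hab]
    linarith
  have hHX : 0 ≤ (H : ℝ) * X := by positivity
  calc ∑ m ∈ Ioc a b, ‖∑ n ∈ Ioc m (m + H), f n‖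
      ≤ ∑ m ∈ Ioc a b, ((∫ y in (m : ℝ)..((m + H : ℕ) : ℝ), ‖Gy f δ y‖) + 7 * h) :=
        Finset.sum_le_sum hterm
    _ = ∑ m ∈ Ioc a b, (∫ y in (m : ℝ)..((m + H : ℕ) : ℝ), ‖Gy f δ y‖) +
          ((Ioc a b).card : ℝ) * (7 * h) := by
        rw [Finset.sum_add_distrib, Finset.sum_const, nsmul_eq_mul]
    _ ≤ H * (Real.sqrt (2 * C0) * X * Real.sqrt Q) + 2 * X * (7 * h) := by
        refine add_le_add (hsum.trans (mul_le_mul_of_nonneg_left hcs2 (by positivity)))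
          (mul_le_mul_of_nonneg_right hcard (by linarith))
    _ ≤ (Real.sqrt (2 * C0) + 14) * H * X * Real.sqrt Q + (Real.sqrt (2 * C0) + 14) * X * h := by
        have h3 : 0 ≤ 14 * ((H : ℝ) * X * Real.sqrt Q) := by positivity
        have h4 : 0 ≤ Real.sqrt (2 * C0) * (X * h) := by positivity
        nlinarith

end Pool.Agent.Mrd
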