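import Pool.Agent.Mrd.Mert

/-!
Mrd EP: Euler products close to the line `Re s = 1`.
-/

set_option autoImplicit false

namespace Pool.Agent.Mrd

open Finset MeasureTheory Filter Topology

/-- the completely multiplicative function `g(n) n^{-(1+σ)-it}` -/
private noncomputable def EP_f (g : ℕ → ℂ) (hg : CM g) (σ t : ℝ) (hσ : 0 < σ) : ℕ →*₀ ℂ where
  toFun n := g n * (((n : ℝ) ^ (-(1 + σ)) : ℝ) : ℂ) * tw t n
  map_zero' := by
    rw [hg.zero]
    simp
  map_one' := by
    rw [hg.one, tw_one, Nat.cast_one, Real.one_rpow]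
    simp
  map_mul' := by
    intro m n
    rcases Nat.eq_zero_or_pos m with h | h
    · subst h
      simp [hg.zero]
    rcases Nat.eq_zero_or_pos n with h' | h'
    · subst h'
      simp [hg.zero]
    rw [hg.mul, tw_mul t h.ne' h'.ne', Nat.cast_mul, Real.mul_rpow (by positivity) (by positivity)]
    push_cast
    ring

private theorem EP_f_apply (g : ℕ → ℂ) (hg : CM g) (σ t : ℝ) (hσ : 0 < σ) (n : ℕ) :
    EP_f g hg σ t hσ n = g n * (((n : ℝ) ^ (-(1 + σ)) : ℝ) : ℂ) * tw t n := rfl

private theorem EP_f_norm (g : ℕ → ℂ) (hg : CM g) (σ t : ℝ) (hσ : 0 < σ) (n : ℕ) :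
    ‖EP_f g hg σ t hσ n‖ ≤ (n : ℝ) ^ (-(1 + σ)) := by
  rw [EP_f_apply, norm_mul, norm_mul, tw_norm, mul_one, Complex.norm_real,
    Real.norm_of_nonneg (by positivity)]
  calc ‖g n‖ * (n : ℝ) ^ (-(1 + σ)) ≤ 1 * (n : ℝ) ^ (-(1 + σ)) :=
        mul_le_mul_of_nonneg_right (hg.bdd n) (by positivity)
    _ = (n : ℝ) ^ (-(1 + σ)) := one_mul _

private theorem EP_log {z : ℂ} (hz : ‖z‖ ≤ 1 / 2) : |(-Complex.log (1 - z)).re - z.re| ≤ ‖z‖ ^ 2 := by
  have h1 := Complex.norm_log_one_sub_inv_sub_self_le (z := z) (by linarith)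
  have hsl : (1 - z).arg ≠ Real.pi := by
    have h2 : 1 - z ∈ Complex.slitPlane := by
      left
      rw [Complex.sub_re, Complex.one_re]
      have := Complex.re_le_norm z
      linarith
    exact Complex.slitPlane_arg_ne_pi h2
  rw [Complex.log_inv _ hsl] at h1
  rw [← Complex.sub_re]
  refine (Complex.abs_re_le_norm _).trans (h1.trans ?_)
  have h3 : (1 - ‖z‖)⁻¹ ≤ 2 := by
    rw [inv_le_comm₀ (by linarith) (by norm_num)]
    linarith
  have h4 : 0 ≤ ‖z‖ ^ 2 := by positivity
  nlinarith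

/-- the tail -/
private theorem EP_tail {C₁ : ℝ} (hC₁ : 0 < C₁)
    (hlog : ∀ x y : ℝ, 1 ≤ x → x ≤ y → ∑ p ∈ pr x y, Real.log p / p ≤ Real.log (y / x) + C₁)
    {x : ℝ} (hx : 2 ≤ x) (J : ℕ) :
    ∑ p ∈ pr x (x * Real.exp J), (p : ℝ) ^ (-(1 + 1 / Real.log x)) ≤
      (1 + C₁) / Real.log x * ∑ j ∈ Finset.range J, Real.exp (-(1 / Real.log x)) ^ j := by
  have hlx : 0 < Real.log x := Real.log_pos (by linarith)
  have hx0 : 0 < x := by linarith
  induction J with
  | zero =>
    rw [Nat.cast_zero, Real.exp_zero, mul_one, Finset.sum_range_zero, mul_zero]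
    have : pr x x = ∅ := by
      unfold pr
      simp
    rw [this, Finset.sum_empty]
  | succ J ih =>
    have hmono : x * Real.exp J ≤ x * Real.exp ((J + 1 : ℕ) : ℝ) := by
      apply mul_le_mul_of_nonneg_left _ hx0.le
      apply Real.exp_le_exp.mpr
      push_cast
      linarith
    have hle : x ≤ x * Real.exp J := by
      nlinarith [Real.one_le_exp (show (0 : ℝ) ≤ J by positivity)]
    have hsub : pr x (x * Real.exp ((J + 1 : ℕ) : ℝ)) ⊆
        pr x (x * Real.exp J) ∪ pr (x * Real.exp J) (x * Real.exp ((J + 1 : ℕ) : ℝ)) := by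
      intro p hp
      rw [mem_pr hx0.le (by positivity)] at hp
      rw [Finset.mem_union, mem_pr hx0.le (by positivity), mem_pr (by positivity) (by positivity)]
      rcases le_or_gt (p : ℝ) (x * Real.exp J) with h | h
      · exact Or.inl ⟨hp.1, hp.2.1, h⟩
      · exact Or.inr ⟨hp.1, h, hp.2.2⟩
    have h1 : ∑ p ∈ pr x (x * Real.exp ((J + 1 : ℕ) : ℝ)), (p : ℝ) ^ (-(1 + 1 / Real.log x)) ≤
        ∑ p ∈ pr x (x * Real.exp J), (p : ℝ) ^ (-(1 + 1 / Real.log x)) +
        ∑ p ∈ pr (x * Real.exp J) (x * Real.exp ((J + 1 : ℕ) : ℝ)),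
          (p : ℝ) ^ (-(1 + 1 / Real.log x)) := by
      refine (Finset.sum_le_sum_of_subset_of_nonneg hsub fun p _ _ => by positivity).trans ?_
      rw [← Finset.sum_union_inter]
      have : 0 ≤ ∑ p ∈ pr x (x * Real.exp J) ∩
          pr (x * Real.exp J) (x * Real.exp ((J + 1 : ℕ) : ℝ)),
          (p : ℝ) ^ (-(1 + 1 / Real.log x)) := Finset.sum_nonneg fun p _ => by positivity
      linarith
    have h2 : ∑ p ∈ pr (x * Real.exp J) (x * Real.exp ((J + 1 : ℕ) : ℝ)),
          (p : ℝ) ^ (-(1 + 1 / Real.log x)) ≤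
        ∑ p ∈ pr (x * Real.exp J) (x * Real.exp ((J + 1 : ℕ) : ℝ)),
          Real.exp (-(1 / Real.log x)) ^ J / Real.log x * (Real.log p / p) := by
      refine Finset.sum_le_sum fun p hp => ?_
      rw [mem_pr (by positivity) (by positivity)] at hp
      obtain ⟨hp1, hp2, -⟩ := hp
      have hp0 : (0 : ℝ) < p := by exact_mod_cast hp1.pos
      have hxp : x ≤ p := hle.trans hp2.le
      have e1 : (p : ℝ) ^ (-(1 + 1 / Real.log x)) = (p : ℝ) ^ (-(1 / Real.log x)) * (p : ℝ)⁻¹ := by
        rw [← Real.rpow_neg_one, ← Real.rpow_add hp0]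
        congr 1
        ring
      have e2 : (p : ℝ) ^ (-(1 / Real.log x)) ≤ Real.exp (-(1 / Real.log x)) ^ J := by
        rw [← Real.exp_nat_mul, Real.rpow_def_of_pos hp0]
        apply Real.exp_le_exp.mpr
        have h3 : (J : ℝ) ≤ Real.log p := by
          have h4 : Real.exp J ≤ p := by
            have : Real.exp J ≤ x * Real.exp J := by nlinarith [Real.exp_pos (J : ℝ)]
            linarith
          rw [← Real.log_exp (J : ℝ)]
          exact Real.log_le_log (Real.exp_pos _) h4
        have h5 : 0 < 1 / Real.log x := by positivity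
        nlinarith
      have e3 : 1 ≤ Real.log p / Real.log x := by
        rw [le_div_iff₀ hlx, one_mul]
        exact Real.log_le_log hx0 hxp
      rw [e1]
      have e4 : 0 < Real.exp (-(1 / Real.log x)) ^ J := by positivity
      calc (p : ℝ) ^ (-(1 / Real.log x)) * (p : ℝ)⁻¹
          ≤ Real.exp (-(1 / Real.log x)) ^ J * (p : ℝ)⁻¹ :=
            mul_le_mul_of_nonneg_right e2 (by positivity)
        _ = Real.exp (-(1 / Real.log x)) ^ J * (p : ℝ)⁻¹ * 1 := (mul_one _).symm
        _ ≤ Real.exp (-(1 / Real.log x)) ^ J * (p : ℝ)⁻¹ * (Real.log p / Real.log x) :=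
            mul_le_mul_of_nonneg_left e3 (by positivity)
        _ = Real.exp (-(1 / Real.log x)) ^ J / Real.log x * (Real.log p / p) := by
            field_simp
    have h3 := hlog (x * Real.exp J) (x * Real.exp ((J + 1 : ℕ) : ℝ)) (by linarith) hmono
    have h4 : Real.log (x * Real.exp ((J + 1 : ℕ) : ℝ) / (x * Real.exp J)) = 1 := by
      have : x * Real.exp ((J + 1 : ℕ) : ℝ) / (x * Real.exp J) = Real.exp 1 := by
        rw [Nat.cast_add, Nat.cast_one, Real.exp_add]
        field_simp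
      rw [this, Real.log_exp]
    rw [h4] at h3
    rw [Finset.sum_range_succ, mul_add]
    refine h1.trans (add_le_add ih (h2.trans ?_))
    rw [← Finset.mul_sum]
    calc Real.exp (-(1 / Real.log x)) ^ J / Real.log x *
          ∑ p ∈ pr (x * Real.exp J) (x * Real.exp ((J + 1 : ℕ) : ℝ)), Real.log p / p
        ≤ Real.exp (-(1 / Real.log x)) ^ J / Real.log x * (1 + C₁) :=
          mul_le_mul_of_nonneg_left h3 (by positivity)
      _ = (1 + C₁) / Real.log x * Real.exp (-(1 / Real.log x)) ^ J := by ring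

private theorem EP_geom {L : ℝ} (hL : 0 < L) (J : ℕ) :
    ∑ j ∈ Finset.range J, Real.exp (-(1 / L)) ^ j ≤ L + 1 := by
  have h0 : Real.exp (-(1 / L)) < 1 := by
    rw [Real.exp_lt_one_iff]
    have : 0 < 1 / L := by positivity
    linarith
  have h1 : ∑ j ∈ Finset.range J, Real.exp (-(1 / L)) ^ j ≤ (1 - Real.exp (-(1 / L)))⁻¹ := by
    rw [← tsum_geometric_of_lt_one (Real.exp_pos _).le h0]
    exact (summable_geometric_of_lt_one (Real.exp_pos _).le h0).sum_le_tsum _
      fun j _ => by positivity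
  refine h1.trans ?_
  have h2 : Real.exp (-(1 / L)) ≤ L / (L + 1) := by
    rw [Real.exp_neg, inv_le_comm₀ (Real.exp_pos _) (by positivity), inv_div]
    have := Real.add_one_le_exp (1 / L)
    refine le_trans (le_of_eq ?_) this
    field_simp
    ring
  have h3 : 1 / (L + 1) ≤ 1 - Real.exp (-(1 / L)) := by
    have : 1 / (L + 1) = 1 - L / (L + 1) := by
      field_simp
      ring
    rw [this]
    linarith
  rw [inv_le_comm₀ (by linarith) (by positivity), inv_eq_one_div]
  exact h3

/-- `σ = 1/log x`, `s = 1 + σ + it`. Euler product (Mathlib: `EulerProduct.eulerProduct_completely_multiplicative_hasProd`,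
`summable_and_hasSum...`): `log |G(s)| = -∑_p Re log(1 - g(p) p^{-s}) = ∑_p Re(g(p) p^{-s}) + O(∑_p p^{-2})`. Moreover
`∑_{p ≤ x} (1 - p^{-σ})/p ≤ σ ∑_{p ≤ x} log p/p ≤ C`, and `∑_{p > x} p^{-1-σ} ≤ C`: the primes in `(x e^j, x e^{j+1}]` contribute
`≤ x^{-σ} e^{-σj} · C/log x` (`logsum`), and `∑_j e^{-σ j} ≤ C/σ = C log x`. -/
theorem euler : ∃ C : ℝ, 0 < C ∧ ∀ (g : ℕ → ℂ) (x t : ℝ), CM g → 2 ≤ x →
    ‖Gs g (1 / Real.log x) t‖ ≤ Real.exp (C + ∑ p ∈ pr 0 x, (g p * tw t p).re / p) ∧
    Real.exp (-C + ∑ p ∈ pr 0 x, (g p * tw t p).re / p) ≤ ‖Gs g (1 / Real.log x) t‖ := by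
  obtain ⟨C₁, hC₁, hlog⟩ := logsum
  set Z : ℝ := ∑' n : ℕ, (n : ℝ) ^ (-2 : ℝ) with hZ
  have hZs : Summable fun n : ℕ => (n : ℝ) ^ (-2 : ℝ) := Real.summable_nat_rpow.mpr (by norm_num)
  have hZ0 : 0 ≤ Z := tsum_nonneg fun n => by positivity
  have hl2 : 0 < Real.log 2 := Real.log_pos (by norm_num)
  refine ⟨Z + (1 + C₁ / Real.log 2) + (1 + C₁) * (1 + 1 / Real.log 2), by positivity,
    fun g x t hg hx => ?_⟩
  set C : ℝ := Z + (1 + C₁ / Real.log 2) + (1 + C₁) * (1 + 1 / Real.log 2) with hC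
  have hx0 : 0 < x := by linarith
  have hlx2 : Real.log 2 ≤ Real.log x := Real.log_le_log (by norm_num) hx
  have hlx : 0 < Real.log x := hl2.trans_le hlx2
  set σ : ℝ := 1 / Real.log x with hσ
  have hσ0 : 0 < σ := by positivity
  set f := EP_f g hg σ t hσ0 with hf
  have hfa : ∀ n, f n = g n * (((n : ℝ) ^ (-(1 + σ)) : ℝ) : ℂ) * tw t n := fun n => rfl
  have hfn : ∀ n, ‖f n‖ ≤ (n : ℝ) ^ (-(1 + σ)) := EP_f_norm g hg σ t hσ0
  have hsum : Summable (‖f ·‖) := Summable.of_nonneg_of_le (fun n => norm_nonneg _) hfn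
    (Real.summable_nat_rpow.mpr (by linarith))
  have hG : Gs g σ t = Complex.exp (∑' p : Nat.Primes, -Complex.log (1 - f p)) := by
    rw [EulerProduct.exp_tsum_primes_log_eq_tsum hsum]
    rfl
  set P : ℕ → ℂ := {p : ℕ | p.Prime}.indicator fun n => -Complex.log (1 - f n) with hP
  have hPs : Summable P := (hsum.of_norm.clog_one_sub.neg).indicator _
  have hPt : ∑' p : Nat.Primes, -Complex.log (1 - f p) = ∑' n, P n :=
    tsum_subtype {p : ℕ | p.Prime} fun n => -Complex.log (1 - f n)
  set Q : ℕ → ℝ := fun n => if n ∈ pr 0 x then (g n * tw t n).re / n else 0 with hQ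
  have hQt : HasSum Q (∑ p ∈ pr 0 x, (g p * tw t p).re / p) := by
    have h1 : ∑ p ∈ pr 0 x, (g p * tw t p).re / p = ∑ p ∈ pr 0 x, Q p := by
      refine Finset.sum_congr rfl fun p hp => ?_
      rw [hQ]
      beta_reduce
      rw [if_pos hp]
    rw [h1]
    refine hasSum_sum_of_ne_finset_zero fun n hn => ?_
    rw [hQ]
    beta_reduce
    rw [if_neg hn]
  set E : ℕ → ℝ := fun n => (n : ℝ) ^ (-2 : ℝ) + ((if n ∈ pr 0 x then σ * (Real.log n / n) else 0) +
    (if n.Prime ∧ x < n then (n : ℝ) ^ (-(1 + σ)) else 0)) with hE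
  have hE0 : ∀ n, 0 ≤ E n := by
    intro n
    rw [hE]
    beta_reduce
    have h1 : 0 ≤ Real.log n := Real.log_natCast_nonneg n
    split_ifs <;> positivity
  -- the sums of E
  have hEsum : ∀ A : Finset ℕ, ∑ n ∈ A, E n ≤ C := by
    intro A
    rw [hE]
    beta_reduce
    rw [Finset.sum_add_distrib, Finset.sum_add_distrib]
    have h1 : ∑ n ∈ A, (n : ℝ) ^ (-2 : ℝ) ≤ Z := hZs.sum_le_tsum _ fun n _ => by positivity
    have h2 : ∑ n ∈ A, (if n ∈ pr 0 x then σ * (Real.log n / n) else 0) ≤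
        1 + C₁ / Real.log 2 := by
      rw [← Finset.sum_filter]
      have hsub : A.filter (fun n => n ∈ pr 0 x) ⊆ pr 1 x := by
        intro n hn
        rw [Finset.mem_filter, mem_pr le_rfl hx0.le] at hn
        rw [mem_pr (by norm_num) hx0.le]
        exact ⟨hn.2.1, by exact_mod_cast hn.2.1.one_lt, hn.2.2.2⟩
      refine (Finset.sum_le_sum_of_subset_of_nonneg hsub fun p _ _ => ?_).trans ?_
      · have h1 : 0 ≤ Real.log p := Real.log_natCast_nonneg p
        positivity
      · rw [← Finset.mul_sum]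
        have h3 := hlog 1 x le_rfl (by linarith)
        rw [div_one] at h3
        calc σ * ∑ p ∈ pr 1 x, Real.log p / p ≤ σ * (Real.log x + C₁) :=
              mul_le_mul_of_nonneg_left h3 hσ0.le
          _ = 1 + C₁ / Real.log x := by
              rw [hσ]
              field_simp
          _ ≤ 1 + C₁ / Real.log 2 := by
              have := div_le_div_of_nonneg_left hC₁.le hl2 hlx2
              linarith
    have h3 : ∑ n ∈ A, (if n.Prime ∧ x < n then (n : ℝ) ^ (-(1 + σ)) else 0) ≤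
        (1 + C₁) * (1 + 1 / Real.log 2) := by
      rw [← Finset.sum_filter]
      obtain ⟨J, hJ⟩ : ∃ J : ℕ, ∀ n ∈ A, (n : ℝ) ≤ x * Real.exp J := by
        refine ⟨∑ n ∈ A, n, fun n hn => ?_⟩
        have h4 : (n : ℝ) ≤ ((∑ n ∈ A, n : ℕ) : ℝ) := by
          exact_mod_cast Finset.single_le_sum (f := fun n : ℕ => n) (fun _ _ => Nat.zero_le _) hn
        have h5 := Real.add_one_le_exp ((∑ n ∈ A, n : ℕ) : ℝ)
        have h6 := Real.exp_pos ((∑ n ∈ A, n : ℕ) : ℝ)
        nlinarith
      have hsub : A.filter (fun n : ℕ => n.Prime ∧ x < (n : ℝ)) ⊆ pr x (x * Real.exp J) := by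
        intro n hn
        rw [Finset.mem_filter] at hn
        rw [mem_pr hx0.le (by positivity)]
        exact ⟨hn.2.1, hn.2.2, hJ n hn.1⟩
      refine (Finset.sum_le_sum_of_subset_of_nonneg hsub fun p _ _ => by positivity).trans ?_
      refine (EP_tail hC₁ hlog hx J).trans ?_
      have h4 := EP_geom hlx J
      calc (1 + C₁) / Real.log x * ∑ j ∈ Finset.range J, Real.exp (-(1 / Real.log x)) ^ j
          ≤ (1 + C₁) / Real.log x * (Real.log x + 1) :=
            mul_le_mul_of_nonneg_left h4 (by positivity)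
        _ = (1 + C₁) * (1 + 1 / Real.log x) := by field_simp
        _ ≤ (1 + C₁) * (1 + 1 / Real.log 2) := by
            have := one_div_le_one_div_of_le hl2 hlx2
            apply mul_le_mul_of_nonneg_left _ (by linarith)
            linarith
    rw [hC]
    linarith
  have hEs : Summable E := summable_of_sum_le hE0 hEsum
  have hEt : ∑' n, E n ≤ C := hEs.tsum_le_of_sum_le hEsum
  -- the terms
  have hR : ∀ n, |(P n).re - Q n| ≤ E n := by
    intro n
    by_cases hn : n.Prime
    · have hn0 : (0 : ℝ) < n := by exact_mod_cast hn.pos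
      have hn2 : (2 : ℝ) ≤ n := by exact_mod_cast hn.two_le
      have hPn : P n = -Complex.log (1 - f n) := Set.indicator_of_mem (by exact hn) _
      have hfn1 : (n : ℝ) ^ (-(1 + σ)) ≤ (n : ℝ)⁻¹ := by
        rw [← Real.rpow_neg_one]
        exact Real.rpow_le_rpow_of_exponent_le (by linarith) (by linarith)
      have hfn2 : ‖f n‖ ≤ (n : ℝ)⁻¹ := (hfn n).trans hfn1
      have hfn3 : ‖f n‖ ≤ 1 / 2 := by
        refine hfn2.trans ?_
        rw [inv_eq_one_div]
        exact one_div_le_one_div_of_le (by norm_num) hn2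
      have h1 := EP_log hfn3
      have h2 : ‖f n‖ ^ 2 ≤ (n : ℝ) ^ (-2 : ℝ) := by
        refine (pow_le_pow_left₀ (norm_nonneg _) hfn2 2).trans (le_of_eq ?_)
        rw [Real.rpow_neg hn0.le, inv_pow]
        norm_cast
      have h3 : |(f n).re - Q n| ≤ (if n ∈ pr 0 x then σ * (Real.log n / n) else 0) +
          (if n.Prime ∧ x < n then (n : ℝ) ^ (-(1 + σ)) else 0) := by
        by_cases hnx : (n : ℝ) ≤ x
        · have hmem : n ∈ pr 0 x := by
            rw [mem_pr le_rfl hx0.le]
            exact ⟨hn, hn0, hnx⟩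
          rw [hQ]
          beta_reduce
          rw [if_pos hmem, if_pos hmem, if_neg (fun h => absurd h.2 (not_lt.mpr hnx)), add_zero]
          have e1 : (f n).re = (g n * tw t n).re * (n : ℝ) ^ (-(1 + σ)) := by
            rw [hfa]
            have : g n * (((n : ℝ) ^ (-(1 + σ)) : ℝ) : ℂ) * tw t n =
                (g n * tw t n) * (((n : ℝ) ^ (-(1 + σ)) : ℝ) : ℂ) := by ring
            rw [this, Complex.re_mul_ofReal]
          have e2 : (n : ℝ) ^ (-(1 + σ)) = (n : ℝ) ^ (-σ) * (n : ℝ)⁻¹ := by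
            rw [← Real.rpow_neg_one, ← Real.rpow_add hn0]
            congr 1
            ring
          have e3 : (f n).re - (g n * tw t n).re / n =
              (g n * tw t n).re * (((n : ℝ) ^ (-σ) - 1) * (n : ℝ)⁻¹) := by
            rw [e1, e2, div_eq_mul_inv]
            ring
          rw [e3, abs_mul]
          have e4 : |(g n * tw t n).re| ≤ 1 := by
            refine (Complex.abs_re_le_norm _).trans ?_
            rw [norm_mul, tw_norm, mul_one]
            exact hg.bdd n
          have e5 : |((n : ℝ) ^ (-σ) - 1) * (n : ℝ)⁻¹| ≤ σ * (Real.log n / n) := by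
            rw [abs_mul, abs_of_pos (inv_pos.mpr hn0)]
            have e6 : (n : ℝ) ^ (-σ) ≤ 1 := Real.rpow_le_one_of_one_le_of_nonpos (by linarith)
              (by linarith)
            rw [abs_of_nonpos (by linarith)]
            have e7 : 1 - σ * Real.log n ≤ (n : ℝ) ^ (-σ) := by
              rw [Real.rpow_def_of_pos hn0]
              have := Real.add_one_le_exp (Real.log n * -σ)
              linarith
            have e8 : σ * (Real.log n / n) = (σ * Real.log n) * (n : ℝ)⁻¹ := by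
              rw [div_eq_mul_inv]
              ring
            rw [e8]
            exact mul_le_mul_of_nonneg_right (by linarith) (by positivity)
          calc |(g n * tw t n).re| * |((n : ℝ) ^ (-σ) - 1) * (n : ℝ)⁻¹|
              ≤ 1 * |((n : ℝ) ^ (-σ) - 1) * (n : ℝ)⁻¹| :=
                mul_le_mul_of_nonneg_right e4 (abs_nonneg _)
            _ ≤ σ * (Real.log n / n) := by rw [one_mul]; exact e5
        · have hmem : n ∉ pr 0 x := by
            rw [mem_pr le_rfl hx0.le]
            exact fun h => hnx h.2.2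
          rw [hQ]
          beta_reduce
          rw [if_neg hmem, if_neg hmem, if_pos ⟨hn, not_le.mp hnx⟩, sub_zero, zero_add]
          exact (Complex.abs_re_le_norm _).trans (hfn n)
      rw [hPn]
      have h4 : (-Complex.log (1 - f n)).re - Q n =
          ((-Complex.log (1 - f n)).re - (f n).re) + ((f n).re - Q n) := by ring
      rw [h4]
      refine (abs_add_le _ _).trans ?_
      rw [hE]
      beta_reduce
      exact add_le_add (h1.trans h2) h3
    · have hPn : P n = 0 := Set.indicator_of_notMem (by exact hn) _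
      have hmem : n ∉ pr 0 x := by
        rw [mem_pr le_rfl hx0.le]
        exact fun h => hn h.1
      rw [hPn, hQ]
      beta_reduce
      rw [if_neg hmem, Complex.zero_re, sub_zero, abs_zero]
      exact hE0 n
  -- the conclusion
  have hPre : HasSum (fun n => (P n).re) (∑' n, P n).re := Complex.hasSum_re hPs.hasSum
  have hD := hPre.sub hQt
  have hDabs : |(∑' n, P n).re - ∑ p ∈ pr 0 x, (g p * tw t p).re / p| ≤ C := by
    rw [← hD.tsum_eq, ← Real.norm_eq_abs]
    refine (tsum_of_norm_bounded hEs.hasSum fun n => ?_).trans hEt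
    rw [Real.norm_eq_abs]
    exact hR n
  rw [abs_le] at hDabs
  rw [hG, Complex.norm_exp, hPt]
  exact ⟨Real.exp_le_exp.mpr (by linarith), Real.exp_le_exp.mpr (by linarith)⟩

end Pool.Agent.Mrd
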