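import Pool.Agent.Mrd.Defs
import Pool.Agent.CC.Mer
import Pool.Agent.BrunHooley.Mertens

/-!
Mrd MERT: Mertens type estimates, adapted to the sets `pr x y` (primes `x < p <= y`).
-/

set_option autoImplicit false

namespace Pool.Agent.Mrd

open Finset MeasureTheory Filter Topology

private theorem Mert_floor {x : ℝ} (hx : 2 ≤ x) : (1 : ℝ) / (⌊x⌋₊ : ℝ) ≤ 2 / Real.log x := by
  have h1 : x - 1 < (⌊x⌋₊ : ℝ) := by linarith [Nat.lt_floor_add_one x]
  have h2 : x / 2 ≤ (⌊x⌋₊ : ℝ) := by linarith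
  have h3 : 0 < Real.log x := Real.log_pos (by linarith)
  have h4 : Real.log x ≤ x := (Real.log_le_sub_one_of_pos (by linarith)).trans (by linarith)
  rw [div_le_div_iff₀ (by linarith) h3]
  linarith

private theorem Mert_ins {A B : Finset ℕ} {f : ℕ → ℝ} (n : ℕ) (hf : ∀ k, 0 ≤ f k) (h : A ⊆ insert n B) :
    ∑ p ∈ A, f p ≤ f n + ∑ p ∈ B, f p := by
  refine (Finset.sum_le_sum_of_subset_of_nonneg h fun i _ _ => hf i).trans ?_
  by_cases hn : n ∈ B
  · rw [Finset.insert_eq_of_mem hn]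
    linarith [hf n]
  · rw [Finset.sum_insert hn]

/-- `∑_{x < p ≤ y} 1/p = log (log y / log x) + O(1 / log x)`. From `Pool.Agent.CC.mertens2` (its set is
`W ≤ p < z`, so two end points may differ: each costs at most `1/x ≤ 1/log x`). -/
theorem mertens : ∃ C : ℝ, 0 < C ∧ ∀ x y : ℝ, 2 ≤ x → x ≤ y →
    |LP (pr x y) - Real.log (Real.log y / Real.log x)| ≤ C / Real.log x := by
  obtain ⟨C, hC, H⟩ := Pool.Agent.CC.mertens2
  refine ⟨C + 2, by linarith, fun x y hx hxy => ?_⟩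
  have h := H x y hx hxy
  have hlx : 0 < Real.log x := Real.log_pos (by linarith)
  have hly : Real.log x ≤ Real.log y := Real.log_le_log (by linarith) hxy
  have hf : ∀ k : ℕ, 0 ≤ 1 / (k : ℝ) := fun k => by positivity
  have h1 : LP (pr x y) ≤ 1 / (⌊y⌋₊ : ℝ) + ∑ p ∈ Pool.Agent.CC.pr 1 x y, 1 / (p : ℝ) := by
    apply Mert_ins (f := fun p : ℕ => 1 / (p : ℝ)) _ hf
    intro p hp
    rw [mem_pr (by linarith) (by linarith)] at hp
    obtain ⟨hp1, hp2, hp3⟩ := hp
    rw [Finset.mem_insert]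
    rcases hp3.lt_or_eq with h | h
    · right
      rw [Pool.Agent.CC.pr, Finset.mem_filter, Finset.mem_range, Nat.lt_ceil]
      exact ⟨h, hp1, by rw [Nat.dvd_one]; exact hp1.one_lt.ne', hp2.le⟩
    · left
      rw [← h, Nat.floor_natCast]
  have h2 : ∑ p ∈ Pool.Agent.CC.pr 1 x y, 1 / (p : ℝ) ≤ 1 / (⌊x⌋₊ : ℝ) + LP (pr x y) := by
    apply Mert_ins (f := fun p : ℕ => 1 / (p : ℝ)) _ hf
    intro p hp
    rw [Pool.Agent.CC.pr, Finset.mem_filter, Finset.mem_range, Nat.lt_ceil] at hp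
    obtain ⟨hp1, hp2, -, hp3⟩ := hp
    rw [Finset.mem_insert]
    rcases hp3.lt_or_eq with h | h
    · right
      rw [mem_pr (by linarith) (by linarith)]
      exact ⟨hp2, h, hp1.le⟩
    · left
      rw [h, Nat.floor_natCast]
  have h3 := Mert_floor hx
  have h4 : (1 : ℝ) / (⌊y⌋₊ : ℝ) ≤ 2 / Real.log x :=
    (Mert_floor (hx.trans hxy)).trans (div_le_div_of_nonneg_left (by norm_num) hlx hly)
  rw [abs_le] at h ⊢
  rw [add_div]
  constructor <;> linarith [h.1, h.2]

/-- `∑_{p ≤ x} 1/p = log log x + O(1)` -/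
theorem mertens_zero : ∃ C : ℝ, 0 < C ∧ ∀ x : ℝ, 2 ≤ x → |LP (pr 0 x) - Real.log (Real.log x)| ≤ C := by
  obtain ⟨C, hC, H⟩ := mertens
  have hl2 : 0 < Real.log 2 := Real.log_pos (by norm_num)
  have hP0 : 0 ≤ LP (pr 0 2) := Finset.sum_nonneg fun p _ => by positivity
  refine ⟨C / Real.log 2 + |Real.log (Real.log 2)| + LP (pr 0 2), by positivity, fun x hx => ?_⟩
  have h := H 2 x le_rfl hx
  have hlx : 0 < Real.log x := Real.log_pos (by linarith)
  rw [Real.log_div hlx.ne' hl2.ne'] at h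
  have h2x : 2 ≤ ⌊x⌋₊ := Nat.le_floor (by exact_mod_cast hx)
  have e : LP (pr 0 x) = LP (pr 0 2) + LP (pr 2 x) := by
    have f2 : ⌊(2 : ℝ)⌋₊ = 2 := by exact_mod_cast Nat.floor_natCast (R := ℝ) 2
    unfold LP pr
    rw [Nat.floor_zero, f2, ← Finset.sum_union, ← Finset.filter_union, Finset.Ioc_union_Ioc_eq_Ioc (by norm_num) h2x]
    rw [Finset.disjoint_left]
    intro p hp hq
    rw [Finset.mem_filter, Finset.mem_Ioc] at hp hq
    omega
  rw [e]
  have h5 := abs_le.1 h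
  have h6 := abs_le.1 (le_refl |Real.log (Real.log 2)|)
  rw [abs_le]
  constructor <;> linarith [h5.1, h5.2, h6.1, h6.2]

private theorem Mert_logdiv (k : ℕ) : 0 ≤ Real.log k / k :=
  div_nonneg (Real.log_natCast_nonneg k) (Nat.cast_nonneg k)

private theorem Mert_logdiv' (k : ℕ) : Real.log k / k ≤ 1 := by
  rcases Nat.eq_zero_or_pos k with h | h
  · subst h; simp
  have hk : (0 : ℝ) < k := by exact_mod_cast h
  rw [div_le_one hk]
  exact (Real.log_le_sub_one_of_pos hk).trans (by linarith)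

private theorem Mert_win (x y : ℝ) (hx : 2 ≤ x) (hxy : x ≤ y) :
    ∑ p ∈ pr x y, Real.log p / p ≤ Real.log y - Real.log x + 10 := by
  have h := Pool.Agent.BrunHooley.MertensAux.prime_window x y hx hxy
  have h1 : ∑ p ∈ pr x y, Real.log p / p ≤
      Real.log (⌊y⌋₊ : ℝ) / (⌊y⌋₊ : ℝ) + ∑ p ∈ (Ico ⌈x⌉₊ ⌈y⌉₊).filter Nat.Prime, Real.log p / p := by
    apply Mert_ins (f := fun p : ℕ => Real.log p / p) _ Mert_logdiv
    intro p hp
    rw [mem_pr (by linarith) (by linarith)] at hp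
    obtain ⟨hp1, hp2, hp3⟩ := hp
    rw [Finset.mem_insert]
    rcases hp3.lt_or_eq with h | h
    · right
      rw [Finset.mem_filter, Finset.mem_Ico, Nat.lt_ceil, Nat.ceil_le]
      exact ⟨⟨hp2.le, h⟩, hp1⟩
    · left
      rw [← h, Nat.floor_natCast]
  linarith [Mert_logdiv' ⌊y⌋₊]

/-- `∑_{x < p ≤ y} log p / p ≤ log (y/x) + C` (for instance from
`Pool.Agent.BrunHooley.MertensAux.prime_window`, `M_le`, `M_ge`). -/
theorem logsum : ∃ C : ℝ, 0 < C ∧ ∀ x y : ℝ, 1 ≤ x → x ≤ y →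
    ∑ p ∈ pr x y, Real.log p / p ≤ Real.log (y / x) + C := by
  refine ⟨11, by norm_num, fun x y hx hxy => ?_⟩
  rw [Real.log_div (by linarith) (by linarith)]
  have hlxy : Real.log x ≤ Real.log y := Real.log_le_log (by linarith) hxy
  rcases le_or_gt 2 x with h2 | h2
  · linarith [Mert_win x y h2 hxy]
  rcases le_or_gt 2 y with h3 | h3
  · have h4 := Mert_win 2 y le_rfl h3
    have h1 : ∑ p ∈ pr x y, Real.log p / p ≤
        Real.log ((2 : ℕ) : ℝ) / ((2 : ℕ) : ℝ) + ∑ p ∈ pr 2 y, Real.log p / p := by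
      apply Mert_ins (f := fun p : ℕ => Real.log p / p) 2 Mert_logdiv
      intro p hp
      rw [mem_pr (by linarith) (by linarith)] at hp
      obtain ⟨hp1, hp2, hp3⟩ := hp
      rw [Finset.mem_insert]
      rcases hp1.two_le.lt_or_eq with h | h
      · right
        rw [mem_pr (by norm_num) (by linarith)]
        exact ⟨hp1, by exact_mod_cast h, hp3⟩
      · left
        exact h.symm
    have h5 : Real.log x ≤ Real.log 2 := Real.log_le_log (by linarith) h2.le
    linarith [Mert_logdiv' 2]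
  · have h1 : pr x y = ∅ := by
      rw [Finset.eq_empty_iff_forall_notMem]
      intro p hp
      rw [mem_pr (by linarith) (by linarith)] at hp
      obtain ⟨hp1, hp2, hp3⟩ := hp
      have : (2 : ℝ) ≤ p := by exact_mod_cast hp1.two_le
      linarith
    rw [h1, Finset.sum_empty]
    linarith

/-- Chebyshev: `π(x) ≤ C x / log x`. Mathlib has Chebyshev bounds (`Mathlib.NumberTheory.Chebyshev`). -/
theorem cheb_pi : ∃ C : ℝ, 0 < C ∧ ∀ x : ℝ, 2 ≤ x → ((pr 0 x).card : ℝ) ≤ C * x / Real.log x := by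
  have hl4 : 0 < Real.log 4 := Real.log_pos (by norm_num)
  refine ⟨2 * Real.log 4 + 2, by positivity, fun x hx => ?_⟩
  have hx0 : (0 : ℝ) < x := by linarith
  have hlx : 0 < Real.log x := Real.log_pos (by linarith)
  have h := Chebyshev.pi_le_log4_mul_div (x := x) (by linarith)
  have h1 : (pr 0 x).card ≤ Nat.primeCounting ⌊x⌋₊ := by
    rw [Nat.primeCounting, Nat.primeCounting', Nat.count_eq_card_filter_range]
    apply Finset.card_le_card
    intro p hp
    rw [mem_pr le_rfl (by linarith)] at hp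
    rw [Finset.mem_filter, Finset.mem_range, Nat.lt_succ_iff]
    exact ⟨Nat.le_floor hp.2.2, hp.1⟩
  have h1' : ((pr 0 x).card : ℝ) ≤ (Nat.primeCounting ⌊x⌋₊ : ℝ) := by exact_mod_cast h1
  have h2 : Real.log (√x) = Real.log x / 2 := by
    rw [Real.sqrt_eq_rpow, Real.log_rpow hx0]
    ring
  have h3 : Real.log x ≤ 2 * √x := by
    have h4 : Real.log (√x) ≤ √x :=
      (Real.log_le_sub_one_of_pos (Real.sqrt_pos.2 hx0)).trans (by linarith)
    linarith
  have h5 : √x ≤ 2 * x / Real.log x := by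
    rw [le_div_iff₀ hlx]
    have h6 := Real.sqrt_nonneg x
    have h7 := Real.mul_self_sqrt hx0.le
    nlinarith
  rw [h2] at h
  have h8 : Real.log 4 * x / (Real.log x / 2) = 2 * Real.log 4 * x / Real.log x := by
    field_simp
  rw [h8] at h
  have h9 : (2 * Real.log 4 + 2) * x / Real.log x = 2 * Real.log 4 * x / Real.log x + 2 * x / Real.log x := by
    ring
  rw [h9]
  linarith

/-- Chebyshev: `∑_{n ≤ x} Λ(n) ≤ C x`. -/
theorem cheb_psi : ∃ C : ℝ, 0 < C ∧ ∀ x : ℝ, 0 ≤ x →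
    ∑ n ∈ Icc 1 ⌊x⌋₊, ArithmeticFunction.vonMangoldt n ≤ C * x := by
  have hl4 : 0 < Real.log 4 := Real.log_pos (by norm_num)
  refine ⟨Real.log 4 + 4, by positivity, fun x hx => ?_⟩
  have h := Chebyshev.psi_le_const_mul_self hx
  rw [Chebyshev.psi] at h
  exact h

end Pool.Agent.Mrd
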