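import Pool.Agent.Mrd.Lup
import Pool.Agent.Mrd.EP
import Pool.Agent.Mrd.Mert

/-!
Mrd NPC: `λχ` is far from all `n^{it}`.
-/

set_option autoImplicit false

namespace Pool.Agent.Mrd

open Finset MeasureTheory Filter Topology

private theorem NPc_prime {x : ℝ} {p : ℕ} (hx : 2 ≤ x) (hp : p ∈ pr 0 x) : p.Prime :=
  ((mem_pr le_rfl (by linarith)).1 hp).1

private theorem NPc_lio {p : ℕ} (hp : p.Prime) : lio p = -1 := by
  unfold lio
  rw [if_neg hp.ne_zero, ArithmeticFunction.cardFactors_apply_prime hp, pow_one]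

private theorem NPc_ineq (z : ℂ) (hz : ‖z‖ ≤ 1) : 1 - (z ^ 2).re ≤ 4 * (1 + z.re) := by
  have h1 : z.re ^ 2 + z.im ^ 2 ≤ 1 := by
    have h := Complex.sq_norm z
    rw [Complex.normSq_apply] at h
    nlinarith [norm_nonneg z]
  have h2 : (z ^ 2).re = z.re ^ 2 - z.im ^ 2 := by
    rw [sq, Complex.mul_re]
    ring
  rw [h2]
  nlinarith [sq_nonneg (1 + z.re)]

private theorem NPc_dist {q : ℕ} (χ : DirichletCharacter ℂ q) (t x : ℝ) (hx : 2 ≤ x) :
    dist2 (fun n => lio n * ch χ n) t x = ∑ p ∈ pr 0 x, (1 + (ch χ p * tw t p).re) / p := by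
  unfold dist2
  refine Finset.sum_congr rfl fun p hp => ?_
  have h := NPc_lio (NPc_prime hx hp)
  have h2 : (lio p * ch χ p * tw t p).re = -(ch χ p * tw t p).re := by
    rw [h, neg_one_mul, neg_mul, Complex.neg_re]
  show (1 - (lio p * ch χ p * tw t p).re) / p = _
  rw [h2, sub_neg_eq_add]

private theorem NPc_split (g : ℕ → ℝ) (c : ℝ) (P : Finset ℕ) :
    ∑ p ∈ P, (1 + c * g p) / (p : ℝ) = LP P + c * ∑ p ∈ P, g p / p := by
  unfold LP
  rw [Finset.mul_sum, ← Finset.sum_add_distrib]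
  refine Finset.sum_congr rfl fun p _ => ?_
  ring

/-- `f(p) = -χ(p)`, so `dist2 f t x = ∑_{p≤x} (1 + Re χ(p)p^{-it})/p`. `|t| ≥ 1`: `4(1 + cos θ) ≥ 1 - cos 2θ` (also if `χ(p) = 0`), so `4 dist2 ≥ ∑_{p≤x} (1 - Re χ²(p)p^{-2it})/p ≥ log log x - C - log ‖L(1+σ+2it, χ²)‖ ≥ -C - log η` by `euler`, `lup` for `χ^2`, `mertens_zero`.
`|t| ≤ 1`: `dist2 ≥ log log x - C + log ‖L(1+σ+it, χ)‖ - C ≥ log log x - C'` by `euler`, `L_lower`. -/
theorem np_lio {q : ℕ} [NeZero q] (χ : DirichletCharacter ℂ q) : NP (fun n => lio n * ch χ n) := by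
  intro M
  obtain ⟨C, hC, he⟩ := euler
  obtain ⟨C₂, hC₂, hm⟩ := mertens_zero
  obtain ⟨c, hc, hl⟩ := L_lower χ
  obtain ⟨x₀, hx₀, hu⟩ := lup (χ ^ 2) (Real.exp (-(4 * M + C₂ + C))) (Real.exp_pos _)
  refine ⟨max x₀ (Real.exp (Real.exp (max 1 (M + C₂ + C - Real.log c)))), ?_⟩
  intro x hx t ht
  have hx1 : x₀ ≤ x := (le_max_left _ _).trans hx
  have hx2 : Real.exp (Real.exp (max 1 (M + C₂ + C - Real.log c))) ≤ x := (le_max_right _ _).trans hx
  have hx3 : (2 : ℝ) ≤ x := hx₀.trans hx1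
  have hx4 : (0 : ℝ) < x := by linarith
  have hL : Real.exp (max 1 (M + C₂ + C - Real.log c)) ≤ Real.log x := by
    rw [Real.le_log_iff_exp_le hx4]
    exact hx2
  have hL1 : (1 : ℝ) ≤ Real.log x := by
    exact le_trans (Real.one_le_exp (zero_le_one.trans (le_max_left _ _))) hL
  have hL0 : (0 : ℝ) < Real.log x := by linarith
  have hLL : max 1 (M + C₂ + C - Real.log c) ≤ Real.log (Real.log x) := by
    rw [Real.le_log_iff_exp_le hL0]
    exact hL
  have hmz := hm x hx3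
  rw [abs_le] at hmz
  rw [NPc_dist χ t x hx3]
  by_cases h1 : |t| ≤ 1
  · have h2 := hl (1 / Real.log x) t (by positivity)
      (by rw [div_le_iff₀ hL0]; linarith) h1
    have h3 := (he (ch χ) x t (ch_CM χ) hx3).1
    have h4 : Real.log c ≤ C + ∑ p ∈ pr 0 x, (ch χ p * tw t p).re / p := by
      rw [Real.log_le_iff_le_exp hc]
      exact h2.trans h3
    have h5 := NPc_split (fun p => (ch χ p * tw t p).re) 1 (pr 0 x)
    simp only [one_mul] at h5
    rw [h5]
    have h6 := (le_max_right 1 (M + C₂ + C - Real.log c)).trans hLL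
    linarith [hmz.1]
  · push Not at h1
    have h2 := hu x (2 * t) hx1 (by rw [abs_mul]; norm_num; linarith)
      (by rw [abs_mul]; norm_num; linarith)
    have h3 := (he (ch (χ ^ 2)) x (2 * t) (ch_CM _) hx3).2
    have h4 : -C + ∑ p ∈ pr 0 x, (ch (χ ^ 2) p * tw (2 * t) p).re / p ≤
        -(4 * M + C₂ + C) + Real.log (Real.log x) := by
      have h5 := h3.trans h2
      have h6 : Real.exp (-(4 * M + C₂ + C)) * Real.log x =
          Real.exp (-(4 * M + C₂ + C) + Real.log (Real.log x)) := by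
        rw [Real.exp_add, Real.exp_log hL0]
      rw [h6] at h5
      exact Real.exp_le_exp.1 h5
    have h5 := NPc_split (fun p => (ch (χ ^ 2) p * tw (2 * t) p).re) (-1) (pr 0 x)
    have h6 : ∑ p ∈ pr 0 x, (1 + -1 * (ch (χ ^ 2) p * tw (2 * t) p).re) / (p : ℝ) ≤
        ∑ p ∈ pr 0 x, 4 * ((1 + (ch χ p * tw t p).re) / p) := by
      refine Finset.sum_le_sum fun p hp => ?_
      have hp0 : p ≠ 0 := (NPc_prime hx3 hp).ne_zero
      have hz : ch (χ ^ 2) p * tw (2 * t) p = (ch χ p * tw t p) ^ 2 := by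
        unfold ch
        rw [if_neg hp0, if_neg hp0, MulChar.pow_apply' χ (by norm_num : (2 : ℕ) ≠ 0),
          two_mul t, tw_add]
        ring
      have hn : ‖ch χ p * tw t p‖ ≤ 1 := by
        rw [norm_mul, tw_norm, mul_one]
        exact (ch_CM χ).bdd p
      have h7 := NPc_ineq _ hn
      rw [hz, ← mul_div_assoc]
      refine div_le_div_of_nonneg_right ?_ (Nat.cast_nonneg p)
      linarith
    rw [← Finset.mul_sum] at h6
    linarith [hmz.1]

end Pool.Agent.Mrd
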