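import Pool.Agent.Mrd.MR
import Pool.Agent.Mrd.NPc

/-!
Mrd AP: Liouville in short intervals and progressions to a fixed modulus.
-/

set_option autoImplicit false

namespace Pool.Agent.Mrd

open Finset MeasureTheory Filter Topology

/-- every value of `⌊m/d⌋` is taken at most `d` times -/
private theorem Ap_div (g : ℕ → ℝ) (hg : ∀ k, 0 ≤ g k) (d N : ℕ) (hd : 1 ≤ d) :
    ∑ m ∈ range N, g (m / d) ≤ d * ∑ k ∈ range (N / d + 1), g k := by
  have h1 : ∑ m ∈ range N, g (m / d) =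
      ∑ k ∈ range (N / d + 1), ∑ m ∈ (range N).filter (fun m => m / d = k), g (m / d) := by
    refine (Finset.sum_fiberwise_of_maps_to (fun m hm => ?_) _).symm
    rw [Finset.mem_range] at hm ⊢
    exact Nat.lt_succ_of_le (Nat.div_le_div_right hm.le)
  rw [h1, Finset.mul_sum]
  refine Finset.sum_le_sum fun k _ => ?_
  have h2 : ∑ m ∈ (range N).filter (fun m => m / d = k), g (m / d) =
      (((range N).filter (fun m => m / d = k)).card : ℝ) * g k := by
    rw [← nsmul_eq_mul, ← Finset.sum_const]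
    refine Finset.sum_congr rfl fun m hm => ?_
    rw [(Finset.mem_filter.1 hm).2]
  rw [h2]
  refine mul_le_mul_of_nonneg_right ?_ (hg k)
  have h3 : ((range N).filter (fun m => m / d = k)).card ≤ (Ico (k * d) (k * d + d)).card := by
    refine Finset.card_le_card fun m hm => ?_
    obtain ⟨-, h4⟩ := Finset.mem_filter.1 hm
    rw [Finset.mem_Ico]
    have h5 := Nat.div_add_mod m d
    have h6 := Nat.mod_lt m (by omega : d > 0)
    rw [h4] at h5
    have h7 : d * k = k * d := Nat.mul_comm _ _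
    omega
  rw [Nat.card_Ico, Nat.add_sub_cancel_left] at h3
  exact_mod_cast h3

private theorem Ap_norm_le (f : ℕ → ℂ) (hf : ∀ n, ‖f n‖ ≤ 1) (m H d : ℕ) (hd : 1 ≤ d) :
    ‖∑ n ∈ Ioc (m / d) ((m + H) / d), f n‖ ≤ ‖∑ n ∈ Ioc (m / d) (m / d + H / d), f n‖ + 1 := by
  have h1 : m / d + H / d ≤ (m + H) / d := Nat.div_add_div_le_add_div
  have h2 : (m + H) / d ≤ m / d + H / d + 1 := by
    have h3 := Nat.div_add_mod m d
    have h4 := Nat.div_add_mod H d
    have h5 := Nat.mod_lt m (by omega : d > 0)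
    have h6 := Nat.mod_lt H (by omega : d > 0)
    have h7 : m + H < (m / d + H / d + 1 + 1) * d := by
      have : (m / d + H / d + 1 + 1) * d = d * (m / d) + d * (H / d) + d + d := by ring
      omega
    have h8 := (Nat.div_lt_iff_lt_mul (by omega : 0 < d)).2 h7
    omega
  rcases Nat.lt_or_ge (m / d + H / d) ((m + H) / d) with h3 | h3
  · have h4 : (m + H) / d = m / d + H / d + 1 := by omega
    have h5 : Ioc (m / d) ((m + H) / d) = insert (m / d + H / d + 1) (Ioc (m / d) (m / d + H / d)) := by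
      rw [h4]
      ext n
      simp only [Finset.mem_insert, Finset.mem_Ioc]
      generalize m / d = u
      generalize H / d = v
      omega
    rw [h5, Finset.sum_insert (by simp)]
    refine (norm_add_le _ _).trans ?_
    have := hf (m / d + H / d + 1)
    linarith
  · have h4 : (m + H) / d = m / d + H / d := by omega
    rw [h4]
    linarith

private theorem Ap_filter (q d q' a' a m M : ℕ) (hd : 1 ≤ d) (hq : q = d * q')
    (ha : a = d * a') :
    ∑ n ∈ (Ioc m M).filter (fun n => n % q = a % q), lio n =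
      lio d * ∑ n ∈ (Ioc (m / d) (M / d)).filter (fun n => n % q' = a' % q'), lio n := by
  rw [Finset.mul_sum]
  have h0 : (Ioc m M).filter (fun n => n % q = a % q) =
      ((Ioc (m / d) (M / d)).filter (fun n => n % q' = a' % q')).image (fun n => d * n) := by
    ext n
    simp only [Finset.mem_filter, Finset.mem_image, Finset.mem_Ioc]
    constructor
    · rintro ⟨⟨h1, h2⟩, h3⟩
      have h4 : d ∣ n := by
        have h5 : n ≡ a [MOD d] := by
          have h6 : n ≡ a [MOD q] := h3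
          exact h6.of_dvd ⟨q', hq⟩
        have h6 : a ≡ 0 [MOD d] := by
          rw [ha]
          exact (Nat.modEq_zero_iff_dvd).2 (Dvd.intro _ rfl)
        exact (Nat.modEq_zero_iff_dvd).1 (h5.trans h6)
      obtain ⟨k, rfl⟩ := h4
      refine ⟨k, ⟨⟨?_, ?_⟩, ?_⟩, rfl⟩
      · rw [Nat.div_lt_iff_lt_mul (by omega), Nat.mul_comm]
        exact h1
      · rw [Nat.le_div_iff_mul_le (by omega), Nat.mul_comm]
        exact h2
      · rw [hq, ha, Nat.mul_mod_mul_left, Nat.mul_mod_mul_left] at h3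
        exact Nat.eq_of_mul_eq_mul_left (by omega) h3
    · rintro ⟨k, ⟨⟨h1, h2⟩, h3⟩, rfl⟩
      refine ⟨⟨?_, ?_⟩, ?_⟩
      · rw [Nat.div_lt_iff_lt_mul (by omega), Nat.mul_comm] at h1
        exact h1
      · rw [Nat.le_div_iff_mul_le (by omega), Nat.mul_comm] at h2
        exact h2
      · rw [hq, ha, Nat.mul_mod_mul_left, Nat.mul_mod_mul_left, h3]
  rw [h0, Finset.sum_image]
  · refine Finset.sum_congr rfl fun n _ => ?_
    exact lio_CM.mul d n
  · intro x _ y _ hxy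
    exact Nat.eq_of_mul_eq_mul_left (by omega) hxy

private theorem Ap_char (q a m M : ℕ) [NeZero q] (ha : Nat.Coprime a q) :
    ‖∑ n ∈ (Ioc m M).filter (fun n => n % q = a % q), lio n‖ ≤
      ∑ χ : DirichletCharacter ℂ q, ‖∑ n ∈ Ioc m M, lio n * ch χ n‖ := by
  classical
  have hu : IsUnit (a : ZMod q) := (ZMod.isUnit_iff_coprime a q).2 ha
  have hφ : (0 : ℝ) < (q.totient : ℝ) := by
    exact_mod_cast Nat.totient_pos.2 (Nat.pos_of_ne_zero (NeZero.ne q))
  have hφ1 : (1 : ℝ) ≤ (q.totient : ℝ) := by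
    exact_mod_cast Nat.totient_pos.2 (Nat.pos_of_ne_zero (NeZero.ne q))
  have h1 : (q.totient : ℂ) * ∑ n ∈ (Ioc m M).filter (fun n => n % q = a % q), lio n =
      ∑ χ : DirichletCharacter ℂ q, χ ((a : ZMod q)⁻¹) * ∑ n ∈ Ioc m M, lio n * ch χ n := by
    rw [Finset.sum_filter, Finset.mul_sum]
    simp_rw [Finset.mul_sum]
    rw [Finset.sum_comm]
    refine Finset.sum_congr rfl fun n hn => ?_
    rw [Finset.mem_Ioc] at hn
    have hn0 : n ≠ 0 := by omega
    have h2 := DirichletCharacter.sum_char_inv_mul_char_eq ℂ hu (n : ZMod q)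
    have h3 : ((a : ZMod q) = (n : ZMod q)) ↔ n % q = a % q := by
      rw [ZMod.natCast_eq_natCast_iff]
      exact ⟨fun h => h.symm, fun h => Nat.ModEq.symm h⟩
    have h4 : ∑ χ : DirichletCharacter ℂ q, χ ((a : ZMod q)⁻¹) * (lio n * ch χ n) =
        lio n * ∑ χ : DirichletCharacter ℂ q, χ ((a : ZMod q)⁻¹) * χ (n : ZMod q) := by
      rw [Finset.mul_sum]
      refine Finset.sum_congr rfl fun χ _ => ?_
      rw [ch, if_neg hn0]
      ring
    rw [h4, h2]
    by_cases h5 : n % q = a % q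
    · rw [if_pos h5, if_pos (h3.2 h5)]
      ring
    · rw [if_neg h5, if_neg (fun h => h5 (h3.1 h))]
      ring
  have h2 : ‖(q.totient : ℂ) * ∑ n ∈ (Ioc m M).filter (fun n => n % q = a % q), lio n‖ ≤
      ∑ χ : DirichletCharacter ℂ q, ‖∑ n ∈ Ioc m M, lio n * ch χ n‖ := by
    rw [h1]
    refine (norm_sum_le _ _).trans (Finset.sum_le_sum fun χ _ => ?_)
    rw [norm_mul]
    exact mul_le_of_le_one_left (norm_nonneg _) (χ.norm_le_one _)
  rw [norm_mul, Complex.norm_natCast] at h2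
  refine le_trans ?_ h2
  exact le_mul_of_one_le_left (norm_nonneg _) hφ1

private theorem Ap_cop (q : ℕ) [NeZero q] (a d : ℕ) (hd : 1 ≤ d) (ha : Nat.Coprime a q) (ε : ℝ)
    (hε : 0 < ε) : ∃ H₀ : ℕ, ∀ H : ℕ, H₀ ≤ H → ∃ N₀ : ℕ, ∀ N : ℕ, N₀ ≤ N →
      ∑ m ∈ range N, ‖∑ n ∈ (Ioc (m / d) ((m + H) / d)).filter (fun n => n % q = a % q), lio n‖ ≤
        ε * N * H := by
  classical
  obtain ⟨φ, hφ⟩ : ∃ φ : ℝ, φ = Fintype.card (DirichletCharacter ℂ q) := ⟨_, rfl⟩
  have hφ0 : 0 < φ := by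
    rw [hφ]
    exact_mod_cast Fintype.card_pos
  have h1 : ∀ χ : DirichletCharacter ℂ q, ∃ H₀ : ℕ, ∀ H : ℕ, H₀ ≤ H →
      ∃ N₀ : ℕ, ∀ N : ℕ, N₀ ≤ N → ∑ m ∈ range N, ‖∑ n ∈ Ioc m (m + H), lio n * ch χ n‖ ≤
        (ε / (4 * φ)) * N * H := fun χ =>
    mr (fun n => lio n * ch χ n) (lio_CM.mul' (ch_CM χ)) (np_lio χ) _ (by positivity)
  choose H₁ hH₁ using h1
  obtain ⟨K, hK⟩ : ∃ K : ℕ, K = Finset.univ.sup H₁ := ⟨_, rfl⟩
  refine ⟨d * (K + 1) + ⌈2 * φ / ε⌉₊, fun H hH => ?_⟩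
  have hHd : K ≤ H / d := by
    rw [Nat.le_div_iff_mul_le (by omega)]
    have : d * (K + 1) = K * d + d := by ring
    omega
  have h2 : ∀ χ, H₁ χ ≤ H / d := fun χ => by
    refine le_trans ?_ hHd
    rw [hK]
    exact Finset.le_sup (f := H₁) (Finset.mem_univ χ)
  have h3 : ∀ χ : DirichletCharacter ℂ q, ∃ N₀ : ℕ, ∀ N : ℕ, N₀ ≤ N →
      ∑ m ∈ range N, ‖∑ n ∈ Ioc m (m + H / d), lio n * ch χ n‖ ≤
        (ε / (4 * φ)) * N * ((H / d : ℕ) : ℝ) := fun χ => hH₁ χ (H / d) (h2 χ)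
  choose N₁ hN₁ using h3
  obtain ⟨L, hL⟩ : ∃ L : ℕ, L = Finset.univ.sup N₁ := ⟨_, rfl⟩
  refine ⟨d * (L + 1), fun N hN => ?_⟩
  have hd0 : (0 : ℝ) < d := by exact_mod_cast (by omega : 0 < d)
  have hNd : L ≤ N / d := by
    rw [Nat.le_div_iff_mul_le (by omega)]
    have : d * (L + 1) = L * d + d := by ring
    omega
  have hNd1 : (d : ℝ) ≤ N := by
    have : d ≤ N := by
      have : d * (L + 1) = L * d + d := by ring
      omega
    exact_mod_cast this
  have hHε : 2 * φ / ε ≤ H := by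
    refine (Nat.le_ceil _).trans ?_
    exact_mod_cast (by omega : ⌈2 * φ / ε⌉₊ ≤ H)
  have hN0 : (0 : ℝ) ≤ N := Nat.cast_nonneg N
  have hH0 : (0 : ℝ) ≤ H := Nat.cast_nonneg H
  have h4 : ∀ χ : DirichletCharacter ℂ q,
      ∑ m ∈ range N, ‖∑ n ∈ Ioc (m / d) ((m + H) / d), lio n * ch χ n‖ ≤
        (ε / (2 * φ)) * N * H + N := by
    intro χ
    have hb := (lio_CM.mul' (ch_CM χ)).bdd
    calc ∑ m ∈ range N, ‖∑ n ∈ Ioc (m / d) ((m + H) / d), lio n * ch χ n‖
        ≤ ∑ m ∈ range N, (‖∑ n ∈ Ioc (m / d) (m / d + H / d), lio n * ch χ n‖ + 1) :=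
          Finset.sum_le_sum fun m _ => Ap_norm_le (fun n => lio n * ch χ n) hb m H d hd
      _ = ∑ m ∈ range N, ‖∑ n ∈ Ioc (m / d) (m / d + H / d), lio n * ch χ n‖ + N := by
          rw [Finset.sum_add_distrib, Finset.sum_const, Finset.card_range, nsmul_eq_mul, mul_one]
      _ ≤ d * ∑ k ∈ range (N / d + 1), ‖∑ n ∈ Ioc k (k + H / d), lio n * ch χ n‖ + N := by
          have := Ap_div (fun k => ‖∑ n ∈ Ioc k (k + H / d), lio n * ch χ n‖)
            (fun k => norm_nonneg _) d N hd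
          linarith
      _ ≤ d * ((ε / (4 * φ)) * ((N / d + 1 : ℕ) : ℝ) * ((H / d : ℕ) : ℝ)) + N := by
          have h5 : N₁ χ ≤ N / d + 1 := by
            have : N₁ χ ≤ L := by
              rw [hL]
              exact Finset.le_sup (f := N₁) (Finset.mem_univ χ)
            omega
          have := mul_le_mul_of_nonneg_left (hN₁ χ (N / d + 1) h5) hd0.le
          linarith
      _ ≤ (ε / (2 * φ)) * N * H + N := by
          have h5 : (d : ℝ) * ((N / d + 1 : ℕ) : ℝ) ≤ 2 * N := by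
            have h6 : ((N / d : ℕ) : ℝ) * d ≤ N := by exact_mod_cast Nat.div_mul_le_self N d
            push_cast
            nlinarith
          have h6 : ((H / d : ℕ) : ℝ) ≤ H := by exact_mod_cast Nat.div_le_self H d
          have h7 : 0 ≤ ε / (4 * φ) := by positivity
          have h8 : (d : ℝ) * ((ε / (4 * φ)) * ((N / d + 1 : ℕ) : ℝ) * ((H / d : ℕ) : ℝ)) ≤
              (ε / (4 * φ)) * (2 * N) * H := by
            have h9 : (d : ℝ) * ((ε / (4 * φ)) * ((N / d + 1 : ℕ) : ℝ) * ((H / d : ℕ) : ℝ)) =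
                (ε / (4 * φ)) * ((d : ℝ) * ((N / d + 1 : ℕ) : ℝ)) * ((H / d : ℕ) : ℝ) := by ring
            rw [h9]
            exact mul_le_mul (mul_le_mul_of_nonneg_left h5 h7) h6 (Nat.cast_nonneg _) (by positivity)
          have h10 : (ε / (4 * φ)) * (2 * N) * H = (ε / (2 * φ)) * N * H := by
            field_simp
            ring
          linarith
  calc ∑ m ∈ range N, ‖∑ n ∈ (Ioc (m / d) ((m + H) / d)).filter (fun n => n % q = a % q), lio n‖
      ≤ ∑ m ∈ range N, ∑ χ : DirichletCharacter ℂ q,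
          ‖∑ n ∈ Ioc (m / d) ((m + H) / d), lio n * ch χ n‖ :=
        Finset.sum_le_sum fun m _ => Ap_char q a _ _ ha
    _ = ∑ χ : DirichletCharacter ℂ q, ∑ m ∈ range N,
          ‖∑ n ∈ Ioc (m / d) ((m + H) / d), lio n * ch χ n‖ := Finset.sum_comm
    _ ≤ ∑ _χ : DirichletCharacter ℂ q, ((ε / (2 * φ)) * N * H + N) :=
        Finset.sum_le_sum fun χ _ => h4 χ
    _ = φ * ((ε / (2 * φ)) * N * H + N) := by
        rw [Finset.sum_const, nsmul_eq_mul, hφ, Finset.card_univ]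
    _ ≤ ε * N * H := by
        have h5 : φ * ((ε / (2 * φ)) * N * H + N) = ε / 2 * N * H + φ * N := by
          field_simp
        have h6 : φ ≤ ε / 2 * H := by
          rw [div_le_iff₀ hε] at hHε
          linarith
        have h7 := mul_le_mul_of_nonneg_right h6 hN0
        rw [h5]
        linarith

/-- `d = gcd(a, q)`, `n = d n'`, `λ(n) = λ(d) λ(n')`, `n' ≡ a/d mod q/d` is coprime to `q' = q/d`: `1[n' ≡ a'] = (1/φ(q')) ∑_χ conj χ(a') χ(n')`; `mr` for each `λχ` (`np_lio`), with `H' = ⌊H/d⌋`: `n' ∈ (⌊m/d⌋, ⌊(m+H)/d⌋]` has length `H'` or `H' + 1` (error 1), every value `⌊m/d⌋` is taken `d` times.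
If `a` is not reduced replace it by `a % q` (`q` itself if `0`: `gcd(0,q) = q`). -/
theorem mr_ap (q : ℕ) (hq : 1 ≤ q) (a : ℕ) (ε : ℝ) (hε : 0 < ε) : ∃ H₀ : ℕ, ∀ H : ℕ, H₀ ≤ H →
    ∃ N₀ : ℕ, ∀ N : ℕ, N₀ ≤ N →
      ∑ m ∈ range N, ‖∑ n ∈ (Ioc m (m + H)).filter (fun n => n % q = a % q), lio n‖ ≤ ε * N * H := by
  obtain ⟨d, hd⟩ : ∃ d, d = Nat.gcd a q := ⟨_, rfl⟩
  have hd1 : 1 ≤ d := by
    rw [hd]
    exact Nat.gcd_pos_of_pos_right a (by omega)
  have h1 : d * (q / d) = q := Nat.mul_div_cancel' (by rw [hd]; exact Nat.gcd_dvd_right a q)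
  have h2 : d * (a / d) = a := Nat.mul_div_cancel' (by rw [hd]; exact Nat.gcd_dvd_left a q)
  have h3 : 1 ≤ q / d := by
    rcases Nat.eq_zero_or_pos (q / d) with h | h
    · rw [h] at h1
      omega
    · exact h
  have h4 : Nat.Coprime (a / d) (q / d) := by
    rw [hd]
    exact Nat.coprime_div_gcd_div_gcd (Nat.gcd_pos_of_pos_right a (by omega))
  have : NeZero (q / d) := ⟨by omega⟩
  obtain ⟨H₀, hH₀⟩ := Ap_cop (q / d) (a / d) d hd1 h4 ε hε
  refine ⟨H₀, fun H hH => ?_⟩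
  obtain ⟨N₀, hN₀⟩ := hH₀ H hH
  refine ⟨N₀, fun N hN => le_trans (Finset.sum_le_sum fun m _ => ?_) (hN₀ N hN)⟩
  rw [Ap_filter q d (q / d) (a / d) a m (m + H) hd1 h1.symm h2.symm, norm_mul]
  exact mul_le_of_le_one_left (norm_nonneg _) (lio_CM.bdd d)

/-- `l^n` depends on `n mod q`; sum `mr_ap` over the classes. -/
theorem mr_lio (l : ℂ) (q : ℕ) (hq : 1 ≤ q) (hl : l ^ q = 1) (ε : ℝ) (hε : 0 < ε) : ∃ H₀ : ℕ, ∀ H : ℕ,
    H₀ ≤ H → ∃ N₀ : ℕ, ∀ N : ℕ, N₀ ≤ N →
      ∑ m ∈ range N, ‖∑ n ∈ Ioc m (m + H), l ^ n * lio n‖ ≤ ε * N * H := by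
  have hq0 : (0 : ℝ) < q := by exact_mod_cast (by omega : 0 < q)
  have h1 : ∀ a : ℕ, ∃ H₀ : ℕ, ∀ H : ℕ, H₀ ≤ H → ∃ N₀ : ℕ, ∀ N : ℕ, N₀ ≤ N →
      ∑ m ∈ range N, ‖∑ n ∈ (Ioc m (m + H)).filter (fun n => n % q = a % q), lio n‖ ≤
        (ε / q) * N * H := fun a => mr_ap q hq a (ε / q) (by positivity)
  choose H₁ hH₁ using h1
  refine ⟨(range q).sup H₁, fun H hH => ?_⟩
  have h2 : ∀ a : ℕ, ∃ N₀ : ℕ, a ∈ range q → ∀ N : ℕ, N₀ ≤ N →
      ∑ m ∈ range N, ‖∑ n ∈ (Ioc m (m + H)).filter (fun n => n % q = a % q), lio n‖ ≤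
        (ε / q) * N * H := by
    intro a
    by_cases ha : a ∈ range q
    · obtain ⟨N₀, hN₀⟩ := hH₁ a H ((Finset.le_sup (f := H₁) ha).trans hH)
      exact ⟨N₀, fun _ => hN₀⟩
    · exact ⟨0, fun h => absurd h ha⟩
  choose N₁ hN₁ using h2
  refine ⟨(range q).sup N₁, fun N hN => ?_⟩
  have hln : ‖l‖ = 1 := Complex.norm_eq_one_of_pow_eq_one hl (by omega)
  have h3 : ∀ m : ℕ, ‖∑ n ∈ Ioc m (m + H), l ^ n * lio n‖ ≤
      ∑ a ∈ range q, ‖∑ n ∈ (Ioc m (m + H)).filter (fun n => n % q = a % q), lio n‖ := by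
    intro m
    have h4 : ∑ n ∈ Ioc m (m + H), l ^ n * lio n = ∑ a ∈ range q,
        l ^ a * ∑ n ∈ (Ioc m (m + H)).filter (fun n => n % q = a % q), lio n := by
      rw [← Finset.sum_fiberwise_of_maps_to (s := Ioc m (m + H)) (t := range q)
        (g := fun n => n % q) (fun n _ => Finset.mem_range.2 (Nat.mod_lt n (by omega)))]
      refine Finset.sum_congr rfl fun a ha => ?_
      rw [Finset.mul_sum]
      have haq : a % q = a := Nat.mod_eq_of_lt (Finset.mem_range.1 ha)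
      rw [haq]
      refine Finset.sum_congr rfl fun n hn => ?_
      have h5 : n % q = a := (Finset.mem_filter.1 hn).2
      have h6 : l ^ n = l ^ a := by
        conv_lhs => rw [← Nat.div_add_mod n q, pow_add, pow_mul, hl, one_pow, one_mul, h5]
      rw [h6]
    rw [h4]
    refine (norm_sum_le _ _).trans (Finset.sum_le_sum fun a _ => ?_)
    rw [norm_mul, norm_pow, hln, one_pow, one_mul]
  calc ∑ m ∈ range N, ‖∑ n ∈ Ioc m (m + H), l ^ n * lio n‖
      ≤ ∑ m ∈ range N, ∑ a ∈ range q,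
          ‖∑ n ∈ (Ioc m (m + H)).filter (fun n => n % q = a % q), lio n‖ :=
        Finset.sum_le_sum fun m _ => h3 m
    _ = ∑ a ∈ range q, ∑ m ∈ range N,
          ‖∑ n ∈ (Ioc m (m + H)).filter (fun n => n % q = a % q), lio n‖ := Finset.sum_comm
    _ ≤ ∑ _a ∈ range q, (ε / q) * N * H :=
        Finset.sum_le_sum fun a ha => hN₁ a ha N ((Finset.le_sup (f := N₁) ha).trans hN)
    _ = ε * N * H := by
        rw [Finset.sum_const, Finset.card_range, nsmul_eq_mul]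
        field_simp

end Pool.Agent.Mrd
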