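import Pool.Agent.Mrd.Selb

/-!
Mrd BT: Brun-Titchmarsh.
-/

set_option autoImplicit false

namespace Pool.Agent.Mrd

open Finset MeasureTheory Filter Topology

private theorem BT_count (a b m : ℕ) (hab : a ≤ b) (hm : 0 < m) :
    |(((Ioc a b).filter (m ∣ ·)).card : ℝ) - ((b : ℝ) - a) / m| ≤ 1 := by
  have h1 : ((Ioc a b).filter (m ∣ ·)).card + a / m = b / m := by
    rw [← Nat.Ioc_filter_dvd_card_eq_div a m, ← Nat.Ioc_filter_dvd_card_eq_div b m,
      ← card_union_of_disjoint]
    · congr 1
      rw [← filter_union]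
      congr 1
      ext x
      simp only [mem_union, mem_Ioc]
      omega
    · rw [disjoint_left]
      intro x hx hx'
      rw [mem_filter, mem_Ioc] at hx hx'
      omega
  have hm' : (0 : ℝ) < m := by exact_mod_cast hm
  have key : ∀ n : ℕ, (n : ℝ) / m - 1 < (n / m : ℕ) ∧ ((n / m : ℕ) : ℝ) ≤ (n : ℝ) / m := by
    intro n
    refine ⟨?_, Nat.cast_div_le⟩
    have h2 : n < m * (n / m + 1) := Nat.lt_mul_div_succ n hm
    have h3 : (n : ℝ) < m * ((n / m : ℕ) + 1) := by exact_mod_cast h2
    rw [sub_lt_iff_lt_add, div_lt_iff₀ hm']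
    linarith [mul_comm (m : ℝ) (((n / m : ℕ) : ℝ) + 1)]
  obtain ⟨ha1, ha2⟩ := key a
  obtain ⟨hb1, hb2⟩ := key b
  have h4 : (((Ioc a b).filter (m ∣ ·)).card : ℝ) = (b / m : ℕ) - (a / m : ℕ) := by
    have h5 : (((Ioc a b).filter (m ∣ ·)).card : ℝ) + (a / m : ℕ) = (b / m : ℕ) := by
      exact_mod_cast h1
    linarith
  rw [h4, sub_div, abs_le]
  constructor <;> linarith

/-- the sieve inequality -/
private theorem BT_sieve (z h : ℝ) (hz : 0 ≤ z) (hh : 0 ≤ h) (D : ℕ) (hD : 2 ≤ D) :
    ((pr z (z + h)).card : ℝ) ≤ D + h / Real.log D + 2 * (D : ℝ) ^ 2 := by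
  obtain ⟨lam, h1, h2, -, -, h5⟩ := selberg D hD
  set a := ⌊z⌋₊ with ha
  set b := ⌊z + h⌋₊ with hb
  have hab : a ≤ b := Nat.floor_mono (by linarith)
  have hba : |((b : ℝ) - a) - h| ≤ 1 := by
    have e1 := Nat.floor_le hz
    have e2 := Nat.lt_floor_add_one z
    have e3 := Nat.floor_le (show (0 : ℝ) ≤ z + h by linarith)
    have e4 := Nat.lt_floor_add_one (z + h)
    rw [abs_le]
    constructor <;> linarith
  let θ : ℕ → ℝ := fun n => ∑ d ∈ Icc 1 D, if d ∣ n then lam d else 0
  -- the primes above `D` have weight one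
  have hθ : ∀ p : ℕ, p.Prime → D < p → θ p = 1 := by
    intro p hp hDp
    show ∑ d ∈ Icc 1 D, (if d ∣ p then lam d else 0) = 1
    rw [sum_eq_single 1]
    · rw [if_pos (one_dvd _), h1]
    · intro d hd hd1
      rw [mem_Icc] at hd
      rw [if_neg]
      intro hdp
      rcases (Nat.dvd_prime hp).1 hdp with h | h
      · exact hd1 h
      · omega
    · intro h
      exact absurd (mem_Icc.2 ⟨le_rfl, by omega⟩) h
  have hcard : ((pr z (z + h)).card : ℝ) ≤ D + ∑ n ∈ Ioc a b, θ n ^ 2 := by
    have e1 : (pr z (z + h)) = (pr z (z + h)).filter (· ≤ D) ∪ (pr z (z + h)).filter (D < ·) := by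
      ext x
      simp only [mem_union, mem_filter]
      rcases le_or_gt x D with h | h <;> tauto
    have e2 : ((pr z (z + h)).filter (· ≤ D)).card ≤ D := by
      calc ((pr z (z + h)).filter (· ≤ D)).card ≤ (Icc 1 D).card := by
            apply card_le_card
            intro x hx
            rw [mem_filter, pr, mem_filter, mem_Ioc] at hx
            rw [mem_Icc]
            omega
        _ = D := by simp
    have e3 : (((pr z (z + h)).filter (D < ·)).card : ℝ) ≤ ∑ n ∈ Ioc a b, θ n ^ 2 := by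
      calc (((pr z (z + h)).filter (D < ·)).card : ℝ)
          = ∑ n ∈ (pr z (z + h)).filter (D < ·), θ n ^ 2 := by
            rw [card_eq_sum_ones]
            push_cast
            apply sum_congr rfl
            intro n hn
            rw [mem_filter, pr, mem_filter] at hn
            rw [hθ n hn.1.2 hn.2]
            norm_num
        _ ≤ ∑ n ∈ Ioc a b, θ n ^ 2 := by
            apply sum_le_sum_of_subset_of_nonneg
            · intro x hx
              rw [mem_filter, pr, mem_filter] at hx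
              exact hx.1.1
            · intro _ _ _
              positivity
    have e4 : (pr z (z + h)).card ≤
        ((pr z (z + h)).filter (· ≤ D)).card + ((pr z (z + h)).filter (D < ·)).card := by
      conv_lhs => rw [e1]
      exact card_union_le _ _
    have e5 : ((pr z (z + h)).card : ℝ) ≤
        (((pr z (z + h)).filter (· ≤ D)).card : ℝ) +
          (((pr z (z + h)).filter (D < ·)).card : ℝ) := by exact_mod_cast e4
    have e6 : (((pr z (z + h)).filter (· ≤ D)).card : ℝ) ≤ D := by exact_mod_cast e2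
    linarith
  -- expand the squares
  have hexp : ∑ n ∈ Ioc a b, θ n ^ 2 = ∑ d ∈ Icc 1 D, ∑ e ∈ Icc 1 D,
      lam d * lam e * (((Ioc a b).filter (Nat.lcm d e ∣ ·)).card : ℝ) := by
    have e1 : ∀ n, θ n ^ 2 = ∑ d ∈ Icc 1 D, ∑ e ∈ Icc 1 D,
        lam d * lam e * (if Nat.lcm d e ∣ n then 1 else 0) := by
      intro n
      rw [sq]
      show (∑ d ∈ Icc 1 D, if d ∣ n then lam d else 0) *
        (∑ d ∈ Icc 1 D, if d ∣ n then lam d else 0) = _
      rw [sum_mul_sum]
      apply sum_congr rfl
      intro d _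
      apply sum_congr rfl
      intro e _
      have hl : Nat.lcm d e ∣ n ↔ d ∣ n ∧ e ∣ n := Nat.lcm_dvd_iff
      by_cases hd : d ∣ n <;> by_cases he : e ∣ n <;> simp only [hl, hd, he] <;> simp
    simp_rw [e1]
    rw [sum_comm]
    apply sum_congr rfl
    intro d _
    rw [sum_comm]
    apply sum_congr rfl
    intro e _
    rw [← mul_sum, sum_boole]
  have herr : ∀ d ∈ Icc 1 D, ∀ e ∈ Icc 1 D,
      lam d * lam e * (((Ioc a b).filter (Nat.lcm d e ∣ ·)).card : ℝ) ≤
        h * (lam d * lam e / (Nat.lcm d e : ℕ)) + 2 := by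
    intro d hd e he
    rw [mem_Icc] at hd he
    have hm : 0 < Nat.lcm d e := Nat.lcm_pos (by omega) (by omega)
    have hm1 : (1 : ℝ) ≤ (Nat.lcm d e : ℕ) := by exact_mod_cast hm
    have hm0 : (0 : ℝ) < (Nat.lcm d e : ℕ) := by linarith
    have c1 := BT_count a b (Nat.lcm d e) hab hm
    set m : ℝ := ((Nat.lcm d e : ℕ) : ℝ) with hmdef
    set K : ℝ := (((Ioc a b).filter (Nat.lcm d e ∣ ·)).card : ℝ) with hK
    have c2 : |((b : ℝ) - a) / m - h / m| ≤ 1 := by
      rw [← sub_div, abs_div, abs_of_pos hm0]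
      exact (div_le_self (abs_nonneg _) hm1).trans hba
    have c3 : |K - h / m| ≤ 2 := by
      calc |K - h / m| = |(K - ((b : ℝ) - a) / m) + (((b : ℝ) - a) / m - h / m)| := by ring_nf
        _ ≤ _ := abs_add_le _ _
        _ ≤ 2 := by linarith
    have c4 : |lam d * lam e| ≤ 1 := by
      rw [abs_mul]
      exact mul_le_one₀ (h2 d) (abs_nonneg _) (h2 e)
    have c5 : lam d * lam e * (K - h / m) ≤ 2 := by
      calc lam d * lam e * (K - h / m) ≤ |lam d * lam e * (K - h / m)| := le_abs_self _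
        _ = |lam d * lam e| * |K - h / m| := abs_mul _ _
        _ ≤ 1 * 2 := mul_le_mul c4 c3 (abs_nonneg _) zero_le_one
        _ = 2 := by norm_num
    have c6 : lam d * lam e * K = h * (lam d * lam e / m) + lam d * lam e * (K - h / m) := by
      field_simp
      ring
    linarith
  have hsum : ∑ n ∈ Ioc a b, θ n ^ 2 ≤ h / Real.log D + 2 * (D : ℝ) ^ 2 := by
    rw [hexp]
    calc _ ≤ ∑ d ∈ Icc 1 D, ∑ e ∈ Icc 1 D, (h * (lam d * lam e / (Nat.lcm d e : ℕ)) + 2) :=
          sum_le_sum fun d hd => sum_le_sum fun e he => herr d hd e he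
      _ = h * (∑ d ∈ Icc 1 D, ∑ e ∈ Icc 1 D, lam d * lam e / (Nat.lcm d e : ℕ)) +
          2 * (D : ℝ) ^ 2 := by
        simp_rw [sum_add_distrib, ← mul_sum]
        simp
        ring
      _ ≤ h * (1 / Real.log D) + 2 * (D : ℝ) ^ 2 := by
        have := mul_le_mul_of_nonneg_left h5 hh
        linarith
      _ = _ := by ring
  linarith

/-- For `h ≤ h₀` trivial. `D = ⌊h^{1/3}⌋`, `θ(n) = (∑_{d | n} λ_d)² ≥ 0`, `θ(p) = 1` for primes `p > D`. The number of primes in `(z, z+h]` is
`≤ D + ∑_{z<n≤z+h} θ(n) = D + ∑_{d,e} λ_d λ_e (h/[d,e] + O(1)) ≤ D + h/log D + D²`. -/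
theorem brun_titchmarsh : ∃ C : ℝ, 0 < C ∧ ∀ z h : ℝ, 0 ≤ z → 2 ≤ h →
    ((pr z (z + h)).card : ℝ) ≤ C * h / Real.log h := by
  refine ⟨65, by norm_num, fun z h hz hh => ?_⟩
  have hlog : 0 < Real.log h := Real.log_pos (by linarith)
  rcases lt_or_ge h 64 with hs | hs
  · have e1 : ((pr z (z + h)).card : ℝ) ≤ h + 1 := by
      have e2 : (pr z (z + h)).card ≤ ⌊z + h⌋₊ - ⌊z⌋₊ := by
        unfold pr
        exact (card_filter_le _ _).trans (by rw [Nat.card_Ioc])
      have e3 : ((pr z (z + h)).card : ℝ) ≤ (⌊z + h⌋₊ : ℝ) - ⌊z⌋₊ := by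
        rw [← Nat.cast_sub (Nat.floor_mono (by linarith))]
        exact_mod_cast e2
      have e4 := Nat.lt_floor_add_one z
      have e5 := Nat.floor_le (show (0 : ℝ) ≤ z + h by linarith)
      linarith
    rw [le_div_iff₀ hlog]
    have e6 : Real.log h ≤ h := (Real.log_le_sub_one_of_pos (by linarith)).trans (by linarith)
    calc ((pr z (z + h)).card : ℝ) * Real.log h ≤ 65 * h := by
          apply mul_le_mul (by linarith) e6 hlog.le (by norm_num)
      _ = 65 * h := rfl
  · set r : ℝ := h ^ ((1 : ℝ) / 3) with hr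
    have hr0 : 0 < r := Real.rpow_pos_of_pos (by linarith) _
    have hr3 : r ^ 3 = h := by
      rw [hr, ← Real.rpow_natCast, ← Real.rpow_mul (by linarith)]
      norm_num
    have hr4 : 4 ≤ r := by
      by_contra hcon
      push Not at hcon
      have : r ^ 3 < 4 ^ 3 := pow_lt_pow_left₀ hcon hr0.le (by norm_num)
      linarith
    set D := ⌊r⌋₊ with hD
    have hD1 : (D : ℝ) ≤ r := Nat.floor_le hr0.le
    have hD2 : r / 2 ≤ (D : ℝ) := by
      have := Nat.lt_floor_add_one r
      linarith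
    have hD3 : 2 ≤ D := by
      have : (4 : ℕ) ≤ D := Nat.le_floor (by exact_mod_cast hr4)
      omega
    have hlr : Real.log h = 3 * Real.log r := by
      rw [← hr3, Real.log_pow]
      norm_num
    have hlr0 : 0 < Real.log r := by linarith
    have hlD : Real.log h / 6 ≤ Real.log D := by
      have e1 : Real.log (r / 2) ≤ Real.log D := Real.log_le_log (by linarith) hD2
      rw [Real.log_div hr0.ne' (by norm_num)] at e1
      have e2 : Real.log 4 ≤ Real.log r := Real.log_le_log (by norm_num) hr4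
      have e3 : Real.log 4 = 2 * Real.log 2 := by
        rw [show (4 : ℝ) = 2 ^ 2 by norm_num, Real.log_pow]
        norm_num
      linarith
    have hlD0 : 0 < Real.log D := by linarith
    have hb := BT_sieve z h hz (by linarith) D hD3
    have e7 : h / Real.log D ≤ 6 * h / Real.log h := by
      rw [div_le_div_iff₀ hlD0 hlog]
      nlinarith
    have e8 : Real.log h ≤ 3 * r := by
      have := Real.log_le_sub_one_of_pos hr0
      linarith
    have e9 : (D : ℝ) + 2 * (D : ℝ) ^ 2 ≤ 9 * h / Real.log h := by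
      rw [le_div_iff₀ hlog]
      have f1 : (D : ℝ) + 2 * (D : ℝ) ^ 2 ≤ 3 * r ^ 2 := by
        have f2 : (D : ℝ) ^ 2 ≤ r ^ 2 := by
          apply pow_le_pow_left₀ (Nat.cast_nonneg _) hD1
        nlinarith
      calc ((D : ℝ) + 2 * (D : ℝ) ^ 2) * Real.log h ≤ (3 * r ^ 2) * (3 * r) := by
            apply mul_le_mul f1 e8 hlog.le (by positivity)
        _ = 9 * h := by rw [← hr3]; ring
    calc ((pr z (z + h)).card : ℝ) ≤ 6 * h / Real.log h + 9 * h / Real.log h := by linarith
      _ = 15 * h / Real.log h := by ring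
      _ ≤ 65 * h / Real.log h := by
        apply div_le_div_of_nonneg_right _ hlog.le
        linarith

/-- `∑_{u - √u ≤ p ≤ u} log p / √p ≤ C` for all `u ≥ 1`: for `u ≤ 100` trivial, else `p ≥ u/4`, `log p ≤ log u`, and the number of such `p` is
`≤ 1 + C √u / log √u`. -/
theorem bt_sqrt : ∃ C : ℝ, 0 < C ∧ ∀ u : ℝ, 1 ≤ u →
    ∑ p ∈ (Icc 1 ⌊u⌋₊).filter (fun p : ℕ => p.Prime ∧ u ≤ (p : ℝ) + Real.sqrt p), Real.log p / Real.sqrt p ≤ C := by
  obtain ⟨C, hC, hBT⟩ := brun_titchmarsh
  refine ⟨8 * C + 8, by linarith, fun u hu => ?_⟩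
  set S := (Icc 1 ⌊u⌋₊).filter (fun p : ℕ => p.Prime ∧ u ≤ (p : ℝ) + Real.sqrt p) with hS
  rcases lt_or_ge u 4 with hs | hs
  · have e1 : ∀ p ∈ S, Real.log p / Real.sqrt p ≤ 2 := by
      intro p hp
      rw [hS, mem_filter, mem_Icc] at hp
      have hp0 : (0 : ℝ) < p := by exact_mod_cast hp.1.1
      have hsp : 0 < Real.sqrt p := Real.sqrt_pos.2 hp0
      rw [div_le_iff₀ hsp]
      have e2 : Real.log p = 2 * Real.log (Real.sqrt p) := by
        rw [Real.log_sqrt hp0.le]
        ring
      have e3 := Real.log_le_sub_one_of_pos hsp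
      linarith
    have e4 : (S.card : ℝ) ≤ 4 := by
      have e5 : S.card ≤ ⌊u⌋₊ := by
        rw [hS]
        exact (card_filter_le _ _).trans (by simp)
      have e6 := Nat.floor_le (show (0 : ℝ) ≤ u by linarith)
      have e7 : (S.card : ℝ) ≤ ⌊u⌋₊ := by exact_mod_cast e5
      linarith
    calc _ ≤ ∑ _p ∈ S, (2 : ℝ) := sum_le_sum e1
      _ = S.card * 2 := by rw [sum_const, nsmul_eq_mul]
      _ ≤ 8 * C + 8 := by linarith
  · set s := Real.sqrt u with hsdef
    have hs2 : s ^ 2 = u := Real.sq_sqrt (by linarith)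
    have hs0 : 0 ≤ s := Real.sqrt_nonneg u
    have hs1 : 2 ≤ s := by
      by_contra hcon
      push Not at hcon
      nlinarith
    have hlu : 0 < Real.log u := Real.log_pos (by linarith)
    have hz : 0 ≤ u - s - 1 := by nlinarith
    have hb := hBT (u - s - 1) (s + 1) hz (by linarith)
    rw [show u - s - 1 + (s + 1) = u by ring] at hb
    have hps : ∀ p ∈ S, u - s ≤ p ∧ (p : ℝ) ≤ u ∧ p.Prime := by
      intro p hp
      rw [hS, mem_filter, mem_Icc] at hp
      have e1 : (p : ℝ) ≤ u := (Nat.le_floor_iff (by linarith)).1 hp.1.2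
      have e2 : Real.sqrt p ≤ s := Real.sqrt_le_sqrt e1
      exact ⟨by linarith [hp.2.2], e1, hp.2.1⟩
    have hsub : S ⊆ pr (u - s - 1) u := by
      intro p hp
      obtain ⟨e1, e2, e3⟩ := hps p hp
      rw [mem_pr hz (by linarith)]
      exact ⟨e3, by linarith, e2⟩
    have hcard : (S.card : ℝ) ≤ 4 * C * s / Real.log u := by
      have e1 : (S.card : ℝ) ≤ ((pr (u - s - 1) u).card : ℝ) := by
        exact_mod_cast card_le_card hsub
      refine e1.trans (hb.trans ?_)
      have e2 : Real.log u / 2 ≤ Real.log (s + 1) := by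
        have e3 : Real.log s ≤ Real.log (s + 1) := Real.log_le_log (by linarith) (by linarith)
        have e4 : Real.log s = Real.log u / 2 := Real.log_sqrt (by linarith)
        linarith
      have e5 : 0 < Real.log (s + 1) := by linarith
      rw [div_le_div_iff₀ e5 hlu]
      have e6 : C * (s + 1) * Real.log u ≤ C * (2 * s) * Real.log u := by
        apply mul_le_mul_of_nonneg_right _ hlu.le
        apply mul_le_mul_of_nonneg_left _ hC.le
        linarith
      have e7 : C * (2 * s) * Real.log u ≤ C * (2 * s) * (2 * Real.log (s + 1)) := by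
        apply mul_le_mul_of_nonneg_left _ (by positivity)
        linarith
      linarith
    have hterm : ∀ p ∈ S, Real.log p / Real.sqrt p ≤ 2 * Real.log u / s := by
      intro p hp
      obtain ⟨e1, e2, e3⟩ := hps p hp
      have hp0 : (0 : ℝ) < p := by exact_mod_cast e3.pos
      have e4 : u / 4 ≤ p := by nlinarith
      have e5 : s / 2 ≤ Real.sqrt p := by
        apply Real.le_sqrt_of_sq_le
        rw [div_pow, hs2]
        linarith
      have e6 : Real.log p ≤ Real.log u := Real.log_le_log hp0 e2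
      have hsp : 0 < Real.sqrt p := by linarith
      rw [div_le_div_iff₀ hsp (by linarith)]
      have e7 : Real.log p * s ≤ Real.log u * s := mul_le_mul_of_nonneg_right e6 hs0
      have e8 : Real.log u * s ≤ Real.log u * (2 * Real.sqrt p) := by
        apply mul_le_mul_of_nonneg_left _ hlu.le
        linarith
      linarith
    calc _ ≤ ∑ _p ∈ S, 2 * Real.log u / s := sum_le_sum hterm
      _ = S.card * (2 * Real.log u / s) := by rw [sum_const, nsmul_eq_mul]
      _ ≤ (4 * C * s / Real.log u) * (2 * Real.log u / s) := by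
        apply mul_le_mul_of_nonneg_right hcard
        positivity
      _ = 8 * C := by
        have : s ≠ 0 := by linarith
        field_simp
        ring
      _ ≤ 8 * C + 8 := by linarith

end Pool.Agent.Mrd
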