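import Pool.Agent.Mrd.Kern

/-!
Mrd MVT: mean value theorems.
-/

set_option autoImplicit false

namespace Pool.Agent.Mrd

open Finset MeasureTheory Filter Topology

private theorem Mvt_log {N n m : ℕ} (hn : 1 ≤ n) (hnN : n ≤ N) (hm : 1 ≤ m) (hmN : m ≤ N) :
    |(n : ℝ) - m| ≤ N * |Real.log n - Real.log m| := by
  have key : ∀ {n m : ℕ}, 1 ≤ m → n ≤ N → m ≤ n →
      |(n : ℝ) - m| ≤ N * |Real.log n - Real.log m| := by
    intro n m hm hnN hmn
    have hm0 : (0 : ℝ) < m := by exact_mod_cast hm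
    have hn0 : (0 : ℝ) < n := by exact_mod_cast lt_of_lt_of_le hm hmn
    have hmn' : (m : ℝ) ≤ n := by exact_mod_cast hmn
    have hnN' : (n : ℝ) ≤ N := by exact_mod_cast hnN
    rw [abs_of_nonneg (by linarith), abs_of_nonneg (by
      have := Real.log_le_log hm0 hmn'
      linarith)]
    have h1 : Real.log (m / n) ≤ m / n - 1 := Real.log_le_sub_one_of_pos (by positivity)
    rw [Real.log_div hm0.ne' hn0.ne'] at h1
    have h2 : 1 - (m : ℝ) / n ≤ Real.log n - Real.log m := by linarith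
    have h3 : (n : ℝ) - m = n * (1 - m / n) := by field_simp
    rw [h3]
    have h4 : 0 ≤ 1 - (m : ℝ) / n := by
      rw [sub_nonneg, div_le_one hn0]
      exact hmn'
    exact mul_le_mul hnN' h2 h4 (by positivity)
  rcases le_total m n with h | h
  · exact key hm hnN h
  · have := key hn hmN h
    rwa [abs_sub_comm, abs_sub_comm (Real.log m)] at this

private theorem Mvt_zsum (n : ℕ) (S : Finset ℕ) :
    ∑ m ∈ S, 1 / (1 + ((n : ℝ) - m) ^ 2) ≤ 5 := by
  -- tail bound: sum over k ≥ 1 of 1/(1+k^2) ≤ 2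
  have htail : ∀ K : ℕ, ∑ k ∈ Finset.range K, (1 : ℝ) / (1 + ((k : ℝ) + 1) ^ 2) ≤ 2 := by
    intro K
    have haux : ∀ K : ℕ, ∑ k ∈ Finset.range K, (1 : ℝ) / (1 + ((k : ℝ) + 1) ^ 2) ≤
        2 - 1 / ((K : ℝ) + 1 / 2) := by
      intro K
      induction K with
      | zero => norm_num
      | succ K ih =>
        rw [Finset.sum_range_succ]
        have h1 : (1 : ℝ) / (1 + ((K : ℝ) + 1) ^ 2) ≤
            1 / ((K : ℝ) + 1 / 2) - 1 / ((K : ℝ) + 1 + 1 / 2) := by
          rw [div_sub_div _ _ (by positivity) (by positivity), div_le_div_iff₀ (by positivity)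
            (by positivity)]
          have : (0 : ℝ) ≤ K := Nat.cast_nonneg K
          nlinarith
        push_cast
        linarith
    have h2 := haux K
    have h3 : (0 : ℝ) ≤ 1 / ((K : ℝ) + 1 / 2) := by positivity
    linarith
  have hS : ∑ m ∈ S, 1 / (1 + ((n : ℝ) - m) ^ 2) ≤
      ∑ m ∈ Finset.range (n + 1 + (S.sup id + 1)), 1 / (1 + ((n : ℝ) - m) ^ 2) := by
    apply Finset.sum_le_sum_of_subset_of_nonneg
    · intro m hm
      rw [Finset.mem_range]
      have : m ≤ S.sup id := Finset.le_sup (f := id) hm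
      omega
    · intro m _ _
      positivity
  refine hS.trans ?_
  rw [Finset.sum_range_add]
  have hA : ∑ m ∈ Finset.range (n + 1), 1 / (1 + ((n : ℝ) - m) ^ 2) ≤ 3 := by
    rw [Finset.sum_range_succ, ← Finset.sum_range_reflect]
    have : ∑ j ∈ Finset.range n, 1 / (1 + ((n : ℝ) - ((n - 1 - j : ℕ) : ℝ)) ^ 2) =
        ∑ k ∈ Finset.range n, (1 : ℝ) / (1 + ((k : ℝ) + 1) ^ 2) := by
      refine Finset.sum_congr rfl fun j hj => ?_
      rw [Finset.mem_range] at hj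
      have : ((n - 1 - j : ℕ) : ℝ) = n - 1 - j := by
        rw [Nat.cast_sub (by omega), Nat.cast_sub (by omega)]
        simp
      rw [this]
      congr 3
      ring
    rw [this]
    have := htail n
    norm_num
    simp only [one_div] at this
    linarith
  have hB : ∑ i ∈ Finset.range (S.sup id + 1), 1 / (1 + ((n : ℝ) - ((n + 1 + i : ℕ) : ℝ)) ^ 2) ≤ 2 := by
    have : ∑ i ∈ Finset.range (S.sup id + 1), 1 / (1 + ((n : ℝ) - ((n + 1 + i : ℕ) : ℝ)) ^ 2) =
        ∑ k ∈ Finset.range (S.sup id + 1), (1 : ℝ) / (1 + ((k : ℝ) + 1) ^ 2) := by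
      refine Finset.sum_congr rfl fun j _ => ?_
      push_cast
      congr 2
      ring
    rw [this]
    exact htail _
  linarith

private theorem Mvt_core (N : ℕ) (S : Finset ℕ) (a : ℕ → ℂ) (A B : ℝ) (hN : 1 ≤ N)
    (hS : ∀ n ∈ S, 1 ≤ n ∧ n ≤ N) (hAB : A ≤ B) :
    ∫ t in A..B, ‖dp S a t‖ ^ 2 ≤ (Real.exp 1 * 10) * ((B - A) + N) * ∑ n ∈ S, ‖a n‖ ^ 2 := by
  have hN0 : (1 : ℝ) ≤ N := by exact_mod_cast hN
  set T : ℝ := (B - A) + N with hT
  have hTN : (N : ℝ) ≤ T := by rw [hT]; linarith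
  have hT0 : 0 < T := by linarith
  have h1 := l2_kern S a (A := A) (B := B) (c := (A + B) / 2) (T := T) hT0
    (by rw [hT]; linarith) (by rw [hT]; linarith) hAB
  refine h1.trans ?_
  rw [show Real.exp 1 * 10 * T * ∑ n ∈ S, ‖a n‖ ^ 2 =
    Real.exp 1 * (10 * T * ∑ n ∈ S, ‖a n‖ ^ 2) by ring]
  refine mul_le_mul_of_nonneg_left ?_ (Real.exp_pos 1).le
  have hw : ∀ n ∈ S, ∀ m ∈ S, 2 * T / (1 + (T * (Real.log n - Real.log m)) ^ 2) ≤
      2 * T * (1 / (1 + ((n : ℝ) - m) ^ 2)) := by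
    intro n hn m hm
    rw [← mul_one_div]
    refine mul_le_mul_of_nonneg_left ?_ (by positivity)
    refine one_div_le_one_div_of_le (by positivity) ?_
    have h2 := Mvt_log (hS n hn).1 (hS n hn).2 (hS m hm).1 (hS m hm).2
    have h3 : |(n : ℝ) - m| ≤ |T * (Real.log n - Real.log m)| := by
      rw [abs_mul, abs_of_pos hT0]
      exact h2.trans (mul_le_mul_of_nonneg_right hTN (abs_nonneg _))
    have := sq_le_sq.2 h3
    linarith
  calc ∑ n ∈ S, ∑ m ∈ S, ‖a n‖ * ‖a m‖ * (2 * T / (1 + (T * (Real.log n - Real.log m)) ^ 2))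
      ≤ ∑ n ∈ S, ∑ m ∈ S, ((‖a n‖ ^ 2 + ‖a m‖ ^ 2) / 2) *
          (2 * T * (1 / (1 + ((n : ℝ) - m) ^ 2))) := by
        refine Finset.sum_le_sum fun n hn => Finset.sum_le_sum fun m hm => ?_
        have h2 : ‖a n‖ * ‖a m‖ ≤ (‖a n‖ ^ 2 + ‖a m‖ ^ 2) / 2 := by
          nlinarith [sq_nonneg (‖a n‖ - ‖a m‖)]
        have h3 := hw n hn m hm
        have h4 : 0 ≤ 2 * T / (1 + (T * (Real.log n - Real.log m)) ^ 2) := by positivity
        exact mul_le_mul h2 h3 h4 (by positivity)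
    _ = ∑ n ∈ S, ∑ m ∈ S, ‖a n‖ ^ 2 * (T * (1 / (1 + ((n : ℝ) - m) ^ 2))) +
        ∑ n ∈ S, ∑ m ∈ S, ‖a m‖ ^ 2 * (T * (1 / (1 + ((n : ℝ) - m) ^ 2))) := by
        rw [← Finset.sum_add_distrib]
        refine Finset.sum_congr rfl fun n _ => ?_
        rw [← Finset.sum_add_distrib]
        refine Finset.sum_congr rfl fun m _ => ?_
        ring
    _ = ∑ n ∈ S, ∑ m ∈ S, ‖a n‖ ^ 2 * (T * (1 / (1 + ((n : ℝ) - m) ^ 2))) +
        ∑ n ∈ S, ∑ m ∈ S, ‖a n‖ ^ 2 * (T * (1 / (1 + ((n : ℝ) - m) ^ 2))) := by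
        congr 1
        rw [Finset.sum_comm]
        refine Finset.sum_congr rfl fun n _ => Finset.sum_congr rfl fun m _ => ?_
        congr 4
        ring
    _ ≤ ∑ n ∈ S, ‖a n‖ ^ 2 * (T * 5) + ∑ n ∈ S, ‖a n‖ ^ 2 * (T * 5) := by
        have : ∀ n ∈ S, ∑ m ∈ S, ‖a n‖ ^ 2 * (T * (1 / (1 + ((n : ℝ) - m) ^ 2))) ≤
            ‖a n‖ ^ 2 * (T * 5) := by
          intro n _
          rw [← Finset.mul_sum, ← Finset.mul_sum]
          refine mul_le_mul_of_nonneg_left ?_ (by positivity)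
          exact mul_le_mul_of_nonneg_left (Mvt_zsum n S) hT0.le
        exact add_le_add (Finset.sum_le_sum this) (Finset.sum_le_sum this)
    _ = 10 * T * ∑ n ∈ S, ‖a n‖ ^ 2 := by
        rw [Finset.mul_sum, ← Finset.sum_add_distrib]
        refine Finset.sum_congr rfl fun n _ => ?_
        ring

/-- Mean value theorem. `l2_kern` with `T = (B - A) + N`, `c = (A+B)/2`; `‖a n‖‖a m‖ ≤ (‖a n‖^2 + ‖a m‖^2)/2`; for
`1 ≤ n, m ≤ N`: `|log n - log m| ≥ |n - m|/N ≥ |n - m|/T`, so each row sum is `≤ 2T ∑_m 1/(1+(n-m)^2) ≤ 2T (1 + 4)`. -/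
theorem mvt : ∃ C : ℝ, 0 < C ∧ ∀ (N : ℕ) (S : Finset ℕ) (a : ℕ → ℂ) (A B : ℝ), 1 ≤ N →
    (∀ n ∈ S, 1 ≤ n ∧ n ≤ N) → A ≤ B →
    ∫ t in A..B, ‖dp S a t‖ ^ 2 ≤ C * ((B - A) + N) * ∑ n ∈ S, ‖a n‖ ^ 2 :=
  ⟨Real.exp 1 * 10, by positivity, fun N S a A B hN hS hAB => Mvt_core N S a A B hN hS hAB⟩

private theorem Mvt_deriv (S : Finset ℕ) (a : ℕ → ℂ) (t : ℝ) :
    HasDerivAt (dp S a) (dp S (fun n => -Complex.I * Real.log n * a n) t) t := by
  unfold dp
  apply HasDerivAt.fun_sum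
  intro n _
  have h1 : HasDerivAt (fun t : ℝ => (-((t * Real.log n : ℝ) : ℂ) * Complex.I))
      (-((1 * Real.log n : ℝ) : ℂ) * Complex.I) t := by
    have h2 : HasDerivAt (fun t : ℝ => t * Real.log n) (1 * Real.log n) t :=
      (hasDerivAt_id t).mul_const _
    exact (h2.ofReal_comp.neg).mul_const _
  have h3 := (h1.cexp).const_mul (a n)
  refine h3.congr_deriv ?_
  unfold tw
  push_cast
  ring

private theorem Mvt_sq (S : Finset ℕ) (a : ℕ → ℂ) (t : ℝ) :
    HasDerivAt (fun s => ‖dp S a s‖ ^ 2)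
      (2 * (dp S a t * (starRingEnd ℂ) (dp S (fun n => -Complex.I * Real.log n * a n) t)).re) t := by
  have h := Mvt_deriv S a t
  have h1 := h.norm_sq
  refine h1.congr_deriv ?_
  rw [Complex.inner, ← Complex.conj_re, map_mul, Complex.conj_conj,
    mul_comm (dp S a t) ((starRingEnd ℂ) (dp S (fun n => -Complex.I * Real.log n * a n) t))]

private theorem Mvt_gall (g g' : ℝ → ℝ) (hg : ∀ t, HasDerivAt g (g' t) t) (hc : Continuous g')
    (t : ℝ) : g t ≤ ∫ s in (t - 1 / 2)..(t + 1 / 2), (g s + |g' s|) := by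
  have hgc : Continuous g := continuous_iff_continuousAt.2 fun x => (hg x).continuousAt
  set J : ℝ := ∫ u in (t - 1 / 2)..(t + 1 / 2), |g' u| with hJ
  have hI : ∀ s ∈ Set.Icc (t - 1 / 2) (t + 1 / 2), g t ≤ g s + J := by
    intro s hs
    have h1 : ∫ u in s..t, g' u = g t - g s :=
      intervalIntegral.integral_eq_sub_of_hasDerivAt (fun x _ => hg x) (hc.intervalIntegrable _ _)
    have h2 : |∫ u in s..t, g' u| ≤ J := by
      rw [← Real.norm_eq_abs]
      refine (intervalIntegral.norm_integral_le_integral_norm_uIoc).trans ?_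
      rw [hJ, intervalIntegral.integral_of_le (by linarith)]
      refine setIntegral_mono_set ?_ ?_ ?_
      · exact (hc.abs.integrableOn_Icc (a := t - 1 / 2) (b := t + 1 / 2)).mono_set
          Set.Ioc_subset_Icc_self
      · exact Filter.Eventually.of_forall fun x => abs_nonneg _
      · refine Filter.Eventually.of_forall fun x hx => ?_
        have hx' : x ∈ Set.uIoc s t := hx
        rw [Set.mem_uIoc] at hx'
        show x ∈ Set.Ioc (t - 1 / 2) (t + 1 / 2)
        rcases hx' with ⟨h3, h4⟩ | ⟨h3, h4⟩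
        · exact ⟨lt_of_le_of_lt hs.1 h3, by linarith⟩
        · exact ⟨by linarith, h4.trans hs.2⟩
    have h3 := le_abs_self (∫ u in s..t, g' u)
    linarith
  have h4 : ∫ s in (t - 1 / 2)..(t + 1 / 2), g t ≤ ∫ s in (t - 1 / 2)..(t + 1 / 2), (g s + J) := by
    apply intervalIntegral.integral_mono_on (by linarith)
    · exact continuous_const.intervalIntegrable _ _
    · exact (hgc.add continuous_const).intervalIntegrable _ _
    · exact hI
  rw [intervalIntegral.integral_const, intervalIntegral.integral_add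
    (hgc.intervalIntegrable _ _) (continuous_const.intervalIntegrable _ _),
    intervalIntegral.integral_const] at h4
  rw [intervalIntegral.integral_add (hgc.intervalIntegrable _ _) (hc.abs.intervalIntegrable _ _),
    ← hJ]
  rw [smul_eq_mul, smul_eq_mul, show t + 1 / 2 - (t - 1 / 2) = 1 by ring, one_mul, one_mul] at h4
  exact h4

private theorem Mvt_disj (G : ℝ → ℝ) (hG : Continuous G) (hG0 : ∀ x, 0 ≤ G x) (T : ℝ)
    (W : Finset ℝ) (hW : WS W) (hT : ∀ t ∈ W, |t| ≤ T) (hT1 : 1 ≤ T) :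
    ∑ t ∈ W, ∫ s in (t - 1 / 2)..(t + 1 / 2), G s ≤ ∫ s in (-T - 1)..(T + 1), G s := by
  have h1 : ∀ t ∈ W, ∫ s in (t - 1 / 2)..(t + 1 / 2), G s =
      ∫ s in Set.Ioc (t - 1 / 2) (t + 1 / 2), G s := fun t _ =>
    intervalIntegral.integral_of_le (by linarith)
  rw [Finset.sum_congr rfl h1, intervalIntegral.integral_of_le (by linarith),
    ← integral_biUnion_finset W (s := fun t => Set.Ioc (t - 1 / 2) (t + 1 / 2))]
  · refine setIntegral_mono_set ?_ ?_ ?_
    · exact (hG.integrableOn_Icc (a := -T - 1) (b := T + 1)).mono_set Set.Ioc_subset_Icc_self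
    · exact Filter.Eventually.of_forall fun x => hG0 x
    · refine Filter.Eventually.of_forall fun x hx => ?_
      have hx' : x ∈ ⋃ t ∈ W, Set.Ioc (t - 1 / 2) (t + 1 / 2) := hx
      rw [Set.mem_iUnion₂] at hx'
      obtain ⟨t, ht, h2, h3⟩ := hx'
      have := abs_le.1 (hT t ht)
      exact ⟨by linarith [this.1], by linarith [this.2]⟩
  · intro t _
    exact measurableSet_Ioc
  · intro s hs t ht hst
    have h2 := hW s hs t ht hst
    show Disjoint (Set.Ioc (s - 1 / 2) (s + 1 / 2)) (Set.Ioc (t - 1 / 2) (t + 1 / 2))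
    rw [Set.disjoint_left]
    rintro x ⟨h3, h4⟩ ⟨h5, h6⟩
    rcases le_total s t with h | h
    · rw [abs_sub_comm, abs_of_nonneg (by linarith)] at h2
      linarith
    · rw [abs_of_nonneg (by linarith)] at h2
      linarith
  · intro t _
    exact (hG.integrableOn_Icc (a := t - 1 / 2) (b := t + 1 / 2)).mono_set Set.Ioc_subset_Icc_self

/-- Discrete mean value theorem. For `g = ‖F‖^2`, `F = dp S a`: `g(t) ≤ ∫_{t-1/2}^{t+1/2} (g + |g'|)`, `|g'| ≤ 2 ‖F‖ ‖F'‖ ≤
λ ‖F‖^2 + ‖F'‖^2/λ` with `λ = 1 + log N`, `F' = dp S (fun n => -i (log n) a n)`. The intervals around the points of `W` are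
disjoint up to end points and contained in `[-T-1, T+1]`; apply `mvt` twice. -/
theorem mvt_disc : ∃ C : ℝ, 0 < C ∧ ∀ (N : ℕ) (S : Finset ℕ) (a : ℕ → ℂ) (T : ℝ) (W : Finset ℝ),
    1 ≤ N → (∀ n ∈ S, 1 ≤ n ∧ n ≤ N) → 1 ≤ T → WS W → (∀ t ∈ W, |t| ≤ T) →
    ∑ t ∈ W, ‖dp S a t‖ ^ 2 ≤ C * (T + N) * (1 + Real.log N) * ∑ n ∈ S, ‖a n‖ ^ 2 := by
  obtain ⟨C₀, hC₀, hmv⟩ := mvt
  refine ⟨12 * C₀, by positivity, ?_⟩
  intro N S a T W hN hS hT hW hWT
  have hN1 : (1 : ℝ) ≤ N := by exact_mod_cast hN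
  have hlog : 0 ≤ Real.log N := Real.log_nonneg hN1
  set L : ℝ := 1 + Real.log N with hL
  have hL1 : 1 ≤ L := by linarith
  set b : ℕ → ℂ := fun n => -Complex.I * Real.log n * a n with hb
  set F := dp S a with hF
  set F' := dp S b with hF'
  have hFc : Continuous F := dp_continuous S a
  have hF'c : Continuous F' := dp_continuous S b
  set Q : ℝ := ∑ n ∈ S, ‖a n‖ ^ 2 with hQ
  have hQ0 : 0 ≤ Q := Finset.sum_nonneg fun n _ => by positivity
  have hbQ : ∑ n ∈ S, ‖b n‖ ^ 2 ≤ L ^ 2 * Q := by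
    rw [hQ, Finset.mul_sum]
    refine Finset.sum_le_sum fun n hn => ?_
    have h1 : ‖b n‖ = Real.log n * ‖a n‖ := by
      have hlogn : 0 ≤ Real.log n := Real.log_nonneg (by exact_mod_cast (hS n hn).1)
      simp only [hb]
      rw [norm_mul, norm_mul, norm_neg, Complex.norm_I, one_mul, Complex.norm_real,
        Real.norm_eq_abs, abs_of_nonneg hlogn]
    rw [h1, mul_pow]
    refine mul_le_mul_of_nonneg_right ?_ (by positivity)
    have h2 : 0 ≤ Real.log n := Real.log_nonneg (by exact_mod_cast (hS n hn).1)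
    have h3 : Real.log n ≤ L := by
      have h4 : Real.log n ≤ Real.log N := Real.log_le_log
        (by exact_mod_cast (hS n hn).1) (by exact_mod_cast (hS n hn).2)
      linarith
    exact pow_le_pow_left₀ h2 h3 2
  set G : ℝ → ℝ := fun s => (1 + L) * ‖F s‖ ^ 2 + (1 / L) * ‖F' s‖ ^ 2 with hG
  have hGc : Continuous G := by
    simp only [hG]
    exact (continuous_const.mul (hFc.norm.pow 2)).add (continuous_const.mul (hF'c.norm.pow 2))
  have hG0 : ∀ x, 0 ≤ G x := by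
    intro x
    simp only [hG]
    positivity
  have hpt : ∀ t ∈ W, ‖F t‖ ^ 2 ≤ ∫ s in (t - 1 / 2)..(t + 1 / 2), G s := by
    intro t _
    have hc' : Continuous (fun s => 2 * (F s * (starRingEnd ℂ) (F' s)).re) := by
      exact continuous_const.mul (Complex.continuous_re.comp
        (hFc.mul (Complex.continuous_conj.comp hF'c)))
    have h1 := Mvt_gall (fun s => ‖F s‖ ^ 2) (fun s => 2 * (F s * (starRingEnd ℂ) (F' s)).re)
      (fun s => Mvt_sq S a s) hc' t
    refine h1.trans ?_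
    apply intervalIntegral.integral_mono_on (by linarith)
    · exact ((hFc.norm.pow 2).add hc'.abs).intervalIntegrable _ _
    · exact hGc.intervalIntegrable _ _
    · intro s _
      simp only [hG]
      have h2 : |2 * (F s * (starRingEnd ℂ) (F' s)).re| ≤ 2 * (‖F s‖ * ‖F' s‖) := by
        rw [abs_mul, abs_two]
        have := Complex.abs_re_le_norm (F s * (starRingEnd ℂ) (F' s))
        rw [norm_mul, Complex.norm_conj] at this
        linarith
      have h3 : 2 * (‖F s‖ * ‖F' s‖) ≤ L * ‖F s‖ ^ 2 + (1 / L) * ‖F' s‖ ^ 2 := by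
        have h4 : 0 ≤ (L * ‖F s‖ - ‖F' s‖) ^ 2 / L := by positivity
        have h5 : (L * ‖F s‖ - ‖F' s‖) ^ 2 / L =
            L * ‖F s‖ ^ 2 + (1 / L) * ‖F' s‖ ^ 2 - 2 * (‖F s‖ * ‖F' s‖) := by
          field_simp
          ring
        linarith
      linarith
  have h1 : ∑ t ∈ W, ‖F t‖ ^ 2 ≤ ∫ s in (-T - 1)..(T + 1), G s :=
    (Finset.sum_le_sum hpt).trans (Mvt_disj G hGc hG0 T W hW hWT hT)
  have h2 : ∫ s in (-T - 1)..(T + 1), G s =
      (1 + L) * (∫ s in (-T - 1)..(T + 1), ‖F s‖ ^ 2) +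
        (1 / L) * (∫ s in (-T - 1)..(T + 1), ‖F' s‖ ^ 2) := by
    simp only [hG]
    rw [intervalIntegral.integral_add, intervalIntegral.integral_const_mul,
      intervalIntegral.integral_const_mul]
    · exact (continuous_const.mul (hFc.norm.pow 2)).intervalIntegrable _ _
    · exact (continuous_const.mul (hF'c.norm.pow 2)).intervalIntegrable _ _
  have h3 := hmv N S a (-T - 1) (T + 1) hN hS (by linarith)
  have h4 := hmv N S b (-T - 1) (T + 1) hN hS (by linarith)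
  have h5 : (T + 1 - (-T - 1)) + (N : ℝ) ≤ 4 * (T + N) := by linarith
  have h3' : ∫ s in (-T - 1)..(T + 1), ‖F s‖ ^ 2 ≤ C₀ * (4 * (T + N)) * Q :=
    h3.trans (by gcongr)
  have h4' : ∫ s in (-T - 1)..(T + 1), ‖F' s‖ ^ 2 ≤ C₀ * (4 * (T + N)) * (L ^ 2 * Q) := by
    refine h4.trans ?_
    have h6 : 0 ≤ (T + 1 - (-T - 1)) + (N : ℝ) := by linarith
    have h7 : C₀ * ((T + 1 - (-T - 1)) + (N : ℝ)) ≤ C₀ * (4 * (T + N)) :=
      mul_le_mul_of_nonneg_left h5 hC₀.le
    exact mul_le_mul h7 hbQ (Finset.sum_nonneg fun n _ => by positivity) (by positivity)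
  calc ∑ t ∈ W, ‖F t‖ ^ 2 ≤ _ := h1
    _ = _ := h2
    _ ≤ (1 + L) * (C₀ * (4 * (T + N)) * Q) + (1 / L) * (C₀ * (4 * (T + N)) * (L ^ 2 * Q)) := by
        gcongr
    _ = C₀ * (4 * (T + N)) * (1 + 2 * L) * Q := by
        field_simp
        ring
    _ ≤ C₀ * (4 * (T + N)) * (3 * L) * Q := by
        gcongr
        linarith
    _ = 12 * C₀ * (T + N) * L * Q := by ring

end Pool.Agent.Mrd
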