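import Pool.Agent.Mrd.Defs2
import Pool.Agent.Mrd.Mvt
import Pool.Agent.MP_7f688b_an.Plancherel

/-!
Mrd BOX: Plancherel for sums over short multiplicative intervals.
-/

set_option autoImplicit false

namespace Pool.Agent.Mrd

open Finset MeasureTheory Filter Topology

/-- the window function -/
private noncomputable def box_h (f : ℕ → ℂ) (X δ : ℝ) (u : ℝ) : ℂ :=
  ∑ n ∈ Ioc ⌊X⌋₊ ⌊4 * X⌋₊,
    Set.indicator (Set.Ico (Real.log n - δ) (Real.log n)) (fun _ => f n / n) u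

/-- the Fourier transform of the window -/
private noncomputable def box_K (δ ξ : ℝ) : ℂ :=
  ∫ w in (-δ)..0, Complex.exp (((-2 * Real.pi * w * ξ : ℝ) : ℂ) * Complex.I)

private theorem box_h_log {f : ℕ → ℂ} {X δ y : ℝ} (hX : 1 ≤ X) (hδ : 0 < δ) (hδ' : δ ≤ 1 / 10)
    (h1 : 3 * X / 2 ≤ y) (h2 : y ≤ 7 * X / 2) :
    box_h f X δ (Real.log y) = ∑ n ∈ Ioc ⌊y⌋₊ ⌊y * Real.exp δ⌋₊, f n / n := by
  unfold box_h
  have hy : 0 < y := by linarith
  simp only [Set.indicator_apply, Set.mem_Ico]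
  rw [← Finset.sum_filter]
  apply Finset.sum_congr _ fun _ _ => rfl
  ext n
  rw [Finset.mem_filter, Finset.mem_Ioc, Finset.mem_Ioc, Nat.floor_lt (by linarith),
    Nat.le_floor_iff (by linarith), Nat.floor_lt hy.le, Nat.le_floor_iff (by positivity)]
  have hlog : Real.log (y * Real.exp δ) = Real.log y + δ := by
    rw [Real.log_mul hy.ne' (Real.exp_pos _).ne', Real.log_exp]
  constructor
  · rintro ⟨⟨ha, hb⟩, hc, hd⟩
    have hn : (0 : ℝ) < n := by linarith
    refine ⟨(Real.log_lt_log_iff hy hn).1 hd, ?_⟩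
    rw [← Real.log_le_log_iff hn (by positivity), hlog]
    linarith
  · rintro ⟨ha, hb⟩
    have hn : (0 : ℝ) < n := by linarith
    have he : Real.exp δ ≤ 8 / 7 := by
      refine (Real.exp_le_exp.2 hδ').trans ?_
      refine (Real.exp_bound_div_one_sub_of_interval (by norm_num) (by norm_num)).trans ?_
      norm_num
    refine ⟨⟨by linarith, ?_⟩, ?_, (Real.log_lt_log_iff hy hn).2 ha⟩
    · refine hb.trans ?_
      have : y * Real.exp δ ≤ (7 * X / 2) * (8 / 7) :=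
        mul_le_mul h2 he (Real.exp_pos _).le (by linarith)
      linarith
    · have := (Real.log_le_log_iff hn (by positivity)).2 hb
      rw [hlog] at this
      linarith

private theorem box_int (f : ℕ → ℂ) (X δ : ℝ) : Integrable (box_h f X δ) := by
  unfold box_h
  refine integrable_finsetSum _ fun n _ => ?_
  rw [integrable_indicator_iff measurableSet_Ico]
  exact integrableOn_const (by simp)

private theorem box_mem (f : ℕ → ℂ) (X δ : ℝ) : MemLp (box_h f X δ) 2 := by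
  unfold box_h
  refine memLp_finsetSum _ fun n _ => ?_
  exact memLp_indicator_const 2 measurableSet_Ico _ (Or.inr (by simp))

open scoped FourierTransform in
private theorem box_fourier (f : ℕ → ℂ) (X δ ξ : ℝ) (hδ : 0 ≤ δ) :
    𝓕 (box_h f X δ) ξ = box_K δ ξ * Av f X (2 * Real.pi * ξ) := by
  rw [Real.fourier_real_eq_integral_exp_smul]
  have hcont : Continuous (fun v : ℝ => Complex.exp (((-2 * Real.pi * v * ξ : ℝ) : ℂ) * Complex.I)) := by
    fun_prop
  have e1 : ∀ n : ℕ, ∫ v : ℝ, Complex.exp (((-2 * Real.pi * v * ξ : ℝ) : ℂ) * Complex.I) •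
      Set.indicator (Set.Ico (Real.log n - δ) (Real.log n)) (fun _ => f n / n) v =
      box_K δ ξ * (f n / n * tw (2 * Real.pi * ξ) n) := by
    intro n
    have h1 : (fun v : ℝ => Complex.exp (((-2 * Real.pi * v * ξ : ℝ) : ℂ) * Complex.I) •
        Set.indicator (Set.Ico (Real.log n - δ) (Real.log n)) (fun _ => f n / n) v) =
        Set.indicator (Set.Ico (Real.log n - δ) (Real.log n))
          (fun v => Complex.exp (((-2 * Real.pi * v * ξ : ℝ) : ℂ) * Complex.I) * (f n / n)) := by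
      ext v
      by_cases hv : v ∈ Set.Ico (Real.log n - δ) (Real.log n)
      · simp [hv]
      · simp [hv]
    rw [h1, integral_indicator measurableSet_Ico, integral_Ico_eq_integral_Ioc,
      ← intervalIntegral.integral_of_le (by linarith), intervalIntegral.integral_mul_const]
    have h2 : ∫ v in (Real.log n - δ)..(Real.log n),
        Complex.exp (((-2 * Real.pi * v * ξ : ℝ) : ℂ) * Complex.I) =
        ∫ w in (-δ)..0, Complex.exp (((-2 * Real.pi * (w + Real.log n) * ξ : ℝ) : ℂ) * Complex.I) := by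
      rw [intervalIntegral.integral_comp_add_right
        (fun v => Complex.exp (((-2 * Real.pi * v * ξ : ℝ) : ℂ) * Complex.I))]
      congr 1 <;> ring
    have h3 : ∀ w : ℝ, Complex.exp (((-2 * Real.pi * (w + Real.log n) * ξ : ℝ) : ℂ) * Complex.I) =
        Complex.exp (((-2 * Real.pi * w * ξ : ℝ) : ℂ) * Complex.I) * tw (2 * Real.pi * ξ) n := by
      intro w
      unfold tw
      rw [← Complex.exp_add]
      congr 1
      push_cast
      ring
    rw [h2]
    simp only [h3]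
    rw [intervalIntegral.integral_mul_const]
    unfold box_K
    ring
  have e2 : (fun v : ℝ => Complex.exp (((-2 * Real.pi * v * ξ : ℝ) : ℂ) * Complex.I) • box_h f X δ v) =
      fun v : ℝ => ∑ n ∈ Ioc ⌊X⌋₊ ⌊4 * X⌋₊,
        Complex.exp (((-2 * Real.pi * v * ξ : ℝ) : ℂ) * Complex.I) •
        Set.indicator (Set.Ico (Real.log n - δ) (Real.log n)) (fun _ => f n / n) v := by
    ext v
    unfold box_h
    rw [Finset.smul_sum]
  rw [e2, integral_finsetSum]
  · simp only [e1]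
    unfold Av dp
    rw [Finset.mul_sum]
  · intro n _
    have h1 : (fun v : ℝ => Complex.exp (((-2 * Real.pi * v * ξ : ℝ) : ℂ) * Complex.I) •
        Set.indicator (Set.Ico (Real.log n - δ) (Real.log n)) (fun _ => f n / n) v) =
        Set.indicator (Set.Ico (Real.log n - δ) (Real.log n))
          (fun v => Complex.exp (((-2 * Real.pi * v * ξ : ℝ) : ℂ) * Complex.I) * (f n / n)) := by
      ext v
      by_cases hv : v ∈ Set.Ico (Real.log n - δ) (Real.log n)
      · simp [hv]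
      · simp [hv]
    rw [h1, integrable_indicator_iff measurableSet_Ico]
    exact ((hcont.mul continuous_const).integrableOn_Icc).mono_set Set.Ico_subset_Icc_self

private theorem box_K_le (δ ξ : ℝ) (hδ : 0 ≤ δ) : ‖box_K δ ξ‖ ≤ δ := by
  unfold box_K
  have := intervalIntegral.norm_integral_le_of_norm_le_const (a := -δ) (b := 0) (C := 1)
    (f := fun w : ℝ => Complex.exp (((-2 * Real.pi * w * ξ : ℝ) : ℂ) * Complex.I))
    (fun w _ => (Complex.norm_exp_ofReal_mul_I _).le)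
  simpa [abs_of_nonneg hδ] using this

private theorem box_K_le' (δ ξ : ℝ) (hξ : ξ ≠ 0) : ‖box_K δ ξ‖ ≤ 1 / (Real.pi * |ξ|) := by
  unfold box_K
  have hc : (-2 * Real.pi * ξ * Complex.I : ℂ) ≠ 0 := by
    have : (ξ : ℂ) ≠ 0 := by exact_mod_cast hξ
    have hp : (Real.pi : ℂ) ≠ 0 := by exact_mod_cast Real.pi_ne_zero
    simp [this, hp]
  have h1 : ∀ w : ℝ, Complex.exp (((-2 * Real.pi * w * ξ : ℝ) : ℂ) * Complex.I) =
      Complex.exp ((-2 * Real.pi * ξ * Complex.I : ℂ) * w) := by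
    intro w
    congr 1
    push_cast
    ring
  simp only [h1]
  rw [integral_exp_mul_complex hc, norm_div]
  have h2 : ‖(-2 * Real.pi * ξ * Complex.I : ℂ)‖ = 2 * Real.pi * |ξ| := by
    simp [abs_of_pos Real.pi_pos]
  rw [h2]
  have h3 : ∀ w : ℝ, ‖Complex.exp ((-2 * Real.pi * ξ * Complex.I : ℂ) * w)‖ = 1 := by
    intro w
    rw [← h1]
    exact Complex.norm_exp_ofReal_mul_I _
  have h4 : ‖Complex.exp ((-2 * Real.pi * ξ * Complex.I : ℂ) * (0 : ℝ)) -
      Complex.exp ((-2 * Real.pi * ξ * Complex.I : ℂ) * (-δ : ℝ))‖ ≤ 2 := by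
    refine (norm_sub_le _ _).trans ?_
    rw [h3, h3]
    norm_num
  have hpos : 0 < Real.pi * |ξ| := mul_pos Real.pi_pos (abs_pos.2 hξ)
  rw [div_le_div_iff₀ (by linarith) hpos]
  nlinarith

private theorem box_piece (K A : ℝ → ℂ) (hA : Continuous A) {a b w : ℝ} (hab : a ≤ b) (hw : 0 ≤ w)
    (hK : ∀ ξ ∈ Set.Ioc a b, ‖K ξ‖ ^ 2 ≤ w) :
    ∫⁻ ξ in Set.Ioc a b, ‖K ξ * A ξ‖ₑ ^ 2 ≤ ENNReal.ofReal (w * ∫ ξ in a..b, ‖A ξ‖ ^ 2) := by
  have hc : Continuous (fun ξ => w * ‖A ξ‖ ^ 2) := by fun_prop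
  rw [← intervalIntegral.integral_const_mul, intervalIntegral.integral_of_le hab,
    ofReal_integral_eq_lintegral_ofReal
      ((hc.integrableOn_Icc (a := a) (b := b)).mono_set Set.Ioc_subset_Icc_self)
      (ae_of_all _ fun ξ => by positivity)]
  refine setLIntegral_mono' measurableSet_Ioc fun ξ hξ => ?_
  rw [← ofReal_norm, ← ENNReal.ofReal_pow (norm_nonneg _), norm_mul, mul_pow]
  exact ENNReal.ofReal_le_ofReal (mul_le_mul_of_nonneg_right (hK ξ hξ) (by positivity))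

private theorem box_sum_le {f : ℕ → ℂ} {X : ℝ} (hf : ∀ n, ‖f n‖ ≤ 1) (hX : 1 ≤ X) :
    ∑ n ∈ Ioc ⌊X⌋₊ ⌊4 * X⌋₊, ‖f n / n‖ ^ 2 ≤ 4 / X := by
  have h1 : ∀ n ∈ Ioc ⌊X⌋₊ ⌊4 * X⌋₊, ‖f n / n‖ ^ 2 ≤ (1 / X) ^ 2 := by
    intro n hn
    rw [Finset.mem_Ioc, Nat.floor_lt (by linarith)] at hn
    have hn0 : (0 : ℝ) < n := by linarith [hn.1]
    rw [norm_div, Complex.norm_natCast]
    refine pow_le_pow_left₀ (by positivity) ?_ 2
    exact div_le_div₀ (by norm_num) (hf n) (by linarith) hn.1.le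
  refine (Finset.sum_le_card_nsmul _ _ _ h1).trans ?_
  rw [Nat.card_Ioc, nsmul_eq_mul, Nat.cast_sub (Nat.floor_le_floor (by linarith))]
  have h2 : ((⌊4 * X⌋₊ : ℕ) : ℝ) ≤ 4 * X := Nat.floor_le (by linarith)
  have h3 : X < (⌊X⌋₊ : ℝ) + 1 := Nat.lt_floor_add_one X
  have h4 : ((⌊4 * X⌋₊ : ℕ) : ℝ) - (⌊X⌋₊ : ℝ) ≤ 4 * X := by linarith
  calc _ ≤ (4 * X) * (1 / X) ^ 2 := mul_le_mul_of_nonneg_right h4 (by positivity)
    _ = 4 / X := by
        field_simp

private theorem box_fourier_bound : ∃ C : ℝ, 0 < C ∧ ∀ (f : ℕ → ℂ) (X δ T : ℝ),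
    (∀ n, ‖f n‖ ≤ 1) → 1 ≤ X → 0 < δ → 1 ≤ T → T ≤ X →
    ∫⁻ ξ : ℝ, ‖box_K δ ξ * Av f X (2 * Real.pi * ξ)‖ₑ ^ 2 ≤
      ENNReal.ofReal (δ ^ 2 * (∫ t in (-T)..T, ‖Av f X t‖ ^ 2) + C / T ^ 2) := by
  obtain ⟨C₀, hC₀, hm⟩ := mvt
  set v : ℤ → ℝ := fun k => 1 / (k : ℝ) ^ 2 + 1 / ((k : ℝ) + 1) ^ 2 with hv
  have hv0 : ∀ k, 0 ≤ v k := fun k => by simp only [hv]; positivity
  have hvs : Summable v := by
    have h1 : Summable (fun k : ℤ => 1 / (k : ℝ) ^ 2) := Real.summable_one_div_int_pow.2 (by norm_num)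
    refine h1.add ?_
    have h2 := h1.comp_injective (Equiv.addRight (1 : ℤ)).injective
    refine h2.congr fun k => ?_
    simp
  have hZ : 0 ≤ ∑' k, v k := tsum_nonneg hv0
  refine ⟨16 * C₀ * (∑' k, v k) + 1, by positivity, ?_⟩
  intro f X δ T hf hX hδ hT hTX
  have hpi := Real.pi_pos
  set τ : ℝ := T / (2 * Real.pi) with hτ
  have hτ0 : 0 < τ := by positivity
  have hAc : Continuous (fun ξ : ℝ => Av f X (2 * Real.pi * ξ)) := by
    unfold Av
    exact (dp_continuous _ _).comp (by fun_prop)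
  -- the integral over a piece
  have hsub : ∀ a b : ℝ, ∫ ξ in a..b, ‖Av f X (2 * Real.pi * ξ)‖ ^ 2 =
      (2 * Real.pi)⁻¹ * ∫ t in (2 * Real.pi * a)..(2 * Real.pi * b), ‖Av f X t‖ ^ 2 := by
    intro a b
    rw [intervalIntegral.integral_comp_mul_left (fun t => ‖Av f X t‖ ^ 2) (by positivity)]
    simp
  have hpc : ∀ a : ℝ, ∫ ξ in a..(a + τ), ‖Av f X (2 * Real.pi * ξ)‖ ^ 2 ≤ 4 * C₀ := by
    intro a
    rw [hsub]
    have e : 2 * Real.pi * (a + τ) = 2 * Real.pi * a + T := by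
      rw [hτ]
      field_simp
    rw [e]
    have hN : 1 ≤ ⌊4 * X⌋₊ := Nat.le_floor (by push_cast; linarith)
    have h1 := hm ⌊4 * X⌋₊ (Ioc ⌊X⌋₊ ⌊4 * X⌋₊) (fun n => f n / n) (2 * Real.pi * a)
      (2 * Real.pi * a + T) hN (fun n hn => ?_) (by linarith)
    · have h2 : (∫ t in (2 * Real.pi * a)..(2 * Real.pi * a + T), ‖Av f X t‖ ^ 2) ≤ 20 * C₀ := by
        refine h1.trans ?_
        have h3 : ((⌊4 * X⌋₊ : ℕ) : ℝ) ≤ 4 * X := Nat.floor_le (by linarith)
        have h4 := box_sum_le hf hX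
        calc _ ≤ C₀ * (5 * X) * (4 / X) := by
                refine mul_le_mul ?_ h4 (by positivity) (by positivity)
                refine mul_le_mul_of_nonneg_left ?_ hC₀.le
                linarith
          _ = 20 * C₀ := by
                field_simp
                norm_num
      have h5 : (2 * Real.pi)⁻¹ ≤ 1 / 5 := by
        rw [inv_le_comm₀ (by positivity) (by norm_num)]
        have := Real.pi_gt_three
        norm_num
        linarith
      calc _ ≤ (2 * Real.pi)⁻¹ * (20 * C₀) := mul_le_mul_of_nonneg_left h2 (by positivity)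
        _ ≤ 1 / 5 * (20 * C₀) := mul_le_mul_of_nonneg_right h5 (by positivity)
        _ = 4 * C₀ := by ring
    · rw [Finset.mem_Ioc] at hn
      exact ⟨by omega, hn.2⟩
  -- the pieces
  set F : ℤ → ENNReal := fun k => ∫⁻ ξ in Set.Ioc (k • τ) ((k + 1) • τ),
    ‖box_K δ ξ * Av f X (2 * Real.pi * ξ)‖ₑ ^ 2 with hF
  have hcov : ∫⁻ ξ : ℝ, ‖box_K δ ξ * Av f X (2 * Real.pi * ξ)‖ₑ ^ 2 ≤ ∑' k, F k := by
    rw [← setLIntegral_univ, ← iUnion_Ioc_zsmul hτ0]
    exact lintegral_iUnion_le _ _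
  have hF0 : F 0 ≤ ENNReal.ofReal (δ ^ 2 * ∫ ξ in (0 : ℝ)..τ, ‖Av f X (2 * Real.pi * ξ)‖ ^ 2) := by
    have := box_piece (box_K δ) (fun ξ => Av f X (2 * Real.pi * ξ)) hAc hτ0.le (sq_nonneg δ)
      (fun ξ _ => pow_le_pow_left₀ (norm_nonneg _) (box_K_le δ ξ hδ.le) 2)
    simpa [hF] using this
  have hF1 : F (-1) ≤ ENNReal.ofReal (δ ^ 2 * ∫ ξ in (-τ)..0, ‖Av f X (2 * Real.pi * ξ)‖ ^ 2) := by
    have := box_piece (box_K δ) (fun ξ => Av f X (2 * Real.pi * ξ)) hAc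
      (a := -τ) (b := 0) (by linarith) (sq_nonneg δ)
      (fun ξ _ => pow_le_pow_left₀ (norm_nonneg _) (box_K_le δ ξ hδ.le) 2)
    simpa [hF] using this
  have hFk : ∀ k : ℤ, k ≠ 0 → k ≠ -1 → F k ≤ ENNReal.ofReal (16 * C₀ / T ^ 2 * v k) := by
    intro k hk0 hk1
    have hle : (k • τ : ℝ) ≤ (k + 1) • τ := by
      rw [add_smul, one_smul]
      linarith
    have hw : 0 ≤ v k / (Real.pi * τ) ^ 2 := div_nonneg (hv0 k) (by positivity)
    have hK : ∀ ξ ∈ Set.Ioc (k • τ : ℝ) ((k + 1) • τ), ‖box_K δ ξ‖ ^ 2 ≤ v k / (Real.pi * τ) ^ 2 := by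
      intro ξ hξ
      rw [Set.mem_Ioc, zsmul_eq_mul, zsmul_eq_mul] at hξ
      obtain ⟨h1, h2⟩ := hξ
      push_cast at h2
      rcases lt_or_ge 0 k with hk | hk
      · have hk' : (1 : ℝ) ≤ k := by exact_mod_cast hk
        have hx : 0 < ξ := lt_of_le_of_lt (by positivity) h1
        have h3 := box_K_le' δ ξ hx.ne'
        have h4 : ‖box_K δ ξ‖ ≤ 1 / (Real.pi * (k * τ)) := by
          refine h3.trans ?_
          rw [abs_of_pos hx]
          exact one_div_le_one_div_of_le (by positivity)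
            (mul_le_mul_of_nonneg_left h1.le Real.pi_pos.le)
        refine (pow_le_pow_left₀ (norm_nonneg _) h4 2).trans ?_
        have h5 : (1 / (Real.pi * (k * τ))) ^ 2 = (1 / (k : ℝ) ^ 2) / (Real.pi * τ) ^ 2 := by
          field_simp
        rw [h5]
        refine div_le_div_of_nonneg_right ?_ (by positivity)
        simp only [hv]
        have : 0 ≤ 1 / ((k : ℝ) + 1) ^ 2 := by positivity
        linarith
      · have hk2 : k + 1 < 0 := by omega
        have hk' : ((k : ℝ) + 1) < 0 := by exact_mod_cast hk2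
        have hx : ξ < 0 := lt_of_le_of_lt h2 (mul_neg_of_neg_of_pos hk' hτ0)
        have h3 := box_K_le' δ ξ hx.ne
        have h4 : ‖box_K δ ξ‖ ≤ 1 / (Real.pi * (-((k : ℝ) + 1) * τ)) := by
          refine h3.trans ?_
          rw [abs_of_neg hx]
          refine one_div_le_one_div_of_le ?_ (mul_le_mul_of_nonneg_left (by linarith) Real.pi_pos.le)
          have : 0 < -((k : ℝ) + 1) := by linarith
          positivity
        refine (pow_le_pow_left₀ (norm_nonneg _) h4 2).trans ?_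
        have h5 : (1 / (Real.pi * (-((k : ℝ) + 1) * τ))) ^ 2 =
            (1 / ((k : ℝ) + 1) ^ 2) / (Real.pi * τ) ^ 2 := by
          rw [div_pow, div_div]
          congr 1
          · norm_num
          · ring
        rw [h5]
        refine div_le_div_of_nonneg_right ?_ (by positivity)
        simp only [hv]
        have : 0 ≤ 1 / (k : ℝ) ^ 2 := by positivity
        linarith
    refine (box_piece (box_K δ) (fun ξ => Av f X (2 * Real.pi * ξ)) hAc hle hw hK).trans ?_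
    refine ENNReal.ofReal_le_ofReal ?_
    have e1 : ((k + 1) • τ : ℝ) = k • τ + τ := by rw [add_smul, one_smul]
    rw [e1]
    calc _ ≤ v k / (Real.pi * τ) ^ 2 * (4 * C₀) := mul_le_mul_of_nonneg_left (hpc _) hw
      _ = 16 * C₀ / T ^ 2 * v k := by
          have : Real.pi * τ = T / 2 := by
            rw [hτ]
            field_simp
          rw [this]
          field_simp
          ring
  -- summation
  set g : ℤ → ENNReal := fun k => if k = 0 then F 0 else if k = -1 then F (-1) else 0 with hg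
  have hFg : ∀ k, F k ≤ g k + ENNReal.ofReal (16 * C₀ / T ^ 2 * v k) := by
    intro k
    by_cases h0 : k = 0
    · subst h0
      simp [hg]
    by_cases h1 : k = -1
    · subst h1
      simp [hg]
    · exact (hFk k h0 h1).trans le_add_self
  have hgs : ∑' k, g k = F 0 + F (-1) := by
    rw [tsum_eq_sum (s := {0, -1})]
    · rw [Finset.sum_pair (by norm_num)]
      simp [hg]
    · intro k hk
      simp only [Finset.mem_insert, Finset.mem_singleton, not_or] at hk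
      simp [hg, hk.1, hk.2]
  have hint : ∀ a b : ℝ, IntervalIntegrable (fun ξ => ‖Av f X (2 * Real.pi * ξ)‖ ^ 2) volume a b := by
    intro a b
    exact (hAc.norm.pow 2).intervalIntegrable a b
  have hI0 : 0 ≤ ∫ ξ in (0 : ℝ)..τ, ‖Av f X (2 * Real.pi * ξ)‖ ^ 2 :=
    intervalIntegral.integral_nonneg hτ0.le fun _ _ => by positivity
  have hI1 : 0 ≤ ∫ ξ in (-τ)..0, ‖Av f X (2 * Real.pi * ξ)‖ ^ 2 :=
    intervalIntegral.integral_nonneg (by linarith) fun _ _ => by positivity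
  have hmid : (∫ ξ in (-τ)..0, ‖Av f X (2 * Real.pi * ξ)‖ ^ 2) +
      ∫ ξ in (0 : ℝ)..τ, ‖Av f X (2 * Real.pi * ξ)‖ ^ 2 =
      (2 * Real.pi)⁻¹ * ∫ t in (-T)..T, ‖Av f X t‖ ^ 2 := by
    rw [intervalIntegral.integral_add_adjacent_intervals (hint _ _) (hint _ _), hsub]
    have e1 : 2 * Real.pi * -τ = -T := by
      rw [hτ]
      field_simp
    have e2 : 2 * Real.pi * τ = T := by
      rw [hτ]
      field_simp
    rw [e1, e2]
  have hIT : 0 ≤ ∫ t in (-T)..T, ‖Av f X t‖ ^ 2 :=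
    intervalIntegral.integral_nonneg (by linarith) fun _ _ => by positivity
  have h5 : (2 * Real.pi)⁻¹ ≤ 1 := by
    rw [inv_le_comm₀ (by positivity) (by norm_num)]
    have := Real.pi_gt_three
    norm_num
    linarith
  calc ∫⁻ ξ : ℝ, ‖box_K δ ξ * Av f X (2 * Real.pi * ξ)‖ₑ ^ 2 ≤ ∑' k, F k := hcov
    _ ≤ ∑' k, (g k + ENNReal.ofReal (16 * C₀ / T ^ 2 * v k)) := ENNReal.tsum_le_tsum hFg
    _ = (F 0 + F (-1)) + ENNReal.ofReal (∑' k, 16 * C₀ / T ^ 2 * v k) := by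
        rw [ENNReal.tsum_add, hgs, ENNReal.ofReal_tsum_of_nonneg]
        · intro k
          exact mul_nonneg (by positivity) (hv0 k)
        · exact hvs.mul_left _
    _ ≤ (ENNReal.ofReal (δ ^ 2 * ∫ ξ in (0 : ℝ)..τ, ‖Av f X (2 * Real.pi * ξ)‖ ^ 2) +
          ENNReal.ofReal (δ ^ 2 * ∫ ξ in (-τ)..0, ‖Av f X (2 * Real.pi * ξ)‖ ^ 2)) +
          ENNReal.ofReal (16 * C₀ / T ^ 2 * ∑' k, v k) := by
        rw [tsum_mul_left]
        gcongr
    _ = ENNReal.ofReal (δ ^ 2 * ((2 * Real.pi)⁻¹ * ∫ t in (-T)..T, ‖Av f X t‖ ^ 2) +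
          16 * C₀ / T ^ 2 * ∑' k, v k) := by
        rw [← ENNReal.ofReal_add (by positivity) (by positivity),
          ← ENNReal.ofReal_add (by positivity) (by positivity), ← hmid]
        congr 1
        ring
    _ ≤ _ := by
        refine ENNReal.ofReal_le_ofReal (add_le_add ?_ ?_)
        · refine mul_le_mul_of_nonneg_left ?_ (by positivity)
          calc _ ≤ 1 * ∫ t in (-T)..T, ‖Av f X t‖ ^ 2 := mul_le_mul_of_nonneg_right h5 hIT
            _ = _ := one_mul _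
        · rw [div_mul_eq_mul_div]
          refine div_le_div_of_nonneg_right ?_ (by positivity)
          linarith

/-- `h(u) = ∑_{X<n≤4X} (f n/n) 1[log n - δ ≤ u < log n]`; for `y ∈ [3X/2, 7X/2]`: `h(log y) = δ Gy f δ y` (`(y, ye^δ] ⊂ (X, 4X]`). Substitution `y = e^u`: the left side is `≤ 4X δ^{-2} ∫ ‖h‖²`. `h` is a finite sum of indicator functions;
`𝓕 h(ξ) = ∑ (f n/n) e^{-2πiξ log n} (e^{2πiξδ} - 1)/(2πiξ)`, so (`Pool.Agent.MP_7f688b_an.lintegral_fourier_sq`, `t = 2πξ`) `∫ ‖h‖² ≤ (1/2π) ∫ ‖Av f X t‖² min(δ², 4/t²) dt`. For `|t| ≤ T` use `δ²`, for `kT ≤ |t| ≤ (k+1)T`, `k ≥ 1`, use `4/(kT)²` and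
`mvt` (`∫ ≤ C (T + 4X) ∑_{X<n≤4X} 1/n² ≤ C'`, as `T ≤ X`). -/
theorem box : ∃ C : ℝ, 0 < C ∧ ∀ (f : ℕ → ℂ) (X δ T : ℝ), (∀ n, ‖f n‖ ≤ 1) → 1 ≤ X → 0 < δ →
    δ ≤ 1 / 10 → 1 ≤ T → T ≤ X →
    ∫ y in (3 * X / 2)..(7 * X / 2), ‖Gy f δ y‖ ^ 2 ≤
      C * X * ((∫ t in (-T)..T, ‖Av f X t‖ ^ 2) + 1 / (δ * T) ^ 2) := by
  obtain ⟨C₁, hC₁, hb⟩ := box_fourier_bound
  refine ⟨7 / 2 * (1 + C₁), by positivity, ?_⟩
  intro f X δ T hf hX hδ hδ' hT hTX
  have hX0 : 0 < X := by linarith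
  set I : ℝ := ∫ t in (-T)..T, ‖Av f X t‖ ^ 2 with hI
  have hI0 : 0 ≤ I := intervalIntegral.integral_nonneg (by linarith) fun _ _ => by positivity
  have hsq : Integrable (fun u => ‖box_h f X δ u‖ ^ 2) :=
    (box_mem f X δ).integrable_norm_pow (by norm_num)
  have hwin : ∫ u : ℝ, ‖box_h f X δ u‖ ^ 2 ≤ δ ^ 2 * I + C₁ / T ^ 2 := by
    have h1 := Pool.Agent.MP_7f688b_an.lintegral_fourier_sq (box_h f X δ) (box_int f X δ)
      (box_mem f X δ)
    have h2 := hb f X δ T hf hX hδ hT hTX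
    simp only [box_fourier f X δ _ hδ.le] at h1
    rw [h1] at h2
    have h3 : ∫⁻ x, ‖box_h f X δ x‖ₑ ^ 2 = ENNReal.ofReal (∫ u, ‖box_h f X δ u‖ ^ 2) := by
      rw [ofReal_integral_eq_lintegral_ofReal hsq (ae_of_all _ fun _ => by positivity)]
      refine lintegral_congr fun u => ?_
      rw [← ofReal_norm, ← ENNReal.ofReal_pow (norm_nonneg _)]
    rw [h3] at h2
    exact (ENNReal.ofReal_le_ofReal_iff (by positivity)).1 h2
  set a : ℝ := 3 * X / 2 with ha
  set b : ℝ := 7 * X / 2 with hbb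
  have ha0 : 0 < a := by positivity
  have hb0 : 0 < b := by positivity
  have hab : a ≤ b := by rw [ha, hbb]; linarith
  set s : Set ℝ := Set.Ioc (Real.log a) (Real.log b) with hs
  have himg : Real.exp '' s = Set.Ioc a b := by
    ext y
    constructor
    · rintro ⟨u, ⟨hu1, hu2⟩, rfl⟩
      exact ⟨(Real.log_lt_iff_lt_exp ha0).1 hu1, (Real.le_log_iff_exp_le hb0).1 hu2⟩
    · rintro ⟨hy1, hy2⟩
      have hy : 0 < y := ha0.trans hy1
      exact ⟨Real.log y, ⟨(Real.log_lt_log_iff ha0 hy).2 hy1, (Real.log_le_log_iff hy hb0).2 hy2⟩,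
        Real.exp_log hy⟩
  have hsub : ∫ y in a..b, ‖Gy f δ y‖ ^ 2 = ∫ u in s, Real.exp u * ‖Gy f δ (Real.exp u)‖ ^ 2 := by
    rw [intervalIntegral.integral_of_le hab, ← himg,
      integral_image_eq_integral_abs_deriv_smul measurableSet_Ioc
        (fun u _ => (Real.hasDerivAt_exp u).hasDerivWithinAt) Real.exp_injective.injOn]
    refine setIntegral_congr_fun measurableSet_Ioc fun u _ => ?_
    simp only [smul_eq_mul, abs_of_pos (Real.exp_pos u)]
  rw [hsub]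
  have hpt : ∀ u ∈ s, Real.exp u * ‖Gy f δ (Real.exp u)‖ ^ 2 ≤
      (7 * X / 2) * (δ ^ 2)⁻¹ * ‖box_h f X δ u‖ ^ 2 := by
    intro u hu
    have hu1 : 3 * X / 2 ≤ Real.exp u := ((Real.log_lt_iff_lt_exp ha0).1 hu.1).le
    have hu2 : Real.exp u ≤ 7 * X / 2 := (Real.le_log_iff_exp_le hb0).1 hu.2
    have h1 := box_h_log (f := f) hX hδ hδ' hu1 hu2
    rw [Real.log_exp] at h1
    have h2 : ‖Gy f δ (Real.exp u)‖ ^ 2 = (δ ^ 2)⁻¹ * ‖box_h f X δ u‖ ^ 2 := by
      unfold Gy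
      rw [← h1, norm_mul, norm_inv, Complex.norm_real, Real.norm_of_nonneg hδ.le, mul_pow, inv_pow]
    rw [h2, mul_assoc]
    exact mul_le_mul_of_nonneg_right hu2 (by positivity)
  have hint : ∫ u in s, Real.exp u * ‖Gy f δ (Real.exp u)‖ ^ 2 ≤
      ∫ u in s, (7 * X / 2) * (δ ^ 2)⁻¹ * ‖box_h f X δ u‖ ^ 2 := by
    refine integral_mono_of_nonneg ?_ ?_ ?_
    · exact ae_of_all _ fun u => by positivity
    · exact (hsq.const_mul _).integrableOn
    · exact (ae_restrict_iff' measurableSet_Ioc).2 (ae_of_all _ hpt)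
  refine hint.trans ?_
  rw [integral_const_mul]
  have hle : ∫ u in s, ‖box_h f X δ u‖ ^ 2 ≤ ∫ u : ℝ, ‖box_h f X δ u‖ ^ 2 :=
    setIntegral_le_integral hsq (ae_of_all _ fun _ => by positivity)
  have hfin : ∫ u in s, ‖box_h f X δ u‖ ^ 2 ≤ δ ^ 2 * I + C₁ / T ^ 2 := hle.trans hwin
  calc _ ≤ (7 * X / 2) * (δ ^ 2)⁻¹ * (δ ^ 2 * I + C₁ / T ^ 2) :=
        mul_le_mul_of_nonneg_left hfin (by positivity)
    _ = 7 / 2 * X * (I + C₁ * (1 / (δ * T) ^ 2)) := by
        field_simp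
    _ ≤ 7 / 2 * X * ((1 + C₁) * (I + 1 / (δ * T) ^ 2)) := by
        refine mul_le_mul_of_nonneg_left ?_ (by positivity)
        have : 0 ≤ 1 / (δ * T) ^ 2 := by positivity
        nlinarith
    _ = _ := by ring

end Pool.Agent.Mrd
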