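import Pool.Agent.Mrd.TK
import Pool.Agent.Mrd.Mvt

/-!
Mrd DEC: the Turan-Kubilius form of Ramare's identity.
-/

set_option autoImplicit false

namespace Pool.Agent.Mrd

open Finset MeasureTheory Filter Topology

/-- the range of the cofactor of `p` -/
private noncomputable def dec_M (X : ℝ) (H p : ℕ) : Finset ℕ :=
  Ioc ⌊X * Real.exp (-((ix H p : ℝ) / H))⌋₊ ⌊4 * (X * Real.exp (-((ix H p : ℝ) / H)))⌋₊

/-- the primes counted at `n` -/
private noncomputable def dec_B (X : ℝ) (P : Finset ℕ) (H n : ℕ) : Finset ℕ :=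
  P.filter (fun p => p ∣ n ∧ n / p ∈ dec_M X H p)

/-- the coefficients of the difference -/
private noncomputable def dec_c (f : ℕ → ℂ) (X : ℝ) (P : Finset ℕ) (H n : ℕ) : ℂ :=
  f n / n * ((if n ≤ ⌊4 * X⌋₊ then 1 else 0) - ((LP P : ℝ) : ℂ)⁻¹ * ((dec_B X P H n).card : ℂ))

private theorem dec_ix {H p : ℕ} (hH : 1 ≤ H) (hp : 1 ≤ p) :
    1 ≤ Real.exp (-((ix H p : ℝ) / H)) * p ∧
      Real.exp (-((ix H p : ℝ) / H)) * p < Real.exp (1 / H) := by
  have hH' : (0 : ℝ) < H := by exact_mod_cast hH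
  have hp' : (1 : ℝ) ≤ p := by exact_mod_cast hp
  have hp0 : (0 : ℝ) < p := by linarith
  have h0 : 0 ≤ (H : ℝ) * Real.log p := mul_nonneg hH'.le (Real.log_nonneg hp')
  have h1 : (ix H p : ℝ) ≤ H * Real.log p := Nat.floor_le h0
  have h2 : (H : ℝ) * Real.log p < (ix H p : ℝ) + 1 := Nat.lt_floor_add_one _
  have e : Real.exp (-((ix H p : ℝ) / H)) * p = Real.exp (Real.log p - (ix H p : ℝ) / H) := by
    rw [sub_eq_add_neg, add_comm, Real.exp_add, Real.exp_log hp0]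
  rw [e]
  constructor
  · rw [← Real.exp_zero]
    refine Real.exp_le_exp.2 ?_
    rw [sub_nonneg, div_le_iff₀ hH']
    linarith
  · refine Real.exp_lt_exp.2 ?_
    rw [sub_lt_iff_lt_add, ← add_div, lt_div_iff₀ hH']
    linarith

private theorem dec_mem {X : ℝ} {H p m : ℕ} (hX : 0 < X) :
    m ∈ dec_M X H p ↔ X * Real.exp (-((ix H p : ℝ) / H)) < m ∧
      (m : ℝ) ≤ 4 * (X * Real.exp (-((ix H p : ℝ) / H))) := by
  unfold dec_M
  rw [Finset.mem_Ioc, Nat.floor_lt (by positivity), Nat.le_floor_iff (by positivity)]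

private theorem dec_prod {X : ℝ} {H p m : ℕ} (hX : 0 < X) (hH : 1 ≤ H) (hp : 1 ≤ p)
    (hm : m ∈ dec_M X H p) :
    1 ≤ m ∧ X < (p : ℝ) * m ∧ (p : ℝ) * m ≤ 4 * X * Real.exp (1 / H) := by
  rw [dec_mem hX] at hm
  obtain ⟨h1, h2⟩ := dec_ix hH hp
  set e := Real.exp (-((ix H p : ℝ) / H)) with he
  have he0 : 0 < e := Real.exp_pos _
  have hp0 : (0 : ℝ) < p := by exact_mod_cast hp
  have hXe : 0 < X * e := by positivity
  refine ⟨?_, ?_, ?_⟩
  · have : (0 : ℝ) < m := hXe.trans hm.1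
    exact_mod_cast this
  · calc X = X * 1 := (mul_one _).symm
      _ ≤ X * (e * p) := mul_le_mul_of_nonneg_left h1 hX.le
      _ = p * (X * e) := by ring
      _ < p * m := mul_lt_mul_of_pos_left hm.1 hp0
  · calc (p : ℝ) * m ≤ p * (4 * (X * e)) := mul_le_mul_of_nonneg_left hm.2 hp0.le
      _ = 4 * X * (e * p) := by ring
      _ ≤ 4 * X * Real.exp (1 / H) := mul_le_mul_of_nonneg_left h2.le (by positivity)

private theorem dec_exp {H : ℕ} (hH : 1 ≤ H) :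
    1 ≤ Real.exp (1 / (H : ℝ)) ∧ Real.exp (1 / (H : ℝ)) - 1 ≤ 2 / H ∧
      4 * Real.exp (1 / (H : ℝ)) ≤ 11 := by
  have hH' : (1 : ℝ) ≤ H := by exact_mod_cast hH
  have h0 : 0 ≤ 1 / (H : ℝ) := by positivity
  have h1 : 1 / (H : ℝ) ≤ 1 := by
    rw [div_le_one (by linarith)]
    exact hH'
  refine ⟨Real.one_le_exp h0, ?_, ?_⟩
  · have := Real.abs_exp_sub_one_le (x := 1 / (H : ℝ)) (by rw [abs_of_nonneg h0]; exact h1)
    rw [abs_of_nonneg h0] at this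
    calc _ ≤ |Real.exp (1 / (H : ℝ)) - 1| := le_abs_self _
      _ ≤ 2 * (1 / H) := this
      _ = 2 / H := by ring
  · have h2 : Real.exp (1 / (H : ℝ)) ≤ Real.exp 1 := Real.exp_le_exp.2 h1
    have h3 := Real.exp_one_lt_d9
    norm_num at h3
    linarith

private theorem dec_sum {X : ℝ} {H : ℕ} {P : Finset ℕ} (hX : 1 ≤ X) (hH : 1 ≤ H)
    (hP : ∀ p ∈ P, p.Prime) (G : ℕ → ℂ) :
    ∑ p ∈ P, ∑ m ∈ dec_M X H p, G (p * m) =
      ∑ n ∈ Ioc ⌊X⌋₊ ⌊11 * X⌋₊, ((dec_B X P H n).card : ℂ) * G n := by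
  have hX0 : 0 < X := by linarith
  have h1 : ∀ p ∈ P, ∑ m ∈ dec_M X H p, G (p * m) =
      ∑ n ∈ Ioc ⌊X⌋₊ ⌊11 * X⌋₊, if p ∣ n ∧ n / p ∈ dec_M X H p then G n else 0 := by
    intro p hp
    have hp0 : 0 < p := (hP p hp).pos
    rw [← Finset.sum_filter]
    refine Finset.sum_nbij' (fun m => p * m) (fun n => n / p) ?_ ?_ ?_ ?_ ?_
    · intro m hm
      obtain ⟨h1, h2, h3⟩ := dec_prod hX0 hH hp0 hm
      rw [Finset.mem_filter, Finset.mem_Ioc, Nat.floor_lt hX0.le, Nat.le_floor_iff (by linarith)]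
      refine ⟨⟨by push_cast; exact h2, ?_⟩, dvd_mul_right _ _, by rwa [Nat.mul_div_cancel_left _ hp0]⟩
      push_cast
      obtain ⟨_, _, h4⟩ := dec_exp hH
      calc _ ≤ 4 * X * Real.exp (1 / H) := h3
        _ = (4 * Real.exp (1 / H)) * X := by ring
        _ ≤ 11 * X := mul_le_mul_of_nonneg_right h4 hX0.le
    · intro n hn
      rw [Finset.mem_filter] at hn
      exact hn.2.2
    · intro m _
      exact Nat.mul_div_cancel_left _ hp0
    · intro n hn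
      rw [Finset.mem_filter] at hn
      exact Nat.mul_div_cancel' hn.2.1
    · intro m _
      rfl
  rw [Finset.sum_congr rfl h1, Finset.sum_comm]
  refine Finset.sum_congr rfl fun n _ => ?_
  unfold dec_B
  rw [← Finset.sum_filter, Finset.sum_const, nsmul_eq_mul]

private theorem dec_Fv {f : ℕ → ℂ} {X : ℝ} {P I : Finset ℕ} {H : ℕ} (hf : CM f) (hX : 1 ≤ X)
    (hH : 1 ≤ H) (hP : ∀ p ∈ P, p.Prime) (hI : ∀ p ∈ P, ix H p ∈ I) (t : ℝ) :
    Fv f X P I H t = dp (Ioc ⌊X⌋₊ ⌊11 * X⌋₊)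
      (fun n => f n / n * (((LP P : ℝ) : ℂ)⁻¹ * ((dec_B X P H n).card : ℂ))) t := by
  have hX0 : 0 < X := by linarith
  have h1 : ∑ v ∈ I, Qv f P H v t * Rv f X H v t =
      ∑ p ∈ P, ∑ m ∈ dec_M X H p, (f ((p * m : ℕ)) / ((p * m : ℕ) : ℂ)) * tw t (p * m) := by
    rw [← Finset.sum_fiberwise_of_maps_to hI]
    refine Finset.sum_congr rfl fun v _ => ?_
    unfold Qv dp
    rw [Finset.sum_mul]
    refine Finset.sum_congr rfl fun p hp => ?_
    rw [Finset.mem_filter] at hp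
    have hp0 : p ≠ 0 := (hP p hp.1).ne_zero
    unfold Rv Av dp
    rw [← hp.2]
    change _ * ∑ m ∈ dec_M X H p, _ = _
    rw [Finset.mul_sum]
    refine Finset.sum_congr rfl fun m hm => ?_
    have hm0 : m ≠ 0 := by
      have := (dec_prod hX0 hH (Nat.pos_of_ne_zero hp0) hm).1
      omega
    rw [hf.mul, tw_mul t hp0 hm0, Nat.cast_mul, mul_div_mul_comm]
    ring
  unfold Fv
  rw [h1, dec_sum hX hH hP (fun n => (f n / n) * tw t n), Finset.mul_sum]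
  unfold dp
  refine Finset.sum_congr rfl fun n _ => ?_
  ring

private theorem dec_diff {f : ℕ → ℂ} {X : ℝ} {P I : Finset ℕ} {H : ℕ} (hf : CM f) (hX : 1 ≤ X)
    (hH : 1 ≤ H) (hP : ∀ p ∈ P, p.Prime) (hI : ∀ p ∈ P, ix H p ∈ I) (t : ℝ) :
    Av f X t - Fv f X P I H t = dp (Ioc ⌊X⌋₊ ⌊11 * X⌋₊) (dec_c f X P H) t := by
  rw [dec_Fv hf hX hH hP hI]
  have h1 : Av f X t = dp (Ioc ⌊X⌋₊ ⌊11 * X⌋₊)
      (fun n => f n / n * (if n ≤ ⌊4 * X⌋₊ then 1 else 0)) t := by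
    unfold Av dp
    have hsub : Ioc ⌊X⌋₊ ⌊4 * X⌋₊ ⊆ Ioc ⌊X⌋₊ ⌊11 * X⌋₊ :=
      Finset.Ioc_subset_Ioc le_rfl (Nat.floor_le_floor (by linarith))
    rw [← Finset.sum_subset hsub]
    · refine Finset.sum_congr rfl fun n hn => ?_
      rw [Finset.mem_Ioc] at hn
      beta_reduce
      rw [if_pos hn.2, mul_one]
    · intro n hn hn'
      rw [Finset.mem_Ioc] at hn hn'
      beta_reduce
      rw [if_neg (fun h => hn' ⟨hn.1, h⟩)]
      simp
  rw [h1]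
  unfold dp
  rw [← Finset.sum_sub_distrib]
  refine Finset.sum_congr rfl fun n _ => ?_
  unfold dec_c
  ring

/-- the edges -/
private noncomputable def dec_E (X : ℝ) (H : ℕ) : Finset ℕ :=
  Ioc ⌊X⌋₊ ⌊X * Real.exp (1 / H)⌋₊ ∪ Ioc ⌊4 * X⌋₊ ⌊4 * X * Real.exp (1 / H)⌋₊

private theorem dec_E_card {X : ℝ} {H : ℕ} (hX : 1 ≤ X) (hH : 1 ≤ H) (hHX : (H : ℝ) ≤ X) :
    ((dec_E X H).card : ℝ) ≤ 12 * (X / H) := by
  obtain ⟨h1, h2, _⟩ := dec_exp hH
  have hH' : (1 : ℝ) ≤ H := by exact_mod_cast hH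
  set q := Real.exp (1 / (H : ℝ)) with hq
  have hc : ((dec_E X H).card : ℝ) ≤
      ((Ioc ⌊X⌋₊ ⌊X * q⌋₊).card : ℝ) + ((Ioc ⌊4 * X⌋₊ ⌊4 * X * q⌋₊).card : ℝ) := by
    unfold dec_E
    exact_mod_cast Finset.card_union_le _ _
  have hi : ∀ z : ℝ, 0 ≤ z → ((Ioc ⌊z⌋₊ ⌊z * q⌋₊).card : ℝ) ≤ z * (q - 1) + 1 := by
    intro z hz
    have hzq : z ≤ z * q := le_mul_of_one_le_right hz h1
    rw [Nat.card_Ioc, Nat.cast_sub (Nat.floor_le_floor hzq)]
    have h3 : ((⌊z * q⌋₊ : ℕ) : ℝ) ≤ z * q := Nat.floor_le (by positivity)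
    have h4 : z < (⌊z⌋₊ : ℝ) + 1 := Nat.lt_floor_add_one z
    linarith
  have h5 := hi X (by linarith)
  have h6 := hi (4 * X) (by linarith)
  have h7 : 1 ≤ X / H := by
    rw [le_div_iff₀ (by linarith)]
    linarith
  have h8 : X * (q - 1) ≤ X * (2 / H) := mul_le_mul_of_nonneg_left h2 (by linarith)
  have h9 : X * (2 / H) = 2 * (X / H) := by ring
  linarith

private theorem dec_c_le {f : ℕ → ℂ} {X : ℝ} {P : Finset ℕ} {H : ℕ} (hf : CM f) (hX : 1 ≤ X)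
    (hH : 1 ≤ H) (hP : ∀ p ∈ P, p.Prime) (hL : 1 ≤ LP P) {n : ℕ}
    (hn : n ∈ Ioc ⌊X⌋₊ ⌊11 * X⌋₊) :
    ‖dec_c f X P H n‖ ^ 2 ≤ 1 / X ^ 2 *
      (4 * (((om P n : ℝ) - LP P) ^ 2 / LP P ^ 2) + if n ∈ dec_E X H then 6 else 0) := by
  have hX0 : 0 < X := by linarith
  set L := LP P with hLd
  have hL0 : 0 < L := by linarith
  rw [Finset.mem_Ioc, Nat.floor_lt hX0.le] at hn
  have hn0 : (0 : ℝ) < n := hX0.trans hn.1
  have hfn : ‖f n / n‖ ≤ 1 / X := by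
    rw [norm_div, Complex.norm_natCast]
    exact div_le_div₀ (by norm_num) (hf.bdd n) hX0 hn.1.le
  have hb : (dec_B X P H n).card ≤ om P n := by
    unfold dec_B om
    refine Finset.card_le_card fun p hp => ?_
    rw [Finset.mem_filter] at hp ⊢
    exact ⟨hp.1, hp.2.1⟩
  have hb' : ((dec_B X P H n).card : ℝ) ≤ om P n := by exact_mod_cast hb
  have hnorm : ‖dec_c f X P H n‖ ^ 2 ≤ 1 / X ^ 2 *
      ‖((if n ≤ ⌊4 * X⌋₊ then 1 else 0) - (L : ℂ)⁻¹ * ((dec_B X P H n).card : ℂ) : ℂ)‖ ^ 2 := by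
    unfold dec_c
    rw [norm_mul, mul_pow]
    refine mul_le_mul_of_nonneg_right ?_ (by positivity)
    calc _ ≤ (1 / X) ^ 2 := pow_le_pow_left₀ (norm_nonneg _) hfn 2
      _ = 1 / X ^ 2 := by rw [div_pow, one_pow]
  refine hnorm.trans (mul_le_mul_of_nonneg_left ?_ (by positivity))
  have hreal : ((if n ≤ ⌊4 * X⌋₊ then 1 else 0) - (L : ℂ)⁻¹ * ((dec_B X P H n).card : ℂ) : ℂ) =
      (((if n ≤ ⌊4 * X⌋₊ then 1 else 0) - L⁻¹ * ((dec_B X P H n).card : ℝ) : ℝ) : ℂ) := by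
    push_cast
    split_ifs <;> simp
  rw [hreal, Complex.norm_real, Real.norm_eq_abs, sq_abs]
  by_cases hE : n ∈ dec_E X H
  · rw [if_pos hE]
    have h1 : ((if n ≤ ⌊4 * X⌋₊ then (1 : ℝ) else 0) - L⁻¹ * ((dec_B X P H n).card : ℝ)) ^ 2 ≤
        (1 + L⁻¹ * (om P n : ℝ)) ^ 2 := by
      apply sq_le_sq'
      · have : L⁻¹ * ((dec_B X P H n).card : ℝ) ≤ L⁻¹ * (om P n : ℝ) :=
          mul_le_mul_of_nonneg_left hb' (by positivity)
        split_ifs <;> linarith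
      · have h2 : 0 ≤ L⁻¹ * ((dec_B X P H n).card : ℝ) := by positivity
        have h3 : 0 ≤ L⁻¹ * (om P n : ℝ) := by positivity
        split_ifs <;> linarith
    refine h1.trans ?_
    have h2 : L⁻¹ * (om P n : ℝ) = ((om P n : ℝ) - L) / L + 1 := by
      field_simp
      ring
    have h3 : ((om P n : ℝ) - L) ^ 2 / L ^ 2 = (((om P n : ℝ) - L) / L) ^ 2 := by
      rw [div_pow]
    rw [h2, h3]
    nlinarith [sq_nonneg (((om P n : ℝ) - L) / L - 1), sq_nonneg (((om P n : ℝ) - L) / L)]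
  · rw [if_neg hE, add_zero]
    unfold dec_E at hE
    rw [Finset.mem_union, not_or, Finset.mem_Ioc, Finset.mem_Ioc, not_and, not_and, not_le,
      not_le] at hE
    obtain ⟨hE1, hE2⟩ := hE
    have hE1' := hE1 ((Nat.floor_lt hX0.le).2 hn.1)
    rw [Nat.floor_lt (by positivity)] at hE1'
    by_cases h4 : n ≤ ⌊4 * X⌋₊
    · rw [if_pos h4]
      rw [Nat.le_floor_iff (by positivity)] at h4
      have hbe : (dec_B X P H n).card = om P n := by
        unfold dec_B om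
        congr 1
        refine Finset.filter_congr fun p hp => ?_
        constructor
        · exact fun h => h.1
        · intro hpn
          refine ⟨hpn, ?_⟩
          have hp0 := (hP p hp).pos
          have hp0' : (0 : ℝ) < p := by exact_mod_cast hp0
          obtain ⟨m, rfl⟩ := hpn
          rw [Nat.mul_div_cancel_left _ hp0, dec_mem hX0]
          obtain ⟨h5, h6⟩ := dec_ix hH hp0
          push_cast at hE1' h4
          set e := Real.exp (-((ix H p : ℝ) / H)) with he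
          have he0 : 0 < e := Real.exp_pos _
          constructor
          · have h7 : p * (X * e) < p * m := by
              calc p * (X * e) = X * (e * p) := by ring
                _ ≤ X * Real.exp (1 / H) := mul_le_mul_of_nonneg_left h6.le hX0.le
                _ < p * m := hE1'
            exact lt_of_mul_lt_mul_left h7 hp0'.le
          · have h7 : p * m ≤ p * (4 * (X * e)) := by
              calc (p : ℝ) * m ≤ 4 * X * 1 := by linarith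
                _ ≤ 4 * X * (e * p) := mul_le_mul_of_nonneg_left h5 (by positivity)
                _ = p * (4 * (X * e)) := by ring
            exact le_of_mul_le_mul_left h7 hp0'
      rw [hbe]
      have h5 : (1 - L⁻¹ * (om P n : ℝ)) ^ 2 = ((om P n : ℝ) - L) ^ 2 / L ^ 2 := by
        field_simp
        ring
      rw [h5]
      have : 0 ≤ ((om P n : ℝ) - L) ^ 2 / L ^ 2 := by positivity
      linarith
    · have h5 := hE2 (not_le.1 h4)
      rw [Nat.floor_lt (by positivity)] at h5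
      rw [if_neg h4]
      have hbe : dec_B X P H n = ∅ := by
        unfold dec_B
        rw [Finset.filter_eq_empty_iff]
        intro p hp h
        obtain ⟨m, rfl⟩ := h.1
        have hp0 := (hP p hp).pos
        have h6 := h.2
        rw [Nat.mul_div_cancel_left _ hp0] at h6
        have h7 := (dec_prod hX0 hH hp0 h6).2.2
        push_cast at h5
        linarith
      rw [hbe]
      simp only [Finset.card_empty, Nat.cast_zero, mul_zero, sub_zero]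
      have : 0 ≤ ((om P n : ℝ) - L) ^ 2 / L ^ 2 := by positivity
      simp only [ne_eq, OfNat.ofNat_ne_zero, not_false_eq_true, zero_pow]
      linarith

private theorem dec_sum_le {f : ℕ → ℂ} {X : ℝ} {P : Finset ℕ} {H : ℕ} (hf : CM f) (hX : 1 ≤ X)
    (hH : 1 ≤ H) (hHX : (H : ℝ) ≤ X) (hP : ∀ p ∈ P, p.Prime) (hL : 1 ≤ LP P) :
    ∑ n ∈ Ioc ⌊X⌋₊ ⌊11 * X⌋₊, ‖dec_c f X P H n‖ ^ 2 ≤
      72 / X * (1 / LP P + 1 / H + (P.card : ℝ) ^ 2 / X) := by
  have hX0 : 0 < X := by linarith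
  set L := LP P with hLd
  have hL0 : 0 < L := by linarith
  have hH0 : (0 : ℝ) < H := by exact_mod_cast hH
  have hfl : ⌊X⌋₊ ≤ ⌊11 * X⌋₊ := Nat.floor_le_floor (by linarith)
  have htk := tk P hP ⌊X⌋₊ (⌊11 * X⌋₊ - ⌊X⌋₊)
  rw [Nat.add_sub_cancel' hfl] at htk
  have hY : (((⌊11 * X⌋₊ - ⌊X⌋₊ : ℕ)) : ℝ) ≤ 11 * X := by
    have h1 : ((⌊11 * X⌋₊ : ℕ) : ℝ) ≤ 11 * X := Nat.floor_le (by linarith)
    have h2 : (((⌊11 * X⌋₊ - ⌊X⌋₊ : ℕ)) : ℝ) ≤ (⌊11 * X⌋₊ : ℕ) := by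
      exact_mod_cast Nat.sub_le _ _
    linarith
  have hS1 : ∑ n ∈ Ioc ⌊X⌋₊ ⌊11 * X⌋₊, ((om P n : ℝ) - L) ^ 2 ≤
      11 * X * L + 3 * (P.card : ℝ) ^ 2 := by
    refine htk.trans ?_
    have := mul_le_mul_of_nonneg_right hY hL0.le
    linarith
  have hS2 : ∑ n ∈ Ioc ⌊X⌋₊ ⌊11 * X⌋₊, (if n ∈ dec_E X H then (6 : ℝ) else 0) ≤ 72 * (X / H) := by
    rw [← Finset.sum_filter, Finset.sum_const, nsmul_eq_mul]
    have h1 : ((Ioc ⌊X⌋₊ ⌊11 * X⌋₊).filter (fun n => n ∈ dec_E X H)).card ≤ (dec_E X H).card :=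
      Finset.card_le_card fun n hn => (Finset.mem_filter.1 hn).2
    have h2 : (((Ioc ⌊X⌋₊ ⌊11 * X⌋₊).filter (fun n => n ∈ dec_E X H)).card : ℝ) ≤
        (dec_E X H).card := by exact_mod_cast h1
    have h3 := dec_E_card hX hH hHX
    linarith
  calc _ ≤ ∑ n ∈ Ioc ⌊X⌋₊ ⌊11 * X⌋₊, 1 / X ^ 2 *
        (4 * (((om P n : ℝ) - L) ^ 2 / L ^ 2) + if n ∈ dec_E X H then 6 else 0) :=
        Finset.sum_le_sum fun n hn => dec_c_le hf hX hH hP hL hn
    _ = 1 / X ^ 2 * (4 / L ^ 2 * ∑ n ∈ Ioc ⌊X⌋₊ ⌊11 * X⌋₊, ((om P n : ℝ) - L) ^ 2 +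
        ∑ n ∈ Ioc ⌊X⌋₊ ⌊11 * X⌋₊, (if n ∈ dec_E X H then (6 : ℝ) else 0)) := by
        rw [← Finset.mul_sum, Finset.sum_add_distrib, Finset.mul_sum (a := 4 / L ^ 2)]
        congr 2
        refine Finset.sum_congr rfl fun n _ => ?_
        ring
    _ ≤ 1 / X ^ 2 * (4 / L ^ 2 * (11 * X * L + 3 * (P.card : ℝ) ^ 2) + 72 * (X / H)) := by
        refine mul_le_mul_of_nonneg_left (add_le_add ?_ hS2) (by positivity)
        exact mul_le_mul_of_nonneg_left hS1 (by positivity)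
    _ = 44 / X * (1 / L) + 72 / X * (1 / H) + 12 / X * ((P.card : ℝ) ^ 2 / X) * (1 / L ^ 2) := by
        field_simp
        ring
    _ ≤ 72 / X * (1 / L) + 72 / X * (1 / H) + 72 / X * ((P.card : ℝ) ^ 2 / X) * 1 := by
        have h1 : 1 / L ^ 2 ≤ 1 := by
          rw [div_le_one (by positivity)]
          nlinarith
        have h2 : 0 ≤ 1 / X * (1 / L) := by positivity
        have h3 : 0 ≤ 1 / X * ((P.card : ℝ) ^ 2 / X) := by positivity
        have h4 : 12 / X * ((P.card : ℝ) ^ 2 / X) * (1 / L ^ 2) ≤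
            12 / X * ((P.card : ℝ) ^ 2 / X) * 1 := mul_le_mul_of_nonneg_left h1 (by positivity)
        have e1 : 44 / X * (1 / L) = 44 * (1 / X * (1 / L)) := by ring
        have e2 : 72 / X * (1 / L) = 72 * (1 / X * (1 / L)) := by ring
        have e3 : 12 / X * ((P.card : ℝ) ^ 2 / X) * 1 = 12 * (1 / X * ((P.card : ℝ) ^ 2 / X)) := by
          ring
        have e4 : 72 / X * ((P.card : ℝ) ^ 2 / X) * 1 = 72 * (1 / X * ((P.card : ℝ) ^ 2 / X)) := by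
          ring
        linarith
    _ = _ := by ring

/-- `Av f X t - Fv f X P I H t = dp (Ioc ⌊X⌋ ⌊4eX⌋) c t` with `c n = (f n/n) (1[n ≤ 4X] - (1/L) #{p ∈ P : p | n, Xe^{-v/H} < n/p ≤ 4Xe^{-v/H}, v = ix H p})`
(use `f(pm) = f(p) f(m)`, `tw t (pm) = tw t p * tw t m`, `e^{v/H} ≤ p < e^{(v+1)/H}`: the products `pm` lie in `(X, 4Xe^{1/H})`). For `Xe^{1/H} < n ≤ 4X` the number is
exactly `om P n`, so `|c n| ≤ |1 - ω/L|/n`; for `n` in `(X, Xe^{1/H}]` or `(4X, 4Xe^{1/H}]` (together `≤ 12 X/H` integers) `|c n| ≤ (1 + ω/L)/n`. With `tk`: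
`∑ |c n|² ≤ (C/X)(1/L + 1/H + |P|²/X)` (`L ≥ 1`; on the edges `ω² ≤ 2(ω-L)² + 2L²`). Then `mvt` with `N = ⌊4eX⌋ ≤ 11X`. -/
theorem decomp : ∃ C : ℝ, 0 < C ∧ ∀ (f : ℕ → ℂ) (X T : ℝ) (P I : Finset ℕ) (H : ℕ), CM f → 1 ≤ X →
    1 ≤ H → (H : ℝ) ≤ X → (∀ p ∈ P, p.Prime) → (∀ p ∈ P, ix H p ∈ I) → 1 ≤ LP P → 0 ≤ T → T ≤ X →
    ∫ t in (-T)..T, ‖Av f X t - Fv f X P I H t‖ ^ 2 ≤
      C * (1 / LP P + 1 / H + (P.card : ℝ) ^ 2 / X) := by
  obtain ⟨C₀, hC₀, hm⟩ := mvt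
  refine ⟨13 * 72 * C₀, by positivity, ?_⟩
  intro f X T P I H hf hX hH hHX hP hI hL hT hTX
  have hX0 : 0 < X := by linarith
  have hH0 : (0 : ℝ) < H := by exact_mod_cast hH
  have h1 : ∀ t, Av f X t - Fv f X P I H t = dp (Ioc ⌊X⌋₊ ⌊11 * X⌋₊) (dec_c f X P H) t :=
    dec_diff hf hX hH hP hI
  simp only [h1]
  have hN : 1 ≤ ⌊11 * X⌋₊ := Nat.le_floor (by push_cast; linarith)
  have h2 := hm ⌊11 * X⌋₊ (Ioc ⌊X⌋₊ ⌊11 * X⌋₊) (dec_c f X P H) (-T) T hN (fun n hn => by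
    rw [Finset.mem_Ioc] at hn
    exact ⟨by omega, hn.2⟩) (by linarith)
  refine h2.trans ?_
  have h3 := dec_sum_le hf hX hH hHX hP hL
  have h4 : ((⌊11 * X⌋₊ : ℕ) : ℝ) ≤ 11 * X := Nat.floor_le (by linarith)
  have h5 : (0 : ℝ) < LP P := by linarith
  calc C₀ * ((T - -T) + (⌊11 * X⌋₊ : ℕ)) * ∑ n ∈ Ioc ⌊X⌋₊ ⌊11 * X⌋₊, ‖dec_c f X P H n‖ ^ 2 ≤
      C₀ * (13 * X) * (72 / X * (1 / LP P + 1 / H + (P.card : ℝ) ^ 2 / X)) := by
        refine mul_le_mul ?_ h3 (Finset.sum_nonneg fun _ _ => by positivity) (by positivity)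
        exact mul_le_mul_of_nonneg_left (by linarith) hC₀.le
    _ = _ := by
        field_simp

end Pool.Agent.Mrd
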