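import Mathlib

/-!
# Mrd: a qualitative Matomaki-Radziwill theorem (definitions)
-/

set_option autoImplicit false

namespace Pool.Agent.Mrd

open Finset MeasureTheory

/-- `n^{-it}` -/
noncomputable def tw (t : ℝ) (n : ℕ) : ℂ := Complex.exp (-((t * Real.log n : ℝ) : ℂ) * Complex.I)

/-- the Dirichlet polynomial `∑_{n ∈ S} a n n^{-it}` -/
noncomputable def dp (S : Finset ℕ) (a : ℕ → ℂ) (t : ℝ) : ℂ := ∑ n ∈ S, a n * tw t n

/-- completely multiplicative functions bounded by one -/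
structure CM (f : ℕ → ℂ) : Prop where
  zero : f 0 = 0
  one : f 1 = 1
  mul : ∀ m n, f (m * n) = f m * f n
  bdd : ∀ n, ‖f n‖ ≤ 1

/-- primes `x < p ≤ y` -/
noncomputable def pr (x y : ℝ) : Finset ℕ := (Ioc ⌊x⌋₊ ⌊y⌋₊).filter Nat.Prime

/-- the squared distance of `f` and `n^{it}` -/
noncomputable def dist2 (f : ℕ → ℂ) (t x : ℝ) : ℝ := ∑ p ∈ pr 0 x, (1 - (f p * tw t p).re) / p

/-- `f` is far from all `n^{it}`, `|t| ≤ x ^ 2` -/
def NP (f : ℕ → ℂ) : Prop :=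
  ∀ M : ℝ, ∃ x₀ : ℝ, ∀ x : ℝ, x₀ ≤ x → ∀ t : ℝ, |t| ≤ x ^ 2 → M ≤ dist2 f t x

/-- well spaced sets -/
def WS (W : Finset ℝ) : Prop := ∀ s ∈ W, ∀ t ∈ W, s ≠ t → 1 ≤ |s - t|

/-- sum of the inverses -/
noncomputable def LP (P : Finset ℕ) : ℝ := ∑ p ∈ P, (1 : ℝ) / p

/-- summatory function -/
noncomputable def Sg (g : ℕ → ℂ) (x : ℝ) : ℂ := ∑ n ∈ Icc 1 ⌊x⌋₊, g n

/-- the Dirichlet series of `g` at `1 + σ + it` -/
noncomputable def Gs (g : ℕ → ℂ) (σ t : ℝ) : ℂ :=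
  ∑' n : ℕ, g n * (((n : ℝ) ^ (-(1 + σ)) : ℝ) : ℂ) * tw t n

/-- exponential sums of the zeta type -/
noncomputable def zs (θ τ : ℝ) (M N : ℕ) : ℂ :=
  ∑ n ∈ Ioc M N, Complex.exp (-((τ * Real.log (n + θ) : ℝ) : ℂ) * Complex.I)

/-- trapezoid: 0 up to 1/2, 1 on [1,3], 0 from 4 on -/
noncomputable def wt (u : ℝ) : ℝ := max 0 (min 1 (min (2 * u - 1) (4 - u)))

/-- smooth sums -/
noncomputable def Zw (N τ : ℝ) : ℂ := ∑ n ∈ Icc 1 ⌊4 * N⌋₊, ((wt (n / N) : ℝ) : ℂ) * tw τ n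

theorem tw_norm (t : ℝ) (n : ℕ) : ‖tw t n‖ = 1 := by
  unfold tw
  rw [show (-((t * Real.log n : ℝ) : ℂ) * Complex.I) = ((-(t * Real.log n) : ℝ) : ℂ) * Complex.I by
    push_cast; ring]
  exact Complex.norm_exp_ofReal_mul_I _

theorem tw_zero (n : ℕ) : tw 0 n = 1 := by
  unfold tw
  simp

theorem tw_one (t : ℝ) : tw t 1 = 1 := by
  unfold tw
  simp

theorem tw_add (s t : ℝ) (n : ℕ) : tw (s + t) n = tw s n * tw t n := by
  unfold tw
  rw [← Complex.exp_add]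
  congr 1
  push_cast
  ring

theorem tw_mul (t : ℝ) {m n : ℕ} (hm : m ≠ 0) (hn : n ≠ 0) : tw t (m * n) = tw t m * tw t n := by
  unfold tw
  rw [← Complex.exp_add]
  congr 1
  have hm' : (m : ℝ) ≠ 0 := by exact_mod_cast hm
  have hn' : (n : ℝ) ≠ 0 := by exact_mod_cast hn
  rw [Nat.cast_mul, Real.log_mul hm' hn']
  push_cast
  ring

theorem tw_conj (t : ℝ) (n : ℕ) : (starRingEnd ℂ) (tw t n) = tw (-t) n := by
  unfold tw
  rw [← Complex.exp_conj]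
  congr 1
  rw [map_mul, Complex.conj_I, map_neg, Complex.conj_ofReal]
  push_cast
  ring

theorem tw_continuous (n : ℕ) : Continuous (fun t => tw t n) := by
  unfold tw
  fun_prop

theorem dp_continuous (S : Finset ℕ) (a : ℕ → ℂ) : Continuous (dp S a) := by
  unfold dp
  exact continuous_finsetSum _ fun n _ => continuous_const.mul (tw_continuous n)

theorem dp_norm_le (S : Finset ℕ) (a : ℕ → ℂ) (t : ℝ) : ‖dp S a t‖ ≤ ∑ n ∈ S, ‖a n‖ := by
  unfold dp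
  refine (norm_sum_le _ _).trans (Finset.sum_le_sum fun n _ => ?_)
  rw [norm_mul, tw_norm, mul_one]

theorem CM.twist {f : ℕ → ℂ} (hf : CM f) (t : ℝ) : CM (fun n => f n * tw t n) where
  zero := by simp [hf.zero]
  one := by simp [hf.one, tw_one]
  mul := by
    intro m n
    rcases Nat.eq_zero_or_pos m with h | h
    · subst h
      simp [hf.zero]
    rcases Nat.eq_zero_or_pos n with h' | h'
    · subst h'
      simp [hf.zero]
    rw [hf.mul, tw_mul t h.ne' h'.ne']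
    ring
  bdd := by
    intro n
    rw [norm_mul, tw_norm, mul_one]
    exact hf.bdd n

theorem mem_pr {x y : ℝ} {p : ℕ} (hx : 0 ≤ x) (hy : 0 ≤ y) : p ∈ pr x y ↔ p.Prime ∧ x < p ∧ (p : ℝ) ≤ y := by
  unfold pr
  rw [Finset.mem_filter, Finset.mem_Ioc, Nat.floor_lt hx, Nat.le_floor_iff hy]
  tauto

end Pool.Agent.Mrd
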