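import Pool.Agent.Mrd.Defs

/-!
Mrd DEFS2: the objects of the Matomaki-Radziwill iteration.
-/

set_option autoImplicit false

namespace Pool.Agent.Mrd

open Finset MeasureTheory Filter Topology

/-- number of `p ∈ P` dividing `n` -/
noncomputable def om (P : Finset ℕ) (n : ℕ) : ℕ := (P.filter (fun p => p ∣ n)).card

/-- the index of the prime `p` at resolution `H`: `e^{ix/H} ≤ p < e^{(ix+1)/H}` -/
noncomputable def ix (H p : ℕ) : ℕ := ⌊(H : ℝ) * Real.log p⌋₊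

/-- `A(1+it) = ∑_{X < n ≤ 4X} f(n) n^{-1-it}` -/
noncomputable def Av (f : ℕ → ℂ) (X t : ℝ) : ℂ := dp (Ioc ⌊X⌋₊ ⌊4 * X⌋₊) (fun n => f n / n) t

/-- `Q_v(1+it) = ∑_{p ∈ P, ix H p = v} f(p) p^{-1-it}` -/
noncomputable def Qv (f : ℕ → ℂ) (P : Finset ℕ) (H v : ℕ) (t : ℝ) : ℂ :=
  dp (P.filter (fun p => ix H p = v)) (fun p => f p / p) t

/-- `R_v(1+it) = ∑_{X e^{-v/H} < m ≤ 4 X e^{-v/H}} f(m) m^{-1-it}` -/
noncomputable def Rv (f : ℕ → ℂ) (X : ℝ) (H v : ℕ) (t : ℝ) : ℂ :=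
  Av f (X * Real.exp (-((v : ℝ) / H))) t

/-- `(1/L) ∑_{v ∈ I} Q_v R_v` -/
noncomputable def Fv (f : ℕ → ℂ) (X : ℝ) (P I : Finset ℕ) (H : ℕ) (t : ℝ) : ℂ :=
  ((LP P : ℝ) : ℂ)⁻¹ * ∑ v ∈ I, Qv f P H v t * Rv f X H v t

/-- `p_j = 3^{K 4^j}` (logarithm of the left end of the j-th prime range) -/
def pj (K j : ℕ) : ℕ := 3 ^ (K * 4 ^ j)

/-- `q_j = p_j^2`; note `p_{j+1} = p_j^4 = q_j^2` -/
def qj (K j : ℕ) : ℕ := pj K j ^ 2

/-- resolution -/
def Hj (K j : ℕ) : ℕ := K * 4 ^ j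

/-- exponents, `1/8 ≤ a_j < 3/16`, `a_j - a_{j-1} = 2^{-j}/16` -/
noncomputable def aj (j : ℕ) : ℝ := 1 / 8 + (1 / 16) * (1 - (1 / 2) ^ j)

/-- the primes in `(e^{p_j}, e^{q_j}]` -/
noncomputable def Pj (K j : ℕ) : Finset ℕ := pr (Real.exp (pj K j)) (Real.exp (qj K j))

/-- the indices of the primes of `Pj` at resolution `Hj` -/
def Ij (K j : ℕ) : Finset ℕ := Icc (Hj K j * pj K j) (Hj K j * qj K j)

/-- all prime polynomials of level `j` are small at `t` -/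
def Small (f : ℕ → ℂ) (K j : ℕ) (t : ℝ) : Prop :=
  ∀ v ∈ Ij K j, ‖Qv f (Pj K j) (Hj K j) v t‖ ≤ Real.exp (-(aj j * ((v : ℝ) / Hj K j)))

/-- the main term of level `j` -/
noncomputable def Fj (f : ℕ → ℂ) (K j : ℕ) (X t : ℝ) : ℂ := Fv f X (Pj K j) (Ij K j) (Hj K j) t

/-- last level: primes in `(X^{1/(20·3^K)}, X^{1/20}]` -/
noncomputable def Pst (K : ℕ) (X : ℝ) : Finset ℕ :=
  pr (X ^ ((1 : ℝ) / (20 * 3 ^ K))) (X ^ ((1 : ℝ) / 20))

/-- their indices at resolution `K` -/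
noncomputable def Ist (K : ℕ) (X : ℝ) : Finset ℕ :=
  Icc ⌊(K : ℝ) * (Real.log X / (20 * 3 ^ K))⌋₊ ⌊(K : ℝ) * (Real.log X / 20)⌋₊

/-- the main term of the last level -/
noncomputable def Fst (f : ℕ → ℂ) (K : ℕ) (X t : ℝ) : ℂ := Fv f X (Pst K X) (Ist K X) K t

/-- `(1/δ) ∑_{y < n ≤ y e^δ} f(n)/n` -/
noncomputable def Gy (f : ℕ → ℂ) (δ y : ℝ) : ℂ :=
  (δ : ℂ)⁻¹ * ∑ n ∈ Ioc ⌊y⌋₊ ⌊y * Real.exp δ⌋₊, f n / n

/-- a Dirichlet character as a function on `ℕ`, with value 0 at 0 -/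
noncomputable def ch {q : ℕ} (χ : DirichletCharacter ℂ q) (n : ℕ) : ℂ := if n = 0 then 0 else χ (n : ZMod q)

/-- the Liouville function -/
noncomputable def lio (n : ℕ) : ℂ := if n = 0 then 0 else (-1) ^ (ArithmeticFunction.cardFactors n)

theorem ch_CM {q : ℕ} (χ : DirichletCharacter ℂ q) : CM (ch χ) where
  zero := by simp [ch]
  one := by simp [ch]
  mul := by
    intro m n
    unfold ch
    by_cases hm : m = 0
    · simp [hm]
    by_cases hn : n = 0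
    · simp [hn]
    simp [hm, hn]
  bdd := by
    intro n
    unfold ch
    split_ifs
    · simp
    · exact χ.norm_le_one _

theorem lio_CM : CM lio where
  zero := by simp [lio]
  one := by simp [lio]
  mul := by
    intro m n
    unfold lio
    by_cases hm : m = 0
    · simp [hm]
    by_cases hn : n = 0
    · simp [hn]
    rw [if_neg (Nat.mul_ne_zero hm hn), if_neg hm, if_neg hn,
      ArithmeticFunction.cardFactors_mul hm hn, pow_add]
  bdd := by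
    intro n
    unfold lio
    split_ifs
    · simp
    · simp

theorem CM.mul' {f g : ℕ → ℂ} (hf : CM f) (hg : CM g) : CM (fun n => f n * g n) where
  zero := by simp [hf.zero]
  one := by simp [hf.one, hg.one]
  mul := by
    intro m n
    rw [hf.mul, hg.mul]
    ring
  bdd := by
    intro n
    rw [norm_mul]
    exact mul_le_one₀ (hf.bdd n) (norm_nonneg _) (hg.bdd n)

end Pool.Agent.Mrd
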