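import Pool.Agent.Mrd.Defs

/-!
Mrd DUAL: the duality principle with a majorant.
-/

set_option autoImplicit false

namespace Pool.Agent.Mrd

open Finset MeasureTheory Filter Topology

private theorem dual_ker (S' : Finset ℕ) (w : ℕ → ℝ) (τ : ℝ) :
    ‖∑ n ∈ S', ((w n : ℝ) : ℂ) * tw (-τ) n‖ = ‖∑ n ∈ S', ((w n : ℝ) : ℂ) * tw τ n‖ := by
  have h : (starRingEnd ℂ) (∑ n ∈ S', ((w n : ℝ) : ℂ) * tw τ n) =
      ∑ n ∈ S', ((w n : ℝ) : ℂ) * tw (-τ) n := by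
    rw [map_sum]
    refine Finset.sum_congr rfl fun n _ => ?_
    rw [map_mul, Complex.conj_ofReal, tw_conj]
  rw [← h, Complex.norm_conj]

private theorem dual_exp (S' : Finset ℕ) (w : ℕ → ℝ) (W : Finset ℝ) (c : ℝ → ℂ) :
    ((∑ n ∈ S', w n * ‖∑ t ∈ W, c t * tw t n‖ ^ 2 : ℝ) : ℂ) =
      ∑ t ∈ W, ∑ t' ∈ W, c t * (starRingEnd ℂ) (c t') *
        ∑ n ∈ S', ((w n : ℝ) : ℂ) * tw (t - t') n := by
  push_cast
  have h1 : ∀ n ∈ S', ((w n : ℝ) : ℂ) * ((‖∑ t ∈ W, c t * tw t n‖ : ℝ) : ℂ) ^ 2 =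
      ∑ t ∈ W, ∑ t' ∈ W, c t * (starRingEnd ℂ) (c t') * (((w n : ℝ) : ℂ) * tw (t - t') n) := by
    intro n _
    rw [← Complex.mul_conj', map_sum, Finset.sum_mul_sum, Finset.mul_sum]
    refine Finset.sum_congr rfl fun t _ => ?_
    rw [Finset.mul_sum]
    refine Finset.sum_congr rfl fun t' _ => ?_
    rw [map_mul, tw_conj, sub_eq_add_neg, tw_add]
    ring
  rw [Finset.sum_congr rfl h1, Finset.sum_comm]
  refine Finset.sum_congr rfl fun t _ => ?_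
  rw [Finset.sum_comm]
  refine Finset.sum_congr rfl fun t' _ => ?_
  rw [Finset.mul_sum]

/-- With `F(t) = dp S a t`, `c_t = conj F(t)`: `∑_t ‖F(t)‖^2 = ∑_{n ∈ S} a_n ∑_t c_t tw t n ≤ (∑_{n ∈ S} ‖a_n‖^2)^{1/2}
(∑_{n ∈ S'} w_n ‖∑_t c_t tw t n‖^2)^{1/2}`; expand the last sum: `∑_{t,t'} c_t conj(c_t') ∑_n w_n tw (t - t') n`, and
`‖c_t c_t'‖ ≤ (‖c_t‖^2 + ‖c_t'‖^2)/2` (the kernel is hermitian) gives `≤ Δ ∑_t ‖c_t‖^2`. -/
theorem dual (S S' : Finset ℕ) (hS : S ⊆ S') (w : ℕ → ℝ) (hw0 : ∀ n ∈ S', 0 ≤ w n)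
    (hw1 : ∀ n ∈ S, 1 ≤ w n) (W : Finset ℝ) (Δ : ℝ) (hD0 : 0 ≤ Δ)
    (hΔ : ∀ t ∈ W, ∑ t' ∈ W, ‖∑ n ∈ S', ((w n : ℝ) : ℂ) * tw (t' - t) n‖ ≤ Δ) (a : ℕ → ℂ) :
    ∑ t ∈ W, ‖dp S a t‖ ^ 2 ≤ Δ * ∑ n ∈ S, ‖a n‖ ^ 2 := by
  obtain ⟨c, hc⟩ : ∃ c : ℝ → ℂ, c = fun t => (starRingEnd ℂ) (dp S a t) := ⟨_, rfl⟩
  have hcn : ∀ t, ‖c t‖ = ‖dp S a t‖ := fun t => by rw [hc]; exact Complex.norm_conj _
  obtain ⟨X, hX⟩ : ∃ X : ℝ, X = ∑ t ∈ W, ‖dp S a t‖ ^ 2 := ⟨_, rfl⟩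
  obtain ⟨A, hA⟩ : ∃ A : ℝ, A = ∑ n ∈ S, ‖a n‖ ^ 2 := ⟨_, rfl⟩
  have hA0 : 0 ≤ A := by rw [hA]; positivity
  have hX0 : 0 ≤ X := by rw [hX]; positivity
  -- the quadratic form
  have hQ : ∑ n ∈ S', w n * ‖∑ t ∈ W, c t * tw t n‖ ^ 2 ≤ Δ * X := by
    have h1 : ∑ n ∈ S', w n * ‖∑ t ∈ W, c t * tw t n‖ ^ 2 ≤
        ∑ t ∈ W, ∑ t' ∈ W, ‖c t‖ * ‖c t'‖ * ‖∑ n ∈ S', ((w n : ℝ) : ℂ) * tw (t - t') n‖ := by
      have h2 := dual_exp S' w W c
      have h3 : ∑ n ∈ S', w n * ‖∑ t ∈ W, c t * tw t n‖ ^ 2 =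
          (∑ t ∈ W, ∑ t' ∈ W, c t * (starRingEnd ℂ) (c t') *
            ∑ n ∈ S', ((w n : ℝ) : ℂ) * tw (t - t') n).re := by
        rw [← h2, Complex.ofReal_re]
      rw [h3]
      refine (Complex.re_le_norm _).trans ((norm_sum_le _ _).trans ?_)
      refine Finset.sum_le_sum fun t _ => (norm_sum_le _ _).trans (Finset.sum_le_sum fun t' _ => ?_)
      rw [norm_mul, norm_mul, Complex.norm_conj]
    refine h1.trans ?_
    have h4 : ∀ t t' : ℝ, ‖∑ n ∈ S', ((w n : ℝ) : ℂ) * tw (t - t') n‖ =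
        ‖∑ n ∈ S', ((w n : ℝ) : ℂ) * tw (t' - t) n‖ := fun t t' => by
      rw [← dual_ker S' w (t' - t)]
      congr 3
      funext n
      rw [neg_sub]
    have h5 : ∑ t ∈ W, ∑ t' ∈ W, ‖c t‖ * ‖c t'‖ *
          ‖∑ n ∈ S', ((w n : ℝ) : ℂ) * tw (t - t') n‖ ≤
        ∑ t ∈ W, ∑ t' ∈ W, ((‖c t‖ ^ 2) / 2 *
          ‖∑ n ∈ S', ((w n : ℝ) : ℂ) * tw (t' - t) n‖ +
          (‖c t'‖ ^ 2) / 2 * ‖∑ n ∈ S', ((w n : ℝ) : ℂ) * tw (t - t') n‖) := by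
      refine Finset.sum_le_sum fun t _ => Finset.sum_le_sum fun t' _ => ?_
      rw [← h4 t t', ← add_mul]
      refine mul_le_mul_of_nonneg_right ?_ (norm_nonneg _)
      nlinarith [sq_nonneg (‖c t‖ - ‖c t'‖)]
    refine h5.trans ?_
    have h6 : ∑ t ∈ W, ∑ t' ∈ W, ((‖c t‖ ^ 2) / 2 *
          ‖∑ n ∈ S', ((w n : ℝ) : ℂ) * tw (t' - t) n‖ +
          (‖c t'‖ ^ 2) / 2 * ‖∑ n ∈ S', ((w n : ℝ) : ℂ) * tw (t - t') n‖) =
        2 * ∑ t ∈ W, (‖c t‖ ^ 2) / 2 * ∑ t' ∈ W,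
          ‖∑ n ∈ S', ((w n : ℝ) : ℂ) * tw (t' - t) n‖ := by
      simp only [Finset.sum_add_distrib]
      rw [two_mul]
      congr 1
      · exact Finset.sum_congr rfl fun t _ => (Finset.mul_sum _ _ _).symm
      · rw [Finset.sum_comm]
        exact Finset.sum_congr rfl fun t _ => (Finset.mul_sum _ _ _).symm
    rw [h6]
    have h7 : ∑ t ∈ W, (‖c t‖ ^ 2) / 2 * ∑ t' ∈ W,
          ‖∑ n ∈ S', ((w n : ℝ) : ℂ) * tw (t' - t) n‖ ≤ ∑ t ∈ W, (‖c t‖ ^ 2) / 2 * Δ :=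
      Finset.sum_le_sum fun t ht => mul_le_mul_of_nonneg_left (hΔ t ht) (by positivity)
    have h8 : ∑ t ∈ W, (‖c t‖ ^ 2) / 2 * Δ = Δ * X / 2 := by
      rw [hX, ← Finset.sum_mul, ← Finset.sum_div]
      simp only [hcn]
      ring
    linarith
  -- the linear form
  have hL : X ^ 2 ≤ A * ∑ n ∈ S, ‖∑ t ∈ W, c t * tw t n‖ ^ 2 := by
    have h1 : (X : ℂ) = ∑ n ∈ S, a n * ∑ t ∈ W, c t * tw t n := by
      rw [hX]
      push_cast
      have h2 : ∀ t ∈ W, ((‖dp S a t‖ : ℝ) : ℂ) ^ 2 = ∑ n ∈ S, a n * (c t * tw t n) := by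
        intro t _
        rw [← Complex.mul_conj']
        have h3 : (starRingEnd ℂ) (dp S a t) = c t := by rw [hc]
        rw [h3]
        unfold dp
        rw [Finset.sum_mul]
        exact Finset.sum_congr rfl fun n _ => by ring
      rw [Finset.sum_congr rfl h2, Finset.sum_comm]
      exact Finset.sum_congr rfl fun n _ => (Finset.mul_sum _ _ _).symm
    have h4 : X ≤ ∑ n ∈ S, ‖a n‖ * ‖∑ t ∈ W, c t * tw t n‖ := by
      have h5 : X = ‖(X : ℂ)‖ := by rw [Complex.norm_real, Real.norm_of_nonneg hX0]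
      rw [h5, h1]
      refine (norm_sum_le _ _).trans (Finset.sum_le_sum fun n _ => ?_)
      rw [norm_mul]
    calc X ^ 2 ≤ (∑ n ∈ S, ‖a n‖ * ‖∑ t ∈ W, c t * tw t n‖) ^ 2 := pow_le_pow_left₀ hX0 h4 2
      _ ≤ (∑ n ∈ S, ‖a n‖ ^ 2) * ∑ n ∈ S, ‖∑ t ∈ W, c t * tw t n‖ ^ 2 :=
        Finset.sum_mul_sq_le_sq_mul_sq _ _ _
      _ = _ := by rw [← hA]
  have hS1 : ∑ n ∈ S, ‖∑ t ∈ W, c t * tw t n‖ ^ 2 ≤ Δ * X := by
    refine le_trans ?_ hQ
    refine le_trans (Finset.sum_le_sum (g := fun n => w n * ‖∑ t ∈ W, c t * tw t n‖ ^ 2)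
      fun n hn => ?_) (Finset.sum_le_sum_of_subset_of_nonneg hS fun n hn _ =>
        mul_nonneg (hw0 n hn) (sq_nonneg _))
    nlinarith [hw1 n hn, sq_nonneg (‖∑ t ∈ W, c t * tw t n‖)]
  have hfin : X ^ 2 ≤ A * (Δ * X) := hL.trans (mul_le_mul_of_nonneg_left hS1 hA0)
  rw [← hX, ← hA]
  rcases hX0.eq_or_lt with h | h
  · rw [← h]
    exact mul_nonneg hD0 hA0
  · have : X * X ≤ X * (Δ * A) := by nlinarith
    exact le_of_mul_le_mul_left this h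

private theorem ws_right (t : ℝ) (g : ℝ → ℝ) (hg : ∀ x y : ℝ, 1 ≤ x → x ≤ y → g y ≤ g x)
    (R : Finset ℝ) : WS R → (∀ s ∈ R, t + 1 ≤ s) →
    (∀ b : ℝ, (∀ s ∈ R, s + 1 ≤ b) → t + 1 ≤ b → t + R.card + 1 ≤ b) ∧
      ∑ s ∈ R, g (s - t) ≤ ∑ k ∈ Finset.range R.card, g (k + 1) := by
  classical
  induction R using Finset.induction_on_max with
  | empty =>
    intro _ _
    refine ⟨fun b _ hb => ?_, ?_⟩
    · simpa using hb
    · simp
  | insert a s hmax ih =>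
    intro hW h1
    have ha : a ∉ s := fun h => lt_irrefl a (hmax a h)
    have hWs : WS s := fun x hx y hy hxy =>
      hW x (Finset.mem_insert_of_mem hx) y (Finset.mem_insert_of_mem hy) hxy
    obtain ⟨i1, i2⟩ := ih hWs fun x hx => h1 x (Finset.mem_insert_of_mem hx)
    have hta := h1 a (Finset.mem_insert_self a s)
    have hsa : ∀ x ∈ s, x + 1 ≤ a := by
      intro x hx
      have h2 := hW a (Finset.mem_insert_self a s) x (Finset.mem_insert_of_mem hx)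
        (hmax x hx).ne'
      rw [abs_of_pos (sub_pos.2 (hmax x hx))] at h2
      linarith
    have h3 := i1 a hsa hta
    rw [Finset.card_insert_of_notMem ha]
    refine ⟨fun b hb _ => ?_, ?_⟩
    · have h4 := hb a (Finset.mem_insert_self a s)
      push_cast
      linarith
    · rw [Finset.sum_insert ha, Finset.sum_range_succ, add_comm]
      refine add_le_add i2 (hg _ _ ?_ ?_)
      · have : (0 : ℝ) ≤ s.card := Nat.cast_nonneg _
        linarith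
      · linarith

private theorem ws_two (W : Finset ℝ) (hW : WS W) (t : ℝ) (ht : t ∈ W) (g : ℝ → ℝ)
    (hg : ∀ x y : ℝ, 1 ≤ x → x ≤ y → g y ≤ g x) (hg0 : ∀ x : ℝ, 1 ≤ x → 0 ≤ g x) :
    ∑ s ∈ W.erase t, g |s - t| ≤ 2 * ∑ k ∈ Finset.range W.card, g (k + 1) := by
  classical
  have hmono : ∀ m : ℕ, m ≤ W.card → ∑ k ∈ Finset.range m, g (k + 1) ≤
      ∑ k ∈ Finset.range W.card, g (k + 1) := by
    intro m hm
    refine Finset.sum_le_sum_of_subset_of_nonneg (Finset.range_subset_range.2 hm) fun k _ _ =>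
      hg0 _ ?_
    have : (0 : ℝ) ≤ k := Nat.cast_nonneg _
    linarith
  obtain ⟨R, hR⟩ : ∃ R, R = (W.erase t).filter (fun s => t < s) := ⟨_, rfl⟩
  obtain ⟨L, hL⟩ : ∃ L, L = (W.erase t).filter (fun s => ¬ t < s) := ⟨_, rfl⟩
  have hsplit : ∑ s ∈ W.erase t, g |s - t| = ∑ s ∈ R, g |s - t| + ∑ s ∈ L, g |s - t| := by
    rw [hR, hL, Finset.sum_filter_add_sum_filter_not]
  have hRW : ∀ s ∈ R, s ∈ W ∧ t < s := fun s hs => by
    rw [hR, Finset.mem_filter, Finset.mem_erase] at hs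
    exact ⟨hs.1.2, hs.2⟩
  have hLW : ∀ s ∈ L, s ∈ W ∧ s < t := fun s hs => by
    rw [hL, Finset.mem_filter, Finset.mem_erase] at hs
    exact ⟨hs.1.2, lt_of_le_of_ne (not_lt.1 hs.2) hs.1.1⟩
  have h1 : ∑ s ∈ R, g |s - t| ≤ ∑ k ∈ Finset.range W.card, g (k + 1) := by
    have h2 := (ws_right t g hg R (fun x hx y hy hxy => hW x (hRW x hx).1 y (hRW y hy).1 hxy)
      (fun s hs => by
        have h3 := hW s (hRW s hs).1 t ht (hRW s hs).2.ne'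
        rw [abs_of_pos (sub_pos.2 (hRW s hs).2)] at h3
        linarith)).2
    have h4 : ∑ s ∈ R, g |s - t| = ∑ s ∈ R, g (s - t) :=
      Finset.sum_congr rfl fun s hs => by rw [abs_of_pos (sub_pos.2 (hRW s hs).2)]
    rw [h4]
    exact h2.trans (hmono _ (Finset.card_le_card fun s hs => (hRW s hs).1))
  have h2 : ∑ s ∈ L, g |s - t| ≤ ∑ k ∈ Finset.range W.card, g (k + 1) := by
    obtain ⟨L', hL'⟩ : ∃ L', L' = L.image (fun s => -s) := ⟨_, rfl⟩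
    have hL'm : ∀ s ∈ L', ∃ x ∈ L, s = -x := fun s hs => by
      rw [hL', Finset.mem_image] at hs
      obtain ⟨x, hx, h3⟩ := hs
      exact ⟨x, hx, h3.symm⟩
    have hcard : L'.card = L.card := by
      rw [hL']
      exact Finset.card_image_of_injective _ neg_injective
    have h3 := (ws_right (-t) g hg L' (fun x hx y hy hxy => by
        obtain ⟨x', hx', rfl⟩ := hL'm x hx
        obtain ⟨y', hy', rfl⟩ := hL'm y hy
        have h4 := hW x' (hLW x' hx').1 y' (hLW y' hy').1 (fun h => hxy (by rw [h]))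
        have h5 : |-x' - -y'| = |x' - y'| := by rw [← abs_neg]; congr 1; ring
        rw [h5]
        exact h4)
      (fun s hs => by
        obtain ⟨x', hx', rfl⟩ := hL'm s hs
        have h4 := hW t ht x' (hLW x' hx').1 (hLW x' hx').2.ne'
        rw [abs_of_pos (sub_pos.2 (hLW x' hx').2)] at h4
        linarith)).2
    rw [hcard] at h3
    have h4 : ∑ s ∈ L, g |s - t| = ∑ s ∈ L', g (s - -t) := by
      rw [hL', Finset.sum_image fun x _ y _ h => neg_injective h]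
      refine Finset.sum_congr rfl fun s hs => ?_
      rw [abs_of_neg (sub_neg.2 (hLW s hs).2)]
      congr 1
      ring
    rw [h4]
    exact h3.trans (hmono _ (Finset.card_le_card fun s hs => (hLW s hs).1))
  rw [hsplit]
  linarith

/-- For a well spaced set `W` and `t ∈ W`: `∑_{t' ∈ W, t' ≠ t} 1/|t - t'| ≤ 2 (1 + log (1 + |W|))`: the elements to the right of
`t`, in increasing order `t_1 < t_2 < ...`, satisfy `t_k - t ≥ k`; the same on the left. -/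
theorem ws_harm (W : Finset ℝ) (hW : WS W) (t : ℝ) (ht : t ∈ W) :
    ∑ s ∈ W.erase t, 1 / |s - t| ≤ 2 * (1 + Real.log (1 + W.card)) := by
  have h := ws_two W hW t ht (fun x => 1 / x)
    (fun x y hx hxy => one_div_le_one_div_of_le (by linarith) hxy)
    (fun x hx => by positivity)
  refine h.trans ?_
  have h2 : ∑ k ∈ Finset.range W.card, (1 : ℝ) / ((k : ℝ) + 1) = ((harmonic W.card : ℚ) : ℝ) := by
    rw [harmonic]
    push_cast
    exact Finset.sum_congr rfl fun k _ => one_div _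
  have h3 := harmonic_le_one_add_log W.card
  have h4 : Real.log (W.card : ℝ) ≤ Real.log (1 + W.card) := by
    refine Real.log_le_log ?_ (by linarith)
    exact_mod_cast Finset.card_pos.2 ⟨t, ht⟩
  rw [h2]
  linarith

/-- The same with squares: `∑_{s ∈ W} 1/(1 + (s-t)^2) ≤ 5`. -/
theorem ws_sq (W : Finset ℝ) (hW : WS W) (t : ℝ) (ht : t ∈ W) :
    ∑ s ∈ W, 1 / (1 + (s - t) ^ 2) ≤ 5 := by
  have h := ws_two W hW t ht (fun x => 1 / (1 + x ^ 2))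
    (fun x y hx hxy => one_div_le_one_div_of_le (by positivity) (by nlinarith))
    (fun x hx => by positivity)
  have h2 : ∀ m : ℕ, ∑ k ∈ Finset.range m, (1 : ℝ) / (1 + ((k : ℝ) + 1) ^ 2) ≤
      2 - 1 / ((m : ℝ) + 1 / 2) := by
    intro m
    induction m with
    | zero => norm_num
    | succ m ih =>
      rw [Finset.sum_range_succ]
      have hm : (0 : ℝ) ≤ m := Nat.cast_nonneg _
      have h3 : (1 : ℝ) / (1 + ((m : ℝ) + 1) ^ 2) ≤ 1 / (m + 1 / 2) - 1 / (m + 1 + 1 / 2) := by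
        rw [div_sub_div _ _ (by positivity) (by positivity),
          div_le_div_iff₀ (by positivity) (by positivity)]
        nlinarith
      push_cast
      linarith
  have h3 := h2 W.card
  have h4 : (0 : ℝ) ≤ 1 / ((W.card : ℝ) + 1 / 2) := by positivity
  have h5 : ∑ s ∈ W, 1 / (1 + (s - t) ^ 2) = 1 / (1 + (t - t) ^ 2) +
      ∑ s ∈ W.erase t, 1 / (1 + (s - t) ^ 2) := (Finset.add_sum_erase W _ ht).symm
  have h6 : ∑ s ∈ W.erase t, 1 / (1 + (s - t) ^ 2) =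
      ∑ s ∈ W.erase t, 1 / (1 + |s - t| ^ 2) :=
    Finset.sum_congr rfl fun s _ => by rw [sq_abs]
  rw [h5, h6]
  have h7 : (1 : ℝ) / (1 + (t - t) ^ 2) = 1 := by norm_num
  rw [h7]
  linarith

end Pool.Agent.Mrd
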