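import Pool.Agent.Mrd.MomC
import Pool.Agent.Mrd.Mvt

/-!
Mrd MOM: moments.
-/

set_option autoImplicit false

namespace Pool.Agent.Mrd

open Finset MeasureTheory Filter Topology

/-- `mom_coef` and `mvt` with `N' = ⌊4N(ez)^l⌋`: `2T + N' ≤ 6 e^l N z^l` (if `N' = 0` everything is 0). -/
theorem moment : ∃ C : ℝ, 0 < C ∧ ∀ (Q S : Finset ℕ) (b c : ℕ → ℂ) (z N T : ℝ) (l : ℕ), 1 ≤ z → 0 < N →
    (∀ p ∈ Q, p.Prime ∧ z ≤ p ∧ (p : ℝ) ≤ Real.exp 1 * z) →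
    (∀ m ∈ S, N < m ∧ (m : ℝ) ≤ 4 * N) → (∀ n, ‖b n‖ ≤ 1) → (∀ n, ‖c n‖ ≤ 1) →
    0 ≤ T → T ≤ N * z ^ l →
    ∫ t in (-T)..T, ‖dp Q (fun p => b p / p) t‖ ^ (2 * l) * ‖dp S (fun m => c m / m) t‖ ^ 2 ≤
      C * (2 * l).factorial * Real.exp 2 ^ l := by
  obtain ⟨C₁, hC₁, h₁⟩ := mom_coef
  obtain ⟨C₂, hC₂, h₂⟩ := mvt
  refine ⟨6 * C₁ * C₂, by positivity, ?_⟩
  intro Q S b c z N T l hz hN hQ hS hb hc hT hTN
  obtain ⟨a, ha, hsum⟩ := h₁ Q S b c z N l hz hN hQ hS hb hc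
  have hz0 : 0 < z := by linarith
  have he : (1 : ℝ) ≤ Real.exp 1 := Real.one_le_exp (by norm_num)
  have hel : (1 : ℝ) ≤ Real.exp 1 ^ l := one_le_pow₀ he
  set N' : ℕ := ⌊4 * N * (Real.exp 1 * z) ^ l⌋₊ with hN'
  have hint : ∫ t in (-T)..T, ‖dp Q (fun p => b p / p) t‖ ^ (2 * l) *
      ‖dp S (fun m => c m / m) t‖ ^ 2 = ∫ t in (-T)..T, ‖dp (Icc 1 N') a t‖ ^ 2 := by
    congr 1
    funext t
    rw [← ha t, norm_mul, mul_pow, norm_pow, ← pow_mul, mul_comm l 2]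
  rw [hint]
  have hfac : (0 : ℝ) < (2 * l).factorial := by positivity
  rcases Nat.eq_zero_or_pos N' with h0 | h0
  · rw [h0]
    have h3 : ∀ t, dp (Icc 1 0) a t = 0 := by
      intro t
      unfold dp
      simp
    simp only [h3]
    simp
    positivity
  · have h3 := h₂ N' (Icc 1 N') a (-T) T h0 (fun n hn => Finset.mem_Icc.mp hn) (by linarith)
    have hfl : (N' : ℝ) ≤ 4 * N * (Real.exp 1 * z) ^ l := Nat.floor_le (by positivity)
    have h4 : T - -T + N' ≤ 6 * (N * z ^ l) * Real.exp 1 ^ l := by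
      rw [mul_pow] at hfl
      have h5 : 0 < N * z ^ l := by positivity
      nlinarith
    have hs0 : 0 ≤ ∑ n ∈ Icc 1 N', ‖a n‖ ^ 2 := Finset.sum_nonneg fun n _ => by positivity
    calc ∫ t in (-T)..T, ‖dp (Icc 1 N') a t‖ ^ 2
        ≤ C₂ * (T - -T + N') * ∑ n ∈ Icc 1 N', ‖a n‖ ^ 2 := h3
      _ ≤ C₂ * (6 * (N * z ^ l) * Real.exp 1 ^ l) * ∑ n ∈ Icc 1 N', ‖a n‖ ^ 2 :=
          mul_le_mul_of_nonneg_right (mul_le_mul_of_nonneg_left h4 hC₂.le) hs0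
      _ ≤ C₂ * (6 * (N * z ^ l) * Real.exp 1 ^ l) *
            (C₁ * (2 * l).factorial * Real.exp 1 ^ l / (N * z ^ l)) :=
          mul_le_mul_of_nonneg_left hsum (by positivity)
      _ = 6 * C₁ * C₂ * (2 * l).factorial * (Real.exp 1 ^ l * Real.exp 1 ^ l) := by
          field_simp
      _ = 6 * C₁ * C₂ * (2 * l).factorial * Real.exp 2 ^ l := by
          rw [← mul_pow, ← Real.exp_add]
          norm_num

/-- `mom_coef` with `N = 1/2`, `S = {1}`, `c = 1` and `mvt_disc` (`N' = ⌊2(ez)^k⌋`, `T + N' ≤ 3(ez)^k`, `log N' ≤ 1 + k(1 + log z)`). -/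
theorem count : ∃ C : ℝ, 0 < C ∧ ∀ (Q : Finset ℕ) (b : ℕ → ℂ) (z T : ℝ) (k : ℕ) (W : Finset ℝ), 1 ≤ z →
    (∀ p ∈ Q, p.Prime ∧ z ≤ p ∧ (p : ℝ) ≤ Real.exp 1 * z) → (∀ n, ‖b n‖ ≤ 1) →
    1 ≤ T → T ≤ z ^ k → WS W → (∀ t ∈ W, |t| ≤ T) →
    ∑ t ∈ W, ‖dp Q (fun p => b p / p) t‖ ^ (2 * k) ≤
      C * (2 * k).factorial * Real.exp 2 ^ k * (1 + k * (1 + Real.log z)) := by
  obtain ⟨C₁, hC₁, h₁⟩ := mom_coef
  obtain ⟨C₂, hC₂, h₂⟩ := mvt_disc
  refine ⟨12 * C₁ * C₂, by positivity, ?_⟩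
  intro Q b z T k W hz hQ hb hT hTz hW hWT
  obtain ⟨a, ha, hsum⟩ := h₁ Q {1} b (fun _ => 1) z (1 / 2) k hz (by norm_num) hQ
    (fun m hm => by
      rw [Finset.mem_singleton] at hm
      subst hm
      norm_num) hb (fun n => by simp)
  have hz0 : 0 < z := by linarith
  have he : (1 : ℝ) ≤ Real.exp 1 := Real.one_le_exp (by norm_num)
  have hek : (1 : ℝ) ≤ Real.exp 1 ^ k := one_le_pow₀ he
  have hzk : (1 : ℝ) ≤ z ^ k := one_le_pow₀ hz
  have e1 : (4 * (1 / 2 : ℝ) * (Real.exp 1 * z) ^ k) = 2 * (Real.exp 1 * z) ^ k := by ring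
  rw [e1] at ha hsum
  set N' : ℕ := ⌊2 * (Real.exp 1 * z) ^ k⌋₊ with hN'
  have hone : ∀ t, dp {1} (fun m => (1 : ℂ) / m) t = 1 := by
    intro t
    unfold dp
    rw [Finset.sum_singleton, tw_one]
    simp
  have hval : ∀ t, ‖dp Q (fun p => b p / p) t‖ ^ (2 * k) = ‖dp (Icc 1 N') a t‖ ^ 2 := by
    intro t
    rw [← ha t, hone t, mul_one, norm_pow, ← pow_mul, mul_comm k 2]
  have hprod : (1 : ℝ) ≤ (Real.exp 1 * z) ^ k := by
    rw [mul_pow]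
    nlinarith
  have h0 : 1 ≤ N' := by
    rw [hN']
    apply Nat.le_floor
    push_cast
    linarith
  have hfl : (N' : ℝ) ≤ 2 * (Real.exp 1 * z) ^ k := Nat.floor_le (by positivity)
  have h3 := h₂ N' (Icc 1 N') a T W h0 (fun n hn => Finset.mem_Icc.mp hn) hT hW hWT
  have h4 : T + N' ≤ 3 * (z ^ k * Real.exp 1 ^ k) := by
    rw [mul_pow] at hfl
    have h5 : 0 < z ^ k := by positivity
    nlinarith
  have hlz : 0 ≤ Real.log z := Real.log_nonneg hz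
  have h5 : 1 + Real.log N' ≤ 2 * (1 + k * (1 + Real.log z)) := by
    have h6 : Real.log N' ≤ Real.log (2 * (Real.exp 1 * z) ^ k) :=
      Real.log_le_log (by exact_mod_cast h0) hfl
    rw [Real.log_mul (by norm_num) (by positivity), Real.log_pow, Real.log_mul (by positivity)
      (by positivity), Real.log_exp] at h6
    have h7 : Real.log 2 ≤ 1 := by
      have := Real.log_two_lt_d9
      linarith
    have h8 : 0 ≤ (k : ℝ) * (1 + Real.log z) := by positivity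
    linarith
  have hs0 : 0 ≤ ∑ n ∈ Icc 1 N', ‖a n‖ ^ 2 := Finset.sum_nonneg fun n _ => by positivity
  have hl0 : 0 ≤ 1 + Real.log N' := by
    have := Real.log_natCast_nonneg N'
    linarith
  simp only [hval]
  calc ∑ t ∈ W, ‖dp (Icc 1 N') a t‖ ^ 2
      ≤ C₂ * (T + N') * (1 + Real.log N') * ∑ n ∈ Icc 1 N', ‖a n‖ ^ 2 := h3
    _ ≤ C₂ * (3 * (z ^ k * Real.exp 1 ^ k)) * (2 * (1 + k * (1 + Real.log z))) *
          ∑ n ∈ Icc 1 N', ‖a n‖ ^ 2 := by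
        refine mul_le_mul_of_nonneg_right ?_ hs0
        exact mul_le_mul (mul_le_mul_of_nonneg_left h4 hC₂.le) h5 hl0 (by positivity)
    _ ≤ C₂ * (3 * (z ^ k * Real.exp 1 ^ k)) * (2 * (1 + k * (1 + Real.log z))) *
          (C₁ * (2 * k).factorial * Real.exp 1 ^ k / (1 / 2 * z ^ k)) :=
        mul_le_mul_of_nonneg_left hsum (by positivity)
    _ = 12 * C₁ * C₂ * (2 * k).factorial * (Real.exp 1 ^ k * Real.exp 1 ^ k) *
          (1 + k * (1 + Real.log z)) := by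
        field_simp
        ring
    _ = 12 * C₁ * C₂ * (2 * k).factorial * Real.exp 2 ^ k * (1 + k * (1 + Real.log z)) := by
        rw [← mul_pow, ← Real.exp_add]
        norm_num

end Pool.Agent.Mrd
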