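import Pool.Agent.Mrd.Par
import Pool.Agent.Mrd.Mom

/-!
Mrd EXC: the exceptional set is thin.
-/

set_option autoImplicit false

namespace Pool.Agent.Mrd

open Finset MeasureTheory Filter Topology

private theorem exc_ix {H p v : ℕ} (hH : 1 ≤ H) (hp : p.Prime) (h : ix H p = v) :
    Real.exp ((v : ℝ) / H) ≤ p ∧ (p : ℝ) ≤ Real.exp 1 * Real.exp ((v : ℝ) / H) := by
  have hp1 : (1 : ℝ) ≤ p := by exact_mod_cast hp.one_lt.le
  have hp0 : (0 : ℝ) < p := by linarith
  have hH0 : (0 : ℝ) < H := by exact_mod_cast hH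
  have hH1 : (1 : ℝ) ≤ H := by exact_mod_cast hH
  have hlog : 0 ≤ Real.log p := Real.log_nonneg hp1
  have h0 : 0 ≤ (H : ℝ) * Real.log p := by positivity
  unfold ix at h
  have h1 : (v : ℝ) ≤ H * Real.log p := by
    rw [← h]
    exact Nat.floor_le h0
  have h2 : (H : ℝ) * Real.log p < v + 1 := by
    rw [← h]
    exact Nat.lt_floor_add_one _
  constructor
  · rw [← Real.le_log_iff_exp_le hp0, div_le_iff₀ hH0]
    linarith
  · rw [← Real.exp_add, ← Real.log_le_iff_le_exp hp0]
    have : Real.log p ≤ (v + 1) / H := by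
      rw [le_div_iff₀ hH0]
      linarith
    refine this.trans ?_
    rw [add_div]
    have : 1 / (H : ℝ) ≤ 1 := by
      rw [div_le_one hH0]
      exact hH1
    linarith

private theorem exc_num (c w L V : ℝ) (k : ℕ) (a : ℝ) (hw : 40 * (214 + |Real.log c|) ≤ w) (hc : 0 < c)
    (hL : L = w ^ 32) (ha : a ≤ 3 / 16) (ha0 : 0 ≤ a) (hV1 : w ^ 2 ≤ V) (hV2 : V ≤ w ^ 16) (hk : k = ⌈L / V⌉₊) :
    Real.exp (2 * a * V * k) * (c * (2 * k).factorial * Real.exp 2 ^ k * (1 + k * (1 + V))) ≤
      Real.exp (2 / 5 * L - 1 - 32 * w) := by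
  have hw1 : (1 : ℝ) ≤ w := by
    have := abs_nonneg (Real.log c)
    linarith
  have hw0 : (0 : ℝ) < w := by linarith
  have hV0 : 0 < V := lt_of_lt_of_le (by positivity) hV1
  have hL0 : 0 < L := by rw [hL]; positivity
  have hkpos : 0 < k := by
    rw [hk]
    exact Nat.ceil_pos.mpr (by positivity)
  have hkR : (1 : ℝ) ≤ k := by exact_mod_cast hkpos
  have hk1 : (k : ℝ) ≤ L / V + 1 := by
    rw [hk]
    exact (Nat.ceil_lt_add_one (by positivity)).le
  have hkV : V * k ≤ L + V := by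
    calc V * k ≤ V * (L / V + 1) := mul_le_mul_of_nonneg_left hk1 hV0.le
      _ = L + V := by field_simp
  have hw30 : (1 : ℝ) ≤ w ^ 30 := one_le_pow₀ hw1
  have hk2 : (k : ℝ) ≤ 2 * w ^ 30 := by
    have h1 : L / V ≤ w ^ 30 := by
      rw [div_le_iff₀ hV0, hL]
      calc w ^ 32 = w ^ 30 * w ^ 2 := by ring
        _ ≤ w ^ 30 * V := mul_le_mul_of_nonneg_left hV1 (by positivity)
    linarith
  have hwexp : w ≤ Real.exp w := by
    have := Real.add_one_le_exp w
    linarith
  have hlogw : Real.log w ≤ w := by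
    have := Real.log_le_sub_one_of_pos hw0
    linarith
  -- factor 1
  have f1 : Real.exp (2 * a * V * k) ≤ Real.exp (3 / 8 * (w ^ 32 + w ^ 16)) := by
    apply Real.exp_le_exp.mpr
    have h1 : V * k ≤ w ^ 32 + w ^ 16 := by rw [← hL]; linarith
    have h0 : 0 ≤ V * k := by positivity
    calc 2 * a * V * k = 2 * a * (V * k) := by ring
      _ ≤ 2 * (3 / 16) * (w ^ 32 + w ^ 16) := by
          apply mul_le_mul (by linarith) h1 h0 (by norm_num)
      _ = 3 / 8 * (w ^ 32 + w ^ 16) := by ring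
  -- factor 2
  have f2 : ((2 * k).factorial : ℝ) * Real.exp 2 ^ k ≤ Real.exp (132 * w ^ 31) := by
    have h1 : ((2 * k).factorial : ℝ) ≤ (2 * (k : ℝ)) ^ (2 * k) := by
      have := Nat.factorial_le_pow (2 * k)
      exact_mod_cast this
    have h2 : (2 * (k : ℝ)) ^ (2 * k) = Real.exp (2 * k * Real.log (2 * k)) := by
      have h2k : (0 : ℝ) < 2 * k := by positivity
      rw [← Real.exp_log h2k, ← Real.exp_nat_mul, Real.exp_log h2k]
      push_cast
      ring_nf
    have h3 : Real.exp 2 ^ k = Real.exp (2 * k) := by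
      rw [← Real.exp_nat_mul]
      ring_nf
    have h4 : Real.log (2 * k) ≤ 2 + 30 * w := by
      have h5 : Real.log (2 * k) ≤ Real.log (4 * w ^ 30) :=
        Real.log_le_log (by positivity) (by linarith)
      have h6 : Real.log (4 * w ^ 30) = 2 * Real.log 2 + 30 * Real.log w := by
        rw [Real.log_mul (by norm_num) (by positivity), Real.log_pow,
          show (4 : ℝ) = 2 ^ 2 by norm_num, Real.log_pow]
        push_cast
        ring
      have h7 : Real.log 2 ≤ 1 := by
        have := Real.log_two_lt_d9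
        linarith
      linarith
    have h8 : 0 ≤ Real.log (2 * k) := Real.log_nonneg (by linarith)
    calc ((2 * k).factorial : ℝ) * Real.exp 2 ^ k ≤ (2 * (k : ℝ)) ^ (2 * k) * Real.exp 2 ^ k :=
          mul_le_mul_of_nonneg_right h1 (by positivity)
      _ = Real.exp (2 * k * (1 + Real.log (2 * k))) := by
          rw [h2, h3, ← Real.exp_add]
          ring_nf
      _ ≤ Real.exp (132 * w ^ 31) := by
          apply Real.exp_le_exp.mpr
          calc 2 * (k : ℝ) * (1 + Real.log (2 * k)) ≤ 2 * (2 * w ^ 30) * (33 * w) := by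
                apply mul_le_mul (by linarith) (by linarith) (by linarith) (by positivity)
            _ = 132 * w ^ 31 := by ring
  -- factor 3
  have f3 : 1 + (k : ℝ) * (1 + V) ≤ Real.exp (2 + 46 * w) := by
    have h1 : 1 + (k : ℝ) * (1 + V) ≤ 5 * w ^ 46 := by
      have h2 : (k : ℝ) * (1 + V) ≤ 2 * w ^ 30 * (2 * w ^ 16) := by
        apply mul_le_mul hk2 _ (by positivity) (by positivity)
        have : (1 : ℝ) ≤ w ^ 16 := one_le_pow₀ hw1
        linarith
      have h3 : 2 * w ^ 30 * (2 * w ^ 16) = 4 * w ^ 46 := by ring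
      have h4 : (1 : ℝ) ≤ w ^ 46 := one_le_pow₀ hw1
      linarith
    have h5 : (5 : ℝ) ≤ Real.exp 2 := by
      have a1 : (2.7 : ℝ) ≤ Real.exp 1 := by
        have := Real.exp_one_gt_d9
        linarith
      have a2 : Real.exp 2 = Real.exp 1 * Real.exp 1 := by
        rw [← Real.exp_add]; norm_num
      rw [a2]
      nlinarith
    have h6 : w ^ 46 ≤ Real.exp (46 * w) := by
      calc w ^ 46 ≤ Real.exp w ^ 46 := pow_le_pow_left₀ hw0.le hwexp 46
        _ = Real.exp (46 * w) := by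
            rw [← Real.exp_nat_mul]
            norm_num
    calc 1 + (k : ℝ) * (1 + V) ≤ 5 * w ^ 46 := h1
      _ ≤ Real.exp 2 * Real.exp (46 * w) := mul_le_mul h5 h6 (by positivity) (by positivity)
      _ = Real.exp (2 + 46 * w) := by rw [Real.exp_add]
  have fc : c ≤ Real.exp |Real.log c| := by
    calc c = Real.exp (Real.log c) := (Real.exp_log hc).symm
      _ ≤ Real.exp |Real.log c| := Real.exp_le_exp.mpr (le_abs_self _)
  calc Real.exp (2 * a * V * k) * (c * (2 * k).factorial * Real.exp 2 ^ k * (1 + k * (1 + V)))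
      = Real.exp (2 * a * V * k) * (c * (((2 * k).factorial : ℝ) * Real.exp 2 ^ k) *
          (1 + k * (1 + V))) := by ring
    _ ≤ Real.exp (3 / 8 * (w ^ 32 + w ^ 16)) * (Real.exp |Real.log c| * Real.exp (132 * w ^ 31) *
          Real.exp (2 + 46 * w)) := by
        apply mul_le_mul f1 _ (by positivity) (by positivity)
        apply mul_le_mul _ f3 (by positivity) (by positivity)
        exact mul_le_mul fc f2 (by positivity) (by positivity)
    _ = Real.exp (3 / 8 * (w ^ 32 + w ^ 16) + (|Real.log c| + 132 * w ^ 31 + (2 + 46 * w))) := by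
        rw [← Real.exp_add, ← Real.exp_add, ← Real.exp_add]
    _ ≤ Real.exp (2 / 5 * L - 1 - 32 * w) := by
        apply Real.exp_le_exp.mpr
        rw [hL]
        have p31 : (1 : ℝ) ≤ w ^ 31 := one_le_pow₀ hw1
        have q1 : w ^ 16 ≤ w ^ 31 := pow_le_pow_right₀ hw1 (by norm_num)
        have q2 : w ≤ w ^ 31 := by
          calc w = w ^ 1 := (pow_one w).symm
            _ ≤ w ^ 31 := pow_le_pow_right₀ hw1 (by norm_num)
        have q3 : |Real.log c| ≤ |Real.log c| * w ^ 31 :=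
          le_mul_of_one_le_right (abs_nonneg _) p31
        have q4 : (214 + |Real.log c|) * w ^ 31 ≤ w ^ 32 / 40 := by
          calc (214 + |Real.log c|) * w ^ 31 ≤ (w / 40) * w ^ 31 :=
                mul_le_mul_of_nonneg_right (by linarith) (by positivity)
            _ = w ^ 32 / 40 := by ring
        have q5 : (214 + |Real.log c|) * w ^ 31 = 214 * w ^ 31 + |Real.log c| * w ^ 31 := by ring
        linarith

/-- Each `t ∈ W` has `v ∈ I_J` with `‖Q_v(t)‖ > e^{-a_J V}`, `V = v/H_J ∈ [p_J, q_J]`. For each `v`: `count` with `z = e^V`, `k = ⌈log X/V⌉`, `T = X ≤ z^k`: `#W_v e^{-2a_J V k} ≤ C (2k)! e^{2k} (1 + k(1+V))`, `a_J ≤ 3/16`, `Vk ≤ log X + V ≤ log X + √log X`,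
`k ≤ (log X)^{15/16} + 1` since `V ≥ p_J > (log X)^{1/16}`, so `(2k)! e^{2k} ≤ e^{2k(1+log 2k)} = X^{o(1)}`; `|I_J| ≤ H_J q_J + 1 ≤ (log X)^2`. Total `≤ X^{3/8 + o(1)}`. -/
theorem exc (K : ℕ) (hK : 1 ≤ K) : ∃ X₀ : ℝ, ∀ (f : ℕ → ℂ) (X : ℝ) (J : ℕ) (W : Finset ℝ), CM f → X₀ ≤ X →
    (qj K J : ℝ) ≤ Real.sqrt (Real.log X) → Real.log X < (pj K J : ℝ) ^ 16 → WS W →
    (∀ t ∈ W, |t| ≤ X ∧ ¬ Small f K J t) → (W.card : ℝ) ≤ X ^ (2 / 5 : ℝ) := by
  classical
  obtain ⟨c, hc, hcount⟩ := count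
  set w₀ : ℝ := 40 * (214 + |Real.log c|) with hw₀
  refine ⟨Real.exp (w₀ ^ 32), ?_⟩
  intro f X J W hf hX hq hp hWS hW
  have hw₀1 : (1 : ℝ) ≤ w₀ := by
    have := abs_nonneg (Real.log c)
    rw [hw₀]
    linarith
  have hXpos : 0 < X := lt_of_lt_of_le (Real.exp_pos _) hX
  set L : ℝ := Real.log X with hLdef
  have hL1 : w₀ ^ 32 ≤ L := by
    rw [hLdef, Real.le_log_iff_exp_le hXpos]
    exact hX
  have hL0 : 0 ≤ L := le_trans (by positivity) hL1
  set w : ℝ := L ^ ((1 : ℝ) / 32) with hwdef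
  have hwnn : 0 ≤ w := Real.rpow_nonneg hL0 _
  have hLw : L = w ^ 32 := by
    rw [hwdef, ← Real.rpow_natCast, ← Real.rpow_mul hL0]
    norm_num
  have hww : w₀ ≤ w := by
    rw [hLw] at hL1
    exact le_of_pow_le_pow_left₀ (by norm_num) hwnn hL1
  have hw1 : (1 : ℝ) ≤ w := hw₀1.trans hww
  have hsq : Real.sqrt L = w ^ 16 := by
    rw [hLw, show w ^ 32 = (w ^ 16) ^ 2 by ring]
    exact Real.sqrt_sq (by positivity)
  rw [hsq] at hq
  have hpw : w ^ 2 ≤ pj K J := by
    rw [hLw, show w ^ 32 = (w ^ 2) ^ 16 by ring] at hp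
    exact (lt_of_pow_lt_pow_left₀ 16 (by positivity) hp).le
  have hX1 : 1 ≤ X := by
    refine le_trans ?_ hX
    exact Real.one_le_exp (by positivity)
  have hH : 1 ≤ Hj K J := by
    unfold Hj
    exact Nat.mul_pos hK (by positivity)
  have hH0 : (0 : ℝ) < Hj K J := by exact_mod_cast hH
  have ha : aj J ≤ 3 / 16 := by
    unfold aj
    have : (0 : ℝ) ≤ (1 / 2) ^ J := by positivity
    linarith
  have ha0 : 0 ≤ aj J := by
    unfold aj
    have : ((1 : ℝ) / 2) ^ J ≤ 1 := pow_le_one₀ (by norm_num) (by norm_num)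
    linarith
  set Wv : ℕ → Finset ℝ := fun v => W.filter (fun t =>
    Real.exp (-(aj J * ((v : ℝ) / Hj K J))) < ‖Qv f (Pj K J) (Hj K J) v t‖) with hWv
  have hcover : W ⊆ (Ij K J).biUnion Wv := by
    intro t ht
    have h := (hW t ht).2
    unfold Small at h
    push Not at h
    obtain ⟨v, hv, hlt⟩ := h
    exact mem_biUnion.mpr ⟨v, hv, mem_filter.mpr ⟨ht, hlt⟩⟩
  have hone : ∀ v ∈ Ij K J, ((Wv v).card : ℝ) ≤ Real.exp (2 / 5 * L - 1 - 32 * w) := by
    intro v hv
    unfold Ij at hv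
    rw [mem_Icc] at hv
    set V : ℝ := (v : ℝ) / Hj K J with hV
    have hV1 : (pj K J : ℝ) ≤ V := by
      rw [hV, le_div_iff₀ hH0]
      have : ((Hj K J * pj K J : ℕ) : ℝ) ≤ v := by exact_mod_cast hv.1
      push_cast at this
      linarith
    have hV2 : V ≤ qj K J := by
      rw [hV, div_le_iff₀ hH0]
      have : (v : ℝ) ≤ ((Hj K J * qj K J : ℕ) : ℝ) := by exact_mod_cast hv.2
      push_cast at this
      linarith
    have hV0 : 0 < V := lt_of_lt_of_le (by positivity) (hpw.trans hV1)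
    set k : ℕ := ⌈L / V⌉₊ with hk
    have hkV : L ≤ k * V := by
      have := Nat.le_ceil (L / V)
      rw [div_le_iff₀ hV0] at this
      exact this
    have hTz : X ≤ Real.exp V ^ k := by
      rw [← Real.exp_nat_mul, ← Real.log_le_iff_le_exp hXpos]
      exact hkV
    have hcnt := hcount ((Pj K J).filter (fun p => ix (Hj K J) p = v)) f (Real.exp V) X k (Wv v)
      (Real.one_le_exp hV0.le)
      (by
        intro p hpm
        rw [mem_filter] at hpm
        have hpp : p.Prime := by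
          have := hpm.1
          unfold Pj pr at this
          exact (mem_filter.mp this).2
        exact ⟨hpp, exc_ix hH hpp hpm.2⟩)
      hf.bdd hX1 hTz
      (by
        intro s hs t ht hst
        exact hWS s (mem_filter.mp hs).1 t (mem_filter.mp ht).1 hst)
      (fun t ht => (hW t (mem_filter.mp ht).1).1)
    rw [Real.log_exp] at hcnt
    have hlow : ((Wv v).card : ℝ) * Real.exp (-(2 * aj J * V * k)) ≤
        ∑ t ∈ Wv v, ‖dp ((Pj K J).filter (fun p => ix (Hj K J) p = v)) (fun p => f p / p) t‖ ^ (2 * k) := by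
      rw [← nsmul_eq_mul]
      apply Finset.card_nsmul_le_sum
      intro t ht
      have h1 := (mem_filter.mp ht).2
      have h2 : Real.exp (-(2 * aj J * V * k)) = Real.exp (-(aj J * V)) ^ (2 * k) := by
        rw [← Real.exp_nat_mul]
        congr 1
        push_cast
        ring
      rw [h2]
      exact pow_le_pow_left₀ (Real.exp_pos _).le h1.le _
    have hnum := exc_num c w L V k (aj J) hww hc hLw ha ha0 (hpw.trans hV1) (hV2.trans hq) hk
    calc ((Wv v).card : ℝ) = Real.exp (2 * aj J * V * k) *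
          (((Wv v).card : ℝ) * Real.exp (-(2 * aj J * V * k))) := by
          rw [mul_comm ((Wv v).card : ℝ), ← mul_assoc, ← Real.exp_add]
          simp
      _ ≤ Real.exp (2 * aj J * V * k) *
          (c * (2 * k).factorial * Real.exp 2 ^ k * (1 + k * (1 + V))) :=
          mul_le_mul_of_nonneg_left (hlow.trans hcnt) (Real.exp_pos _).le
      _ ≤ Real.exp (2 / 5 * L - 1 - 32 * w) := hnum
  have hI : ((Ij K J).card : ℝ) ≤ Real.exp (1 + 32 * w) := by
    have h1 : (Ij K J).card ≤ Hj K J * qj K J + 1 := by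
      unfold Ij
      rw [Nat.card_Icc]
      omega
    have h2 : Hj K J ≤ qj K J := by
      have e1 : Hj K J < pj K J := by
        unfold Hj pj
        exact Nat.lt_pow_self (by norm_num)
      have e2 : pj K J ≤ qj K J := by
        unfold qj
        exact Nat.le_self_pow (by norm_num) _
      omega
    have h3 : ((Ij K J).card : ℝ) ≤ (qj K J : ℝ) * qj K J + 1 := by
      have : (Ij K J).card ≤ qj K J * qj K J + 1 :=
        h1.trans (Nat.add_le_add_right (Nat.mul_le_mul_right _ h2) 1)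
      exact_mod_cast this
    have h4 : (qj K J : ℝ) * qj K J ≤ w ^ 16 * w ^ 16 :=
      mul_le_mul hq hq (by positivity) (by positivity)
    have h5 : (1 : ℝ) ≤ w ^ 32 := one_le_pow₀ hw1
    have h6 : w ^ 16 * w ^ 16 = w ^ 32 := by ring
    have hwexp : w ≤ Real.exp w := by
      have := Real.add_one_le_exp w
      linarith
    have h7 : w ^ 32 ≤ Real.exp (32 * w) := by
      calc w ^ 32 ≤ Real.exp w ^ 32 := pow_le_pow_left₀ hwnn hwexp 32
        _ = Real.exp (32 * w) := by
            rw [← Real.exp_nat_mul]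
            norm_num
    have h8 : (2 : ℝ) ≤ Real.exp 1 := by
      have := Real.add_one_le_exp (1 : ℝ)
      linarith
    calc ((Ij K J).card : ℝ) ≤ 2 * w ^ 32 := by linarith
      _ ≤ Real.exp 1 * Real.exp (32 * w) := mul_le_mul h8 h7 (by positivity) (by positivity)
      _ = Real.exp (1 + 32 * w) := by rw [Real.exp_add]
  have hsum : (W.card : ℝ) ≤ ∑ v ∈ Ij K J, ((Wv v).card : ℝ) := by
    have h1 : W.card ≤ ∑ v ∈ Ij K J, (Wv v).card := (card_le_card hcover).trans card_biUnion_le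
    exact_mod_cast h1
  calc (W.card : ℝ) ≤ ∑ v ∈ Ij K J, ((Wv v).card : ℝ) := hsum
    _ ≤ ∑ _v ∈ Ij K J, Real.exp (2 / 5 * L - 1 - 32 * w) := Finset.sum_le_sum hone
    _ = ((Ij K J).card : ℝ) * Real.exp (2 / 5 * L - 1 - 32 * w) := by
        rw [Finset.sum_const, nsmul_eq_mul]
    _ ≤ Real.exp (1 + 32 * w) * Real.exp (2 / 5 * L - 1 - 32 * w) :=
        mul_le_mul_of_nonneg_right hI (Real.exp_pos _).le
    _ = X ^ (2 / 5 : ℝ) := by
        rw [← Real.exp_add, Real.rpow_def_of_pos hXpos, ← hLdef]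
        congr 1
        ring

end Pool.Agent.Mrd
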