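import Pool.Agent.Mrd.Defs
import Pool.Agent.PEt.BL

/-!
Mrd ZS: `∑_{M < n ≤ N} (n + θ)^{-iτ}`, small and medium `τ`.
-/

set_option autoImplicit false

namespace Pool.Agent.Mrd

open Finset MeasureTheory Filter Topology

private theorem Zs_reindex (θ τ : ℝ) (M N : ℕ) :
    zs θ τ M N = ∑ n ∈ Finset.Icc ((M : ℤ) + 1) (N : ℤ),
      Pool.Agent.PEt.e (-(τ * Real.log ((n : ℝ) + θ)) / (2 * Real.pi)) := by
  unfold zs
  refine Finset.sum_bij (fun (n : ℕ) _ => (n : ℤ)) ?_ ?_ ?_ ?_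
  · intro n hn
    rw [Finset.mem_Ioc] at hn
    rw [Finset.mem_Icc]
    omega
  · intro a _ b _ h
    exact_mod_cast h
  · intro b hb
    rw [Finset.mem_Icc] at hb
    refine ⟨b.toNat, ?_, ?_⟩
    · rw [Finset.mem_Ioc]; omega
    · have : (0 : ℤ) ≤ b := by omega
      exact Int.toNat_of_nonneg this
  · intro n _
    unfold Pool.Agent.PEt.e
    congr 1
    have hpi : (Real.pi : ℂ) ≠ 0 := by exact_mod_cast Real.pi_ne_zero
    push_cast
    field_simp

private theorem Zs_deriv (θ τ u : ℝ) (hu : 0 < u + θ) :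
    HasDerivAt (fun u => -(τ * Real.log (u + θ)) / (2 * Real.pi))
      (-τ / (2 * Real.pi) * (1 / (u + θ))) u := by
  have h1 : HasDerivAt (fun u : ℝ => u + θ) 1 u := (hasDerivAt_id u).add_const θ
  have h2 := (((h1.log hu.ne').const_mul τ).neg).div_const (2 * Real.pi)
  refine h2.congr_deriv ?_
  ring

private theorem Zs_deriv2 (θ τ u : ℝ) (hu : 0 < u + θ) :
    HasDerivAt (fun u => -τ / (2 * Real.pi) * (1 / (u + θ)))
      (τ / (2 * Real.pi) * (1 / (u + θ) ^ 2)) u := by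
  have h1 : HasDerivAt (fun u : ℝ => u + θ) 1 u := (hasDerivAt_id u).add_const θ
  have h2 := (h1.inv hu.ne').const_mul (-τ / (2 * Real.pi))
  simp only [one_div]
  refine h2.congr_deriv ?_
  field_simp

/-- `Pool.Agent.PEt.kusmin_landau` for `f(u) = -τ log(u+θ)/(2π)`, `f' = -τ/(2π(u+θ))` is monotone, and
`|τ|/(2π·9M) ≤ |f'| ≤ |τ|/(2πM) ≤ 1/(2π)`; `δ = |τ|/(18πM) ≤ 1/2`, `m = 0` or `-1`. -/
theorem zs_small : ∃ C : ℝ, 0 < C ∧ ∀ (θ τ : ℝ) (M N : ℕ), 0 ≤ θ → θ ≤ 1 → 1 ≤ M → M ≤ N →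
    N ≤ 8 * M → 0 < |τ| → |τ| ≤ M → ‖zs θ τ M N‖ ≤ C * (M / |τ|) := by
  refine ⟨72 * Real.pi, by positivity, ?_⟩
  intro θ τ M N hθ hθ' hM hMN hN hτ hτM
  have hM' : (1 : ℝ) ≤ M := by exact_mod_cast hM
  have hN' : (N : ℝ) ≤ 8 * M := by exact_mod_cast hN
  have hpi := Real.pi_gt_three
  rw [Zs_reindex]
  set δ := |τ| / (18 * Real.pi * M) with hδ
  have hδ0 : 0 < δ := by positivity
  have hδ1 : δ ≤ 1 / 2 := by
    rw [hδ, div_le_iff₀ (by positivity)]
    nlinarith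
  have hrange : ∀ u ∈ Set.Icc (((M : ℤ) + 1 : ℤ) : ℝ) ((N : ℤ) : ℝ),
      (M : ℝ) ≤ u + θ ∧ u + θ ≤ 9 * M := by
    intro u hu
    have h1 := hu.1
    have h2 := hu.2
    push_cast at h1 h2
    constructor <;> linarith
  have habs : ∀ u ∈ Set.Icc (((M : ℤ) + 1 : ℤ) : ℝ) ((N : ℤ) : ℝ),
      δ ≤ |τ| / (2 * Real.pi) * (1 / (u + θ)) ∧
      |τ| / (2 * Real.pi) * (1 / (u + θ)) ≤ 1 - δ := by
    intro u hu
    obtain ⟨h1, h2⟩ := hrange u hu
    have h0 : 0 < u + θ := by linarith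
    constructor
    · rw [hδ, mul_one_div, div_div, div_le_div_iff₀ (by positivity) (by positivity)]
      have : 2 * Real.pi * (u + θ) ≤ 18 * Real.pi * M := by nlinarith
      exact mul_le_mul_of_nonneg_left this hτ.le
    · have h3 : |τ| / (2 * Real.pi) * (1 / (u + θ)) ≤ 1 / 2 := by
        rw [mul_one_div, div_div, div_le_iff₀ (by positivity)]
        nlinarith
      linarith
  have hkl := Pool.Agent.PEt.kusmin_landau (M := (M : ℤ) + 1) (N := (N : ℤ))
    (f := fun u => -(τ * Real.log (u + θ)) / (2 * Real.pi))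
    (f' := fun u => -τ / (2 * Real.pi) * (1 / (u + θ))) (δ := δ) hδ0 hδ1
  have hder : ∀ u ∈ Set.Icc (((M : ℤ) + 1 : ℤ) : ℝ) ((N : ℤ) : ℝ),
      HasDerivAt (fun u => -(τ * Real.log (u + θ)) / (2 * Real.pi))
      (-τ / (2 * Real.pi) * (1 / (u + θ))) u := by
    intro u hu
    exact Zs_deriv θ τ u (by linarith [(hrange u hu).1])
  have hinv : AntitoneOn (fun u : ℝ => 1 / (u + θ))
      (Set.Icc (((M : ℤ) + 1 : ℤ) : ℝ) ((N : ℤ) : ℝ)) := by
    intro a ha b _ hab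
    have := (hrange a ha).1
    exact one_div_le_one_div_of_le (by linarith) (by linarith)
  have hfin : ∀ S : ℝ, S ≤ 4 / δ → S ≤ 72 * Real.pi * (M / |τ|) := by
    intro S hS
    refine hS.trans (le_of_eq ?_)
    rw [hδ]
    field_simp
    norm_num
  rcases le_or_gt 0 τ with h0 | h0
  · have habsτ : |τ| = τ := abs_of_nonneg h0
    refine hfin _ (hkl hder (Or.inl ?_) (-1) ?_)
    · intro a ha b hb hab
      have h1 := hinv ha hb hab
      have h2 : -τ / (2 * Real.pi) ≤ 0 := div_nonpos_of_nonpos_of_nonneg (by linarith) (by positivity)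
      exact mul_le_mul_of_nonpos_left h1 h2
    · intro u hu
      have h1 := habs u hu
      rw [habsτ] at h1
      have h2 : -τ / (2 * Real.pi) * (1 / (u + θ)) = -(τ / (2 * Real.pi) * (1 / (u + θ))) := by ring
      simp only [h2]
      push_cast
      constructor <;> linarith
  · have habsτ : |τ| = -τ := abs_of_neg h0
    refine hfin _ (hkl hder (Or.inr ?_) 0 ?_)
    · intro a ha b hb hab
      have h1 := hinv ha hb hab
      have h2 : 0 ≤ -τ / (2 * Real.pi) := div_nonneg (by linarith) (by positivity)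
      exact mul_le_mul_of_nonneg_left h1 h2
    · intro u hu
      have h1 := habs u hu
      rw [habsτ] at h1
      push_cast
      constructor <;> linarith

/-- `Pool.Agent.PEt.second_deriv` with `Λ = |τ|/(2π·81M²)`, `A = 81` (`f'' = τ/(2π(u+θ)²)`): the bound is
`C((N-M)√Λ + 1/√Λ + 1) ≤ C'(√|τ| + M/√|τ| + 1) ≤ C''√|τ|` since `|τ| ≥ M ≥ 1`. -/
theorem zs_second : ∃ C : ℝ, 0 < C ∧ ∀ (θ τ : ℝ) (M N : ℕ), 0 ≤ θ → θ ≤ 1 → 1 ≤ M → M ≤ N →
    N ≤ 8 * M → (M : ℝ) ≤ |τ| → ‖zs θ τ M N‖ ≤ C * Real.sqrt |τ| := by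
  obtain ⟨C, hC, hmain⟩ := Pool.Agent.PEt.second_deriv (A := 81) (by norm_num)
  obtain ⟨k, hk⟩ : ∃ k, k = Real.sqrt (162 * Real.pi) := ⟨_, rfl⟩
  have hk1 : 1 ≤ k := by
    rw [hk, Real.one_le_sqrt]
    nlinarith [Real.pi_gt_three]
  have hkk : k * k = 162 * Real.pi := by rw [hk]; exact Real.mul_self_sqrt (by positivity)
  refine ⟨C * (7 + k + 1), by positivity, ?_⟩
  intro θ τ M N hθ hθ' hM hMN hN hτM
  have hM' : (1 : ℝ) ≤ M := by exact_mod_cast hM
  have hN' : (N : ℝ) ≤ 8 * M := by exact_mod_cast hN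
  have hpi := Real.pi_gt_three
  have hτ : 0 < |τ| := by linarith
  have hτ1 : 1 ≤ |τ| := by linarith
  rcases Nat.lt_or_ge N (M + 1) with hlt | hge
  · have : zs θ τ M N = 0 := by
      unfold zs
      rw [Finset.Ioc_eq_empty_of_le (by omega), Finset.sum_empty]
    rw [this, norm_zero]
    positivity
  set Λ := |τ| / (162 * Real.pi * M ^ 2) with hΛ
  have hΛ0 : 0 < Λ := by positivity
  have hrange : ∀ u ∈ Set.Icc (((M : ℤ) + 1 : ℤ) : ℝ) ((N : ℤ) : ℝ),
      (M : ℝ) ≤ u + θ ∧ u + θ ≤ 9 * M := by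
    intro u hu
    have h1 := hu.1
    have h2 := hu.2
    push_cast at h1 h2
    constructor <;> linarith
  have habs : ∀ u ∈ Set.Icc (((M : ℤ) + 1 : ℤ) : ℝ) ((N : ℤ) : ℝ),
      Λ ≤ |τ| / (2 * Real.pi) * (1 / (u + θ) ^ 2) ∧
      |τ| / (2 * Real.pi) * (1 / (u + θ) ^ 2) ≤ 81 * Λ := by
    intro u hu
    obtain ⟨h1, h2⟩ := hrange u hu
    have h0 : 0 < u + θ := by linarith
    have hM0 : (0 : ℝ) < M := by linarith
    constructor
    · rw [hΛ, mul_one_div, div_div, div_le_div_iff₀ (by positivity) (by positivity)]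
      have h3 : (u + θ) ^ 2 ≤ 81 * (M : ℝ) ^ 2 := by nlinarith
      have : 2 * Real.pi * (u + θ) ^ 2 ≤ 162 * Real.pi * M ^ 2 := by nlinarith
      exact mul_le_mul_of_nonneg_left this hτ.le
    · have h3 : (M : ℝ) ^ 2 ≤ (u + θ) ^ 2 := by nlinarith
      have h4 : 81 * Λ = |τ| / (2 * Real.pi * M ^ 2) := by
        rw [hΛ]; field_simp; norm_num
      rw [h4, mul_one_div, div_div]
      apply div_le_div_of_nonneg_left hτ.le (by positivity)
      nlinarith
  have h := hmain ((M : ℤ) + 1) (N : ℤ)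
    (fun u => -(τ * Real.log (u + θ)) / (2 * Real.pi))
    (fun u => -τ / (2 * Real.pi) * (1 / (u + θ)))
    (fun u => τ / (2 * Real.pi) * (1 / (u + θ) ^ 2)) Λ (by omega) hΛ0
    (fun u hu => Zs_deriv θ τ u (by linarith [(hrange u hu).1]))
    (fun u hu => Zs_deriv2 θ τ u (by linarith [(hrange u hu).1])) (by
      rcases le_or_gt 0 τ with h0 | h0
      · left
        intro u hu
        have := habs u hu
        rw [abs_of_nonneg h0] at this
        exact this
      · right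
        intro u hu
        have := habs u hu
        rw [abs_of_neg h0] at this
        have h2 : -(τ / (2 * Real.pi) * (1 / (u + θ) ^ 2)) =
            -τ / (2 * Real.pi) * (1 / (u + θ) ^ 2) := by ring
        simp only [h2]
        exact this)
  rw [Zs_reindex]
  refine h.trans ?_
  rw [mul_assoc]
  refine mul_le_mul_of_nonneg_left ?_ hC.le
  have hs : Real.sqrt Λ = Real.sqrt |τ| / (k * M) := by
    have h1 : Λ = |τ| / (k * M) ^ 2 := by
      rw [hΛ, mul_pow, ← hkk]; ring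
    rw [h1, Real.sqrt_div hτ.le, Real.sqrt_sq (by positivity)]
  have hsτ : 1 ≤ Real.sqrt |τ| := by rw [Real.one_le_sqrt]; exact hτ1
  have hss : Real.sqrt |τ| * Real.sqrt |τ| = |τ| := Real.mul_self_sqrt hτ.le
  have hM0 : (0 : ℝ) < M := by linarith
  have hk0 : 0 < k := by linarith
  have t1 : (((N : ℤ) : ℝ) - (((M : ℤ) + 1 : ℤ) : ℝ)) * Real.sqrt Λ ≤ 7 * Real.sqrt |τ| := by
    rw [hs]
    push_cast
    have h1 : Real.sqrt |τ| / (k * M) ≤ Real.sqrt |τ| / M := by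
      apply div_le_div_of_nonneg_left (by positivity) hM0
      nlinarith
    have h2 : (N : ℝ) - (M + 1) ≤ 7 * M := by linarith
    have h3 : (0:ℝ) ≤ (N : ℝ) - (M + 1) := by
      have : ((M + 1 : ℕ) : ℝ) ≤ N := by exact_mod_cast hge
      push_cast at this
      linarith
    calc ((N : ℝ) - (M + 1)) * (Real.sqrt |τ| / (k * M))
        ≤ (7 * M) * (Real.sqrt |τ| / M) := mul_le_mul h2 h1 (by positivity) (by positivity)
      _ = 7 * Real.sqrt |τ| := by field_simp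
  have t2 : 1 / Real.sqrt Λ ≤ k * Real.sqrt |τ| := by
    rw [hs, one_div_div, div_le_iff₀ (by positivity), mul_assoc, hss]
    exact mul_le_mul_of_nonneg_left hτM hk0.le
  linarith

end Pool.Agent.Mrd
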