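import Pool.Agent.Mrd.Dual
import Pool.Agent.Mrd.Zs

/-!
Mrd LARGE: large values (Halasz-Montgomery type inequality).
-/

set_option autoImplicit false

namespace Pool.Agent.Mrd

open Finset MeasureTheory Filter Topology

private theorem large_ker (M K : ℕ) (τ : ℝ) :
    ∑ n ∈ Ioc M K, (((1 : ℝ) : ℝ) : ℂ) * tw τ n = zs 0 τ M K := by
  unfold zs tw
  refine Finset.sum_congr rfl fun n _ => ?_
  rw [Complex.ofReal_one, one_mul, add_zero]

/-- `dual` with `S' = {n : N < n ≤ 4N}`, `w = 1`. Diagonal `≤ 4N + 1 ≤ 5N`. For `t' ≠ t`, `τ = t' - t`, `1 ≤ |τ| ≤ 2X`: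
`∑_{N<n≤4N} n^{-iτ} = zs 0 τ ⌊N⌋ ⌊4N⌋` (`⌊4N⌋ ≤ 4⌊N⌋ + 4 ≤ 8⌊N⌋`), `≤ C ⌊N⌋/|τ|` for `|τ| ≤ ⌊N⌋` (`zs_small`) and `≤ C √|τ| ≤ C √(2X)` else
(`zs_second`). Sum over `t'` with `ws_harm`. -/
theorem large_values : ∃ C : ℝ, 0 < C ∧ ∀ (N X : ℝ) (S : Finset ℕ) (a : ℕ → ℂ) (W : Finset ℝ),
    1 ≤ N → N ≤ X → (∀ n ∈ S, N < n ∧ (n : ℝ) ≤ 4 * N) → WS W → (∀ t ∈ W, |t| ≤ X) →
    ∑ t ∈ W, ‖dp S a t‖ ^ 2 ≤
      C * (N * (1 + Real.log (1 + W.card)) + W.card * Real.sqrt X) * ∑ n ∈ S, ‖a n‖ ^ 2 := by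
  obtain ⟨C1, hC1, hz1⟩ := zs_small
  obtain ⟨C2, hC2, hz2⟩ := zs_second
  refine ⟨4 + 2 * C1 + 2 * C2, by positivity, ?_⟩
  intro N X S a W hN hNX hS hW hX
  obtain ⟨M, hM⟩ : ∃ M : ℕ, M = ⌊N⌋₊ := ⟨_, rfl⟩
  obtain ⟨K, hK⟩ : ∃ K : ℕ, K = ⌊4 * N⌋₊ := ⟨_, rfl⟩
  have hN0 : 0 ≤ N := by linarith
  have hM1 : 1 ≤ M := by
    rw [hM]
    exact Nat.le_floor (by exact_mod_cast hN)
  have hMN : (M : ℝ) ≤ N := by
    rw [hM]
    exact Nat.floor_le hN0
  have hNM : N < M + 1 := by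
    rw [hM]
    exact Nat.lt_floor_add_one N
  have hKN : (K : ℝ) ≤ 4 * N := by
    rw [hK]
    exact Nat.floor_le (by linarith)
  have hMK : M ≤ K := by
    rw [hM, hK]
    exact Nat.floor_le_floor (by linarith)
  have hK8 : K ≤ 8 * M := by
    have h : (K : ℝ) < ((4 * M + 4 : ℕ) : ℝ) := by
      push_cast
      linarith
    have h' : K < 4 * M + 4 := by exact_mod_cast h
    omega
  have hlog : 0 ≤ Real.log (1 + W.card) := Real.log_nonneg (by
    have : (0 : ℝ) ≤ (W.card : ℝ) := Nat.cast_nonneg _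
    linarith)
  have hX0 : 0 ≤ Real.sqrt X := Real.sqrt_nonneg X
  have hWc : (0 : ℝ) ≤ (W.card : ℝ) := Nat.cast_nonneg _
  -- the kernel at `0`
  have hdiag : ‖zs 0 0 M K‖ ≤ 4 * N := by
    unfold zs
    refine (norm_sum_le _ _).trans ?_
    have h1 : ∀ n ∈ Ioc M K,
        ‖Complex.exp (-(((0 : ℝ) * Real.log (n + (0 : ℝ)) : ℝ) : ℂ) * Complex.I)‖ = 1 := by
      intro n _
      simp
    rw [Finset.sum_congr rfl h1, Finset.sum_const, Nat.card_Ioc, nsmul_eq_mul, mul_one]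
    have h2 : ((K - M : ℕ) : ℝ) ≤ (K : ℝ) := by exact_mod_cast Nat.sub_le K M
    linarith
  -- the kernel away from `0`
  have hoff : ∀ τ : ℝ, 1 ≤ |τ| → |τ| ≤ 2 * X →
      ‖zs 0 τ M K‖ ≤ C1 * N * (1 / |τ|) + 2 * C2 * Real.sqrt X := by
    intro τ h1 h2
    have hτ : 0 < |τ| := by linarith
    rcases le_total |τ| (M : ℝ) with h | h
    · have h3 := hz1 0 τ M K le_rfl zero_le_one hM1 hMK hK8 hτ h
      have h4 : C1 * ((M : ℝ) / |τ|) ≤ C1 * N * (1 / |τ|) := by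
        rw [mul_assoc, mul_one_div]
        gcongr
      have h5 : 0 ≤ 2 * C2 * Real.sqrt X := by positivity
      linarith
    · have h3 := hz2 0 τ M K le_rfl zero_le_one hM1 hMK hK8 h
      have h4 : Real.sqrt |τ| ≤ 2 * Real.sqrt X := by
        have h5 : Real.sqrt |τ| ≤ Real.sqrt (2 ^ 2 * X) := Real.sqrt_le_sqrt (by nlinarith)
        rwa [Real.sqrt_mul (by norm_num), Real.sqrt_sq (by norm_num)] at h5
      have h5 : C2 * Real.sqrt |τ| ≤ 2 * C2 * Real.sqrt X := by nlinarith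
      have h6 : 0 ≤ C1 * N * (1 / |τ|) := by positivity
      linarith
  have key := dual S (Ioc M K) ?_ (fun _ => (1 : ℝ)) (fun _ _ => zero_le_one) (fun _ _ => le_rfl) W
    ((4 + 2 * C1 + 2 * C2) * (N * (1 + Real.log (1 + W.card)) + W.card * Real.sqrt X))
    (by positivity) ?_ a
  · exact key
  · intro n hn
    obtain ⟨h1, h2⟩ := hS n hn
    rw [Finset.mem_Ioc]
    refine ⟨?_, ?_⟩
    · have : (M : ℝ) < n := lt_of_le_of_lt hMN h1
      exact_mod_cast this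
    · rw [hK]
      exact Nat.le_floor h2
  · intro t ht
    have h1 : ∀ t' : ℝ, ‖∑ n ∈ Ioc M K, ((((fun _ => (1 : ℝ)) n : ℝ)) : ℂ) * tw (t' - t) n‖ =
        ‖zs 0 (t' - t) M K‖ := by
      intro t'
      rw [← large_ker]
    rw [Finset.sum_congr rfl fun t' _ => h1 t', ← Finset.add_sum_erase W _ ht, sub_self]
    have h2 : ∑ t' ∈ W.erase t, ‖zs 0 (t' - t) M K‖ ≤
        ∑ t' ∈ W.erase t, (C1 * N * (1 / |t' - t|) + 2 * C2 * Real.sqrt X) := by
      refine Finset.sum_le_sum fun t' ht' => ?_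
      obtain ⟨h3, h4⟩ := Finset.mem_erase.1 ht'
      refine hoff _ (hW t' h4 t ht h3) ?_
      have h5 := abs_sub t' t
      have h6 := hX t' h4
      have h7 := hX t ht
      linarith
    have h3 : ∑ t' ∈ W.erase t, (C1 * N * (1 / |t' - t|) + 2 * C2 * Real.sqrt X) ≤
        C1 * N * (2 * (1 + Real.log (1 + W.card))) + W.card * (2 * C2 * Real.sqrt X) := by
      rw [Finset.sum_add_distrib, ← Finset.mul_sum, Finset.sum_const, nsmul_eq_mul]
      have h4 := ws_harm W hW t ht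
      have h5 : C1 * N * ∑ t' ∈ W.erase t, 1 / |t' - t| ≤
          C1 * N * (2 * (1 + Real.log (1 + W.card))) :=
        mul_le_mul_of_nonneg_left h4 (by positivity)
      have h6 : (((W.erase t).card : ℕ) : ℝ) ≤ (W.card : ℝ) := by
        exact_mod_cast Finset.card_le_card (Finset.erase_subset t W)
      have h7 : (((W.erase t).card : ℕ) : ℝ) * (2 * C2 * Real.sqrt X) ≤
          (W.card : ℝ) * (2 * C2 * Real.sqrt X) :=
        mul_le_mul_of_nonneg_right h6 (by positivity)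
      linarith
    have h4 : 4 * N + (C1 * N * (2 * (1 + Real.log (1 + W.card))) +
        W.card * (2 * C2 * Real.sqrt X)) ≤
        (4 + 2 * C1 + 2 * C2) * (N * (1 + Real.log (1 + W.card)) + W.card * Real.sqrt X) := by
      obtain ⟨L, hL⟩ : ∃ L : ℝ, L = Real.log (1 + W.card) := ⟨_, rfl⟩
      obtain ⟨R, hR⟩ : ∃ R : ℝ, R = W.card * Real.sqrt X := ⟨_, rfl⟩
      have hR0 : 0 ≤ R := by rw [hR]; positivity
      have h5 : (W.card : ℝ) * (2 * C2 * Real.sqrt X) = 2 * C2 * R := by rw [hR]; ring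
      rw [h5, ← hR, ← hL]
      rw [← hL] at hlog
      have e1 : 0 ≤ N * L := by positivity
      have e2 : 0 ≤ C2 * (N * (1 + L)) := by positivity
      have e3 : 0 ≤ C1 * R := by positivity
      nlinarith
    linarith

end Pool.Agent.Mrd
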