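import Pool.Agent.Mrd.Maj
import Pool.Agent.Mrd.Dual

/-!
Mrd PLARGE: mean values of prime polynomials over well spaced sets.
-/

set_option autoImplicit false

namespace Pool.Agent.Mrd

open Finset MeasureTheory Filter Topology

/-- `dual` with `S' = Icc 1 ⌊4y⌋` and the majorant of `maj`; row sums by `ws_sq`. -/
theorem prime_large (A : ℝ) (hA : 1 ≤ A) : ∃ C c y₀ : ℝ, 0 < C ∧ 0 < c ∧ c ≤ 1 ∧ 2 ≤ y₀ ∧
    ∀ (y : ℝ) (S : Finset ℕ) (a : ℕ → ℂ) (W : Finset ℝ), y₀ ≤ y →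
    (∀ p ∈ S, p.Prime ∧ y ≤ p ∧ (p : ℝ) ≤ Real.exp 1 * y) → WS W →
    (∀ s ∈ W, ∀ t ∈ W, |s - t| ≤ y ^ A) →
    ∑ t ∈ W, ‖dp S a t‖ ^ 2 ≤ C * (y / Real.log y + W.card * y ^ (1 - c)) * ∑ p ∈ S, ‖a p‖ ^ 2 := by
  obtain ⟨C, c, y₀, hC, hc, hc1, hy₀, hmaj⟩ := maj A hA
  refine ⟨5 * C, c, y₀, by positivity, hc, hc1, hy₀, ?_⟩
  intro y S a W hy hS hW hA'
  obtain ⟨w, hw0, hw1, hw⟩ := hmaj y hy
  have hy2 : 2 ≤ y := hy₀.trans hy
  have hy0 : 0 < y := by linarith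
  have hlog : 0 < Real.log y := Real.log_pos (by linarith)
  have hq : 0 ≤ y / Real.log y := by positivity
  have hr : 0 ≤ y ^ (1 - c) := Real.rpow_nonneg hy0.le _
  refine dual S (Icc 1 ⌊4 * y⌋₊) ?_ w (fun n _ => hw0 n) ?_ W _ (by positivity) ?_ a
  · intro p hp
    obtain ⟨h1, h2, h3⟩ := hS p hp
    rw [Finset.mem_Icc]
    refine ⟨h1.one_lt.le, Nat.le_floor (h3.trans ?_)⟩
    have h4 : Real.exp 1 ≤ 4 := by
      have := Real.exp_one_lt_d9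
      linarith
    nlinarith
  · intro p hp
    obtain ⟨h1, h2, h3⟩ := hS p hp
    exact (hw1 p h1 h2 h3).ge
  · intro t ht
    have h1 : ∑ t' ∈ W, ‖∑ n ∈ Icc 1 ⌊4 * y⌋₊, ((w n : ℝ) : ℂ) * tw (t' - t) n‖ ≤
        ∑ t' ∈ W, (C * (y / Real.log y) * (1 / (1 + (t' - t) ^ 2)) + C * y ^ (1 - c)) := by
      refine Finset.sum_le_sum fun t' ht' => (hw _ (hA' t' ht' t ht)).trans (le_of_eq ?_)
      have h2 : (1 + (t' - t) ^ 2 : ℝ) ≠ 0 := by positivity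
      field_simp
    refine h1.trans ?_
    rw [Finset.sum_add_distrib, ← Finset.mul_sum, Finset.sum_const, nsmul_eq_mul]
    have h2 := ws_sq W hW t ht
    have h3 : C * (y / Real.log y) * ∑ t' ∈ W, 1 / (1 + (t' - t) ^ 2) ≤ C * (y / Real.log y) * 5 :=
      mul_le_mul_of_nonneg_left h2 (by positivity)
    have h4 : 0 ≤ (W.card : ℝ) * (C * y ^ (1 - c)) := by positivity
    nlinarith

end Pool.Agent.Mrd
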