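import Pool.Agent.Mrd.HalR
import Pool.Agent.Mrd.PLarge
import Pool.Agent.Mrd.Large
import Pool.Agent.Mrd.Mom
import Pool.Agent.Mrd.Mert

/-!
Mrd FINU: the last level on thin sets.
-/

set_option autoImplicit false

namespace Pool.Agent.Mrd

open Finset MeasureTheory Filter Topology

private theorem fu_coef (f : ℕ → ℂ) (hf : CM f) (N : ℝ) (hN : 1 ≤ N) :
    ∑ n ∈ Ioc ⌊N⌋₊ ⌊4 * N⌋₊, ‖f n / n‖ ^ 2 ≤ 4 / N := by
  have h0 : (0 : ℝ) < N := by linarith
  have h1 : ∀ n ∈ Ioc ⌊N⌋₊ ⌊4 * N⌋₊, ‖f n / n‖ ^ 2 ≤ 1 / N ^ 2 := by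
    intro n hn
    rw [Finset.mem_Ioc, Nat.floor_lt h0.le] at hn
    have hn0 : (0 : ℝ) < n := h0.trans hn.1
    rw [norm_div, Complex.norm_natCast, div_pow]
    have h2 : ‖f n‖ ^ 2 ≤ 1 := pow_le_one₀ (norm_nonneg _) (hf.bdd n)
    have h3 : N ^ 2 ≤ (n : ℝ) ^ 2 := pow_le_pow_left₀ h0.le hn.1.le 2
    exact div_le_div₀ zero_le_one h2 (by positivity) h3
  refine (Finset.sum_le_card_nsmul _ _ _ h1).trans ?_
  rw [nsmul_eq_mul, Nat.card_Ioc]
  have h4 : ((⌊4 * N⌋₊ - ⌊N⌋₊ : ℕ) : ℝ) ≤ 4 * N := by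
    rw [Nat.cast_sub (Nat.floor_mono (by linarith))]
    have h5 := Nat.floor_le (show (0 : ℝ) ≤ 4 * N by linarith)
    have h6 := Nat.lt_floor_add_one N
    linarith
  calc ((⌊4 * N⌋₊ - ⌊N⌋₊ : ℕ) : ℝ) * (1 / N ^ 2) ≤ 4 * N * (1 / N ^ 2) := by gcongr
    _ = 4 / N := by field_simp

private theorem fu_R (f : ℕ → ℂ) (hf : CM f) : ∃ C : ℝ, 0 < C ∧ ∀ (X N : ℝ) (W : Finset ℝ),
    2 ≤ Real.log X → 0 < X → X ^ (19 / 20 : ℝ) ≤ N → N ≤ X → WS W → (∀ t ∈ W, |t| ≤ X) →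
    (W.card : ℝ) ≤ X ^ (2 / 5 : ℝ) → ∑ t ∈ W, ‖Av f N t‖ ^ 2 ≤ C * Real.log X := by
  obtain ⟨C, hC, h⟩ := large_values
  refine ⟨8 * C, by positivity, ?_⟩
  intro X N W hX2 hX0 hN1 hN2 hW hWX hcard
  have hX1 : (1 : ℝ) ≤ X := by
    by_contra hlt
    push Not at hlt
    have := Real.log_neg hX0 hlt
    linarith
  have hN0 : 1 ≤ N := (Real.one_le_rpow hX1 (by norm_num)).trans hN1
  have hN0' : 0 < N := by linarith
  have h1 := h N X (Ioc ⌊N⌋₊ ⌊4 * N⌋₊) (fun n => f n / n) W hN0 hN2 (by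
    intro n hn
    rw [Finset.mem_Ioc, Nat.floor_lt hN0'.le, Nat.le_floor_iff (by linarith)] at hn
    exact hn) hW hWX
  refine h1.trans ?_
  have h2 := fu_coef f hf N hN0
  have h3 : Real.log (1 + W.card) ≤ Real.log X := by
    apply Real.log_le_log (by positivity)
    have h4 : (1 : ℝ) ≤ X ^ (2 / 5 : ℝ) := Real.one_le_rpow hX1 (by norm_num)
    have h5 : (2 : ℝ) ≤ X ^ (3 / 5 : ℝ) := by
      rw [← Real.log_le_log_iff (by norm_num) (by positivity), Real.log_rpow hX0]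
      have := Real.log_two_lt_d9
      linarith
    have h6 : X ^ (2 / 5 : ℝ) * X ^ (3 / 5 : ℝ) = X := by
      rw [← Real.rpow_add hX0]
      norm_num
    nlinarith
  have h7 : (W.card : ℝ) * Real.sqrt X ≤ N := by
    refine (mul_le_mul_of_nonneg_right hcard (Real.sqrt_nonneg X)).trans (le_trans ?_ hN1)
    rw [Real.sqrt_eq_rpow, ← Real.rpow_add hX0]
    exact Real.rpow_le_rpow_of_exponent_le hX1 (by norm_num)
  have h8 : N * (1 + Real.log (1 + W.card)) + W.card * Real.sqrt X ≤ 2 * (N * Real.log X) := by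
    nlinarith
  calc C * (N * (1 + Real.log (1 + W.card)) + W.card * Real.sqrt X) *
        ∑ n ∈ Ioc ⌊N⌋₊ ⌊4 * N⌋₊, ‖f n / n‖ ^ 2
      ≤ C * (2 * (N * Real.log X)) * (4 / N) := by
        apply mul_le_mul
        · exact mul_le_mul_of_nonneg_left h8 hC.le
        · exact h2
        · exact Finset.sum_nonneg fun n _ => by positivity
        · positivity
    _ = 8 * C * Real.log X := by field_simp; ring

private theorem fu_Q (K k : ℕ) (hK : 1 ≤ K) (hk : 1 ≤ k) (f : ℕ → ℂ) (hf : CM f) :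
    ∃ C L₀ : ℝ, 0 < C ∧ 1 ≤ L₀ ∧ ∀ (X : ℝ) (P : Finset ℕ) (v : ℕ) (W : Finset ℝ), 0 < X →
    L₀ ≤ Real.log X → (∀ p ∈ P, p.Prime) → Real.log X / k ≤ (v : ℝ) / K → (v : ℝ) / K ≤ Real.log X →
    WS W → (∀ t ∈ W, |t| ≤ X) →
    ∑ t ∈ W.filter (fun t => 1 / (Real.log X) ^ 2 < ‖Qv f P K v t‖), ‖Qv f P K v t‖ ^ 2 ≤
      C / (Real.log X) ^ 2 := by
  obtain ⟨C2, hC2, hcount⟩ := count
  obtain ⟨C3, c, y₀, hC3, hc, hc1, hy0, hpl⟩ := prime_large (2 * k) (by
    have : (1 : ℝ) ≤ k := by exact_mod_cast hk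
    linarith)
  obtain ⟨C4, hC4, hcheb⟩ := cheb_pi
  have hk0 : (0 : ℝ) < k := by exact_mod_cast hk
  have hk1 : (1 : ℝ) ≤ k := by exact_mod_cast hk
  have hK0 : (0 : ℝ) < K := by exact_mod_cast hK
  have hK1 : (1 : ℝ) ≤ K := by exact_mod_cast hK
  set C7 : ℝ := C2 * (2 * k).factorial * Real.exp 2 ^ k * (3 * k) with hC7
  have hC7p : 0 < C7 := by positivity
  -- the decay condition
  have hdec : ∃ L₁ : ℝ, ∀ L : ℝ, L₁ ≤ L → C7 * L ^ (4 * k + 2) * Real.exp (-(c / k * L)) ≤ 1 := by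
    have hck : 0 < c / k := by positivity
    have h1 := (Real.tendsto_pow_mul_exp_neg_atTop_nhds_zero (4 * k + 2)).comp
      (tendsto_id.const_mul_atTop hck)
    have h2 : Tendsto (fun L : ℝ => C7 * L ^ (4 * k + 2) * Real.exp (-(c / k * L))) atTop (𝓝 0) := by
      have h3 := h1.const_mul (C7 * (c / k)⁻¹ ^ (4 * k + 2))
      rw [mul_zero] at h3
      refine h3.congr fun L => ?_
      simp only [Function.comp, id]
      rw [mul_pow (c / k) L]
      have : (c / k)⁻¹ ^ (4 * k + 2) * (c / k) ^ (4 * k + 2) = 1 := by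
        rw [← mul_pow, inv_mul_cancel₀ hck.ne', one_pow]
      calc C7 * (c / ↑k)⁻¹ ^ (4 * k + 2) * ((c / ↑k) ^ (4 * k + 2) * L ^ (4 * k + 2) *
            Real.exp (-(c / ↑k * L)))
          = ((c / ↑k)⁻¹ ^ (4 * k + 2) * (c / ↑k) ^ (4 * k + 2)) *
            (C7 * L ^ (4 * k + 2) * Real.exp (-(c / ↑k * L))) := by ring
        _ = _ := by rw [this, one_mul]
    have h4 := h2.eventually (gt_mem_nhds (show (0 : ℝ) < 1 by norm_num))
    obtain ⟨L₁, hL₁⟩ := eventually_atTop.mp h4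
    exact ⟨L₁, fun L hL => (hL₁ L hL).le⟩
  obtain ⟨L₁, hL₁⟩ := hdec
  refine ⟨C3 * (C4 * Real.exp 1) * (k ^ 2 + k), max (max 1 L₁) (k * Real.log y₀), by positivity,
    (le_max_left _ _).trans (le_max_left _ _), ?_⟩
  intro X P v W hX0 hL hP hv1 hv2 hW hWX
  set L : ℝ := Real.log X with hLdef
  have hL1 : 1 ≤ L := ((le_max_left _ _).trans (le_max_left _ _)).trans hL
  have hL0 : 0 < L := by linarith
  have hLL : L₁ ≤ L := ((le_max_right _ _).trans (le_max_left _ _)).trans hL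
  have hLy : k * Real.log y₀ ≤ L := (le_max_right _ _).trans hL
  have hX1 : 1 ≤ X := by
    by_contra hlt
    push Not at hlt
    have := Real.log_neg hX0 hlt
    linarith
  have hX2 : 2 ≤ X := by
    have h1 : X = Real.exp L := (Real.exp_log hX0).symm
    have h2 := Real.add_one_le_exp L
    rw [← h1] at h2
    linarith
  set V : ℝ := (v : ℝ) / K with hV
  set y : ℝ := Real.exp V with hy
  have hy0' : 0 < y := Real.exp_pos _
  have hVL : L / k ≤ V := hv1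
  have hV0 : 0 < V := lt_of_lt_of_le (by positivity) hVL
  have hylog : Real.log y = V := Real.log_exp V
  have hyy0 : y₀ ≤ y := by
    have h1 : Real.log y₀ ≤ V := by
      refine le_trans ?_ hVL
      rw [le_div_iff₀ hk0]
      linarith
    rwa [← Real.log_le_log_iff (by linarith) hy0', hylog]
  set S : Finset ℕ := P.filter (fun p => ix K p = v) with hS
  have hSm : ∀ p ∈ S, p.Prime ∧ y ≤ p ∧ (p : ℝ) ≤ Real.exp 1 * y := by
    intro p hp
    rw [hS, Finset.mem_filter] at hp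
    have hpp := hP p hp.1
    have hp0 : (0 : ℝ) < p := by exact_mod_cast hpp.pos
    have hix : ⌊(K : ℝ) * Real.log p⌋₊ = v := hp.2
    have hlogp : 0 ≤ (K : ℝ) * Real.log p :=
      mul_nonneg hK0.le (Real.log_nonneg (by exact_mod_cast hpp.one_lt.le))
    have h1 : (v : ℝ) ≤ K * Real.log p := by
      rw [← hix]
      exact Nat.floor_le hlogp
    have h2 : K * Real.log p < v + 1 := by
      rw [← hix]
      exact Nat.lt_floor_add_one _
    refine ⟨hpp, ?_, ?_⟩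
    · rw [← Real.log_le_log_iff hy0' hp0, hylog, hV, div_le_iff₀ hK0]
      linarith
    · rw [← Real.log_le_log_iff hp0 (by positivity), Real.log_mul (Real.exp_pos 1).ne' hy0'.ne',
        Real.log_exp, hylog]
      have h3 : Real.log p < (v + 1) / K := by
        rw [lt_div_iff₀ hK0]
        linarith
      have h4 : ((v : ℝ) + 1) / K = V + 1 / K := by rw [hV, add_div]
      have h5 : 1 / (K : ℝ) ≤ 1 := by
        rw [div_le_one hK0]
        exact hK1
      linarith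
  set Q : ℝ → ℂ := Qv f P K v with hQ
  have hQdp : ∀ t, Q t = dp S (fun p => f p / p) t := fun t => rfl
  set Wv : Finset ℝ := W.filter (fun t => 1 / L ^ 2 < ‖Q t‖) with hWv
  have hWvW : ∀ t ∈ Wv, t ∈ W := fun t ht => (Finset.mem_filter.mp ht).1
  -- counting
  have hcard : (Wv.card : ℝ) ≤ C7 * L ^ (4 * k + 1) := by
    have hTk : X ≤ y ^ k := by
      rw [hy, ← Real.exp_nat_mul, ← Real.exp_log hX0, ← hLdef]
      apply Real.exp_le_exp.mpr
      rw [div_le_iff₀ hk0] at hVL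
      linarith
    have h1 := hcount S f y X k W (Real.one_le_exp hV0.le) hSm hf.bdd hX1 hTk hW hWX
    have h2 : (Wv.card : ℝ) * (1 / L ^ 2) ^ (2 * k) ≤ ∑ t ∈ W, ‖Q t‖ ^ (2 * k) := by
      calc (Wv.card : ℝ) * (1 / L ^ 2) ^ (2 * k) = ∑ t ∈ Wv, (1 / L ^ 2) ^ (2 * k) := by
            rw [Finset.sum_const, nsmul_eq_mul]
        _ ≤ ∑ t ∈ Wv, ‖Q t‖ ^ (2 * k) := by
            apply Finset.sum_le_sum
            intro t ht
            exact pow_le_pow_left₀ (by positivity) (Finset.mem_filter.mp ht).2.le _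
        _ ≤ ∑ t ∈ W, ‖Q t‖ ^ (2 * k) := by
            apply Finset.sum_le_sum_of_subset_of_nonneg (Finset.filter_subset _ _)
            intro t _ _
            positivity
    have h3 : (1 : ℝ) + k * (1 + Real.log y) ≤ 3 * k * L := by
      rw [hylog]
      nlinarith
    have h4 : (Wv.card : ℝ) * (1 / L ^ 2) ^ (2 * k) ≤ C7 * L := by
      refine h2.trans (h1.trans ?_)
      rw [hC7]
      have h5 : 0 ≤ C2 * ((2 * k).factorial : ℝ) * Real.exp 2 ^ k := by positivity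
      calc C2 * ((2 * k).factorial : ℝ) * Real.exp 2 ^ k * (1 + k * (1 + Real.log y))
          ≤ C2 * ((2 * k).factorial : ℝ) * Real.exp 2 ^ k * (3 * k * L) :=
            mul_le_mul_of_nonneg_left h3 h5
        _ = _ := by ring
    have h6 : (1 / L ^ 2) ^ (2 * k) * L ^ (4 * k) = 1 := by
      rw [one_div, inv_pow, ← pow_mul, show 2 * (2 * k) = 4 * k by ring]
      exact inv_mul_cancel₀ (by positivity)
    calc (Wv.card : ℝ) = (Wv.card : ℝ) * (1 / L ^ 2) ^ (2 * k) * L ^ (4 * k) := by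
          rw [mul_assoc, h6, mul_one]
      _ ≤ C7 * L * L ^ (4 * k) := by gcongr
      _ = C7 * L ^ (4 * k + 1) := by ring
  -- coefficients
  have hcoef : ∑ p ∈ S, ‖f p / p‖ ^ 2 ≤ C4 * Real.exp 1 / (y * V) := by
    have h1 : ∀ p ∈ S, ‖f p / p‖ ^ 2 ≤ 1 / y ^ 2 := by
      intro p hp
      have hp' := hSm p hp
      have hp0 : (0 : ℝ) < p := lt_of_lt_of_le hy0' hp'.2.1
      rw [norm_div, Complex.norm_natCast, div_pow]
      exact div_le_div₀ zero_le_one (pow_le_one₀ (norm_nonneg _) (hf.bdd p)) (by positivity)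
        (pow_le_pow_left₀ hy0'.le hp'.2.1 2)
    have h2 : S ⊆ pr 0 (Real.exp 1 * y) := by
      intro p hp
      have hp' := hSm p hp
      rw [mem_pr le_rfl (by positivity)]
      exact ⟨hp'.1, lt_of_lt_of_le hy0' hp'.2.1, hp'.2.2⟩
    have h3 : (S.card : ℝ) ≤ C4 * (Real.exp 1 * y) / Real.log (Real.exp 1 * y) := by
      refine le_trans (by exact_mod_cast Finset.card_le_card h2) (hcheb _ ?_)
      have := Real.add_one_le_exp (1 : ℝ)
      have hy1 : 1 ≤ y := Real.one_le_exp hV0.le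
      nlinarith
    have h4 : V ≤ Real.log (Real.exp 1 * y) := by
      rw [Real.log_mul (Real.exp_pos 1).ne' hy0'.ne', Real.log_exp, hylog]
      linarith
    refine (Finset.sum_le_card_nsmul _ _ _ h1).trans ?_
    rw [nsmul_eq_mul]
    calc (S.card : ℝ) * (1 / y ^ 2) ≤ (C4 * (Real.exp 1 * y) / V) * (1 / y ^ 2) := by
          apply mul_le_mul_of_nonneg_right _ (by positivity)
          exact h3.trans (div_le_div_of_nonneg_left (by positivity) hV0 h4)
      _ = C4 * Real.exp 1 / (y * V) := by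
          field_simp
  have hWvS : WS Wv := fun s hs t ht hst => hW s (hWvW s hs) t (hWvW t ht) hst
  have hWvd : ∀ s ∈ Wv, ∀ t ∈ Wv, |s - t| ≤ y ^ (2 * k : ℝ) := by
    intro s hs t ht
    have h1 : |s - t| ≤ 2 * X := by
      have h2 := hWX s (hWvW s hs)
      have h3 := hWX t (hWvW t ht)
      have h4 := abs_sub s t
      linarith
    refine h1.trans ?_
    have h5 : X ^ 2 ≤ y ^ (2 * k : ℝ) := by
      rw [hy, ← Real.exp_mul, ← Real.exp_log hX0, ← hLdef, ← Real.exp_nat_mul]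
      apply Real.exp_le_exp.mpr
      rw [div_le_iff₀ hk0] at hVL
      push_cast
      nlinarith
    nlinarith
  have hmain := hpl y S (fun p => f p / p) Wv hyy0 hSm hWvS hWvd
  have hfin : (Wv.card : ℝ) * y ^ (1 - c) ≤ y * (1 / L) := by
    have h1 : y ^ (1 - c) = y * Real.exp (-(c * V)) := by
      rw [Real.rpow_sub hy0', Real.rpow_one, div_eq_mul_inv]
      congr 1
      rw [hy, ← Real.exp_mul, ← Real.exp_neg]
      ring_nf
    have h2 : Real.exp (-(c * V)) ≤ Real.exp (-(c / k * L)) := by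
      apply Real.exp_le_exp.mpr
      have : c / k * L = c * (L / k) := by ring
      rw [this]
      nlinarith
    have h3 := hL₁ L hLL
    rw [h1]
    calc (Wv.card : ℝ) * (y * Real.exp (-(c * V)))
        ≤ (C7 * L ^ (4 * k + 1)) * (y * Real.exp (-(c / k * L))) := by gcongr
      _ = y * (1 / L) * (C7 * L ^ (4 * k + 2) * Real.exp (-(c / k * L))) := by
          rw [show 4 * k + 2 = (4 * k + 1) + 1 by ring, pow_succ L (4 * k + 1)]
          field_simp
      _ ≤ y * (1 / L) * 1 := by gcongr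
      _ = y * (1 / L) := mul_one _
  have hsum : ∑ t ∈ Wv, ‖Q t‖ ^ 2 ≤
      C3 * (y / V + y * (1 / L)) * (C4 * Real.exp 1 / (y * V)) := by
    have h1 : ∑ t ∈ Wv, ‖Q t‖ ^ 2 = ∑ t ∈ Wv, ‖dp S (fun p => f p / p) t‖ ^ 2 := rfl
    rw [h1]
    refine hmain.trans ?_
    rw [hylog]
    apply mul_le_mul
    · gcongr
    · exact hcoef
    · exact Finset.sum_nonneg fun n _ => by positivity
    · positivity
  refine hsum.trans ?_
  have h1 : 1 / V ≤ k / L := by
    rw [div_le_div_iff₀ hV0 hL0]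
    rw [div_le_iff₀ hk0] at hVL
    linarith
  calc C3 * (y / V + y * (1 / L)) * (C4 * Real.exp 1 / (y * V))
      = C3 * (C4 * Real.exp 1) * ((1 / V) * (1 / V) + (1 / L) * (1 / V)) := by
        field_simp
    _ ≤ C3 * (C4 * Real.exp 1) * ((k / L) * (k / L) + (1 / L) * (k / L)) := by
        gcongr
    _ = C3 * (C4 * Real.exp 1) * (k ^ 2 + k) / L ^ 2 := by
        field_simp

/-- `K` fixed, `X → ∞`, `C_K` constants depending on `K`. `LP ≥ 1` (`mertens`). For `v ∈ Ist`, `V = v/K`, `y = e^V`, `N = X/y ≥ X^{19/20}`: `‖∑ Q_v R_v‖² ≤ (∑ 1/v)(∑ v ‖Q_v‖²‖R_v‖²)`, `∑_{v ∈ Ist} 1/v ≤ C_K`.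
(a) `t` with `‖Q_v(t)‖ ≤ (log X)^{-2}`: `∑_t ‖R_v(t)‖² ≤ C (N(1 + log(1+|W|)) + |W|√X) · 4/N ≤ C log X` (`large_values`), so these contribute `≤ ∑_v v (log X)^{-4} C log X ≤ C_K/log X`.
(b) `W_v = {t ∈ W : ‖Q_v(t)‖ > (log X)^{-2}}`: `count` with `z = y`, `k = ⌈log X/V⌉ ≤ 21·3^K + 1`: `|W_v| ≤ (log X)^{C_K}`; `prime_large` with `A` so large that `2X ≤ y^A`: `∑_{t ∈ W_v} ‖Q_v‖² ≤ C_K (y/log y + |W_v| y^{1-c}) ∑_p 1/p² ≤ C_K/(log X)²`
(`∑ 1/p² ≤ y^{-2} C y/log y` by `cheb_pi`); and `‖R_v(t)‖ ≤ ρ` by `halR`. Contribution `≤ ∑_v v ρ² C_K/(log X)² ≤ C_K ρ²`. -/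
theorem finU (K : ℕ) (hK : 1 ≤ K) (f : ℕ → ℂ) (hf : CM f) (hN : NP f) (ε : ℝ) (hε : 0 < ε) :
    ∃ X₀ : ℝ, ∀ (X : ℝ) (W : Finset ℝ), X₀ ≤ X → WS W → (∀ t ∈ W, |t| ≤ X) →
    (W.card : ℝ) ≤ X ^ (2 / 5 : ℝ) → ∑ t ∈ W, ‖Fst f K X t‖ ^ 2 ≤ ε := by
  have hK0 : (0 : ℝ) < K := by exact_mod_cast hK
  have hK1 : (1 : ℝ) ≤ K := by exact_mod_cast hK
  obtain ⟨k, hkdef⟩ : ∃ k : ℕ, k = 40 * 3 ^ K := ⟨_, rfl⟩
  have hk : 1 ≤ k := by
    rw [hkdef]
    have : 0 < 3 ^ K := by positivity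
    omega
  have hk0 : (0 : ℝ) < k := by exact_mod_cast hk
  have hk1 : (1 : ℝ) ≤ k := by exact_mod_cast hk
  have hkr : (k : ℝ) = 40 * 3 ^ K := by
    rw [hkdef]
    push_cast
    ring
  obtain ⟨C1, hC1, hR⟩ := fu_R f hf
  obtain ⟨C6, L6, hC6, hL6, hQ⟩ := fu_Q K k hK hk f hf
  obtain ⟨C5, hC5, hmert⟩ := mertens
  set ρ : ℝ := Real.sqrt (ε / (2 * (k * K ^ 2 * C6))) with hρ
  have hρ0 : 0 < ρ := Real.sqrt_pos.mpr (by positivity)
  have hρ2 : ρ ^ 2 = ε / (2 * (k * K ^ 2 * C6)) := Real.sq_sqrt (by positivity)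
  obtain ⟨X5, hhal⟩ := halR f hf hN ρ hρ0
  have hl3 : 0 < Real.log 3 - 1 := by
    have h1 : Real.exp 1 < 3 := by
      have := Real.exp_one_lt_d9
      linarith
    have h2 := Real.log_lt_log (Real.exp_pos 1) h1
    rw [Real.log_exp] at h2
    linarith
  refine ⟨max X5 (Real.exp (max (max (max L6 2) k) (max (C5 * k / (Real.log 3 - 1))
    (2 * (k * K ^ 2 * C1) / ε)))), ?_⟩
  intro X W hX hW hWX hcard
  have hX5 : X5 ≤ X := (le_max_left _ _).trans hX
  have hX6 := (le_max_right _ _).trans hX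
  have hX0 : 0 < X := (Real.exp_pos _).trans_le hX6
  have hLm := (Real.le_log_iff_exp_le hX0).mpr hX6
  obtain ⟨L, hL⟩ : ∃ L : ℝ, L = Real.log X := ⟨_, rfl⟩
  rw [← hL] at hLm
  have hLa : L6 ≤ L :=
    (((le_max_left _ _).trans (le_max_left _ _)).trans (le_max_left _ _)).trans hLm
  have hLb : 2 ≤ L :=
    (((le_max_right _ _).trans (le_max_left _ _)).trans (le_max_left _ _)).trans hLm
  have hLc : (k : ℝ) ≤ L := ((le_max_right _ _).trans (le_max_left _ _)).trans hLm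
  have hLd : C5 * k / (Real.log 3 - 1) ≤ L :=
    ((le_max_left _ _).trans (le_max_right _ _)).trans hLm
  have hLe : 2 * (k * K ^ 2 * C1) / ε ≤ L :=
    ((le_max_right _ _).trans (le_max_right _ _)).trans hLm
  have hL0 : 0 < L := by linarith
  have hXe : X = Real.exp L := by rw [hL, Real.exp_log hX0]
  have hX1 : 1 ≤ X := by
    rw [hXe]
    exact Real.one_le_exp hL0.le
  -- LP is at least one
  have hLP : 1 ≤ LP (Pst K X) := by
    have h3K : (0 : ℝ) < 20 * 3 ^ K := by positivity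
    have hx : Real.log (X ^ ((1 : ℝ) / (20 * 3 ^ K))) = 1 / (20 * 3 ^ K) * L := by
      rw [Real.log_rpow hX0, hL]
    have hy : Real.log (X ^ ((1 : ℝ) / 20)) = 1 / 20 * L := by
      rw [Real.log_rpow hX0, hL]
    have h1 : 1 / (20 * 3 ^ K) * L = 2 * (L / k) := by
      rw [hkr]
      field_simp
      norm_num
    have h2 : 1 ≤ L / k := by
      rw [le_div_iff₀ hk0]
      linarith
    have h3 : (2 : ℝ) ≤ X ^ ((1 : ℝ) / (20 * 3 ^ K)) := by
      rw [← Real.log_le_log_iff (by norm_num) (by positivity), hx, h1]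
      have := Real.log_two_lt_d9
      linarith
    have h4 : X ^ ((1 : ℝ) / (20 * 3 ^ K)) ≤ X ^ ((1 : ℝ) / 20) := by
      apply Real.rpow_le_rpow_of_exponent_le hX1
      apply one_div_le_one_div_of_le (by norm_num)
      have : (1 : ℝ) ≤ 3 ^ K := one_le_pow₀ (by norm_num)
      linarith
    have h5 := hmert _ _ h3 h4
    have h6 : Real.log (X ^ ((1 : ℝ) / 20)) / Real.log (X ^ ((1 : ℝ) / (20 * 3 ^ K))) = 3 ^ K := by
      rw [hx, hy]
      field_simp
    rw [h6, Real.log_pow, hx, h1] at h5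
    have h7 := (abs_le.mp h5).1
    have h8 : C5 / (2 * (L / k)) ≤ Real.log 3 - 1 := by
      rw [div_le_iff₀ hl3] at hLd
      rw [div_le_iff₀ (by positivity)]
      have h9 : (Real.log 3 - 1) * (2 * (L / k)) = 2 * (L * (Real.log 3 - 1)) / k := by ring
      rw [h9, le_div_iff₀ hk0]
      nlinarith
    have h10 : Real.log 3 ≤ K * Real.log 3 := by nlinarith
    have h11 : LP (Pst K X) = LP (pr (X ^ ((1 : ℝ) / (20 * 3 ^ K))) (X ^ ((1 : ℝ) / 20))) := rfl
    rw [h11]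
    linarith
  -- the indices
  have hI1 : ∀ v ∈ Ist K X, L / k ≤ (v : ℝ) / K := by
    intro v hv
    unfold Ist at hv
    rw [Finset.mem_Icc] at hv
    have h1 : K * (Real.log X / (20 * 3 ^ K)) < (v : ℝ) + 1 := by
      refine (Nat.lt_floor_add_one _).trans_le ?_
      have : ((⌊(K : ℝ) * (Real.log X / (20 * 3 ^ K))⌋₊ : ℕ) : ℝ) ≤ v := by exact_mod_cast hv.1
      linarith
    rw [← hL] at h1
    have h2 : K * (L / (20 * 3 ^ K)) = K * (2 * (L / k)) := by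
      rw [hkr]
      field_simp
      norm_num
    rw [h2] at h1
    have h3 : 1 ≤ L / k := by
      rw [le_div_iff₀ hk0]
      linarith
    rw [le_div_iff₀ hK0]
    nlinarith
  have hI2 : ∀ v ∈ Ist K X, (v : ℝ) / K ≤ L / 20 := by
    intro v hv
    unfold Ist at hv
    rw [Finset.mem_Icc] at hv
    rw [div_le_iff₀ hK0]
    have h1 : (v : ℝ) ≤ K * (Real.log X / 20) := by
      refine le_trans (by exact_mod_cast hv.2) (Nat.floor_le ?_)
      rw [← hL]
      positivity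
    rw [← hL] at h1
    linarith
  have hI3 : ((Ist K X).card : ℝ) ≤ K * L := by
    unfold Ist
    rw [Nat.card_Icc]
    have h1 : ((⌊(K : ℝ) * (Real.log X / 20)⌋₊ + 1 - ⌊(K : ℝ) * (Real.log X / (20 * 3 ^ K))⌋₊ : ℕ) : ℝ) ≤
        ((⌊(K : ℝ) * (Real.log X / 20)⌋₊ + 1 : ℕ) : ℝ) := by
      exact_mod_cast Nat.sub_le _ _
    refine h1.trans ?_
    push_cast
    have h2 : ((⌊(K : ℝ) * (Real.log X / 20)⌋₊ : ℕ) : ℝ) ≤ K * (L / 20) := by
      rw [← hL]
      exact Nat.floor_le (by positivity)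
    nlinarith
  have hv0 : ∀ v ∈ Ist K X, (0 : ℝ) < v := by
    intro v hv
    have h1 := hI1 v hv
    have h2 : 0 < (v : ℝ) / K := lt_of_lt_of_le (by positivity) h1
    have h3 : (v : ℝ) = (v : ℝ) / K * K := by field_simp
    rw [h3]
    positivity
  have hS1 : ∑ v ∈ Ist K X, 1 / (v : ℝ) ≤ k := by
    have h1 : ∀ v ∈ Ist K X, 1 / (v : ℝ) ≤ k / (K * L) := by
      intro v hv
      have h2 := hI1 v hv
      rw [div_le_div_iff₀ hk0 hK0] at h2
      rw [div_le_div_iff₀ (hv0 v hv) (by positivity)]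
      linarith
    refine (Finset.sum_le_card_nsmul _ _ _ h1).trans ?_
    rw [nsmul_eq_mul]
    calc ((Ist K X).card : ℝ) * (k / (K * L)) ≤ (K * L) * (k / (K * L)) := by gcongr
      _ = k := by field_simp
  -- one index
  have hone : ∀ v ∈ Ist K X, ∑ t ∈ W, ‖Qv f (Pst K X) K v t‖ ^ 2 * ‖Rv f X K v t‖ ^ 2 ≤
      C1 / L ^ 3 + ρ ^ 2 * (C6 / L ^ 2) := by
    intro v hv
    have hV1 := hI1 v hv
    have hV2 := hI2 v hv
    have hNl : X ^ (19 / 20 : ℝ) ≤ X * Real.exp (-((v : ℝ) / K)) := by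
      rw [hXe, ← Real.exp_mul, ← Real.exp_add]
      apply Real.exp_le_exp.mpr
      linarith
    have hNl' : X ^ (9 / 10 : ℝ) ≤ X * Real.exp (-((v : ℝ) / K)) := by
      refine le_trans ?_ hNl
      exact Real.rpow_le_rpow_of_exponent_le hX1 (by norm_num)
    have hNu : X * Real.exp (-((v : ℝ) / K)) ≤ X := by
      have h1 : Real.exp (-((v : ℝ) / K)) ≤ 1 := by
        apply Real.exp_le_one_iff.mpr
        have := hv0 v hv
        have : 0 ≤ (v : ℝ) / K := by positivity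
        linarith
      nlinarith
    have hRsum := hR X (X * Real.exp (-((v : ℝ) / K))) W (by rw [← hL]; exact hLb) hX0 hNl hNu hW hWX hcard
    rw [← hL] at hRsum
    have hQsum := hQ X (Pst K X) v W hX0 (by rw [← hL]; exact hLa) (by
      intro p hp
      exact (Finset.mem_filter.mp hp).2) (by rw [← hL]; exact hV1) (by rw [← hL]; linarith) hW hWX
    rw [← hL] at hQsum
    rw [← Finset.sum_filter_add_sum_filter_not W (fun t => 1 / L ^ 2 < ‖Qv f (Pst K X) K v t‖)]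
    have hA : ∑ t ∈ W.filter (fun t => 1 / L ^ 2 < ‖Qv f (Pst K X) K v t‖),
        ‖Qv f (Pst K X) K v t‖ ^ 2 * ‖Rv f X K v t‖ ^ 2 ≤ ρ ^ 2 * (C6 / L ^ 2) := by
      calc ∑ t ∈ W.filter (fun t => 1 / L ^ 2 < ‖Qv f (Pst K X) K v t‖),
            ‖Qv f (Pst K X) K v t‖ ^ 2 * ‖Rv f X K v t‖ ^ 2
          ≤ ∑ t ∈ W.filter (fun t => 1 / L ^ 2 < ‖Qv f (Pst K X) K v t‖),
            ρ ^ 2 * ‖Qv f (Pst K X) K v t‖ ^ 2 := by
            apply Finset.sum_le_sum
            intro t ht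
            have h1 : ‖Rv f X K v t‖ ≤ ρ :=
              hhal X _ t hX5 hNl' hNu (hWX t (Finset.mem_filter.mp ht).1)
            have h2 : ‖Rv f X K v t‖ ^ 2 ≤ ρ ^ 2 := pow_le_pow_left₀ (norm_nonneg _) h1 2
            rw [mul_comm]
            exact mul_le_mul_of_nonneg_right h2 (by positivity)
        _ = ρ ^ 2 * ∑ t ∈ W.filter (fun t => 1 / L ^ 2 < ‖Qv f (Pst K X) K v t‖),
            ‖Qv f (Pst K X) K v t‖ ^ 2 := by rw [Finset.mul_sum]
        _ ≤ _ := mul_le_mul_of_nonneg_left hQsum (by positivity)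
    have hB : ∑ t ∈ W.filter (fun t => ¬ 1 / L ^ 2 < ‖Qv f (Pst K X) K v t‖),
        ‖Qv f (Pst K X) K v t‖ ^ 2 * ‖Rv f X K v t‖ ^ 2 ≤ C1 / L ^ 3 := by
      calc ∑ t ∈ W.filter (fun t => ¬ 1 / L ^ 2 < ‖Qv f (Pst K X) K v t‖),
            ‖Qv f (Pst K X) K v t‖ ^ 2 * ‖Rv f X K v t‖ ^ 2
          ≤ ∑ t ∈ W.filter (fun t => ¬ 1 / L ^ 2 < ‖Qv f (Pst K X) K v t‖),
            (1 / L ^ 2) ^ 2 * ‖Rv f X K v t‖ ^ 2 := by
            apply Finset.sum_le_sum
            intro t ht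
            have h1 := not_lt.mp (Finset.mem_filter.mp ht).2
            exact mul_le_mul_of_nonneg_right (pow_le_pow_left₀ (norm_nonneg _) h1 2) (by positivity)
        _ ≤ ∑ t ∈ W, (1 / L ^ 2) ^ 2 * ‖Rv f X K v t‖ ^ 2 := by
            apply Finset.sum_le_sum_of_subset_of_nonneg (Finset.filter_subset _ _)
            intro t _ _
            positivity
        _ = (1 / L ^ 2) ^ 2 * ∑ t ∈ W, ‖Rv f X K v t‖ ^ 2 := by rw [Finset.mul_sum]
        _ ≤ (1 / L ^ 2) ^ 2 * (C1 * L) := mul_le_mul_of_nonneg_left hRsum (by positivity)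
        _ = C1 / L ^ 3 := by field_simp
    linarith
  -- pointwise Cauchy-Schwarz
  have hpt : ∀ t, ‖Fst f K X t‖ ^ 2 ≤
      k * ∑ v ∈ Ist K X, (v : ℝ) * (‖Qv f (Pst K X) K v t‖ ^ 2 * ‖Rv f X K v t‖ ^ 2) := by
    intro t
    unfold Fst Fv
    have h1 : ‖∑ v ∈ Ist K X, Qv f (Pst K X) K v t * Rv f X K v t‖ ^ 2 ≤
        (∑ v ∈ Ist K X, 1 / (v : ℝ)) *
        ∑ v ∈ Ist K X, (v : ℝ) * (‖Qv f (Pst K X) K v t‖ ^ 2 * ‖Rv f X K v t‖ ^ 2) := by
      calc ‖∑ v ∈ Ist K X, Qv f (Pst K X) K v t * Rv f X K v t‖ ^ 2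
          ≤ (∑ v ∈ Ist K X, ‖Qv f (Pst K X) K v t‖ * ‖Rv f X K v t‖) ^ 2 := by
            apply pow_le_pow_left₀ (norm_nonneg _)
            refine (norm_sum_le _ _).trans (le_of_eq ?_)
            exact Finset.sum_congr rfl fun v _ => norm_mul _ _
        _ ≤ _ := by
            apply Finset.sum_sq_le_sum_mul_sum_of_sq_le_mul
            · intro v hv
              have := hv0 v hv
              positivity
            · intro v hv
              positivity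
            · intro v hv
              have := hv0 v hv
              apply le_of_eq
              field_simp
    rw [norm_mul, mul_pow]
    have h2 : ‖((LP (Pst K X) : ℝ) : ℂ)⁻¹‖ ^ 2 ≤ 1 := by
      rw [norm_inv, Complex.norm_real, Real.norm_eq_abs, abs_of_pos (by linarith)]
      apply pow_le_one₀ (by positivity)
      exact inv_le_one_of_one_le₀ hLP
    have h3 : 0 ≤ ∑ v ∈ Ist K X, (v : ℝ) * (‖Qv f (Pst K X) K v t‖ ^ 2 * ‖Rv f X K v t‖ ^ 2) :=
      Finset.sum_nonneg fun v _ => by positivity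
    calc ‖((LP (Pst K X) : ℝ) : ℂ)⁻¹‖ ^ 2 * ‖∑ v ∈ Ist K X, Qv f (Pst K X) K v t * Rv f X K v t‖ ^ 2
        ≤ 1 * ((∑ v ∈ Ist K X, 1 / (v : ℝ)) *
          ∑ v ∈ Ist K X, (v : ℝ) * (‖Qv f (Pst K X) K v t‖ ^ 2 * ‖Rv f X K v t‖ ^ 2)) :=
          mul_le_mul h2 h1 (by positivity) zero_le_one
      _ ≤ k * ∑ v ∈ Ist K X, (v : ℝ) * (‖Qv f (Pst K X) K v t‖ ^ 2 * ‖Rv f X K v t‖ ^ 2) := by
          rw [one_mul]
          exact mul_le_mul_of_nonneg_right hS1 h3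
  calc ∑ t ∈ W, ‖Fst f K X t‖ ^ 2
      ≤ ∑ t ∈ W, k * ∑ v ∈ Ist K X,
          (v : ℝ) * (‖Qv f (Pst K X) K v t‖ ^ 2 * ‖Rv f X K v t‖ ^ 2) :=
        Finset.sum_le_sum fun t _ => hpt t
    _ = k * ∑ v ∈ Ist K X, (v : ℝ) *
          ∑ t ∈ W, (‖Qv f (Pst K X) K v t‖ ^ 2 * ‖Rv f X K v t‖ ^ 2) := by
        rw [← Finset.mul_sum, Finset.sum_comm]
        congr 1
        exact Finset.sum_congr rfl fun v _ => by rw [Finset.mul_sum]
    _ ≤ k * ∑ v ∈ Ist K X, (K * L) * (C1 / L ^ 3 + ρ ^ 2 * (C6 / L ^ 2)) := by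
        apply mul_le_mul_of_nonneg_left _ hk0.le
        apply Finset.sum_le_sum
        intro v hv
        apply mul_le_mul _ (hone v hv) (Finset.sum_nonneg fun t _ => by positivity) (by positivity)
        have h1 := hI2 v hv
        rw [div_le_iff₀ hK0] at h1
        nlinarith
    _ = k * (((Ist K X).card : ℝ) * ((K * L) * (C1 / L ^ 3 + ρ ^ 2 * (C6 / L ^ 2)))) := by
        rw [Finset.sum_const, nsmul_eq_mul]
    _ ≤ k * ((K * L) * ((K * L) * (C1 / L ^ 3 + ρ ^ 2 * (C6 / L ^ 2)))) := by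
        gcongr
    _ = (k * K ^ 2 * C1) / L + ρ ^ 2 * (k * K ^ 2 * C6) := by
        field_simp
    _ ≤ ε := by
        rw [hρ2]
        have h1 : ε / (2 * (k * K ^ 2 * C6)) * (k * K ^ 2 * C6) = ε / 2 := by
          field_simp
        rw [h1]
        rw [div_le_iff₀ hε] at hLe
        have h2 : (k * K ^ 2 * C1) / L ≤ ε / 2 := by
          rw [div_le_iff₀ hL0]
          linarith
        linarith

end Pool.Agent.Mrd
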