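import Pool.Agent.Mrd.Unit
import Pool.Agent.Mrd.Mert

/-!
Mrd L2B: the L2 norm of `G'` on the line `1 + 1/log x + it`.
-/

set_option autoImplicit false

namespace Pool.Agent.Mrd

open Finset MeasureTheory Filter Topology

namespace L2bAux

/-- the summand of `Gs` without the twist -/
private noncomputable def cf (g : ℕ → ℂ) (σ : ℝ) (n : ℕ) : ℂ := g n * (((n : ℝ) ^ (-(1 + σ)) : ℝ) : ℂ)

private lemma Gs_eq (g : ℕ → ℂ) (σ t : ℝ) : Gs g σ t = ∑' n, cf g σ n * tw t n := rfl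

private lemma cf_norm (g : ℕ → ℂ) (σ : ℝ) (n : ℕ) : ‖cf g σ n‖ = ‖g n‖ * (n : ℝ) ^ (-(1 + σ)) := by
  unfold cf
  rw [norm_mul, Complex.norm_real, Real.norm_of_nonneg (Real.rpow_nonneg (Nat.cast_nonneg n) _)]

private lemma cf_zero (g : ℕ → ℂ) (σ : ℝ) (hσ : 0 < σ) : cf g σ 0 = 0 := by
  unfold cf
  rw [Nat.cast_zero, Real.zero_rpow (by linarith), Complex.ofReal_zero, mul_zero]

/-- blocks of the exponential decomposition -/
private noncomputable def blk (j : ℕ) : Finset ℕ := Finset.Ico ⌈Real.exp j⌉₊ ⌈Real.exp (j + 1)⌉₊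

private lemma mem_blk {j n : ℕ} (h : n ∈ blk j) : Real.exp j ≤ n ∧ (n : ℝ) < Real.exp (j + 1) := by
  unfold blk at h
  rw [Finset.mem_Ico, Nat.ceil_le, Nat.lt_ceil] at h
  exact h

private lemma blk_sum (a : ℕ → ℝ) (J : ℕ) :
    ∑ n ∈ Finset.Ico 1 ⌈Real.exp J⌉₊, a n = ∑ j ∈ Finset.range J, ∑ n ∈ blk j, a n := by
  induction J with
  | zero => simp
  | succ J ih =>
    rw [Finset.sum_range_succ, ← ih]
    unfold blk
    rw [Finset.sum_Ico_consecutive]
    · push_cast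
      rfl
    · rw [Nat.one_le_ceil_iff]
      exact Real.exp_pos _
    · exact Nat.ceil_mono (Real.exp_le_exp.2 (by linarith))

private lemma blocks (a β : ℕ → ℝ) (ha0 : a 0 = 0) (ha : ∀ n, 0 ≤ a n) (hβ : Summable β)
    (hb : ∀ j, ∑ n ∈ blk j, a n ≤ β j) : Summable a ∧ ∑' n, a n ≤ ∑' j, β j := by
  have hβ0 : ∀ j, 0 ≤ β j := fun j => (Finset.sum_nonneg fun n _ => ha n).trans (hb j)
  have key : ∀ N, ∑ n ∈ Finset.range N, a n ≤ ∑' j, β j := by
    intro N
    have h1 : ∑ n ∈ Finset.range N, a n ≤ ∑ n ∈ Finset.Ico 1 ⌈Real.exp N⌉₊, a n := by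
      rw [Finset.range_eq_Ico]
      rcases Nat.eq_zero_or_pos N with h | h
      · subst h
        simp
      rw [← Finset.sum_Ico_consecutive a (Nat.zero_le 1) h]
      have h0 : ∑ n ∈ Finset.Ico 0 1, a n = 0 := by simp [ha0]
      rw [h0, zero_add]
      apply Finset.sum_le_sum_of_subset_of_nonneg
      · apply Finset.Ico_subset_Ico le_rfl
        have h2 : (N : ℝ) ≤ Real.exp N := by
          have := Real.add_one_le_exp (N : ℝ)
          linarith
        have h3 : (N : ℝ) ≤ (⌈Real.exp N⌉₊ : ℝ) := h2.trans (Nat.le_ceil _)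
        exact_mod_cast h3
      · intro n _ _
        exact ha n
    rw [blk_sum] at h1
    refine h1.trans ((Finset.sum_le_sum fun j _ => hb j).trans ?_)
    exact hβ.sum_le_tsum _ fun j _ => hβ0 j
  exact ⟨summable_of_sum_range_le ha key, Real.tsum_le_of_sum_range_le ha key⟩

/-- geometric series -/
private lemma geo (s : ℝ) (hs : 0 < s) : Summable (fun j : ℕ => Real.exp (-(s * j))) ∧
    ∑' j : ℕ, Real.exp (-(s * j)) ≤ 1 + 1 / s := by
  have h1 : ∀ j : ℕ, Real.exp (-(s * j)) = Real.exp (-s) ^ j := by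
    intro j
    rw [← Real.exp_nat_mul]
    congr 1
    ring
  have h2 : Real.exp (-s) < 1 := by
    rw [Real.exp_lt_one_iff]
    linarith
  simp_rw [h1]
  refine ⟨summable_geometric_of_lt_one (Real.exp_pos _).le h2, ?_⟩
  rw [tsum_geometric_of_lt_one (Real.exp_pos _).le h2]
  have h3 : Real.exp (-s) ≤ 1 / (1 + s) := by
    rw [Real.exp_neg, ← one_div]
    apply one_div_le_one_div_of_le (by linarith)
    linarith [Real.add_one_le_exp s]
  have h4 : s / (1 + s) ≤ 1 - Real.exp (-s) := by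
    have : s / (1 + s) = 1 - 1 / (1 + s) := by
      field_simp
      ring
    linarith
  have h5 : 0 < s / (1 + s) := by positivity
  calc (1 - Real.exp (-s))⁻¹ ≤ (s / (1 + s))⁻¹ := inv_anti₀ h5 h4
    _ = 1 + 1 / s := by
      field_simp
      ring

private lemma rpow_blk {σ : ℝ} (hσ : 0 < σ) {j n : ℕ} (h : n ∈ blk j) :
    (n : ℝ) ^ (-(1 + σ)) ≤ Real.exp (-(1 + σ) * j) := by
  have h1 := (mem_blk h).1
  have h2 : (n : ℝ) ^ (-(1 + σ)) ≤ (Real.exp j) ^ (-(1 + σ)) :=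
    Real.rpow_le_rpow_of_nonpos (Real.exp_pos _) h1 (by linarith)
  have e : (j : ℝ) * (-(1 + σ)) = -(1 + σ) * j := by ring
  rw [← Real.exp_mul, e] at h2
  exact h2

private lemma Gs_cont (g : ℕ → ℂ) (σ : ℝ) (h : Summable fun n => ‖cf g σ n‖) : Continuous (Gs g σ) := by
  have : Gs g σ = fun t => ∑' n, cf g σ n * tw t n := rfl
  rw [this]
  refine continuous_tsum (fun n => continuous_const.mul (tw_continuous n)) h fun n t => ?_
  rw [norm_mul, tw_norm, mul_one]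

/-- relation with the Mathlib L-series -/
private lemma term_eq (g : ℕ → ℂ) (hg : g 0 = 0) (σ t : ℝ) (n : ℕ) :
    cf g σ n * tw t n = LSeries.term g ((1 + σ : ℝ) + (t : ℂ) * Complex.I) n := by
  rcases Nat.eq_zero_or_pos n with h | h
  · subst h
    simp [cf, hg]
  · rw [LSeries.term_of_ne_zero h.ne']
    have hn : (n : ℂ) ≠ 0 := by exact_mod_cast h.ne'
    have hn' : (0 : ℝ) < n := by exact_mod_cast h
    unfold cf tw
    rw [Complex.cpow_def_of_ne_zero hn, Real.rpow_def_of_pos hn', mul_assoc, div_eq_mul_inv,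
      ← Complex.exp_neg, Complex.ofReal_exp, ← Complex.exp_add]
    congr 2
    rw [← Complex.ofReal_natCast, ← Complex.ofReal_log hn'.le]
    push_cast
    ring

private lemma summable_iff (g : ℕ → ℂ) (hg : g 0 = 0) (σ t : ℝ) (h : Summable fun n => ‖cf g σ n‖) :
    LSeriesSummable g ((1 + σ : ℝ) + (t : ℂ) * Complex.I) := by
  unfold LSeriesSummable
  apply Summable.of_norm
  refine h.congr fun n => ?_
  rw [← term_eq g hg, norm_mul, tw_norm, mul_one]

private lemma Gs_LSeries (g : ℕ → ℂ) (hg : g 0 = 0) (σ t : ℝ) :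
    Gs g σ t = LSeries g ((1 + σ : ℝ) + (t : ℂ) * Complex.I) := by
  unfold LSeries
  rw [Gs_eq]
  exact tsum_congr fun n => term_eq g hg σ t n

private noncomputable def vl (g : ℕ → ℂ) (n : ℕ) : ℂ := g n * ((ArithmeticFunction.vonMangoldt n : ℝ) : ℂ)

private lemma Gs_mul (g : ℕ → ℂ) (hg : CM g) (σ t : ℝ)
    (h1 : Summable fun n => ‖cf g σ n‖) (h2 : Summable fun n => ‖cf (vl g) σ n‖) :
    Gs (fun n => g n * Real.log n) σ t = Gs g σ t * Gs (vl g) σ t := by
  have e0 : g 0 = 0 := hg.zero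
  have e1 : (fun n : ℕ => g n * ((Real.log n : ℝ) : ℂ)) 0 = 0 := by simp [hg.zero]
  have e2 : vl g 0 = 0 := by simp [vl, hg.zero]
  rw [Gs_LSeries _ e1, Gs_LSeries _ e0, Gs_LSeries _ e2,
    ← LSeries_convolution' (summable_iff g e0 σ t h1) (summable_iff _ e2 σ t h2)]
  congr 1
  rw [LSeries.convolution_def]
  funext n
  rcases Nat.eq_zero_or_pos n with h | h
  · subst h
    simp [hg.zero]
  have h3 : ∀ p ∈ n.divisorsAntidiagonal, g p.1 * vl g p.2 =
      g n * ((ArithmeticFunction.vonMangoldt p.2 : ℝ) : ℂ) := by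
    intro p hp
    rw [Nat.mem_divisorsAntidiagonal] at hp
    unfold vl
    rw [← hp.1, hg.mul]
    ring
  rw [Finset.sum_congr rfl h3, ← Finset.mul_sum]
  congr 1
  have h4 : ∑ p ∈ n.divisorsAntidiagonal, ((ArithmeticFunction.vonMangoldt p.2 : ℝ) : ℂ) =
      ∑ i ∈ n.divisors, ((ArithmeticFunction.vonMangoldt i : ℝ) : ℂ) :=
    Nat.sum_divisorsAntidiagonal' (f := fun _ j => ((ArithmeticFunction.vonMangoldt j : ℝ) : ℂ))
  rw [h4, ← Complex.ofReal_sum, ArithmeticFunction.vonMangoldt_sum]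

/-- telescoping bounds -/
private lemma tel1 (N : ℕ) : ∑ k ∈ Finset.range N, 1 / (1 + (k : ℝ) ^ 2) ≤ 4 := by
  have h : ∀ M : ℕ, ∑ k ∈ Finset.range M, 1 / (1 + (k : ℝ) ^ 2) ≤ 4 - 4 / ((M : ℝ) + 1) := by
    intro M
    induction M with
    | zero => simp
    | succ M ih =>
      rw [Finset.sum_range_succ]
      have h1 : 1 / (1 + (M : ℝ) ^ 2) ≤ 4 / ((M : ℝ) + 1) - 4 / ((M : ℝ) + 1 + 1) := by
        rw [div_sub_div _ _ (by positivity) (by positivity), div_le_div_iff₀ (by positivity) (by positivity)]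
        nlinarith [sq_nonneg ((M : ℝ) - 1 / 2)]
      push_cast
      linarith
  have h2 := h N
  have h3 : 0 ≤ 4 / ((N : ℝ) + 1) := by positivity
  linarith

private lemma tel2 (T : ℝ) (hT : 1 ≤ T) (N : ℕ) :
    ∑ k ∈ Finset.range N, (if T < (k : ℝ) then 1 / (1 + (k : ℝ) ^ 2) else 0) ≤ 2 / T := by
  have h : ∀ M : ℕ, ∑ k ∈ Finset.range M, (if T < (k : ℝ) then 1 / (1 + (k : ℝ) ^ 2) else 0) ≤
      2 / T - 2 / max T M := by
    intro M
    induction M with
    | zero =>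
      have : max T ((0 : ℕ) : ℝ) = T := max_eq_left (by push_cast; linarith)
      rw [this]
      simp
    | succ M ih =>
      rw [Finset.sum_range_succ]
      have hM : (0 : ℝ) ≤ M := Nat.cast_nonneg M
      have h1 : (if T < (M : ℝ) then 1 / (1 + (M : ℝ) ^ 2) else 0) ≤
          2 / max T M - 2 / max T ((M + 1 : ℕ) : ℝ) := by
        split_ifs with hc
        · rw [max_eq_right hc.le, max_eq_right (by push_cast; linarith)]
          have hM' : (1 : ℝ) < M := by linarith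
          push_cast
          rw [div_sub_div _ _ (by positivity) (by positivity), div_le_div_iff₀ (by positivity) (by positivity)]
          nlinarith [sq_nonneg ((M : ℝ) - 1 / 2)]
        · rw [sub_nonneg]
          apply div_le_div_of_nonneg_left (by norm_num) (by positivity)
          apply max_le_max le_rfl
          push_cast
          linarith
      linarith
  refine (h N).trans ?_
  have : 0 ≤ 2 / max T N := by positivity
  linarith

private lemma blk_vm {C : ℝ} (hC : ∀ x : ℝ, 0 ≤ x →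
    ∑ n ∈ Icc 1 ⌊x⌋₊, ArithmeticFunction.vonMangoldt n ≤ C * x) (j : ℕ) :
    ∑ n ∈ blk j, ArithmeticFunction.vonMangoldt n ≤ C * Real.exp (j + 1) := by
  refine le_trans ?_ (hC _ (Real.exp_pos _).le)
  apply Finset.sum_le_sum_of_subset_of_nonneg
  · intro n hn
    obtain ⟨h1, h2⟩ := mem_blk hn
    rw [Finset.mem_Icc]
    refine ⟨?_, Nat.le_floor h2.le⟩
    have h3 : (0 : ℝ) < n := (Real.exp_pos _).trans_le h1
    exact_mod_cast h3
  · intro n _ _
    exact ArithmeticFunction.vonMangoldt_nonneg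

private lemma blk_card (j : ℕ) : ((blk j).card : ℝ) ≤ Real.exp (j + 1) := by
  unfold blk
  rw [Nat.card_Ico, Nat.cast_sub (Nat.ceil_mono (Real.exp_le_exp.2 (by linarith)))]
  have h1 : ((⌈Real.exp (j + 1)⌉₊ : ℕ) : ℝ) < Real.exp (j + 1) + 1 := Nat.ceil_lt_add_one (Real.exp_pos _).le
  have h2 : (1 : ℝ) ≤ ((⌈Real.exp j⌉₊ : ℕ) : ℝ) := by
    have : 1 ≤ ⌈Real.exp j⌉₊ := by
      rw [Nat.one_le_ceil_iff]
      exact Real.exp_pos _
    exact_mod_cast this
  linarith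

private lemma blk_log {j n : ℕ} (h : n ∈ blk j) : 0 ≤ Real.log n ∧ Real.log n ≤ j + 1 := by
  obtain ⟨h1, h2⟩ := mem_blk h
  have h3 : (1 : ℝ) ≤ n := by
    have := Real.add_one_le_exp (j : ℝ)
    have hj : (0 : ℝ) ≤ j := Nat.cast_nonneg j
    linarith
  refine ⟨Real.log_nonneg h3, ?_⟩
  rw [Real.log_le_iff_le_exp (by linarith)]
  exact h2.le

private lemma cast_le {g : ℕ → ℂ} (hg : CM g) (σ : ℝ) (n : ℕ) : ‖cf g σ n‖ ≤ (n : ℝ) ^ (-(1 + σ)) := by
  rw [cf_norm]
  have h := hg.bdd n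
  have h0 : 0 ≤ (n : ℝ) ^ (-(1 + σ)) := Real.rpow_nonneg (Nat.cast_nonneg n) _
  nlinarith

private lemma exp_split (σ : ℝ) (j : ℕ) :
    Real.exp (j + 1) * Real.exp (-(1 + σ) * j) = Real.exp 1 * Real.exp (-(σ * j)) := by
  rw [← Real.exp_add, ← Real.exp_add]
  congr 1
  ring

/-- blocks of `g` -/
private lemma b_one {g : ℕ → ℂ} (hg : CM g) {σ : ℝ} (hσ : 0 < σ) (j : ℕ) :
    ∑ n ∈ blk j, ‖cf g σ n‖ ≤ Real.exp 1 * Real.exp (-(σ * j)) := by
  calc ∑ n ∈ blk j, ‖cf g σ n‖ ≤ ∑ n ∈ blk j, Real.exp (-(1 + σ) * j) :=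
        Finset.sum_le_sum fun n hn => (cast_le hg σ n).trans (rpow_blk hσ hn)
    _ = ((blk j).card : ℝ) * Real.exp (-(1 + σ) * j) := by rw [Finset.sum_const, nsmul_eq_mul]
    _ ≤ Real.exp (j + 1) * Real.exp (-(1 + σ) * j) :=
        mul_le_mul_of_nonneg_right (blk_card j) (Real.exp_pos _).le
    _ = _ := exp_split σ j

private lemma b_vl {C : ℝ} (hC0 : 0 < C) (hC : ∀ x : ℝ, 0 ≤ x →
    ∑ n ∈ Icc 1 ⌊x⌋₊, ArithmeticFunction.vonMangoldt n ≤ C * x) {g : ℕ → ℂ} (hg : CM g)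
    {σ : ℝ} (hσ : 0 < σ) (j : ℕ) :
    ∑ n ∈ blk j, ‖cf (vl g) σ n‖ ≤ C * Real.exp 1 * Real.exp (-(σ * j)) := by
  have h1 : ∀ n ∈ blk j, ‖cf (vl g) σ n‖ ≤
      ArithmeticFunction.vonMangoldt n * Real.exp (-(1 + σ) * j) := by
    intro n hn
    rw [cf_norm]
    unfold vl
    rw [norm_mul, Complex.norm_real, Real.norm_of_nonneg ArithmeticFunction.vonMangoldt_nonneg]
    have h := hg.bdd n
    have h0 : 0 ≤ (n : ℝ) ^ (-(1 + σ)) := Real.rpow_nonneg (Nat.cast_nonneg n) _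
    have hL : (0 : ℝ) ≤ ArithmeticFunction.vonMangoldt n := ArithmeticFunction.vonMangoldt_nonneg
    calc ‖g n‖ * ArithmeticFunction.vonMangoldt n * (n : ℝ) ^ (-(1 + σ))
        ≤ 1 * ArithmeticFunction.vonMangoldt n * (n : ℝ) ^ (-(1 + σ)) := by gcongr
      _ = ArithmeticFunction.vonMangoldt n * (n : ℝ) ^ (-(1 + σ)) := by ring
      _ ≤ _ := mul_le_mul_of_nonneg_left (rpow_blk hσ hn) hL
  calc ∑ n ∈ blk j, ‖cf (vl g) σ n‖ ≤ ∑ n ∈ blk j, ArithmeticFunction.vonMangoldt n * Real.exp (-(1 + σ) * j) :=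
        Finset.sum_le_sum h1
    _ = (∑ n ∈ blk j, ArithmeticFunction.vonMangoldt n) * Real.exp (-(1 + σ) * j) := by rw [Finset.sum_mul]
    _ ≤ C * Real.exp (j + 1) * Real.exp (-(1 + σ) * j) :=
        mul_le_mul_of_nonneg_right (blk_vm hC j) (Real.exp_pos _).le
    _ = _ := by rw [mul_assoc, exp_split, mul_assoc]

private lemma b_log {g : ℕ → ℂ} (hg : CM g) {σ : ℝ} (hσ : 0 < σ) (j : ℕ) :
    ∑ n ∈ blk j, ‖cf (fun n => g n * Real.log n) σ n‖ ≤
      Real.exp 1 * ((j + 1) * Real.exp (-(σ * j))) := by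
  have h1 : ∀ n ∈ blk j, ‖cf (fun n => g n * Real.log n) σ n‖ ≤
      (j + 1) * Real.exp (-(1 + σ) * j) := by
    intro n hn
    obtain ⟨h2, h3⟩ := blk_log hn
    rw [cf_norm, norm_mul, Complex.norm_real, Real.norm_of_nonneg h2]
    have h := hg.bdd n
    have h0 : 0 ≤ (n : ℝ) ^ (-(1 + σ)) := Real.rpow_nonneg (Nat.cast_nonneg n) _
    calc ‖g n‖ * Real.log n * (n : ℝ) ^ (-(1 + σ))
        ≤ 1 * (j + 1) * Real.exp (-(1 + σ) * j) := by
          gcongr
          exact rpow_blk hσ hn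
      _ = _ := by ring
  calc ∑ n ∈ blk j, ‖cf (fun n => g n * Real.log n) σ n‖
      ≤ ∑ n ∈ blk j, (j + 1) * Real.exp (-(1 + σ) * j) := Finset.sum_le_sum h1
    _ = ((blk j).card : ℝ) * ((j + 1) * Real.exp (-(1 + σ) * j)) := by rw [Finset.sum_const, nsmul_eq_mul]
    _ ≤ Real.exp (j + 1) * ((j + 1) * Real.exp (-(1 + σ) * j)) :=
        mul_le_mul_of_nonneg_right (blk_card j) (by positivity)
    _ = (j + 1) * (Real.exp (j + 1) * Real.exp (-(1 + σ) * j)) := by ring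
    _ = _ := by rw [exp_split]; ring

/-- `(j + 1) e^{-σ j} ≤ (3/σ) e^{-σ j/2}` for `σ ≤ 3/2`... -/
private lemma jexp {σ : ℝ} (hσ : 0 < σ) (hσ1 : σ ≤ 3 / 2) (j : ℕ) :
    ((j : ℝ) + 1) * Real.exp (-(σ * j)) ≤ 4 / σ * Real.exp (-(σ / 2 * j)) := by
  have h1 : Real.exp (-(σ * j)) = Real.exp (-(σ / 2 * j)) * Real.exp (-(σ / 2 * j)) := by
    rw [← Real.exp_add]
    congr 1
    ring
  have h2 : ((j : ℝ) + 1) * Real.exp (-(σ / 2 * j)) ≤ 4 / σ := by
    have hj : (0 : ℝ) ≤ j := Nat.cast_nonneg j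
    rw [Real.exp_neg, ← div_eq_mul_inv, div_le_div_iff₀ (Real.exp_pos _) hσ]
    have h3 := Real.add_one_le_exp (σ / 2 * j)
    nlinarith
  rw [h1]
  calc ((j : ℝ) + 1) * (Real.exp (-(σ / 2 * j)) * Real.exp (-(σ / 2 * j)))
      = (((j : ℝ) + 1) * Real.exp (-(σ / 2 * j))) * Real.exp (-(σ / 2 * j)) := by ring
    _ ≤ _ := mul_le_mul_of_nonneg_right h2 (Real.exp_pos _).le

/-- integration over one interval with a weight -/
private lemma unit_w {F : ℝ → ℝ} (hF : Continuous F) (hF0 : ∀ t, 0 ≤ F t) (k : ℕ) {M : ℝ} {c : ℝ}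
    (hc : c = k ∨ c = -((k : ℝ) + 1)) (hM : ∫ t in c..(c + 1), F t ≤ M) :
    ∫ t in c..(c + 1), F t / (1 + t ^ 2) ≤ M * (1 / (1 + (k : ℝ) ^ 2)) := by
  have hk : (0 : ℝ) ≤ k := Nat.cast_nonneg k
  have hcont : Continuous fun t => F t / (1 + t ^ 2) :=
    hF.div (by fun_prop) fun t => by positivity
  have h1 : ∫ t in c..(c + 1), F t / (1 + t ^ 2) ≤ ∫ t in c..(c + 1), F t * (1 / (1 + (k : ℝ) ^ 2)) := by
    apply intervalIntegral.integral_mono_on (by linarith)
    · exact hcont.intervalIntegrable _ _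
    · exact (hF.mul continuous_const).intervalIntegrable _ _
    · intro t ht
      rw [div_eq_mul_one_div]
      apply mul_le_mul_of_nonneg_left _ (hF0 t)
      apply one_div_le_one_div_of_le (by positivity)
      have : (k : ℝ) ^ 2 ≤ t ^ 2 := by
        rcases hc with h | h
        · rw [h] at ht
          exact pow_le_pow_left₀ hk ht.1 2
        · rw [h] at ht
          have h2 : (k : ℝ) ≤ -t := by linarith [ht.2]
          have h3 := pow_le_pow_left₀ hk h2 2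
          nlinarith
      linarith
  refine h1.trans ?_
  rw [intervalIntegral.integral_mul_const]
  exact mul_le_mul_of_nonneg_right hM (by positivity)

private lemma total {F : ℝ → ℝ} (hF : Continuous F) (hF0 : ∀ t, 0 ≤ F t) {A B T : ℝ} (hT : 1 ≤ T)
    (hA : 0 ≤ A) (hB : 0 ≤ B) (h1 : ∀ c : ℝ, |c| ≤ T + 1 → |c + 1| ≤ T + 1 → ∫ t in c..(c + 1), F t ≤ A)
    (h2 : ∀ c : ℝ, ∫ t in c..(c + 1), F t ≤ B) :
    ∫ t : ℝ, F t / (1 + t ^ 2) ≤ 8 * A + 4 * (B / T) := by
  have hcont : Continuous fun t => F t / (1 + t ^ 2) :=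
    hF.div (by fun_prop) fun t => by positivity
  have hint : ∀ a b : ℝ, IntervalIntegrable (fun t => F t / (1 + t ^ 2)) volume a b :=
    fun a b => hcont.intervalIntegrable a b
  have hM : ∀ (k : ℕ) (c : ℝ), (c = k ∨ c = -((k : ℝ) + 1)) →
      ∫ t in c..(c + 1), F t ≤ A + (if T < (k : ℝ) then B else 0) := by
    intro k c hc
    have hk : (0 : ℝ) ≤ k := Nat.cast_nonneg k
    split_ifs with hk'
    · linarith [h2 c]
    · push Not at hk'
      rw [add_zero]
      rcases hc with h | h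
      · apply h1 c
        · rw [h, abs_of_nonneg hk]
          linarith
        · rw [h, abs_of_nonneg (by linarith)]
          linarith
      · apply h1 c
        · rw [h, abs_neg, abs_of_nonneg (by linarith)]
          linarith
        · rw [h, abs_of_nonpos (by linarith)]
          linarith
  have hs : ∀ N : ℕ, ∑ k ∈ Finset.range N, (A + (if T < (k : ℝ) then B else 0)) * (1 / (1 + (k : ℝ) ^ 2)) ≤
      4 * A + 2 * (B / T) := by
    intro N
    have e1 : ∀ k ∈ Finset.range N, (A + (if T < (k : ℝ) then B else 0)) * (1 / (1 + (k : ℝ) ^ 2)) =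
        A * (1 / (1 + (k : ℝ) ^ 2)) + B * (if T < (k : ℝ) then 1 / (1 + (k : ℝ) ^ 2) else 0) := by
      intro k _
      split_ifs <;> ring
    rw [Finset.sum_congr rfl e1, Finset.sum_add_distrib, ← Finset.mul_sum, ← Finset.mul_sum]
    have e2 := mul_le_mul_of_nonneg_left (tel1 N) hA
    have e3 := mul_le_mul_of_nonneg_left (tel2 T hT N) hB
    have e4 : B * (2 / T) = 2 * (B / T) := by ring
    linarith
  have hpos : ∀ N : ℕ, ∫ t in (0 : ℝ)..N, F t / (1 + t ^ 2) ≤ 4 * A + 2 * (B / T) := by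
    intro N
    have e := intervalIntegral.sum_integral_adjacent_intervals (f := fun t => F t / (1 + t ^ 2))
      (μ := volume) (a := fun k : ℕ => (k : ℝ)) (n := N) (fun k _ => hint _ _)
    simp only [Nat.cast_zero] at e
    rw [← e]
    refine le_trans (Finset.sum_le_sum fun k _ => ?_) (hs N)
    push_cast
    exact unit_w hF hF0 k (Or.inl rfl) (hM k _ (Or.inl rfl))
  have hneg : ∀ N : ℕ, ∫ t in (-(N : ℝ))..0, F t / (1 + t ^ 2) ≤ 4 * A + 2 * (B / T) := by
    intro N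
    have e := intervalIntegral.sum_integral_adjacent_intervals (f := fun t => F t / (1 + t ^ 2))
      (μ := volume) (a := fun k : ℕ => -(k : ℝ)) (n := N) (fun k _ => hint _ _)
    simp only [Nat.cast_zero, neg_zero] at e
    rw [intervalIntegral.integral_symm, ← e, ← Finset.sum_neg_distrib]
    refine le_trans (Finset.sum_le_sum fun k _ => ?_) (hs N)
    rw [← intervalIntegral.integral_symm]
    push_cast
    have := unit_w hF hF0 k (c := -((k : ℝ) + 1)) (Or.inr rfl) (hM k _ (Or.inr rfl))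
    have e2 : -((k : ℝ) + 1) + 1 = -k := by ring
    rw [e2] at this
    exact this
  by_cases hi : Integrable fun t => F t / (1 + t ^ 2)
  · have hlim := intervalIntegral_tendsto_integral hi
      (tendsto_neg_atTop_atBot.comp tendsto_natCast_atTop_atTop)
      (tendsto_natCast_atTop_atTop (R := ℝ))
    refine le_of_tendsto hlim (Eventually.of_forall fun N => ?_)
    simp only [Function.comp]
    rw [← intervalIntegral.integral_add_adjacent_intervals (hint _ 0) (hint 0 _)]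
    linarith [hpos N, hneg N]
  · rw [integral_undef hi]
    positivity

end L2bAux

open L2bAux

/-- `σ = 1/log x`, `D(t) = Gs (g·log) σ t = -G'`. (1) `D = G · Λ_g`, `Λ_g(t) = ∑ Λ(n) g(n) n^{-1-σ-it}` (absolutely convergent; `∑_{d|n} Λ(d) = log n` and complete
multiplicativity). (2) `unit_mvt` for `Λ_g`: blocks `∑_{e^j≤n<e^{j+1}} Λ(n) n^{-1-σ} ≤ C e^{-σj}`, so `B ≤ C`, `∑ ≤ C/σ`: `∫_c^{c+1} |Λ_g|² ≤ C/σ` for every `c`. (3) `unit_mvt` for `D`: blocks
`≤ C (1+j) e^{-σj} ≤ C/σ`, `∑ log n n^{-1-σ} ≤ C/σ²`: `∫_c^{c+1} |D|² ≤ C/σ³`. (4) Sum over unit intervals `[k, k+1]`, `k ∈ ℤ`, weights `1/(1+t²) ≤ 4/(1+k²)`: for `[k,k+1] ⊂ [-T-1,T+1]` use (1), (2), otherwise (3),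
`∑_{|k| ≥ T - 1} 1/(1+k²) ≤ C/T`. -/
theorem l2b : ∃ C : ℝ, 0 < C ∧ ∀ (g : ℕ → ℂ) (x T K : ℝ), CM g → 2 ≤ x → 1 ≤ T → 0 ≤ K →
    (∀ t, |t| ≤ T + 1 → ‖Gs g (1 / Real.log x) t‖ ≤ K) →
    ∫ t : ℝ, ‖Gs (fun n => g n * Real.log n) (1 / Real.log x) t‖ ^ 2 / (1 + t ^ 2) ≤
      C * (K ^ 2 * Real.log x + Real.log x ^ 3 / T) := by
  obtain ⟨C₁, hC₁, hU⟩ := unit_mvt
  obtain ⟨C₂, hC₂, hP⟩ := cheb_psi
  refine ⟨8 * (C₁ * (C₂ * Real.exp 1) * (C₂ * Real.exp 1 * 3)) +
    4 * (C₁ * (Real.exp 1 * 4) * (Real.exp 1 * (4 * 4))), by positivity, ?_⟩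
  intro g x T K hg hx hT hK hG
  set L : ℝ := Real.log x with hL
  have hL1 : 0.69 ≤ L := by
    have h1 : Real.log 2 ≤ L := Real.log_le_log (by norm_num) hx
    have h2 := Real.log_two_gt_d9
    linarith
  have hL0 : 0 < L := by linarith
  set σ : ℝ := 1 / L with hσ
  have hσ0 : 0 < σ := by positivity
  have hσ1 : σ ≤ 3 / 2 := by
    rw [hσ, div_le_iff₀ hL0]
    linarith
  have hσL : 1 / σ = L := by
    rw [hσ]
    field_simp
  -- summability
  have hgeo := geo σ hσ0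
  have hsum1 : Summable fun n => ‖cf g σ n‖ :=
    (blocks _ _ (by rw [cf_zero _ _ hσ0, norm_zero]) (fun n => norm_nonneg _)
      (hgeo.1.mul_left _) (b_one hg hσ0)).1
  have hbv := blocks _ _ (by rw [cf_zero _ _ hσ0, norm_zero]) (fun n => norm_nonneg _)
      (hgeo.1.mul_left _) (b_vl hC₂ hP hg hσ0)
  have hgeo2 := geo (σ / 2) (by positivity)
  have hbl := blocks (fun n => ‖cf (fun n => g n * Real.log n) σ n‖)
      (fun j : ℕ => Real.exp 1 * (4 / σ) * Real.exp (-(σ / 2 * j)))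
      (by simp only [cf_zero _ _ hσ0, norm_zero]) (fun n => norm_nonneg _)
      (hgeo2.1.mul_left _) (fun j => (b_log hg hσ0 j).trans (by
        rw [mul_assoc]
        exact mul_le_mul_of_nonneg_left (jexp hσ0 hσ1 j) (Real.exp_pos 1).le))
  have hsumv := hbv.1
  have hsuml := hbl.1
  have htv : ∑' n, ‖cf (vl g) σ n‖ ≤ C₂ * Real.exp 1 * 3 * L := by
    refine hbv.2.trans ?_
    rw [tsum_mul_left]
    have : ∑' j : ℕ, Real.exp (-(σ * j)) ≤ 3 * L := by
      refine hgeo.2.trans ?_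
      rw [hσL]
      linarith
    calc C₂ * Real.exp 1 * ∑' j : ℕ, Real.exp (-(σ * j)) ≤ C₂ * Real.exp 1 * (3 * L) := by gcongr
      _ = _ := by ring
  have htl : ∑' n, ‖cf (fun n => g n * Real.log n) σ n‖ ≤ Real.exp 1 * (4 * 4) * L ^ 2 := by
    refine hbl.2.trans ?_
    rw [tsum_mul_left]
    have : ∑' j : ℕ, Real.exp (-(σ / 2 * j)) ≤ 4 * L := by
      refine hgeo2.2.trans ?_
      have : 1 / (σ / 2) = 2 * L := by
        rw [← hσL]
        field_simp
      rw [this]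
      linarith
    have h4 : 4 / σ = 4 * L := by
      rw [← hσL]
      field_simp
    rw [h4]
    calc Real.exp 1 * (4 * L) * ∑' j : ℕ, Real.exp (-(σ / 2 * j)) ≤ Real.exp 1 * (4 * L) * (4 * L) := by gcongr
      _ = _ := by ring
  have he1 : ∀ j : ℕ, Real.exp (-(σ * j)) ≤ 1 := by
    intro j
    rw [Real.exp_le_one_iff]
    have : (0 : ℝ) ≤ j := Nat.cast_nonneg j
    have := mul_nonneg hσ0.le this
    linarith
  have he2 : ∀ j : ℕ, Real.exp (-(σ / 2 * j)) ≤ 1 := by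
    intro j
    rw [Real.exp_le_one_iff]
    have : (0 : ℝ) ≤ j := Nat.cast_nonneg j
    have := mul_nonneg (half_pos hσ0).le this
    linarith
  have hUv : ∀ c : ℝ, ∫ t in c..(c + 1), ‖Gs (vl g) σ t‖ ^ 2 ≤
      C₁ * (C₂ * Real.exp 1) * (C₂ * Real.exp 1 * 3 * L) := by
    intro c
    have := hU (cf (vl g) σ) (C₂ * Real.exp 1) c (cf_zero _ _ hσ0) hsumv (fun j => by
      refine (b_vl hC₂ hP hg hσ0 j).trans ?_
      have := mul_le_mul_of_nonneg_left (he1 j) (show 0 ≤ C₂ * Real.exp 1 by positivity)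
      linarith)
    refine le_trans this ?_
    gcongr
  have hUl : ∀ c : ℝ, ∫ t in c..(c + 1), ‖Gs (fun n => g n * Real.log n) σ t‖ ^ 2 ≤
      C₁ * (Real.exp 1 * (4 / σ)) * (Real.exp 1 * (4 * 4) * L ^ 2) := by
    intro c
    have := hU (cf (fun n => g n * Real.log n) σ) (Real.exp 1 * (4 / σ)) c (cf_zero _ _ hσ0) hsuml (fun j => by
      refine (b_log hg hσ0 j).trans ?_
      apply mul_le_mul_of_nonneg_left _ (Real.exp_pos 1).le
      refine (jexp hσ0 hσ1 j).trans ?_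
      have := mul_le_mul_of_nonneg_left (he2 j) (show 0 ≤ 4 / σ by positivity)
      linarith)
    refine le_trans this ?_
    gcongr
  have hcl : Continuous fun t => ‖Gs (fun n => g n * Real.log n) σ t‖ ^ 2 :=
    ((Gs_cont _ σ hsuml).norm).pow 2
  have hcv : Continuous fun t => ‖Gs (vl g) σ t‖ ^ 2 := ((Gs_cont _ σ hsumv).norm).pow 2
  have hA : ∀ c : ℝ, |c| ≤ T + 1 → |c + 1| ≤ T + 1 →
      ∫ t in c..(c + 1), ‖Gs (fun n => g n * Real.log n) σ t‖ ^ 2 ≤
      K ^ 2 * (C₁ * (C₂ * Real.exp 1) * (C₂ * Real.exp 1 * 3 * L)) := by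
    intro c hc hc1
    have h1 : ∫ t in c..(c + 1), ‖Gs (fun n => g n * Real.log n) σ t‖ ^ 2 ≤
        ∫ t in c..(c + 1), K ^ 2 * ‖Gs (vl g) σ t‖ ^ 2 := by
      apply intervalIntegral.integral_mono_on (by linarith)
      · exact hcl.intervalIntegrable _ _
      · exact (continuous_const.mul hcv).intervalIntegrable _ _
      · intro t ht
        rw [Gs_mul g hg σ t hsum1 hsumv, norm_mul, mul_pow]
        apply mul_le_mul_of_nonneg_right _ (by positivity)
        apply pow_le_pow_left₀ (norm_nonneg _)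
        apply hG
        rw [abs_le] at hc hc1 ⊢
        exact ⟨by linarith [ht.1], by linarith [ht.2]⟩
    refine h1.trans ?_
    rw [intervalIntegral.integral_const_mul]
    exact mul_le_mul_of_nonneg_left (hUv c) (by positivity)
  have hfin := total hcl (fun t => by positivity) hT (by positivity) (by positivity) hA hUl
  refine hfin.trans ?_
  have h4 : 4 / σ = 4 * L := by
    rw [← hσL]
    field_simp
  rw [h4]
  have e1 : 0 ≤ K ^ 2 * L := by positivity
  have e2 : 0 ≤ L ^ 3 / T := by positivity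
  have e3 : 0 ≤ C₁ * (C₂ * Real.exp 1) * (C₂ * Real.exp 1 * 3) := by positivity
  have e4 : 0 ≤ C₁ * (Real.exp 1 * 4) * (Real.exp 1 * (4 * 4)) := by positivity
  have e5 := mul_nonneg e3 e2
  have e6 := mul_nonneg e4 e1
  have e7 : C₁ * (Real.exp 1 * (4 * L)) * (Real.exp 1 * (4 * 4) * L ^ 2) / T =
      C₁ * (Real.exp 1 * 4) * (Real.exp 1 * (4 * 4)) * (L ^ 3 / T) := by ring
  rw [e7]
  nlinarith

end Pool.Agent.Mrd
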