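import Pool.Agent.Mrd.Defs
import Pool.Agent.MP_7f688b_an.Plancherel

/-!
Mrd PLANCH: Plancherel for summatory functions.
-/

set_option autoImplicit false

namespace Pool.Agent.Mrd

open Finset MeasureTheory Filter Topology

private theorem Planch_summable {a : ℕ → ℂ} {σ : ℝ} (hσ : 0 < σ)
    (ha : ∀ n, ‖a n‖ ≤ 1 + Real.log n) :
    Summable fun n : ℕ => ‖a n‖ * (n : ℝ) ^ (-(1 + σ)) := by
  have h1 : Summable fun n : ℕ => (1 + 2 / σ) * (n : ℝ) ^ (-(1 + σ / 2)) :=
    (Real.summable_nat_rpow.mpr (by linarith)).mul_left _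
  refine Summable.of_nonneg_of_le (fun n => by positivity) (fun n => ?_) h1
  rcases Nat.eq_zero_or_pos n with hn | hn
  · subst hn
    rw [Nat.cast_zero, Real.zero_rpow (by linarith), Real.zero_rpow (by linarith), mul_zero,
      mul_zero]
  · have hn1 : (1 : ℝ) ≤ n := by exact_mod_cast hn
    have h2 : Real.log n ≤ (n : ℝ) ^ (σ / 2) / (σ / 2) :=
      Real.log_le_rpow_div (by linarith) (by linarith)
    have h3 : (1 : ℝ) ≤ (n : ℝ) ^ (σ / 2) := Real.one_le_rpow hn1 (by linarith)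
    have h4 : (n : ℝ) ^ (-(1 + σ / 2)) = (n : ℝ) ^ (σ / 2) * (n : ℝ) ^ (-(1 + σ)) := by
      rw [← Real.rpow_add (by linarith)]
      congr 1
      ring
    have h5 : ‖a n‖ ≤ (1 + 2 / σ) * (n : ℝ) ^ (σ / 2) := by
      refine (ha n).trans ?_
      have : (n : ℝ) ^ (σ / 2) / (σ / 2) = 2 / σ * (n : ℝ) ^ (σ / 2) := by
        field_simp
      nlinarith
    rw [h4, ← mul_assoc]
    exact mul_le_mul_of_nonneg_right h5 (by positivity)

private theorem Planch_A_bound {a : ℕ → ℂ} (ha : ∀ n, ‖a n‖ ≤ 1 + Real.log n) {v : ℝ}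
    (hv : 0 ≤ v) : ‖∑ n ∈ Icc 1 ⌊Real.exp v⌋₊, a n‖ ≤ Real.exp v * (1 + v) := by
  have h1 : ∀ n ∈ Icc 1 ⌊Real.exp v⌋₊, ‖a n‖ ≤ 1 + v := by
    intro n hn
    rw [Finset.mem_Icc] at hn
    refine (ha n).trans ?_
    have hn0 : (0 : ℝ) < n := by exact_mod_cast hn.1
    have h2 : (n : ℝ) ≤ Real.exp v := (Nat.le_floor_iff (Real.exp_pos v).le).mp hn.2
    have h3 := Real.log_le_log hn0 h2
    rw [Real.log_exp] at h3
    linarith
  refine (norm_sum_le_of_le _ h1).trans ?_
  rw [Finset.sum_const, Nat.card_Icc, nsmul_eq_mul, Nat.add_sub_cancel]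
  exact mul_le_mul_of_nonneg_right (Nat.floor_le (Real.exp_pos v).le) (by linarith)

private theorem Planch_lin {σ : ℝ} (hσ : 0 < σ) {v : ℝ} (hv : 0 ≤ v) :
    1 + v ≤ (1 + 2 / σ) * Real.exp (σ / 2 * v) := by
  have h1 := Real.add_one_le_exp (σ / 2 * v)
  have h2 : 2 / σ * (σ / 2 * v) = v := by field_simp
  have h3 : 2 / σ * (σ / 2 * v + 1) ≤ 2 / σ * Real.exp (σ / 2 * v) :=
    mul_le_mul_of_nonneg_left h1 (by positivity)
  have h4 : 0 ≤ σ / 2 * v := by positivity
  have h5 : 0 < 2 / σ := by positivity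
  nlinarith

/-- the function `h` -/
private noncomputable def Planch_h (a : ℕ → ℂ) (σ : ℝ) (v : ℝ) : ℂ :=
  (Set.Ici (0 : ℝ)).indicator
    (fun v => (∑ n ∈ Icc 1 ⌊Real.exp v⌋₊, a n) * ((Real.exp (-(1 + σ) * v) : ℝ) : ℂ)) v

private theorem Planch_h_norm {a : ℕ → ℂ} {σ : ℝ} (hσ : 0 < σ)
    (ha : ∀ n, ‖a n‖ ≤ 1 + Real.log n) (v : ℝ) :
    ‖Planch_h a σ v‖ ≤ (Set.Ici (0 : ℝ)).indicator
      (fun v => (1 + 2 / σ) * Real.exp (-(σ / 2) * v)) v := by
  unfold Planch_h
  by_cases hv : v ∈ Set.Ici (0 : ℝ)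
  · rw [Set.indicator_of_mem hv, Set.indicator_of_mem hv, norm_mul, Complex.norm_real,
      Real.norm_of_nonneg (Real.exp_pos _).le]
    have h1 := Planch_A_bound ha (Set.mem_Ici.mp hv)
    have h2 := Planch_lin hσ (Set.mem_Ici.mp hv)
    calc ‖∑ n ∈ Icc 1 ⌊Real.exp v⌋₊, a n‖ * Real.exp (-(1 + σ) * v)
        ≤ (Real.exp v * ((1 + 2 / σ) * Real.exp (σ / 2 * v))) * Real.exp (-(1 + σ) * v) :=
          mul_le_mul_of_nonneg_right (h1.trans (mul_le_mul_of_nonneg_left h2
            (Real.exp_pos v).le)) (Real.exp_pos _).le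
      _ = (1 + 2 / σ) * (Real.exp v * Real.exp (σ / 2 * v) * Real.exp (-(1 + σ) * v)) := by ring
      _ = (1 + 2 / σ) * Real.exp (-(σ / 2) * v) := by
          rw [← Real.exp_add, ← Real.exp_add]
          congr 2
          ring
  · rw [Set.indicator_of_notMem hv, Set.indicator_of_notMem hv, norm_zero]

private theorem Planch_meas_sum (a : ℕ → ℂ) :
    Measurable fun u : ℝ => ∑ n ∈ Icc 1 ⌊u⌋₊, a n :=
  (measurable_from_nat (f := fun N : ℕ => ∑ n ∈ Icc 1 N, a n)).comp Nat.measurable_floor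

private theorem Planch_meas (a : ℕ → ℂ) (σ : ℝ) : Measurable (Planch_h a σ) := by
  unfold Planch_h
  refine Measurable.indicator ?_ measurableSet_Ici
  exact ((Planch_meas_sum a).comp Real.measurable_exp).mul (by fun_prop)

private theorem Planch_exp_integrable {c : ℝ} (hc : 0 < c) (K : ℝ) :
    Integrable ((Set.Ici (0 : ℝ)).indicator fun v => K * Real.exp (-c * v)) := by
  rw [integrable_indicator_iff measurableSet_Ici, integrableOn_Ici_iff_integrableOn_Ioi]
  exact (integrableOn_exp_mul_Ioi (by linarith) 0).const_mul K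

private theorem Planch_integrable {a : ℕ → ℂ} {σ : ℝ} (hσ : 0 < σ)
    (ha : ∀ n, ‖a n‖ ≤ 1 + Real.log n) : Integrable (Planch_h a σ) :=
  (Planch_exp_integrable (by linarith : 0 < σ / 2) (1 + 2 / σ)).mono'
    (Planch_meas a σ).aestronglyMeasurable (Eventually.of_forall (Planch_h_norm hσ ha))

private theorem Planch_sq_integrable {a : ℕ → ℂ} {σ : ℝ} (hσ : 0 < σ)
    (ha : ∀ n, ‖a n‖ ≤ 1 + Real.log n) : Integrable (fun v => ‖Planch_h a σ v‖ ^ 2) := by
  refine (Planch_exp_integrable hσ ((1 + 2 / σ) ^ 2)).mono'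
    ((Planch_meas a σ).norm.pow_const 2).aestronglyMeasurable (Eventually.of_forall fun v => ?_)
  rw [Real.norm_of_nonneg (by positivity)]
  have h1 := Planch_h_norm hσ ha v
  by_cases hv : v ∈ Set.Ici (0 : ℝ)
  · rw [Set.indicator_of_mem hv] at h1 ⊢
    refine (pow_le_pow_left₀ (norm_nonneg _) h1 2).trans (le_of_eq ?_)
    rw [mul_pow, ← Real.exp_nat_mul]
    congr 2
    push_cast
    ring
  · rw [Set.indicator_of_notMem hv] at h1 ⊢
    have : ‖Planch_h a σ v‖ = 0 := le_antisymm h1 (norm_nonneg _)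
    rw [this]
    norm_num

private theorem Planch_memLp {a : ℕ → ℂ} {σ : ℝ} (hσ : 0 < σ)
    (ha : ∀ n, ‖a n‖ ≤ 1 + Real.log n) : MemLp (Planch_h a σ) 2 := by
  rw [memLp_two_iff_integrable_sq_norm (Planch_meas a σ).aestronglyMeasurable]
  exact Planch_sq_integrable hσ ha

private theorem Planch_fourier {a : ℕ → ℂ} {σ : ℝ} (hσ : 0 < σ) (h0 : a 0 = 0)
    (ha : ∀ n, ‖a n‖ ≤ 1 + Real.log n) (ξ : ℝ) :
    FourierTransform.fourier (Planch_h a σ) ξ = Gs a σ (2 * Real.pi * ξ) /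
      (1 + (σ : ℂ) + 2 * Real.pi * ξ * Complex.I) := by
  set s : ℂ := 1 + (σ : ℂ) + 2 * Real.pi * ξ * Complex.I with hs
  have hsre : (-s).re = -(1 + σ) := by
    rw [hs]
    simp
  set F : ℕ → ℝ → ℂ := fun n => (Set.Ici (Real.log n)).indicator
    (fun v : ℝ => a n * Complex.exp (-s * v)) with hF
  have hFint : ∀ n, Integrable (F n) := by
    intro n
    rw [hF]
    beta_reduce
    rw [integrable_indicator_iff measurableSet_Ici, integrableOn_Ici_iff_integrableOn_Ioi]
    exact (integrableOn_exp_mul_complex_Ioi (by rw [hsre]; linarith) _).const_mul _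
  have hFval : ∀ n, ∫ v, F n v = a n * (((n : ℝ) ^ (-(1 + σ)) : ℝ) : ℂ) *
      tw (2 * Real.pi * ξ) n / s := by
    intro n
    rcases Nat.eq_zero_or_pos n with hn | hn
    · subst hn
      simp [hF, h0]
    · rw [hF]
      beta_reduce
      rw [integral_indicator measurableSet_Ici, integral_Ici_eq_integral_Ioi,
        integral_const_mul, integral_exp_mul_complex_Ioi (by rw [hsre]; linarith)]
      have hn0 : (0 : ℝ) < n := by exact_mod_cast hn
      have e1 : Complex.exp (-s * (Real.log n : ℝ)) =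
          (((n : ℝ) ^ (-(1 + σ)) : ℝ) : ℂ) * tw (2 * Real.pi * ξ) n := by
        rw [Real.rpow_def_of_pos hn0, tw, Complex.ofReal_exp, ← Complex.exp_add]
        congr 1
        rw [hs]
        push_cast
        ring
      rw [e1]
      have : (-s)⁻¹ = - s⁻¹ := inv_neg
      rw [div_eq_mul_inv, this, div_eq_mul_inv]
      ring
  have hFnorm : ∀ n, ∫ v, ‖F n v‖ ≤ ‖a n‖ * (n : ℝ) ^ (-(1 + σ)) := by
    intro n
    rcases Nat.eq_zero_or_pos n with hn | hn
    · subst hn
      simp [hF, h0]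
    · have hn0 : (0 : ℝ) < n := by exact_mod_cast hn
      have e1 : (fun v => ‖F n v‖) = (Set.Ici (Real.log n)).indicator
          (fun v : ℝ => ‖a n‖ * Real.exp (-(1 + σ) * v)) := by
        funext v
        rw [hF]
        beta_reduce
        rw [norm_indicator_eq_indicator_norm]
        congr 1
        funext v
        rw [norm_mul, Complex.norm_exp]
        congr 2
        rw [Complex.re_mul_ofReal, hsre]
      rw [e1, integral_indicator measurableSet_Ici, integral_Ici_eq_integral_Ioi,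
        integral_const_mul, integral_exp_mul_Ioi (by linarith)]
      have e2 : Real.exp (-(1 + σ) * Real.log n) = (n : ℝ) ^ (-(1 + σ)) := by
        rw [Real.rpow_def_of_pos hn0]
        congr 1
        ring
      rw [e2]
      refine mul_le_mul_of_nonneg_left ?_ (norm_nonneg _)
      rw [neg_div_neg_eq, div_le_iff₀ (by linarith)]
      have : 0 < (n : ℝ) ^ (-(1 + σ)) := by positivity
      nlinarith
  have hsum : Summable fun n => ∫ v, ‖F n v‖ :=
    Summable.of_nonneg_of_le (fun n => integral_nonneg fun v => norm_nonneg _) hFnorm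
      (Planch_summable hσ ha)
  have key := (hasSum_integral_of_summable_integral_norm hFint hsum).tsum_eq
  rw [Real.fourier_real_eq_integral_exp_smul]
  have e1 : ∀ v : ℝ, Complex.exp ((↑(-2 * Real.pi * v * ξ) : ℂ) * Complex.I) • Planch_h a σ v =
      ∑' n, F n v := by
    intro v
    unfold Planch_h
    by_cases hv : v ∈ Set.Ici (0 : ℝ)
    · rw [Set.indicator_of_mem hv]
      rw [tsum_eq_sum (s := Icc 1 ⌊Real.exp v⌋₊)]
      · have e2 : ∀ n ∈ Icc 1 ⌊Real.exp v⌋₊, F n v = a n * Complex.exp (-s * v) := by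
          intro n hn
          rw [Finset.mem_Icc] at hn
          rw [hF]
          beta_reduce
          rw [Set.indicator_of_mem]
          rw [Set.mem_Ici]
          have hn0 : (0 : ℝ) < n := by exact_mod_cast hn.1
          have h3 := Real.log_le_log hn0 ((Nat.le_floor_iff (Real.exp_pos v).le).mp hn.2)
          rwa [Real.log_exp] at h3
        rw [Finset.sum_congr rfl e2, ← Finset.sum_mul, smul_eq_mul, Complex.ofReal_exp]
        have e3 : Complex.exp (-s * v) = Complex.exp ((↑(-2 * Real.pi * v * ξ) : ℂ) * Complex.I) *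
            Complex.exp ((-(1 + σ) * v : ℝ) : ℂ) := by
          rw [← Complex.exp_add]
          congr 1
          rw [hs]
          push_cast
          ring
        rw [e3]
        ring
      · intro n hn
        rw [hF]
        beta_reduce
        rcases Nat.eq_zero_or_pos n with hn' | hn'
        · subst hn'
          simp [h0]
        · rw [Set.indicator_of_notMem]
          rw [Set.mem_Ici, not_le]
          rw [Finset.mem_Icc, not_and] at hn
          have h2 := hn hn'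
          rw [Nat.le_floor_iff (Real.exp_pos v).le, not_le] at h2
          have h3 := Real.log_lt_log (Real.exp_pos v) h2
          rwa [Real.log_exp] at h3
    · rw [Set.indicator_of_notMem hv, smul_zero]
      symm
      have : ∀ n, F n v = 0 := by
        intro n
        rw [hF]
        beta_reduce
        rw [Set.indicator_of_notMem]
        rw [Set.mem_Ici, not_le] at hv ⊢
        exact hv.trans_le (Real.log_natCast_nonneg n)
      simp [this]
  rw [integral_congr_ae (Eventually.of_forall e1), ← key]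
  simp only [hFval]
  rw [tsum_div_const]
  rfl

private theorem Planch_G_cont {a : ℕ → ℂ} {σ : ℝ} (hσ : 0 < σ)
    (ha : ∀ n, ‖a n‖ ≤ 1 + Real.log n) : Continuous (Gs a σ) := by
  unfold Gs
  refine continuous_tsum (fun n => continuous_const.mul (tw_continuous n))
    (Planch_summable hσ ha) fun n t => ?_
  rw [norm_mul, norm_mul, tw_norm, mul_one, Complex.norm_real, Real.norm_of_nonneg (by positivity)]

private theorem Planch_G_bound {a : ℕ → ℂ} {σ : ℝ} (hσ : 0 < σ)
    (ha : ∀ n, ‖a n‖ ≤ 1 + Real.log n) (t : ℝ) :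
    ‖Gs a σ t‖ ≤ ∑' n : ℕ, ‖a n‖ * (n : ℝ) ^ (-(1 + σ)) := by
  unfold Gs
  have h1 : ∀ n : ℕ, ‖a n * (((n : ℝ) ^ (-(1 + σ)) : ℝ) : ℂ) * tw t n‖ =
      ‖a n‖ * (n : ℝ) ^ (-(1 + σ)) := by
    intro n
    rw [norm_mul, norm_mul, tw_norm, mul_one, Complex.norm_real,
      Real.norm_of_nonneg (by positivity)]
  refine (norm_tsum_le_tsum_norm ?_).trans (le_of_eq ?_)
  · simp only [h1]
    exact Planch_summable hσ ha
  · simp only [h1]

/-- `A(u) = ∑_{1≤n≤u} a n`, `h(v) = A(e^v) e^{-(1+σ)v} 1_{v ≥ 0}`: `|A(e^v)| ≤ e^v (1+v)`, so `h` is integrable and in `L²`. `𝓕 h(ξ) = ∑_n a_n ∫_{log n}^∞ e^{-(1+σ+2πiξ)v} dv =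
∑ a_n n^{-(1+σ+2πiξ)}/(1+σ+2πiξ)`. `Pool.Agent.MP_7f688b_an.lintegral_fourier_sq`, `t = 2πξ`, `|1+σ+it|² ≥ 1 + t²`; substitution `u = e^v` on the left. -/
theorem planch : ∃ C : ℝ, 0 < C ∧ ∀ (a : ℕ → ℂ) (σ : ℝ), 0 < σ → a 0 = 0 →
    (∀ n, ‖a n‖ ≤ 1 + Real.log n) →
    IntegrableOn (fun u : ℝ => ‖∑ n ∈ Icc 1 ⌊u⌋₊, a n‖ ^ 2 * u ^ (-(3 + 2 * σ))) (Set.Ioi 1) ∧
    Integrable (fun t : ℝ => ‖Gs a σ t‖ ^ 2 / (1 + t ^ 2)) ∧
    ∫ u in Set.Ioi (1 : ℝ), ‖∑ n ∈ Icc 1 ⌊u⌋₊, a n‖ ^ 2 * u ^ (-(3 + 2 * σ)) ≤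
      C * ∫ t : ℝ, ‖Gs a σ t‖ ^ 2 / (1 + t ^ 2) := by
  refine ⟨1, one_pos, fun a σ hσ h0 ha => ?_⟩
  set B : ℝ := ∑' n : ℕ, ‖a n‖ * (n : ℝ) ^ (-(1 + σ)) with hB
  have hB0 : 0 ≤ B := tsum_nonneg fun n => by positivity
  -- the right hand side
  have hR : Integrable (fun t : ℝ => ‖Gs a σ t‖ ^ 2 / (1 + t ^ 2)) := by
    refine (integrable_inv_one_add_sq.const_mul (B ^ 2)).mono' ?_ (Eventually.of_forall fun t => ?_)
    · apply Continuous.aestronglyMeasurable
      exact ((Planch_G_cont hσ ha).norm.pow 2).div (by fun_prop) (fun t => by positivity)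
    · rw [Real.norm_of_nonneg (by positivity), div_eq_mul_inv]
      exact mul_le_mul_of_nonneg_right (pow_le_pow_left₀ (norm_nonneg _) (Planch_G_bound hσ ha t) 2)
        (by positivity)
  -- substitution
  set f : ℝ → ℝ := fun u => ‖∑ n ∈ Icc 1 ⌊u⌋₊, a n‖ ^ 2 * u ^ (-(3 + 2 * σ)) with hf
  have himg : Real.exp '' Set.Ioi (0 : ℝ) = Set.Ioi 1 := by
    rw [← Real.exp_zero]
    ext u
    constructor
    · rintro ⟨v, hv, rfl⟩
      exact Real.exp_lt_exp.mpr hv
    · intro hu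
      have hu' : Real.exp 0 < u := hu
      have hu0 : 0 < u := (Real.exp_pos 0).trans hu'
      refine ⟨Real.log u, ?_, Real.exp_log hu0⟩
      rw [Set.mem_Ioi, ← Real.exp_lt_exp, Real.exp_log hu0]
      exact hu'
  have hval : ∀ v ∈ Set.Ioi (0 : ℝ), |Real.exp v| • f (Real.exp v) = ‖Planch_h a σ v‖ ^ 2 := by
    intro v hv
    have hv' : v ∈ Set.Ici (0 : ℝ) := Set.mem_Ici.mpr (Set.mem_Ioi.mp hv).le
    unfold Planch_h
    rw [Set.indicator_of_mem hv', norm_mul, Complex.norm_real,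
      Real.norm_of_nonneg (Real.exp_pos _).le, abs_of_pos (Real.exp_pos _), smul_eq_mul, hf]
    beta_reduce
    rw [mul_pow, ← Real.exp_mul, ← Real.exp_nat_mul]
    have : Real.exp v * Real.exp (v * -(3 + 2 * σ)) = Real.exp ((2 : ℕ) * (-(1 + σ) * v)) := by
      rw [← Real.exp_add]
      congr 1
      push_cast
      ring
    rw [← this]
    ring
  have hderiv : ∀ v ∈ Set.Ioi (0 : ℝ), HasDerivWithinAt Real.exp (Real.exp v) (Set.Ioi 0) v :=
    fun v _ => (Real.hasDerivAt_exp v).hasDerivWithinAt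
  have hinj : Set.InjOn Real.exp (Set.Ioi (0 : ℝ)) := Real.exp_injective.injOn
  have hsq := Planch_sq_integrable hσ ha
  have hL : IntegrableOn f (Set.Ioi 1) := by
    rw [← himg, integrableOn_image_iff_integrableOn_abs_deriv_smul measurableSet_Ioi hderiv hinj]
    refine (hsq.integrableOn (s := Set.Ioi 0)).congr_fun (fun v hv => (hval v hv).symm)
      measurableSet_Ioi
  have hLval : ∫ u in Set.Ioi (1 : ℝ), f u = ∫ v, ‖Planch_h a σ v‖ ^ 2 := by
    rw [← himg, integral_image_eq_integral_abs_deriv_smul measurableSet_Ioi hderiv hinj,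
      setIntegral_congr_fun measurableSet_Ioi hval, ← integral_Ici_eq_integral_Ioi]
    refine setIntegral_eq_integral_of_forall_compl_eq_zero fun v hv => ?_
    unfold Planch_h
    rw [Set.indicator_of_notMem hv, norm_zero]
    norm_num
  refine ⟨hL, hR, ?_⟩
  rw [hLval, one_mul]
  -- Plancherel
  have hP := Pool.Agent.MP_7f688b_an.lintegral_fourier_sq (Planch_h a σ) (Planch_integrable hσ ha)
    (Planch_memLp hσ ha)
  have hF2 : ∀ ξ, ‖FourierTransform.fourier (Planch_h a σ) ξ‖ ^ 2 ≤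
      ‖Gs a σ (2 * Real.pi * ξ)‖ ^ 2 / (1 + (2 * Real.pi * ξ) ^ 2) := by
    intro ξ
    rw [Planch_fourier hσ h0 ha, norm_div, div_pow]
    refine div_le_div_of_nonneg_left (by positivity) (by positivity) ?_
    rw [← Complex.normSq_eq_norm_sq, Complex.normSq_apply]
    simp
    nlinarith
  have hR2 : Integrable (fun ξ : ℝ => ‖Gs a σ (2 * Real.pi * ξ)‖ ^ 2 /
      (1 + (2 * Real.pi * ξ) ^ 2)) := hR.comp_mul_left' (by positivity)
  have hRval : ∫ ξ : ℝ, ‖Gs a σ (2 * Real.pi * ξ)‖ ^ 2 / (1 + (2 * Real.pi * ξ) ^ 2) ≤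
      ∫ t : ℝ, ‖Gs a σ t‖ ^ 2 / (1 + t ^ 2) := by
    rw [Measure.integral_comp_mul_left (fun t => ‖Gs a σ t‖ ^ 2 / (1 + t ^ 2)) (2 * Real.pi),
      smul_eq_mul]
    have h1 : (0 : ℝ) ≤ ∫ t : ℝ, ‖Gs a σ t‖ ^ 2 / (1 + t ^ 2) :=
      integral_nonneg fun t => by positivity
    have h2 : |(2 * Real.pi)⁻¹| ≤ 1 := by
      rw [abs_of_pos (by positivity)]
      apply inv_le_one_of_one_le₀
      nlinarith [Real.pi_gt_three]
    nlinarith
  refine le_trans ?_ hRval
  rw [← ENNReal.ofReal_le_ofReal_iff (integral_nonneg fun ξ => by positivity),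
    ofReal_integral_eq_lintegral_ofReal hsq (Eventually.of_forall fun v => by positivity),
    ofReal_integral_eq_lintegral_ofReal hR2 (Eventually.of_forall fun v => by positivity)]
  have e1 : ∀ v, ENNReal.ofReal (‖Planch_h a σ v‖ ^ 2) = ‖Planch_h a σ v‖ₑ ^ 2 := by
    intro v
    rw [ENNReal.ofReal_pow (norm_nonneg _), ofReal_norm]
  simp only [e1]
  rw [← hP]
  refine lintegral_mono fun ξ => ?_
  rw [← ofReal_norm, ← ENNReal.ofReal_pow (norm_nonneg _)]
  exact ENNReal.ofReal_le_ofReal (hF2 ξ)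

end Pool.Agent.Mrd
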