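import Pool.Agent.Mrd.LogInt
import Pool.Agent.Mrd.Planch
import Pool.Agent.Mrd.L2b
import Pool.Agent.Mrd.EP

/-!
Mrd HAL: Halasz's theorem, qualitative uniform form.
-/

set_option autoImplicit false

namespace Pool.Agent.Mrd

open Finset MeasureTheory Filter Topology

/-- `∑_{n ≤ v} log (v / n) ≤ v` -/
private theorem hal_sumlog (v : ℝ) (hv : 1 ≤ v) :
    ∑ n ∈ Icc 1 ⌊v⌋₊, (Real.log v - Real.log n) ≤ v := by
  set N := ⌊v⌋₊ with hN
  have hN1 : 1 ≤ N := Nat.le_floor (by simpa using hv)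
  have hNv : (N : ℝ) ≤ v := Nat.floor_le (by linarith)
  have hN0 : (0 : ℝ) < N := by exact_mod_cast hN1
  have h1 : ∑ n ∈ Icc 1 N, Real.log n = Real.log (N.factorial : ℝ) := by
    clear_value N
    clear hN hNv hN0 hN1
    induction N with
    | zero => simp
    | succ k ih =>
      rw [Finset.sum_Icc_succ_top (by omega), ih, Nat.factorial_succ, Nat.cast_mul,
        Real.log_mul (by positivity) (by positivity)]
      ring
  have h2 : (N : ℝ) * Real.log N - Real.log (N.factorial : ℝ) ≤ N := by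
    have h := Real.pow_div_factorial_le_exp (N : ℝ) hN0.le N
    have h3 := Real.log_le_log (by positivity) h
    rw [Real.log_exp, Real.log_div (by positivity) (by positivity), Real.log_pow] at h3
    exact h3
  have h4 : Real.log v - Real.log N ≤ v / N - 1 := by
    rw [← Real.log_div (by positivity) (by positivity)]
    exact Real.log_le_sub_one_of_pos (by positivity)
  rw [Finset.sum_sub_distrib, h1, Finset.sum_const, Nat.card_Icc, nsmul_eq_mul]
  have h5 : ((N + 1 - 1 : ℕ) : ℝ) = N := by simp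
  rw [h5]
  have h6 : (N : ℝ) * (Real.log v - Real.log N) ≤ N * (v / N - 1) :=
    mul_le_mul_of_nonneg_left h4 hN0.le
  have h7 : (N : ℝ) * (v / N - 1) = v - N := by
    field_simp
  nlinarith [h2, h6, h7]

private theorem hal_Sg_le (g : ℕ → ℂ) (hg : CM g) (v : ℝ) (hv : 1 ≤ v) : ‖Sg g v‖ ≤ v := by
  unfold Sg
  refine (norm_sum_le _ _).trans ?_
  refine (Finset.sum_le_sum fun n _ => hg.bdd n).trans ?_
  rw [Finset.sum_const, Nat.card_Icc, nsmul_eq_mul, mul_one]
  simpa using Nat.floor_le (by linarith : (0 : ℝ) ≤ v)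

private theorem hal_Sg_log (g : ℕ → ℂ) (hg : CM g) (v : ℝ) (hv : 1 ≤ v) :
    ‖Sg g v‖ * Real.log v ≤ ‖∑ n ∈ Icc 1 ⌊v⌋₊, g n * (Real.log n : ℂ)‖ + v := by
  have h0 : 0 ≤ Real.log v := Real.log_nonneg hv
  have h1 : Sg g v * (Real.log v : ℂ) = ∑ n ∈ Icc 1 ⌊v⌋₊, g n * (Real.log n : ℂ) +
      ∑ n ∈ Icc 1 ⌊v⌋₊, g n * ((Real.log v - Real.log n : ℝ) : ℂ) := by
    unfold Sg
    rw [Finset.sum_mul, ← Finset.sum_add_distrib]
    refine Finset.sum_congr rfl fun n _ => ?_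
    push_cast
    ring
  have h2 : ‖Sg g v‖ * Real.log v = ‖Sg g v * (Real.log v : ℂ)‖ := by
    rw [norm_mul, Complex.norm_real, Real.norm_of_nonneg h0]
  rw [h2, h1]
  refine (norm_add_le _ _).trans ?_
  gcongr
  refine (norm_sum_le _ _).trans ?_
  refine le_trans (Finset.sum_le_sum fun n hn => ?_) (hal_sumlog v hv)
  rw [norm_mul, Complex.norm_real]
  rw [Finset.mem_Icc] at hn
  have hn0 : (0 : ℝ) < n := by exact_mod_cast hn.1
  have hnv : (n : ℝ) ≤ v := (Nat.le_floor_iff (by linarith)).1 hn.2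
  have h3 : Real.log n ≤ Real.log v := Real.log_le_log hn0 hnv
  rw [Real.norm_of_nonneg (by linarith)]
  have h4 := hg.bdd n
  nlinarith [h4, norm_nonneg (g n), sub_nonneg.2 h3]

/-- the pointwise bound of the generating series -/
private theorem hal_G (C₁ C₂ : ℝ)
    (hE : ∀ (g : ℕ → ℂ) (x t : ℝ), CM g → 2 ≤ x →
      ‖Gs g (1 / Real.log x) t‖ ≤ Real.exp (C₁ + ∑ p ∈ pr 0 x, (g p * tw t p).re / p) ∧
      Real.exp (-C₁ + ∑ p ∈ pr 0 x, (g p * tw t p).re / p) ≤ ‖Gs g (1 / Real.log x) t‖)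
    (hM : ∀ x : ℝ, 2 ≤ x → |LP (pr 0 x) - Real.log (Real.log x)| ≤ C₂)
    (g : ℕ → ℂ) (hg : CM g) (x t M : ℝ) (hx : 2 ≤ x) (hd : M ≤ dist2 g t x) :
    ‖Gs g (1 / Real.log x) t‖ ≤ Real.exp (C₁ + C₂ - M) * Real.log x := by
  have hL : 0 < Real.log x := Real.log_pos (by linarith)
  refine (hE g x t hg hx).1.trans ?_
  have h1 : ∑ p ∈ pr 0 x, (g p * tw t p).re / p = LP (pr 0 x) - dist2 g t x := by
    unfold LP dist2
    rw [← Finset.sum_sub_distrib]
    refine Finset.sum_congr rfl fun p _ => ?_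
    ring
  have h2 := abs_le.1 (hM x hx)
  have h3 : C₁ + ∑ p ∈ pr 0 x, (g p * tw t p).re / p ≤ (C₁ + C₂ - M) + Real.log (Real.log x) := by
    rw [h1]
    linarith [h2.2]
  refine (Real.exp_le_exp.2 h3).trans ?_
  rw [Real.exp_add, Real.exp_log hL]

/-- the second moment of the summatory function of `g log` -/
private theorem hal_second (ε : ℝ) (hε : 0 < ε) : ∃ M T : ℝ, ∀ (x : ℝ), 2 ≤ x → ∀ g : ℕ → ℂ, CM g →
    (∀ τ : ℝ, |τ| ≤ T → M ≤ dist2 g τ x) →
    IntegrableOn (fun u : ℝ => ‖∑ n ∈ Icc 1 ⌊u⌋₊, g n * (Real.log n : ℂ)‖ ^ 2 *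
      u ^ (-(3 + 2 * (1 / Real.log x)))) (Set.Ioi 1) ∧
    ∫ u in Set.Ioi (1 : ℝ), ‖∑ n ∈ Icc 1 ⌊u⌋₊, g n * (Real.log n : ℂ)‖ ^ 2 *
      u ^ (-(3 + 2 * (1 / Real.log x))) ≤ ε * Real.log x ^ 3 := by
  obtain ⟨C₁, hC₁, hE⟩ := euler
  obtain ⟨C₂, hC₂, hMer⟩ := mertens_zero
  obtain ⟨C₃, hC₃, hL2⟩ := l2b
  obtain ⟨C₄, hC₄, hPl⟩ := planch
  have hC : 0 < C₄ * C₃ := mul_pos hC₄ hC₃
  -- choose T
  set T : ℝ := max 1 (2 * (C₄ * C₃) / ε) with hT
  set δ : ℝ := ε / (2 * (C₄ * C₃)) with hδ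
  have hδ0 : 0 < δ := by positivity
  set M : ℝ := C₁ + C₂ - Real.log δ / 2 with hM
  refine ⟨M, T + 1, fun x hx g hg hd => ?_⟩
  have hL : 0 < Real.log x := Real.log_pos (by linarith)
  have hT1 : 1 ≤ T := le_max_left _ _
  have hK : ∀ t, |t| ≤ T + 1 → ‖Gs g (1 / Real.log x) t‖ ≤ Real.exp (C₁ + C₂ - M) * Real.log x :=
    fun t ht => hal_G C₁ C₂ hE hMer g hg x t M hx (hd t ht)
  have h1 := hL2 g x T (Real.exp (C₁ + C₂ - M) * Real.log x) hg hx hT1 (by positivity) hK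
  have h2 := hPl (fun n => g n * (Real.log n : ℂ)) (1 / Real.log x) (by positivity)
    (by simp) (fun n => by
      rw [norm_mul, Complex.norm_real]
      rcases Nat.eq_zero_or_pos n with h | h
      · subst h
        simp
      · have h3 : 0 ≤ Real.log n := Real.log_natCast_nonneg n
        rw [Real.norm_of_nonneg h3]
        have h4 := hg.bdd n
        nlinarith [h4, norm_nonneg (g n)])
  refine ⟨h2.1, h2.2.2.trans ?_⟩
  have h3 : Real.exp (C₁ + C₂ - M) ^ 2 = δ := by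
    rw [← Real.exp_nat_mul, hM]
    have : ((2 : ℕ) : ℝ) * (C₁ + C₂ - (C₁ + C₂ - Real.log δ / 2)) = Real.log δ := by
      push_cast
      ring
    rw [this, Real.exp_log hδ0]
  have h4 : (1 : ℝ) / T ≤ δ := by
    rw [div_le_iff₀ (by linarith)]
    have h5 : 2 * (C₄ * C₃) / ε ≤ T := le_max_right _ _
    have h6 : δ * (2 * (C₄ * C₃) / ε) = 1 := by
      rw [hδ]
      field_simp
    calc (1 : ℝ) = δ * (2 * (C₄ * C₃) / ε) := h6.symm
      _ ≤ δ * T := mul_le_mul_of_nonneg_left h5 hδ0.le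
  calc C₄ * ∫ t : ℝ, ‖Gs (fun n => g n * (Real.log n : ℂ)) (1 / Real.log x) t‖ ^ 2 / (1 + t ^ 2)
      ≤ C₄ * (C₃ * ((Real.exp (C₁ + C₂ - M) * Real.log x) ^ 2 * Real.log x + Real.log x ^ 3 / T)) :=
        mul_le_mul_of_nonneg_left h1 hC₄.le
    _ = C₄ * C₃ * Real.log x ^ 3 * (Real.exp (C₁ + C₂ - M) ^ 2 + 1 / T) := by ring
    _ ≤ C₄ * C₃ * Real.log x ^ 3 * (δ + δ) := by
        rw [h3]
        have : 0 ≤ C₄ * C₃ * Real.log x ^ 3 := by positivity
        exact mul_le_mul_of_nonneg_left (by linarith) this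
    _ = ε * Real.log x ^ 3 := by
        rw [hδ]
        field_simp
        ring

/-- the first moment of the summatory function of `g` -/
private theorem hal_first (g : ℕ → ℂ) (hg : CM g) (x η ε : ℝ) (hx : 2 ≤ x) (hη : 0 < η) (hη1 : η ≤ 1)
    (hε : 0 < ε)
    (hI : IntegrableOn (fun u : ℝ => ‖∑ n ∈ Icc 1 ⌊u⌋₊, g n * (Real.log n : ℂ)‖ ^ 2 *
      u ^ (-(3 + 2 * (1 / Real.log x)))) (Set.Ioi 1))
    (hB : ∫ u in Set.Ioi (1 : ℝ), ‖∑ n ∈ Icc 1 ⌊u⌋₊, g n * (Real.log n : ℂ)‖ ^ 2 *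
      u ^ (-(3 + 2 * (1 / Real.log x))) ≤ ε ^ 2 * Real.log x ^ 3) :
    ∫ u in (1 : ℝ)..x, ‖Sg g u‖ / u ^ 2 ≤
      η * Real.log x + 1 / (η * Real.log x) * ((1 + Real.exp 2) / 2 * ε * Real.log x ^ 2 + Real.log x) := by
  have hL : 0 < Real.log x := Real.log_pos (by linarith)
  set L := Real.log x with hLdef
  set F : ℝ → ℝ := fun u => ‖∑ n ∈ Icc 1 ⌊u⌋₊, g n * (Real.log n : ℂ)‖ ^ 2 *
      u ^ (-(3 + 2 * (1 / L))) with hF
  have hx1 : (1 : ℝ) ≤ x := by linarith
  have hFI : IntegrableOn F (Set.Ioc 1 x) := hI.mono_set Set.Ioc_subset_Ioi_self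
  have hF0 : ∀ u, 0 < u → 0 ≤ F u := fun u hu => by
    simp only [hF]
    positivity
  have hFB : ∫ u in Set.Ioc (1 : ℝ) x, F u ≤ ε ^ 2 * L ^ 3 := by
    refine le_trans ?_ hB
    refine setIntegral_mono_set hI ?_ Set.Ioc_subset_Ioi_self.eventuallyLE
    refine (ae_restrict_iff' measurableSet_Ioi).2 (ae_of_all _ fun u hu => ?_)
    exact hF0 u (lt_trans one_pos hu)
  have hinv : IntegrableOn (fun u : ℝ => 1 / u) (Set.Ioc 1 x) := by
    have h : IntervalIntegrable (fun u : ℝ => 1 / u) volume 1 x := by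
      apply intervalIntegral.intervalIntegrable_one_div
      · intro u hu
        rw [Set.uIcc_of_le hx1] at hu
        have := hu.1
        positivity
      · exact continuousOn_id
    exact (intervalIntegrable_iff_integrableOn_Ioc_of_le hx1).1 h
  have hinvB : ∫ u in Set.Ioc (1 : ℝ) x, 1 / u = L := by
    rw [← intervalIntegral.integral_of_le hx1, integral_one_div_of_pos one_pos (by linarith)]
    simp [hLdef]
  set y : ℝ := x ^ η with hy
  have hy1 : 1 ≤ y := Real.one_le_rpow hx1 hη.le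
  have hyx : y ≤ x := by
    have := Real.rpow_le_rpow_of_exponent_le hx1 hη1
    simpa [hy] using this
  have hlogy : Real.log y = η * L := Real.log_rpow (by linarith) η
  have hind : IntegrableOn ((Set.Ioc 1 y).indicator (fun u : ℝ => 1 / u)) (Set.Ioc 1 x) :=
    hinv.indicator measurableSet_Ioc
  have hindB : ∫ u in Set.Ioc (1 : ℝ) x, (Set.Ioc 1 y).indicator (fun u : ℝ => 1 / u) u = η * L := by
    rw [setIntegral_indicator measurableSet_Ioc]
    have : Set.Ioc 1 x ∩ Set.Ioc 1 y = Set.Ioc 1 y :=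
      Set.inter_eq_right.2 (Set.Ioc_subset_Ioc_right hyx)
    rw [this, ← intervalIntegral.integral_of_le hy1, integral_one_div_of_pos one_pos (by linarith)]
    simpa using hlogy
  rw [intervalIntegral.integral_of_le hx1]
  have hmain : ∫ u in Set.Ioc (1 : ℝ) x, ‖Sg g u‖ / u ^ 2 ≤
      ∫ u in Set.Ioc (1 : ℝ) x, ((Set.Ioc 1 y).indicator (fun u : ℝ => 1 / u) u +
        (1 / (η * L) * ((ε * L / 2 + 1) * (1 / u)) +
        1 / (η * L) * (Real.exp 2 / (2 * (ε * L)) * F u))) := by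
    refine integral_mono_of_nonneg ?_ ?_ ?_
    · exact ae_of_all _ fun u => by
        simp only [Pi.zero_apply]
        positivity
    · refine hind.add (Integrable.add ?_ ?_)
      · exact (hinv.const_mul _).const_mul _
      · exact (hFI.const_mul _).const_mul _
    · refine (ae_restrict_iff' measurableSet_Ioc).2 (ae_of_all _ fun u hu => ?_)
      have hu1 : 1 < u := hu.1
      have hu0 : 0 < u := by linarith
      have hFu := hF0 u hu0
      have hnn1 : 0 ≤ 1 / (η * L) * ((ε * L / 2 + 1) * (1 / u)) := by positivity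
      have hnn2 : 0 ≤ 1 / (η * L) * (Real.exp 2 / (2 * (ε * L)) * F u) := by positivity
      change ‖Sg g u‖ / u ^ 2 ≤ (Set.Ioc 1 y).indicator (fun u : ℝ => 1 / u) u +
        (1 / (η * L) * ((ε * L / 2 + 1) * (1 / u)) +
        1 / (η * L) * (Real.exp 2 / (2 * (ε * L)) * F u))
      rcases le_or_gt u y with huy | huy
      · have h1 : (Set.Ioc 1 y).indicator (fun u : ℝ => 1 / u) u = 1 / u :=
          Set.indicator_of_mem (show u ∈ Set.Ioc 1 y from ⟨hu1, huy⟩) _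
        rw [h1]
        have h2 : ‖Sg g u‖ / u ^ 2 ≤ 1 / u := by
          have h3 := hal_Sg_le g hg u hu1.le
          rw [div_le_div_iff₀ (by positivity) hu0]
          nlinarith
        linarith
      · have h1 : (Set.Ioc 1 y).indicator (fun u : ℝ => 1 / u) u = 0 :=
          Set.indicator_of_notMem (fun h => absurd h.2 (not_le.2 huy)) _
        rw [h1, zero_add, ← mul_add]
        have hlu : η * L ≤ Real.log u := by
          rw [← hlogy]
          exact Real.log_le_log (by linarith) huy.le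
        have hS := hal_Sg_log g hg u hu1.le
        set A : ℝ := ‖∑ n ∈ Icc 1 ⌊u⌋₊, g n * (Real.log n : ℂ)‖ with hA
        have hA0 : 0 ≤ A := norm_nonneg _
        have h2 : ‖Sg g u‖ ≤ 1 / (η * L) * (A + u) := by
          rw [one_div, inv_mul_eq_div, le_div_iff₀ (by positivity)]
          exact (mul_le_mul_of_nonneg_left hlu (norm_nonneg _)).trans hS
        have h3 : ‖Sg g u‖ / u ^ 2 ≤ 1 / (η * L) * ((A + u) / u ^ 2) := by
          rw [← mul_div_assoc]
          gcongr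
        refine h3.trans ?_
        refine mul_le_mul_of_nonneg_left ?_ (by positivity)
        -- AM-GM
        have h4 : A ^ 2 / u ^ 3 ≤ Real.exp 2 * F u := by
          have h5 : F u = A ^ 2 * u ^ (-(3 + 2 * (1 / L))) := rfl
          rw [h5]
          have h6 : (1 : ℝ) / u ^ 3 ≤ Real.exp 2 * u ^ (-(3 + 2 * (1 / L))) := by
            have h7 : u ^ (-(3 + 2 * (1 / L))) = (1 / u ^ 3) * u ^ (-(2 * (1 / L))) := by
              rw [neg_add, Real.rpow_add hu0, Real.rpow_neg hu0.le 3]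
              norm_num
            have h8 : Real.exp (-2) ≤ u ^ (-(2 * (1 / L))) := by
              rw [Real.rpow_def_of_pos hu0]
              apply Real.exp_le_exp.2
              have h9 : Real.log u ≤ L := Real.log_le_log hu0 hu.2
              have h10 : Real.log u * (-(2 * (1 / L))) = -(2 * (Real.log u / L)) := by ring
              rw [h10]
              have h11 : Real.log u / L ≤ 1 := (div_le_one hL).2 h9
              linarith
            have h12 : Real.exp 2 * Real.exp (-2) = 1 := by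
              rw [← Real.exp_add]
              simp
            rw [h7]
            calc (1 : ℝ) / u ^ 3 = (1 / u ^ 3) * (Real.exp 2 * Real.exp (-2)) := by
                  rw [h12, mul_one]
              _ ≤ (1 / u ^ 3) * (Real.exp 2 * u ^ (-(2 * (1 / L)))) := by gcongr
              _ = Real.exp 2 * (1 / u ^ 3 * u ^ (-(2 * (1 / L)))) := by ring
          calc A ^ 2 / u ^ 3 = A ^ 2 * (1 / u ^ 3) := by ring
            _ ≤ A ^ 2 * (Real.exp 2 * u ^ (-(3 + 2 * (1 / L)))) := by gcongr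
            _ = Real.exp 2 * (A ^ 2 * u ^ (-(3 + 2 * (1 / L)))) := by ring
        have hεL : 0 < ε * L := by positivity
        have h13 : A / u ^ 2 ≤ ε * L / 2 * (1 / u) + 1 / (2 * (ε * L)) * (A ^ 2 / u ^ 3) := by
          have h14 : 0 ≤ (A - ε * L * u) ^ 2 / (2 * (ε * L) * u ^ 3) := by positivity
          have h15 : (A - ε * L * u) ^ 2 / (2 * (ε * L) * u ^ 3) =
              ε * L / 2 * (1 / u) + 1 / (2 * (ε * L)) * (A ^ 2 / u ^ 3) - A / u ^ 2 := by
            field_simp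
            ring
          linarith
        have h16 : 1 / (2 * (ε * L)) * (A ^ 2 / u ^ 3) ≤ Real.exp 2 / (2 * (ε * L)) * F u := by
          calc 1 / (2 * (ε * L)) * (A ^ 2 / u ^ 3) ≤ 1 / (2 * (ε * L)) * (Real.exp 2 * F u) := by gcongr
            _ = Real.exp 2 / (2 * (ε * L)) * F u := by ring
        have h17 : (A + u) / u ^ 2 = A / u ^ 2 + 1 / u := by
          field_simp
        rw [h17]
        have h18 : (ε * L / 2 + 1) * (1 / u) = ε * L / 2 * (1 / u) + 1 / u := by ring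
        rw [h18]
        linarith
  refine hmain.trans ?_
  have hg1 : IntegrableOn (fun u : ℝ => 1 / (η * L) * ((ε * L / 2 + 1) * (1 / u))) (Set.Ioc 1 x) :=
    (hinv.const_mul _).const_mul _
  have hg2 : IntegrableOn (fun u : ℝ => 1 / (η * L) * (Real.exp 2 / (2 * (ε * L)) * F u))
      (Set.Ioc 1 x) := (hFI.const_mul _).const_mul _
  have hg12 : IntegrableOn (fun u : ℝ => 1 / (η * L) * ((ε * L / 2 + 1) * (1 / u)) +
      1 / (η * L) * (Real.exp 2 / (2 * (ε * L)) * F u)) (Set.Ioc 1 x) := hg1.add hg2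
  rw [integral_add hind hg12, integral_add hg1 hg2, hindB,
    integral_const_mul, integral_const_mul, integral_const_mul, integral_const_mul, hinvB, ← mul_add]
  have h20 : Real.exp 2 / (2 * (ε * L)) * ∫ u in Set.Ioc (1 : ℝ) x, F u ≤
      Real.exp 2 / (2 * (ε * L)) * (ε ^ 2 * L ^ 3) := by gcongr
  have h21 : Real.exp 2 / (2 * (ε * L)) * (ε ^ 2 * L ^ 3) = Real.exp 2 / 2 * ε * L ^ 2 := by
    field_simp
  refine add_le_add le_rfl (mul_le_mul_of_nonneg_left ?_ (by positivity))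
  rw [h21] at h20
  have h22 : (ε * L / 2 + 1) * L = 1 / 2 * ε * L ^ 2 + L := by ring
  have h23 : (1 + Real.exp 2) / 2 * ε * L ^ 2 + L =
      1 / 2 * ε * L ^ 2 + Real.exp 2 / 2 * ε * L ^ 2 + L := by ring
  rw [h22, h23]
  linarith

/-- `S = Sg g`, `S₁(u) = ∑_{n≤u} g(n) log n`, `σ = 1/log x`, `η` small. `|S(v)| log v ≤ |S₁(v)| + v`. So
`∫_1^x |S(v)| v^{-2} dv ≤ η log x + (1/(η log x)) ∫_{x^η}^x (|S₁(v)| + v) v^{-2} dv ≤ η log x + 1/η + (1/(η log x)) (log x)^{1/2} (∫_1^x |S₁|² v^{-3} dv)^{1/2}`, and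
`∫_1^x |S₁|² v^{-3} dv ≤ e² ∫_1^∞ |S₁|² v^{-3-2σ} dv ≤ C (K² log x + log³x/T)` (`planch`, `l2b`), where for `|t| ≤ T + 1`: `‖G(1+σ+it)‖ ≤ K := C log x e^{-M}` by `euler` and
`∑_{p≤x} Re(g(p)p^{-it})/p = ∑ 1/p - dist2 ≤ log log x + C - M`. Choose `η`, then `T`, `M`, `x₀`; `logint` finishes (apply the hypothesis for `|τ| ≤ T + 1`). -/
theorem halasz (ρ : ℝ) (hρ : 0 < ρ) : ∃ M T x₀ : ℝ, ∀ x : ℝ, x₀ ≤ x → ∀ g : ℕ → ℂ, CM g →
    (∀ τ : ℝ, |τ| ≤ T → M ≤ dist2 g τ x) → ‖Sg g x‖ ≤ ρ * x := by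
  obtain ⟨C, hC, hlog⟩ := logint
  set η : ℝ := min 1 (ρ / (3 * C)) with hη
  have hη0 : 0 < η := lt_min one_pos (by positivity)
  have hη1 : η ≤ 1 := min_le_left _ _
  have hηρ : 3 * C * η ≤ ρ := by
    have : η ≤ ρ / (3 * C) := min_le_right _ _
    rw [le_div_iff₀ (by positivity)] at this
    linarith
  set c : ℝ := (1 + Real.exp 2) / 2 with hc
  have hc0 : 0 < c := by positivity
  set ε : ℝ := η ^ 2 / c with hε
  have hε0 : 0 < ε := by positivity
  obtain ⟨M, T, hMT⟩ := hal_second (ε ^ 2) (by positivity)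
  refine ⟨M, T, max 2 (Real.exp ((1 + 1 / η) / η)), fun x hx g hg hd => ?_⟩
  have hx2 : 2 ≤ x := (le_max_left _ _).trans hx
  have hx0 : 0 < x := by linarith
  have hL : 0 < Real.log x := Real.log_pos (by linarith)
  have hLbig : (1 + 1 / η) / η ≤ Real.log x := by
    rw [Real.le_log_iff_exp_le hx0]
    exact (le_max_right _ _).trans hx
  obtain ⟨hI, hB⟩ := hMT x hx2 g hg hd
  have h1 := hal_first g hg x η ε hx2 hη0 hη1 hε0 hI hB
  have h2 := hlog g x hg hx2
  set L := Real.log x with hLdef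
  have h3 : η * L + 1 / (η * L) * (c * ε * L ^ 2 + L) = 2 * η * L + 1 / η := by
    rw [hε]
    field_simp
    ring
  have h4 : 1 + ∫ u in (1 : ℝ)..x, ‖Sg g u‖ / u ^ 2 ≤ 3 * η * L := by
    rw [h3] at h1
    have h5 : 1 + 1 / η ≤ η * L := by
      rw [div_le_iff₀ hη0] at hLbig
      linarith
    linarith
  have h6 : ‖Sg g x‖ * L ≤ (ρ * x) * L := by
    calc ‖Sg g x‖ * L ≤ C * x * (1 + ∫ u in (1 : ℝ)..x, ‖Sg g u‖ / u ^ 2) := h2
      _ ≤ C * x * (3 * η * L) := by gcongr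
      _ = (3 * C * η) * (x * L) := by ring
      _ ≤ ρ * (x * L) := by gcongr
      _ = (ρ * x) * L := by ring
  exact le_of_mul_le_mul_right h6 hL

end Pool.Agent.Mrd
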