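import Pool.Agent.Mrd.Defs2
import Pool.Agent.Mrd.Hal

/-!
Mrd HALR: Halasz for the polynomials `R_v`.
-/

set_option autoImplicit false

namespace Pool.Agent.Mrd

open Finset MeasureTheory Filter Topology

/-- discrete partial summation -/
private theorem HalR_abel (g : ℕ → ℂ) (a b : ℕ) (hab : a ≤ b) :
    ∑ n ∈ Ioc a b, g n / n = (∑ k ∈ Icc 1 b, g k) / ((b : ℂ) + 1) -
      (∑ k ∈ Icc 1 a, g k) / ((a : ℂ) + 1) +
      ∑ n ∈ Ioc a b, (∑ k ∈ Icc 1 n, g k) / ((n : ℂ) * (n + 1)) := by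
  induction b, hab using Nat.le_induction with
  | base => simp
  | succ b hb ih =>
    rw [Finset.sum_Ioc_succ_top hb, Finset.sum_Ioc_succ_top hb, ih,
      Finset.sum_Icc_succ_top (by omega)]
    have h1 : ((b : ℂ) + 1) ≠ 0 := by exact_mod_cast Nat.succ_ne_zero b
    have h2 : ((b : ℂ) + 1 + 1) ≠ 0 := by exact_mod_cast Nat.succ_ne_zero (b + 1)
    push_cast
    field_simp
    ring

private theorem HalR_bound (g : ℕ → ℂ) (r N : ℝ) (hr : 0 ≤ r) (hN : 1 ≤ N)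
    (h : ∀ y : ℝ, N ≤ y → ‖Sg g y‖ ≤ r * y) :
    ‖∑ n ∈ Ioc ⌊N⌋₊ ⌊4 * N⌋₊, g n / n‖ ≤ 6 * r := by
  have hab : ⌊N⌋₊ ≤ ⌊4 * N⌋₊ := Nat.floor_le_floor (by linarith)
  rw [HalR_abel g _ _ hab]
  set a := ⌊N⌋₊ with ha
  set b := ⌊4 * N⌋₊ with hb
  have ha1 : N < (a : ℝ) + 1 := Nat.lt_floor_add_one N
  have haN : (a : ℝ) ≤ N := Nat.floor_le (by linarith)
  have hbN : (b : ℝ) ≤ 4 * N := Nat.floor_le (by linarith)
  have hS : ∀ n : ℕ, a < n → ‖∑ k ∈ Icc 1 n, g k‖ ≤ r * n := by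
    intro n hn
    have hn' : N ≤ (n : ℝ) := by
      have : (a : ℝ) + 1 ≤ n := by exact_mod_cast hn
      linarith
    have := h n hn'
    unfold Sg at this
    rwa [Nat.floor_natCast] at this
  have hSa : ‖∑ k ∈ Icc 1 a, g k‖ ≤ r * ((a : ℝ) + 1) := by
    have := h N le_rfl
    unfold Sg at this
    exact this.trans (mul_le_mul_of_nonneg_left ha1.le hr)
  have hSb : ‖∑ k ∈ Icc 1 b, g k‖ ≤ r * ((b : ℝ) + 1) := by
    rcases Nat.lt_or_ge a b with hlt | hge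
    · refine (hS b hlt).trans (mul_le_mul_of_nonneg_left (by linarith) hr)
    · have hba : b = a := le_antisymm hge hab
      rw [hba]
      exact hSa
  have h1 : ‖(∑ k ∈ Icc 1 b, g k) / ((b : ℂ) + 1)‖ ≤ r := by
    have hpos : (0 : ℝ) < (b : ℝ) + 1 := by positivity
    have hnorm : ‖((b : ℂ) + 1)‖ = (b : ℝ) + 1 := by
      rw [show ((b : ℂ) + 1) = (((b : ℝ) + 1 : ℝ) : ℂ) by push_cast; ring, Complex.norm_real,
        Real.norm_of_nonneg hpos.le]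
    rw [norm_div, hnorm, div_le_iff₀ hpos]
    exact hSb
  have h2 : ‖(∑ k ∈ Icc 1 a, g k) / ((a : ℂ) + 1)‖ ≤ r := by
    have hpos : (0 : ℝ) < (a : ℝ) + 1 := by positivity
    have hnorm : ‖((a : ℂ) + 1)‖ = (a : ℝ) + 1 := by
      rw [show ((a : ℂ) + 1) = (((a : ℝ) + 1 : ℝ) : ℂ) by push_cast; ring, Complex.norm_real,
        Real.norm_of_nonneg hpos.le]
    rw [norm_div, hnorm, div_le_iff₀ hpos]
    exact hSa
  have h3 : ‖∑ n ∈ Ioc a b, (∑ k ∈ Icc 1 n, g k) / ((n : ℂ) * (n + 1))‖ ≤ 4 * r := by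
    have hterm : ∀ n ∈ Ioc a b, ‖(∑ k ∈ Icc 1 n, g k) / ((n : ℂ) * (n + 1))‖ ≤ r / N := by
      intro n hn
      rw [Finset.mem_Ioc] at hn
      have hn1 : (a : ℝ) + 1 ≤ n := by exact_mod_cast hn.1
      have hnN : N < (n : ℝ) := lt_of_lt_of_le ha1 hn1
      have hnpos : (0 : ℝ) < n := by linarith
      have hnorm : ‖((n : ℂ) * (n + 1))‖ = (n : ℝ) * (n + 1) := by
        rw [show ((n : ℂ) * (n + 1)) = (((n : ℝ) * (n + 1) : ℝ) : ℂ) by push_cast; ring,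
          Complex.norm_real, Real.norm_of_nonneg (by positivity)]
      rw [norm_div, hnorm, div_le_div_iff₀ (by positivity) (by linarith)]
      have hs := hS n hn.1
      calc ‖∑ k ∈ Icc 1 n, g k‖ * N ≤ (r * n) * N := mul_le_mul_of_nonneg_right hs (by linarith)
        _ ≤ (r * n) * (n + 1) := mul_le_mul_of_nonneg_left (by linarith) (by positivity)
        _ = r * (n * (n + 1)) := by ring
    refine (norm_sum_le _ _).trans ((Finset.sum_le_sum hterm).trans ?_)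
    rw [Finset.sum_const, Nat.card_Ioc, nsmul_eq_mul, Nat.cast_sub hab]
    have hNpos : 0 < N := by linarith
    rw [mul_div_assoc', div_le_iff₀ hNpos]
    have : ((b : ℝ) - a) ≤ 4 * N := by linarith [Nat.cast_nonneg (α := ℝ) a]
    nlinarith
  calc _ ≤ ‖(∑ k ∈ Icc 1 b, g k) / ((b : ℂ) + 1)‖ + ‖(∑ k ∈ Icc 1 a, g k) / ((a : ℂ) + 1)‖ +
        ‖∑ n ∈ Ioc a b, (∑ k ∈ Icc 1 n, g k) / ((n : ℂ) * (n + 1))‖ :=
        (norm_add_le _ _).trans (add_le_add_left (norm_sub_le _ _) _)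
    _ ≤ 6 * r := by linarith

/-- `halasz` for `g = f · tw t` (`CM.twist`) at all `y ∈ [N, 4N]`: `dist2 g τ y = dist2 f (t+τ) y ≥ M` for `|τ| ≤ T`, by `NP` (`|t + τ| ≤ X + T ≤ y²` as `y ≥ X^{9/10}`). Partial summation:
`Av f N t = S(4N)/(4N) - S(N)/N + ∫_N^{4N} S(u) u^{-2} du` up to floors. -/
theorem halR (f : ℕ → ℂ) (hf : CM f) (hN : NP f) (ρ : ℝ) (hρ : 0 < ρ) : ∃ X₀ : ℝ, ∀ X N t : ℝ,
    X₀ ≤ X → X ^ (9 / 10 : ℝ) ≤ N → N ≤ X → |t| ≤ X → ‖Av f N t‖ ≤ ρ := by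
  obtain ⟨M, T, x₀, hH⟩ := halasz (ρ / 6) (by positivity)
  obtain ⟨x₁, hx₁⟩ := hN M
  have htend : Tendsto (fun X : ℝ => X ^ (9 / 10 : ℝ)) atTop atTop :=
    tendsto_rpow_atTop (by norm_num)
  have htend2 : Tendsto (fun X : ℝ => X ^ (4 / 5 : ℝ)) atTop atTop :=
    tendsto_rpow_atTop (by norm_num)
  obtain ⟨X₁, hX₁⟩ := (tendsto_atTop_atTop.1 htend) (max (max x₀ x₁) 1)
  obtain ⟨X₂, hX₂⟩ := (tendsto_atTop_atTop.1 htend2) 2
  refine ⟨max (max X₁ X₂) (max 1 T), ?_⟩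
  intro X N t hX hXN hNX ht
  have hXX₁ : X₁ ≤ X := (le_max_left _ _).trans ((le_max_left _ _).trans hX)
  have hXX₂ : X₂ ≤ X := (le_max_right _ _).trans ((le_max_left _ _).trans hX)
  have hX1 : 1 ≤ X := (le_max_left _ _).trans ((le_max_right _ _).trans hX)
  have hXT : T ≤ X := (le_max_right _ _).trans ((le_max_right _ _).trans hX)
  have hbig := hX₁ X hXX₁
  have h2 := hX₂ X hXX₂
  have hNx₀ : x₀ ≤ N := (le_max_left _ _).trans ((le_max_left _ _).trans (hbig.trans hXN))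
  have hNx₁ : x₁ ≤ N := (le_max_right _ _).trans ((le_max_left _ _).trans (hbig.trans hXN))
  have hN1 : 1 ≤ N := (le_max_right _ _).trans (hbig.trans hXN)
  have hkey : ∀ y : ℝ, N ≤ y → ‖Sg (fun n => f n * tw t n) y‖ ≤ ρ / 6 * y := by
    intro y hy
    refine hH y (hNx₀.trans hy) _ (hf.twist t) ?_
    intro τ hτ
    have hd : dist2 (fun n => f n * tw t n) τ y = dist2 f (t + τ) y := by
      unfold dist2
      refine Finset.sum_congr rfl fun p _ => ?_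
      rw [tw_add, ← mul_assoc]
    rw [hd]
    refine hx₁ y (hNx₁.trans hy) _ ?_
    have hXy : X ^ (9 / 10 : ℝ) ≤ y := hXN.trans hy
    have hX9 : 0 ≤ X ^ (9 / 10 : ℝ) := by positivity
    have hsq : (X ^ (9 / 10 : ℝ)) ^ 2 ≤ y ^ 2 := pow_le_pow_left₀ hX9 hXy 2
    have hsq2 : (X ^ (9 / 10 : ℝ)) ^ 2 = X * X ^ (4 / 5 : ℝ) := by
      rw [← Real.rpow_natCast, ← Real.rpow_mul (by linarith)]
      conv_rhs => rw [← Real.rpow_one X]
      rw [← Real.rpow_mul (by linarith), ← Real.rpow_add (by linarith)]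
      norm_num
    have hX2 : 2 * X ≤ (X ^ (9 / 10 : ℝ)) ^ 2 := by
      rw [hsq2]
      nlinarith
    calc |t + τ| ≤ |t| + |τ| := abs_add_le _ _
      _ ≤ X + X := add_le_add ht (hτ.trans hXT)
      _ = 2 * X := by ring
      _ ≤ y ^ 2 := hX2.trans hsq
  have := HalR_bound (fun n => f n * tw t n) (ρ / 6) N (by positivity) hN1 hkey
  have heq : Av f N t = ∑ n ∈ Ioc ⌊N⌋₊ ⌊4 * N⌋₊, (f n * tw t n) / n := by
    unfold Av dp
    refine Finset.sum_congr rfl fun n _ => ?_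
    ring
  rw [heq]
  linarith

end Pool.Agent.Mrd
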