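import Pool.Agent.Mrd.Kbs

/-!
Mrd IRR: Moebius twisted by `l^n`, `l` not a root of unity, in short intervals.
-/

set_option autoImplicit false

namespace Pool.Agent.Mrd

open Finset MeasureTheory Filter Topology

/-- summation by parts against a geometric sequence -/
private theorem Irr_abel_id (z : ℂ) (w : ℕ → ℂ) (M : ℕ) :
    (1 - z) * ∑ m ∈ Icc 1 M, z ^ m * w m =
      z * w 0 - z ^ (M + 1) * w M + ∑ m ∈ range M, z ^ (m + 1) * (w (m + 1) - w m) := by
  induction M with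
  | zero => simp
  | succ M ih =>
    rw [Finset.sum_Icc_succ_top (by omega), mul_add, ih, Finset.sum_range_succ]
    ring

private theorem Irr_abel (z : ℂ) (hz : ‖z‖ = 1) (hz1 : z ≠ 1) (w : ℕ → ℂ) (hw : ∀ m, ‖w m‖ ≤ 1)
    (V : ℕ → ℝ) (hV : ∀ m, ‖w (m + 1) - w m‖ ≤ V (m + 1) - V m) (M : ℕ) :
    ‖∑ m ∈ Icc 1 M, z ^ m * w m‖ ≤ 1 / ‖1 - z‖ * (2 + (V M - V 0)) := by
  have hpos : 0 < ‖1 - z‖ := by
    rw [norm_pos_iff]
    exact sub_ne_zero.2 hz1.symm
  have h1 : ‖1 - z‖ * ‖∑ m ∈ Icc 1 M, z ^ m * w m‖ ≤ 2 + (V M - V 0) := by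
    rw [← norm_mul, Irr_abel_id]
    have ha : ‖z * w 0‖ ≤ 1 := by
      rw [norm_mul, hz, one_mul]
      exact hw 0
    have hb : ‖z ^ (M + 1) * w M‖ ≤ 1 := by
      rw [norm_mul, norm_pow, hz, one_pow, one_mul]
      exact hw M
    have hc : ‖∑ m ∈ range M, z ^ (m + 1) * (w (m + 1) - w m)‖ ≤ V M - V 0 := by
      rw [← Finset.sum_range_sub]
      refine (norm_sum_le _ _).trans (Finset.sum_le_sum fun m _ => ?_)
      rw [norm_mul, norm_pow, hz, one_pow, one_mul]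
      exact hV m
    calc _ ≤ ‖z * w 0‖ + ‖z ^ (M + 1) * w M‖ +
          ‖∑ m ∈ range M, z ^ (m + 1) * (w (m + 1) - w m)‖ :=
          (norm_add_le _ _).trans (add_le_add_left (norm_sub_le _ _) _)
      _ ≤ _ := by linarith
  rw [one_div, ← div_eq_inv_mul, le_div_iff₀ hpos, mul_comm]
  exact h1

/-- differences of a bounded sequence along a monotone index -/
private theorem Irr_diff (v : ℕ → ℂ) (hv : ∀ j, ‖v j‖ ≤ 1) (a b : ℕ) (hab : a ≤ b) :
    ‖v b - v a‖ ≤ 2 * ((b : ℝ) - a) := by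
  rcases hab.eq_or_lt with h | h
  · subst h
    simp
  · have h1 : (a : ℝ) + 1 ≤ b := by exact_mod_cast h
    calc ‖v b - v a‖ ≤ ‖v b‖ + ‖v a‖ := norm_sub_le _ _
      _ ≤ 1 + 1 := add_le_add (hv _) (hv _)
      _ ≤ 2 * ((b : ℝ) - a) := by linarith

private theorem Irr_prod_diff (a b c d : ℂ) (hb : ‖b‖ ≤ 1) (hc : ‖c‖ ≤ 1) :
    ‖a * b - c * d‖ ≤ ‖a - c‖ + ‖b - d‖ := by
  have : a * b - c * d = (a - c) * b + c * (b - d) := by ring
  rw [this]
  refine (norm_add_le _ _).trans ?_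
  rw [norm_mul, norm_mul]
  have h1 : ‖a - c‖ * ‖b‖ ≤ ‖a - c‖ * 1 := mul_le_mul_of_nonneg_left hb (norm_nonneg _)
  have h2 : ‖c‖ * ‖b - d‖ ≤ 1 * ‖b - d‖ := mul_le_mul_of_nonneg_right hc (norm_nonneg _)
  linarith

/-- the correlation bound -/
private theorem Irr_corr (l : ℂ) (hl : ‖l‖ = 1) (v : ℕ → ℂ) (hv : ∀ j, ‖v j‖ ≤ 1) (H s p p' N : ℕ)
    (hH : 1 ≤ H) (hs : s < H) (hp : 1 ≤ p) (hp' : 1 ≤ p')
    (hz : l ^ p * (starRingEnd ℂ) (l ^ p') ≠ 1) :
    ‖∑ m ∈ Icc 1 (N / max p p'), (l ^ (p * m) * v ((p * m + s) / H)) *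
      (starRingEnd ℂ) (l ^ (p' * m) * v ((p' * m + s) / H))‖ ≤
      1 / ‖1 - l ^ p * (starRingEnd ℂ) (l ^ p')‖ * (6 + 4 * ((N : ℝ) / H)) := by
  set z := l ^ p * (starRingEnd ℂ) (l ^ p') with hzdef
  set w : ℕ → ℂ := fun m => v ((p * m + s) / H) * (starRingEnd ℂ) (v ((p' * m + s) / H)) with hwdef
  set V : ℕ → ℝ := fun m => 2 * (((p * m + s) / H : ℕ) : ℝ) + 2 * (((p' * m + s) / H : ℕ) : ℝ)
    with hVdef
  have hzn : ‖z‖ = 1 := by
    rw [hzdef, norm_mul, RCLike.norm_conj, norm_pow, norm_pow, hl, one_pow, one_pow, one_mul]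
  have hw : ∀ m, ‖w m‖ ≤ 1 := by
    intro m
    rw [hwdef]
    simp only
    rw [norm_mul, RCLike.norm_conj]
    exact mul_le_one₀ (hv _) (norm_nonneg _) (hv _)
  have hV : ∀ m, ‖w (m + 1) - w m‖ ≤ V (m + 1) - V m := by
    intro m
    rw [hwdef, hVdef]
    simp only
    refine (Irr_prod_diff _ _ _ _ ?_ (hv _)).trans ?_
    · rw [RCLike.norm_conj]
      exact hv _
    · rw [← map_sub, RCLike.norm_conj]
      have h1 := Irr_diff v hv ((p * m + s) / H) ((p * (m + 1) + s) / H)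
        (Nat.div_le_div_right (by nlinarith))
      have h2 := Irr_diff v hv ((p' * m + s) / H) ((p' * (m + 1) + s) / H)
        (Nat.div_le_div_right (by nlinarith))
      linarith
  have hsum : ∑ m ∈ Icc 1 (N / max p p'), (l ^ (p * m) * v ((p * m + s) / H)) *
      (starRingEnd ℂ) (l ^ (p' * m) * v ((p' * m + s) / H)) =
      ∑ m ∈ Icc 1 (N / max p p'), z ^ m * w m := by
    refine Finset.sum_congr rfl fun m _ => ?_
    rw [hzdef, hwdef]
    simp only
    rw [mul_pow, ← pow_mul, map_mul, map_pow, map_pow, ← pow_mul]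
    ring
  rw [hsum]
  refine (Irr_abel z hzn hz w hw V hV _).trans ?_
  refine mul_le_mul_of_nonneg_left ?_ (by positivity)
  have hV0 : 0 ≤ V 0 := by
    rw [hVdef]
    positivity
  set M := N / max p p' with hM
  have hHr : (0 : ℝ) < H := by exact_mod_cast hH
  have hb : ∀ q, 1 ≤ q → q ≤ max p p' → ((((q * M + s) / H : ℕ) : ℝ)) ≤ (N : ℝ) / H + 1 := by
    intro q hq hq'
    have h1 : q * M ≤ N := by
      calc q * M ≤ max p p' * M := Nat.mul_le_mul_right _ hq'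
        _ ≤ N := Nat.mul_div_le _ _
    have h2 : (((q * M + s) / H : ℕ) : ℝ) ≤ ((q * M + s : ℕ) : ℝ) / H := Nat.cast_div_le
    refine h2.trans ?_
    rw [div_add_one hHr.ne', div_le_div_iff_of_pos_right hHr]
    have : q * M + s ≤ N + H := by omega
    exact_mod_cast this
  have hp1 := hb p hp (le_max_left _ _)
  have hp2 := hb p' hp' (le_max_right _ _)
  have hVM : V M ≤ 4 + 4 * ((N : ℝ) / H) := by
    rw [hVdef]
    simp only
    linarith
  linarith

/-- sums over a multiple of `H` split into blocks -/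
private theorem Irr_blocks (a : ℕ → ℝ) (H J : ℕ) :
    ∑ m ∈ range (J * H), a m = ∑ j ∈ range J, ∑ r ∈ range H, a (r + j * H) := by
  induction J with
  | zero => simp
  | succ J ih =>
    rw [Nat.succ_mul, Finset.sum_range_add, ih, Finset.sum_range_succ]
    congr 1
    refine Finset.sum_congr rfl fun r _ => ?_
    rw [add_comm]

private theorem Irr_blocks2 (a : ℕ → ℂ) (H r J : ℕ) :
    ∑ n ∈ Ioc r (r + J * H), a n =
      ∑ j ∈ range J, ∑ n ∈ Ioc (r + j * H) (r + j * H + H), a n := by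
  induction J with
  | zero => simp
  | succ J ih =>
    rw [Finset.sum_range_succ, ← ih,
      Finset.sum_Ioc_consecutive _ (Nat.le_add_right _ _) (Nat.le_add_right _ _)]
    congr 2
    ring

/-- one residue class -/
private theorem Irr_class (l : ℂ) (H J r : ℕ) (hH : 1 ≤ H) (hr : r < H) :
    ∃ v : ℕ → ℂ, (∀ j, ‖v j‖ ≤ 1) ∧
      ∑ n ∈ Icc 1 (J * H + H), ((ArithmeticFunction.moebius n : ℤ) : ℂ) *
        (l ^ n * v ((n + (H - 1 - r)) / H)) =
      ((∑ j ∈ range J, ‖∑ n ∈ Ioc (r + j * H) (r + j * H + H),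
        l ^ n * ((ArithmeticFunction.moebius n : ℤ) : ℂ)‖ : ℝ) : ℂ) := by
  set S : ℕ → ℂ := fun j => ∑ n ∈ Ioc (r + j * H) (r + j * H + H),
    l ^ n * ((ArithmeticFunction.moebius n : ℤ) : ℂ) with hS
  set u : ℕ → ℂ := fun j => (starRingEnd ℂ) (S j) / (‖S j‖ : ℂ) with hu
  have hu1 : ∀ j, ‖u j‖ ≤ 1 := by
    intro j
    rw [hu]
    simp only
    rw [norm_div, RCLike.norm_conj, Complex.norm_real, norm_norm]
    exact div_self_le_one _
  have huS : ∀ j, u j * S j = (‖S j‖ : ℂ) := by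
    intro j
    rw [hu]
    simp only
    by_cases h0 : S j = 0
    · simp [h0]
    · have hne : (‖S j‖ : ℂ) ≠ 0 := by
        rw [Complex.ofReal_ne_zero]
        exact norm_ne_zero_iff.2 h0
      rw [div_mul_eq_mul_div, div_eq_iff hne, mul_comm, Complex.mul_conj, Complex.normSq_eq_norm_sq]
      push_cast
      ring
  refine ⟨fun k => if 1 ≤ k ∧ k ≤ J then u (k - 1) else 0, ?_, ?_⟩
  · intro j
    dsimp only
    split_ifs
    · exact hu1 _
    · simp
  · set v : ℕ → ℂ := fun k => if 1 ≤ k ∧ k ≤ J then u (k - 1) else 0 with hv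
    set a : ℕ → ℂ := fun n => ((ArithmeticFunction.moebius n : ℤ) : ℂ) *
        (l ^ n * v ((n + (H - 1 - r)) / H)) with ha
    change ∑ n ∈ Icc 1 (J * H + H), a n = _
    have h0 : Icc 1 (J * H + H) = Ioc 0 (J * H + H) := by
      ext n
      simp only [Finset.mem_Icc, Finset.mem_Ioc]
      omega
    have hidx : ∀ n j : ℕ, r + j * H < n → n ≤ r + j * H + H → (n + (H - 1 - r)) / H = j + 1 := by
      intro n j h1 h2
      rw [Nat.div_eq_iff (by omega)]
      rw [Nat.add_mul]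
      constructor
      · omega
      · omega
    have hlow : ∑ n ∈ Ioc 0 r, a n = 0 := by
      refine Finset.sum_eq_zero fun n hn => ?_
      rw [Finset.mem_Ioc] at hn
      have : (n + (H - 1 - r)) / H = 0 := Nat.div_eq_of_lt (by omega)
      rw [ha]
      simp only
      rw [this, hv]
      simp
    have hhigh : ∑ n ∈ Ioc (r + J * H) (J * H + H), a n = 0 := by
      refine Finset.sum_eq_zero fun n hn => ?_
      rw [Finset.mem_Ioc] at hn
      have : (n + (H - 1 - r)) / H = J + 1 := hidx n J hn.1 (by omega)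
      rw [ha]
      simp only
      rw [this, hv]
      simp
    rw [h0, ← Finset.sum_Ioc_consecutive _ (Nat.zero_le (r + J * H)) (by omega),
      ← Finset.sum_Ioc_consecutive _ (Nat.zero_le r) (Nat.le_add_right _ _), hlow, hhigh, zero_add,
      add_zero, Irr_blocks2, Complex.ofReal_sum]
    refine Finset.sum_congr rfl fun j hj => ?_
    rw [Finset.mem_range] at hj
    rw [← huS j, hS]
    simp only
    rw [Finset.mul_sum]
    refine Finset.sum_congr rfl fun n hn => ?_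
    rw [Finset.mem_Ioc] at hn
    rw [ha]
    simp only
    rw [hidx n j hn.1 hn.2, hv]
    simp only
    rw [if_pos ⟨by omega, by omega⟩, Nat.add_sub_cancel]
    ring

private theorem Irr_ne (l : ℂ) (hl : ‖l‖ = 1) (hn : ∀ q : ℕ, 1 ≤ q → l ^ q ≠ 1) (p p' : ℕ)
    (hpp : p ≠ p') : l ^ p * (starRingEnd ℂ) (l ^ p') ≠ 1 := by
  intro h
  have hcc : (starRingEnd ℂ) (l ^ p') * l ^ p' = 1 := by
    rw [mul_comm, Complex.mul_conj, Complex.normSq_eq_norm_sq, norm_pow, hl]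
    simp
  have heq : l ^ p = l ^ p' := by
    calc l ^ p = l ^ p * ((starRingEnd ℂ) (l ^ p') * l ^ p') := by rw [hcc, mul_one]
      _ = (l ^ p * (starRingEnd ℂ) (l ^ p')) * l ^ p' := by ring
      _ = l ^ p' := by rw [h, one_mul]
  have hl0 : l ≠ 0 := by
    intro h0
    rw [h0, norm_zero] at hl
    exact zero_ne_one hl
  rcases Nat.lt_or_gt_of_ne hpp with hlt | hgt
  · apply hn (p' - p) (by omega)
    have h1 : l ^ p * l ^ (p' - p) = l ^ p * 1 := by
      rw [← pow_add, Nat.add_sub_cancel' hlt.le, mul_one, heq]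
    exact mul_left_cancel₀ (pow_ne_zero _ hl0) h1
  · apply hn (p - p') (by omega)
    have h1 : l ^ p' * l ^ (p - p') = l ^ p' * 1 := by
      rw [← pow_add, Nat.add_sub_cancel' hgt.le, mul_one, heq]
    exact mul_left_cancel₀ (pow_ne_zero _ hl0) h1

/-- For fixed `r < H` the intervals `(m, m+H]`, `m ≡ r mod H`, are disjoint: with `c(n)` = conjugate sign of the sum over the interval containing `n` (modulus 1, constant on each interval; 0 for `n ≤ r` or beyond the last interval), `∑_{m ≡ r, m<N} ‖∑_{m<n≤m+H} l^n μ(n)‖ = ∑_{n ≤ N+H} μ(n) l^n c(n)`. `kbs` for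
`F(n) = l^n c(n)`: `F(pm) conj F(p'm) = l^{(p-p')m} c(pm) conj c(p'm)`, the last factor is constant on at most `(p+p')(M/H) + 4` runs of `m ≤ M`, each run contributes `≤ 2/|1 - l^{p-p'}|` (geometric series, `l^{p-p'} ≠ 1`). So `≤ C_P(N/H + 1) ≤ κN`
for `H ≥ H₀`, `N ≥ N₀`. Sum over `r < H`. -/
theorem irr (l : ℂ) (hl : ‖l‖ = 1) (hn : ∀ q : ℕ, 1 ≤ q → l ^ q ≠ 1) (ε : ℝ) (hε : 0 < ε) :
    ∃ H₀ : ℕ, ∀ H : ℕ, H₀ ≤ H → ∃ N₀ : ℕ, ∀ N : ℕ, N₀ ≤ N →
      ∑ m ∈ range N, ‖∑ n ∈ Ioc m (m + H), l ^ n * ((ArithmeticFunction.moebius n : ℤ) : ℂ)‖ ≤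
        ε * N * H := by
  obtain ⟨P, κ, N₁, hP, hκ, hK⟩ := kbs (ε / 2) (by positivity)
  set E : ℝ := ∑ p ∈ P, ∑ p' ∈ P, 1 / ‖1 - l ^ p * (starRingEnd ℂ) (l ^ p')‖ with hE
  have hE0 : 0 ≤ E := Finset.sum_nonneg fun p _ => Finset.sum_nonneg fun p' _ => by positivity
  have hEle : ∀ p ∈ P, ∀ p' ∈ P, 1 / ‖1 - l ^ p * (starRingEnd ℂ) (l ^ p')‖ ≤ E := by
    intro p hp p' hp'
    have h1 : 1 / ‖1 - l ^ p * (starRingEnd ℂ) (l ^ p')‖ ≤
        ∑ p'' ∈ P, 1 / ‖1 - l ^ p * (starRingEnd ℂ) (l ^ p'')‖ :=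
      Finset.single_le_sum (f := fun p'' => 1 / ‖1 - l ^ p * (starRingEnd ℂ) (l ^ p'')‖)
        (fun i _ => by positivity) hp'
    have h2 : ∑ p'' ∈ P, 1 / ‖1 - l ^ p * (starRingEnd ℂ) (l ^ p'')‖ ≤ E :=
      Finset.single_le_sum
        (f := fun q => ∑ p'' ∈ P, 1 / ‖1 - l ^ q * (starRingEnd ℂ) (l ^ p'')‖)
        (fun i _ => Finset.sum_nonneg fun j _ => by positivity) hp
    exact h1.trans h2
  refine ⟨⌈8 * E / κ⌉₊ + 1, ?_⟩
  intro H hH
  have hH1 : 1 ≤ H := by omega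
  have hHr : (0 : ℝ) < H := by exact_mod_cast hH1
  have hHE : 8 * E ≤ κ * H := by
    have h1 : 8 * E / κ ≤ H := by
      refine (Nat.le_ceil _).trans ?_
      have : ⌈8 * E / κ⌉₊ ≤ H := by omega
      exact_mod_cast this
    rw [div_le_iff₀ hκ] at h1
    linarith
  refine ⟨max N₁ (⌈12 * E / κ⌉₊ + 2 * H), ?_⟩
  intro N hN
  have hN1 : N₁ ≤ N := (le_max_left _ _).trans hN
  have hN2 : ⌈12 * E / κ⌉₊ + 2 * H ≤ N := (le_max_right _ _).trans hN
  have hNE : 12 * E ≤ κ * N := by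
    have h1 : 12 * E / κ ≤ N := by
      refine (Nat.le_ceil _).trans ?_
      have : ⌈12 * E / κ⌉₊ ≤ N := by omega
      exact_mod_cast this
    rw [div_le_iff₀ hκ] at h1
    linarith
  set J := N / H + 1 with hJ
  have hJN : N ≤ J * H := by
    rw [hJ, Nat.add_mul, one_mul]
    have := Nat.div_add_mod N H
    have h2 := Nat.mod_lt N (show 0 < H by omega)
    rw [mul_comm (N / H) H]
    omega
  have hJN2 : J * H + H ≤ 2 * N := by
    rw [hJ, Nat.add_mul, one_mul]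
    have := Nat.div_mul_le_self N H
    omega
  set N' := J * H + H with hN'
  have hNN' : N ≤ N' := by omega
  have hNN'r : (N : ℝ) ≤ N' := by exact_mod_cast hNN'
  -- one class
  have hclass : ∀ r ∈ range H, ∑ j ∈ range J, ‖∑ n ∈ Ioc (r + j * H) (r + j * H + H),
      l ^ n * ((ArithmeticFunction.moebius n : ℤ) : ℂ)‖ ≤ ε / 2 * N' := by
    intro r hr
    rw [Finset.mem_range] at hr
    obtain ⟨v, hv, hsum⟩ := Irr_class l H J r hH1 hr
    have hk := hK N' (fun n => l ^ n * v ((n + (H - 1 - r)) / H)) (by omega) ?_ ?_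
    · rw [hsum, Complex.norm_real] at hk
      exact (le_abs_self _).trans hk
    · intro n
      rw [norm_mul, norm_pow, hl, one_pow, one_mul]
      exact hv _
    · intro p hp p' hp' hpp
      have h1 := Irr_corr l hl v hv H (H - 1 - r) p p' N' hH1 (by omega) (hP p hp).one_lt.le
        (hP p' hp').one_lt.le (Irr_ne l hl hn p p' hpp)
      refine h1.trans ?_
      have h2 : 1 / ‖1 - l ^ p * (starRingEnd ℂ) (l ^ p')‖ * (6 + 4 * ((N' : ℝ) / H)) ≤
          E * (6 + 4 * ((N' : ℝ) / H)) :=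
        mul_le_mul_of_nonneg_right (hEle p hp p' hp') (by positivity)
      refine h2.trans ?_
      have h3 : E * (4 * ((N' : ℝ) / H)) ≤ κ * N' / 2 := by
        rw [← mul_assoc, mul_div_assoc', div_le_iff₀ hHr]
        have : 0 ≤ (N' : ℝ) := Nat.cast_nonneg _
        nlinarith
      have h4 : E * 6 ≤ κ * N' / 2 := by
        have : κ * (N : ℝ) ≤ κ * N' := mul_le_mul_of_nonneg_left hNN'r hκ.le
        linarith
      rw [mul_add]
      linarith
  calc ∑ m ∈ range N, ‖∑ n ∈ Ioc m (m + H), l ^ n * ((ArithmeticFunction.moebius n : ℤ) : ℂ)‖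
      ≤ ∑ m ∈ range (J * H), ‖∑ n ∈ Ioc m (m + H),
          l ^ n * ((ArithmeticFunction.moebius n : ℤ) : ℂ)‖ :=
        Finset.sum_le_sum_of_subset_of_nonneg (Finset.range_mono hJN) fun _ _ _ => norm_nonneg _
    _ = ∑ j ∈ range J, ∑ r ∈ range H, ‖∑ n ∈ Ioc (r + j * H) (r + j * H + H),
          l ^ n * ((ArithmeticFunction.moebius n : ℤ) : ℂ)‖ := Irr_blocks _ H J
    _ = ∑ r ∈ range H, ∑ j ∈ range J, ‖∑ n ∈ Ioc (r + j * H) (r + j * H + H),
          l ^ n * ((ArithmeticFunction.moebius n : ℤ) : ℂ)‖ := Finset.sum_comm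
    _ ≤ ∑ r ∈ range H, ε / 2 * N' := Finset.sum_le_sum hclass
    _ = H * (ε / 2 * N') := by rw [Finset.sum_const, Finset.card_range, nsmul_eq_mul]
    _ ≤ ε * N * H := by
        have h2N : (N' : ℝ) ≤ 2 * N := by exact_mod_cast hJN2
        have : (H : ℝ) * (ε / 2 * N') ≤ H * (ε / 2 * (2 * N)) :=
          mul_le_mul_of_nonneg_left (mul_le_mul_of_nonneg_left h2N (by positivity)) hHr.le
        linarith

end Pool.Agent.Mrd
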