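import Pool.Agent.Mrd.TK

/-!
Mrd KBS: Katai-Bourgain-Sarnak-Ziegler with a fixed finite set of primes.
-/

set_option autoImplicit false

namespace Pool.Agent.Mrd

open Finset MeasureTheory Filter Topology

private theorem Kbs_primes (W₀ : ℝ) : ∃ P : Finset ℕ, (∀ p ∈ P, p.Prime) ∧ W₀ ≤ LP P := by
  classical
  have h := not_summable_one_div_on_primes
  have h0 : ∀ n : ℕ, 0 ≤ Set.indicator {p : ℕ | p.Prime} (fun n : ℕ => (1 : ℝ) / n) n := by
    intro n
    refine Set.indicator_nonneg (fun k _ => ?_) n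
    positivity
  rw [not_summable_iff_tendsto_nat_atTop_of_nonneg h0] at h
  obtain ⟨n, hn⟩ := (tendsto_atTop.1 h W₀).exists
  refine ⟨(range n).filter Nat.Prime, fun p hp => (Finset.mem_filter.1 hp).2, ?_⟩
  refine hn.trans (le_of_eq ?_)
  unfold LP
  rw [Finset.sum_filter]
  refine Finset.sum_congr rfl fun k _ => ?_
  simp only [Set.indicator, Set.mem_ofPred_eq]

private theorem Kbs_mult (p N : ℕ) (hp : 0 < p) (g : ℕ → ℂ) :
    ∑ n ∈ (Icc 1 N).filter (fun n => p ∣ n), g n = ∑ m ∈ Icc 1 (N / p), g (p * m) := by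
  classical
  symm
  refine Finset.sum_bij (fun m _ => p * m) ?_ ?_ ?_ ?_
  · intro m hm
    rw [Finset.mem_Icc] at hm
    rw [Finset.mem_filter, Finset.mem_Icc]
    refine ⟨⟨?_, ?_⟩, dvd_mul_right _ _⟩
    · exact Nat.mul_pos hp (by omega)
    · calc p * m ≤ p * (N / p) := Nat.mul_le_mul_left _ hm.2
        _ ≤ N := Nat.mul_div_le _ _
  · intro a _ b _ hab
    exact Nat.eq_of_mul_eq_mul_left hp hab
  · intro n hn
    rw [Finset.mem_filter, Finset.mem_Icc] at hn
    obtain ⟨⟨h1, h2⟩, m, rfl⟩ := hn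
    refine ⟨m, ?_, rfl⟩
    rw [Finset.mem_Icc]
    refine ⟨?_, ?_⟩
    · rcases Nat.eq_zero_or_pos m with h | h
      · subst h
        simp at h1
      · exact h
    · rw [Nat.le_div_iff_mul_le hp, mul_comm]
      exact h2
  · intro m _
    rfl

private theorem Kbs_mu (p m : ℕ) (hp : p.Prime) :
    ((ArithmeticFunction.moebius (p * m) : ℤ) : ℂ) =
      -((ArithmeticFunction.moebius m : ℤ) : ℂ) +
        (if p ∣ m then ((ArithmeticFunction.moebius m : ℤ) : ℂ) else 0) := by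
  by_cases h : p ∣ m
  · rw [if_pos h]
    have hns : ¬ Squarefree (p * m) := by
      intro hs
      obtain ⟨k, rfl⟩ := h
      have := hs p ⟨k, by ring⟩
      exact hp.one_lt.ne' (Nat.isUnit_iff.1 this)
    rw [ArithmeticFunction.moebius_eq_zero_of_not_squarefree hns]
    push_cast
    ring
  · rw [if_neg h]
    have hc : Nat.Coprime p m := (Nat.Prime.coprime_iff_not_dvd hp).2 h
    rw [ArithmeticFunction.isMultiplicative_moebius.map_mul_of_coprime hc,
      ArithmeticFunction.moebius_apply_prime hp]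
    push_cast
    ring

private theorem Kbs_mu_norm (n : ℕ) : ‖((ArithmeticFunction.moebius n : ℤ) : ℂ)‖ ≤ 1 := by
  have h := ArithmeticFunction.abs_moebius_le_one (n := n)
  rw [Complex.norm_intCast]
  exact_mod_cast h

private theorem Kbs_sq (P : Finset ℕ) (hP : ∀ p ∈ P, p.Prime) :
    ∑ p ∈ P, ((1 : ℝ) / p) * ((1 : ℝ) / p) ≤ 1 := by
  classical
  obtain ⟨b, hb⟩ : ∃ b, ∀ p ∈ P, p ≤ b := ⟨P.sup id, fun p hp => Finset.le_sup (f := id) hp⟩
  have hsub : P ⊆ Ioc 1 (max b 1) := by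
    intro p hp
    rw [Finset.mem_Ioc]
    exact ⟨(hP p hp).one_lt, le_max_of_le_left (hb p hp)⟩
  have h1 := sum_Ioc_inv_sq_le_sub (α := ℝ) (k := 1) (n := max b 1) one_ne_zero (le_max_right _ _)
  calc ∑ p ∈ P, ((1 : ℝ) / p) * ((1 : ℝ) / p) = ∑ p ∈ P, ((p : ℝ) ^ 2)⁻¹ := by
        refine Finset.sum_congr rfl fun p _ => ?_
        rw [one_div, ← mul_inv, sq]
    _ ≤ ∑ p ∈ Ioc 1 (max b 1), ((p : ℝ) ^ 2)⁻¹ :=
        Finset.sum_le_sum_of_subset_of_nonneg hsub fun n _ _ => by positivity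
    _ ≤ (((1 : ℕ) : ℝ))⁻¹ - (((max b 1 : ℕ) : ℝ))⁻¹ := h1
    _ ≤ 1 := by
        have : (0 : ℝ) ≤ (((max b 1 : ℕ) : ℝ))⁻¹ := by positivity
        simp only [Nat.cast_one, inv_one]
        linarith

/-- `P` = all primes up to a bound, `W = LP P` large (divergence of `∑ 1/p`), `κ = W/|P|²`. `W ∑ μF = ∑ μ(n)F(n) ω(n) + O(∑|W - ω|)`, the error is `≤ N√(W+1)` for `N ≥ 3|P|²` (`tk` with `y = 0`). `∑ μ(n)F(n)ω(n) = ∑_p ∑_{m≤N/p} μ(pm)F(pm) = -∑_p ∑_{m ≤ N/p} μ(m)F(pm) + O(N∑ p^{-2})`, and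
`|∑_m μ(m) ∑_{p ≤ N/m} F(pm)| ≤ √N (∑_{p,p'} |∑_{m ≤ N/max(p,p')} F(pm) conj F(p'm)|)^{1/2} ≤ √N (NW + |P|²κN)^{1/2}`. Altogether `|∑ μF| ≤ 6N/√W`. -/
theorem kbs (ε : ℝ) (hε : 0 < ε) : ∃ (P : Finset ℕ) (κ : ℝ) (N₀ : ℕ), (∀ p ∈ P, p.Prime) ∧ 0 < κ ∧
    ∀ (N : ℕ) (F : ℕ → ℂ), N₀ ≤ N → (∀ n, ‖F n‖ ≤ 1) →
    (∀ p ∈ P, ∀ p' ∈ P, p ≠ p' →
      ‖∑ m ∈ Icc 1 (N / max p p'), F (p * m) * (starRingEnd ℂ) (F (p' * m))‖ ≤ κ * N) →
    ‖∑ n ∈ Icc 1 N, ((ArithmeticFunction.moebius n : ℤ) : ℂ) * F n‖ ≤ ε * N := by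
  classical
  obtain ⟨P, hP, hW⟩ := Kbs_primes (max 1 (16 / ε ^ 2))
  have hW1 : 1 ≤ LP P := le_trans (le_max_left _ _) hW
  have hW2 : 16 / ε ^ 2 ≤ LP P := le_trans (le_max_right _ _) hW
  set W := LP P with hWdef
  have hPne : P.Nonempty := by
    rw [Finset.nonempty_iff_ne_empty]
    intro h
    rw [h] at hWdef
    simp [LP] at hWdef
    linarith
  have hc : (0 : ℝ) < P.card := by exact_mod_cast hPne.card_pos
  refine ⟨P, W / (P.card : ℝ) ^ 2, 3 * P.card ^ 2, hP, by positivity, ?_⟩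
  intro N F hN hF hcor
  have hNr : 3 * (P.card : ℝ) ^ 2 ≤ N := by exact_mod_cast hN
  have hN0 : (0 : ℝ) ≤ N := Nat.cast_nonneg _
  set mu : ℕ → ℂ := fun n => ((ArithmeticFunction.moebius n : ℤ) : ℂ) with hmu
  have hmu1 : ∀ n, ‖mu n‖ ≤ 1 := Kbs_mu_norm
  set s := Real.sqrt W with hs
  have hs2 : s ^ 2 = W := Real.sq_sqrt (by linarith)
  have hs1 : 1 ≤ s := by
    rw [hs]
    exact Real.one_le_sqrt.2 hW1
  -- the error of Turan-Kubilius
  set A := ∑ n ∈ Icc 1 N, |W - om P n| with hA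
  have hA0 : 0 ≤ A := Finset.sum_nonneg fun n _ => abs_nonneg _
  have hA1 : A ≤ 3 / 2 * N * s := by
    have h1 : A ^ 2 ≤ (N : ℝ) * (N * W + 3 * (P.card : ℝ) ^ 2) := by
      have h2 : A ^ 2 ≤ ((Icc 1 N).card : ℝ) * ∑ n ∈ Icc 1 N, |W - om P n| ^ 2 :=
        sq_sum_le_card_mul_sum_sq
      rw [Nat.card_Icc, Nat.add_sub_cancel] at h2
      have h3 := tk P hP 0 N
      rw [zero_add] at h3
      have h4 : ∑ n ∈ Icc 1 N, |W - om P n| ^ 2 = ∑ n ∈ Ioc 0 N, ((om P n : ℝ) - LP P) ^ 2 := by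
        refine Finset.sum_congr rfl fun n _ => ?_
        rw [sq_abs, ← hWdef]
        ring
      rw [h4] at h2
      exact h2.trans (mul_le_mul_of_nonneg_left h3 hN0)
    have h5 : (N : ℝ) * (N * W + 3 * (P.card : ℝ) ^ 2) ≤ (3 / 2 * N * s) ^ 2 := by
      have h6 : (N : ℝ) * (3 * (P.card : ℝ) ^ 2) ≤ N * N := mul_le_mul_of_nonneg_left hNr hN0
      have h7 : (N : ℝ) * N * 1 ≤ N * N * W := mul_le_mul_of_nonneg_left hW1 (by positivity)
      have h8 : (3 / 2 * (N : ℝ) * s) ^ 2 = 9 / 4 * (N * N * W) := by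
        rw [← hs2]
        ring
      rw [h8]
      nlinarith [mul_nonneg (mul_nonneg hN0 hN0) (le_trans zero_le_one hW1)]
    exact abs_le_of_sq_le_sq' (h1.trans h5) (by positivity) |>.2
  -- the main sum
  set G : ℕ → ℂ := fun m => ∑ p ∈ P, (if p * m ≤ N then F (p * m) else 0) with hG
  set M := ∑ m ∈ Icc 1 N, mu m * G m with hM
  have hG2 : ∑ m ∈ Icc 1 N, ‖G m‖ ^ 2 ≤ 2 * (N * W) := by
    have e1 : ((∑ m ∈ Icc 1 N, ‖G m‖ ^ 2 : ℝ) : ℂ) =
        ∑ p ∈ P, ∑ q ∈ P, ∑ m ∈ Icc 1 (N / max p q), F (p * m) * (starRingEnd ℂ) (F (q * m)) := by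
      push_cast
      calc ∑ m ∈ Icc 1 N, ((‖G m‖ : ℝ) : ℂ) ^ 2
          = ∑ m ∈ Icc 1 N, ∑ p ∈ P, ∑ q ∈ P,
              (if p * m ≤ N ∧ q * m ≤ N then F (p * m) * (starRingEnd ℂ) (F (q * m)) else 0) := by
            refine Finset.sum_congr rfl fun m _ => ?_
            rw [← Complex.mul_conj', hG]
            simp only
            rw [map_sum, Finset.sum_mul_sum]
            refine Finset.sum_congr rfl fun p _ => Finset.sum_congr rfl fun q _ => ?_
            by_cases h1 : p * m ≤ N <;> by_cases h2 : q * m ≤ N <;> simp [h1, h2]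
        _ = _ := by
            rw [Finset.sum_comm]
            refine Finset.sum_congr rfl fun p hp => ?_
            rw [Finset.sum_comm]
            refine Finset.sum_congr rfl fun q hq => ?_
            rw [← Finset.sum_filter]
            refine Finset.sum_congr ?_ fun m _ => rfl
            ext m
            have hmax : 0 < max p q := lt_max_of_lt_left (hP p hp).pos
            rw [Finset.mem_filter, Finset.mem_Icc, Finset.mem_Icc, Nat.le_div_iff_mul_le hmax]
            constructor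
            · rintro ⟨⟨h1, _⟩, h2, h3⟩
              refine ⟨h1, ?_⟩
              rcases le_total p q with h | h
              · rw [max_eq_right h, mul_comm]
                exact h3
              · rw [max_eq_left h, mul_comm]
                exact h2
            · rintro ⟨h1, h2⟩
              have h3 : p * m ≤ m * max p q := by
                rw [mul_comm p m]
                exact Nat.mul_le_mul_left _ (le_max_left _ _)
              have h4 : q * m ≤ m * max p q := by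
                rw [mul_comm q m]
                exact Nat.mul_le_mul_left _ (le_max_right _ _)
              have h5 : m ≤ m * max p q := Nat.le_mul_of_pos_right _ hmax
              exact ⟨⟨h1, h5.trans h2⟩, h3.trans h2, h4.trans h2⟩
    have e2 : ∑ m ∈ Icc 1 N, ‖G m‖ ^ 2 = ‖((∑ m ∈ Icc 1 N, ‖G m‖ ^ 2 : ℝ) : ℂ)‖ := by
      rw [Complex.norm_real, Real.norm_of_nonneg]
      exact Finset.sum_nonneg fun m _ => by positivity
    rw [e2, e1]
    have e3 : ∀ p ∈ P, ∀ q ∈ P,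
        ‖∑ m ∈ Icc 1 (N / max p q), F (p * m) * (starRingEnd ℂ) (F (q * m))‖ ≤
          W / (P.card : ℝ) ^ 2 * N + (if p = q then (N : ℝ) * ((1 : ℝ) / p) else 0) := by
      intro p hp q hq
      by_cases h : p = q
      · subst h
        rw [if_pos rfl, max_self]
        have h1 : ‖∑ m ∈ Icc 1 (N / p), F (p * m) * (starRingEnd ℂ) (F (p * m))‖ ≤
            ((N / p : ℕ) : ℝ) := by
          refine (norm_sum_le _ _).trans ?_
          calc ∑ m ∈ Icc 1 (N / p), ‖F (p * m) * (starRingEnd ℂ) (F (p * m))‖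
              ≤ ∑ m ∈ Icc 1 (N / p), (1 : ℝ) := by
                refine Finset.sum_le_sum fun m _ => ?_
                rw [norm_mul, RCLike.norm_conj]
                exact mul_le_one₀ (hF _) (norm_nonneg _) (hF _)
            _ = ((N / p : ℕ) : ℝ) := by simp
        have h2 : ((N / p : ℕ) : ℝ) ≤ (N : ℝ) / p := Nat.cast_div_le
        have h3 : (N : ℝ) / p = N * ((1 : ℝ) / p) := by ring
        have h4 : 0 ≤ W / (P.card : ℝ) ^ 2 * N := by
          have : 0 ≤ W := by linarith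
          positivity
        linarith
      · rw [if_neg h, add_zero]
        exact hcor p hp q hq h
    calc ‖∑ p ∈ P, ∑ q ∈ P, ∑ m ∈ Icc 1 (N / max p q), F (p * m) * (starRingEnd ℂ) (F (q * m))‖
        ≤ ∑ p ∈ P, ∑ q ∈ P, (W / (P.card : ℝ) ^ 2 * N +
            (if p = q then (N : ℝ) * ((1 : ℝ) / p) else 0)) :=
          (norm_sum_le _ _).trans (Finset.sum_le_sum fun p hp =>
            (norm_sum_le _ _).trans (Finset.sum_le_sum fun q hq => e3 p hp q hq))
      _ = 2 * (N * W) := by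
          have e4 : ∀ p ∈ P, ∑ q ∈ P, (W / (P.card : ℝ) ^ 2 * N +
              (if p = q then (N : ℝ) * ((1 : ℝ) / p) else 0)) =
              P.card * (W / (P.card : ℝ) ^ 2 * N) + N * ((1 : ℝ) / p) := by
            intro p hp
            rw [Finset.sum_add_distrib, Finset.sum_ite_eq, if_pos hp, Finset.sum_const,
              nsmul_eq_mul]
          rw [Finset.sum_congr rfl e4, Finset.sum_add_distrib, Finset.sum_const, nsmul_eq_mul,
            ← Finset.mul_sum]
          have e5 : ∑ p ∈ P, (1 : ℝ) / p = W := rfl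
          rw [e5]
          field_simp
          ring
  have hM1 : ‖M‖ ≤ 3 / 2 * N * s := by
    have h1 : ‖M‖ ≤ ∑ m ∈ Icc 1 N, ‖G m‖ := by
      refine (norm_sum_le _ _).trans (Finset.sum_le_sum fun m _ => ?_)
      rw [norm_mul]
      exact mul_le_of_le_one_left (norm_nonneg _) (hmu1 m)
    have h2 : (∑ m ∈ Icc 1 N, ‖G m‖) ^ 2 ≤ ((Icc 1 N).card : ℝ) * ∑ m ∈ Icc 1 N, ‖G m‖ ^ 2 :=
      sq_sum_le_card_mul_sum_sq
    rw [Nat.card_Icc, Nat.add_sub_cancel] at h2
    have h3 : (N : ℝ) * ∑ m ∈ Icc 1 N, ‖G m‖ ^ 2 ≤ (3 / 2 * N * s) ^ 2 := by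
      have h4 : (N : ℝ) * ∑ m ∈ Icc 1 N, ‖G m‖ ^ 2 ≤ N * (2 * (N * W)) :=
        mul_le_mul_of_nonneg_left hG2 hN0
      have h8 : (3 / 2 * (N : ℝ) * s) ^ 2 = 9 / 4 * (N * N * W) := by
        rw [← hs2]
        ring
      rw [h8]
      nlinarith [mul_nonneg (mul_nonneg hN0 hN0) (le_trans zero_le_one hW1)]
    exact h1.trans (abs_le_of_sq_le_sq' (h2.trans h3) (by positivity) |>.2)
  -- the square terms
  set E := ∑ p ∈ P, ∑ m ∈ Icc 1 (N / p), (if p ∣ m then mu m else 0) * F (p * m) with hE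
  have hE1 : ‖E‖ ≤ N := by
    have h1 : ∀ p ∈ P, ‖∑ m ∈ Icc 1 (N / p), (if p ∣ m then mu m else 0) * F (p * m)‖ ≤
        N * (((1 : ℝ) / p) * ((1 : ℝ) / p)) := by
      intro p hp
      have hp0 := (hP p hp).pos
      have h2 : ‖∑ m ∈ Icc 1 (N / p), (if p ∣ m then mu m else 0) * F (p * m)‖ ≤
          ∑ m ∈ Icc 1 (N / p), (if p ∣ m then (1 : ℝ) else 0) := by
        refine (norm_sum_le _ _).trans (Finset.sum_le_sum fun m _ => ?_)
        by_cases h : p ∣ m
        · rw [if_pos h, if_pos h, norm_mul]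
          exact mul_le_one₀ (hmu1 m) (norm_nonneg _) (hF _)
        · rw [if_neg h, if_neg h]
          simp
      have h3 : ∑ m ∈ Icc 1 (N / p), (if p ∣ m then (1 : ℝ) else 0) =
          (((Ioc 0 (N / p)).filter (fun m => p ∣ m)).card : ℝ) := by
        rw [Finset.card_filter]
        push_cast
        rfl
      rw [h3, Nat.Ioc_filter_dvd_card_eq_div] at h2
      have h4 : ((N / p / p : ℕ) : ℝ) ≤ ((N / p : ℕ) : ℝ) / p := Nat.cast_div_le
      have h5 : ((N / p : ℕ) : ℝ) ≤ (N : ℝ) / p := Nat.cast_div_le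
      have hp' : (0 : ℝ) < p := by exact_mod_cast hp0
      have h6 : ((N / p : ℕ) : ℝ) / p ≤ (N : ℝ) / p / p := div_le_div_of_nonneg_right h5 hp'.le
      have h7 : (N : ℝ) / p / p = N * (((1 : ℝ) / p) * ((1 : ℝ) / p)) := by
        field_simp
      linarith
    calc ‖E‖ ≤ ∑ p ∈ P, (N : ℝ) * (((1 : ℝ) / p) * ((1 : ℝ) / p)) :=
          (norm_sum_le _ _).trans (Finset.sum_le_sum h1)
      _ = N * ∑ p ∈ P, ((1 : ℝ) / p) * ((1 : ℝ) / p) := by rw [Finset.mul_sum]
      _ ≤ N * 1 := mul_le_mul_of_nonneg_left (Kbs_sq P hP) hN0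
      _ = N := mul_one _
  -- the sum with om
  have hom : ∑ n ∈ Icc 1 N, mu n * F n * (om P n : ℂ) = -M + E := by
    have e1 : ∀ n : ℕ, (om P n : ℂ) = ∑ p ∈ P, (if p ∣ n then (1 : ℂ) else 0) := by
      intro n
      unfold om
      rw [Finset.card_filter]
      push_cast
      rfl
    calc ∑ n ∈ Icc 1 N, mu n * F n * (om P n : ℂ)
        = ∑ p ∈ P, ∑ n ∈ Icc 1 N, (if p ∣ n then mu n * F n else 0) := by
          rw [Finset.sum_comm]
          refine Finset.sum_congr rfl fun n _ => ?_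
          rw [e1, Finset.mul_sum]
          refine Finset.sum_congr rfl fun p _ => ?_
          by_cases h : p ∣ n <;> simp [h]
      _ = ∑ p ∈ P, ∑ m ∈ Icc 1 (N / p), mu (p * m) * F (p * m) := by
          refine Finset.sum_congr rfl fun p hp => ?_
          rw [← Finset.sum_filter]
          exact Kbs_mult p N (hP p hp).pos (fun n => mu n * F n)
      _ = ∑ p ∈ P, (-(∑ m ∈ Icc 1 (N / p), mu m * F (p * m)) +
            ∑ m ∈ Icc 1 (N / p), (if p ∣ m then mu m else 0) * F (p * m)) := by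
          refine Finset.sum_congr rfl fun p hp => ?_
          rw [← Finset.sum_neg_distrib, ← Finset.sum_add_distrib]
          refine Finset.sum_congr rfl fun m _ => ?_
          have h1 := Kbs_mu p m (hP p hp)
          rw [hmu]
          simp only
          rw [h1]
          ring
      _ = -M + E := by
          rw [Finset.sum_add_distrib, Finset.sum_neg_distrib]
          congr 2
          rw [hM]
          have e2 : ∀ m ∈ Icc 1 N, mu m * G m =
              ∑ p ∈ P, (if p * m ≤ N then mu m * F (p * m) else 0) := by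
            intro m _
            rw [hG]
            simp only
            rw [Finset.mul_sum]
            refine Finset.sum_congr rfl fun p _ => ?_
            by_cases h : p * m ≤ N <;> simp [h]
          rw [Finset.sum_congr rfl e2, Finset.sum_comm]
          refine Finset.sum_congr rfl fun p hp => ?_
          rw [← Finset.sum_filter]
          refine Finset.sum_congr ?_ fun m _ => rfl
          ext m
          have hp0 := (hP p hp).pos
          rw [Finset.mem_filter, Finset.mem_Icc, Finset.mem_Icc, Nat.le_div_iff_mul_le hp0]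
          constructor
          · rintro ⟨h1, h2⟩
            rw [mul_comm] at h2
            exact ⟨⟨h1, (Nat.le_mul_of_pos_left _ hp0).trans h2⟩, h2⟩
          · rintro ⟨⟨h1, _⟩, h2⟩
            rw [mul_comm] at h2
            exact ⟨h1, h2⟩
  -- assembly
  set S := ∑ n ∈ Icc 1 N, mu n * F n with hS
  have hWS : (W : ℂ) * S = (-M + E) + ∑ n ∈ Icc 1 N, mu n * F n * ((W - om P n : ℝ) : ℂ) := by
    rw [← hom, ← Finset.sum_add_distrib, hS, Finset.mul_sum]
    refine Finset.sum_congr rfl fun n _ => ?_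
    push_cast
    ring
  have hR : ‖∑ n ∈ Icc 1 N, mu n * F n * ((W - om P n : ℝ) : ℂ)‖ ≤ A := by
    refine (norm_sum_le _ _).trans (Finset.sum_le_sum fun n _ => ?_)
    rw [norm_mul, norm_mul, Complex.norm_real, Real.norm_eq_abs]
    refine mul_le_of_le_one_left (abs_nonneg _) ?_
    exact mul_le_one₀ (hmu1 n) (norm_nonneg _) (hF n)
  have hfin : W * ‖S‖ ≤ 4 * N * s := by
    have h1 : W * ‖S‖ = ‖(W : ℂ) * S‖ := by
      rw [norm_mul, Complex.norm_real, Real.norm_of_nonneg (by linarith)]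
    rw [h1, hWS]
    have h2 : ‖(-M + E) + ∑ n ∈ Icc 1 N, mu n * F n * ((W - om P n : ℝ) : ℂ)‖ ≤
        ‖M‖ + ‖E‖ + A := by
      refine (norm_add_le _ _).trans (add_le_add ?_ hR)
      refine (norm_add_le _ _).trans ?_
      rw [norm_neg]
    have h3 : (N : ℝ) * 1 ≤ N * s := mul_le_mul_of_nonneg_left hs1 hN0
    linarith
  have hs0 : 0 < s := by linarith
  have h4 : s * ‖S‖ ≤ 4 * N := by
    have h5 : s * (s * ‖S‖) ≤ s * (4 * N) := by
      calc s * (s * ‖S‖) = W * ‖S‖ := by rw [← hs2]; ring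
        _ ≤ 4 * N * s := hfin
        _ = s * (4 * N) := by ring
    exact le_of_mul_le_mul_left h5 hs0
  have h6 : 4 ≤ ε * s := by
    have h7 : 4 / ε ≤ s := by
      rw [hs]
      apply Real.le_sqrt_of_sq_le
      calc (4 / ε) ^ 2 = 16 / ε ^ 2 := by rw [div_pow]; norm_num
        _ ≤ W := hW2
    rw [div_le_iff₀ hε] at h7
    linarith
  have h8 : s * ‖S‖ ≤ s * (ε * N) := by
    calc s * ‖S‖ ≤ 4 * N := h4
      _ ≤ (ε * s) * N := mul_le_mul_of_nonneg_right h6 hN0
      _ = s * (ε * N) := by ring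
  exact le_of_mul_le_mul_left h8 hs0

end Pool.Agent.Mrd
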