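import Pool.Agent.Mrd.Defs

/-!
Mrd KERN: the Laplace kernel `e^{-|x|/T}`.
-/

set_option autoImplicit false

namespace Pool.Agent.Mrd

open Finset MeasureTheory Filter Topology

/-- `∫ e^{-|x|/T} e^{-ilx} dx = 2T/(1+(Tl)^2)`: split at 0, `∫_0^∞ e^{-(1/T + il) x} dx = 1/(1/T + il)`. -/
theorem kern (T : ℝ) (hT : 0 < T) (l : ℝ) :
    Integrable (fun x : ℝ => ((Real.exp (-|x| / T) : ℝ) : ℂ) *
      Complex.exp (-((l * x : ℝ) : ℂ) * Complex.I)) ∧
    ∫ x : ℝ, ((Real.exp (-|x| / T) : ℝ) : ℂ) * Complex.exp (-((l * x : ℝ) : ℂ) * Complex.I) =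
      ((2 * T / (1 + (T * l) ^ 2) : ℝ) : ℂ) := by
  set f : ℝ → ℂ := fun x : ℝ => ((Real.exp (-|x| / T) : ℝ) : ℂ) *
      Complex.exp (-((l * x : ℝ) : ℂ) * Complex.I) with hf
  set a : ℂ := ⟨-(1 / T), -l⟩ with ha
  set b : ℂ := ⟨1 / T, -l⟩ with hb
  have hare : a.re < 0 := by
    simp only [ha]
    have : 0 < 1 / T := by positivity
    linarith
  have hbre : 0 < b.re := by
    simp only [hb]
    positivity
  have e1 : ∀ x ∈ Set.Ioi (0 : ℝ), f x = Complex.exp (a * x) := by
    intro x hx
    have hx' : (0 : ℝ) < x := hx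
    simp only [hf]
    rw [abs_of_pos hx', Complex.ofReal_exp, ← Complex.exp_add]
    congr 1
    apply Complex.ext
    · simp [ha]
      ring
    · simp [ha]
  have e2 : ∀ x ∈ Set.Iic (0 : ℝ), f x = Complex.exp (b * x) := by
    intro x hx
    have hx' : x ≤ (0 : ℝ) := hx
    simp only [hf]
    rw [abs_of_nonpos hx', Complex.ofReal_exp, ← Complex.exp_add]
    congr 1
    apply Complex.ext
    · simp [hb]
      ring
    · simp [hb]
  have i1 : IntegrableOn f (Set.Ioi 0) :=
    (integrableOn_exp_mul_complex_Ioi hare 0).congr_fun (fun x hx => (e1 x hx).symm)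
      measurableSet_Ioi
  have i2 : IntegrableOn f (Set.Iic 0) :=
    (integrableOn_exp_mul_complex_Iic hbre 0).congr_fun (fun x hx => (e2 x hx).symm)
      measurableSet_Iic
  have hint : Integrable f := by
    rw [← integrableOn_univ, ← Set.Iic_union_Ioi (a := (0 : ℝ))]
    exact i2.union i1
  refine ⟨hint, ?_⟩
  have h1 : ∫ x : ℝ, f x = (∫ x in Set.Iic 0, f x) + ∫ x in Set.Ioi 0, f x :=
    (intervalIntegral.integral_Iic_add_Ioi i2 i1).symm
  rw [h1, setIntegral_congr_fun measurableSet_Iic e2, setIntegral_congr_fun measurableSet_Ioi e1,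
    integral_exp_mul_complex_Ioi hare, integral_exp_mul_complex_Iic hbre]
  have hTl : (0 : ℝ) < 1 + (T * l) ^ 2 := by positivity
  have hane : a ≠ 0 := by
    intro h
    rw [h] at hare
    simp at hare
  have hbne : b ≠ 0 := by
    intro h
    rw [h] at hbre
    simp at hbre
  simp only [Complex.ofReal_zero, mul_zero, Complex.exp_zero]
  have hs : (b : ℂ) - a = ((2 / T : ℝ) : ℂ) := by
    apply Complex.ext
    · simp [ha, hb]
      ring
    · simp [ha, hb]
  have hp : a * b = ((-((1 + (T * l) ^ 2) / T ^ 2) : ℝ) : ℂ) := by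
    apply Complex.ext
    · rw [Complex.ofReal_re, Complex.mul_re]
      simp only [ha, hb]
      field_simp
      ring
    · rw [Complex.ofReal_im, Complex.mul_im]
      simp only [ha, hb]
      ring
  have : 1 / b + -1 / a = (a - b) / (a * b) := by
    field_simp
    ring
  rw [this, hp, show a - b = -(b - a) by ring, hs, ← Complex.ofReal_neg, ← Complex.ofReal_div]
  congr 1
  field_simp

private theorem kern_sq (S : Finset ℕ) (a : ℕ → ℂ) (t : ℝ) :
    ((‖dp S a t‖ ^ 2 : ℝ) : ℂ) = ∑ n ∈ S, ∑ m ∈ S, (a n * (starRingEnd ℂ) (a m)) *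
      Complex.exp (-(((Real.log n - Real.log m) * t : ℝ) : ℂ) * Complex.I) := by
  rw [← Complex.normSq_eq_norm_sq, Complex.normSq_eq_conj_mul_self]
  unfold dp
  rw [map_sum, Finset.sum_mul_sum, Finset.sum_comm]
  refine Finset.sum_congr rfl fun n _ => Finset.sum_congr rfl fun m _ => ?_
  rw [map_mul, tw_conj]
  unfold tw
  rw [show (starRingEnd ℂ) (a m) * Complex.exp (-((-t * Real.log m : ℝ) : ℂ) * Complex.I) *
    (a n * Complex.exp (-((t * Real.log n : ℝ) : ℂ) * Complex.I)) =
    (a n * (starRingEnd ℂ) (a m)) * (Complex.exp (-((-t * Real.log m : ℝ) : ℂ) * Complex.I) *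
      Complex.exp (-((t * Real.log n : ℝ) : ℂ) * Complex.I)) by ring, ← Complex.exp_add]
  congr 2
  push_cast
  ring

/-- On `[A,B]` we have `1 ≤ e * e^{-|t-c|/T}`, so the left side is `≤ e ∫_ℝ e^{-|t-c|/T} |dp S a t|^2 dt`; expand the
square into the double sum over `n, m` and use `kern` with `l = log n - log m` (substitute `t = c + x`), then take norms. -/
theorem l2_kern (S : Finset ℕ) (a : ℕ → ℂ) {A B c T : ℝ} (hT : 0 < T) (hA : c - T ≤ A)
    (hB : B ≤ c + T) (hAB : A ≤ B) :
    ∫ t in A..B, ‖dp S a t‖ ^ 2 ≤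
      Real.exp 1 * ∑ n ∈ S, ∑ m ∈ S, ‖a n‖ * ‖a m‖ *
        (2 * T / (1 + (T * (Real.log n - Real.log m)) ^ 2)) := by
  -- the kernel integral
  set g : ℝ → ℂ := fun x => ∑ n ∈ S, ∑ m ∈ S, ((a n * (starRingEnd ℂ) (a m)) *
      Complex.exp (-(((Real.log n - Real.log m) * c : ℝ) : ℂ) * Complex.I)) *
      (((Real.exp (-|x| / T) : ℝ) : ℂ) *
        Complex.exp (-(((Real.log n - Real.log m) * x : ℝ) : ℂ) * Complex.I)) with hg
  have hgi : Integrable g := by
    refine integrable_finsetSum _ fun n _ => integrable_finsetSum _ fun m _ => ?_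
    exact (kern T hT (Real.log n - Real.log m)).1.const_mul _
  have hgv : ∫ x : ℝ, g x = ∑ n ∈ S, ∑ m ∈ S, ((a n * (starRingEnd ℂ) (a m)) *
      Complex.exp (-(((Real.log n - Real.log m) * c : ℝ) : ℂ) * Complex.I)) *
      ((2 * T / (1 + (T * (Real.log n - Real.log m)) ^ 2) : ℝ) : ℂ) := by
    simp only [hg]
    rw [integral_finsetSum]
    · refine Finset.sum_congr rfl fun n _ => ?_
      rw [integral_finsetSum]
      · refine Finset.sum_congr rfl fun m _ => ?_
        rw [integral_const_mul, (kern T hT (Real.log n - Real.log m)).2]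
      · intro m _
        exact (kern T hT (Real.log n - Real.log m)).1.const_mul _
    · intro n _
      refine integrable_finsetSum _ fun m _ => ?_
      exact (kern T hT (Real.log n - Real.log m)).1.const_mul _
  have hgr : ∀ x, g x = ((Real.exp (-|x| / T) * ‖dp S a (c + x)‖ ^ 2 : ℝ) : ℂ) := by
    intro x
    rw [Complex.ofReal_mul, kern_sq]
    simp only [hg]
    rw [Finset.mul_sum]
    refine Finset.sum_congr rfl fun n _ => ?_
    rw [Finset.mul_sum]
    refine Finset.sum_congr rfl fun m _ => ?_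
    have : Complex.exp (-(((Real.log n - Real.log m) * (c + x) : ℝ) : ℂ) * Complex.I) =
        Complex.exp (-(((Real.log n - Real.log m) * c : ℝ) : ℂ) * Complex.I) *
        Complex.exp (-(((Real.log n - Real.log m) * x : ℝ) : ℂ) * Complex.I) := by
      rw [← Complex.exp_add]
      congr 1
      push_cast
      ring
    rw [this]
    ring
  have hri : Integrable (fun x : ℝ => Real.exp (-|x| / T) * ‖dp S a (c + x)‖ ^ 2) := by
    have := hgi.re
    refine this.congr (Filter.Eventually.of_forall fun x => ?_)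
    show RCLike.re (g x) = _
    rw [hgr x]
    exact Complex.ofReal_re _
  have hrv : ((∫ x : ℝ, Real.exp (-|x| / T) * ‖dp S a (c + x)‖ ^ 2 : ℝ) : ℂ) = ∫ x : ℝ, g x := by
    rw [← integral_complex_ofReal]
    refine integral_congr_ae (Filter.Eventually.of_forall fun x => ?_)
    exact (hgr x).symm
  have hbound : ∫ x : ℝ, Real.exp (-|x| / T) * ‖dp S a (c + x)‖ ^ 2 ≤
      ∑ n ∈ S, ∑ m ∈ S, ‖a n‖ * ‖a m‖ *
        (2 * T / (1 + (T * (Real.log n - Real.log m)) ^ 2)) := by
    refine (le_abs_self _).trans ?_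
    rw [← Real.norm_eq_abs, ← Complex.norm_real, hrv, hgv]
    refine (norm_sum_le _ _).trans (Finset.sum_le_sum fun n _ => ?_)
    refine (norm_sum_le _ _).trans (Finset.sum_le_sum fun m _ => ?_)
    rw [norm_mul, norm_mul, norm_mul, Complex.norm_conj]
    have h1 : ‖Complex.exp (-(((Real.log n - Real.log m) * c : ℝ) : ℂ) * Complex.I)‖ = 1 := by
      rw [← Complex.ofReal_neg]
      exact Complex.norm_exp_ofReal_mul_I _
    have h2 : ‖((2 * T / (1 + (T * (Real.log n - Real.log m)) ^ 2) : ℝ) : ℂ)‖ =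
        2 * T / (1 + (T * (Real.log n - Real.log m)) ^ 2) := by
      rw [Complex.norm_real, Real.norm_eq_abs, abs_of_nonneg (by positivity)]
    rw [h1, h2, mul_one]
  -- compare
  have hcont : Continuous (fun t => ‖dp S a t‖ ^ 2) := (dp_continuous S a).norm.pow 2
  have hstep : ∫ t in A..B, ‖dp S a t‖ ^ 2 ≤
      ∫ x in (A - c)..(B - c), Real.exp 1 * (Real.exp (-|x| / T) * ‖dp S a (c + x)‖ ^ 2) := by
    have hsub : ∫ t in A..B, ‖dp S a t‖ ^ 2 = ∫ x in (A - c)..(B - c), ‖dp S a (c + x)‖ ^ 2 := by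
      rw [intervalIntegral.integral_comp_add_left (fun t => ‖dp S a t‖ ^ 2) c]
      congr 1 <;> ring
    rw [hsub]
    have hc1 : Continuous (fun x : ℝ => ‖dp S a (c + x)‖ ^ 2) :=
      hcont.comp (continuous_const.add continuous_id)
    apply intervalIntegral.integral_mono_on (by linarith)
    · exact hc1.intervalIntegrable _ _
    · apply Continuous.intervalIntegrable
      exact continuous_const.mul ((Real.continuous_exp.comp
        ((continuous_abs.neg).div_const T)).mul hc1)
    · intro x hx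
      have hx1 : |x| ≤ T := by
        rw [abs_le]
        constructor
        · linarith [hx.1]
        · linarith [hx.2]
      have h3 : 1 ≤ Real.exp 1 * Real.exp (-|x| / T) := by
        rw [← Real.exp_add]
        apply Real.one_le_exp
        have : |x| / T ≤ 1 := (div_le_one hT).2 hx1
        have h4 : -|x| / T = -(|x| / T) := by ring
        rw [h4]
        linarith
      calc ‖dp S a (c + x)‖ ^ 2 = 1 * ‖dp S a (c + x)‖ ^ 2 := by ring
        _ ≤ (Real.exp 1 * Real.exp (-|x| / T)) * ‖dp S a (c + x)‖ ^ 2 := by gcongr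
        _ = _ := by ring
  refine hstep.trans ?_
  rw [intervalIntegral.integral_const_mul]
  refine mul_le_mul_of_nonneg_left ?_ (Real.exp_pos 1).le
  rw [intervalIntegral.integral_of_le (by linarith)]
  refine le_trans ?_ hbound
  exact setIntegral_le_integral hri (Filter.Eventually.of_forall fun x => by positivity)

end Pool.Agent.Mrd
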