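import Pool.Agent.Mrd.Vdc
import Pool.Agent.PEt.BL

/-!
Mrd KTH: the k-th derivative test, qualitative form. `F 0 = f`, `F i` its i-th derivative. The k-th derivative has size
`Λ ∈ [L^{-2+η}, L^{-η}]` (NOT `L^{-k}`), `L` an upper bound of the length.
-/

set_option autoImplicit false

namespace Pool.Agent.Mrd

open Finset MeasureTheory Filter Topology

open Pool.Agent.PEt in
private theorem Kth_norm_e (x : ℝ) : ‖e x‖ = 1 := by
  unfold e
  rw [show (2 * (Real.pi : ℂ) * Complex.I * (x : ℂ)) = ((2 * Real.pi * x : ℝ) : ℂ) * Complex.I by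
    push_cast; ring]
  exact Complex.norm_exp_ofReal_mul_I _

open Pool.Agent.PEt in
private theorem Kth_e_sub (x y : ℝ) : e x * (starRingEnd ℂ) (e y) = e (x - y) := by
  unfold e
  rw [← Complex.exp_conj, ← Complex.exp_add]
  congr 1
  simp only [map_mul, Complex.conj_ofReal, Complex.conj_I, map_ofNat]
  push_cast
  ring

open Pool.Agent.PEt in
private theorem Kth_triv (M N : ℤ) (L : ℝ) (f : ℝ → ℝ) (hMN : M ≤ N) (hL : ((N : ℝ) - M) ≤ L) :
    ‖∑ n ∈ Finset.Icc M N, e (f n)‖ ≤ L + 1 := by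
  have h1 : ‖∑ n ∈ Finset.Icc M N, e (f n)‖ ≤ ∑ n ∈ Finset.Icc M N, (1 : ℝ) := by
    refine (norm_sum_le _ _).trans (Finset.sum_le_sum fun n _ => ?_)
    rw [Kth_norm_e]
  rw [Finset.sum_const, nsmul_eq_mul, mul_one, Int.card_Icc] at h1
  have h2 : (((N + 1 - M).toNat : ℕ) : ℝ) = (N : ℝ) + 1 - M := by
    have : (((N + 1 - M).toNat : ℕ) : ℤ) = N + 1 - M := Int.toNat_of_nonneg (by omega)
    exact_mod_cast this
  rw [h2] at h1
  linarith

open Pool.Agent.PEt in
/-- the property for a fixed `k` -/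
private def Kth_P (k : ℕ) : Prop := ∀ A η : ℝ, 1 ≤ A → 0 < η → η ≤ 1 → ∃ C c : ℝ, 0 < C ∧ 0 < c ∧ c ≤ 1 ∧
    ∀ (M N : ℤ) (L Λ : ℝ) (F : ℕ → ℝ → ℝ), M ≤ N → 1 ≤ L → ((N : ℝ) - M) ≤ L →
    (∀ i < k, ∀ u ∈ Set.Icc (M : ℝ) N, HasDerivAt (F i) (F (i + 1) u) u) →
    L ^ (-2 + η) ≤ Λ → Λ ≤ L ^ (-η) →
    ((∀ u ∈ Set.Icc (M : ℝ) N, Λ ≤ F k u ∧ F k u ≤ A * Λ) ∨
      (∀ u ∈ Set.Icc (M : ℝ) N, Λ ≤ -F k u ∧ -F k u ≤ A * Λ)) →
    ‖∑ n ∈ Finset.Icc M N, e (F 0 n)‖ ≤ C * L ^ (1 - c)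

open Pool.Agent.PEt in
private theorem Kth_base : Kth_P 2 := by
  intro A η hA hη hη1
  obtain ⟨C, hC, h⟩ := second_deriv hA
  refine ⟨3 * C, η / 2, by positivity, by positivity, by linarith, ?_⟩
  intro M N L Λ F hMN hL hNM hF h1 h2 h3
  have hL0 : 0 < L := by linarith
  have hΛ : 0 < Λ := lt_of_lt_of_le (Real.rpow_pos_of_pos hL0 _) h1
  have h4 := h M N (F 0) (F 1) (F 2) Λ hMN hΛ (hF 0 (by norm_num)) (hF 1 (by norm_num)) h3
  have hMN' : (M : ℝ) ≤ N := by exact_mod_cast hMN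
  have h5 : √Λ ≤ L ^ (-η / 2) := by
    calc √Λ ≤ √(L ^ (-η)) := Real.sqrt_le_sqrt h2
      _ = L ^ (-η / 2) := by
        rw [Real.sqrt_eq_rpow, ← Real.rpow_mul hL0.le]
        congr 1
        ring
  have h6 : L ^ ((-2 + η) / 2) ≤ √Λ := by
    calc L ^ ((-2 + η) / 2) = √(L ^ (-2 + η)) := by
          rw [Real.sqrt_eq_rpow, ← Real.rpow_mul hL0.le]
          congr 1
          ring
      _ ≤ √Λ := Real.sqrt_le_sqrt h1
  have h7 : ((N : ℝ) - M) * √Λ ≤ L ^ (1 - η / 2) := by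
    calc ((N : ℝ) - M) * √Λ ≤ L * L ^ (-η / 2) := by
          apply mul_le_mul hNM h5 (Real.sqrt_nonneg _) hL0.le
      _ = L ^ (1 - η / 2) := by
          rw [show (1 - η / 2) = 1 + (-η / 2) by ring, Real.rpow_add hL0, Real.rpow_one]
  have h8 : 1 / √Λ ≤ L ^ (1 - η / 2) := by
    have h9 : 0 < L ^ ((-2 + η) / 2) := Real.rpow_pos_of_pos hL0 _
    calc 1 / √Λ ≤ 1 / L ^ ((-2 + η) / 2) := one_div_le_one_div_of_le h9 h6
      _ = L ^ (1 - η / 2) := by
          rw [one_div, ← Real.rpow_neg hL0.le]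
          congr 1
          ring
  have h9 : 1 ≤ L ^ (1 - η / 2) := Real.one_le_rpow hL (by linarith)
  calc ‖∑ n ∈ Finset.Icc M N, e (F 0 n)‖ ≤ C * (((N : ℝ) - M) * √Λ + 1 / √Λ + 1) := h4
    _ ≤ C * (3 * L ^ (1 - η / 2)) := by
        apply mul_le_mul_of_nonneg_left _ hC.le
        linarith
    _ = 3 * C * L ^ (1 - η / 2) := by ring

open Pool.Agent.PEt in
private theorem Kth_step (k : ℕ) (ih : Kth_P k) : Kth_P (k + 1) := by
  intro A η hA hη hη1
  obtain ⟨C', c', hC', hc', hc'1, h⟩ := ih A (η / 4) hA (by linarith) (by linarith)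
  set κ : ℝ := η / 2 with hκ
  have hκ0 : 0 < κ := by positivity
  set c : ℝ := min κ c' / 2 with hc
  have hc0 : 0 < c := by
    rw [hc]
    have := lt_min hκ0 hc'
    linarith
  have hcκ : 2 * c ≤ κ := by
    have : min κ c' ≤ κ := min_le_left _ _
    rw [hc]; linarith
  have hcc' : 2 * c ≤ c' := by
    have : min κ c' ≤ c' := min_le_right _ _
    rw [hc]; linarith
  set L₀ : ℝ := (2 : ℝ) ^ (4 / η) with hL₀
  have hL₀p : 0 < L₀ := Real.rpow_pos_of_pos two_pos _
  refine ⟨2 * L₀ ^ c + (8 + 8 * C'), c, by positivity, hc0, by linarith, ?_⟩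
  intro M N L Λ F hMN hL hNM hF h1 h2 h3
  have hL0 : 0 < L := by linarith
  have hΛ : 0 < Λ := lt_of_lt_of_le (Real.rpow_pos_of_pos hL0 _) h1
  have hLc : 0 < L ^ (1 - c) := Real.rpow_pos_of_pos hL0 _
  rcases le_or_gt L L₀ with hsmall | hbig
  · have h4 := Kth_triv M N L (F 0) hMN hNM
    have h5 : L = L ^ c * L ^ (1 - c) := by
      rw [← Real.rpow_add hL0]
      rw [show c + (1 - c) = 1 by ring, Real.rpow_one]
    have h6 : L ^ c ≤ L₀ ^ c := Real.rpow_le_rpow hL0.le hsmall hc0.le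
    calc ‖∑ n ∈ Finset.Icc M N, e (F 0 n)‖ ≤ L + 1 := h4
      _ ≤ 2 * L := by linarith
      _ = 2 * (L ^ c * L ^ (1 - c)) := by rw [← h5]
      _ ≤ 2 * (L₀ ^ c * L ^ (1 - c)) := by
          apply mul_le_mul_of_nonneg_left _ (by norm_num)
          exact mul_le_mul_of_nonneg_right h6 hLc.le
      _ ≤ (2 * L₀ ^ c + (8 + 8 * C')) * L ^ (1 - c) := by
          have : 0 ≤ (8 + 8 * C') * L ^ (1 - c) := by positivity
          nlinarith
  · -- large L
    have hbig' : (2 : ℝ) ≤ L ^ (η / 4) := by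
      have h5 : L₀ ^ (η / 4) ≤ L ^ (η / 4) := Real.rpow_le_rpow hL₀p.le hbig.le (by positivity)
      have h6 : L₀ ^ (η / 4) = 2 := by
        rw [hL₀, ← Real.rpow_mul (by norm_num)]
        rw [show (4 / η * (η / 4)) = 1 by field_simp, Real.rpow_one]
      linarith
    set q : ℕ := ⌈L ^ κ⌉₊ with hq
    have hLκ1 : 1 ≤ L ^ κ := Real.one_le_rpow hL hκ0.le
    have hq1 : 1 ≤ q := by
      rw [hq, Nat.one_le_ceil_iff]
      linarith
    have hqle : (q : ℝ) ≤ 2 * L ^ κ := by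
      have := Nat.ceil_lt_add_one (show 0 ≤ L ^ κ by linarith)
      rw [← hq] at this
      linarith
    have hqge : L ^ κ ≤ q := Nat.le_ceil _
    have hqL : (q : ℝ) ≤ L + 1 := by
      have h5 := Nat.ceil_lt_add_one (show 0 ≤ L ^ κ by linarith)
      rw [← hq] at h5
      have h6 : L ^ κ ≤ L ^ (1 : ℝ) := Real.rpow_le_rpow_of_exponent_le hL (by rw [hκ]; linarith)
      rw [Real.rpow_one] at h6
      linarith
    have hq0 : (0 : ℝ) < q := by
      have : (1 : ℝ) ≤ q := by exact_mod_cast hq1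
      linarith
    have hv := vdc (M - 1) N (fun n => e (F 0 n)) (fun n => (Kth_norm_e _).le) q (L + 1) (by omega)
      (by push_cast; linarith) hq1 hqL
    have hIcc : Finset.Ioc (M - 1) N = Finset.Icc M N := by
      ext n
      simp only [Finset.mem_Ioc, Finset.mem_Icc]
      omega
    rw [hIcc] at hv
    have hSh : ∀ j ∈ Finset.Ico 1 q, ‖∑ n ∈ Finset.Ioc (M - 1) (N - (j : ℤ)),
        e (F 0 ((n + (j : ℤ) : ℤ) : ℝ)) * (starRingEnd ℂ) (e (F 0 n))‖ ≤ C' * L ^ (1 - c') := by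
      intro j hj
      rw [Finset.mem_Ico] at hj
      have hj1 : (1 : ℝ) ≤ j := by exact_mod_cast hj.1
      have hjq : (j : ℝ) ≤ q := by exact_mod_cast hj.2.le
      rcases lt_or_ge (N - (j : ℤ)) M with hlt | hge
      · rw [Finset.Ioc_eq_empty (by omega), Finset.sum_empty, norm_zero]
        positivity
      · have hIcc' : Finset.Ioc (M - 1) (N - (j : ℤ)) = Finset.Icc M (N - (j : ℤ)) := by
          ext n
          simp only [Finset.mem_Ioc, Finset.mem_Icc]
          omega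
        rw [hIcc']
        have hcast : (((N - (j : ℤ) : ℤ)) : ℝ) = N - j := by push_cast; ring
        have hmem : ∀ u ∈ Set.Icc (M : ℝ) ((N - (j : ℤ) : ℤ) : ℝ), u ∈ Set.Icc (M : ℝ) N ∧
            u + j ∈ Set.Icc (M : ℝ) N := by
          intro u hu
          rw [hcast] at hu
          refine ⟨⟨hu.1, ?_⟩, ⟨?_, ?_⟩⟩
          · linarith [hu.2]
          · linarith [hu.1]
          · linarith [hu.2]
        have hslope : ∀ u ∈ Set.Icc (M : ℝ) ((N - (j : ℤ) : ℤ) : ℝ), ∃ ξ ∈ Set.Icc (M : ℝ) N,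
            F k (u + j) - F k u = j * F (k + 1) ξ := by
          intro u hu
          obtain ⟨hu1, hu2⟩ := hmem u hu
          have hlt : u < u + j := by linarith
          have hsub : ∀ x ∈ Set.Icc u (u + j), x ∈ Set.Icc (M : ℝ) N := by
            intro x hx
            exact ⟨hu1.1.trans hx.1, hx.2.trans hu2.2⟩
          obtain ⟨ξ, hξ, hξ2⟩ := exists_hasDerivAt_eq_slope (F k) (F (k + 1)) hlt
            (fun x hx => (hF k (by omega) x (hsub x hx)).continuousAt.continuousWithinAt)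
            (fun x hx => hF k (by omega) x (hsub x (Set.Ioo_subset_Icc_self hx)))
          refine ⟨ξ, hsub ξ (Set.Ioo_subset_Icc_self hξ), ?_⟩
          rw [hξ2]
          have : u + (j : ℝ) - u ≠ 0 := by
            have : (0 : ℝ) < j := by linarith
            rw [add_sub_cancel_left]
            exact this.ne'
          field_simp
          ring
        have h5 := h M (N - (j : ℤ)) L (j * Λ) (fun i u => F i (u + j) - F i u) hge hL
          (by rw [hcast]; linarith) ?_ ?_ ?_ ?_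
        · refine le_trans (le_of_eq ?_) h5
          congr 1
          refine Finset.sum_congr rfl fun n _ => ?_
          rw [Kth_e_sub]
          congr 2
          push_cast
          rfl
        · intro i hi u hu
          obtain ⟨hu1, hu2⟩ := hmem u hu
          have h6 := hF i (by omega) (u + j) hu2
          have h7 := hF i (by omega) u hu1
          have h8 : HasDerivAt (fun v => F i (v + j)) (F (i + 1) (u + j)) u :=
            HasDerivAt.comp_add_const u (j : ℝ) h6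
          exact h8.sub h7
        · have h6 : L ^ (-2 + η / 4) ≤ L ^ (-2 + η) :=
            Real.rpow_le_rpow_of_exponent_le hL (by linarith)
          have h7 : Λ ≤ j * Λ := by nlinarith
          linarith
        · have h6 : (j : ℝ) * Λ ≤ 2 * L ^ κ * L ^ (-η) := by
            apply mul_le_mul (hjq.trans hqle) h2 hΛ.le (by positivity)
          have h7 : 2 * L ^ κ * L ^ (-η) = 2 * L ^ (-(η / 2)) := by
            rw [mul_assoc, ← Real.rpow_add hL0]
            congr 2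
            rw [hκ]; ring
          have h8 : 2 * L ^ (-(η / 2)) ≤ L ^ (η / 4) * L ^ (-(η / 2)) := by
            apply mul_le_mul_of_nonneg_right hbig'
            positivity
          have h9 : L ^ (η / 4) * L ^ (-(η / 2)) = L ^ (-(η / 4)) := by
            rw [← Real.rpow_add hL0]
            congr 1
            ring
          linarith
        · rcases h3 with h3 | h3
          · left
            intro u hu
            obtain ⟨ξ, hξ, hξ2⟩ := hslope u hu
            simp only [hξ2]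
            obtain ⟨h6, h7⟩ := h3 ξ hξ
            constructor
            · apply mul_le_mul_of_nonneg_left h6 (by linarith)
            · calc (j : ℝ) * F (k + 1) ξ ≤ j * (A * Λ) := mul_le_mul_of_nonneg_left h7 (by linarith)
                _ = A * (j * Λ) := by ring
          · right
            intro u hu
            obtain ⟨ξ, hξ, hξ2⟩ := hslope u hu
            simp only [hξ2]
            obtain ⟨h6, h7⟩ := h3 ξ hξ
            constructor
            · calc (j : ℝ) * Λ ≤ j * (-F (k + 1) ξ) := mul_le_mul_of_nonneg_left h6 (by linarith)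
                _ = -(j * F (k + 1) ξ) := by ring
            · calc -((j : ℝ) * F (k + 1) ξ) = j * (-F (k + 1) ξ) := by ring
                _ ≤ j * (A * Λ) := mul_le_mul_of_nonneg_left h7 (by linarith)
                _ = A * (j * Λ) := by ring
    have hsum : ∑ j ∈ Finset.Ico 1 q, ‖∑ n ∈ Finset.Ioc (M - 1) (N - (j : ℤ)),
        e (F 0 ((n + (j : ℤ) : ℤ) : ℝ)) * (starRingEnd ℂ) (e (F 0 n))‖ ≤ q * (C' * L ^ (1 - c')) := by
      refine (Finset.sum_le_sum hSh).trans ?_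
      rw [Finset.sum_const, nsmul_eq_mul, Nat.card_Ico]
      apply mul_le_mul_of_nonneg_right _ (by positivity)
      exact_mod_cast Nat.sub_le q 1
    have hS2 : ‖∑ n ∈ Finset.Icc M N, e (F 0 n)‖ ^ 2 ≤ (8 + 8 * C') * L ^ (2 - 2 * c) := by
      have h5 : (2 * (L + 1) / q) * ((L + 1) + 2 * ∑ j ∈ Finset.Ico 1 q, ‖∑ n ∈ Finset.Ioc (M - 1) (N - (j : ℤ)),
        e (F 0 ((n + (j : ℤ) : ℤ) : ℝ)) * (starRingEnd ℂ) (e (F 0 n))‖) ≤
          (4 * L / q) * (2 * L + 2 * (q * (C' * L ^ (1 - c')))) := by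
        apply mul_le_mul
        · apply div_le_div_of_nonneg_right _ hq0.le
          linarith
        · linarith
        · positivity
        · positivity
      have h6 : (4 * L / q) * (2 * L + 2 * (q * (C' * L ^ (1 - c')))) =
          8 * (L * L / q) + 8 * C' * (L * L ^ (1 - c')) := by
        field_simp
        ring
      have h7 : L * L / q ≤ L ^ (2 - κ) := by
        rw [div_le_iff₀ hq0]
        calc L * L = L ^ (2 - κ) * L ^ κ := by
              rw [← Real.rpow_add hL0]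
              rw [show (2 - κ + κ) = (2 : ℝ) by ring]
              rw [show (2 : ℝ) = ((2 : ℕ) : ℝ) by norm_num, Real.rpow_natCast]
              ring
          _ ≤ L ^ (2 - κ) * q := mul_le_mul_of_nonneg_left hqge (by positivity)
      have h8 : L ^ (2 - κ) ≤ L ^ (2 - 2 * c) :=
        Real.rpow_le_rpow_of_exponent_le hL (by linarith)
      have h9 : L * L ^ (1 - c') = L ^ (2 - c') := by
        rw [show (2 - c') = 1 + (1 - c') by ring, Real.rpow_add hL0 1, Real.rpow_one]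
      have h10 : L ^ (2 - c') ≤ L ^ (2 - 2 * c) :=
        Real.rpow_le_rpow_of_exponent_le hL (by linarith)
      calc ‖∑ n ∈ Finset.Icc M N, e (F 0 n)‖ ^ 2 ≤ _ := hv
        _ ≤ _ := h5
        _ = 8 * (L * L / q) + 8 * C' * (L * L ^ (1 - c')) := h6
        _ ≤ 8 * L ^ (2 - 2 * c) + 8 * C' * L ^ (2 - 2 * c) := by
            rw [h9]
            have h11 : 8 * C' * L ^ (2 - c') ≤ 8 * C' * L ^ (2 - 2 * c) :=
              mul_le_mul_of_nonneg_left h10 (by positivity)
            linarith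
        _ = (8 + 8 * C') * L ^ (2 - 2 * c) := by ring
    have hfin : ‖∑ n ∈ Finset.Icc M N, e (F 0 n)‖ ≤ (8 + 8 * C') * L ^ (1 - c) := by
      refine (sq_le_sq₀ (norm_nonneg _) (by positivity)).1 ?_
      calc ‖∑ n ∈ Finset.Icc M N, e (F 0 n)‖ ^ 2 ≤ (8 + 8 * C') * L ^ (2 - 2 * c) := hS2
        _ ≤ (8 + 8 * C') ^ 2 * L ^ (2 - 2 * c) := by
            apply mul_le_mul_of_nonneg_right _ (by positivity)
            nlinarith
        _ = ((8 + 8 * C') * L ^ (1 - c)) ^ 2 := by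
            rw [mul_pow, ← Real.rpow_natCast (L ^ (1 - c)), ← Real.rpow_mul hL0.le]
            congr 2
            push_cast
            ring
    calc ‖∑ n ∈ Finset.Icc M N, e (F 0 n)‖ ≤ (8 + 8 * C') * L ^ (1 - c) := hfin
      _ ≤ (2 * L₀ ^ c + (8 + 8 * C')) * L ^ (1 - c) := by
          apply mul_le_mul_of_nonneg_right _ hLc.le
          have : 0 < L₀ ^ c := Real.rpow_pos_of_pos hL₀p _
          linarith

open Pool.Agent.PEt in
/-- Induction on `k`. `k = 2`: `Pool.Agent.PEt.second_deriv`: `≤ C(L√Λ + 1/√Λ + 1) ≤ 3C L^{1-η/2}`. `k → k+1`: let `κ = η/2`,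
`q = ⌈L^κ⌉`, `c'` from the case `(k, A, η/4)`. For `L ≤ L₀` the trivial bound. If the number of terms is `< q`: trivial. Otherwise
`vdc` (on `Icc M N`, i.e. `Ioc (M-1) N`, `z n = e(F 0 n)` inside, 0 outside, `L` replaced by `L + 1 ≤ 2L`): for `1 ≤ h < q` the
function `F_h i u = F i (u+h) - F i u` on `[M, N-h]` has the chain property up to `k`, and `F_h k u = h F (k+1) ξ` (mean value theorem), so it is
between `hΛ` and `A hΛ` (same sign), and `L^{-2+η/4} ≤ hΛ ≤ L^{-η/4}` for `L ≥ L₀`. So `|S|² ≤ C L²/q + C L · L^{1-c'}`. -/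
theorem kth (k : ℕ) (hk : 2 ≤ k) : ∀ A η : ℝ, 1 ≤ A → 0 < η → η ≤ 1 → ∃ C c : ℝ, 0 < C ∧ 0 < c ∧ c ≤ 1 ∧
    ∀ (M N : ℤ) (L Λ : ℝ) (F : ℕ → ℝ → ℝ), M ≤ N → 1 ≤ L → ((N : ℝ) - M) ≤ L →
    (∀ i < k, ∀ u ∈ Set.Icc (M : ℝ) N, HasDerivAt (F i) (F (i + 1) u) u) →
    L ^ (-2 + η) ≤ Λ → Λ ≤ L ^ (-η) →
    ((∀ u ∈ Set.Icc (M : ℝ) N, Λ ≤ F k u ∧ F k u ≤ A * Λ) ∨
      (∀ u ∈ Set.Icc (M : ℝ) N, Λ ≤ -F k u ∧ -F k u ≤ A * Λ)) →
    ‖∑ n ∈ Finset.Icc M N, e (F 0 n)‖ ≤ C * L ^ (1 - c) := by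
  have h : Kth_P k := by
    induction k, hk using Nat.le_induction with
    | base => exact Kth_base
    | succ k _ ih => exact Kth_step k ih
  exact h

end Pool.Agent.Mrd
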