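import Pool.Agent.Mrd.Defs2

/-!
Mrd LBD: `L(s, χ)` on compact sets.
-/

set_option autoImplicit false

namespace Pool.Agent.Mrd

open Finset MeasureTheory Filter Topology

private theorem Lbd_term {q : ℕ} (χ : DirichletCharacter ℂ q) (σ u : ℝ) (n : ℕ) :
    ch χ n * (((n : ℝ) ^ (-(1 + σ)) : ℝ) : ℂ) * tw u n =
      LSeries.term (fun m : ℕ => χ (m : ZMod q)) (1 + σ + u * Complex.I) n := by
  rcases Nat.eq_zero_or_pos n with h | h
  · subst h
    simp [ch]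
  · have hn : n ≠ 0 := h.ne'
    have hn0 : (n : ℂ) ≠ 0 := by exact_mod_cast hn
    have hnr : (0 : ℝ) < (n : ℝ) := by exact_mod_cast h
    rw [LSeries.term_of_ne_zero hn]
    unfold ch tw
    rw [if_neg hn, div_eq_mul_inv, ← Complex.cpow_neg, Complex.cpow_def_of_ne_zero hn0,
      mul_assoc, Real.rpow_def_of_pos hnr, Complex.ofReal_exp, ← Complex.exp_add]
    congr 2
    rw [← Complex.natCast_log]
    push_cast
    ring

/-- `Gs (ch χ) σ u = L(1+σ+iu, χ)` for `σ > 0` (`LSeries`), Mathlib: `DirichletCharacter.LFunction_eq_LSeries`. -/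
theorem Gs_eq {q : ℕ} [NeZero q] (χ : DirichletCharacter ℂ q) (σ u : ℝ) (hσ : 0 < σ) :
    Gs (ch χ) σ u = χ.LFunction (1 + σ + u * Complex.I) := by
  have hre : (1 : ℝ) < ((1 : ℂ) + σ + u * Complex.I).re := by
    simp
    exact hσ
  rw [DirichletCharacter.LFunction_eq_LSeries χ hre]
  unfold Gs LSeries
  exact tsum_congr (fun n => Lbd_term χ σ u n)

private theorem Lbd_cont : Continuous (fun x : ℝ × ℝ => (1 : ℂ) + (x.1 : ℂ) + (x.2 : ℂ) * Complex.I) := by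
  fun_prop

/-- continuity away from `s = 1` (compactness) -/
theorem L_upper {q : ℕ} [NeZero q] (χ : DirichletCharacter ℂ q) (U : ℝ) : ∃ C : ℝ, 0 < C ∧ ∀ σ u : ℝ,
    0 < σ → σ ≤ 2 → 1 ≤ |u| → |u| ≤ U → ‖Gs (ch χ) σ u‖ ≤ C := by
  have hK : IsCompact (Set.Icc (0 : ℝ) 2 ×ˢ (Set.Icc (-U) (-1) ∪ Set.Icc 1 U) : Set (ℝ × ℝ)) :=
    isCompact_Icc.prod (isCompact_Icc.union isCompact_Icc)
  have hc : ContinuousOn (fun x : ℝ × ℝ => χ.LFunction (1 + (x.1 : ℂ) + (x.2 : ℂ) * Complex.I))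
      (Set.Icc (0 : ℝ) 2 ×ˢ (Set.Icc (-U) (-1) ∪ Set.Icc 1 U)) := by
    intro x hx
    have hne : (1 : ℂ) + (x.1 : ℂ) + (x.2 : ℂ) * Complex.I ≠ 1 := by
      intro h
      have h2 := congrArg Complex.im h
      simp at h2
      rcases hx.2 with h3 | h3
      · have := h3.2
        linarith
      · have := h3.1
        linarith
    have h1 : ContinuousAt χ.LFunction ((1 : ℂ) + (x.1 : ℂ) + (x.2 : ℂ) * Complex.I) :=
      (DirichletCharacter.differentiableAt_LFunction χ _ (Or.inl hne)).continuousAt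
    exact (ContinuousAt.comp (f := fun x : ℝ × ℝ => (1 : ℂ) + (x.1 : ℂ) + (x.2 : ℂ) * Complex.I)
      h1 Lbd_cont.continuousAt).continuousWithinAt
  obtain ⟨C, hC⟩ := hK.exists_bound_of_continuousOn hc
  refine ⟨|C| + 1, by positivity, ?_⟩
  intro σ u h0 h2 hu1 hu2
  rw [Gs_eq χ σ u h0]
  have hx : ((σ, u) : ℝ × ℝ) ∈ (Set.Icc (0 : ℝ) 2 ×ˢ (Set.Icc (-U) (-1) ∪ Set.Icc 1 U) : Set (ℝ × ℝ)) := by
    refine ⟨⟨h0.le, h2⟩, ?_⟩
    rcases le_or_gt 0 u with h | h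
    · rw [abs_of_nonneg h] at hu1 hu2
      exact Or.inr ⟨hu1, hu2⟩
    · rw [abs_of_neg h] at hu1 hu2
      left
      constructor
      · show -U ≤ u
        linarith
      · show u ≤ -1
        linarith
  have := hC _ hx
  have h3 := le_abs_self C
  simp only at this
  linarith

private theorem Lbd_re_ge {σ u : ℝ} (h0 : 0 ≤ σ) : (1 : ℝ) ≤ ((1 : ℂ) + σ + u * Complex.I).re := by
  simp
  exact h0

private theorem Lbd_upd {q : ℕ} [NeZero q] {s : ℂ} (h : s ≠ 1) :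
    DirichletCharacter.LFunctionTrivChar₁ q s =
      (s - 1) * (1 : DirichletCharacter ℂ q).LFunction s :=
  Function.update_of_ne h _ _

private theorem Lbd_low {q : ℕ} [NeZero q] (χ : DirichletCharacter ℂ q) : ∃ c : ℝ, 0 < c ∧ ∀ σ u : ℝ,
    0 < σ → σ ≤ 2 → |u| ≤ 1 → c ≤ ‖χ.LFunction (1 + σ + u * Complex.I)‖ := by
  have hK : IsCompact (Set.Icc (0 : ℝ) 2 ×ˢ Set.Icc (-1) 1 : Set (ℝ × ℝ)) :=
    isCompact_Icc.prod isCompact_Icc
  have hKn : (Set.Icc (0 : ℝ) 2 ×ˢ Set.Icc (-1) 1 : Set (ℝ × ℝ)).Nonempty :=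
    ⟨(0, 0), ⟨by norm_num, by norm_num⟩, ⟨by norm_num, by norm_num⟩⟩
  by_cases hχ : χ = 1
  · subst hχ
    have hc : ContinuousOn (fun x : ℝ × ℝ => ‖DirichletCharacter.LFunctionTrivChar₁ q
        (1 + (x.1 : ℂ) + (x.2 : ℂ) * Complex.I)‖) (Set.Icc (0 : ℝ) 2 ×ˢ Set.Icc (-1) 1) :=
      (((DirichletCharacter.differentiable_LFunctionTrivChar₁ q).continuous.comp Lbd_cont).norm).continuousOn
    obtain ⟨x₀, hx₀, hmin⟩ := hK.exists_isMinOn hKn hc
    have hne : DirichletCharacter.LFunctionTrivChar₁ q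
        (1 + (x₀.1 : ℂ) + (x₀.2 : ℂ) * Complex.I) ≠ 0 := by
      by_cases h1 : (1 : ℂ) + (x₀.1 : ℂ) + (x₀.2 : ℂ) * Complex.I = 1
      · rw [h1]
        exact DirichletCharacter.LFunctionTrivChar₁_apply_one_ne_zero q
      · rw [Lbd_upd h1]
        refine mul_ne_zero (sub_ne_zero.mpr h1) ?_
        exact DirichletCharacter.LFunction_ne_zero_of_one_le_re _ (Or.inr h1) (Lbd_re_ge hx₀.1.1)
    refine ⟨‖DirichletCharacter.LFunctionTrivChar₁ q
        (1 + (x₀.1 : ℂ) + (x₀.2 : ℂ) * Complex.I)‖ / 3, by positivity, ?_⟩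
    intro σ u h0 h2 hu
    have hx : ((σ, u) : ℝ × ℝ) ∈ (Set.Icc (0 : ℝ) 2 ×ˢ Set.Icc (-1) 1 : Set (ℝ × ℝ)) :=
      ⟨⟨h0.le, h2⟩, abs_le.mp hu⟩
    have h3 := hmin hx
    simp only [Set.mem_ofPred_eq] at h3
    have h1 : (1 : ℂ) + σ + u * Complex.I ≠ 1 := by
      intro h
      have h4 := congrArg Complex.re h
      simp at h4
      linarith
    rw [Lbd_upd h1] at h3
    rw [norm_mul] at h3
    have h5 : ‖(1 : ℂ) + σ + u * Complex.I - 1‖ ≤ 3 := by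
      have h6 : (1 : ℂ) + σ + u * Complex.I - 1 = (σ : ℂ) + u * Complex.I := by ring
      rw [h6]
      calc ‖(σ : ℂ) + u * Complex.I‖ ≤ ‖(σ : ℂ)‖ + ‖(u : ℂ) * Complex.I‖ := norm_add_le _ _
        _ = |σ| + |u| := by
          rw [norm_mul, Complex.norm_I, mul_one, Complex.norm_real, Complex.norm_real]
          rfl
        _ ≤ 2 + 1 := by
          rw [abs_of_pos h0]
          linarith
        _ = 3 := by norm_num
    have h7 : 0 ≤ ‖DirichletCharacter.LFunction (1 : DirichletCharacter ℂ q)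
        (1 + σ + u * Complex.I)‖ := norm_nonneg _
    rw [div_le_iff₀ (by norm_num : (0 : ℝ) < 3)]
    calc _ ≤ _ := h3
      _ ≤ 3 * ‖DirichletCharacter.LFunction (1 : DirichletCharacter ℂ q)
        (1 + σ + u * Complex.I)‖ := mul_le_mul_of_nonneg_right h5 h7
      _ = _ := by ring
  · have hc : ContinuousOn (fun x : ℝ × ℝ => ‖χ.LFunction
        (1 + (x.1 : ℂ) + (x.2 : ℂ) * Complex.I)‖) (Set.Icc (0 : ℝ) 2 ×ˢ Set.Icc (-1) 1) :=
      (((DirichletCharacter.differentiable_LFunction hχ).continuous.comp Lbd_cont).norm).continuousOn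
    obtain ⟨x₀, hx₀, hmin⟩ := hK.exists_isMinOn hKn hc
    refine ⟨‖χ.LFunction (1 + (x₀.1 : ℂ) + (x₀.2 : ℂ) * Complex.I)‖, ?_, ?_⟩
    · rw [norm_pos_iff]
      exact DirichletCharacter.LFunction_ne_zero_of_one_le_re _ (Or.inl hχ) (Lbd_re_ge hx₀.1.1)
    · intro σ u h0 h2 hu
      have hx : ((σ, u) : ℝ × ℝ) ∈ (Set.Icc (0 : ℝ) 2 ×ˢ Set.Icc (-1) 1 : Set (ℝ × ℝ)) :=
        ⟨⟨h0.le, h2⟩, abs_le.mp hu⟩
      have h3 := hmin hx
      simp only [Set.mem_ofPred_eq] at h3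
      exact h3

/-- `L(s, χ) ≠ 0` for `Re s ≥ 1` (Mathlib: `DirichletCharacter.LFunction_ne_zero_of_one_le_re`); for the trivial character use
that `(s-1) L(s)` is continuous and `≠ 0` also at `s = 1`. -/
theorem L_lower {q : ℕ} [NeZero q] (χ : DirichletCharacter ℂ q) : ∃ c : ℝ, 0 < c ∧ ∀ σ u : ℝ,
    0 < σ → σ ≤ 2 → |u| ≤ 1 → c ≤ ‖Gs (ch χ) σ u‖ := by
  obtain ⟨c, hc, h⟩ := Lbd_low χ
  refine ⟨c, hc, ?_⟩
  intro σ u h0 h2 hu
  rw [Gs_eq χ σ u h0]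
  exact h σ u h0 h2 hu

end Pool.Agent.Mrd
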