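import Pool.Agent.Mrd.BT
import Pool.Agent.Mrd.Mert

/-!
Mrd LOGINT: the first step of Halasz's theorem.
-/

set_option autoImplicit false

namespace Pool.Agent.Mrd

open Finset MeasureTheory Filter Topology

private theorem logint_norm_le {g : ℕ → ℂ} (hg : CM g) {x : ℝ} (hx : 0 ≤ x) : ‖Sg g x‖ ≤ x := by
  unfold Sg
  calc ‖∑ n ∈ Icc 1 ⌊x⌋₊, g n‖ ≤ ∑ n ∈ Icc 1 ⌊x⌋₊, (1 : ℝ) := norm_sum_le_of_le _ fun n _ => hg.bdd n
    _ = (⌊x⌋₊ : ℝ) := by simp
    _ ≤ x := Nat.floor_le hx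

private theorem logint_zero {g : ℕ → ℂ} {x : ℝ} (hx : x < 1) : Sg g x = 0 := by
  unfold Sg
  rw [Nat.floor_eq_zero.mpr hx]
  simp

private theorem logint_diff {g : ℕ → ℂ} (hg : CM g) {a b : ℝ} (ha : 0 ≤ a) (hab : a ≤ b) :
    ‖Sg g b - Sg g a‖ ≤ b - a + 1 := by
  unfold Sg
  have h1 : ⌊a⌋₊ ≤ ⌊b⌋₊ := Nat.floor_le_floor hab
  have h2 : (∑ n ∈ Icc 1 ⌊b⌋₊, g n) - ∑ n ∈ Icc 1 ⌊a⌋₊, g n = ∑ n ∈ Ioc ⌊a⌋₊ ⌊b⌋₊, g n := by
    have hu : Icc 1 ⌊b⌋₊ = Icc 1 ⌊a⌋₊ ∪ Ioc ⌊a⌋₊ ⌊b⌋₊ := by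
      ext n
      simp only [mem_union, mem_Icc, mem_Ioc]
      omega
    have hd : Disjoint (Icc 1 ⌊a⌋₊) (Ioc ⌊a⌋₊ ⌊b⌋₊) := by
      rw [Finset.disjoint_left]
      intro n h h'
      simp only [mem_Icc, mem_Ioc] at h h'
      omega
    rw [hu, sum_union hd]
    ring
  rw [h2]
  calc ‖∑ n ∈ Ioc ⌊a⌋₊ ⌊b⌋₊, g n‖ ≤ ∑ n ∈ Ioc ⌊a⌋₊ ⌊b⌋₊, (1 : ℝ) := norm_sum_le_of_le _ fun n _ => hg.bdd n
    _ = ((⌊b⌋₊ - ⌊a⌋₊ : ℕ) : ℝ) := by simp
    _ = (⌊b⌋₊ : ℝ) - ⌊a⌋₊ := by rw [Nat.cast_sub h1]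
    _ ≤ b - (a - 1) := by
        have := Nat.floor_le (ha.trans hab)
        have := Nat.lt_floor_add_one a
        linarith
    _ = b - a + 1 := by ring

private theorem logint_meas (g : ℕ → ℂ) : Measurable (fun v : ℝ => ‖Sg g v‖) := by
  have h : Measurable (fun n : ℕ => ‖∑ k ∈ Icc 1 n, g k‖) := measurable_from_nat
  exact h.comp Nat.measurable_floor

/-- `∑ 1/√n ≤ 2 √N` -/
private theorem logint_sqrt (N : ℕ) : ∑ n ∈ Icc 1 N, 1 / Real.sqrt n ≤ 2 * Real.sqrt N := by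
  induction N with
  | zero => simp
  | succ N ih =>
    rw [Finset.sum_Icc_succ_top (by omega)]
    have h0 : (0 : ℝ) ≤ N := Nat.cast_nonneg N
    have h1 : 0 < Real.sqrt ((N + 1 : ℕ) : ℝ) := Real.sqrt_pos.mpr (by push_cast; linarith)
    have h2 : Real.sqrt ((N + 1 : ℕ) : ℝ) ^ 2 = (N : ℝ) + 1 := by
      rw [Real.sq_sqrt (Nat.cast_nonneg _)]; push_cast; ring
    have h3 : Real.sqrt (N : ℝ) ^ 2 = N := Real.sq_sqrt h0
    have h4 : 0 ≤ Real.sqrt (N : ℝ) := Real.sqrt_nonneg _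
    have h5 : 1 / Real.sqrt ((N + 1 : ℕ) : ℝ) ≤
        2 * Real.sqrt ((N + 1 : ℕ) : ℝ) - 2 * Real.sqrt N := by
      rw [div_le_iff₀ h1]
      nlinarith [sq_nonneg (Real.sqrt ((N + 1 : ℕ) : ℝ) - Real.sqrt N)]
    linarith

private theorem logint_first {g : ℕ → ℂ} (hg : CM g) {x : ℝ} (hx : 1 ≤ x) :
    ‖∑ n ∈ Icc 1 ⌊x⌋₊, g n * ((Real.log x - Real.log n : ℝ) : ℂ)‖ ≤ 4 * x := by
  have hx0 : 0 < x := by linarith
  calc ‖∑ n ∈ Icc 1 ⌊x⌋₊, g n * ((Real.log x - Real.log n : ℝ) : ℂ)‖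
      ≤ ∑ n ∈ Icc 1 ⌊x⌋₊, 2 * Real.sqrt x * (1 / Real.sqrt n) := by
        refine norm_sum_le_of_le _ fun n hn => ?_
        rw [mem_Icc, Nat.le_floor_iff hx0.le] at hn
        have hn0 : (0 : ℝ) < n := by exact_mod_cast hn.1
        rw [norm_mul, Complex.norm_real, Real.norm_eq_abs, ← Real.log_div hx0.ne' hn0.ne']
        have h1 : 1 ≤ x / n := by rw [le_div_iff₀ hn0]; linarith [hn.2]
        rw [abs_of_nonneg (Real.log_nonneg h1)]
        have h2 : Real.log (x / n) ≤ 2 * Real.sqrt (x / n) := by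
          have h3 := Real.log_le_rpow_div (show (0 : ℝ) ≤ x / n by positivity) (show (0 : ℝ) < 1 / 2 by norm_num)
          rw [← Real.sqrt_eq_rpow] at h3
          linarith
        rw [Real.sqrt_div hx0.le] at h2
        calc ‖g n‖ * Real.log (x / n) ≤ 1 * Real.log (x / n) :=
              mul_le_mul_of_nonneg_right (hg.bdd n) (Real.log_nonneg h1)
          _ ≤ 2 * (Real.sqrt x / Real.sqrt n) := by linarith
          _ = 2 * Real.sqrt x * (1 / Real.sqrt n) := by ring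
    _ = 2 * Real.sqrt x * ∑ n ∈ Icc 1 ⌊x⌋₊, 1 / Real.sqrt n := by rw [mul_sum]
    _ ≤ 2 * Real.sqrt x * (2 * Real.sqrt x) := by
        refine mul_le_mul_of_nonneg_left ?_ (by positivity)
        refine (logint_sqrt _).trans ?_
        gcongr
        exact Nat.floor_le hx0.le
    _ = 4 * (Real.sqrt x * Real.sqrt x) := by ring
    _ = 4 * x := by rw [Real.mul_self_sqrt hx0.le]

private theorem logint_second {g : ℕ → ℂ} (hg : CM g) (x : ℝ) :
    ∑ n ∈ Icc 1 ⌊x⌋₊, g n * ((Real.log n : ℝ) : ℂ) =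
      ∑ d ∈ Icc 1 ⌊x⌋₊, ((ArithmeticFunction.vonMangoldt d : ℝ) : ℂ) * g d * Sg g (x / d) := by
  set gA : ArithmeticFunction ℂ := ⟨g, hg.zero⟩ with hgA
  set fA : ArithmeticFunction ℂ := ⟨fun d => ((ArithmeticFunction.vonMangoldt d : ℝ) : ℂ) * g d, by simp [hg.zero]⟩
    with hfA
  have h := ArithmeticFunction.sum_Ioc_mul_eq_sum_sum fA gA ⌊x⌋₊
  have hI : ∀ N : ℕ, Ioc 0 N = Icc 1 N := by
    intro N; ext n; simp only [mem_Ioc, mem_Icc]; omega
  rw [hI] at h
  have hl : ∀ n : ℕ, (fA * gA) n = g n * ((Real.log n : ℝ) : ℂ) := by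
    intro n
    rw [ArithmeticFunction.mul_apply, ← ArithmeticFunction.vonMangoldt_sum]
    push_cast
    rw [mul_sum, Nat.sum_divisorsAntidiagonal (f := fun d m => fA d * gA m)]
    refine sum_congr rfl fun d hd => ?_
    have hdn : d * (n / d) = n := Nat.mul_div_cancel' (Nat.dvd_of_mem_divisors hd)
    show ((ArithmeticFunction.vonMangoldt d : ℝ) : ℂ) * g d * g (n / d) = _
    rw [mul_assoc, ← hg.mul, hdn]
    ring
  rw [sum_congr rfl fun n _ => hl n] at h
  rw [h]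
  refine sum_congr rfl fun d _ => ?_
  unfold Sg
  rw [Nat.floor_div_natCast, hI]
  rfl

private theorem logint_np : ∃ K : ℝ, 0 ≤ K ∧ ∀ N : ℕ,
    ∑ d ∈ (Icc 1 N).filter (fun d => ¬ d.Prime), ArithmeticFunction.vonMangoldt d / d ≤ K := by
  have h := ArithmeticFunction.vonMangoldt.summable_residueClass_non_primes_div (0 : ZMod 1)
  have hrc : ∀ n : ℕ, ArithmeticFunction.vonMangoldt.residueClass (0 : ZMod 1) n =
      ArithmeticFunction.vonMangoldt n := by
    intro n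
    unfold ArithmeticFunction.vonMangoldt.residueClass
    rw [Set.indicator_of_mem]
    exact Subsingleton.elim _ _
  refine ⟨∑' n : ℕ, (if n.Prime then 0 else ArithmeticFunction.vonMangoldt.residueClass (0 : ZMod 1) n) / n,
    tsum_nonneg fun n => ?_, fun N => ?_⟩
  · rw [hrc]
    split_ifs
    · simp
    · exact div_nonneg ArithmeticFunction.vonMangoldt_nonneg (Nat.cast_nonneg _)
  · calc ∑ d ∈ (Icc 1 N).filter (fun d => ¬ d.Prime), ArithmeticFunction.vonMangoldt d / d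
        = ∑ d ∈ (Icc 1 N).filter (fun d => ¬ d.Prime),
          (if d.Prime then 0 else ArithmeticFunction.vonMangoldt.residueClass (0 : ZMod 1) d) / d := by
          refine sum_congr rfl fun d hd => ?_
          rw [if_neg (mem_filter.mp hd).2, hrc]
      _ ≤ _ := by
          refine h.sum_le_tsum _ fun n _ => ?_
          rw [hrc]
          split_ifs
          · simp
          · exact div_nonneg ArithmeticFunction.vonMangoldt_nonneg (Nat.cast_nonneg _)

private theorem logint_32 : ∃ K : ℝ, 0 ≤ K ∧ ∀ N : ℕ,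
    ∑ n ∈ (Icc 1 N).filter Nat.Prime, Real.log n / (n * Real.sqrt n) ≤ K := by
  have hs : Summable (fun n : ℕ => 4 * ((n : ℝ) ^ (-(5 / 4 : ℝ)))) :=
    (Real.summable_nat_rpow.mpr (by norm_num)).mul_left 4
  refine ⟨∑' n : ℕ, 4 * ((n : ℝ) ^ (-(5 / 4 : ℝ))), tsum_nonneg fun n => by positivity, fun N => ?_⟩
  calc ∑ n ∈ (Icc 1 N).filter Nat.Prime, Real.log n / (n * Real.sqrt n)
      ≤ ∑ n ∈ (Icc 1 N).filter Nat.Prime, 4 * ((n : ℝ) ^ (-(5 / 4 : ℝ))) := by
        refine sum_le_sum fun n hn => ?_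
        have hn1 := (mem_Icc.mp (mem_filter.mp hn).1).1
        have hn0 : (0 : ℝ) < n := by exact_mod_cast hn1
        have h1 : Real.log n ≤ (n : ℝ) ^ (1 / 4 : ℝ) / (1 / 4) :=
          Real.log_le_rpow_div hn0.le (by norm_num)
        have h2 : (n : ℝ) * Real.sqrt n = (n : ℝ) ^ (3 / 2 : ℝ) := by
          rw [Real.sqrt_eq_rpow, ← Real.rpow_one_add' hn0.le (by norm_num)]
          norm_num
        rw [h2]
        have h3 : (0 : ℝ) < (n : ℝ) ^ (3 / 2 : ℝ) := by positivity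
        rw [div_le_iff₀ h3]
        have h4 : (n : ℝ) ^ (-(5 / 4 : ℝ)) * (n : ℝ) ^ (3 / 2 : ℝ) = (n : ℝ) ^ (1 / 4 : ℝ) := by
          rw [← Real.rpow_add hn0]
          norm_num
        calc Real.log n ≤ (n : ℝ) ^ (1 / 4 : ℝ) / (1 / 4) := h1
          _ = 4 * ((n : ℝ) ^ (-(5 / 4 : ℝ)) * (n : ℝ) ^ (3 / 2 : ℝ)) := by rw [h4]; ring
          _ = _ := by ring
    _ ≤ _ := hs.sum_le_tsum _ fun n _ => by positivity

/-- the integrand -/
private noncomputable def logintF (g : ℕ → ℂ) (x v : ℝ) : ℝ := ‖Sg g v‖ * (x / v ^ 2)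

private theorem logintF_nonneg (g : ℕ → ℂ) {x : ℝ} (hx : 0 ≤ x) (v : ℝ) : 0 ≤ logintF g x v := by
  unfold logintF
  positivity

private theorem logintF_le {g : ℕ → ℂ} (hg : CM g) {x : ℝ} (hx : 0 ≤ x) {v : ℝ} (hv : 0 ≤ v) :
    logintF g x v ≤ x := by
  unfold logintF
  rcases lt_or_ge v 1 with h | h
  · rw [logint_zero h]
    simpa using hx
  · have hv0 : 0 < v := by linarith
    calc ‖Sg g v‖ * (x / v ^ 2) ≤ v * (x / v ^ 2) :=
          mul_le_mul_of_nonneg_right (logint_norm_le hg hv) (by positivity)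
      _ = x / v := by field_simp
      _ ≤ x := div_le_self hx h

private theorem logintF_meas (g : ℕ → ℂ) (x : ℝ) : Measurable (logintF g x) := by
  unfold logintF
  exact (logint_meas g).mul (measurable_const.div (measurable_id.pow_const 2))

private theorem logintF_int {g : ℕ → ℂ} (hg : CM g) {x : ℝ} (hx : 0 ≤ x) {a b : ℝ} (ha : 0 ≤ a) :
    IntegrableOn (logintF g x) (Set.Ioc a b) := by
  refine Measure.integrableOn_of_bounded (M := x) ?_ (logintF_meas g x).aestronglyMeasurable ?_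
  · simp
  · refine (ae_restrict_iff' measurableSet_Ioc).mpr (Eventually.of_forall fun v hv => ?_)
    rw [Real.norm_eq_abs, abs_of_nonneg (logintF_nonneg g hx v)]
    exact logintF_le hg hx (ha.trans hv.1.le)

/-- one prime -/
private theorem logint_one {g : ℕ → ℂ} (hg : CM g) {x p : ℝ} (hx : 0 < x) (hp : 0 < p) :
    Real.sqrt p * ‖Sg g (x / p)‖ ≤ (∫ v in Set.Ioc (x / (p + Real.sqrt p)) (x / p), logintF g x v) +
      Real.sqrt p * (x / (p * Real.sqrt p) + 1) := by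
  have hs : 0 < Real.sqrt p := Real.sqrt_pos.mpr hp
  have hss : Real.sqrt p * Real.sqrt p = p := Real.mul_self_sqrt hp.le
  set a := x / (p + Real.sqrt p) with ha
  set b := x / p with hb
  have ha0 : 0 < a := by positivity
  have hb0 : 0 < b := by positivity
  have hab : a ≤ b := by
    rw [ha, hb]
    gcongr
    linarith
  set E := x / (p * Real.sqrt p) + 1 with hE
  have hE' : b - a + 1 ≤ E := by
    rw [hE, ha, hb]
    have h1 : x / p - x / (p + Real.sqrt p) = x * Real.sqrt p / (p * (p + Real.sqrt p)) := by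
      field_simp
      ring
    rw [h1]
    have h2 : x * Real.sqrt p / (p * (p + Real.sqrt p)) ≤ x * Real.sqrt p / (p * p) := by
      gcongr
      linarith
    have h3 : x * Real.sqrt p / (p * p) = x / (p * Real.sqrt p) := by
      rw [div_eq_div_iff (by positivity) (by positivity)]
      calc x * Real.sqrt p * (p * Real.sqrt p) = x * p * (Real.sqrt p * Real.sqrt p) := by ring
        _ = x * (p * p) := by rw [hss]; ring
    linarith
  have hint : ∫ v in Set.Ioc a b, (‖Sg g b‖ - E) * (x / v ^ 2) = (‖Sg g b‖ - E) * Real.sqrt p := by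
    rw [integral_const_mul, ← intervalIntegral.integral_of_le hab]
    congr 1
    have hd : ∀ v ∈ Set.uIcc a b, HasDerivAt (fun v : ℝ => -x / v) (x / v ^ 2) v := by
      intro v hv
      rw [Set.uIcc_of_le hab] at hv
      have hv0 : v ≠ 0 := (ha0.trans_le hv.1).ne'
      have h := (hasDerivAt_inv hv0).const_mul (-x)
      refine (h.congr_of_eventuallyEq ?_).congr_deriv ?_
      · exact Eventually.of_forall fun w => by simp [div_eq_mul_inv]
      · field_simp
    have hc : IntervalIntegrable (fun v : ℝ => x / v ^ 2) volume a b := by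
      refine ContinuousOn.intervalIntegrable ?_
      rw [Set.uIcc_of_le hab]
      refine continuousOn_const.div (continuousOn_id.pow 2) fun v hv => ?_
      have : 0 < v := ha0.trans_le hv.1
      positivity
    rw [intervalIntegral.integral_eq_sub_of_hasDerivAt hd hc, ha, hb]
    field_simp
    ring
  have hle : ∫ v in Set.Ioc a b, (‖Sg g b‖ - E) * (x / v ^ 2) ≤ ∫ v in Set.Ioc a b, logintF g x v := by
    refine setIntegral_mono_on ?_ (logintF_int hg hx.le ha0.le) measurableSet_Ioc fun v hv => ?_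
    · refine (IntegrableOn.mono_set ?_ Set.Ioc_subset_Icc_self)
      refine ContinuousOn.integrableOn_Icc ?_
      refine continuousOn_const.mul (continuousOn_const.div (continuousOn_id.pow 2) fun v hv => ?_)
      have : 0 < v := ha0.trans_le hv.1
      positivity
    · unfold logintF
      refine mul_le_mul_of_nonneg_right ?_ (by positivity)
      have h1 := logint_diff hg (ha0.le.trans hv.1.le) hv.2
      have h2 : ‖Sg g b‖ ≤ ‖Sg g b - Sg g v‖ + ‖Sg g v‖ := by
        have := norm_add_le (Sg g b - Sg g v) (Sg g v)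
        simpa using this
      linarith [hv.1]
  rw [hint] at hle
  nlinarith

private theorem logint_primes : ∃ C : ℝ, 0 < C ∧ ∀ (g : ℕ → ℂ) (x : ℝ), CM g → 1 ≤ x →
    ∑ p ∈ (Icc 1 ⌊x⌋₊).filter Nat.Prime, Real.log p * ‖Sg g (x / p)‖ ≤
      C * x * (1 + ∫ u in (1 : ℝ)..x, ‖Sg g u‖ / u ^ 2) := by
  obtain ⟨C1, hC1, h1⟩ := bt_sqrt
  obtain ⟨K, hK, hK'⟩ := logint_32
  obtain ⟨C2, hC2, h2⟩ := cheb_psi
  refine ⟨C1 + K + C2, by positivity, fun g x hg hx => ?_⟩
  have hx0 : 0 < x := by linarith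
  set N := ⌊x⌋₊ with hN
  set PP := (Icc 1 N).filter Nat.Prime with hPP
  have hmem : ∀ p ∈ PP, (0 : ℝ) < p ∧ (p : ℝ) ≤ x ∧ 0 ≤ Real.log p := by
    intro p hp
    rw [hPP, mem_filter, mem_Icc, hN, Nat.le_floor_iff hx0.le] at hp
    exact ⟨by exact_mod_cast hp.1.1, hp.1.2, Real.log_nonneg (by exact_mod_cast hp.1.1)⟩
  have hstep : ∀ p ∈ PP, Real.log p * ‖Sg g (x / p)‖ ≤
      Real.log p / Real.sqrt p * (∫ v in Set.Ioc (x / (p + Real.sqrt p)) (x / p), logintF g x v) +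
      (x * (Real.log p / (p * Real.sqrt p)) + Real.log p) := by
    intro p hp
    obtain ⟨hp0, hpx, hl⟩ := hmem p hp
    have hs : 0 < Real.sqrt p := Real.sqrt_pos.mpr hp0
    have h := logint_one hg hx0 hp0
    have h' := mul_le_mul_of_nonneg_left h (div_nonneg hl hs.le)
    have e1 : Real.log p / Real.sqrt p * (Real.sqrt p * ‖Sg g (x / p)‖) = Real.log p * ‖Sg g (x / p)‖ := by
      field_simp
    have e2 : Real.log p / Real.sqrt p * (Real.sqrt p * (x / (p * Real.sqrt p) + 1)) =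
        x * (Real.log p / (p * Real.sqrt p)) + Real.log p := by
      field_simp
    rw [e1, mul_add, e2] at h'
    exact h'
  -- the integral part
  have hI : ∑ p ∈ PP, Real.log p / Real.sqrt p *
      (∫ v in Set.Ioc (x / (p + Real.sqrt p)) (x / p), logintF g x v) ≤
      C1 * ∫ v in Set.Ioc (1 : ℝ) x, logintF g x v := by
    have hsub : ∀ p ∈ PP, Set.Ioc (x / (p + Real.sqrt p)) (x / p) ⊆ Set.Ioc (0 : ℝ) x := by
      intro p hp v hv
      obtain ⟨hp0, hpx, hl⟩ := hmem p hp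
      have hp1 : (1 : ℝ) ≤ p := by
        rw [hPP, mem_filter, mem_Icc] at hp
        exact_mod_cast hp.1.1
      refine ⟨lt_of_le_of_lt ?_ hv.1, hv.2.trans (div_le_self hx0.le hp1)⟩
      positivity
    have e1 : ∀ p ∈ PP, Real.log p / Real.sqrt p *
        (∫ v in Set.Ioc (x / (p + Real.sqrt p)) (x / p), logintF g x v) =
        ∫ v in Set.Ioc (0 : ℝ) x, Real.log p / Real.sqrt p *
          (Set.Ioc (x / (p + Real.sqrt p)) (x / p)).indicator (logintF g x) v := by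
      intro p hp
      rw [integral_const_mul, setIntegral_indicator measurableSet_Ioc,
        Set.inter_eq_right.mpr (hsub p hp)]
    have hi0 : ∀ p ∈ PP, IntegrableOn (fun v => Real.log p / Real.sqrt p *
        (Set.Ioc (x / (p + Real.sqrt p)) (x / p)).indicator (logintF g x) v) (Set.Ioc (0 : ℝ) x) := by
      intro p hp
      exact (((logintF_int hg hx0.le le_rfl).indicator measurableSet_Ioc).const_mul _)
    rw [sum_congr rfl e1, ← integral_finsetSum _ hi0]
    have e2 : C1 * ∫ v in Set.Ioc (1 : ℝ) x, logintF g x v =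
        ∫ v in Set.Ioc (0 : ℝ) x, C1 * (Set.Ioc (1 : ℝ) x).indicator (logintF g x) v := by
      rw [integral_const_mul, setIntegral_indicator measurableSet_Ioc,
        Set.inter_eq_right.mpr (Set.Ioc_subset_Ioc_left zero_le_one)]
    rw [e2]
    refine integral_mono_ae (integrable_finsetSum _ hi0)
      (((logintF_int hg hx0.le le_rfl).indicator measurableSet_Ioc).const_mul _) ?_
    have hne : ∀ᵐ v : ℝ ∂(volume.restrict (Set.Ioc (0 : ℝ) x)), v ≠ 1 := by
      refine ae_restrict_of_ae ?_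
      simp [ae_iff]
    filter_upwards [hne, ae_restrict_mem measurableSet_Ioc] with v hv1 hv
    rcases lt_or_ge 1 v with hv2 | hv2
    · rw [Set.indicator_of_mem (show v ∈ Set.Ioc (1 : ℝ) x from ⟨hv2, hv.2⟩)]
      have hv0 : 0 < v := hv.1
      have hu : 1 ≤ x / v := by rw [le_div_iff₀ hv0]; linarith [hv.2]
      calc ∑ p ∈ PP, Real.log p / Real.sqrt p *
            (Set.Ioc (x / (p + Real.sqrt p)) (x / p)).indicator (logintF g x) v
          ≤ ∑ p ∈ (Icc 1 ⌊x / v⌋₊).filter (fun p : ℕ => p.Prime ∧ x / v ≤ (p : ℝ) + Real.sqrt p),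
              Real.log p / Real.sqrt p * logintF g x v := by
            have hsplit : ∑ p ∈ PP, Real.log p / Real.sqrt p *
                (Set.Ioc (x / (p + Real.sqrt p)) (x / p)).indicator (logintF g x) v =
                ∑ p ∈ PP.filter (fun p : ℕ => v ∈ Set.Ioc (x / ((p : ℝ) + Real.sqrt p)) (x / p)),
                  Real.log p / Real.sqrt p * logintF g x v := by
              refine Eq.trans ?_ (sum_filter _ _).symm
              refine sum_congr rfl fun p _ => ?_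
              by_cases hc : v ∈ Set.Ioc (x / ((p : ℝ) + Real.sqrt p)) (x / p)
              · rw [Set.indicator_of_mem hc, if_pos hc]
              · rw [Set.indicator_of_notMem hc, if_neg hc, mul_zero]
            rw [hsplit]
            refine sum_le_sum_of_subset_of_nonneg ?_ ?_
            · intro p hp
              rw [mem_filter] at hp
              obtain ⟨hpP, hpv⟩ := hp
              obtain ⟨hp0, hpx, hl⟩ := hmem p hpP
              rw [hPP, mem_filter, mem_Icc] at hpP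
              rw [mem_filter, mem_Icc, Nat.le_floor_iff (by positivity)]
              have hq : 0 < (p : ℝ) + Real.sqrt p := by positivity
              refine ⟨⟨hpP.1.1, ?_⟩, hpP.2, ?_⟩
              · rw [le_div_iff₀ hv0]
                have := (le_div_iff₀ hp0).mp hpv.2
                linarith
              · rw [div_le_iff₀ hv0]
                have := (div_lt_iff₀ hq).mp hpv.1
                linarith
            · intro p hp _
              rw [mem_filter, mem_Icc] at hp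
              have : 0 ≤ Real.log (p : ℝ) := Real.log_nonneg (by exact_mod_cast hp.1.1)
              exact mul_nonneg (by positivity) (logintF_nonneg g hx0.le v)
        _ = (∑ p ∈ (Icc 1 ⌊x / v⌋₊).filter (fun p : ℕ => p.Prime ∧ x / v ≤ (p : ℝ) + Real.sqrt p),
              Real.log p / Real.sqrt p) * logintF g x v := by rw [sum_mul]
        _ ≤ C1 * logintF g x v := mul_le_mul_of_nonneg_right (h1 _ hu) (logintF_nonneg g hx0.le v)
    · have hv3 : v < 1 := lt_of_le_of_ne hv2 hv1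
      have hF : logintF g x v = 0 := by
        unfold logintF
        rw [logint_zero hv3]
        simp
      rw [Set.indicator_of_notMem (show v ∉ Set.Ioc (1 : ℝ) x from fun h => by linarith [h.1]), mul_zero]
      refine le_of_eq (sum_eq_zero fun p _ => ?_)
      by_cases hc : v ∈ Set.Ioc (x / ((p : ℝ) + Real.sqrt p)) (x / p)
      · rw [Set.indicator_of_mem hc, hF, mul_zero]
      · rw [Set.indicator_of_notMem hc, mul_zero]
  have hF1 : ∫ v in Set.Ioc (1 : ℝ) x, logintF g x v = x * ∫ u in (1 : ℝ)..x, ‖Sg g u‖ / u ^ 2 := by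
    rw [intervalIntegral.integral_of_le hx, ← integral_const_mul]
    refine integral_congr_ae (Eventually.of_forall fun v => ?_)
    simp only [logintF]
    ring
  have hInn : 0 ≤ ∫ u in (1 : ℝ)..x, ‖Sg g u‖ / u ^ 2 :=
    intervalIntegral.integral_nonneg hx fun u _ => by positivity
  have hlog : ∑ p ∈ PP, Real.log p ≤ C2 * x := by
    refine le_trans ?_ (h2 x hx0.le)
    calc ∑ p ∈ PP, Real.log p = ∑ p ∈ PP, ArithmeticFunction.vonMangoldt p := by
          refine sum_congr rfl fun p hp => ?_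
          rw [ArithmeticFunction.vonMangoldt_apply_prime (mem_filter.mp hp).2]
      _ ≤ _ := sum_le_sum_of_subset_of_nonneg (filter_subset _ _)
          fun n _ _ => ArithmeticFunction.vonMangoldt_nonneg
  calc ∑ p ∈ PP, Real.log p * ‖Sg g (x / p)‖
      ≤ ∑ p ∈ PP, (Real.log p / Real.sqrt p *
          (∫ v in Set.Ioc (x / (p + Real.sqrt p)) (x / p), logintF g x v) +
          (x * (Real.log p / (p * Real.sqrt p)) + Real.log p)) := sum_le_sum hstep
    _ = (∑ p ∈ PP, Real.log p / Real.sqrt p *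
          (∫ v in Set.Ioc (x / (p + Real.sqrt p)) (x / p), logintF g x v)) +
          (x * (∑ p ∈ PP, Real.log p / (p * Real.sqrt p)) + ∑ p ∈ PP, Real.log p) := by
        rw [sum_add_distrib, sum_add_distrib, mul_sum]
    _ ≤ C1 * (x * ∫ u in (1 : ℝ)..x, ‖Sg g u‖ / u ^ 2) + (x * K + C2 * x) := by
        rw [← hF1]
        gcongr
        exact hK' N
    _ ≤ (C1 + K + C2) * x * (1 + ∫ u in (1 : ℝ)..x, ‖Sg g u‖ / u ^ 2) := by
        have e : (C1 + K + C2) * x * (1 + ∫ u in (1 : ℝ)..x, ‖Sg g u‖ / u ^ 2) =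
            C1 * (x * ∫ u in (1 : ℝ)..x, ‖Sg g u‖ / u ^ 2) + (x * K + C2 * x) + (C1 * x +
              (K + C2) * (x * ∫ u in (1 : ℝ)..x, ‖Sg g u‖ / u ^ 2)) := by ring
        rw [e]
        have : 0 ≤ C1 * x + (K + C2) * (x * ∫ u in (1 : ℝ)..x, ‖Sg g u‖ / u ^ 2) := by positivity
        linarith

/-- `log x · S(x) = ∑_{n≤x} g(n) log(x/n) + ∑_{n≤x} g(n) log n`; the first sum is `≤ ∑_{n≤x} log(x/n) ≤ x`. Second: `log n = ∑_{d|n} Λ(d)`, `g(n) = g(d) g(n/d)`:
`= ∑_{d≤x} Λ(d) g(d) S(x/d)`. Proper prime powers contribute `≤ x ∑ Λ(d)/d ≤ C x`. Primes: `|S(x/p)| ≤ |S(x/u)| + x p^{-3/2} + 1` for `u ∈ [p, p+√p]`, so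
`log p |S(x/p)| ≤ (log p/√p) ∫_p^{p+√p} |S(x/u)| du + log p (x p^{-3/2} + 1)`. Sum over `p ≤ x`: the last part is `≤ C x` (`cheb_psi`, convergence of `∑ log n/n^{3/2}`),
the first is `≤ ∫_1^∞ |S(x/u)| ρ(u) du`, `ρ(u) = ∑_{p ≤ u ≤ p+√p} log p/√p ≤ C` (`bt_sqrt`), and `S(x/u) = 0` for `u > x`;
`∫_1^x |S(x/u)| du = x ∫_1^x |S(v)| v^{-2} dv`. -/
theorem logint : ∃ C : ℝ, 0 < C ∧ ∀ (g : ℕ → ℂ) (x : ℝ), CM g → 2 ≤ x →
    ‖Sg g x‖ * Real.log x ≤ C * x * (1 + ∫ u in (1 : ℝ)..x, ‖Sg g u‖ / u ^ 2) := by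
  obtain ⟨C1, hC1, h1⟩ := logint_primes
  obtain ⟨K, hK, hK'⟩ := logint_np
  refine ⟨4 + K + C1, by positivity, fun g x hg hx => ?_⟩
  have hx1 : 1 ≤ x := by linarith
  have hx0 : 0 < x := by linarith
  have hlx : 0 ≤ Real.log x := Real.log_nonneg hx1
  have hInn : 0 ≤ ∫ u in (1 : ℝ)..x, ‖Sg g u‖ / u ^ 2 :=
    intervalIntegral.integral_nonneg hx1 fun u _ => by positivity
  have e1 : Sg g x * ((Real.log x : ℝ) : ℂ) =
      (∑ n ∈ Icc 1 ⌊x⌋₊, g n * ((Real.log x - Real.log n : ℝ) : ℂ)) +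
        ∑ n ∈ Icc 1 ⌊x⌋₊, g n * ((Real.log n : ℝ) : ℂ) := by
    unfold Sg
    rw [sum_mul, ← sum_add_distrib]
    refine sum_congr rfl fun n _ => ?_
    push_cast
    ring
  have e2 : ‖Sg g x‖ * Real.log x = ‖Sg g x * ((Real.log x : ℝ) : ℂ)‖ := by
    rw [norm_mul, Complex.norm_real, Real.norm_eq_abs, abs_of_nonneg hlx]
  have h2 : ‖∑ n ∈ Icc 1 ⌊x⌋₊, g n * ((Real.log n : ℝ) : ℂ)‖ ≤
      ∑ d ∈ Icc 1 ⌊x⌋₊, ArithmeticFunction.vonMangoldt d * ‖Sg g (x / d)‖ := by
    rw [logint_second hg]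
    refine norm_sum_le_of_le _ fun d _ => ?_
    rw [norm_mul, norm_mul, Complex.norm_real, Real.norm_eq_abs,
      abs_of_nonneg ArithmeticFunction.vonMangoldt_nonneg]
    refine mul_le_mul_of_nonneg_right ?_ (norm_nonneg _)
    exact mul_le_of_le_one_right ArithmeticFunction.vonMangoldt_nonneg (hg.bdd d)
  have h3 : ∑ d ∈ Icc 1 ⌊x⌋₊, ArithmeticFunction.vonMangoldt d * ‖Sg g (x / d)‖ =
      (∑ p ∈ (Icc 1 ⌊x⌋₊).filter Nat.Prime, Real.log p * ‖Sg g (x / p)‖) +
      ∑ d ∈ (Icc 1 ⌊x⌋₊).filter (fun d => ¬ d.Prime), ArithmeticFunction.vonMangoldt d * ‖Sg g (x / d)‖ := by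
    rw [← sum_filter_add_sum_filter_not (Icc 1 ⌊x⌋₊) Nat.Prime]
    congr 1
    refine sum_congr rfl fun p hp => ?_
    rw [ArithmeticFunction.vonMangoldt_apply_prime (mem_filter.mp hp).2]
  have h4 : ∑ d ∈ (Icc 1 ⌊x⌋₊).filter (fun d => ¬ d.Prime), ArithmeticFunction.vonMangoldt d * ‖Sg g (x / d)‖ ≤
      x * K := by
    calc ∑ d ∈ (Icc 1 ⌊x⌋₊).filter (fun d => ¬ d.Prime), ArithmeticFunction.vonMangoldt d * ‖Sg g (x / d)‖
        ≤ ∑ d ∈ (Icc 1 ⌊x⌋₊).filter (fun d => ¬ d.Prime), x * (ArithmeticFunction.vonMangoldt d / d) := by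
          refine sum_le_sum fun d _ => ?_
          have := logint_norm_le hg (show (0 : ℝ) ≤ x / d by positivity)
          calc ArithmeticFunction.vonMangoldt d * ‖Sg g (x / d)‖
              ≤ ArithmeticFunction.vonMangoldt d * (x / d) :=
                mul_le_mul_of_nonneg_left this ArithmeticFunction.vonMangoldt_nonneg
            _ = _ := by ring
      _ = x * ∑ d ∈ (Icc 1 ⌊x⌋₊).filter (fun d => ¬ d.Prime), ArithmeticFunction.vonMangoldt d / d := by
          rw [mul_sum]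
      _ ≤ x * K := mul_le_mul_of_nonneg_left (hK' _) hx0.le
  have h5 := h1 g x hg hx1
  have h6 := logint_first hg hx1
  rw [e2, e1]
  refine (norm_add_le _ _).trans ?_
  have e3 : (4 + K + C1) * x * (1 + ∫ u in (1 : ℝ)..x, ‖Sg g u‖ / u ^ 2) =
      4 * x + x * K + C1 * x * (1 + ∫ u in (1 : ℝ)..x, ‖Sg g u‖ / u ^ 2) +
        (4 + K) * x * ∫ u in (1 : ℝ)..x, ‖Sg g u‖ / u ^ 2 := by ring
  have h7 : 0 ≤ (4 + K) * x * ∫ u in (1 : ℝ)..x, ‖Sg g u‖ / u ^ 2 := by positivity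
  rw [e3]
  rw [h3] at h2
  linarith

end Pool.Agent.Mrd
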