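import Pool.Agent.Mrd.Zs
import Pool.Agent.Mrd.Kth

/-!
Mrd ZSP: `∑_{M < n ≤ N} (n + θ)^{-iτ}` for `|τ| ≤ M^A`.
-/

set_option autoImplicit false

namespace Pool.Agent.Mrd

open Finset MeasureTheory Filter Topology

private noncomputable def zsP_F (θ τ : ℝ) : ℕ → ℝ → ℝ
  | 0, u => -(τ / (2 * Real.pi)) * Real.log (u + θ)
  | (i + 1), u => -(τ / (2 * Real.pi)) * ((-1) ^ i * (Nat.factorial i : ℝ)) * ((u + θ) ^ (i + 1))⁻¹

private theorem zsP_deriv (θ τ : ℝ) (i : ℕ) (u : ℝ) (hu : 0 < u + θ) :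
    HasDerivAt (zsP_F θ τ i) (zsP_F θ τ (i + 1) u) u := by
  have h1 : HasDerivAt (fun v : ℝ => v + θ) 1 u := (hasDerivAt_id u).add_const θ
  cases i with
  | zero =>
    have h2 : HasDerivAt (fun v : ℝ => Real.log (v + θ)) (1 / (u + θ)) u := h1.log hu.ne'
    have h3 := h2.const_mul (-(τ / (2 * Real.pi)))
    have e1 : zsP_F θ τ 0 = fun v : ℝ => -(τ / (2 * Real.pi)) * Real.log (v + θ) := rfl
    have e2 : zsP_F θ τ (0 + 1) u = -(τ / (2 * Real.pi)) * (1 / (u + θ)) := by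
      have : zsP_F θ τ (0 + 1) u =
        -(τ / (2 * Real.pi)) * ((-1) ^ 0 * (Nat.factorial 0 : ℝ)) * ((u + θ) ^ (0 + 1))⁻¹ := rfl
      rw [this]
      simp
    rw [e1, e2]
    exact h3
  | succ i =>
    have h2 : HasDerivAt (fun v : ℝ => (v + θ) ^ (i + 1)) (((i + 1 : ℕ) : ℝ) * (u + θ) ^ (i + 1 - 1) * 1) u :=
      h1.pow (i + 1)
    have h3 := (h2.inv (pow_ne_zero _ hu.ne')).const_mul
      (-(τ / (2 * Real.pi)) * ((-1) ^ i * (Nat.factorial i : ℝ)))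
    have e1 : zsP_F θ τ (i + 1) = fun v : ℝ =>
      -(τ / (2 * Real.pi)) * ((-1) ^ i * (Nat.factorial i : ℝ)) * ((v + θ) ^ (i + 1))⁻¹ := rfl
    have e2 : zsP_F θ τ (i + 1 + 1) u = -(τ / (2 * Real.pi)) * ((-1) ^ i * (Nat.factorial i : ℝ)) *
        (-(((i + 1 : ℕ) : ℝ) * (u + θ) ^ (i + 1 - 1) * 1) / ((u + θ) ^ (i + 1)) ^ 2) := by
      have : zsP_F θ τ (i + 1 + 1) u =
        -(τ / (2 * Real.pi)) * ((-1) ^ (i + 1) * (Nat.factorial (i + 1) : ℝ)) *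
          ((u + θ) ^ (i + 1 + 1))⁻¹ := rfl
      rw [this, Nat.factorial_succ]
      have hne := hu.ne'
      push_cast
      field_simp
      ring
    rw [e1, e2]
    exact h3

/-- one range of `τ` -/
private theorem zsP_range (k : ℕ) (hk : 2 ≤ k) : ∃ C c : ℝ, 0 < C ∧ 0 < c ∧ c ≤ 1 ∧
    ∀ (θ τ : ℝ) (M N : ℕ), 0 ≤ θ → θ ≤ 1 → 1 ≤ M → M ≤ N → N ≤ 8 * M →
      (M : ℝ) ^ ((k : ℝ) - 3 / 2) ≤ |τ| → |τ| ≤ (M : ℝ) ^ ((k : ℝ) - 1 / 2) →
      ‖zs θ τ M N‖ ≤ C * (M : ℝ) ^ (1 - c) := by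
  obtain ⟨j, rfl⟩ : ∃ j, k = j + 1 := ⟨k - 1, by omega⟩
  have h9 : (1 : ℝ) ≤ 9 ^ (j + 1) := one_le_pow₀ (by norm_num)
  obtain ⟨C0, c0, hC0, hc0, hc0', h0⟩ := kth (j + 1) hk (9 ^ (j + 1)) (1 / 4) h9 (by norm_num) (by norm_num)
  have hpi := Real.pi_pos
  set g : ℝ := (Nat.factorial j : ℝ) / (2 * Real.pi * 9 ^ (j + 1)) with hg
  have hg0 : 0 < g := by
    have : (0 : ℝ) < Nat.factorial j := by exact_mod_cast Nat.factorial_pos j
    positivity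
  set B : ℝ := max (1 / g) (2 * g) with hB
  have hB0 : 0 < B := lt_max_of_lt_right (by positivity)
  refine ⟨max (C0 * 8) (7 * B ^ 4), c0, lt_max_of_lt_left (by positivity), hc0, hc0', ?_⟩
  intro θ τ M N hθ0 hθ1 hM hMN hN hl hu
  have hM' : (1 : ℝ) ≤ M := by exact_mod_cast hM
  have hMpos : (0 : ℝ) < M := by linarith
  have hN' : (N : ℝ) ≤ 8 * M := by exact_mod_cast hN
  have hp2 : 1 ≤ (M : ℝ) ^ (1 - c0) := Real.one_le_rpow hM' (by linarith)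
  rcases lt_or_ge (M : ℝ) (B ^ 4) with hsm | hlg
  · -- small `M`
    have h1 : ‖zs θ τ M N‖ ≤ 7 * M := by
      unfold zs
      refine (norm_sum_le _ _).trans ?_
      have h2 : ∀ n ∈ Ioc M N, ‖Complex.exp (-((τ * Real.log (n + θ) : ℝ) : ℂ) * Complex.I)‖ = 1 := by
        intro n _
        rw [show (-((τ * Real.log (n + θ) : ℝ) : ℂ) * Complex.I) =
          ((-(τ * Real.log (n + θ)) : ℝ) : ℂ) * Complex.I by push_cast; ring]
        exact Complex.norm_exp_ofReal_mul_I _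
      rw [Finset.sum_congr rfl h2, Finset.sum_const, Nat.card_Ioc, nsmul_eq_mul, mul_one,
        Nat.cast_sub hMN]
      linarith
    refine h1.trans ?_
    calc 7 * (M : ℝ) ≤ 7 * B ^ 4 * 1 := by linarith
      _ ≤ 7 * B ^ 4 * (M : ℝ) ^ (1 - c0) := mul_le_mul_of_nonneg_left hp2 (by positivity)
      _ ≤ max (C0 * 8) (7 * B ^ 4) * (M : ℝ) ^ (1 - c0) :=
          mul_le_mul_of_nonneg_right (le_max_right _ _) (by positivity)
  rcases Nat.eq_or_lt_of_le hMN with hEq | hlt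
  · subst hEq
    have : zs θ τ M M = 0 := by
      unfold zs
      simp
    rw [this, norm_zero]
    have : 0 ≤ max (C0 * 8) (7 * B ^ 4) := le_max_of_le_left (by positivity)
    positivity
  -- the main case
  have hroot : B ≤ (M : ℝ) ^ (1 / 4 : ℝ) := by
    have h1 : (B ^ 4) ^ (1 / 4 : ℝ) ≤ (M : ℝ) ^ (1 / 4 : ℝ) :=
      Real.rpow_le_rpow (by positivity) hlg (by norm_num)
    have h2 : (B ^ 4 : ℝ) ^ (1 / 4 : ℝ) = B := by
      rw [← Real.rpow_natCast, ← Real.rpow_mul hB0.le]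
      norm_num
    rwa [h2] at h1
  have hq : (M : ℝ) ^ (-(1 / 4) : ℝ) ≤ 1 / B := by
    rw [Real.rpow_neg hMpos.le, ← one_div]
    exact one_div_le_one_div_of_le hB0 hroot
  have hq1 : (M : ℝ) ^ (-(1 / 4) : ℝ) ≤ g := by
    refine hq.trans ?_
    rw [div_le_iff₀ hB0]
    calc (1 : ℝ) = g * (1 / g) := by field_simp
      _ ≤ g * B := mul_le_mul_of_nonneg_left (le_max_left _ _) hg0.le
  have hq2 : g * (M : ℝ) ^ (-(1 / 4) : ℝ) ≤ 1 / 2 := by
    calc g * (M : ℝ) ^ (-(1 / 4) : ℝ) ≤ g * (1 / B) := mul_le_mul_of_nonneg_left hq hg0.le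
      _ ≤ 1 / 2 := by
        rw [mul_one_div, div_le_div_iff₀ hB0 (by norm_num)]
        have : 2 * g ≤ B := le_max_right _ _
        linarith
  -- size of `|τ|`
  have hMk : (0 : ℝ) < (M : ℝ) ^ (j + 1) := by positivity
  have hl' : (M : ℝ) ^ (-(3 / 2) : ℝ) ≤ |τ| * ((M : ℝ) ^ (j + 1))⁻¹ := by
    rw [← div_eq_mul_inv, le_div_iff₀ hMk]
    refine le_of_eq_of_le ?_ hl
    rw [← Real.rpow_natCast, ← Real.rpow_add hMpos]
    congr 1
    ring
  have hu' : |τ| * ((M : ℝ) ^ (j + 1))⁻¹ ≤ (M : ℝ) ^ (-(1 / 2) : ℝ) := by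
    rw [← div_eq_mul_inv, div_le_iff₀ hMk]
    refine hu.trans (le_of_eq ?_)
    rw [← Real.rpow_natCast, ← Real.rpow_add hMpos]
    congr 1
    ring
  set Λ : ℝ := g * (|τ| * ((M : ℝ) ^ (j + 1))⁻¹) with hΛ
  have h8 : (M : ℝ) ≤ 8 * M := by linarith
  have hΛ1 : (8 * (M : ℝ)) ^ (-2 + 1 / 4 : ℝ) ≤ Λ := by
    calc (8 * (M : ℝ)) ^ (-2 + 1 / 4 : ℝ) ≤ (M : ℝ) ^ (-2 + 1 / 4 : ℝ) :=
          Real.rpow_le_rpow_of_nonpos hMpos h8 (by norm_num)
      _ = (M : ℝ) ^ (-(1 / 4) : ℝ) * (M : ℝ) ^ (-(3 / 2) : ℝ) := by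
          rw [← Real.rpow_add hMpos]
          norm_num
      _ ≤ g * (M : ℝ) ^ (-(3 / 2) : ℝ) := mul_le_mul_of_nonneg_right hq1 (by positivity)
      _ ≤ Λ := mul_le_mul_of_nonneg_left hl' hg0.le
  have hΛ2 : Λ ≤ (8 * (M : ℝ)) ^ (-(1 / 4) : ℝ) := by
    have h8' : (1 / 2 : ℝ) ≤ (8 : ℝ) ^ (-(1 / 4) : ℝ) := by
      have h16 : (16 : ℝ) ^ (-(1 / 4) : ℝ) = 1 / 2 := by
        rw [show (16 : ℝ) = 2 ^ (4 : ℝ) by norm_num, ← Real.rpow_mul (by norm_num)]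
        norm_num
      rw [← h16]
      exact Real.rpow_le_rpow_of_nonpos (by norm_num) (by norm_num) (by norm_num)
    calc Λ ≤ g * (M : ℝ) ^ (-(1 / 2) : ℝ) := mul_le_mul_of_nonneg_left hu' hg0.le
      _ = (g * (M : ℝ) ^ (-(1 / 4) : ℝ)) * (M : ℝ) ^ (-(1 / 4) : ℝ) := by
          rw [mul_assoc, ← Real.rpow_add hMpos]
          norm_num
      _ ≤ (1 / 2) * (M : ℝ) ^ (-(1 / 4) : ℝ) := mul_le_mul_of_nonneg_right hq2 (by positivity)
      _ ≤ (8 : ℝ) ^ (-(1 / 4) : ℝ) * (M : ℝ) ^ (-(1 / 4) : ℝ) :=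
          mul_le_mul_of_nonneg_right h8' (by positivity)
      _ = (8 * (M : ℝ)) ^ (-(1 / 4) : ℝ) := by
          rw [Real.mul_rpow (by norm_num) hMpos.le]
  have hbd : ∀ u ∈ Set.Icc (((M : ℤ) + 1 : ℤ) : ℝ) ((N : ℤ) : ℝ),
      Λ ≤ |τ| / (2 * Real.pi) * (Nat.factorial j : ℝ) * ((u + θ) ^ (j + 1))⁻¹ ∧
      |τ| / (2 * Real.pi) * (Nat.factorial j : ℝ) * ((u + θ) ^ (j + 1))⁻¹ ≤ 9 ^ (j + 1) * Λ := by
    intro u hu
    have hu1 : (M : ℝ) + 1 ≤ u := by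
      have := hu.1
      push_cast at this
      exact this
    have hu2 : u ≤ (N : ℝ) := by
      have := hu.2
      push_cast at this
      exact this
    have hv1 : (M : ℝ) ≤ u + θ := by linarith
    have hv2 : u + θ ≤ 9 * M := by linarith
    have hv0 : 0 < u + θ := by linarith
    have hi1 : ((9 * (M : ℝ)) ^ (j + 1))⁻¹ ≤ ((u + θ) ^ (j + 1))⁻¹ :=
      inv_anti₀ (by positivity) (pow_le_pow_left₀ hv0.le hv2 _)
    have hi2 : ((u + θ) ^ (j + 1))⁻¹ ≤ ((M : ℝ) ^ (j + 1))⁻¹ :=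
      inv_anti₀ hMk (pow_le_pow_left₀ hMpos.le hv1 _)
    have hco : 0 ≤ |τ| / (2 * Real.pi) * (Nat.factorial j : ℝ) := by positivity
    constructor
    · have e1 : Λ = |τ| / (2 * Real.pi) * (Nat.factorial j : ℝ) * ((9 * (M : ℝ)) ^ (j + 1))⁻¹ := by
        rw [hΛ, hg, mul_pow]
        field_simp
      rw [e1]
      exact mul_le_mul_of_nonneg_left hi1 hco
    · have e2 : 9 ^ (j + 1) * Λ = |τ| / (2 * Real.pi) * (Nat.factorial j : ℝ) * ((M : ℝ) ^ (j + 1))⁻¹ := by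
        rw [hΛ, hg]
        field_simp
      rw [e2]
      exact mul_le_mul_of_nonneg_left hi2 hco
  have hsign : (∀ u : ℝ, zsP_F θ τ (j + 1) u =
        |τ| / (2 * Real.pi) * (Nat.factorial j : ℝ) * ((u + θ) ^ (j + 1))⁻¹) ∨
      (∀ u : ℝ, -zsP_F θ τ (j + 1) u =
        |τ| / (2 * Real.pi) * (Nat.factorial j : ℝ) * ((u + θ) ^ (j + 1))⁻¹) := by
    have e1 : ∀ u : ℝ, zsP_F θ τ (j + 1) u =
      -(τ / (2 * Real.pi)) * ((-1) ^ j * (Nat.factorial j : ℝ)) * ((u + θ) ^ (j + 1))⁻¹ := fun u => rfl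
    rcases le_total 0 τ with ht | ht <;> rcases neg_one_pow_eq_or ℝ j with hj | hj
    · right
      intro u
      rw [e1, hj, abs_of_nonneg ht]
      ring
    · left
      intro u
      rw [e1, hj, abs_of_nonneg ht]
      ring
    · left
      intro u
      rw [e1, hj, abs_of_nonpos ht]
      ring
    · right
      intro u
      rw [e1, hj, abs_of_nonpos ht]
      ring
  have hmain := h0 ((M : ℤ) + 1) (N : ℤ) (8 * (M : ℝ)) Λ (zsP_F θ τ) (by omega) (by linarith)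
    (by push_cast; linarith)
    (by
      intro i _ u hu
      refine zsP_deriv θ τ i u ?_
      have := hu.1
      push_cast at this
      linarith)
    hΛ1 hΛ2
    (by
      rcases hsign with hs | hs
      · left
        intro u hu
        rw [hs u]
        exact hbd u hu
      · right
        intro u hu
        rw [hs u]
        exact hbd u hu)
  have hsum : zs θ τ M N = ∑ n ∈ Finset.Icc ((M : ℤ) + 1) (N : ℤ), Pool.Agent.PEt.e (zsP_F θ τ 0 n) := by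
    unfold zs
    refine Finset.sum_bij (fun (n : ℕ) _ => (n : ℤ)) ?_ ?_ ?_ ?_
    · intro n hn
      rw [Finset.mem_Ioc] at hn
      rw [Finset.mem_Icc]
      omega
    · intro a _ b _ hab
      exact_mod_cast hab
    · intro b hb
      rw [Finset.mem_Icc] at hb
      refine ⟨b.toNat, ?_, ?_⟩
      · rw [Finset.mem_Ioc]
        omega
      · exact Int.toNat_of_nonneg (by omega)
    · intro n _
      have e1 : zsP_F θ τ 0 ((n : ℤ) : ℝ) = -(τ / (2 * Real.pi)) * Real.log (((n : ℤ) : ℝ) + θ) := rfl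
      rw [e1]
      unfold Pool.Agent.PEt.e
      congr 1
      have hpc : (Real.pi : ℂ) ≠ 0 := by exact_mod_cast Real.pi_ne_zero
      push_cast
      field_simp
  rw [hsum]
  refine hmain.trans ?_
  calc C0 * (8 * (M : ℝ)) ^ (1 - c0) = C0 * (8 ^ (1 - c0) * (M : ℝ) ^ (1 - c0)) := by
        rw [Real.mul_rpow (by norm_num) hMpos.le]
    _ ≤ C0 * (8 * (M : ℝ) ^ (1 - c0)) := by
        refine mul_le_mul_of_nonneg_left (mul_le_mul_of_nonneg_right ?_ (by positivity)) hC0.le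
        calc (8 : ℝ) ^ (1 - c0) ≤ 8 ^ (1 : ℝ) :=
              Real.rpow_le_rpow_of_exponent_le (by norm_num) (by linarith)
          _ = 8 := Real.rpow_one _
    _ = (C0 * 8) * (M : ℝ) ^ (1 - c0) := by ring
    _ ≤ max (C0 * 8) (7 * B ^ 4) * (M : ℝ) ^ (1 - c0) :=
        mul_le_mul_of_nonneg_right (le_max_left _ _) (by positivity)

/-- finitely many ranges -/
private theorem zsP_ranges (K : ℕ) : ∃ C c : ℝ, 0 < C ∧ 0 < c ∧ c ≤ 1 ∧
    ∀ k : ℕ, 2 ≤ k → k ≤ K → ∀ (θ τ : ℝ) (M N : ℕ), 0 ≤ θ → θ ≤ 1 → 1 ≤ M → M ≤ N → N ≤ 8 * M →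
      (M : ℝ) ^ ((k : ℝ) - 3 / 2) ≤ |τ| → |τ| ≤ (M : ℝ) ^ ((k : ℝ) - 1 / 2) →
      ‖zs θ τ M N‖ ≤ C * (M : ℝ) ^ (1 - c) := by
  induction K with
  | zero => exact ⟨1, 1, one_pos, one_pos, le_refl _, fun k h1 h2 => by omega⟩
  | succ K ih =>
    obtain ⟨C1, c1, hC1, hc1, hc1', h1⟩ := ih
    by_cases hK : 2 ≤ K + 1
    · obtain ⟨C2, c2, hC2, hc2, hc2', h2⟩ := zsP_range (K + 1) hK
      refine ⟨max C1 C2, min c1 c2, lt_max_of_lt_left hC1, lt_min hc1 hc2, (min_le_left _ _).trans hc1', ?_⟩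
      intro k hk hkK θ τ M N hθ0 hθ1 hM hMN hN hl hu
      have hM' : (1 : ℝ) ≤ M := by exact_mod_cast hM
      rcases Nat.lt_or_ge k (K + 1) with hlt | hge
      · refine (h1 k hk (by omega) θ τ M N hθ0 hθ1 hM hMN hN hl hu).trans ?_
        exact mul_le_mul (le_max_left _ _)
          (Real.rpow_le_rpow_of_exponent_le hM' (by linarith [min_le_left c1 c2])) (by positivity)
          (le_max_of_le_left hC1.le)
      · have hkeq : k = K + 1 := by omega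
        subst hkeq
        refine (h2 θ τ M N hθ0 hθ1 hM hMN hN hl hu).trans ?_
        exact mul_le_mul (le_max_right _ _)
          (Real.rpow_le_rpow_of_exponent_le hM' (by linarith [min_le_right c1 c2])) (by positivity)
          (le_max_of_le_left hC1.le)
    · exact ⟨1, 1, one_pos, one_pos, le_refl _, fun k h1 h2 => by omega⟩

/-- For `|τ| ≤ M`: `zs_small`. For `|τ| = M^a`, `1 ≤ a ≤ A`: `kth` with `k = ⌊a + 3/2⌋ ∈ [2, A+2]`, `F 0 u = -(τ/2π) log(u+θ)`,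
`F i u = -(τ/2π) (-1)^{i-1} (i-1)! (u+θ)^{-i}`: on `[M, 8M]` the k-th derivative has constant sign and size between
`Λ = |τ|(k-1)!/(2π (9M)^k)` and `9^k Λ`; `|τ| M^{-k} ∈ [M^{-3/2}, M^{-1/2}]`, so with `L = 8M`, `η = 1/4`: `L^{-2+η} ≤ Λ ≤ L^{-η}` for `M ≥ M₀(A)`;
finitely many `k`; small `M` trivially. -/
theorem zs_all (A : ℝ) (hA : 1 ≤ A) : ∃ C c : ℝ, 0 < C ∧ 0 < c ∧ c ≤ 1 ∧ ∀ (θ τ : ℝ) (M N : ℕ),
    0 ≤ θ → θ ≤ 1 → 1 ≤ M → M ≤ N → N ≤ 8 * M → 0 < |τ| → |τ| ≤ (M : ℝ) ^ A →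
    ‖zs θ τ M N‖ ≤ C * (M / |τ| + (M : ℝ) ^ (1 - c)) := by
  obtain ⟨C1, hC1, h1⟩ := zs_small
  obtain ⟨C2, c, hC2, hc, hc', h2⟩ := zsP_ranges (⌈A⌉₊ + 2)
  refine ⟨max C1 C2, c, lt_max_of_lt_left hC1, hc, hc', ?_⟩
  intro θ τ M N hθ0 hθ1 hM hMN hN hτ0 hτA
  have hM' : (1 : ℝ) ≤ M := by exact_mod_cast hM
  have hp1 : 0 ≤ (M : ℝ) / |τ| := by positivity
  have hp2 : 0 ≤ (M : ℝ) ^ (1 - c) := by positivity
  rcases le_or_gt |τ| (M : ℝ) with hle | hgt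
  · refine (h1 θ τ M N hθ0 hθ1 hM hMN hN hτ0 hle).trans ?_
    calc C1 * (M / |τ|) ≤ max C1 C2 * (M / |τ|) := by
          exact mul_le_mul_of_nonneg_right (le_max_left _ _) hp1
      _ ≤ max C1 C2 * (M / |τ| + (M : ℝ) ^ (1 - c)) := by
          exact mul_le_mul_of_nonneg_left (by linarith) (le_max_of_le_left hC1.le)
  · have hex : ∃ k : ℕ, 2 ≤ k ∧ |τ| ≤ (M : ℝ) ^ ((k : ℝ) - 1 / 2) := by
      refine ⟨⌈A⌉₊ + 2, by omega, hτA.trans (Real.rpow_le_rpow_of_exponent_le hM' ?_)⟩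
      have := Nat.le_ceil A
      push_cast
      linarith
    classical
    have hk := Nat.find_spec hex
    have hmin := fun m hm => Nat.find_min hex (m := m) hm
    have hkle : Nat.find hex ≤ ⌈A⌉₊ + 2 := by
      refine Nat.find_min' hex ⟨by omega, hτA.trans (Real.rpow_le_rpow_of_exponent_le hM' ?_)⟩
      have := Nat.le_ceil A
      push_cast
      linarith
    set k := Nat.find hex with hkdef
    have hlow : (M : ℝ) ^ ((k : ℝ) - 3 / 2) ≤ |τ| := by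
      rcases Nat.lt_or_ge 2 k with h3 | h3
      · have h4 := hmin (k - 1) (by omega)
        rw [not_and_or] at h4
        rcases h4 with h4 | h4
        · omega
        · push Not at h4
          refine le_of_eq_of_le ?_ h4.le
          rw [Nat.cast_sub (by omega)]
          congr 1
          push_cast
          ring
      · have hk2 : k = 2 := le_antisymm h3 hk.1
        rw [hk2]
        refine le_trans ?_ hgt.le
        calc (M : ℝ) ^ (((2 : ℕ) : ℝ) - 3 / 2) ≤ (M : ℝ) ^ (1 : ℝ) :=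
              Real.rpow_le_rpow_of_exponent_le hM' (by norm_num)
          _ = M := Real.rpow_one _
    refine (h2 k hk.1 hkle θ τ M N hθ0 hθ1 hM hMN hN hlow hk.2).trans ?_
    calc C2 * (M : ℝ) ^ (1 - c) ≤ max C1 C2 * (M : ℝ) ^ (1 - c) := by
          exact mul_le_mul_of_nonneg_right (le_max_right _ _) hp2
      _ ≤ max C1 C2 * (M / |τ| + (M : ℝ) ^ (1 - c)) := by
          exact mul_le_mul_of_nonneg_left (by linarith) (le_max_of_le_left hC1.le)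

end Pool.Agent.Mrd
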