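import Pool.Agent.Mrd.Lbd
import Pool.Agent.Mrd.ZsP

/-!
Mrd LUP: `L(1 + 1/log x + iu, χ) = o(log x)` uniformly for `1 ≤ |u| ≤ 2x²`.
-/

set_option autoImplicit false

namespace Pool.Agent.Mrd

open Finset MeasureTheory Filter Topology

private theorem lup_abel (a : ℕ → ℂ) (w : ℕ → ℝ) (B : ℝ) (k : ℕ) (hw0 : ∀ i, 0 ≤ w i)
    (hw : ∀ i, w (i + 1) ≤ w i) (hB : ∀ j ≤ k, ‖∑ i ∈ range j, a i‖ ≤ B) :
    ‖∑ i ∈ range k, (w i : ℂ) * a i‖ ≤ w 0 * B := by
  have hid : ∀ k : ℕ, ∑ i ∈ range k, (w i : ℂ) * a i = (w k : ℂ) * (∑ i ∈ range k, a i) +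
      ∑ i ∈ range k, ((w i - w (i + 1) : ℝ) : ℂ) * ∑ j ∈ range (i + 1), a j := by
    intro k
    induction k with
    | zero => simp
    | succ k ih =>
      rw [Finset.sum_range_succ, ih, Finset.sum_range_succ (fun i => ((w i - w (i + 1) : ℝ) : ℂ) *
        ∑ j ∈ range (i + 1), a j) k, Finset.sum_range_succ a k]
      push_cast
      ring
  rw [hid k]
  refine (norm_add_le _ _).trans ?_
  have h1 : ‖(w k : ℂ) * ∑ i ∈ range k, a i‖ ≤ w k * B := by
    rw [norm_mul, Complex.norm_real, Real.norm_of_nonneg (hw0 k)]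
    exact mul_le_mul_of_nonneg_left (hB k le_rfl) (hw0 k)
  have h2 : ‖∑ i ∈ range k, ((w i - w (i + 1) : ℝ) : ℂ) * ∑ j ∈ range (i + 1), a j‖ ≤
      ∑ i ∈ range k, (w i - w (i + 1)) * B := by
    refine (norm_sum_le _ _).trans (Finset.sum_le_sum ?_)
    intro i hi
    rw [Finset.mem_range] at hi
    rw [norm_mul, Complex.norm_real, Real.norm_of_nonneg (by linarith [hw i])]
    exact mul_le_mul_of_nonneg_left (hB (i + 1) (by omega)) (by linarith [hw i])
  have h3 : ∑ i ∈ range k, (w i - w (i + 1)) * B = (w 0 - w k) * B := by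
    rw [← Finset.sum_mul, Finset.sum_range_sub']
  linarith

private theorem lup_Ioc (f : ℕ → ℂ) (M y : ℕ) :
    ∑ n ∈ Ioc M y, f n = ∑ i ∈ range (y - M), f (M + 1 + i) := by
  have h : Ioc M y = Ico (M + 1) (y + 1) := by
    ext n
    rw [Finset.mem_Ioc, Finset.mem_Ico]
    omega
  rw [h, Finset.sum_Ico_eq_sum_range]
  congr 2
  omega

private theorem lup_abel_Ioc (a : ℕ → ℂ) (w : ℕ → ℝ) (B : ℝ) (M N : ℕ) (hMN : M ≤ N)
    (hw0 : ∀ n, M < n → 0 ≤ w n) (hw : ∀ n, M < n → w (n + 1) ≤ w n)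
    (hB : ∀ y, M ≤ y → y ≤ N → ‖∑ n ∈ Ioc M y, a n‖ ≤ B) :
    ‖∑ n ∈ Ioc M N, (w n : ℂ) * a n‖ ≤ w (M + 1) * B := by
  rw [lup_Ioc (fun n => (w n : ℂ) * a n)]
  have h := lup_abel (fun i => a (M + 1 + i)) (fun i => w (M + 1 + i)) B (N - M)
    (fun i => hw0 _ (by omega)) (fun i => hw (M + 1 + i) (by omega)) (by
      intro j hj
      have h1 := hB (M + j) (by omega) (by omega)
      rw [lup_Ioc a, Nat.add_sub_cancel_left] at h1
      exact h1)
  rw [add_zero] at h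
  exact h

private theorem lup_class {q : ℕ} [NeZero q] (χ : DirichletCharacter ℂ q) (A C c : ℝ) (hC : 0 < C)
    (hc1 : c ≤ 1) (hA : 0 ≤ A)
    (hz : ∀ (θ τ : ℝ) (M N : ℕ), 0 ≤ θ → θ ≤ 1 → 1 ≤ M → M ≤ N → N ≤ 8 * M → 0 < |τ| →
      |τ| ≤ (M : ℝ) ^ A → ‖zs θ τ M N‖ ≤ C * (M / |τ| + (M : ℝ) ^ (1 - c)))
    (u : ℝ) (M y : ℕ) (hu : 1 ≤ |u|) (hM : 4 * q ≤ M) (hy1 : M ≤ y) (hy2 : y ≤ 2 * M)
    (huM : |u| ≤ ((M : ℝ) / (2 * q)) ^ A) :
    ‖∑ n ∈ Ioc M y, ch χ n * tw u n‖ ≤ q * (C * (M / |u| + (M : ℝ) ^ (1 - c))) := by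
  have hq : 0 < q := Nat.pos_of_ne_zero (NeZero.ne q)
  have hqR : (0 : ℝ) < q := by exact_mod_cast hq
  rw [← Finset.sum_fiberwise_of_maps_to (s := Ioc M y) (t := range q) (g := fun n => n % q)
    (fun n _ => Finset.mem_range.2 (Nat.mod_lt n hq))]
  refine (norm_sum_le _ _).trans ?_
  have hmain : ∀ a ∈ range q, ‖∑ n ∈ (Ioc M y).filter (fun n => n % q = a), ch χ n * tw u n‖ ≤
      C * (M / |u| + (M : ℝ) ^ (1 - c)) := by
    intro a ha
    rw [Finset.mem_range] at ha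
    set M' : ℕ := (M - a) / q with hM'
    set Y' : ℕ := (y - a) / q with hY'
    have hid : ∑ n ∈ (Ioc M y).filter (fun n => n % q = a), ch χ n * tw u n =
        (χ (a : ZMod q) * tw u q) * zs (a / q) u M' Y' := by
      unfold zs
      rw [Finset.mul_sum]
      symm
      refine Finset.sum_bij (fun m _ => q * m + a) ?_ ?_ ?_ ?_
      · intro m hm
        rw [Finset.mem_Ioc, hM', hY', Nat.div_lt_iff_lt_mul hq, Nat.le_div_iff_mul_le hq] at hm
        rw [Finset.mem_filter, Finset.mem_Ioc]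
        refine ⟨?_, ?_⟩
        · rw [mul_comm q m]
          omega
        · rw [Nat.mul_add_mod, Nat.mod_eq_of_lt ha]
      · intro m _ m' _ h
        have h1 : q * m = q * m' := by omega
        exact Nat.eq_of_mul_eq_mul_left hq h1
      · intro n hn
        rw [Finset.mem_filter, Finset.mem_Ioc] at hn
        have h1 := Nat.div_add_mod n q
        rw [hn.2] at h1
        refine ⟨n / q, ?_, h1⟩
        rw [Finset.mem_Ioc, hM', hY', Nat.div_lt_iff_lt_mul hq, Nat.le_div_iff_mul_le hq]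
        rw [mul_comm] at h1
        omega
      · intro m hm
        have hm0 : 0 < m := lt_of_le_of_lt (Nat.zero_le _) (Finset.mem_Ioc.1 hm).1
        have hmR : (0 : ℝ) < m := by exact_mod_cast hm0
        have hne : q * m + a ≠ 0 := by
          have := Nat.mul_pos hq hm0
          omega
        unfold ch
        rw [if_neg hne]
        have h1 : (((q * m + a : ℕ)) : ZMod q) = (a : ZMod q) := by
          push_cast
          rw [ZMod.natCast_self, zero_mul, zero_add]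
        rw [h1]
        have h2 : tw u (q * m + a) = tw u q *
            Complex.exp (-((u * Real.log (m + (a : ℝ) / q) : ℝ) : ℂ) * Complex.I) := by
          unfold tw
          rw [← Complex.exp_add]
          congr 1
          have h3 : Real.log ((q * m + a : ℕ) : ℝ) = Real.log q + Real.log (m + (a : ℝ) / q) := by
            rw [← Real.log_mul hqR.ne' (by positivity)]
            congr 1
            push_cast
            field_simp
          rw [h3]
          push_cast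
          ring
        rw [h2]
        ring
    rw [hid, norm_mul, norm_mul, tw_norm, mul_one]
    have hMa : a ≤ M := by omega
    have hd1 : q * M' ≤ M - a := Nat.mul_div_le (M - a) q
    have hd2 : M - a < q * (M' + 1) := by
      have := Nat.lt_mul_div_succ (M - a) hq
      exact this
    have hd3 : q * Y' ≤ y - a := Nat.mul_div_le (y - a) q
    have hM'3 : 3 ≤ M' := by
      rw [hM', Nat.le_div_iff_mul_le hq]
      omega
    have hMM' : M' ≤ M := by
      have : M' ≤ M - a := Nat.div_le_self _ _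
      omega
    have hM'Y' : M' ≤ Y' := Nat.div_le_div_right (by omega)
    have hY8 : Y' ≤ 8 * M' := by
      by_contra hcon
      rw [not_le] at hcon
      have h1 : q * (8 * M' + 1) ≤ q * Y' := Nat.mul_le_mul_left q (by omega)
      have h2 : q * (8 * M' + 1) < 2 * (q * (M' + 1)) + q := by omega
      have h3 : q * (8 * M' + 1) = 8 * (q * M') + q := by ring
      have h4 : 2 * (q * (M' + 1)) = 2 * (q * M') + 2 * q := by ring
      have h5 : q * 3 ≤ q * M' := Nat.mul_le_mul_left q hM'3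
      omega
    have hhalf : (M : ℝ) / (2 * q) ≤ M' := by
      rw [div_le_iff₀ (by positivity)]
      have h1 : M ≤ M' * (2 * q) := by
        have h4 : q * (M' + 1) = q * M' + q := by ring
        have h5 : q * 3 ≤ q * M' := Nat.mul_le_mul_left q hM'3
        have h6 : M' * (2 * q) = 2 * (q * M') := by ring
        omega
      exact_mod_cast h1
    have huM' : |u| ≤ (M' : ℝ) ^ A := huM.trans (Real.rpow_le_rpow (by positivity) hhalf hA)
    have hzs := hz (a / q) u M' Y' (by positivity) (by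
      rw [div_le_one hqR]
      exact_mod_cast ha.le) (by omega) hM'Y' hY8 (by linarith) huM'
    have hMMR : (M' : ℝ) ≤ M := by exact_mod_cast hMM'
    have hupos : 0 < |u| := by linarith
    calc ‖χ (a : ZMod q)‖ * ‖zs (a / q) u M' Y'‖ ≤ 1 * (C * (M' / |u| + (M' : ℝ) ^ (1 - c))) :=
          mul_le_mul (χ.norm_le_one _) hzs (norm_nonneg _) zero_le_one
      _ = C * (M' / |u| + (M' : ℝ) ^ (1 - c)) := one_mul _
      _ ≤ C * (M / |u| + (M : ℝ) ^ (1 - c)) := by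
          refine mul_le_mul_of_nonneg_left (add_le_add ?_ ?_) hC.le
          · exact div_le_div_of_nonneg_right hMMR hupos.le
          · exact Real.rpow_le_rpow (Nat.cast_nonneg _) hMMR (by linarith)
  refine (Finset.sum_le_sum hmain).trans ?_
  rw [Finset.sum_const, Finset.card_range, nsmul_eq_mul]

private theorem lup_w_anti (σ : ℝ) (hσ : 0 < σ) (M : ℕ) : ∀ n : ℕ, M < n →
    (((n + 1 : ℕ)) : ℝ) ^ (-(1 + σ)) ≤ (n : ℝ) ^ (-(1 + σ)) := by
  intro n hn
  have hnR : (0 : ℝ) < n := by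
    have : 0 < n := by omega
    exact_mod_cast this
  refine Real.rpow_le_rpow_of_nonpos hnR ?_ (by linarith)
  push_cast
  linarith

/-- one dyadic block -/
private theorem lup_block {q : ℕ} [NeZero q] (χ : DirichletCharacter ℂ q) (A C c : ℝ) (hC : 0 < C)
    (hc1 : c ≤ 1) (hA : 0 ≤ A)
    (hz : ∀ (θ τ : ℝ) (M N : ℕ), 0 ≤ θ → θ ≤ 1 → 1 ≤ M → M ≤ N → N ≤ 8 * M → 0 < |τ| →
      |τ| ≤ (M : ℝ) ^ A → ‖zs θ τ M N‖ ≤ C * (M / |τ| + (M : ℝ) ^ (1 - c)))
    (u σ : ℝ) (hσ : 0 < σ) (M : ℕ) (hu : 1 ≤ |u|) (hM : 4 * q ≤ M)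
    (huM : |u| ≤ ((M : ℝ) / (2 * q)) ^ A) :
    ‖∑ n ∈ Ioc M (2 * M), ch χ n * (((n : ℝ) ^ (-(1 + σ)) : ℝ) : ℂ) * tw u n‖ ≤
      q * C * ((M : ℝ) ^ (-σ) / |u| + (M : ℝ) ^ (-c)) := by
  have hq : 0 < q := Nat.pos_of_ne_zero (NeZero.ne q)
  have hqR : (0 : ℝ) < q := by exact_mod_cast hq
  have hMpos : 0 < M := by omega
  have hMR : (1 : ℝ) ≤ M := by exact_mod_cast hMpos
  have hMR0 : (0 : ℝ) < M := by linarith
  have hupos : 0 < |u| := by linarith
  have h1 : ∑ n ∈ Ioc M (2 * M), ch χ n * (((n : ℝ) ^ (-(1 + σ)) : ℝ) : ℂ) * tw u n =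
      ∑ n ∈ Ioc M (2 * M), (((n : ℝ) ^ (-(1 + σ)) : ℝ) : ℂ) * (ch χ n * tw u n) :=
    Finset.sum_congr rfl fun n _ => by ring
  rw [h1]
  have h2 := lup_abel_Ioc (fun n => ch χ n * tw u n) (fun n => (n : ℝ) ^ (-(1 + σ)))
    (q * (C * (M / |u| + (M : ℝ) ^ (1 - c)))) M (2 * M) (by omega)
    (fun n _ => Real.rpow_nonneg (Nat.cast_nonneg n) _) (lup_w_anti σ hσ M)
    (fun y hy1 hy2 => lup_class χ A C c hC hc1 hA hz u M y hu hM hy1 hy2 huM)
  refine h2.trans ?_
  have h3 : (((M + 1 : ℕ)) : ℝ) ^ (-(1 + σ)) ≤ (M : ℝ) ^ (-(1 + σ)) := by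
    refine Real.rpow_le_rpow_of_nonpos hMR0 ?_ (by linarith)
    push_cast
    linarith
  have h4 : (M : ℝ) ^ (-(1 + σ)) * (M : ℝ) = (M : ℝ) ^ (-σ) := by
    have h5 : (M : ℝ) ^ (-(1 + σ)) * (M : ℝ) ^ (1 : ℝ) = (M : ℝ) ^ (-σ) := by
      rw [← Real.rpow_add hMR0]
      congr 1
      ring
    rw [Real.rpow_one] at h5
    exact h5
  have h6 : (M : ℝ) ^ (-(1 + σ)) * (M : ℝ) ^ (1 - c) ≤ (M : ℝ) ^ (-c) := by
    rw [← Real.rpow_add hMR0]
    exact Real.rpow_le_rpow_of_exponent_le hMR (by linarith)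
  calc (((M + 1 : ℕ)) : ℝ) ^ (-(1 + σ)) * (q * (C * (M / |u| + (M : ℝ) ^ (1 - c))))
      ≤ (M : ℝ) ^ (-(1 + σ)) * (q * (C * (M / |u| + (M : ℝ) ^ (1 - c)))) :=
        mul_le_mul_of_nonneg_right h3 (by positivity)
    _ = q * C * (((M : ℝ) ^ (-(1 + σ)) * M) / |u| + (M : ℝ) ^ (-(1 + σ)) * (M : ℝ) ^ (1 - c)) := by ring
    _ ≤ q * C * ((M : ℝ) ^ (-σ) / |u| + (M : ℝ) ^ (-c)) := by
        rw [h4]
        refine mul_le_mul_of_nonneg_left ?_ (by positivity)
        linarith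

private theorem lup_geo (r : ℝ) (hr0 : 0 ≤ r) (hr1 : r < 1) (n : ℕ) :
    ∑ k ∈ range n, r ^ k ≤ 1 / (1 - r) := by
  have h := geom_sum_mul_neg r n
  rw [le_div_iff₀ (by linarith), h]
  have : 0 ≤ r ^ n := pow_nonneg hr0 n
  linarith

private theorem lup_pow_two (N₁ k : ℕ) (hN : 1 ≤ N₁) (s : ℝ) (hs : 0 ≤ s) :
    (((2 ^ k * N₁ : ℕ)) : ℝ) ^ (-s) ≤ ((2 : ℝ) ^ (-s)) ^ k := by
  have hNR : (1 : ℝ) ≤ N₁ := by exact_mod_cast hN
  have h1 : ((2 : ℝ) ^ (-s)) ^ k = ((2 : ℝ) ^ k) ^ (-s) := by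
    rw [← Real.rpow_natCast, ← Real.rpow_mul (by norm_num), mul_comm, Real.rpow_mul (by norm_num),
      Real.rpow_natCast]
  rw [h1]
  refine Real.rpow_le_rpow_of_nonpos (by positivity) ?_ (by linarith)
  push_cast
  have h2 : (0 : ℝ) < 2 ^ k := by positivity
  nlinarith

/-- the sum up to `2^k N₁` -/
private theorem lup_partial {q : ℕ} [NeZero q] (χ : DirichletCharacter ℂ q) (A C c : ℝ) (hC : 0 < C)
    (hc : 0 < c) (hc1 : c ≤ 1) (hA : 0 ≤ A)
    (hz : ∀ (θ τ : ℝ) (M N : ℕ), 0 ≤ θ → θ ≤ 1 → 1 ≤ M → M ≤ N → N ≤ 8 * M → 0 < |τ| →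
      |τ| ≤ (M : ℝ) ^ A → ‖zs θ τ M N‖ ≤ C * (M / |τ| + (M : ℝ) ^ (1 - c)))
    (u σ : ℝ) (hσ : 0 < σ) (hσ1 : σ ≤ 1) (N₁ : ℕ) (hu : 1 ≤ |u|) (hM : 4 * q ≤ N₁)
    (huM : |u| ≤ ((N₁ : ℝ) / (2 * q)) ^ A) (k : ℕ) :
    ‖∑ n ∈ Icc 1 (2 ^ k * N₁), ch χ n * (((n : ℝ) ^ (-(1 + σ)) : ℝ) : ℂ) * tw u n‖ ≤
      (1 + Real.log N₁) + q * C * ((4 / σ) / |u| + 1 / (1 - (2 : ℝ) ^ (-c))) := by
  have hq : 0 < q := Nat.pos_of_ne_zero (NeZero.ne q)
  have hqR : (0 : ℝ) < q := by exact_mod_cast hq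
  have hNpos : 1 ≤ N₁ := by omega
  have hNR : (1 : ℝ) ≤ N₁ := by exact_mod_cast hNpos
  have hupos : 0 < |u| := by linarith
  have hstep : ∀ k : ℕ, ‖∑ n ∈ Icc 1 (2 ^ k * N₁), ch χ n * (((n : ℝ) ^ (-(1 + σ)) : ℝ) : ℂ) * tw u n‖ ≤
      (1 + Real.log N₁) + ∑ j ∈ range k, q * C * (((2 : ℝ) ^ (-σ)) ^ j / |u| + ((2 : ℝ) ^ (-c)) ^ j) := by
    intro k
    induction k with
    | zero =>
      rw [Finset.sum_range_zero, add_zero, pow_zero, one_mul]
      refine (norm_sum_le _ _).trans ?_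
      have h1 : ∀ n ∈ Icc 1 N₁, ‖ch χ n * (((n : ℝ) ^ (-(1 + σ)) : ℝ) : ℂ) * tw u n‖ ≤ ((n : ℝ))⁻¹ := by
        intro n hn
        rw [Finset.mem_Icc] at hn
        have hnR : (1 : ℝ) ≤ n := by exact_mod_cast hn.1
        rw [norm_mul, norm_mul, tw_norm, mul_one, Complex.norm_real,
          Real.norm_of_nonneg (Real.rpow_nonneg (Nat.cast_nonneg n) _)]
        calc ‖ch χ n‖ * (n : ℝ) ^ (-(1 + σ)) ≤ 1 * (n : ℝ) ^ (-(1 : ℝ)) := by
              refine mul_le_mul ((ch_CM χ).bdd n) ?_ (Real.rpow_nonneg (Nat.cast_nonneg n) _) zero_le_one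
              exact Real.rpow_le_rpow_of_exponent_le hnR (by linarith)
          _ = ((n : ℝ))⁻¹ := by rw [one_mul, Real.rpow_neg_one]
      refine (Finset.sum_le_sum h1).trans ?_
      have h2 := harmonic_le_one_add_log N₁
      rw [harmonic_eq_sum_Icc] at h2
      push_cast at h2
      exact h2
    | succ k ih =>
      rw [Finset.sum_range_succ]
      have hMk : 4 * q ≤ 2 ^ k * N₁ := by
        have : 1 * N₁ ≤ 2 ^ k * N₁ := Nat.mul_le_mul_right N₁ (Nat.one_le_two_pow)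
        omega
      have huMk : |u| ≤ (((2 ^ k * N₁ : ℕ) : ℝ) / (2 * q)) ^ A := by
        refine huM.trans (Real.rpow_le_rpow (by positivity) ?_ hA)
        refine div_le_div_of_nonneg_right ?_ (by positivity)
        have : 1 * N₁ ≤ 2 ^ k * N₁ := Nat.mul_le_mul_right N₁ (Nat.one_le_two_pow)
        rw [one_mul] at this
        exact_mod_cast this
      have hb := lup_block χ A C c hC hc1 hA hz u σ hσ (2 ^ k * N₁) hu hMk huMk
      have hsplit : Icc 1 (2 ^ (k + 1) * N₁) = Icc 1 (2 ^ k * N₁) ∪ Ioc (2 ^ k * N₁) (2 * (2 ^ k * N₁)) := by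
        ext n
        rw [Finset.mem_union, Finset.mem_Icc, Finset.mem_Icc, Finset.mem_Ioc]
        have : 2 ^ (k + 1) * N₁ = 2 * (2 ^ k * N₁) := by ring
        omega
      have hdisj : Disjoint (Icc 1 (2 ^ k * N₁)) (Ioc (2 ^ k * N₁) (2 * (2 ^ k * N₁))) := by
        rw [Finset.disjoint_left]
        intro n hn hn'
        rw [Finset.mem_Icc] at hn
        rw [Finset.mem_Ioc] at hn'
        omega
      rw [hsplit, Finset.sum_union hdisj]
      refine (norm_add_le _ _).trans ?_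
      have h3 : ((2 ^ k * N₁ : ℕ) : ℝ) ^ (-σ) / |u| + ((2 ^ k * N₁ : ℕ) : ℝ) ^ (-c) ≤
          ((2 : ℝ) ^ (-σ)) ^ k / |u| + ((2 : ℝ) ^ (-c)) ^ k := by
        refine add_le_add (div_le_div_of_nonneg_right (lup_pow_two N₁ k hNpos σ hσ.le) hupos.le)
          (lup_pow_two N₁ k hNpos c hc.le)
      have h4 := mul_le_mul_of_nonneg_left h3 (show 0 ≤ (q : ℝ) * C by positivity)
      linarith
  refine (hstep k).trans ?_
  refine add_le_add le_rfl ?_
  rw [← Finset.mul_sum, Finset.sum_add_distrib, ← Finset.sum_div]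
  refine mul_le_mul_of_nonneg_left ?_ (by positivity)
  have hrσ : (2 : ℝ) ^ (-σ) ≤ 1 - σ / 4 := by
    have hl2 : 1 / 2 < Real.log 2 := by
      have := Real.log_two_gt_d9
      linarith
    have hl2' : Real.log 2 < 1 := by
      have := Real.log_two_lt_d9
      linarith
    rw [Real.rpow_neg (by norm_num), Real.rpow_def_of_pos (by norm_num)]
    have h5 : 1 + Real.log 2 * σ ≤ Real.exp (Real.log 2 * σ) := by
      have := Real.add_one_le_exp (Real.log 2 * σ)
      linarith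
    have h6 : 0 < 1 + Real.log 2 * σ := by positivity
    have h7 : (Real.exp (Real.log 2 * σ))⁻¹ ≤ (1 + Real.log 2 * σ)⁻¹ := inv_anti₀ h6 h5
    refine h7.trans ?_
    rw [inv_le_comm₀ h6 (by linarith), ← one_div, div_le_iff₀ (by linarith)]
    nlinarith [mul_pos hσ (show 0 < Real.log 2 by linarith)]
  have h8 := lup_geo ((2 : ℝ) ^ (-σ)) (by positivity) (by linarith) k
  have h9 : 1 / (1 - (2 : ℝ) ^ (-σ)) ≤ 4 / σ := by
    rw [div_le_div_iff₀ (by linarith) hσ]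
    linarith
  have hrc : (2 : ℝ) ^ (-c) < 1 := Real.rpow_lt_one_of_one_lt_of_neg (by norm_num) (by linarith)
  have h10 := lup_geo ((2 : ℝ) ^ (-c)) (by positivity) hrc k
  refine add_le_add (div_le_div_of_nonneg_right (h8.trans h9) hupos.le) h10

/-- from the partial sums to the series -/
private theorem lup_limit {q : ℕ} [NeZero q] (χ : DirichletCharacter ℂ q) (u σ B : ℝ) (hσ : 0 < σ)
    (N₁ : ℕ) (hN : 1 ≤ N₁)
    (h : ∀ k : ℕ, ‖∑ n ∈ Icc 1 (2 ^ k * N₁), ch χ n * (((n : ℝ) ^ (-(1 + σ)) : ℝ) : ℂ) * tw u n‖ ≤ B) :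
    ‖Gs (ch χ) σ u‖ ≤ B := by
  have hsum : Summable (fun n : ℕ => ch χ n * (((n : ℝ) ^ (-(1 + σ)) : ℝ) : ℂ) * tw u n) := by
    refine Summable.of_norm_bounded (g := fun n : ℕ => (n : ℝ) ^ (-(1 + σ))) ?_ ?_
    · rw [Real.summable_nat_rpow]
      linarith
    · intro n
      rw [norm_mul, norm_mul, tw_norm, mul_one, Complex.norm_real,
        Real.norm_of_nonneg (Real.rpow_nonneg (Nat.cast_nonneg n) _)]
      exact mul_le_of_le_one_left (Real.rpow_nonneg (Nat.cast_nonneg n) _) ((ch_CM χ).bdd n)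
  have hlim := hsum.hasSum.tendsto_sum_nat
  have hsub : Tendsto (fun k : ℕ => 2 ^ k * N₁ + 1) atTop atTop := by
    refine tendsto_atTop_mono (f := fun k : ℕ => k) ?_ tendsto_id
    intro k
    have h1 : k < 2 ^ k := Nat.lt_two_pow_self
    have h2 : 2 ^ k * 1 ≤ 2 ^ k * N₁ := Nat.mul_le_mul_left _ hN
    omega
  have hlim2 := (hlim.comp hsub).norm
  refine le_of_tendsto hlim2 (Filter.Eventually.of_forall ?_)
  intro k
  have h3 : ∑ n ∈ range (2 ^ k * N₁ + 1), ch χ n * (((n : ℝ) ^ (-(1 + σ)) : ℝ) : ℂ) * tw u n =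
      ∑ n ∈ Icc 1 (2 ^ k * N₁), ch χ n * (((n : ℝ) ^ (-(1 + σ)) : ℝ) : ℂ) * tw u n := by
    symm
    refine Finset.sum_subset ?_ ?_
    · intro n hn
      rw [Finset.mem_Icc] at hn
      rw [Finset.mem_range]
      omega
    · intro n hn hn'
      rw [Finset.mem_range] at hn
      rw [Finset.mem_Icc] at hn'
      have : n = 0 := by omega
      rw [this, (ch_CM χ).zero, zero_mul, zero_mul]
  have h4 := h k
  rw [← h3] at h4
  exact h4

/-- `σ = 1/log x`. For `|u| ≤ U₀(η)`: `L_upper`. For `U₀ ≤ |u| ≤ 2x²`: let `A = A(η)` be large. `∑_{n ≤ N₁} n^{-1-σ} ≤ 1 + log N₁` for `N₁ = (q+2)|u|^{1/A} + C`; dyadic blocks `(N, 2N]`, `N ≥ N₁`: split into classes mod `q`, `n = qm + a`, `n^{-iu} = q^{-iu} (m + a/q)^{-iu}`, `zs_all`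
with exponent `2A` for `M ≈ N/q`, `M/|u| + M^{1-c}`, partial summation with `n^{-1-σ}`: the block is `≤ C N^{-σ} (1/|u| + N^{-c})`. Sum over the dyadic blocks: `≤ C (log x/|u| + 1)`. Total `≤ (2 log x + 2)/A + C_A + C_A log x/|u| ≤ η log x` for `A ≥ 4/η`, `|u| ≥ U₀`, `x ≥ x₀`. -/
theorem lup {q : ℕ} [NeZero q] (χ : DirichletCharacter ℂ q) (η : ℝ) (hη : 0 < η) : ∃ x₀ : ℝ, 2 ≤ x₀ ∧
    ∀ x u : ℝ, x₀ ≤ x → 1 ≤ |u| → |u| ≤ 2 * x ^ 2 → ‖Gs (ch χ) (1 / Real.log x) u‖ ≤ η * Real.log x := by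
  have hq : 0 < q := Nat.pos_of_ne_zero (NeZero.ne q)
  have hqR : (1 : ℝ) ≤ q := by exact_mod_cast hq
  have hqpos : (0 : ℝ) < q := by linarith
  set A : ℝ := 1 + 8 / η with hA
  have hA1 : 1 ≤ A := by
    rw [hA]
    have : 0 < 8 / η := by positivity
    linarith
  have hApos : 0 < A := by linarith
  obtain ⟨C, c, hC, hc, hc1, hz⟩ := zs_all A hA1
  set U₀ : ℝ := 16 * q * C / η with hU₀
  obtain ⟨CU, hCU, hup⟩ := L_upper χ U₀
  set D : ℝ := 1 / (1 - (2 : ℝ) ^ (-c)) with hD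
  have hrc : (2 : ℝ) ^ (-c) < 1 := Real.rpow_lt_one_of_one_lt_of_neg (by norm_num) (by linarith)
  have hDpos : 0 < D := by
    rw [hD]
    exact one_div_pos.2 (by linarith)
  set L₀ : ℝ := 1 + CU / η + 4 / η * (2 + Real.log (5 * q) + q * C * D) with hL₀
  have hlog5q : 0 ≤ Real.log (5 * q) := Real.log_nonneg (by linarith)
  have hL₀1 : 1 ≤ L₀ := by
    rw [hL₀]
    have h1 : 0 ≤ CU / η := by positivity
    have h2 : 0 ≤ 4 / η * (2 + Real.log (5 * q) + q * C * D) := by positivity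
    linarith
  refine ⟨Real.exp L₀ + 2, by linarith [Real.exp_pos L₀], ?_⟩
  intro x u hx hu1 hu2
  have hxpos : 0 < x := by linarith [Real.exp_pos L₀]
  have hlogx : L₀ ≤ Real.log x := by
    rw [Real.le_log_iff_exp_le hxpos]
    linarith
  set L : ℝ := Real.log x with hL
  have hLpos : 0 < L := by linarith
  set σ : ℝ := 1 / L with hσdef
  have hσ : 0 < σ := by positivity
  have hσ1 : σ ≤ 1 := by
    rw [hσdef, div_le_one hLpos]
    linarith
  have hCUη : CU ≤ η * L := by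
    have h1 : CU / η ≤ L := by
      have h2 : 0 ≤ 4 / η * (2 + Real.log (5 * q) + q * C * D) := by positivity
      linarith
    rw [div_le_iff₀ hη] at h1
    linarith
  rcases le_or_gt |u| U₀ with hcase | hcase
  · exact (hup σ u hσ (by linarith) hu1 hcase).trans hCUη
  · -- the main case
    have hupos : 0 < |u| := by linarith
    have hroot : 1 ≤ |u| ^ (1 / A) := Real.one_le_rpow hu1 (by positivity)
    set N₁ : ℕ := ⌈4 * q * |u| ^ (1 / A)⌉₊ with hN₁
    have hN₁ge : 4 * q * |u| ^ (1 / A) ≤ N₁ := Nat.le_ceil _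
    have hN₁le : (N₁ : ℝ) ≤ 5 * q * |u| ^ (1 / A) := by
      have h1 : (N₁ : ℝ) < 4 * q * |u| ^ (1 / A) + 1 := Nat.ceil_lt_add_one (by positivity)
      nlinarith
    have hN4q : 4 * q ≤ N₁ := by
      have h1 : (4 : ℝ) * q ≤ N₁ := by nlinarith
      exact_mod_cast h1
    have huN : |u| ≤ ((N₁ : ℝ) / (2 * q)) ^ A := by
      have h1 : |u| ^ (1 / A) ≤ (N₁ : ℝ) / (2 * q) := by
        rw [le_div_iff₀ (by positivity)]
        nlinarith
      calc |u| = (|u| ^ (1 / A)) ^ A := by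
            rw [← Real.rpow_mul hupos.le, one_div, inv_mul_cancel₀ hApos.ne', Real.rpow_one]
        _ ≤ _ := Real.rpow_le_rpow (by positivity) h1 hApos.le
    have hpart := lup_partial χ A C c hC hc hc1 hApos.le hz u σ hσ hσ1 N₁ hu1 hN4q huN
    refine (lup_limit χ u σ _ hσ N₁ (by omega) hpart).trans ?_
    have hN₁pos : (0 : ℝ) < N₁ := by
      have : 0 < N₁ := by omega
      exact_mod_cast this
    have hlogN : Real.log N₁ ≤ Real.log (5 * q) + 1 / A * (1 + 2 * L) := by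
      have h1 : Real.log N₁ ≤ Real.log (5 * q * |u| ^ (1 / A)) := Real.log_le_log hN₁pos hN₁le
      rw [Real.log_mul (by positivity) (by positivity), Real.log_rpow hupos] at h1
      have h2 : Real.log |u| ≤ 1 + 2 * L := by
        have h3 : Real.log |u| ≤ Real.log (2 * x ^ 2) := Real.log_le_log hupos hu2
        rw [Real.log_mul (by norm_num) (by positivity), Real.log_pow] at h3
        have h4 : Real.log 2 < 1 := by
          have := Real.log_two_lt_d9
          linarith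
        push_cast at h3
        linarith
      have h5 : 1 / A * Real.log |u| ≤ 1 / A * (1 + 2 * L) :=
        mul_le_mul_of_nonneg_left h2 (by positivity)
      linarith
    have hA2 : 1 / A ≤ η / 8 := by
      rw [div_le_div_iff₀ hApos (by norm_num)]
      have h1 : η * A = η + 8 := by
        rw [hA]
        field_simp
      linarith
    have hA3 : 1 / A ≤ 1 := by
      rw [div_le_one hApos]
      exact hA1
    have hσinv : 4 / σ = 4 * L := by
      rw [hσdef]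
      field_simp
    have hlast : q * C * ((4 / σ) / |u|) ≤ η / 4 * L := by
      rw [hσinv]
      have h1 : 16 * q * C ≤ η * |u| := by
        rw [hU₀, div_lt_iff₀ hη] at hcase
        linarith
      have h2 : q * C * (4 * L / |u|) = (16 * q * C) * L / 4 / |u| := by ring
      rw [h2, div_le_iff₀ hupos]
      nlinarith
    have hconst : 2 + Real.log (5 * q) + q * C * D ≤ η / 4 * L := by
      have h1 : 4 / η * (2 + Real.log (5 * q) + q * C * D) ≤ L := by
        have h2 : 0 ≤ CU / η := by positivity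
        linarith
      have h3 : 4 / η * (2 + Real.log (5 * q) + q * C * D) = (2 + Real.log (5 * q) + q * C * D) / (η / 4) := by
        field_simp
      rw [h3, div_le_iff₀ (by positivity)] at h1
      linarith
    have hmid : 1 / A * (1 + 2 * L) ≤ 1 + η / 4 * L := by
      have h1 : 1 / A * (2 * L) ≤ η / 8 * (2 * L) := mul_le_mul_of_nonneg_right hA2 (by positivity)
      have h2 : 1 / A * (1 + 2 * L) = 1 / A + 1 / A * (2 * L) := by ring
      rw [h2]
      linarith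
    have hexp : (q : ℝ) * C * ((4 / σ) / |u| + D) = q * C * ((4 / σ) / |u|) + q * C * D := by ring
    rw [hexp]
    have hηL : 0 < η * L := by positivity
    linarith

end Pool.Agent.Mrd
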