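import Pool.Agent.Mrd.MainU
import Pool.Agent.Mrd.Add

/-!
Mrd MR: the qualitative Matomaki-Radziwill theorem.
-/

set_option autoImplicit false

namespace Pool.Agent.Mrd

open Finset MeasureTheory Filter Topology

private theorem MR_block (f : ℕ → ℂ) (hf : CM f) (hN : NP f) (δ : ℝ) (hδ : 0 < δ) :
    ∃ H₁ X₁ : ℝ, ∀ (H : ℕ) (X : ℝ), H₁ ≤ H → X₁ ≤ X → 10 * (H : ℝ) ≤ X →
      ∑ m ∈ Ioc ⌊3 * X / 2⌋₊ ⌊3 * X⌋₊, ‖∑ n ∈ Ioc m (m + H), f n‖ ≤ δ * H * X := by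
  obtain ⟨C, hC, hadd⟩ := addint
  have hκ : 0 < δ / (2 * C) := by positivity
  obtain ⟨Q, hQ, X₀, hmain⟩ := mainU f hf hN ((δ / (2 * C)) ^ 2 / 2) (by positivity)
  have hQ0 : 0 < Q := by linarith
  set h : ℝ := max 1 (2 * Q / (δ / (2 * C))) with hh
  have h1 : 1 ≤ h := le_max_left _ _
  have h0 : 0 < h := by linarith
  refine ⟨max h (2 * C * h / δ), max (max X₀ Q) 1, ?_⟩
  intro H X hH hX hHX
  have hX0 : X₀ ≤ X := (le_max_left _ _).trans ((le_max_left _ _).trans hX)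
  have hXQ : Q ≤ X := (le_max_right _ _).trans ((le_max_left _ _).trans hX)
  have hX1 : 1 ≤ X := (le_max_right _ _).trans hX
  have hXp : 0 < X := by linarith
  have hH1 : h ≤ H := (le_max_left _ _).trans hH
  have hH2 : 2 * C * h / δ ≤ H := (le_max_right _ _).trans hH
  have hHp : (0 : ℝ) < H := by linarith
  have hT1 : 1 ≤ X / Q := by
    rw [le_div_iff₀ hQ0]
    linarith
  have hT2 : X / Q ≤ X := div_le_self hXp.le hQ
  have hT0 : 0 < X / Q := by linarith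
  have hb := hadd f X (X / Q) h H hf.bdd hHX h1 hH1 hT1 hT2
  have hm := hmain X hX0
  have hr : X / (h * (X / Q)) = Q / h := by
    field_simp
  have hr2 : Q / h ≤ δ / (2 * C) / 2 := by
    rw [div_le_iff₀ h0]
    have h3 : 2 * Q / (δ / (2 * C)) ≤ h := le_max_right _ _
    rw [div_le_iff₀ hκ] at h3
    linarith
  have hr0 : 0 ≤ Q / h := by positivity
  have hs : Real.sqrt ((∫ t in (-(X / Q))..(X / Q), ‖Av f X t‖ ^ 2) + (X / (h * (X / Q))) ^ 2) ≤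
      δ / (2 * C) := by
    rw [hr]
    refine Real.sqrt_le_iff.2 ⟨hκ.le, ?_⟩
    have h4 : (Q / h) ^ 2 ≤ (δ / (2 * C) / 2) ^ 2 := pow_le_pow_left₀ hr0 hr2 2
    nlinarith
  have h5 : C * H * X * Real.sqrt ((∫ t in (-(X / Q))..(X / Q), ‖Av f X t‖ ^ 2) +
      (X / (h * (X / Q))) ^ 2) ≤ C * H * X * (δ / (2 * C)) :=
    mul_le_mul_of_nonneg_left hs (by positivity)
  have h6 : C * H * X * (δ / (2 * C)) = δ * H * X / 2 := by
    field_simp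
  have h7 : C * X * h ≤ δ * H * X / 2 := by
    rw [div_le_iff₀ hδ] at hH2
    nlinarith
  linarith

private theorem MR_dyadic (F : ℕ → ℝ) (D : ℝ) (N : ℕ) (J : ℕ)
    (hb : ∀ k < J, ∑ m ∈ Ioc ⌊(N : ℝ) / 2 ^ (k + 1)⌋₊ ⌊(N : ℝ) / 2 ^ k⌋₊, F m ≤
      D * ((N : ℝ) / (3 * 2 ^ k))) :
    ∑ m ∈ Ioc ⌊(N : ℝ) / 2 ^ J⌋₊ N, F m ≤ D * (2 * N / 3) * (1 - (1 / 2) ^ J) := by
  induction J with
  | zero => simp
  | succ J ih =>
    have h1 := ih (fun k hk => hb k (by omega))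
    have h2 := hb J (by omega)
    have h3 : ⌊(N : ℝ) / 2 ^ (J + 1)⌋₊ ≤ ⌊(N : ℝ) / 2 ^ J⌋₊ := by
      refine Nat.floor_mono ?_
      refine div_le_div_of_nonneg_left (Nat.cast_nonneg _) (by positivity) ?_
      exact pow_le_pow_right₀ (by norm_num) (by omega)
    have h4 : ⌊(N : ℝ) / 2 ^ J⌋₊ ≤ N := by
      refine Nat.floor_le_of_le ?_
      exact div_le_self (Nat.cast_nonneg _) (one_le_pow₀ (by norm_num))
    have h5 := Finset.sum_Ioc_consecutive F h3 h4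
    rw [← h5]
    have h6 : D * ((N : ℝ) / (3 * 2 ^ J)) = D * (2 * N / 3) * ((1 / 2) ^ J - (1 / 2) ^ (J + 1)) := by
      rw [pow_succ, one_div, inv_pow]
      field_simp
      ring
    rw [h6] at h2
    linarith

/-- `mainU` with `ε' ≪ ε²`, `T = X/Q`, `h = K'Q` with `K' ≫ 1/ε`: `X/(hT) = 1/K'`. `H₀ = h/ε'`. So the sum over `m ∈ (3X/2, 3X]` is `≤ ε'' H X` for `X ≥ X₀(H)`. Cover `(ηN, N]` by `O(log 1/η)` intervals `(M, 2M]`, `X = 2M/3` (up to floors); the `m ≤ ηN` trivially. -/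
theorem mr (f : ℕ → ℂ) (hf : CM f) (hN : NP f) (ε : ℝ) (hε : 0 < ε) : ∃ H₀ : ℕ, ∀ H : ℕ, H₀ ≤ H →
    ∃ N₀ : ℕ, ∀ N : ℕ, N₀ ≤ N → ∑ m ∈ range N, ‖∑ n ∈ Ioc m (m + H), f n‖ ≤ ε * N * H := by
  obtain ⟨H₁, X₁, hblock⟩ := MR_block f hf hN ε hε
  obtain ⟨J, hJ⟩ := exists_pow_lt_of_lt_one (show 0 < ε / 6 by positivity)
    (show (1 / 2 : ℝ) < 1 by norm_num)
  refine ⟨⌈H₁⌉₊, fun H hH => ?_⟩
  have hH1 : H₁ ≤ H := (Nat.le_ceil H₁).trans (by exact_mod_cast hH)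
  refine ⟨⌈3 * 2 ^ J * max (max X₁ (10 * H)) 0 + 6 / ε⌉₊, fun N hNN => ?_⟩
  have hN1 : 3 * 2 ^ J * max (max X₁ (10 * (H : ℝ))) 0 + 6 / ε ≤ N :=
    (Nat.le_ceil _).trans (by exact_mod_cast hNN)
  have hmax : 0 ≤ max (max X₁ (10 * (H : ℝ))) 0 := le_max_right _ _
  have hN2 : 3 * 2 ^ J * max (max X₁ (10 * (H : ℝ))) 0 ≤ N := by
    have : 0 < 6 / ε := by positivity
    linarith
  have hN3 : 6 / ε ≤ N := by
    have : 0 ≤ 3 * 2 ^ J * max (max X₁ (10 * (H : ℝ))) 0 := by positivity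
    linarith
  have hN4 : 1 ≤ ε * N / 6 := by
    rw [div_le_iff₀ hε] at hN3
    linarith
  have hN0 : (0 : ℝ) ≤ N := Nat.cast_nonneg _
  have hH0 : (0 : ℝ) ≤ H := Nat.cast_nonneg _
  set F : ℕ → ℝ := fun m => ‖∑ n ∈ Ioc m (m + H), f n‖ with hF
  have hF0 : ∀ m, 0 ≤ F m := fun m => norm_nonneg _
  have hF1 : ∀ m, F m ≤ H := by
    intro m
    refine (norm_sum_le _ _).trans ?_
    refine (Finset.sum_le_sum fun n _ => hf.bdd n).trans ?_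
    simp
  have hdy := MR_dyadic F (ε * H) N J (by
    intro k hk
    have hXk : max (max X₁ (10 * (H : ℝ))) 0 ≤ (N : ℝ) / (3 * 2 ^ k) := by
      rw [le_div_iff₀ (by positivity)]
      have h1 : (3 * 2 ^ k : ℝ) ≤ 3 * 2 ^ J := by
        have := pow_le_pow_right₀ (show (1 : ℝ) ≤ 2 by norm_num) hk.le
        linarith
      have h2 := mul_le_mul_of_nonneg_left h1 hmax
      linarith
    have h3 := hblock H ((N : ℝ) / (3 * 2 ^ k)) hH1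
      ((le_max_left _ _).trans ((le_max_left _ _).trans hXk))
      ((le_max_right _ _).trans ((le_max_left _ _).trans hXk))
    have h4 : 3 * ((N : ℝ) / (3 * 2 ^ k)) / 2 = (N : ℝ) / 2 ^ (k + 1) := by
      rw [pow_succ]
      field_simp
    have h5 : 3 * ((N : ℝ) / (3 * 2 ^ k)) = (N : ℝ) / 2 ^ k := by
      field_simp
    rw [h4, h5] at h3
    exact h3)
  have hg : (⌊(N : ℝ) / 2 ^ J⌋₊ : ℝ) ≤ N * (1 / 2) ^ J := by
    refine (Nat.floor_le (by positivity)).trans (le_of_eq ?_)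
    rw [one_div, inv_pow]
    rfl
  have hsub : range N ⊆ range (⌊(N : ℝ) / 2 ^ J⌋₊ + 1) ∪ Ioc ⌊(N : ℝ) / 2 ^ J⌋₊ N := by
    intro m hm
    rw [Finset.mem_union, Finset.mem_range, Finset.mem_Ioc]
    rw [Finset.mem_range] at hm
    omega
  have hs1 : ∑ m ∈ range N, F m ≤ ∑ m ∈ range (⌊(N : ℝ) / 2 ^ J⌋₊ + 1), F m +
      ∑ m ∈ Ioc ⌊(N : ℝ) / 2 ^ J⌋₊ N, F m := by
    refine (Finset.sum_le_sum_of_subset_of_nonneg hsub fun m _ _ => hF0 m).trans ?_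
    have h := Finset.sum_union_inter (s₁ := range (⌊(N : ℝ) / 2 ^ J⌋₊ + 1))
      (s₂ := Ioc ⌊(N : ℝ) / 2 ^ J⌋₊ N) (f := F)
    have h2 : 0 ≤ ∑ m ∈ range (⌊(N : ℝ) / 2 ^ J⌋₊ + 1) ∩ Ioc ⌊(N : ℝ) / 2 ^ J⌋₊ N, F m :=
      Finset.sum_nonneg fun m _ => hF0 m
    linarith
  have hs2 : ∑ m ∈ range (⌊(N : ℝ) / 2 ^ J⌋₊ + 1), F m ≤ (N * (1 / 2) ^ J + 1) * H := by
    refine (Finset.sum_le_sum fun m _ => hF1 m).trans ?_
    rw [Finset.sum_const, Finset.card_range, nsmul_eq_mul]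
    push_cast
    exact mul_le_mul_of_nonneg_right (by linarith) hH0
  have hJ2 : N * (1 / 2) ^ J * H ≤ ε / 6 * N * H := by
    have h1 := mul_le_mul_of_nonneg_left hJ.le (mul_nonneg hN0 hH0)
    linarith
  have hJ3 : (H : ℝ) ≤ ε * N / 6 * H := by
    have h1 := mul_le_mul_of_nonneg_right hN4 hH0
    linarith
  have hJ4 : ε * H * (2 * N / 3) * (1 - (1 / 2) ^ J) ≤ ε * H * (2 * N / 3) := by
    have h1 : (0 : ℝ) ≤ (1 / 2) ^ J := by positivity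
    have h2 : 0 ≤ ε * H * (2 * N / 3) := by positivity
    nlinarith
  have hfin : (N * (1 / 2) ^ J + 1) * H = N * (1 / 2) ^ J * H + (H : ℝ) := by ring
  rw [hfin] at hs2
  linarith

end Pool.Agent.Mrd
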