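import Pool.Agent.Mrd.Par
import Pool.Agent.Mrd.Mom

/-!
Mrd TJ: the set where level `j` is small and level `j-1` is not.
-/

set_option autoImplicit false

namespace Pool.Agent.Mrd

open Finset MeasureTheory Filter Topology

private theorem tj_ix {H p v : ℕ} (hH : 1 ≤ H) (hp : p.Prime) (h : ix H p = v) :
    Real.exp ((v : ℝ) / H) ≤ p ∧ (p : ℝ) ≤ Real.exp 1 * Real.exp ((v : ℝ) / H) := by
  have hp1 : (1 : ℝ) ≤ p := by exact_mod_cast hp.one_lt.le
  have hp0 : (0 : ℝ) < p := by linarith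
  have hH0 : (0 : ℝ) < H := by exact_mod_cast hH
  have hH1 : (1 : ℝ) ≤ H := by exact_mod_cast hH
  have hlog : 0 ≤ Real.log p := Real.log_nonneg hp1
  have h0 : 0 ≤ (H : ℝ) * Real.log p := by positivity
  unfold ix at h
  have h1 : (v : ℝ) ≤ H * Real.log p := by
    rw [← h]
    exact Nat.floor_le h0
  have h2 : (H : ℝ) * Real.log p < v + 1 := by
    rw [← h]
    exact Nat.lt_floor_add_one _
  constructor
  · rw [← Real.le_log_iff_exp_le hp0, div_le_iff₀ hH0]
    linarith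
  · rw [← Real.exp_add, ← Real.log_le_iff_le_exp hp0]
    have : Real.log p ≤ (v + 1) / H := by
      rw [le_div_iff₀ hH0]
      linarith
    refine this.trans ?_
    rw [add_div]
    have : 1 / (H : ℝ) ≤ 1 := by
      rw [div_le_one hH0]
      exact hH1
    linarith

private theorem tj_small_meas (f : ℕ → ℂ) (K j : ℕ) : MeasurableSet {t | Small f K j t} := by
  have h : {t | Small f K j t} = ⋂ v ∈ Ij K j,
      {t | ‖Qv f (Pj K j) (Hj K j) v t‖ ≤ Real.exp (-(aj j * ((v : ℝ) / Hj K j)))} := by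
    ext t
    simp [Small]
  rw [h]
  refine Finset.measurableSet_biInter _ fun v _ => ?_
  exact (isClosed_le (dp_continuous _ _).norm continuous_const).measurableSet

private theorem tj_Rv_cont (f : ℕ → ℂ) (X : ℝ) (H v : ℕ) : Continuous (Rv f X H v) := by
  have h : Rv f X H v = dp (Ioc ⌊X * Real.exp (-((v : ℝ) / H))⌋₊ ⌊4 * (X * Real.exp (-((v : ℝ) / H)))⌋₊)
      (fun n => f n / n) := by
    funext t
    rfl
  rw [h]
  exact dp_continuous _ _

private theorem tj_fac (C : ℝ) (hC : 0 < C) (l : ℕ) (hl : 0 < l) :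
    C * (2 * l).factorial * Real.exp 2 ^ l ≤ C * Real.exp (2 * l * (1 + Real.log (2 * l))) := by
  have h1 : ((2 * l).factorial : ℝ) ≤ (2 * (l : ℝ)) ^ (2 * l) := by
    have := Nat.factorial_le_pow (2 * l)
    exact_mod_cast this
  have h2 : (2 * (l : ℝ)) ^ (2 * l) = Real.exp (2 * l * Real.log (2 * l)) := by
    have h2k : (0 : ℝ) < 2 * l := by positivity
    rw [← Real.exp_log h2k, ← Real.exp_nat_mul, Real.exp_log h2k]
    push_cast
    ring_nf
  have h3 : Real.exp 2 ^ l = Real.exp (2 * l) := by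
    rw [← Real.exp_nat_mul]
    ring_nf
  calc C * (2 * l).factorial * Real.exp 2 ^ l ≤ C * (2 * (l : ℝ)) ^ (2 * l) * Real.exp 2 ^ l := by
        apply mul_le_mul_of_nonneg_right _ (by positivity)
        exact mul_le_mul_of_nonneg_left h1 hC.le
    _ = C * Real.exp (2 * l * (1 + Real.log (2 * l))) := by
        rw [h2, h3, mul_assoc, ← Real.exp_add]
        ring_nf

/-- For `t` in the set there is `v' ∈ I_{j-1}` with `‖Q_{v'}(t)‖ > e^{-a_{j-1} V'}`, `V' = v'/H_{j-1}`. So the integral is at most the sum over `v'` of integrals over the corresponding sets; there, with `V = v/H_j`, `l = ⌈V/V'⌉`,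
`‖∑_v Q_v R_v‖² ≤ |I_j| ∑_v e^{-2a_j V} ‖R_v‖² (‖Q_{v'}‖ e^{a_{j-1}V'})^{2l}`. `moment` with `z = e^{V'}`, `Q = {p ∈ P_{j-1} : ix = v'}` (`z ≤ p ≤ ez`), `N = Xe^{-V}`, `T = X ≤ N z^l`: `∫_{-X}^X ‖R_v‖²‖Q_{v'}‖^{2l} ≤ C (2l)! e^{2l} ≤ C e^{2l(1 + log 2l)}`.
`par_exp`: each pair contributes `≤ C e^{-2^{-j}V/16} ≤ C e^{-2^{-j}p_j/16}`; total `≤ C |I_{j-1}| |I_j|² e^{-2^{-j}p_j/16}`; `par_sum`; `LP ≥ 1`. -/
theorem tj : ∃ K₀ : ℕ, ∀ K : ℕ, K₀ ≤ K → ∀ (f : ℕ → ℂ) (X : ℝ) (j : ℕ), CM f → 1 ≤ X → 1 ≤ j →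
    ∫ t in (Set.Icc (-X) X ∩ {t | Small f K j t ∧ ¬ Small f K (j - 1) t}), ‖Fj f K j X t‖ ^ 2 ≤
      (1 / 2) ^ j / K := by
  classical
  obtain ⟨K1, hK1⟩ := par_LP
  obtain ⟨K2, hK2⟩ := par_exp
  obtain ⟨C, hC, hmom⟩ := moment
  obtain ⟨K3, hK3⟩ := par_sum C
  refine ⟨K1 + K2 + K3 + 1, ?_⟩
  intro K hK f X j hf hX hj
  have hKK1 : K1 ≤ K := by omega
  have hKK2 : K2 ≤ K := by omega
  have hKK3 : K3 ≤ K := by omega
  have hKpos : 1 ≤ K := by omega
  have hX0 : 0 < X := by linarith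
  have hLP : 1 ≤ LP (Pj K j) := by
    refine le_trans ?_ (hK1 K j hKK1)
    have h1 : (1 : ℝ) ≤ K := by exact_mod_cast hKpos
    have h2 : (1 : ℝ) ≤ 4 ^ j := one_le_pow₀ (by norm_num)
    nlinarith
  have hHj : ∀ i, 1 ≤ Hj K i := by
    intro i
    unfold Hj
    exact Nat.mul_pos hKpos (by positivity)
  have hHR : ∀ i, (0 : ℝ) < Hj K i := fun i => by exact_mod_cast hHj i
  have hV1 : ∀ i, ∀ v ∈ Ij K i, (pj K i : ℝ) ≤ (v : ℝ) / Hj K i := by
    intro i v hv
    unfold Ij at hv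
    rw [mem_Icc] at hv
    rw [le_div_iff₀ (hHR i)]
    have : ((Hj K i * pj K i : ℕ) : ℝ) ≤ v := by exact_mod_cast hv.1
    push_cast at this
    linarith
  have hV2 : ∀ i, ∀ v ∈ Ij K i, (v : ℝ) / Hj K i ≤ qj K i := by
    intro i v hv
    unfold Ij at hv
    rw [mem_Icc] at hv
    rw [div_le_iff₀ (hHR i)]
    have : (v : ℝ) ≤ ((Hj K i * qj K i : ℕ) : ℝ) := by exact_mod_cast hv.2
    push_cast at this
    linarith
  have hp1 : ∀ i, (1 : ℝ) ≤ pj K i := by
    intro i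
    unfold pj
    push_cast
    exact one_le_pow₀ (by norm_num)
  set I := Ij K j with hI
  set I' := Ij K (j - 1) with hI'
  set V : ℕ → ℝ := fun v => (v : ℝ) / Hj K j with hV
  set V' : ℕ → ℝ := fun v => (v : ℝ) / Hj K (j - 1) with hV'
  set a := aj j with ha
  set a' := aj (j - 1) with ha'
  set Q' : ℕ → ℝ → ℂ := fun v' t => Qv f (Pj K (j - 1)) (Hj K (j - 1)) v' t with hQ'
  set R : ℕ → ℝ → ℂ := fun v t => Rv f X (Hj K j) v t with hR
  have hQ'c : ∀ v', Continuous (Q' v') := fun v' => dp_continuous _ _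
  have hRc : ∀ v, Continuous (R v) := fun v => tj_Rv_cont f X (Hj K j) v
  have hFc : Continuous (fun t => Fj f K j X t) := by
    unfold Fj Fv
    refine continuous_const.mul (continuous_finsetSum _ fun v _ => ?_)
    exact (dp_continuous _ _).mul (tj_Rv_cont f X (Hj K j) v)
  set G : ℝ → ℝ := fun t => ∑ v' ∈ I', ∑ v ∈ I, ((I.card : ℝ) * Real.exp (-(2 * a * V v)) *
    Real.exp (2 * a' * (⌈V v / V' v'⌉₊ * V' v'))) *
      (‖Q' v' t‖ ^ (2 * ⌈V v / V' v'⌉₊) * ‖R v t‖ ^ 2) with hG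
  have hGc : Continuous G := by
    rw [hG]
    refine continuous_finsetSum _ fun v' _ => continuous_finsetSum _ fun v _ => ?_
    exact continuous_const.mul (((hQ'c v').norm.pow _).mul ((hRc v).norm.pow _))
  have hGnn : ∀ t, 0 ≤ G t := by
    intro t
    rw [hG]
    exact Finset.sum_nonneg fun v' _ => Finset.sum_nonneg fun v _ => by positivity
  -- pointwise bound
  have hpt : ∀ t, Small f K j t → ¬ Small f K (j - 1) t → ‖Fj f K j X t‖ ^ 2 ≤ G t := by
    intro t hs hns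
    unfold Small at hns
    push Not at hns
    obtain ⟨v', hv', hbig⟩ := hns
    have hone : 1 ≤ ‖Q' v' t‖ * Real.exp (a' * V' v') := by
      have h1 : Real.exp (-(a' * V' v')) ≤ ‖Q' v' t‖ := hbig.le
      calc (1 : ℝ) = Real.exp (-(a' * V' v')) * Real.exp (a' * V' v') := by
            rw [← Real.exp_add]; simp
        _ ≤ ‖Q' v' t‖ * Real.exp (a' * V' v') := mul_le_mul_of_nonneg_right h1 (Real.exp_pos _).le
    have hF1 : ‖Fj f K j X t‖ ≤ ∑ v ∈ I, ‖Qv f (Pj K j) (Hj K j) v t‖ * ‖R v t‖ := by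
      unfold Fj Fv
      rw [norm_mul, norm_inv, Complex.norm_real, Real.norm_eq_abs, abs_of_pos (by linarith)]
      have h1 : ‖∑ v ∈ Ij K j, Qv f (Pj K j) (Hj K j) v t * Rv f X (Hj K j) v t‖ ≤
          ∑ v ∈ I, ‖Qv f (Pj K j) (Hj K j) v t‖ * ‖R v t‖ := by
        refine (norm_sum_le _ _).trans (le_of_eq ?_)
        exact Finset.sum_congr rfl fun v _ => norm_mul _ _
      have h2 : (LP (Pj K j))⁻¹ ≤ 1 := inv_le_one_of_one_le₀ hLP
      calc (LP (Pj K j))⁻¹ * ‖∑ v ∈ Ij K j, Qv f (Pj K j) (Hj K j) v t * Rv f X (Hj K j) v t‖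
          ≤ 1 * ‖∑ v ∈ Ij K j, Qv f (Pj K j) (Hj K j) v t * Rv f X (Hj K j) v t‖ :=
            mul_le_mul_of_nonneg_right h2 (norm_nonneg _)
        _ ≤ _ := by rw [one_mul]; exact h1
    have hF2 : ‖Fj f K j X t‖ ^ 2 ≤
        (I.card : ℝ) * ∑ v ∈ I, (‖Qv f (Pj K j) (Hj K j) v t‖ * ‖R v t‖) ^ 2 :=
      (pow_le_pow_left₀ (norm_nonneg _) hF1 2).trans (sq_sum_le_card_mul_sum_sq)
    have hterm : ∀ v ∈ I, (I.card : ℝ) * (‖Qv f (Pj K j) (Hj K j) v t‖ * ‖R v t‖) ^ 2 ≤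
        ((I.card : ℝ) * Real.exp (-(2 * a * V v)) *
          Real.exp (2 * a' * (⌈V v / V' v'⌉₊ * V' v'))) *
            (‖Q' v' t‖ ^ (2 * ⌈V v / V' v'⌉₊) * ‖R v t‖ ^ 2) := by
      intro v hv
      set l := ⌈V v / V' v'⌉₊ with hl
      have h1 : ‖Qv f (Pj K j) (Hj K j) v t‖ ^ 2 ≤ Real.exp (-(2 * a * V v)) := by
        have h2 := pow_le_pow_left₀ (norm_nonneg _) (hs v hv) 2
        refine h2.trans (le_of_eq ?_)
        rw [← Real.exp_nat_mul]
        congr 1
        push_cast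
        ring
      have h3 : 1 ≤ (‖Q' v' t‖ * Real.exp (a' * V' v')) ^ (2 * l) := one_le_pow₀ hone
      have h4 : Real.exp (a' * V' v') ^ (2 * l) = Real.exp (2 * a' * (l * V' v')) := by
        rw [← Real.exp_nat_mul]
        congr 1
        push_cast
        ring
      rw [mul_pow, h4] at h3
      rw [mul_pow]
      calc (I.card : ℝ) * (‖Qv f (Pj K j) (Hj K j) v t‖ ^ 2 * ‖R v t‖ ^ 2)
          ≤ (I.card : ℝ) * (Real.exp (-(2 * a * V v)) * ‖R v t‖ ^ 2) := by
            apply mul_le_mul_of_nonneg_left _ (by positivity)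
            exact mul_le_mul_of_nonneg_right h1 (by positivity)
        _ = (I.card : ℝ) * (Real.exp (-(2 * a * V v)) * ‖R v t‖ ^ 2) * 1 := by ring
        _ ≤ (I.card : ℝ) * (Real.exp (-(2 * a * V v)) * ‖R v t‖ ^ 2) *
            (‖Q' v' t‖ ^ (2 * l) * Real.exp (2 * a' * (l * V' v'))) :=
            mul_le_mul_of_nonneg_left h3 (by positivity)
        _ = _ := by ring
    refine hF2.trans ?_
    rw [Finset.mul_sum]
    refine (Finset.sum_le_sum hterm).trans ?_
    rw [hG]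
    exact Finset.single_le_sum (f := fun v' => ∑ v ∈ I, ((I.card : ℝ) * Real.exp (-(2 * a * V v)) *
      Real.exp (2 * a' * (⌈V v / V' v'⌉₊ * V' v'))) *
        (‖Q' v' t‖ ^ (2 * ⌈V v / V' v'⌉₊) * ‖R v t‖ ^ 2))
      (fun v' _ => Finset.sum_nonneg fun v _ => by positivity) hv'
  -- integral comparison
  have hmeas : MeasurableSet (Set.Icc (-X) X ∩ {t | Small f K j t ∧ ¬ Small f K (j - 1) t}) := by
    refine measurableSet_Icc.inter ?_
    exact (tj_small_meas f K j).inter (tj_small_meas f K (j - 1)).compl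
  have hint1 : ∫ t in (Set.Icc (-X) X ∩ {t | Small f K j t ∧ ¬ Small f K (j - 1) t}),
      ‖Fj f K j X t‖ ^ 2 ≤ ∫ t in (-X)..X, G t := by
    have hFi : IntegrableOn (fun t => ‖Fj f K j X t‖ ^ 2)
        (Set.Icc (-X) X ∩ {t | Small f K j t ∧ ¬ Small f K (j - 1) t}) :=
      ((hFc.norm.pow 2).integrableOn_Icc).mono_set Set.inter_subset_left
    have hGi : IntegrableOn G (Set.Icc (-X) X) := hGc.integrableOn_Icc
    have h1 := setIntegral_mono_on hFi (hGi.mono_set Set.inter_subset_left) hmeas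
      (fun t ht => hpt t ht.2.1 ht.2.2)
    have h2 : ∫ t in (Set.Icc (-X) X ∩ {t | Small f K j t ∧ ¬ Small f K (j - 1) t}), G t ≤
        ∫ t in Set.Icc (-X) X, G t := by
      apply setIntegral_mono_set hGi
      · exact Filter.Eventually.of_forall hGnn
      · exact (Set.inter_subset_left).eventuallyLE
    have h3 : ∫ t in Set.Icc (-X) X, G t = ∫ t in (-X)..X, G t := by
      rw [intervalIntegral.integral_of_le (by linarith), integral_Icc_eq_integral_Ioc]
    rw [← h3]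
    exact h1.trans h2
  refine hint1.trans ?_
  -- the integral of G
  have hterm_int : ∀ v' v, IntervalIntegrable (fun t => ((I.card : ℝ) * Real.exp (-(2 * a * V v)) *
      Real.exp (2 * a' * (⌈V v / V' v'⌉₊ * V' v'))) *
        (‖Q' v' t‖ ^ (2 * ⌈V v / V' v'⌉₊) * ‖R v t‖ ^ 2)) volume (-X) X := by
    intro v' v
    exact (continuous_const.mul (((hQ'c v').norm.pow _).mul ((hRc v).norm.pow _))).intervalIntegrable _ _
  have hGint : ∫ t in (-X)..X, G t = ∑ v' ∈ I', ∑ v ∈ I, ((I.card : ℝ) * Real.exp (-(2 * a * V v)) *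
      Real.exp (2 * a' * (⌈V v / V' v'⌉₊ * V' v'))) *
        ∫ t in (-X)..X, ‖Q' v' t‖ ^ (2 * ⌈V v / V' v'⌉₊) * ‖R v t‖ ^ 2 := by
    rw [hG]
    rw [intervalIntegral.integral_finsetSum]
    · refine Finset.sum_congr rfl fun v' _ => ?_
      rw [intervalIntegral.integral_finsetSum]
      · refine Finset.sum_congr rfl fun v _ => ?_
        rw [intervalIntegral.integral_const_mul]
      · intro v _
        exact hterm_int v' v
    · intro v' _
      exact (continuous_finsetSum _ fun v _ =>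
        continuous_const.mul (((hQ'c v').norm.pow _).mul ((hRc v).norm.pow _))).intervalIntegrable _ _
  rw [hGint]
  have hbound : ∀ v' ∈ I', ∀ v ∈ I, ((I.card : ℝ) * Real.exp (-(2 * a * V v)) *
      Real.exp (2 * a' * (⌈V v / V' v'⌉₊ * V' v'))) *
        ∫ t in (-X)..X, ‖Q' v' t‖ ^ (2 * ⌈V v / V' v'⌉₊) * ‖R v t‖ ^ 2 ≤
      (I.card : ℝ) * (C * Real.exp (-((1 / 2 : ℝ) ^ j * pj K j / 16))) := by
    intro v' hv' v hv
    have e1 : (pj K j : ℝ) ≤ V v := hV1 j v hv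
    have e2 : V v ≤ qj K j := hV2 j v hv
    have e3 : (pj K (j - 1) : ℝ) ≤ V' v' := hV1 (j - 1) v' hv'
    have e4 : V' v' ≤ qj K (j - 1) := hV2 (j - 1) v' hv'
    have hV0 : 0 < V v := lt_of_lt_of_le (by linarith [hp1 j]) e1
    have hV'0 : 0 < V' v' := lt_of_lt_of_le (by linarith [hp1 (j - 1)]) e3
    have hpe := hK2 K j hKK2 hj (V v) (V' v') e1 e2 e3 e4
    set l := ⌈V v / V' v'⌉₊ with hl
    have hlpos : 0 < l := Nat.ceil_pos.mpr (by positivity)
    have hlV : V v ≤ l * V' v' := by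
      have := Nat.le_ceil (V v / V' v')
      rw [div_le_iff₀ hV'0] at this
      exact this
    set N : ℝ := X * Real.exp (-(V v)) with hN
    have hN0 : 0 < N := by positivity
    have hT : X ≤ N * Real.exp (V' v') ^ l := by
      rw [hN, ← Real.exp_nat_mul, mul_assoc, ← Real.exp_add]
      have : 1 ≤ Real.exp (-(V v) + l * V' v') := Real.one_le_exp (by linarith)
      nlinarith
    have hm := hmom ((Pj K (j - 1)).filter (fun p => ix (Hj K (j - 1)) p = v'))
      (Ioc ⌊N⌋₊ ⌊4 * N⌋₊) f f (Real.exp (V' v')) N X l (Real.one_le_exp hV'0.le) hN0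
      (by
        intro p hpm
        rw [mem_filter] at hpm
        have hpp : p.Prime := by
          have := hpm.1
          unfold Pj pr at this
          exact (mem_filter.mp this).2
        exact ⟨hpp, tj_ix (hHj (j - 1)) hpp hpm.2⟩)
      (by
        intro m hm
        rw [mem_Ioc] at hm
        exact ⟨(Nat.floor_lt hN0.le).mp hm.1, (Nat.le_floor_iff (by positivity)).mp hm.2⟩)
      hf.bdd hf.bdd hX0.le hT
    have hm' : ∫ t in (-X)..X, ‖Q' v' t‖ ^ (2 * l) * ‖R v t‖ ^ 2 ≤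
        C * (2 * l).factorial * Real.exp 2 ^ l := hm
    have hm2 := hm'.trans (tj_fac C hC l hlpos)
    calc ((I.card : ℝ) * Real.exp (-(2 * a * V v)) * Real.exp (2 * a' * (l * V' v'))) *
          ∫ t in (-X)..X, ‖Q' v' t‖ ^ (2 * l) * ‖R v t‖ ^ 2
        ≤ ((I.card : ℝ) * Real.exp (-(2 * a * V v)) * Real.exp (2 * a' * (l * V' v'))) *
          (C * Real.exp (2 * l * (1 + Real.log (2 * l)))) :=
          mul_le_mul_of_nonneg_left hm2 (by positivity)
      _ = (I.card : ℝ) * (C * Real.exp (-2 * a * V v + 2 * a' * (l * V' v') +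
            2 * l * (1 + Real.log (2 * l)))) := by
          rw [Real.exp_add, Real.exp_add, show -2 * a * V v = -(2 * a * V v) by ring]
          ring
      _ ≤ (I.card : ℝ) * (C * Real.exp (-((1 / 2 : ℝ) ^ j * pj K j / 16))) := by
          apply mul_le_mul_of_nonneg_left _ (by positivity)
          apply mul_le_mul_of_nonneg_left _ hC.le
          apply Real.exp_le_exp.mpr
          refine hpe.trans ?_
          have h0 : (0 : ℝ) ≤ (1 / 2) ^ j := by positivity
          have := mul_le_mul_of_nonneg_left e1 h0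
          linarith
  have hcardI : (I.card : ℝ) ≤ ((Hj K j * qj K j + 1 : ℕ) : ℝ) := by
    have : I.card ≤ Hj K j * qj K j + 1 := by
      rw [hI]
      unfold Ij
      rw [Nat.card_Icc]
      omega
    exact_mod_cast this
  have hcardI' : (I'.card : ℝ) ≤ ((Hj K j * qj K j + 1 : ℕ) : ℝ) := by
    have h1 : I'.card ≤ Hj K (j - 1) * qj K (j - 1) + 1 := by
      rw [hI']
      unfold Ij
      rw [Nat.card_Icc]
      omega
    have h4 : 4 ^ (j - 1) ≤ 4 ^ j := Nat.pow_le_pow_right (by norm_num) (by omega)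
    have h2 : Hj K (j - 1) ≤ Hj K j := Nat.mul_le_mul_left K h4
    have h3 : qj K (j - 1) ≤ qj K j := by
      unfold qj pj
      exact Nat.pow_le_pow_left (Nat.pow_le_pow_right (by norm_num) (Nat.mul_le_mul_left K h4)) 2
    have h5 : I'.card ≤ Hj K j * qj K j + 1 :=
      h1.trans (Nat.add_le_add_right (Nat.mul_le_mul h2 h3) 1)
    exact_mod_cast h5
  set B : ℝ := ((Hj K j * qj K j + 1 : ℕ) : ℝ) with hB
  set E : ℝ := Real.exp (-((1 / 2 : ℝ) ^ j * pj K j / 16)) with hE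
  have hE0 : 0 < E := Real.exp_pos _
  have hB0 : 0 ≤ B := Nat.cast_nonneg _
  calc ∑ v' ∈ I', ∑ v ∈ I, ((I.card : ℝ) * Real.exp (-(2 * a * V v)) *
      Real.exp (2 * a' * (⌈V v / V' v'⌉₊ * V' v'))) *
        ∫ t in (-X)..X, ‖Q' v' t‖ ^ (2 * ⌈V v / V' v'⌉₊) * ‖R v t‖ ^ 2
      ≤ ∑ _v' ∈ I', ∑ _v ∈ I, (I.card : ℝ) * (C * E) :=
        Finset.sum_le_sum fun v' hv' => Finset.sum_le_sum fun v hv => hbound v' hv' v hv
    _ = (I'.card : ℝ) * ((I.card : ℝ) * ((I.card : ℝ) * (C * E))) := by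
        rw [Finset.sum_const, Finset.sum_const, nsmul_eq_mul, nsmul_eq_mul]
    _ ≤ B * (B * (B * (C * E))) := by
        apply mul_le_mul hcardI' _ (by positivity) hB0
        apply mul_le_mul hcardI _ (by positivity) hB0
        exact mul_le_mul_of_nonneg_right hcardI (by positivity)
    _ = C * B ^ 3 * E := by ring
    _ ≤ (1 / 2) ^ j / K := hK3 K j hKK3

end Pool.Agent.Mrd
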