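import Pool.Agent.Mrd.Par
import Pool.Agent.Mrd.Mvt

/-!
Mrd TZ: the set where all prime polynomials of level 0 are small.
-/

set_option autoImplicit false

namespace Pool.Agent.Mrd

open Finset MeasureTheory Filter Topology

private theorem TZ_Qv_cont (f : ℕ → ℂ) (P : Finset ℕ) (H v : ℕ) : Continuous (Qv f P H v) :=
  dp_continuous _ _

private theorem TZ_Rv_cont (f : ℕ → ℂ) (X : ℝ) (H v : ℕ) : Continuous (Rv f X H v) := by
  unfold Rv Av
  exact dp_continuous _ _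

private theorem TZ_Fj_cont (f : ℕ → ℂ) (K j : ℕ) (X : ℝ) : Continuous (Fj f K j X) := by
  unfold Fj Fv
  exact continuous_const.mul (continuous_finsetSum _ fun v _ =>
    (TZ_Qv_cont _ _ _ _).mul (TZ_Rv_cont _ _ _ _))

/-- the mean square of `R_v` -/
private theorem TZ_R : ∃ C : ℝ, 0 < C ∧ ∀ (f : ℕ → ℂ) (N T : ℝ), CM f → 1 ≤ T → T ≤ N →
    ∫ t in (-T)..T, ‖Av f N t‖ ^ 2 ≤ C := by
  obtain ⟨C, hC, h⟩ := mvt
  refine ⟨24 * C, by positivity, fun f N T hf hT hTN => ?_⟩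
  have hN : 1 ≤ N := hT.trans hTN
  have hN0 : 0 < N := by linarith
  have hfl : ((⌊4 * N⌋₊ : ℕ) : ℝ) ≤ 4 * N := Nat.floor_le (by positivity)
  have h1 := h ⌊4 * N⌋₊ (Ioc ⌊N⌋₊ ⌊4 * N⌋₊) (fun n => f n / n) (-T) T
    (Nat.le_floor (by push_cast; linarith))
    (fun n hn => by
      rw [Finset.mem_Ioc] at hn
      exact ⟨by omega, hn.2⟩) (by linarith)
  refine h1.trans ?_
  have h2 : ∑ n ∈ Ioc ⌊N⌋₊ ⌊4 * N⌋₊, ‖f n / (n : ℂ)‖ ^ 2 ≤ 4 / N := by
    have h3 : ∀ n ∈ Ioc ⌊N⌋₊ ⌊4 * N⌋₊, ‖f n / (n : ℂ)‖ ^ 2 ≤ 1 / N ^ 2 := by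
      intro n hn
      rw [Finset.mem_Ioc] at hn
      have hn1 : N ≤ n := ((Nat.floor_lt hN0.le).mp hn.1).le
      have hn0 : (0 : ℝ) < n := by linarith
      rw [norm_div, div_pow, Complex.norm_natCast]
      have h4 : ‖f n‖ ^ 2 ≤ 1 := pow_le_one₀ (norm_nonneg _) (hf.bdd n)
      exact div_le_div₀ (by norm_num) h4 (by positivity) (pow_le_pow_left₀ hN0.le hn1 2)
    refine (Finset.sum_le_sum h3).trans ?_
    rw [Finset.sum_const, Nat.card_Ioc, nsmul_eq_mul]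
    have h5 : ((⌊4 * N⌋₊ - ⌊N⌋₊ : ℕ) : ℝ) ≤ 4 * N := by
      refine le_trans ?_ hfl
      exact_mod_cast Nat.sub_le _ _
    calc ((⌊4 * N⌋₊ - ⌊N⌋₊ : ℕ) : ℝ) * (1 / N ^ 2) ≤ 4 * N * (1 / N ^ 2) :=
          mul_le_mul_of_nonneg_right h5 (by positivity)
      _ = 4 / N := by field_simp
  calc C * (T - -T + ((⌊4 * N⌋₊ : ℕ) : ℝ)) * ∑ n ∈ Ioc ⌊N⌋₊ ⌊4 * N⌋₊, ‖f n / (n : ℂ)‖ ^ 2
      ≤ C * (6 * N) * (4 / N) := by
        refine mul_le_mul (mul_le_mul_of_nonneg_left (by linarith) hC.le) h2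
          (Finset.sum_nonneg fun n _ => by positivity) (by positivity)
    _ = 24 * C := by
        field_simp
        ring

/-- On the set: `‖∑ Q_v R_v‖² ≤ |I| ∑_v e^{-2 a_0 v/H} ‖R_v‖²`, `LP ≥ 1` (`par_LP`), `a_0 = 1/8`, `v/H ≥ p_0`. With `N = Xe^{-v/H} ≥ Xe^{-q_0} = T ≥ 1`: `∫_{-T}^T ‖R_v‖² ≤ C (2T + 4N) ∑_{N<m≤4N} 1/m² ≤ C'`.
Total `≤ C' |I|² e^{-p_0/4}`, `|I| ≤ H_0 q_0 + 1`; `par_sum` with `j = 0`. -/
theorem tzero : ∃ K₀ : ℕ, ∀ K : ℕ, K₀ ≤ K → ∀ (f : ℕ → ℂ) (X : ℝ), CM f → Real.exp (qj K 0) ≤ X →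
    ∫ t in (Set.Icc (-(X / Real.exp (qj K 0))) (X / Real.exp (qj K 0)) ∩ {t | Small f K 0 t}),
      ‖Fj f K 0 X t‖ ^ 2 ≤ 1 / K := by
  obtain ⟨K₁, h₁⟩ := par_LP
  obtain ⟨C, hC, hR⟩ := TZ_R
  obtain ⟨K₂, h₂⟩ := par_sum C
  refine ⟨max (max K₁ K₂) 1, fun K hK f X hf hX => ?_⟩
  have hK₁ : K₁ ≤ K := (le_max_left _ _).trans ((le_max_left _ _).trans hK)
  have hK₂ : K₂ ≤ K := (le_max_right _ _).trans ((le_max_left _ _).trans hK)
  have hK1 : 1 ≤ K := (le_max_right _ _).trans hK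
  set T : ℝ := X / Real.exp (qj K 0) with hT
  have hT1 : 1 ≤ T := by
    rw [hT, one_le_div (Real.exp_pos _)]
    exact hX
  have hX0 : 0 < X := (Real.exp_pos _).trans_le hX
  have hH : 0 < Hj K 0 := by
    unfold Hj
    rw [pow_zero, mul_one]
    omega
  have hH0 : (0 : ℝ) < Hj K 0 := by exact_mod_cast hH
  have ha0 : aj 0 = 1 / 8 := by
    unfold aj
    norm_num
  have hL : 1 ≤ LP (Pj K 0) := by
    have := h₁ K 0 hK₁
    rw [pow_zero, mul_one] at this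
    have h3 : (1 : ℝ) ≤ K := by exact_mod_cast hK1
    linarith
  set I := Ij K 0 with hI
  set E : ℝ := Real.exp (-(pj K 0 / 4)) with hE
  set B : ℝ → ℝ := fun t => (I.card : ℝ) * ∑ v ∈ I, E * ‖Rv f X (Hj K 0) v t‖ ^ 2 with hB
  have hBc : Continuous B := by
    rw [hB]
    exact continuous_const.mul (continuous_finsetSum _ fun v _ =>
      continuous_const.mul ((TZ_Rv_cont _ _ _ _).norm.pow 2))
  have hFc : Continuous fun t => ‖Fj f K 0 X t‖ ^ 2 := (TZ_Fj_cont f K 0 X).norm.pow 2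
  have hBpt : ∀ t, Small f K 0 t → ‖Fj f K 0 X t‖ ^ 2 ≤ B t := by
    intro t ht
    have h3 : ‖Fj f K 0 X t‖ ≤ ∑ v ∈ I, ‖Qv f (Pj K 0) (Hj K 0) v t‖ * ‖Rv f X (Hj K 0) v t‖ := by
      unfold Fj Fv
      rw [norm_mul, norm_inv, Complex.norm_real, Real.norm_of_nonneg (by linarith)]
      have h4 : (LP (Pj K 0))⁻¹ ≤ 1 := inv_le_one_of_one_le₀ hL
      have h5 : ‖∑ v ∈ Ij K 0, Qv f (Pj K 0) (Hj K 0) v t * Rv f X (Hj K 0) v t‖ ≤
          ∑ v ∈ I, ‖Qv f (Pj K 0) (Hj K 0) v t‖ * ‖Rv f X (Hj K 0) v t‖ := by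
        refine (norm_sum_le _ _).trans (le_of_eq ?_)
        exact Finset.sum_congr rfl fun v _ => norm_mul _ _
      calc (LP (Pj K 0))⁻¹ * ‖∑ v ∈ Ij K 0, Qv f (Pj K 0) (Hj K 0) v t * Rv f X (Hj K 0) v t‖
          ≤ 1 * ‖∑ v ∈ Ij K 0, Qv f (Pj K 0) (Hj K 0) v t * Rv f X (Hj K 0) v t‖ :=
            mul_le_mul_of_nonneg_right h4 (norm_nonneg _)
        _ ≤ _ := by rw [one_mul]; exact h5
    calc ‖Fj f K 0 X t‖ ^ 2
        ≤ (∑ v ∈ I, ‖Qv f (Pj K 0) (Hj K 0) v t‖ * ‖Rv f X (Hj K 0) v t‖) ^ 2 :=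
          pow_le_pow_left₀ (norm_nonneg _) h3 2
      _ ≤ (I.card : ℝ) * ∑ v ∈ I, (‖Qv f (Pj K 0) (Hj K 0) v t‖ * ‖Rv f X (Hj K 0) v t‖) ^ 2 :=
          sq_sum_le_card_mul_sum_sq
      _ ≤ B t := by
          rw [hB]
          beta_reduce
          refine mul_le_mul_of_nonneg_left (Finset.sum_le_sum fun v hv => ?_) (by positivity)
          rw [mul_pow]
          refine mul_le_mul_of_nonneg_right ?_ (by positivity)
          refine (pow_le_pow_left₀ (norm_nonneg _) (ht v hv) 2).trans ?_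
          rw [← Real.exp_nat_mul, hE, ha0]
          apply Real.exp_le_exp.mpr
          have h6 : (pj K 0 : ℝ) ≤ (v : ℝ) / Hj K 0 := by
            rw [le_div_iff₀ hH0]
            rw [hI] at hv
            unfold Ij at hv
            rw [Finset.mem_Icc] at hv
            rw [mul_comm]
            exact_mod_cast hv.1
          push_cast
          linarith
  have hmeas : MeasurableSet (Set.Icc (-T) T ∩ {t | Small f K 0 t}) := by
    refine measurableSet_Icc.inter ?_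
    have : {t | Small f K 0 t} = ⋂ v ∈ Ij K 0,
        {t | ‖Qv f (Pj K 0) (Hj K 0) v t‖ ≤ Real.exp (-(aj 0 * ((v : ℝ) / Hj K 0)))} := by
      ext t
      simp only [Set.mem_iInter, Set.mem_ofPred_eq, Small]
    rw [this]
    exact Finset.measurableSet_biInter _ fun v _ =>
      (isClosed_le (TZ_Qv_cont _ _ _ _).norm continuous_const).measurableSet
  have hBi : IntegrableOn B (Set.Icc (-T) T) := hBc.integrableOn_Icc
  have hFi : IntegrableOn (fun t => ‖Fj f K 0 X t‖ ^ 2) (Set.Icc (-T) T) := hFc.integrableOn_Icc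
  have hB0 : ∀ t, 0 ≤ B t := fun t => by
    rw [hB]
    positivity
  have s1 : ∫ t in (Set.Icc (-T) T ∩ {t | Small f K 0 t}), ‖Fj f K 0 X t‖ ^ 2 ≤
      ∫ t in (Set.Icc (-T) T ∩ {t | Small f K 0 t}), B t :=
    setIntegral_mono_on (hFi.mono_set Set.inter_subset_left) (hBi.mono_set Set.inter_subset_left)
      hmeas fun t ht => hBpt t ht.2
  have s2 : ∫ t in (Set.Icc (-T) T ∩ {t | Small f K 0 t}), B t ≤ ∫ t in Set.Icc (-T) T, B t :=
    setIntegral_mono_set hBi (Eventually.of_forall hB0) Set.inter_subset_left.eventuallyLE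
  have s3 : ∫ t in Set.Icc (-T) T, B t ≤ (I.card : ℝ) * (I.card * (E * C)) := by
    rw [integral_Icc_eq_integral_Ioc, ← intervalIntegral.integral_of_le (by linarith), hB,
      intervalIntegral.integral_const_mul]
    refine mul_le_mul_of_nonneg_left ?_ (by positivity)
    rw [intervalIntegral.integral_finsetSum]
    · rw [← nsmul_eq_mul]
      refine Finset.sum_le_card_nsmul _ _ _ fun v hv => ?_
      rw [intervalIntegral.integral_const_mul]
      refine mul_le_mul_of_nonneg_left ?_ (Real.exp_pos _).le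
      refine hR f (X * Real.exp (-((v : ℝ) / Hj K 0))) T hf hT1 ?_
      rw [hT, div_eq_mul_inv, ← Real.exp_neg]
      refine mul_le_mul_of_nonneg_left ?_ hX0.le
      apply Real.exp_le_exp.mpr
      have h6 : (v : ℝ) / Hj K 0 ≤ qj K 0 := by
        rw [div_le_iff₀ hH0]
        rw [hI] at hv
        unfold Ij at hv
        rw [Finset.mem_Icc] at hv
        rw [mul_comm]
        exact_mod_cast hv.2
      linarith
    · intro v _
      exact (continuous_const.mul ((TZ_Rv_cont _ _ _ _).norm.pow 2)).intervalIntegrable _ _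
  have s4 : (I.card : ℝ) * (I.card * (E * C)) ≤ 1 / K := by
    have h6 := h₂ K 0 hK₂
    rw [pow_zero, one_mul] at h6
    refine le_trans ?_ h6
    set M : ℝ := ((Hj K 0 * qj K 0 + 1 : ℕ) : ℝ) with hM
    have hM1 : 1 ≤ M := by
      rw [hM]
      exact_mod_cast Nat.le_add_left 1 _
    have hcard : (I.card : ℝ) ≤ M := by
      rw [hI, hM]
      unfold Ij
      rw [Nat.card_Icc]
      exact_mod_cast Nat.sub_le _ _
    have hE' : E ≤ Real.exp (-((pj K 0 : ℝ) / 16)) := by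
      rw [hE]
      apply Real.exp_le_exp.mpr
      have : (0 : ℝ) ≤ pj K 0 := by positivity
      linarith
    have hc0 : (0 : ℝ) ≤ I.card := by positivity
    calc (I.card : ℝ) * (I.card * (E * C)) = C * ((I.card : ℝ) * I.card) * E := by ring
      _ ≤ C * M ^ 3 * Real.exp (-((pj K 0 : ℝ) / 16)) := by
          refine mul_le_mul (mul_le_mul_of_nonneg_left ?_ hC.le) hE' (Real.exp_pos _).le
            (by positivity)
          calc (I.card : ℝ) * I.card ≤ M * M := mul_le_mul hcard hcard hc0 (by linarith)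
            _ ≤ M ^ 3 := by nlinarith
  exact s1.trans (s2.trans (s3.trans s4))

end Pool.Agent.Mrd
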