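import Pool.Agent.Mrd.Dec
import Pool.Agent.Mrd.TZ
import Pool.Agent.Mrd.TJ
import Pool.Agent.Mrd.Exc
import Pool.Agent.Mrd.FinU

/-!
Mrd MAINU: the mean square of `A(1+it)` over `|t| ≤ X/Q`.
-/

set_option autoImplicit false

namespace Pool.Agent.Mrd

open Finset MeasureTheory Filter Topology

private theorem Av_cont (f : ℕ → ℂ) (X : ℝ) : Continuous (Av f X) := by
  have h := dp_continuous (Ioc ⌊X⌋₊ ⌊4 * X⌋₊) (fun n => f n / n)
  exact h

private theorem Fv_cont (f : ℕ → ℂ) (X : ℝ) (P I : Finset ℕ) (H : ℕ) : Continuous (Fv f X P I H) := by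
  have h : Fv f X P I H = fun t => ((LP P : ℝ) : ℂ)⁻¹ * ∑ v ∈ I, Qv f P H v t * Rv f X H v t := rfl
  rw [h]
  refine continuous_const.mul (continuous_finsetSum _ fun v _ => ?_)
  refine Continuous.mul ?_ ?_
  · exact dp_continuous (P.filter (fun p => ix H p = v)) (fun p => f p / p)
  · exact Av_cont f _

private theorem Small_meas (f : ℕ → ℂ) (K j : ℕ) : MeasurableSet {t | Small f K j t} := by
  have h : {t | Small f K j t} = ⋂ v ∈ Ij K j,
      {t | ‖Qv f (Pj K j) (Hj K j) v t‖ ≤ Real.exp (-(aj j * ((v : ℝ) / Hj K j)))} := by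
    ext t
    simp only [Set.mem_ofPred_eq, Set.mem_iInter, Small]
  rw [h]
  refine IsClosed.measurableSet ?_
  refine isClosed_biInter fun v _ => ?_
  refine isClosed_le ?_ continuous_const
  exact (dp_continuous ((Pj K j).filter (fun p => ix (Hj K j) p = v)) (fun p => f p / p)).norm

private theorem split_le (F G : ℝ → ℂ) (hF : Continuous F) (hG : Continuous G) (T : ℝ) (hT : 0 ≤ T)
    (s : Set ℝ) (hs : s ⊆ Set.Icc (-T) T) (hm : MeasurableSet s) :
    ∫ t in s, ‖F t‖ ^ 2 ≤ 2 * (∫ t in s, ‖G t‖ ^ 2) + 2 * ∫ t in (-T)..T, ‖F t - G t‖ ^ 2 := by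
  have iF : IntegrableOn (fun t => ‖F t‖ ^ 2) s :=
    ((hF.norm.pow 2).integrableOn_Icc).mono_set hs
  have iG : IntegrableOn (fun t => ‖G t‖ ^ 2) s :=
    ((hG.norm.pow 2).integrableOn_Icc).mono_set hs
  have iD' : IntegrableOn (fun t => ‖F t - G t‖ ^ 2) (Set.Icc (-T) T) :=
    ((hF.sub hG).norm.pow 2).integrableOn_Icc
  have iD : IntegrableOn (fun t => ‖F t - G t‖ ^ 2) s := iD'.mono_set hs
  have h1 : ∫ t in s, ‖F t‖ ^ 2 ≤ ∫ t in s, (2 * ‖G t‖ ^ 2 + 2 * ‖F t - G t‖ ^ 2) := by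
    refine setIntegral_mono_on iF ((iG.const_mul 2).add (iD.const_mul 2)) hm ?_
    intro t _
    have h2 : ‖F t‖ ≤ ‖G t‖ + ‖F t - G t‖ := by
      have h3 := norm_add_le (G t) (F t - G t)
      rw [add_sub_cancel] at h3
      exact h3
    have h4 : ‖F t‖ ^ 2 ≤ (‖G t‖ + ‖F t - G t‖) ^ 2 := pow_le_pow_left₀ (norm_nonneg _) h2 2
    nlinarith [sq_nonneg (‖G t‖ - ‖F t - G t‖)]
  have h5 : ∫ t in s, (2 * ‖G t‖ ^ 2 + 2 * ‖F t - G t‖ ^ 2) =
      2 * (∫ t in s, ‖G t‖ ^ 2) + 2 * ∫ t in s, ‖F t - G t‖ ^ 2 := by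
    rw [integral_add (iG.const_mul 2) (iD.const_mul 2), integral_const_mul, integral_const_mul]
  have h6 : ∫ t in s, ‖F t - G t‖ ^ 2 ≤ ∫ t in (-T)..T, ‖F t - G t‖ ^ 2 := by
    rw [intervalIntegral.integral_of_le (by linarith), ← integral_Icc_eq_integral_Ioc]
    refine setIntegral_mono_set iD' ?_ (Filter.Eventually.of_forall fun t ht => hs ht)
    exact Filter.Eventually.of_forall fun t => by positivity
  linarith

private theorem cover_le (S : ℕ → Set ℝ) (hS : ∀ j, MeasurableSet (S j)) (g : ℝ → ℝ) (hg : Continuous g)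
    (hg0 : ∀ t, 0 ≤ g t) (T : ℝ) (J : ℕ) :
    ∫ t in Set.Icc (-T) T, g t ≤ (∫ t in Set.Icc (-T) T ∩ S 0, g t) +
      (∑ j ∈ range J, ∫ t in Set.Icc (-T) T ∩ {t | t ∈ S (j + 1) ∧ t ∉ S j}, g t) +
      ∫ t in Set.Icc (-T) T ∩ {t | t ∉ S J}, g t := by
  have iI : IntegrableOn g (Set.Icc (-T) T) := hg.integrableOn_Icc
  induction J with
  | zero =>
    rw [Finset.sum_range_zero, add_zero]
    have h1 := integral_inter_add_sdiff (μ := volume) (s := Set.Icc (-T) T) (hS 0) iI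
    have h2 : Set.Icc (-T) T \ S 0 = Set.Icc (-T) T ∩ {t | t ∉ S 0} := by
      ext t
      rfl
    rw [h2] at h1
    exact h1.ge
  | succ J ih =>
    rw [Finset.sum_range_succ]
    have h1 := integral_inter_add_sdiff (μ := volume) (s := Set.Icc (-T) T ∩ {t | t ∉ S J}) (f := g)
      (hS (J + 1)) (iI.mono_set Set.inter_subset_left)
    have h2 : (Set.Icc (-T) T ∩ {t | t ∉ S J}) ∩ S (J + 1) =
        Set.Icc (-T) T ∩ {t | t ∈ S (J + 1) ∧ t ∉ S J} := by
      ext t
      constructor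
      · rintro ⟨⟨h3, h4⟩, h5⟩
        exact ⟨h3, h5, h4⟩
      · rintro ⟨h3, h5, h4⟩
        exact ⟨⟨h3, h4⟩, h5⟩
    have h6 : ∫ t in (Set.Icc (-T) T ∩ {t | t ∉ S J}) \ S (J + 1), g t ≤
        ∫ t in Set.Icc (-T) T ∩ {t | t ∉ S (J + 1)}, g t := by
      refine setIntegral_mono_set (iI.mono_set Set.inter_subset_left)
        (Filter.Eventually.of_forall fun t => hg0 t) (Filter.Eventually.of_forall ?_)
      rintro t ⟨⟨h3, h4⟩, h5⟩
      exact ⟨h3, h5⟩
    rw [h2] at h1
    linarith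

private theorem disc_le (g : ℝ → ℝ) (hg : Continuous g) (hg0 : ∀ t, 0 ≤ g t) (U : Set ℝ)
    (hU : MeasurableSet U) (T B : ℝ)
    (h : ∀ W : Finset ℝ, WS W → (∀ t ∈ W, |t| ≤ T ∧ t ∈ U) → ∑ t ∈ W, g t ≤ B) :
    ∫ t in Set.Icc (-T) T ∩ U, g t ≤ 2 * B := by
  classical
  set S : Set ℝ := Set.Icc (-T) T ∩ U with hSdef
  have hSm : MeasurableSet S := measurableSet_Icc.inter hU
  have iI : IntegrableOn g (Set.Icc (-T) T) := hg.integrableOn_Icc
  have iS : IntegrableOn g S := iI.mono_set Set.inter_subset_left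
  set N : ℤ := ⌈T⌉ + 1 with hN
  set E : Finset ℤ := Finset.Icc (-N) N with hE
  set V : ℤ → Set ℝ := fun n => S ∩ Set.Ico (n : ℝ) (n + 1) with hV
  have hcov : S = ⋃ n ∈ E, V n := by
    ext t
    simp only [hV, Set.mem_iUnion, Set.mem_inter_iff, Set.mem_Ico, exists_prop]
    constructor
    · intro ht
      refine ⟨⌊t⌋, ?_, ht, Int.floor_le t, Int.lt_floor_add_one t⟩
      have h1 : -T ≤ t ∧ t ≤ T := ht.1
      rw [hE, Finset.mem_Icc]
      constructor
      · rw [Int.le_floor, hN]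
        push_cast
        have := Int.le_ceil T
        linarith
      · rw [hN]
        have h2 : (⌊t⌋ : ℝ) ≤ ⌈T⌉ := (Int.floor_le t).trans (h1.2.trans (Int.le_ceil T))
        have h3 : ⌊t⌋ ≤ ⌈T⌉ := by exact_mod_cast h2
        omega
    · rintro ⟨n, _, ht, _⟩
      exact ht
  have hVm : ∀ n, MeasurableSet (V n) := fun n => hSm.inter measurableSet_Ico
  have hdisj : Set.Pairwise (E : Set ℤ) (Function.onFun Disjoint V) := by
    intro n _ m _ hnm
    rw [Function.onFun, Set.disjoint_left]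
    rintro t ⟨_, h1, h2⟩ ⟨_, h3, h4⟩
    apply hnm
    have h5 : (n : ℝ) < (m : ℝ) + 1 := lt_of_le_of_lt h1 h4
    have h6 : (m : ℝ) < (n : ℝ) + 1 := lt_of_le_of_lt h3 h2
    have h7 : n < m + 1 := by exact_mod_cast h5
    have h8 : m < n + 1 := by exact_mod_cast h6
    omega
  have hsum : ∫ t in S, g t = ∑ n ∈ E, ∫ t in V n, g t := by
    conv_lhs => rw [hcov]
    exact integral_biUnion_finset E (fun n _ => hVm n) hdisj
      (fun n _ => iS.mono_set Set.inter_subset_left)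
  -- choice of the points
  have hpt : ∀ n : ℤ, ∃ t : ℝ, (∫ s in V n, g s = 0 ∧ t = 0) ∨ (t ∈ V n ∧ ∫ s in V n, g s ≤ g t) := by
    intro n
    by_cases h0 : volume (V n) = 0
    · exact ⟨0, Or.inl ⟨setIntegral_measure_zero _ h0, rfl⟩⟩
    · have hle : volume (V n) ≤ 1 := by
        calc volume (V n) ≤ volume (Set.Ico (n : ℝ) (n + 1)) := measure_mono Set.inter_subset_right
          _ = 1 := by rw [Real.volume_Ico]; simp
      have hne : volume (V n) ≠ ⊤ := ne_of_lt (lt_of_le_of_lt hle ENNReal.one_lt_top)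
      obtain ⟨t, ht, hav⟩ := exists_setAverage_le h0 hne (iS.mono_set (Set.inter_subset_left (t := Set.Ico (n : ℝ) (n + 1))))
      refine ⟨t, Or.inr ⟨ht, ?_⟩⟩
      refine le_trans ?_ hav
      rw [setAverage_eq, smul_eq_mul]
      have hI : 0 ≤ ∫ s in V n, g s := setIntegral_nonneg (hVm n) (fun s _ => hg0 s)
      have hreal : 0 < volume.real (V n) := by
        rw [Measure.real]
        exact ENNReal.toReal_pos h0 hne
      have hreal1 : volume.real (V n) ≤ 1 := by
        rw [Measure.real]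
        exact ENNReal.toReal_le_of_le_ofReal zero_le_one (by simpa using hle)
      have h1 : 1 ≤ (volume.real (V n))⁻¹ := (one_le_inv₀ hreal).2 hreal1
      nlinarith
  choose τ hτ using hpt
  set E' : Finset ℤ := E.filter (fun n => τ n ∈ V n ∧ ∫ s in V n, g s ≤ g (τ n)) with hE'
  have hsum2 : ∑ n ∈ E, ∫ t in V n, g t ≤ ∑ n ∈ E', g (τ n) := by
    have h1 : ∑ n ∈ E, ∫ t in V n, g t = ∑ n ∈ E', ∫ t in V n, g t := by
      rw [hE', Finset.sum_filter]
      refine Finset.sum_congr rfl ?_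
      intro n _
      split_ifs with hn
      · rfl
      · rcases hτ n with h2 | h2
        · exact h2.1
        · exact absurd h2 hn
    rw [h1]
    refine Finset.sum_le_sum ?_
    intro n hn
    exact ((Finset.mem_filter.1 hn).2).2
  have hpart : ∀ D : Finset ℤ, D ⊆ E' → (∀ n ∈ D, ∀ m ∈ D, n ≠ m → 2 ≤ |n - m|) →
      ∑ n ∈ D, g (τ n) ≤ B := by
    intro D hD hDsep
    have hmem : ∀ n ∈ D, τ n ∈ V n := fun n hn => ((Finset.mem_filter.1 (hD hn)).2).1
    have hsep : ∀ n ∈ D, ∀ m ∈ D, n ≠ m → 1 ≤ |τ n - τ m| := by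
      intro n hn m hm hnm
      obtain ⟨_, h1, h2⟩ := hmem n hn
      obtain ⟨_, h3, h4⟩ := hmem m hm
      have h5 := hDsep n hn m hm hnm
      rcases le_total m n with h6 | h6
      · rw [abs_of_nonneg (by omega)] at h5
        have h7 : (m : ℝ) + 2 ≤ n := by
          have : m + 2 ≤ n := by omega
          exact_mod_cast this
        rw [abs_of_nonneg (by linarith)]
        linarith
      · rw [abs_of_nonpos (by omega)] at h5
        have h7 : (n : ℝ) + 2 ≤ m := by
          have : n + 2 ≤ m := by omega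
          exact_mod_cast this
        rw [abs_of_nonpos (by linarith)]
        linarith
    have hinj : Set.InjOn τ (D : Set ℤ) := by
      intro n hn m hm hnm
      by_contra hne
      have := hsep n hn m hm hne
      rw [hnm, sub_self, abs_zero] at this
      linarith
    have h1 : ∑ n ∈ D, g (τ n) = ∑ t ∈ D.image τ, g t := by
      rw [Finset.sum_image]
      intro n hn m hm hnm
      exact hinj hn hm hnm
    rw [h1]
    refine h _ ?_ ?_
    · intro s hs t ht hst
      rw [Finset.mem_image] at hs ht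
      obtain ⟨n, hn, rfl⟩ := hs
      obtain ⟨m, hm, rfl⟩ := ht
      refine hsep n hn m hm ?_
      rintro rfl
      exact hst rfl
    · intro t ht
      rw [Finset.mem_image] at ht
      obtain ⟨n, hn, rfl⟩ := ht
      obtain ⟨⟨h2, h3⟩, _⟩ := hmem n hn
      exact ⟨abs_le.2 h2, h3⟩
  have heven := hpart (E'.filter (fun n => Even n)) (Finset.filter_subset _ _) (by
    intro n hn m hm hnm
    obtain ⟨a, ha⟩ := (Finset.mem_filter.1 hn).2
    obtain ⟨b, hb⟩ := (Finset.mem_filter.1 hm).2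
    rw [le_abs]
    omega)
  have hodd := hpart (E'.filter (fun n => ¬ Even n)) (Finset.filter_subset _ _) (by
    intro n hn m hm hnm
    have ha := (Finset.mem_filter.1 hn).2
    have hb := (Finset.mem_filter.1 hm).2
    rw [Int.not_even_iff_odd] at ha hb
    obtain ⟨a, ha⟩ := ha
    obtain ⟨b, hb⟩ := hb
    rw [le_abs]
    omega)
  rw [hsum]
  refine hsum2.trans ?_
  rw [← Finset.sum_filter_add_sum_filter_not E' (fun n => Even n)]
  linarith

private theorem Pj_prime (K j : ℕ) : ∀ p ∈ Pj K j, p.Prime := by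
  intro p hp
  exact ((mem_pr (Real.exp_pos _).le (Real.exp_pos _).le).1 hp).1

private theorem Pj_ix (K j : ℕ) : ∀ p ∈ Pj K j, ix (Hj K j) p ∈ Ij K j := by
  intro p hp
  obtain ⟨hpp, h1, h2⟩ := (mem_pr (Real.exp_pos _).le (Real.exp_pos _).le).1 hp
  have hpR : (0 : ℝ) < p := by exact_mod_cast hpp.pos
  have h3 : (pj K j : ℝ) ≤ Real.log p := (Real.le_log_iff_exp_le hpR).2 h1.le
  have h4 : Real.log p ≤ qj K j := (Real.log_le_iff_le_exp hpR).2 h2
  unfold ix Ij
  rw [Finset.mem_Icc]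
  constructor
  · refine Nat.le_floor ?_
    push_cast
    exact mul_le_mul_of_nonneg_left h3 (Nat.cast_nonneg _)
  · refine Nat.floor_le_of_le ?_
    push_cast
    exact mul_le_mul_of_nonneg_left h4 (Nat.cast_nonneg _)

private theorem pr_card (x y : ℝ) (hy : 0 ≤ y) : ((pr x y).card : ℝ) ≤ y := by
  have h1 : (pr x y).card ≤ ⌊y⌋₊ := by
    unfold pr
    refine (Finset.card_filter_le _ _).trans ?_
    rw [Nat.card_Ioc]
    omega
  have h2 : ((pr x y).card : ℝ) ≤ (⌊y⌋₊ : ℝ) := by exact_mod_cast h1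
  exact h2.trans (Nat.floor_le hy)

private theorem qj_mono (K : ℕ) {i j : ℕ} (h : i ≤ j) : qj K i ≤ qj K j := by
  unfold qj pj
  refine Nat.pow_le_pow_left ?_ 2
  refine Nat.pow_le_pow_right (by norm_num) ?_
  exact Nat.mul_le_mul_left K (Nat.pow_le_pow_right (by norm_num) h)

private theorem Hj_le_qj (K j : ℕ) : Hj K j ≤ qj K j := by
  unfold Hj qj pj
  have h1 : K * 4 ^ j < 3 ^ (K * 4 ^ j) := Nat.lt_pow_self (by norm_num)
  have h2 : 3 ^ (K * 4 ^ j) ≤ (3 ^ (K * 4 ^ j)) ^ 2 := Nat.le_self_pow (by norm_num) _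
  omega

private theorem Pst_prime (K : ℕ) (X : ℝ) (hX : 0 ≤ X) : ∀ p ∈ Pst K X, p.Prime := by
  intro p hp
  exact ((mem_pr (Real.rpow_nonneg hX _) (Real.rpow_nonneg hX _)).1 hp).1

private theorem Pst_ix (K : ℕ) (X : ℝ) (hX : 0 < X) : ∀ p ∈ Pst K X, ix K p ∈ Ist K X := by
  intro p hp
  obtain ⟨hpp, h1, h2⟩ := (mem_pr (Real.rpow_nonneg hX.le _) (Real.rpow_nonneg hX.le _)).1 hp
  have hpR : (0 : ℝ) < p := by exact_mod_cast hpp.pos
  have h3 : Real.log X / (20 * 3 ^ K) ≤ Real.log p := by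
    have h5 := Real.log_le_log (Real.rpow_pos_of_pos hX _) h1.le
    rw [Real.log_rpow hX] at h5
    calc Real.log X / (20 * 3 ^ K) = 1 / (20 * 3 ^ K) * Real.log X := by ring
      _ ≤ _ := h5
  have h4 : Real.log p ≤ Real.log X / 20 := by
    have h5 := Real.log_le_log hpR h2
    rw [Real.log_rpow hX] at h5
    calc Real.log p ≤ 1 / 20 * Real.log X := h5
      _ = _ := by ring
  unfold ix Ist
  rw [Finset.mem_Icc]
  exact ⟨Nat.floor_le_floor (mul_le_mul_of_nonneg_left h3 (Nat.cast_nonneg _)),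
    Nat.floor_le_floor (mul_le_mul_of_nonneg_left h4 (Nat.cast_nonneg _))⟩

private theorem geo_half (J : ℕ) : ∑ j ∈ range J, (1 / 2 : ℝ) ^ (j + 1) = 1 - (1 / 2) ^ J := by
  induction J with
  | zero => simp
  | succ J ih =>
    rw [Finset.sum_range_succ, ih]
    ring

private theorem small_num (L : ℝ) (hL : 64 ≤ L) (J : ℕ) (hJ : (J + 1 : ℝ) ≤ L) :
    (J + 1 : ℝ) * (Real.exp (2 * Real.sqrt L) / Real.exp L) ≤ Real.exp (-L / 2) := by
  have h1 : 2 * Real.sqrt L ≤ L / 4 := by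
    have h2 : Real.sqrt L * Real.sqrt L = L := Real.mul_self_sqrt (by linarith)
    have h3 : 8 ≤ Real.sqrt L := by
      rw [show (8 : ℝ) = Real.sqrt 64 by rw [show (64 : ℝ) = 8 ^ 2 by norm_num]; rw [Real.sqrt_sq (by norm_num)]]
      exact Real.sqrt_le_sqrt hL
    nlinarith
  have h4 : L ≤ Real.exp (L / 4) := by
    have h5 := Real.quadratic_le_exp_of_nonneg (show 0 ≤ L / 4 by linarith)
    nlinarith
  rw [← Real.exp_sub]
  calc (J + 1 : ℝ) * Real.exp (2 * Real.sqrt L - L)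
      ≤ Real.exp (L / 4) * Real.exp (L / 4 - L) := by
        refine mul_le_mul (hJ.trans h4) (Real.exp_le_exp.2 (by linarith)) (Real.exp_pos _).le (Real.exp_pos _).le
    _ = Real.exp (-L / 2) := by
        rw [← Real.exp_add]
        congr 1
        ring

/-- `K` large, `Q = e^{q_0}`, `T = X/Q`, `J` from `par_J`. Every `t ∈ [-T,T]` is in `{Small 0}`, or in `{Small j, not Small (j-1)}` for some `1 ≤ j ≤ J`, or in `U = {not Small J}`. On the `j`-th set `‖Av‖² ≤ 2‖Fj‖² + 2‖Av - Fj‖²`; `tzero`, `tj` and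
`decomp` (over all of `[-T,T]`; `LP ≥ K4^j` by `par_LP`, `H_j = K4^j`, `|P_j|²/X ≤ e^{2√log X}/X`): `∑_j ≤ C/K + o(1)`. On `U`: `‖Av‖² ≤ 2‖Fst‖² + 2‖Av - Fst‖²`, `decomp` for `Pst` (`LP ≥ K`, `H = K`, `|P|²/X ≤ X^{-9/10}`);
`∫_{U ∩ [-T,T]} ‖Fst‖² ≤ ∑_{n ∈ ℤ} ‖Fst(t_n)‖²`, `t_n ∈ U ∩ [n, n+1) ∩ [-T,T]` with value at least the mean; even and odd `n` give two well spaced sets, of size `≤ X^{2/5}` by `exc`; `finU`. -/
theorem mainU (f : ℕ → ℂ) (hf : CM f) (hN : NP f) (ε : ℝ) (hε : 0 < ε) : ∃ Q : ℝ, 1 ≤ Q ∧ ∃ X₀ : ℝ,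
    ∀ X : ℝ, X₀ ≤ X → ∫ t in (-(X / Q))..(X / Q), ‖Av f X t‖ ^ 2 ≤ ε := by
  obtain ⟨Kz, hz⟩ := tzero
  obtain ⟨Kt, ht⟩ := tj
  obtain ⟨Kp, hp⟩ := par_LP
  obtain ⟨C, hC, hdec⟩ := decomp
  obtain ⟨Cm, hCm, hmer⟩ := mertens
  set K : ℕ := Kz + Kt + Kp + ⌈2 * (4 + 12 * C) / ε⌉₊ + 1 with hK
  have hK1 : 1 ≤ K := by omega
  have hKR : (1 : ℝ) ≤ K := by exact_mod_cast hK1
  have hKpos : (0 : ℝ) < K := by linarith
  have hKε : (4 + 12 * C) / K ≤ ε / 2 := by
    have h1 : (⌈2 * (4 + 12 * C) / ε⌉₊ : ℝ) ≤ K := by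
      have : ⌈2 * (4 + 12 * C) / ε⌉₊ ≤ K := by omega
      exact_mod_cast this
    have h2 := (Nat.le_ceil (2 * (4 + 12 * C) / ε)).trans h1
    rw [div_le_iff₀ hε] at h2
    rw [div_le_iff₀ hKpos]
    linarith
  obtain ⟨XJ, hXJ⟩ := par_J K hK1
  obtain ⟨Xe, hXe⟩ := exc K hK1
  obtain ⟨Xf, hXf⟩ := finU K hK1 f hf hN (ε / 16) (by positivity)
  have hlog3 : 1 < Real.log 3 := by
    rw [Real.lt_log_iff_exp_lt (by norm_num)]
    exact Real.exp_one_lt_three
  set Q : ℝ := Real.exp (qj K 0) with hQ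
  have hQ1 : 1 ≤ Q := Real.one_le_exp (Nat.cast_nonneg _)
  have hQpos : 0 < Q := by linarith
  refine ⟨Q, hQ1, ?_⟩
  have hev : ∀ᶠ X : ℝ in atTop, ∫ t in (-(X / Q))..(X / Q), ‖Av f X t‖ ^ 2 ≤ ε := by
    have hlog : Tendsto Real.log atTop atTop := Real.tendsto_log_atTop
    filter_upwards [hlog.eventually_ge_atTop 64, eventually_ge_atTop XJ, eventually_ge_atTop Xe,
      eventually_ge_atTop Xf, eventually_ge_atTop Q, eventually_ge_atTop (K : ℝ),
      hlog.eventually_ge_atTop (-2 * Real.log (ε / (16 * C))),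
      hlog.eventually_ge_atTop (20 * 3 ^ K * Cm / (K * (Real.log 3 - 1))),
      hlog.eventually_ge_atTop (20 * 3 ^ K * Real.log 2), eventually_ge_atTop (1 : ℝ)] with
      X hL64 hX1 hX2 hX3 hXQ hXK hL1 hL2 hL3 hXone
    set L : ℝ := Real.log X with hLdef
    have hXpos : 0 < X := by linarith
    have hXexp : Real.exp L = X := Real.exp_log hXpos
    set T : ℝ := X / Q with hT
    have hT0 : 0 ≤ T := by positivity
    have hTX : T ≤ X := div_le_self hXpos.le hQ1
    obtain ⟨J, hJ1, hJ2, hJ3, hJ4⟩ := hXJ X hX1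
    set δ : ℝ := Real.exp (-L / 2) with hδ
    have hδpos : 0 < δ := Real.exp_pos _
    have hCδ : C * δ ≤ ε / 16 := by
      have h1 : δ ≤ ε / (16 * C) := by
        rw [hδ, ← Real.le_log_iff_exp_le (by positivity)]
        linarith
      calc C * δ ≤ C * (ε / (16 * C)) := mul_le_mul_of_nonneg_left h1 hC.le
        _ = ε / 16 := by field_simp
    set δ' : ℝ := Real.exp (2 * Real.sqrt L) / Real.exp L with hδ'
    have hδ'pos : 0 < δ' := by positivity
    have hJδ : (J + 1 : ℝ) * δ' ≤ δ := small_num L hL64 J hJ4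
    have hsqrtL : Real.sqrt L ≤ X := by
      have h1 : Real.sqrt L ≤ L := by
        rw [Real.sqrt_le_left (by linarith)]
        nlinarith
      exact h1.trans ((Real.log_le_sub_one_of_pos hXpos).trans (by linarith))
    -- the decomposition error at level `j`
    have herr : ∀ j ≤ J, ∫ t in (-T)..T, ‖Av f X t - Fj f K j X t‖ ^ 2 ≤
        C * (2 * (1 / 2) ^ j / K + δ') := by
      intro j hj
      have hqj : (qj K j : ℝ) ≤ Real.sqrt L := by
        have : (qj K j : ℝ) ≤ qj K J := by exact_mod_cast qj_mono K hj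
        linarith
      have hHpos : 1 ≤ Hj K j := by
        unfold Hj
        exact Nat.mul_pos hK1 (by positivity)
      have hHX : (Hj K j : ℝ) ≤ X := by
        have : (Hj K j : ℝ) ≤ qj K j := by exact_mod_cast Hj_le_qj K j
        linarith
      have hHR : (Hj K j : ℝ) = K * 4 ^ j := by
        unfold Hj
        push_cast
        rfl
      have hK4 : (1 : ℝ) ≤ K * 4 ^ j := by
        rw [← hHR]
        exact_mod_cast hHpos
      have hLP := hp K j (by omega)
      have h1 := hdec f X T (Pj K j) (Ij K j) (Hj K j) hf hXone hHpos hHX (Pj_prime K j)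
        (Pj_ix K j) (hK4.trans hLP) hT0 hTX
      refine h1.trans (mul_le_mul_of_nonneg_left ?_ hC.le)
      have hpow : 1 / ((K : ℝ) * 4 ^ j) ≤ (1 / 2) ^ j / K := by
        rw [div_pow, one_pow, div_div]
        refine one_div_le_one_div_of_le (by positivity) ?_
        rw [mul_comm]
        refine mul_le_mul_of_nonneg_left ?_ hKpos.le
        exact pow_le_pow_left₀ (by norm_num) (by norm_num) j
      have h2 : 1 / LP (Pj K j) ≤ (1 / 2) ^ j / K :=
        (one_div_le_one_div_of_le (by linarith) hLP).trans hpow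
      have h3 : 1 / (Hj K j : ℝ) ≤ (1 / 2) ^ j / K := by
        rw [hHR]
        exact hpow
      have h4 : ((Pj K j).card : ℝ) ^ 2 / X ≤ δ' := by
        rw [hδ', hXexp]
        refine div_le_div_of_nonneg_right ?_ hXpos.le
        have h5 : ((Pj K j).card : ℝ) ≤ Real.exp (Real.sqrt L) :=
          (pr_card _ _ (Real.exp_pos _).le).trans (Real.exp_le_exp.2 hqj)
        calc ((Pj K j).card : ℝ) ^ 2 ≤ Real.exp (Real.sqrt L) ^ 2 :=
              pow_le_pow_left₀ (Nat.cast_nonneg _) h5 2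
          _ = Real.exp (2 * Real.sqrt L) := by
              rw [← Real.exp_nat_mul]
              norm_num
      have h6 : 2 * (1 / 2 : ℝ) ^ j / K = (1 / 2) ^ j / K + (1 / 2) ^ j / K := by ring
      linarith
    -- continuity
    have cA := Av_cont f X
    have cF : ∀ j, Continuous (Fj f K j X) := fun j => Fv_cont f X _ _ _
    have cS : Continuous (Fst f K X) := Fv_cont f X _ _ _
    -- level 0
    have hlev0 : ∫ t in Set.Icc (-T) T ∩ {t | Small f K 0 t}, ‖Av f X t‖ ^ 2 ≤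
        2 * (1 / K) + 2 * (C * (2 * (1 / 2) ^ 0 / K + δ')) := by
      have h1 := split_le (Av f X) (Fj f K 0 X) cA (cF 0) T hT0 (Set.Icc (-T) T ∩ {t | Small f K 0 t})
        Set.inter_subset_left (measurableSet_Icc.inter (Small_meas f K 0))
      have h2 := hz K (by omega) f X hf hXQ
      have h3 := herr 0 (Nat.zero_le _)
      linarith
    -- level j+1
    have hlev : ∀ j ∈ range J, ∫ t in Set.Icc (-T) T ∩ {t | t ∈ {t | Small f K (j + 1) t} ∧
        t ∉ {t | Small f K j t}}, ‖Av f X t‖ ^ 2 ≤ (2 + 4 * C) / K * (1 / 2) ^ (j + 1) + 2 * C * δ' := by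
      intro j hj
      rw [Finset.mem_range] at hj
      have hmeas : MeasurableSet {t | t ∈ {t | Small f K (j + 1) t} ∧ t ∉ {t | Small f K j t}} :=
        (Small_meas f K (j + 1)).inter (Small_meas f K j).compl
      have h1 := split_le (Av f X) (Fj f K (j + 1) X) cA (cF (j + 1)) T hT0
        (Set.Icc (-T) T ∩ {t | t ∈ {t | Small f K (j + 1) t} ∧ t ∉ {t | Small f K j t}})
        Set.inter_subset_left (measurableSet_Icc.inter hmeas)
      have h2 := ht K (by omega) f X (j + 1) hf hXone (by omega)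
      rw [Nat.add_sub_cancel] at h2
      have h3 := herr (j + 1) (by omega)
      have h4 : ∫ t in Set.Icc (-T) T ∩ {t | t ∈ {t | Small f K (j + 1) t} ∧ t ∉ {t | Small f K j t}},
          ‖Fj f K (j + 1) X t‖ ^ 2 ≤
          ∫ t in Set.Icc (-X) X ∩ {t | Small f K (j + 1) t ∧ ¬ Small f K j t},
          ‖Fj f K (j + 1) X t‖ ^ 2 := by
        refine setIntegral_mono_set ?_ (Filter.Eventually.of_forall fun t => by positivity)
          (Filter.Eventually.of_forall ?_)
        · exact (((cF (j + 1)).norm.pow 2).integrableOn_Icc (a := -X) (b := X)).mono_set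
            Set.inter_subset_left
        · rintro t ⟨⟨h5, h6⟩, h7, h8⟩
          exact ⟨⟨by linarith, by linarith⟩, h7, h8⟩
      have h9 : (2 + 4 * C) / K * (1 / 2) ^ (j + 1) + 2 * C * δ' =
          2 * ((1 / 2) ^ (j + 1) / K) + 2 * (C * (2 * (1 / 2) ^ (j + 1) / K + δ')) := by
        field_simp
        ring
      rw [h9]
      linarith
    -- the last level
    have hlogx : Real.log (X ^ ((1 : ℝ) / (20 * 3 ^ K))) = L / (20 * 3 ^ K) := by
      rw [Real.log_rpow hXpos]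
      ring
    have hlogy : Real.log (X ^ ((1 : ℝ) / 20)) = L / 20 := by
      rw [Real.log_rpow hXpos]
      ring
    have h3K : (1 : ℝ) ≤ 3 ^ K := one_le_pow₀ (by norm_num)
    have hLPst : (K : ℝ) ≤ LP (Pst K X) := by
      have hx2 : 2 ≤ X ^ ((1 : ℝ) / (20 * 3 ^ K)) := by
        rw [← Real.log_le_log_iff (by norm_num) (Real.rpow_pos_of_pos hXpos _), hlogx,
          le_div_iff₀ (by positivity)]
        linarith
      have hxy : X ^ ((1 : ℝ) / (20 * 3 ^ K)) ≤ X ^ ((1 : ℝ) / 20) := by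
        refine Real.rpow_le_rpow_of_exponent_le hXone ?_
        refine one_div_le_one_div_of_le (by norm_num) ?_
        linarith
      have h1 := hmer _ _ hx2 hxy
      rw [hlogx, hlogy] at h1
      have hLpos : 0 < L := by linarith
      have h2 : L / 20 / (L / (20 * 3 ^ K)) = 3 ^ K := by
        field_simp
      rw [h2, Real.log_pow] at h1
      have h3 : Cm / (L / (20 * 3 ^ K)) ≤ K * (Real.log 3 - 1) := by
        have h4 : 0 < (K : ℝ) * (Real.log 3 - 1) := mul_pos hKpos (by linarith)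
        rw [div_le_iff₀ h4] at hL2
        rw [div_le_iff₀ (by positivity)]
        have h5 : (K : ℝ) * (Real.log 3 - 1) * (L / (20 * 3 ^ K)) =
            L * (K * (Real.log 3 - 1)) / (20 * 3 ^ K) := by ring
        rw [h5, le_div_iff₀ (by positivity)]
        linarith
      have h6 := (abs_le.1 h1).1
      have h7 : LP (Pst K X) = LP (pr (X ^ ((1 : ℝ) / (20 * 3 ^ K))) (X ^ ((1 : ℝ) / 20))) := rfl
      rw [h7]
      linarith
    have herrst : ∫ t in (-T)..T, ‖Av f X t - Fst f K X t‖ ^ 2 ≤ C * (2 / K + δ) := by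
      have h1 := hdec f X T (Pst K X) (Ist K X) K hf hXone hK1 hXK (Pst_prime K X hXpos.le)
        (Pst_ix K X hXpos) (hKR.trans hLPst) hT0 hTX
      refine h1.trans (mul_le_mul_of_nonneg_left ?_ hC.le)
      have h2 : 1 / LP (Pst K X) ≤ 1 / K := one_div_le_one_div_of_le hKpos hLPst
      have h3 : ((Pst K X).card : ℝ) ^ 2 / X ≤ δ := by
        have h4 : ((Pst K X).card : ℝ) ≤ X ^ ((1 : ℝ) / 20) := pr_card _ _ (Real.rpow_nonneg hXpos.le _)
        have h5 : X ^ ((1 : ℝ) / 20) = Real.exp (L / 20) := by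
          rw [Real.rpow_def_of_pos hXpos]
          congr 1
          ring
        rw [h5] at h4
        rw [div_le_iff₀ hXpos]
        calc ((Pst K X).card : ℝ) ^ 2 ≤ Real.exp (L / 20) ^ 2 :=
              pow_le_pow_left₀ (Nat.cast_nonneg _) h4 2
          _ = Real.exp (2 * (L / 20)) := by
              rw [← Real.exp_nat_mul]
              norm_num
          _ ≤ Real.exp (-L / 2 + L) := Real.exp_le_exp.2 (by linarith)
          _ = δ * X := by rw [Real.exp_add, hXexp]
      have h6 : (2 : ℝ) / K = 1 / K + 1 / K := by ring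
      linarith
    have hU : ∫ t in Set.Icc (-T) T ∩ {t | t ∉ {t | Small f K J t}}, ‖Av f X t‖ ^ 2 ≤
        2 * (2 * (ε / 16)) + 2 * (C * (2 / K + δ)) := by
      have hmeas : MeasurableSet {t | t ∉ {t | Small f K J t}} := (Small_meas f K J).compl
      have h1 := split_le (Av f X) (Fst f K X) cA cS T hT0 (Set.Icc (-T) T ∩ {t | t ∉ {t | Small f K J t}})
        Set.inter_subset_left (measurableSet_Icc.inter hmeas)
      have h2 : ∫ t in Set.Icc (-T) T ∩ {t | t ∉ {t | Small f K J t}}, ‖Fst f K X t‖ ^ 2 ≤ 2 * (ε / 16) := by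
        refine disc_le (fun t => ‖Fst f K X t‖ ^ 2) (cS.norm.pow 2) (fun t => by positivity) _ hmeas T
          (ε / 16) ?_
        intro W hW hWt
        refine hXf X W hX3 hW (fun t ht => (hWt t ht).1.trans hTX) ?_
        exact hXe f X J W hf hX2 hJ1 hJ3 hW (fun t ht => ⟨(hWt t ht).1.trans hTX, (hWt t ht).2⟩)
      linarith
    -- total
    have hcov := cover_le (fun j => {t | Small f K j t}) (fun j => Small_meas f K j)
      (fun t => ‖Av f X t‖ ^ 2) (cA.norm.pow 2) (fun t => by positivity) T J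
    beta_reduce at hcov
    rw [intervalIntegral.integral_of_le (by linarith), ← integral_Icc_eq_integral_Ioc]
    refine hcov.trans ?_
    have hsumj := Finset.sum_le_sum hlev
    rw [Finset.sum_add_distrib, ← Finset.mul_sum, geo_half, Finset.sum_const, Finset.card_range,
      nsmul_eq_mul] at hsumj
    have hgeo : (2 + 4 * C) / K * (1 - (1 / 2 : ℝ) ^ J) ≤ (2 + 4 * C) / K := by
      have h1 : (0 : ℝ) < (1 / 2) ^ J := by positivity
      have h2 : 0 < (2 + 4 * C) / K := by positivity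
      nlinarith
    have hfin : 2 * (1 / (K : ℝ)) + 2 * (C * (2 * (1 / 2) ^ 0 / K + δ')) + ((2 + 4 * C) / K + J * (2 * C * δ')) +
        (2 * (2 * (ε / 16)) + 2 * (C * (2 / K + δ))) =
        (4 + 12 * C) / K + 2 * C * ((J + 1) * δ') + 2 * (C * δ) + ε / 4 := by
      field_simp
      ring
    have h3 : 2 * C * ((J + 1) * δ') ≤ 2 * C * δ := mul_le_mul_of_nonneg_left hJδ (by positivity)
    linarith
  rw [Filter.eventually_atTop] at hev
  exact hev

end Pool.Agent.Mrd
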