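import Pool.Agent.Mrd.Defs

/-!
Mrd SELB: Selberg's weights.
-/

set_option autoImplicit false

namespace Pool.Agent.Mrd

open Finset MeasureTheory Filter Topology

private noncomputable def selb_mu (n : ℕ) : ℝ := ((ArithmeticFunction.moebius n : ℤ) : ℝ)

private theorem selb_mu_sum (n : ℕ) : ∑ d ∈ n.divisors, selb_mu d = if n = 1 then 1 else 0 := by
  have h : ∑ d ∈ n.divisors, ArithmeticFunction.moebius d = if n = 1 then 1 else 0 := by
    rw [← ArithmeticFunction.coe_mul_zeta_apply, ArithmeticFunction.moebius_mul_coe_zeta,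
      ArithmeticFunction.one_apply]
  unfold selb_mu
  rw [← Int.cast_sum, h]
  split_ifs <;> simp

private noncomputable def selb_g (m : ℕ) : ℝ := if Squarefree m then 1 / (Nat.totient m : ℝ) else 0

private theorem selb_g_nonneg (m : ℕ) : 0 ≤ selb_g m := by
  unfold selb_g
  split_ifs
  · positivity
  · exact le_refl _

private theorem selb_between (k l : ℕ) (h : Squarefree (k * l)) :
    ∑ d ∈ (k * l).divisors.filter (fun d => k ∣ d), selb_mu d = if l = 1 then selb_mu k else 0 := by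
  have h0 : k * l ≠ 0 := h.ne_zero
  have hk : k ≠ 0 := left_ne_zero_of_mul h0
  have hl : l ≠ 0 := right_ne_zero_of_mul h0
  have hc : Nat.Coprime k l := Nat.coprime_of_squarefree_mul h
  have e1 : (k * l).divisors.filter (fun d => k ∣ d) = l.divisors.image (fun j => k * j) := by
    ext d
    simp only [mem_filter, Nat.mem_divisors, mem_image]
    constructor
    · rintro ⟨⟨hd, _⟩, j, rfl⟩
      exact ⟨j, ⟨Nat.dvd_of_mul_dvd_mul_left (Nat.pos_of_ne_zero hk) hd, hl⟩, rfl⟩
    · rintro ⟨j, ⟨hj, _⟩, rfl⟩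
      exact ⟨⟨Nat.mul_dvd_mul_left k hj, h0⟩, Dvd.intro j rfl⟩
  rw [e1, sum_image (by
    intro a _ b _ hab
    exact Nat.eq_of_mul_eq_mul_left (Nat.pos_of_ne_zero hk) hab)]
  have e2 : ∀ j ∈ l.divisors, selb_mu (k * j) = selb_mu k * selb_mu j := by
    intro j hj
    have : Nat.Coprime k j := Nat.Coprime.coprime_dvd_right (Nat.dvd_of_mem_divisors hj) hc
    simp only [selb_mu]
    rw [ArithmeticFunction.isMultiplicative_moebius.map_mul_of_coprime this]
    push_cast
    ring
  rw [sum_congr rfl e2, ← mul_sum, selb_mu_sum]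
  split_ifs <;> simp

private theorem selb_inner (D k n : ℕ) (hn : n ∈ Icc 1 D) :
    ∑ d ∈ Icc 1 D, (if k ∣ d then (if d ∣ n then selb_mu d * selb_g n else 0) else 0) =
      if n = k then selb_mu k * selb_g k else 0 := by
  rw [mem_Icc] at hn
  by_cases hs : Squarefree n
  swap
  · have h1 : selb_g n = 0 := by
      simp [selb_g, hs]
    have h2 : (if n = k then selb_mu k * selb_g k else 0) = 0 := by
      split_ifs with h
      · rw [← h, h1, mul_zero]
      · rfl
    rw [h2]
    refine sum_eq_zero ?_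
    intro d _
    rw [h1]
    simp
  by_cases hk : k ∣ n
  swap
  · have h2 : ¬ n = k := by
      rintro rfl
      exact hk (dvd_refl _)
    rw [if_neg h2]
    refine sum_eq_zero ?_
    intro d _
    by_cases h3 : k ∣ d
    · have h4 : ¬ d ∣ n := fun h => hk (h3.trans h)
      rw [if_pos h3, if_neg h4]
    · rw [if_neg h3]
  obtain ⟨l, rfl⟩ := hk
  have h0 : k * l ≠ 0 := hs.ne_zero
  have hk0 : k ≠ 0 := left_ne_zero_of_mul h0
  have e1 : ∑ d ∈ Icc 1 D, (if k ∣ d then (if d ∣ k * l then selb_mu d * selb_g (k * l) else 0) else 0) =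
      (∑ d ∈ (k * l).divisors.filter (fun d => k ∣ d), selb_mu d) * selb_g (k * l) := by
    rw [sum_mul]
    have e2 : (k * l).divisors.filter (fun d => k ∣ d) =
        (Icc 1 D).filter (fun d => k ∣ d ∧ d ∣ k * l) := by
      ext d
      simp only [mem_filter, Nat.mem_divisors, mem_Icc]
      constructor
      · rintro ⟨⟨h1, _⟩, h2⟩
        refine ⟨⟨Nat.pos_of_dvd_of_pos h1 (Nat.pos_of_ne_zero h0), ?_⟩, h2, h1⟩
        exact le_trans (Nat.le_of_dvd (Nat.pos_of_ne_zero h0) h1) hn.2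
      · rintro ⟨_, h2, h1⟩
        exact ⟨⟨h1, h0⟩, h2⟩
    rw [e2, sum_filter]
    refine sum_congr rfl ?_
    intro d _
    by_cases h1 : k ∣ d <;> by_cases h2 : d ∣ k * l <;> simp [h1, h2]
  rw [e1, selb_between k l hs]
  have e3 : (k * l = k) ↔ l = 1 := by
    constructor
    · intro h
      exact Nat.eq_of_mul_eq_mul_left (Nat.pos_of_ne_zero hk0) (by rw [h, mul_one])
    · intro h
      rw [h, mul_one]
  by_cases h1 : l = 1
  · rw [if_pos h1, if_pos (e3.2 h1), h1, mul_one]
  · rw [if_neg h1, if_neg (fun h => h1 (e3.1 h)), zero_mul]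

private noncomputable def selb_G (D : ℕ) : ℝ := ∑ n ∈ Icc 1 D, selb_g n

private noncomputable def selb_lam (D d : ℕ) : ℝ :=
  selb_mu d * d / selb_G D * ∑ n ∈ Icc 1 D, if d ∣ n then selb_g n else 0

private theorem selb_u (D k : ℕ) (hk : k ∈ Icc 1 D) :
    ∑ d ∈ Icc 1 D, (if k ∣ d then selb_lam D d / d else 0) = selb_mu k * selb_g k / selb_G D := by
  have e1 : ∀ d ∈ Icc 1 D, (if k ∣ d then selb_lam D d / d else 0) =
      ∑ n ∈ Icc 1 D, (if k ∣ d then (if d ∣ n then selb_mu d * selb_g n else 0) else 0) / selb_G D := by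
    intro d hd
    rw [mem_Icc] at hd
    have hd0 : (d : ℝ) ≠ 0 := by
      have : d ≠ 0 := by omega
      exact_mod_cast this
    by_cases h1 : k ∣ d
    · simp only [h1, if_true]
      unfold selb_lam
      rw [mul_sum, sum_div]
      refine sum_congr rfl ?_
      intro n _
      by_cases h2 : d ∣ n
      · simp only [h2, if_true]
        field_simp
      · simp only [h2, if_false]
        simp
    · simp only [h1, if_false]
      simp
  rw [sum_congr rfl e1, sum_comm]
  have e2 : ∀ n ∈ Icc 1 D, ∑ d ∈ Icc 1 D,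
      (if k ∣ d then (if d ∣ n then selb_mu d * selb_g n else 0) else 0) / selb_G D =
      if n = k then selb_mu k * selb_g k / selb_G D else 0 := by
    intro n hn
    rw [← sum_div, selb_inner D k n hn]
    split_ifs
    · rfl
    · exact zero_div _
  rw [sum_congr rfl e2, sum_ite_eq' (Icc 1 D) k, if_pos hk]

private theorem selb_diag (D : ℕ) (lam : ℕ → ℝ) :
    ∑ d ∈ Icc 1 D, ∑ e ∈ Icc 1 D, lam d * lam e / (Nat.lcm d e : ℕ) =
      ∑ k ∈ Icc 1 D, (Nat.totient k : ℝ) * (∑ d ∈ Icc 1 D, (if k ∣ d then lam d / d else 0)) ^ 2 := by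
  have e1 : ∀ d ∈ Icc 1 D, ∀ e ∈ Icc 1 D, lam d * lam e / ((Nat.lcm d e : ℕ) : ℝ) =
      ∑ k ∈ Icc 1 D, (Nat.totient k : ℝ) * ((if k ∣ d then lam d / d else 0) * (if k ∣ e then lam e / e else 0)) := by
    intro d hd e he
    rw [mem_Icc] at hd he
    have hd0 : (d : ℝ) ≠ 0 := by
      have : d ≠ 0 := by omega
      exact_mod_cast this
    have he0 : (e : ℝ) ≠ 0 := by
      have : e ≠ 0 := by omega
      exact_mod_cast this
    have hl0 : ((Nat.lcm d e : ℕ) : ℝ) ≠ 0 := by
      have : Nat.lcm d e ≠ 0 := Nat.lcm_ne_zero (by omega) (by omega)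
      exact_mod_cast this
    have hgl : ((Nat.gcd d e : ℕ) : ℝ) * ((Nat.lcm d e : ℕ) : ℝ) = d * e := by
      exact_mod_cast Nat.gcd_mul_lcm d e
    have hg : ((Nat.gcd d e : ℕ) : ℝ) = ∑ k ∈ (Icc 1 D).filter (fun k => k ∣ d ∧ k ∣ e), (Nat.totient k : ℝ) := by
      have h1 : (Icc 1 D).filter (fun k => k ∣ d ∧ k ∣ e) = (Nat.gcd d e).divisors := by
        ext k
        simp only [mem_filter, Nat.mem_divisors, mem_Icc]
        have hg0 : Nat.gcd d e ≠ 0 := Nat.gcd_ne_zero_left (by omega)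
        constructor
        · rintro ⟨_, h2, h3⟩
          exact ⟨Nat.dvd_gcd h2 h3, hg0⟩
        · rintro ⟨h2, _⟩
          have h3 : k ∣ d := h2.trans (Nat.gcd_dvd_left d e)
          refine ⟨⟨Nat.pos_of_dvd_of_pos h3 (by omega), ?_⟩, h3, h2.trans (Nat.gcd_dvd_right d e)⟩
          exact le_trans (Nat.le_of_dvd (by omega) h3) hd.2
      rw [h1, ← Nat.cast_sum, Nat.sum_totient]
    have e2 : ∑ k ∈ Icc 1 D, (Nat.totient k : ℝ) * ((if k ∣ d then lam d / d else 0) * (if k ∣ e then lam e / e else 0)) =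
        ((Nat.gcd d e : ℕ) : ℝ) * (lam d / d * (lam e / e)) := by
      rw [hg, sum_filter, sum_mul]
      refine sum_congr rfl ?_
      intro k _
      by_cases h1 : k ∣ d <;> by_cases h2 : k ∣ e <;> simp [h1, h2]
    rw [e2, div_eq_iff hl0]
    have : ((Nat.gcd d e : ℕ) : ℝ) * (lam d / d * (lam e / e)) * ((Nat.lcm d e : ℕ) : ℝ) =
        (((Nat.gcd d e : ℕ) : ℝ) * ((Nat.lcm d e : ℕ) : ℝ)) * (lam d / d * (lam e / e)) := by
      ring
    rw [this, hgl]
    field_simp
  have e3 : ∀ k ∈ Icc 1 D, (Nat.totient k : ℝ) * (∑ d ∈ Icc 1 D, (if k ∣ d then lam d / d else 0)) ^ 2 =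
      ∑ d ∈ Icc 1 D, ∑ e ∈ Icc 1 D, (Nat.totient k : ℝ) * ((if k ∣ d then lam d / d else 0) * (if k ∣ e then lam e / e else 0)) := by
    intro k _
    rw [pow_two, sum_mul_sum, mul_sum]
    refine sum_congr rfl ?_
    intro d _
    rw [mul_sum]
  rw [sum_congr rfl e3]
  have e4 : ∑ k ∈ Icc 1 D, ∑ d ∈ Icc 1 D, ∑ e ∈ Icc 1 D,
      (Nat.totient k : ℝ) * ((if k ∣ d then lam d / d else 0) * (if k ∣ e then lam e / e else 0)) =
      ∑ d ∈ Icc 1 D, ∑ k ∈ Icc 1 D, ∑ e ∈ Icc 1 D,
      (Nat.totient k : ℝ) * ((if k ∣ d then lam d / d else 0) * (if k ∣ e then lam e / e else 0)) := sum_comm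
  rw [e4]
  refine sum_congr rfl ?_
  intro d hd
  rw [sum_congr rfl (fun e he => e1 d hd e he)]
  exact sum_comm

private theorem selb_lam_abs (D d : ℕ) (hG : 0 < selb_G D) : |selb_lam D d| ≤ 1 := by
  by_cases hs : Squarefree d
  swap
  · have : selb_mu d = 0 := by
      unfold selb_mu
      rw [ArithmeticFunction.moebius_eq_zero_of_not_squarefree hs]
      simp
    unfold selb_lam
    rw [this]
    simp
  have hd0 : d ≠ 0 := hs.ne_zero
  have hmu : |selb_mu d| = 1 := by
    unfold selb_mu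
    have := ArithmeticFunction.abs_moebius_eq_one_of_squarefree hs
    rw [← Int.cast_abs, this]
    simp
  set A : ℝ := ∑ n ∈ Icc 1 D, if d ∣ n then selb_g n else 0 with hA
  have hA0 : 0 ≤ A := by
    refine sum_nonneg ?_
    intro n _
    split_ifs
    · exact selb_g_nonneg n
    · exact le_refl _
  have key : (d : ℝ) * A ≤ selb_G D := by
    -- pairs (j, n), j | d, d | n, n squarefree, map to n / j
    set P : Finset (ℕ × ℕ) := d.divisors ×ˢ ((Icc 1 D).filter (fun n => d ∣ n ∧ Squarefree n)) with hP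
    have hinj : Set.InjOn (fun x : ℕ × ℕ => x.2 / x.1) (P : Set (ℕ × ℕ)) := by
      have hgc : ∀ j n : ℕ, j ∣ d → d ∣ n → Squarefree n → Nat.gcd (n / j) d = d / j := by
        rintro j n ⟨c, rfl⟩ ⟨l, rfl⟩ hn
        have hj0 : 0 < j := Nat.pos_of_ne_zero (left_ne_zero_of_mul hd0)
        have hc0 : 0 < c := Nat.pos_of_ne_zero (right_ne_zero_of_mul hd0)
        have e1 : j * c * l / j = c * l := by
          rw [mul_assoc]
          exact Nat.mul_div_cancel_left _ hj0
        have e2 : j * c / j = c := Nat.mul_div_cancel_left _ hj0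
        rw [e1, e2]
        have e3 : Nat.Coprime (j * c) l := Nat.coprime_of_squarefree_mul hn
        have e4 : Nat.Coprime l j := (Nat.Coprime.coprime_dvd_left (Dvd.intro c rfl) e3).symm
        rw [mul_comm j c, Nat.gcd_mul_left, e4, mul_one]
      rintro ⟨j, n⟩ h1 ⟨j', n'⟩ h2 h3
      rw [hP, Finset.mem_coe, mem_product, Nat.mem_divisors, mem_filter, mem_Icc] at h1 h2
      simp only at h1 h2 h3
      have g1 := hgc j n h1.1.1 h1.2.2.1 h1.2.2.2
      have g2 := hgc j' n' h2.1.1 h2.2.2.1 h2.2.2.2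
      have g3 : d / j = d / j' := by
        rw [← g1, ← g2, h3]
      have g4 : j = j' := by
        obtain ⟨c, hc⟩ := h1.1.1
        obtain ⟨c', hc'⟩ := h2.1.1
        have hj0 : 0 < j := Nat.pos_of_ne_zero (by
          rintro rfl
          simp at hc
          exact hd0 hc)
        have hj0' : 0 < j' := Nat.pos_of_ne_zero (by
          rintro rfl
          simp at hc'
          exact hd0 hc')
        have e1 : d / j = c := by
          rw [hc]
          exact Nat.mul_div_cancel_left _ hj0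
        have e2 : d / j' = c' := by
          rw [hc']
          exact Nat.mul_div_cancel_left _ hj0'
        have e3 : c = c' := by
          rw [← e1, ← e2, g3]
        subst e3
        have hc0 : 0 < c := Nat.pos_of_ne_zero (by
          rintro rfl
          simp at hc
          exact hd0 hc)
        exact Nat.eq_of_mul_eq_mul_right hc0 (by rw [← hc, ← hc'])
      subst g4
      have g5 : n = n' := by
        have a1 : j ∣ n := h1.1.1.trans h1.2.2.1
        have a2 : j ∣ n' := h1.1.1.trans h2.2.2.1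
        rw [← Nat.div_mul_cancel a1, ← Nat.div_mul_cancel a2, h3]
      rw [g5]
    have hval : ∀ x ∈ P, selb_g (x.2 / x.1) = (Nat.totient x.1 : ℝ) * selb_g x.2 := by
      rintro ⟨j, n⟩ h1
      rw [hP, mem_product, Nat.mem_divisors, mem_filter, mem_Icc] at h1
      simp only at h1 ⊢
      obtain ⟨⟨hj, _⟩, ⟨hn1, hn2⟩, hdn, hn⟩ := h1
      obtain ⟨l, rfl⟩ := hj.trans hdn
      have hj0 : 0 < j := Nat.pos_of_ne_zero (left_ne_zero_of_mul hn.ne_zero)
      have hc : Nat.Coprime j l := Nat.coprime_of_squarefree_mul hn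
      have hl : Squarefree l := Squarefree.squarefree_of_dvd (Dvd.intro_left j rfl) hn
      rw [Nat.mul_div_cancel_left _ hj0]
      unfold selb_g
      rw [if_pos hl, if_pos hn, Nat.totient_mul hc]
      have t1 : (Nat.totient j : ℝ) ≠ 0 := by
        have := Nat.totient_pos.2 hj0
        have h : Nat.totient j ≠ 0 := by omega
        exact_mod_cast h
      have t2 : (Nat.totient l : ℝ) ≠ 0 := by
        have := Nat.totient_pos.2 (Nat.pos_of_ne_zero hl.ne_zero)
        have h : Nat.totient l ≠ 0 := by omega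
        exact_mod_cast h
      push_cast
      field_simp
    have hsum : ∑ x ∈ P, selb_g (x.2 / x.1) = d * A := by
      rw [sum_congr rfl hval, hP, sum_product]
      have e1 : ∀ j ∈ d.divisors, ∑ n ∈ (Icc 1 D).filter (fun n => d ∣ n ∧ Squarefree n),
          (Nat.totient j : ℝ) * selb_g n = (Nat.totient j : ℝ) * A := by
        intro j _
        rw [← mul_sum, hA, sum_filter]
        congr 1
        refine sum_congr rfl ?_
        intro n _
        by_cases h1 : d ∣ n <;> by_cases h2 : Squarefree n <;> simp [h1, h2, selb_g]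
      simp only
      rw [sum_congr rfl e1, ← sum_mul, ← Nat.cast_sum, Nat.sum_totient]
    rw [← hsum, ← sum_image (f := selb_g) hinj]
    unfold selb_G
    refine sum_le_sum_of_subset_of_nonneg ?_ ?_
    · intro m hm
      rw [mem_image] at hm
      obtain ⟨⟨j, n⟩, h1, rfl⟩ := hm
      rw [hP, mem_product, Nat.mem_divisors, mem_filter, mem_Icc] at h1
      simp only at h1 ⊢
      obtain ⟨⟨hj, _⟩, ⟨hn1, hn2⟩, hdn, hn⟩ := h1
      have hj1 : j ∣ n := hj.trans hdn
      rw [mem_Icc]
      constructor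
      · exact Nat.div_pos (Nat.le_of_dvd (by omega) hj1) (Nat.pos_of_dvd_of_pos hj1 (by omega))
      · exact le_trans (Nat.div_le_self _ _) hn2
    · intro n _ _
      exact selb_g_nonneg n
  unfold selb_lam
  rw [← hA, abs_mul, abs_div, abs_mul, hmu, abs_of_nonneg hA0, abs_of_pos hG, one_mul,
    abs_of_nonneg (by positivity : (0 : ℝ) ≤ (d : ℝ)), div_mul_eq_mul_div, div_le_one hG]
  exact key

private noncomputable def selb_f : ℕ →* ℝ where
  toFun n := (n : ℝ)⁻¹
  map_one' := by simp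
  map_mul' m n := by
    push_cast
    rw [mul_inv]

private theorem selb_fiber (D m : ℕ) (hm : Squarefree m) :
    ∑ n ∈ (Icc 1 D).filter (fun n => n.primeFactors = m.primeFactors), (n : ℝ)⁻¹ ≤
      1 / (Nat.totient m : ℝ) := by
  have hm0 : m ≠ 0 := hm.ne_zero
  have hmR : (0 : ℝ) < m := by
    have := Nat.pos_of_ne_zero hm0
    exact_mod_cast this
  set T := (Icc 1 D).filter (fun n => n.primeFactors = m.primeFactors) with hT
  have hdvd : ∀ n ∈ T, m ∣ n := by
    intro n hn
    rw [hT, mem_filter] at hn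
    have : m = ∏ p ∈ n.primeFactors, p := by
      rw [hn.2]
      exact (Nat.prod_primeFactors_of_squarefree hm).symm
    rw [this]
    exact Nat.prod_primeFactors_dvd n
  have hEP := (EulerProduct.summable_and_hasSum_factoredNumbers_prod_filter_prime_geometric
    (f := selb_f) (by
      intro p hp
      have : (1 : ℝ) < p := by exact_mod_cast hp.one_lt
      change ‖(p : ℝ)⁻¹‖ < 1
      rw [norm_inv, Real.norm_natCast]
      exact inv_lt_one_of_one_lt₀ this) m.primeFactors).2
  have hprod : (∏ p ∈ m.primeFactors with p.Prime, (1 - selb_f p)⁻¹) = m / (Nat.totient m : ℝ) := by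
    have e1 : m.primeFactors.filter Nat.Prime = m.primeFactors := by
      refine filter_true_of_mem ?_
      intro p hp
      exact Nat.prime_of_mem_primeFactors hp
    rw [e1, prod_inv_distrib]
    have e2 : (Nat.totient m : ℝ) = m * ∏ p ∈ m.primeFactors, (1 - selb_f p) := by
      have := congrArg (fun q : ℚ => (q : ℝ)) (Nat.totient_eq_mul_prod_factors m)
      push_cast at this
      rw [this]
      rfl
    have e3 : (∏ p ∈ m.primeFactors, (1 - selb_f p)) ≠ 0 := by
      intro h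
      rw [h, mul_zero] at e2
      have := Nat.totient_pos.2 (Nat.pos_of_ne_zero hm0)
      have h2 : Nat.totient m ≠ 0 := by omega
      exact h2 (by exact_mod_cast e2)
    rw [e2]
    field_simp
  rw [hprod] at hEP
  -- the finite set of quotients
  set U : Finset ℕ := T.image (fun n => n / m) with hU
  have hUf : ∀ l ∈ U, l ∈ Nat.factoredNumbers m.primeFactors := by
    intro l hl
    rw [hU, mem_image] at hl
    obtain ⟨n, hn, rfl⟩ := hl
    have h1 := hdvd n hn
    rw [hT, mem_filter, mem_Icc] at hn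
    have h2 : n / m ∣ n := Nat.div_dvd_of_dvd h1
    refine Nat.mem_factoredNumbers_of_primeFactors_subset ?_ ?_
    · have := Nat.pos_of_dvd_of_pos h2 (by omega)
      omega
    · rw [← hn.2]
      exact Nat.primeFactors_mono h2 (by omega)
  have h1 : ∑ l ∈ U, (l : ℝ)⁻¹ ≤ m / (Nat.totient m : ℝ) := by
    have e1 : ∑ l ∈ U, (l : ℝ)⁻¹ = ∑ x : {x // x ∈ U}, (((x : ℕ) : ℝ))⁻¹ := (Finset.sum_coe_sort U (fun l => ((l : ℕ) : ℝ)⁻¹)).symm
    set V : Finset (Nat.factoredNumbers m.primeFactors) :=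
      (Finset.univ : Finset {x // x ∈ U}).image (fun x => ⟨x.1, hUf x.1 x.2⟩) with hV
    have e2 : ∑ y ∈ V, selb_f y = ∑ l ∈ U, (l : ℝ)⁻¹ := by
      rw [e1, hV, sum_image]
      · rfl
      · intro x _ y _ hxy
        have := congrArg (fun z : Nat.factoredNumbers m.primeFactors => (z : ℕ)) hxy
        exact Subtype.ext this
    rw [← e2]
    refine sum_le_hasSum V ?_ hEP
    intro y _
    change 0 ≤ ((y : ℕ) : ℝ)⁻¹
    positivity
  have h2 : ∑ n ∈ T, (n : ℝ)⁻¹ = (m : ℝ)⁻¹ * ∑ l ∈ U, (l : ℝ)⁻¹ := by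
    rw [hU, sum_image, mul_sum]
    · refine sum_congr rfl ?_
      intro n hn
      obtain ⟨l, rfl⟩ := hdvd n hn
      rw [Nat.mul_div_cancel_left _ (Nat.pos_of_ne_zero hm0)]
      push_cast
      rw [mul_inv]
    · intro a ha b hb hab
      have hab2 : a / m = b / m := hab
      rw [← Nat.div_mul_cancel (hdvd a ha), ← Nat.div_mul_cancel (hdvd b hb), hab2]
  rw [h2]
  calc (m : ℝ)⁻¹ * ∑ l ∈ U, (l : ℝ)⁻¹ ≤ (m : ℝ)⁻¹ * (m / (Nat.totient m : ℝ)) :=
        mul_le_mul_of_nonneg_left h1 (by positivity)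
    _ = 1 / (Nat.totient m : ℝ) := by
        field_simp

private theorem selb_G_ge (D : ℕ) (hD : 1 ≤ D) : Real.log D ≤ selb_G D := by
  have h1 : Real.log D ≤ ∑ n ∈ Icc 1 D, (n : ℝ)⁻¹ := by
    have e1 := log_add_one_le_harmonic D
    have e2 : Real.log D ≤ Real.log (D + 1 : ℕ) := by
      refine Real.log_le_log ?_ ?_
      · have : 0 < D := by omega
        exact_mod_cast this
      · push_cast
        linarith
    have e3 : ((harmonic D : ℚ) : ℝ) = ∑ n ∈ Icc 1 D, (n : ℝ)⁻¹ := by
      rw [harmonic_eq_sum_Icc]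
      push_cast
      rfl
    rw [← e3]
    push_cast at e1 e2
    linarith
  refine le_trans h1 ?_
  have h2 : ∀ n ∈ Icc 1 D, (∏ p ∈ n.primeFactors, p) ∈ (Icc 1 D).filter Squarefree := by
    intro n hn
    rw [mem_Icc] at hn
    have hd := Nat.prod_primeFactors_dvd n
    rw [mem_filter, mem_Icc]
    refine ⟨⟨Nat.pos_of_dvd_of_pos hd (by omega), le_trans (Nat.le_of_dvd (by omega) hd) hn.2⟩, ?_⟩
    rw [Nat.squarefree_iff_prime_squarefree]
    intro q hq hqq
    have hmem : ∀ S : Finset ℕ, S ⊆ n.primeFactors → q ∣ ∏ p ∈ S, p → q ∈ S := by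
      intro S hS h
      obtain ⟨p, hp, hqp⟩ := (Prime.dvd_finsetProd_iff hq.prime _).1 h
      have hpp : p.Prime := Nat.prime_of_mem_primeFactors (hS hp)
      rw [(Nat.prime_dvd_prime_iff_eq hq hpp).1 hqp]
      exact hp
    have h3 : q ∈ n.primeFactors := hmem _ (Finset.Subset.refl _) (dvd_trans (Dvd.intro _ rfl) hqq)
    rw [← Finset.mul_prod_erase _ _ h3] at hqq
    have h4 := hmem _ (Finset.erase_subset _ _) (Nat.dvd_of_mul_dvd_mul_left hq.pos hqq)
    exact Finset.notMem_erase _ _ h4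
  rw [← sum_fiberwise_of_maps_to h2]
  unfold selb_G
  have e4 : ∑ m ∈ Icc 1 D, selb_g m = ∑ m ∈ (Icc 1 D).filter Squarefree, 1 / (Nat.totient m : ℝ) := by
    rw [sum_filter]
    rfl
  rw [e4]
  refine sum_le_sum ?_
  intro m hm
  rw [mem_filter] at hm
  refine le_trans (le_of_eq ?_) (selb_fiber D m hm.2)
  refine sum_congr ?_ (fun _ _ => rfl)
  ext n
  simp only [mem_filter, mem_Icc]
  constructor
  · rintro ⟨h3, rfl⟩
    refine ⟨h3, ?_⟩
    rw [Nat.primeFactors_prod]
    intro p hp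
    exact Nat.prime_of_mem_primeFactors hp
  · rintro ⟨h3, h4⟩
    refine ⟨h3, ?_⟩
    rw [h4]
    exact Nat.prod_primeFactors_of_squarefree hm.2

/-- Selberg's sieve for all primes `≤ D`. `G = ∑_{m ≤ D} μ²(m)/φ(m)`, `G ≥ ∑_{n ≤ D} 1/n ≥ log D` (group the `n` by their squarefree kernel:
`∑_{n : rad n = m} 1/n = 1/φ(m)`). `y_m = μ²(m)/G` for `m ≤ D`, `λ_d = μ(d) (d/φ(d)) G⁻¹ ∑_{m ≤ D/d, (m,d)=1} μ²(m)/φ(m)`, that is
`λ_d = d ∑_{d | m ≤ D} μ(m/d) ... ` (the usual diagonalisation `∑_{d,e} λ_d λ_e/[d,e] = ∑_{m ≤ D} φ(m) (∑_{m | d} λ_d/d)² = ∑_m μ²(m)/(φ(m) G²) = 1/G`);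
`|λ_d| ≤ 1` since `G ≥ ∑_{k | d} (μ²(k)/φ(k)) ∑_{m ≤ D/d, (m,d)=1} μ²(m)/φ(m) = (d/φ(d)) ∑_{m ≤ D/d, (m,d) = 1} ...`.
(`Mathlib.NumberTheory.SelbergSieve` has part of this.) -/
theorem selberg (D : ℕ) (hD : 2 ≤ D) : ∃ lam : ℕ → ℝ, lam 1 = 1 ∧ (∀ d, |lam d| ≤ 1) ∧
    (∀ d, D < d → lam d = 0) ∧
    0 ≤ ∑ d ∈ Icc 1 D, ∑ e ∈ Icc 1 D, lam d * lam e / (Nat.lcm d e : ℕ) ∧
    ∑ d ∈ Icc 1 D, ∑ e ∈ Icc 1 D, lam d * lam e / (Nat.lcm d e : ℕ) ≤ 1 / Real.log D := by
  have hlog : 0 < Real.log D := by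
    refine Real.log_pos ?_
    have : 1 < D := by omega
    exact_mod_cast this
  have hGlog := selb_G_ge D (by omega)
  have hG : 0 < selb_G D := lt_of_lt_of_le hlog hGlog
  have hsum : ∑ d ∈ Icc 1 D, ∑ e ∈ Icc 1 D, selb_lam D d * selb_lam D e / (Nat.lcm d e : ℕ) = 1 / selb_G D := by
    rw [selb_diag]
    have e1 : ∀ k ∈ Icc 1 D, (Nat.totient k : ℝ) * (∑ d ∈ Icc 1 D, (if k ∣ d then selb_lam D d / d else 0)) ^ 2 =
        selb_g k / selb_G D ^ 2 := by
      intro k hk
      rw [selb_u D k hk]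
      rw [mem_Icc] at hk
      by_cases hs : Squarefree k
      · have t1 : (Nat.totient k : ℝ) ≠ 0 := by
          have := Nat.totient_pos.2 (show 0 < k by omega)
          have h : Nat.totient k ≠ 0 := by omega
          exact_mod_cast h
        have hmu : selb_mu k ^ 2 = 1 := by
          unfold selb_mu
          have := ArithmeticFunction.moebius_sq_eq_one_of_squarefree hs
          exact_mod_cast this
        rw [div_pow, mul_pow, hmu, one_mul]
        unfold selb_g
        rw [if_pos hs]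
        field_simp
      · have : selb_g k = 0 := by
          simp [selb_g, hs]
        rw [this]
        simp
    rw [sum_congr rfl e1, ← sum_div]
    change selb_G D / selb_G D ^ 2 = 1 / selb_G D
    field_simp
  refine ⟨selb_lam D, ?_, fun d => selb_lam_abs D d hG, ?_, ?_, ?_⟩
  · unfold selb_lam
    have e1 : selb_mu 1 = 1 := by
      simp [selb_mu]
    have e2 : (∑ n ∈ Icc 1 D, if 1 ∣ n then selb_g n else 0) = selb_G D := by
      simp [selb_G]
    rw [e1, e2]
    field_simp
    simp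
  · intro d hd
    unfold selb_lam
    have : (∑ n ∈ Icc 1 D, if d ∣ n then selb_g n else 0) = 0 := by
      refine sum_eq_zero ?_
      intro n hn
      rw [mem_Icc] at hn
      have : ¬ d ∣ n := by
        intro h
        have := Nat.le_of_dvd (by omega) h
        omega
      rw [if_neg this]
    rw [this, mul_zero]
  · rw [hsum]
    positivity
  · rw [hsum]
    exact one_div_le_one_div_of_le hlog hGlog

end Pool.Agent.Mrd
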