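import Pool.Agent.Mrd.Trap
import Pool.Agent.Mrd.Selb

/-!
Mrd MAJ: a smooth majorant of the primes in `[y, ey]` with small Mellin transform.
-/

set_option autoImplicit false

namespace Pool.Agent.Mrd

open Finset MeasureTheory Filter Topology

namespace MajAux

theorem wt_nonneg (u : ℝ) : 0 ≤ wt u := le_max_left _ _

theorem wt_one {u : ℝ} (h1 : 1 ≤ u) (h3 : u ≤ 3) : wt u = 1 := by
  unfold wt
  have h4 : min 1 (min (2 * u - 1) (4 - u)) = 1 := by
    apply min_eq_left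
    apply le_min <;> linarith
  rw [h4]
  norm_num

/-- sum over the multiples of `D` -/
theorem multiples {y τ : ℝ} {D : ℕ} (hD : 0 < D) :
    ∑ n ∈ Icc 1 ⌊4 * y⌋₊, (if D ∣ n then ((wt (n / y) : ℝ) : ℂ) * tw τ n else 0) =
      tw τ D * Zw (y / D) τ := by
  have hD' : (0 : ℝ) < D := by exact_mod_cast hD
  have hfl : ⌊4 * (y / D)⌋₊ = ⌊4 * y⌋₊ / D := by
    rw [← Nat.floor_div_natCast]
    congr 1
    ring
  unfold Zw
  rw [hfl, Finset.mul_sum, ← Finset.sum_filter]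
  refine (Finset.sum_bij (fun m _ => D * m) ?_ ?_ ?_ ?_).symm
  · intro m hm
    rw [Finset.mem_Icc] at hm
    rw [Finset.mem_filter, Finset.mem_Icc]
    refine ⟨⟨?_, ?_⟩, Dvd.intro _ rfl⟩
    · exact Nat.mul_pos hD hm.1
    · calc D * m ≤ D * (⌊4 * y⌋₊ / D) := Nat.mul_le_mul_left _ hm.2
        _ ≤ ⌊4 * y⌋₊ := Nat.mul_div_le _ _
  · intro a _ b _ h
    exact Nat.eq_of_mul_eq_mul_left hD h
  · intro n hn
    rw [Finset.mem_filter, Finset.mem_Icc] at hn
    obtain ⟨m, rfl⟩ := hn.2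
    refine ⟨m, ?_, rfl⟩
    rw [Finset.mem_Icc]
    constructor
    · by_contra h
      have : m = 0 := by omega
      subst this
      simp at hn
    · rw [Nat.le_div_iff_mul_le hD, mul_comm]
      exact hn.1.2
  · intro m hm
    rw [Finset.mem_Icc] at hm
    have h1 : ((D * m : ℕ) : ℝ) / y = m / (y / D) := by
      push_cast
      rw [div_div_eq_mul_div]
      ring
    rw [h1, tw_mul τ hD.ne' (by omega)]
    ring

theorem key (D : ℕ) (lam : ℕ → ℝ) (y τ : ℝ) :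
    ∑ n ∈ Icc 1 ⌊4 * y⌋₊, ((wt (n / y) * (∑ d ∈ (Icc 1 D).filter (· ∣ n), lam d) ^ 2 : ℝ) : ℂ) *
      tw τ n = ∑ d ∈ Icc 1 D, ∑ e ∈ Icc 1 D, ((lam d * lam e : ℝ) : ℂ) *
        (tw τ (Nat.lcm d e) * Zw (y / (Nat.lcm d e : ℕ)) τ) := by
  have h1 : ∀ n : ℕ, ((wt (n / y) * (∑ d ∈ (Icc 1 D).filter (· ∣ n), lam d) ^ 2 : ℝ) : ℂ) * tw τ n =
      ∑ d ∈ Icc 1 D, ∑ e ∈ Icc 1 D, ((lam d * lam e : ℝ) : ℂ) *
        (if Nat.lcm d e ∣ n then ((wt (n / y) : ℝ) : ℂ) * tw τ n else 0) := by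
    intro n
    rw [sq, Finset.sum_filter, Finset.sum_mul_sum]
    push_cast
    rw [Finset.mul_sum, Finset.sum_mul]
    refine Finset.sum_congr rfl fun d _ => ?_
    rw [Finset.mul_sum, Finset.sum_mul]
    refine Finset.sum_congr rfl fun e _ => ?_
    by_cases hd : d ∣ n
    · by_cases he : e ∣ n
      · rw [if_pos hd, if_pos he, if_pos (Nat.lcm_dvd hd he)]
        ring
      · rw [if_pos hd, if_neg he, if_neg (fun h => he ((Nat.dvd_lcm_right d e).trans h))]
        simp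
    · rw [if_neg hd, if_neg (fun h => hd ((Nat.dvd_lcm_left d e).trans h))]
      simp
  rw [Finset.sum_congr rfl fun n _ => h1 n, Finset.sum_comm]
  refine Finset.sum_congr rfl fun d hd => ?_
  rw [Finset.sum_comm]
  refine Finset.sum_congr rfl fun e he => ?_
  rw [Finset.mem_Icc] at hd he
  rw [← Finset.mul_sum, multiples (Nat.lcm_pos (by omega) (by omega))]

end MajAux

open MajAux in
/-- `w n = wt(n/y) (∑_{d | n} λ_d)²` with `selberg`, `D = ⌊y^{c₁}⌋`, `c₁ = min(1/10, c/4)`, `c` from `zw_far (2A)`. For `[d,e] = D'`: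
`∑_n wt(n/y) 1[D' | n] n^{-iτ} = D'^{-iτ} Zw(y/D', τ)`. So the sum is `∑_{d,e ≤ D} λ_d λ_e D'^{-iτ} Zw(y/D', τ)`.
(i) `|τ| ≤ y^{1/4}`: `zw_near`: main term `y^{1-iτ} V(τ) ∑ λ_d λ_e/[d,e]`, `≤ C y/(log D (1+τ²))`, error `D² C (1+|τ|) ≤ C y^{1/2}`.
(ii) `y^{1/4} < |τ| ≤ y^A`: `N' = y/D' ≥ y/D² ≥ y^{1/2}`, so `|τ| ≤ N'^{2A}`, `zw_far`: `≤ D² C (y^{3/4} + y^{1-c}) ≤ C y^{1-c/2} + C y^{19/20}`. -/
theorem maj (A : ℝ) (hA : 1 ≤ A) : ∃ C c y₀ : ℝ, 0 < C ∧ 0 < c ∧ c ≤ 1 ∧ 2 ≤ y₀ ∧ ∀ y : ℝ, y₀ ≤ y →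
    ∃ w : ℕ → ℝ, (∀ n, 0 ≤ w n) ∧
    (∀ p : ℕ, p.Prime → y ≤ p → (p : ℝ) ≤ Real.exp 1 * y → w p = 1) ∧
    ∀ τ : ℝ, |τ| ≤ y ^ A → ‖∑ n ∈ Icc 1 ⌊4 * y⌋₊, ((w n : ℝ) : ℂ) * tw τ n‖ ≤
      C * (y / (Real.log y * (1 + τ ^ 2)) + y ^ (1 - c)) := by
  obtain ⟨C1, hC1, V, hV, hnear⟩ := zw_near
  obtain ⟨C2, c, hC2, hc0, hc1, hfar⟩ := zw_far (2 * A) (by linarith)
  obtain ⟨k, hk⟩ : ∃ k : ℝ, k = min (1 / 10) (c / 4) := ⟨_, rfl⟩
  have hk0 : 0 < k := by rw [hk]; exact lt_min (by norm_num) (by linarith)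
  have hka : k ≤ 1 / 10 := by rw [hk]; exact min_le_left _ _
  have hkb : k ≤ c / 4 := by rw [hk]; exact min_le_right _ _
  obtain ⟨c', hc'⟩ : ∃ c' : ℝ, c' = min (1 / 20) (c / 2) := ⟨_, rfl⟩
  have hc'0 : 0 < c' := by rw [hc']; exact lt_min (by norm_num) (by linarith)
  have hc'a : c' ≤ 1 / 20 := by rw [hc']; exact min_le_left _ _
  have hc'b : c' ≤ c / 2 := by rw [hc']; exact min_le_right _ _
  have hkinv : 10 ≤ 1 / k := by
    rw [le_div_iff₀ hk0]; linarith
  have hy0 : (4 : ℝ) ≤ 4 ^ (1 / k) := by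
    calc (4 : ℝ) = 4 ^ (1 : ℝ) := (Real.rpow_one _).symm
      _ ≤ 4 ^ (1 / k) := Real.rpow_le_rpow_of_exponent_le (by norm_num) (by linarith)
  have hCpos : 0 < 2 * C1 / k := by positivity
  refine ⟨2 * C1 / k + 2 * C1 + 2 * C2, c', 4 ^ (1 / k), by positivity, hc'0, by linarith,
    by linarith, ?_⟩
  intro y hy
  have hy4 : 4 ≤ y := hy0.trans hy
  have hy1 : 1 ≤ y := by linarith
  have hypos : 0 < y := by linarith
  have hyk : 4 ≤ y ^ k := by
    calc (4 : ℝ) = (4 ^ (1 / k)) ^ k := by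
          rw [← Real.rpow_mul (by norm_num), one_div_mul_cancel hk0.ne', Real.rpow_one]
      _ ≤ y ^ k := Real.rpow_le_rpow (by positivity) hy hk0.le
  obtain ⟨D, hDdef⟩ : ∃ D : ℕ, D = ⌊y ^ k⌋₊ := ⟨_, rfl⟩
  have hDle : (D : ℝ) ≤ y ^ k := by rw [hDdef]; exact Nat.floor_le (by positivity)
  have hDge : y ^ k / 2 ≤ D := by
    have := Nat.lt_floor_add_one (y ^ k)
    rw [← hDdef] at this
    linarith
  have hD2 : 2 ≤ D := by
    have h : (2 : ℝ) ≤ D := by linarith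
    exact_mod_cast h
  have hDpos : (0 : ℝ) < D := by
    have : 0 < D := by omega
    exact_mod_cast this
  have hlogy : 0 < Real.log y := Real.log_pos (by linarith)
  have hlogD : k / 2 * Real.log y ≤ Real.log D := by
    have h1 : Real.log (y ^ k / 2) ≤ Real.log D := Real.log_le_log (by positivity) hDge
    rw [Real.log_div (by positivity) (by norm_num), Real.log_rpow hypos] at h1
    have h2 : Real.log 4 ≤ Real.log (y ^ k) := Real.log_le_log (by norm_num) hyk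
    rw [Real.log_rpow hypos, show (4 : ℝ) = 2 ^ 2 by norm_num, Real.log_pow] at h2
    push_cast at h2
    linarith
  have hlogD0 : 0 < Real.log D := lt_of_lt_of_le (by positivity) hlogD
  obtain ⟨lam, hl1, hlb, _, hs0, hs1⟩ := selberg D hD2
  have hD2k : (D : ℝ) * D ≤ y ^ (2 * k) := by
    calc (D : ℝ) * D ≤ y ^ k * y ^ k := mul_le_mul hDle hDle hDpos.le (by positivity)
      _ = y ^ (2 * k) := by rw [← Real.rpow_add hypos]; congr 1; ring
  have hll : ∀ d e, |lam d * lam e| ≤ 1 := by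
    intro d e
    rw [abs_mul]
    exact mul_le_one₀ (hlb d) (abs_nonneg _) (hlb e)
  refine ⟨fun n => wt (n / y) * (∑ d ∈ (Icc 1 D).filter (· ∣ n), lam d) ^ 2, ?_, ?_, ?_⟩
  · intro n
    exact mul_nonneg (wt_nonneg _) (sq_nonneg _)
  · intro p hp hyp hpe
    have h1 : wt (p / y) = 1 := by
      apply wt_one
      · rw [le_div_iff₀ hypos]; linarith
      · rw [div_le_iff₀ hypos]
        have := Real.exp_one_lt_d9
        nlinarith
    have hDp : D < p := by
      have h2 : y ^ k < y := by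
        calc y ^ k < y ^ (1 : ℝ) := Real.rpow_lt_rpow_of_exponent_lt (by linarith) (by linarith)
          _ = y := Real.rpow_one _
      have h3 : (D : ℝ) < p := by linarith
      exact_mod_cast h3
    have h2 : (Icc 1 D).filter (· ∣ p) = {1} := by
      ext d
      rw [Finset.mem_filter, Finset.mem_Icc, Finset.mem_singleton]
      constructor
      · rintro ⟨⟨_, h5⟩, h6⟩
        rcases (Nat.dvd_prime hp).1 h6 with h | h
        · exact h
        · omega
      · rintro rfl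
        exact ⟨⟨le_rfl, by omega⟩, one_dvd _⟩
    show wt (p / y) * (∑ d ∈ (Icc 1 D).filter (· ∣ p), lam d) ^ 2 = 1
    rw [h1, h2, Finset.sum_singleton, hl1]
    norm_num
  · intro τ hτ
    show ‖∑ n ∈ Icc 1 ⌊4 * y⌋₊, ((wt (n / y) * (∑ d ∈ (Icc 1 D).filter (· ∣ n), lam d) ^ 2 : ℝ) : ℂ)
      * tw τ n‖ ≤ _
    rw [key]
    have hlcm : ∀ d ∈ Icc 1 D, ∀ e ∈ Icc 1 D, 0 < Nat.lcm d e ∧ ((Nat.lcm d e : ℕ) : ℝ) ≤ D * D := by
      intro d hd e he
      rw [Finset.mem_Icc] at hd he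
      refine ⟨Nat.lcm_pos (by omega) (by omega), ?_⟩
      have h1 : Nat.lcm d e ≤ d * e := Nat.le_of_dvd (Nat.mul_pos (by omega) (by omega))
        (Nat.lcm_dvd_mul d e)
      have h2 : d * e ≤ D * D := Nat.mul_le_mul hd.2 he.2
      exact_mod_cast h1.trans h2
    have hcard : ∀ B : ℝ, (∑ _d ∈ Icc 1 D, ∑ _e ∈ Icc 1 D, B) = D * D * B := by
      intro B
      rw [Finset.sum_const, Finset.sum_const, Nat.card_Icc, Nat.add_sub_cancel, nsmul_eq_mul,
        nsmul_eq_mul, mul_assoc]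
    have hTpos : 0 < 1 + τ ^ 2 := by positivity
    have hmain0 : 0 ≤ y / (Real.log y * (1 + τ ^ 2)) := by positivity
    have hrem0 : 0 ≤ y ^ (1 - c') := by positivity
    rcases le_or_gt |τ| (y ^ (1 / 4 : ℝ)) with hcase | hcase
    · -- near
      have hsplit : ∑ d ∈ Icc 1 D, ∑ e ∈ Icc 1 D, ((lam d * lam e : ℝ) : ℂ) *
          (tw τ (Nat.lcm d e) * Zw (y / (Nat.lcm d e : ℕ)) τ) =
          (y : ℂ) * Complex.exp (-((τ * Real.log y : ℝ) : ℂ) * Complex.I) * V τ *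
            (((∑ d ∈ Icc 1 D, ∑ e ∈ Icc 1 D, lam d * lam e / (Nat.lcm d e : ℕ) : ℝ)) : ℂ) +
          ∑ d ∈ Icc 1 D, ∑ e ∈ Icc 1 D, ((lam d * lam e : ℝ) : ℂ) * (tw τ (Nat.lcm d e) *
            (Zw (y / (Nat.lcm d e : ℕ)) τ - ((y / (Nat.lcm d e : ℕ) : ℝ) : ℂ) *
            Complex.exp (-((τ * Real.log (y / (Nat.lcm d e : ℕ)) : ℝ) : ℂ) * Complex.I) * V τ)) := by
        rw [Complex.ofReal_sum, Finset.mul_sum, ← Finset.sum_add_distrib]
        refine Finset.sum_congr rfl fun d hd => ?_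
        rw [Complex.ofReal_sum, Finset.mul_sum, ← Finset.sum_add_distrib]
        refine Finset.sum_congr rfl fun e he => ?_
        obtain ⟨h1, _⟩ := hlcm d hd e he
        have h1' : (0 : ℝ) < (Nat.lcm d e : ℕ) := by exact_mod_cast h1
        have h2 : tw τ (Nat.lcm d e) *
            Complex.exp (-((τ * Real.log (y / (Nat.lcm d e : ℕ)) : ℝ) : ℂ) * Complex.I) =
            Complex.exp (-((τ * Real.log y : ℝ) : ℂ) * Complex.I) := by
          unfold tw
          rw [← Complex.exp_add, Real.log_div hypos.ne' h1'.ne']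
          congr 1
          push_cast
          ring
        rw [← h2]
        push_cast
        ring
      rw [hsplit]
      refine (norm_add_le _ _).trans ?_
      have hfirst : ‖(y : ℂ) * Complex.exp (-((τ * Real.log y : ℝ) : ℂ) * Complex.I) * V τ *
            (((∑ d ∈ Icc 1 D, ∑ e ∈ Icc 1 D, lam d * lam e / (Nat.lcm d e : ℕ) : ℝ)) : ℂ)‖ ≤
            2 * C1 / k * (y / (Real.log y * (1 + τ ^ 2))) := by
        have e1 : ‖Complex.exp (-((τ * Real.log y : ℝ) : ℂ) * Complex.I)‖ = 1 := by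
          rw [show (-((τ * Real.log y : ℝ) : ℂ) * Complex.I) =
            ((-(τ * Real.log y) : ℝ) : ℂ) * Complex.I by push_cast; ring]
          exact Complex.norm_exp_ofReal_mul_I _
        rw [norm_mul, norm_mul, norm_mul, e1, Complex.norm_of_nonneg hypos.le,
          Complex.norm_of_nonneg hs0, mul_one]
        have e2 : 1 / Real.log D ≤ 2 / (k * Real.log y) := by
          rw [div_le_div_iff₀ hlogD0 (by positivity)]
          linarith
        calc y * ‖V τ‖ * _ ≤ y * (C1 / (1 + τ ^ 2)) * (2 / (k * Real.log y)) := by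
              refine mul_le_mul (mul_le_mul_of_nonneg_left (hV τ) hypos.le) (hs1.trans e2) hs0
                (by positivity)
          _ = _ := by field_simp
      have hsecond : ‖∑ d ∈ Icc 1 D, ∑ e ∈ Icc 1 D, ((lam d * lam e : ℝ) : ℂ) *
            (tw τ (Nat.lcm d e) *
            (Zw (y / (Nat.lcm d e : ℕ)) τ - ((y / (Nat.lcm d e : ℕ) : ℝ) : ℂ) *
            Complex.exp (-((τ * Real.log (y / (Nat.lcm d e : ℕ)) : ℝ) : ℂ) * Complex.I) * V τ))‖ ≤
            2 * C1 * y ^ (1 - c') := by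
        have e3 : ‖∑ d ∈ Icc 1 D, ∑ e ∈ Icc 1 D, ((lam d * lam e : ℝ) : ℂ) *
            (tw τ (Nat.lcm d e) *
            (Zw (y / (Nat.lcm d e : ℕ)) τ - ((y / (Nat.lcm d e : ℕ) : ℝ) : ℂ) *
            Complex.exp (-((τ * Real.log (y / (Nat.lcm d e : ℕ)) : ℝ) : ℂ) * Complex.I) * V τ))‖ ≤
            ∑ _d ∈ Icc 1 D, ∑ _e ∈ Icc 1 D, C1 * (1 + |τ|) := by
          refine (norm_sum_le _ _).trans (Finset.sum_le_sum fun d hd => ?_)
          refine (norm_sum_le _ _).trans (Finset.sum_le_sum fun e he => ?_)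
          obtain ⟨h1, _⟩ := hlcm d hd e he
          have h1' : (0 : ℝ) < (Nat.lcm d e : ℕ) := by exact_mod_cast h1
          rw [norm_mul, norm_mul, tw_norm, one_mul, Complex.norm_real, Real.norm_eq_abs]
          have h2 := hnear (y / (Nat.lcm d e : ℕ)) τ (by positivity)
          calc |lam d * lam e| * _ ≤ 1 * (C1 * (1 + |τ|)) :=
                mul_le_mul (hll d e) h2 (norm_nonneg _) zero_le_one
            _ = _ := one_mul _
        refine e3.trans ?_
        rw [hcard]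
        have e4 : 1 + |τ| ≤ 2 * y ^ (1 / 4 : ℝ) := by
          have : 1 ≤ y ^ (1 / 4 : ℝ) := Real.one_le_rpow hy1 (by norm_num)
          linarith
        calc (D : ℝ) * D * (C1 * (1 + |τ|)) ≤ y ^ (2 * k) * (C1 * (2 * y ^ (1 / 4 : ℝ))) :=
              mul_le_mul hD2k (mul_le_mul_of_nonneg_left e4 hC1.le) (by positivity) (by positivity)
          _ = 2 * C1 * y ^ (2 * k + 1 / 4) := by rw [Real.rpow_add hypos]; ring
          _ ≤ 2 * C1 * y ^ (1 - c') := by
              refine mul_le_mul_of_nonneg_left ?_ (by positivity)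
              exact Real.rpow_le_rpow_of_exponent_le hy1 (by linarith)
      calc _ ≤ 2 * C1 / k * (y / (Real.log y * (1 + τ ^ 2))) + 2 * C1 * y ^ (1 - c') :=
            add_le_add hfirst hsecond
        _ ≤ (2 * C1 / k + 2 * C1 + 2 * C2) * (y / (Real.log y * (1 + τ ^ 2))) +
            (2 * C1 / k + 2 * C1 + 2 * C2) * y ^ (1 - c') := by
              refine add_le_add (mul_le_mul_of_nonneg_right (by linarith) hmain0)
                (mul_le_mul_of_nonneg_right (by linarith) hrem0)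
        _ = _ := by ring
    · -- far
      have hτ0 : 0 < |τ| := lt_of_lt_of_le (by positivity) hcase.le
      have e3 : ‖∑ d ∈ Icc 1 D, ∑ e ∈ Icc 1 D, ((lam d * lam e : ℝ) : ℂ) *
          (tw τ (Nat.lcm d e) * Zw (y / (Nat.lcm d e : ℕ)) τ)‖ ≤
          ∑ _d ∈ Icc 1 D, ∑ _e ∈ Icc 1 D, C2 * (y ^ (3 / 4 : ℝ) + y ^ (1 - c)) := by
        refine (norm_sum_le _ _).trans (Finset.sum_le_sum fun d hd => ?_)
        refine (norm_sum_le _ _).trans (Finset.sum_le_sum fun e he => ?_)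
        obtain ⟨h1, h2⟩ := hlcm d hd e he
        have h1' : (0 : ℝ) < (Nat.lcm d e : ℕ) := by exact_mod_cast h1
        have h1'' : (1 : ℝ) ≤ (Nat.lcm d e : ℕ) := by exact_mod_cast h1
        rw [norm_mul, norm_mul, tw_norm, one_mul, Complex.norm_real, Real.norm_eq_abs]
        have hNy : y / (Nat.lcm d e : ℕ) ≤ y := div_le_self hypos.le h1''
        have hN : y ^ (1 / 2 : ℝ) ≤ y / (Nat.lcm d e : ℕ) := by
          rw [le_div_iff₀ h1']
          calc y ^ (1 / 2 : ℝ) * (Nat.lcm d e : ℕ) ≤ y ^ (1 / 2 : ℝ) * y ^ (2 * k) :=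
                mul_le_mul_of_nonneg_left (h2.trans hD2k) (by positivity)
            _ = y ^ (1 / 2 + 2 * k) := by rw [Real.rpow_add hypos]
            _ ≤ y ^ (1 : ℝ) := Real.rpow_le_rpow_of_exponent_le hy1 (by linarith)
            _ = y := Real.rpow_one _
        have hN1 : 1 ≤ y / (Nat.lcm d e : ℕ) := (Real.one_le_rpow hy1 (by norm_num)).trans hN
        have hτN : |τ| ≤ (y / (Nat.lcm d e : ℕ)) ^ (2 * A) := by
          calc |τ| ≤ y ^ A := hτ
            _ = (y ^ (1 / 2 : ℝ)) ^ (2 * A) := by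
                rw [← Real.rpow_mul hypos.le]; congr 1; ring
            _ ≤ _ := Real.rpow_le_rpow (by positivity) hN (by linarith)
        have h3 := hfar _ τ hN1 hτ0 hτN
        have h4 : y / (Nat.lcm d e : ℕ) / |τ| ≤ y ^ (3 / 4 : ℝ) := by
          rw [div_le_iff₀ hτ0]
          calc y / (Nat.lcm d e : ℕ) ≤ y := hNy
            _ = y ^ (3 / 4 : ℝ) * y ^ (1 / 4 : ℝ) := by
                rw [← Real.rpow_add hypos]; norm_num
            _ ≤ y ^ (3 / 4 : ℝ) * |τ| := mul_le_mul_of_nonneg_left hcase.le (by positivity)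
        have h5 : (y / (Nat.lcm d e : ℕ)) ^ (1 - c) ≤ y ^ (1 - c) :=
          Real.rpow_le_rpow (by positivity) hNy (by linarith)
        calc |lam d * lam e| * _ ≤ 1 * (C2 * (y ^ (3 / 4 : ℝ) + y ^ (1 - c))) :=
              mul_le_mul (hll d e) (h3.trans (mul_le_mul_of_nonneg_left (add_le_add h4 h5) hC2.le))
                (norm_nonneg _) zero_le_one
          _ = _ := one_mul _
      refine e3.trans ?_
      rw [hcard]
      calc (D : ℝ) * D * (C2 * (y ^ (3 / 4 : ℝ) + y ^ (1 - c)))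
          ≤ y ^ (2 * k) * (C2 * (y ^ (3 / 4 : ℝ) + y ^ (1 - c))) :=
            mul_le_mul_of_nonneg_right hD2k (by positivity)
        _ = C2 * (y ^ (2 * k + 3 / 4) + y ^ (2 * k + (1 - c))) := by
            rw [Real.rpow_add hypos, Real.rpow_add hypos (2 * k) (1 - c)]; ring
        _ ≤ C2 * (y ^ (1 - c') + y ^ (1 - c')) := by
            refine mul_le_mul_of_nonneg_left (add_le_add ?_ ?_) hC2.le
            · exact Real.rpow_le_rpow_of_exponent_le hy1 (by linarith)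
            · exact Real.rpow_le_rpow_of_exponent_le hy1 (by linarith)
        _ = 2 * C2 * y ^ (1 - c') := by ring
        _ ≤ (2 * C1 / k + 2 * C1 + 2 * C2) * y ^ (1 - c') :=
            mul_le_mul_of_nonneg_right (by linarith) hrem0
        _ ≤ (2 * C1 / k + 2 * C1 + 2 * C2) * (y / (Real.log y * (1 + τ ^ 2)) + y ^ (1 - c')) :=
            mul_le_mul_of_nonneg_left (by linarith) (by positivity)

end Pool.Agent.Mrd
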