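import Pool.Agent.Mrd.TK

/-!
Mrd MOMC: coefficients of `Q^l R`.
-/

set_option autoImplicit false

namespace Pool.Agent.Mrd

open Finset MeasureTheory Filter Topology

private theorem om_mono_dvd (Q : Finset ℕ) {m n : ℕ} (h : m ∣ n) : om Q m ≤ om Q n := by
  unfold om
  refine Finset.card_le_card ?_
  intro p hp
  rw [Finset.mem_filter] at hp ⊢
  exact ⟨hp.1, hp.2.trans h⟩

/-- the inductive construction -/
private theorem mom_ind (Q S : Finset ℕ) (b c : ℕ → ℂ) (z N : ℝ) (hz : 1 ≤ z) (hN : 0 < N)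
    (hQ : ∀ p ∈ Q, p.Prime ∧ z ≤ p ∧ (p : ℝ) ≤ Real.exp 1 * z)
    (hS : ∀ m ∈ S, N < m ∧ (m : ℝ) ≤ 4 * N) (hb : ∀ n, ‖b n‖ ≤ 1) (hc : ∀ n, ‖c n‖ ≤ 1) (l : ℕ) :
    ∃ a : ℕ → ℂ, (∀ t, dp Q (fun p => b p / p) t ^ l * dp S (fun m => c m / m) t =
        dp (Icc 1 ⌊4 * N * (Real.exp 1 * z) ^ l⌋₊) a t) ∧
      (∀ n, ‖a n‖ ≤ (om Q n : ℝ) ^ l / n) ∧
      (∀ n, a n ≠ 0 → N * z ^ l < n ∧ (n : ℝ) ≤ 4 * N * (Real.exp 1 * z) ^ l) := by
  have hez : 1 ≤ Real.exp 1 * z := by
    have : 1 ≤ Real.exp 1 := Real.one_le_exp (by norm_num)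
    nlinarith
  induction l with
  | zero =>
    refine ⟨fun n => if n ∈ S then c n / n else 0, ?_, ?_, ?_⟩
    · intro t
      rw [pow_zero, one_mul]
      unfold dp
      have hsub : S ⊆ Icc 1 ⌊4 * N * (Real.exp 1 * z) ^ 0⌋₊ := by
        intro m hm
        rw [Finset.mem_Icc, pow_zero, mul_one]
        obtain ⟨h1, h2⟩ := hS m hm
        refine ⟨?_, Nat.le_floor h2⟩
        have : (0 : ℝ) < m := hN.trans h1
        exact_mod_cast this
      rw [← Finset.sum_subset hsub]
      · refine Finset.sum_congr rfl ?_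
        intro m hm
        beta_reduce
        rw [if_pos hm]
      · intro m _ hm
        beta_reduce
        rw [if_neg hm, zero_mul]
    · intro n
      rw [pow_zero]
      beta_reduce
      split_ifs
      · rw [norm_div, Complex.norm_natCast]
        exact div_le_div_of_nonneg_right (hc n) (Nat.cast_nonneg n)
      · rw [norm_zero]
        positivity
    · intro n hn
      have hmem : n ∈ S := by
        by_contra h
        exact hn (if_neg h)
      obtain ⟨h1, h2⟩ := hS n hmem
      rw [pow_zero, pow_zero, mul_one, mul_one]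
      exact ⟨h1, h2⟩
  | succ l ih =>
    obtain ⟨a, ha1, ha2, ha3⟩ := ih
    have ha0 : a 0 = 0 := by
      by_contra h
      have h1 := (ha3 0 h).1
      rw [Nat.cast_zero] at h1
      have : 0 < N * z ^ l := by positivity
      linarith
    refine ⟨fun n => ∑ p ∈ Q.filter (fun p => p ∣ n), (b p / p) * a (n / p), ?_, ?_, ?_⟩
    · intro t
      rw [pow_succ', mul_assoc, ha1 t]
      unfold dp
      rw [Finset.sum_mul_sum]
      -- right side
      have hR : ∀ n ∈ Icc 1 ⌊4 * N * (Real.exp 1 * z) ^ (l + 1)⌋₊,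
          (∑ p ∈ Q.filter (fun p => p ∣ n), (b p / p) * a (n / p)) * tw t n =
            ∑ p ∈ Q, if p ∣ n then (b p / p) * a (n / p) * tw t n else 0 := by
        intro n _
        rw [Finset.sum_mul, Finset.sum_filter]
      rw [Finset.sum_congr rfl hR]
      conv_rhs => rw [Finset.sum_comm]
      refine Finset.sum_congr rfl ?_
      intro p hp
      obtain ⟨hpp, hp1, hp2⟩ := hQ p hp
      have hppos : 0 < p := hpp.pos
      rw [← Finset.sum_filter]
      symm
      -- sum over multiples of p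
      have hsub : (Icc 1 ⌊4 * N * (Real.exp 1 * z) ^ l⌋₊).image (fun m => p * m) ⊆
          (Icc 1 ⌊4 * N * (Real.exp 1 * z) ^ (l + 1)⌋₊).filter (fun n => p ∣ n) := by
        intro n hn
        rw [Finset.mem_image] at hn
        obtain ⟨m, hm, rfl⟩ := hn
        rw [Finset.mem_Icc] at hm
        rw [Finset.mem_filter, Finset.mem_Icc]
        refine ⟨⟨Nat.mul_pos hppos hm.1, ?_⟩, Dvd.intro _ rfl⟩
        refine Nat.le_floor ?_
        push_cast
        have hm2 : (m : ℝ) ≤ 4 * N * (Real.exp 1 * z) ^ l :=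
          (Nat.le_floor_iff (by positivity)).1 hm.2
        calc (p : ℝ) * m ≤ (Real.exp 1 * z) * (4 * N * (Real.exp 1 * z) ^ l) := by
              refine mul_le_mul hp2 hm2 (Nat.cast_nonneg m) (by positivity)
          _ = 4 * N * (Real.exp 1 * z) ^ (l + 1) := by ring
      rw [← Finset.sum_subset hsub]
      · rw [Finset.sum_image]
        · refine Finset.sum_congr rfl ?_
          intro m hm
          rw [Finset.mem_Icc] at hm
          have hm0 : m ≠ 0 := by omega
          beta_reduce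
          rw [Nat.mul_div_cancel_left m hppos, tw_mul t hppos.ne' hm0]
          ring
        · intro m1 _ m2 _ h
          exact Nat.eq_of_mul_eq_mul_left hppos h
      · intro n hn hn'
        rw [Finset.mem_filter, Finset.mem_Icc] at hn
        obtain ⟨⟨hn1, hn2⟩, m, rfl⟩ := hn
        rw [Nat.mul_div_cancel_left m hppos]
        have : a m = 0 := by
          by_contra h
          apply hn'
          rw [Finset.mem_image]
          refine ⟨m, ?_, rfl⟩
          rw [Finset.mem_Icc]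
          refine ⟨?_, Nat.le_floor (ha3 m h).2⟩
          exact Nat.pos_of_ne_zero (fun h0 => h (by rw [h0]; exact ha0))
        rw [this]
        ring
    · intro n
      rcases Nat.eq_zero_or_pos n with hn0 | hn0
      · subst hn0
        have : (∑ p ∈ Q.filter (fun p => p ∣ 0), (b p / p) * a (0 / p)) = 0 := by
          refine Finset.sum_eq_zero ?_
          intro p _
          rw [Nat.zero_div, ha0, mul_zero]
        beta_reduce
        rw [this, norm_zero]
        positivity
      · beta_reduce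
        have hnR : (0 : ℝ) < n := by exact_mod_cast hn0
        calc ‖∑ p ∈ Q.filter (fun p => p ∣ n), (b p / p) * a (n / p)‖
            ≤ ∑ p ∈ Q.filter (fun p => p ∣ n), ‖(b p / p) * a (n / p)‖ := norm_sum_le _ _
          _ ≤ ∑ p ∈ Q.filter (fun p => p ∣ n), (om Q n : ℝ) ^ l / n := by
              refine Finset.sum_le_sum ?_
              intro p hp
              rw [Finset.mem_filter] at hp
              obtain ⟨hpQ, hpn⟩ := hp
              obtain ⟨hpp, hp1, hp2⟩ := hQ p hpQ
              have hppos : 0 < p := hpp.pos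
              have hpR : (0 : ℝ) < p := by exact_mod_cast hppos
              obtain ⟨m, rfl⟩ := hpn
              have hm0 : 0 < m := Nat.pos_of_mul_pos_left hn0
              have hmR : (0 : ℝ) < m := by exact_mod_cast hm0
              rw [Nat.mul_div_cancel_left m hppos, norm_mul, norm_div, Complex.norm_natCast]
              have h1 : ‖a m‖ ≤ (om Q (p * m) : ℝ) ^ l / m := by
                refine (ha2 m).trans ?_
                refine div_le_div_of_nonneg_right ?_ hmR.le
                refine pow_le_pow_left₀ (Nat.cast_nonneg _) ?_ l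
                exact_mod_cast om_mono_dvd Q (Dvd.intro_left p rfl)
              calc ‖b p‖ / p * ‖a m‖ ≤ 1 / p * ((om Q (p * m) : ℝ) ^ l / m) := by
                    refine mul_le_mul ?_ h1 (norm_nonneg _) (by positivity)
                    exact div_le_div_of_nonneg_right (hb p) hpR.le
                _ = (om Q (p * m) : ℝ) ^ l / ((p * m : ℕ) : ℝ) := by
                    push_cast
                    field_simp
          _ = (om Q n : ℝ) ^ (l + 1) / n := by
              rw [Finset.sum_const, nsmul_eq_mul]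
              unfold om
              ring
    · intro n hn
      beta_reduce at hn
      obtain ⟨p, hp, hne⟩ := Finset.exists_ne_zero_of_sum_ne_zero hn
      rw [Finset.mem_filter] at hp
      obtain ⟨hpQ, hpn⟩ := hp
      obtain ⟨hpp, hp1, hp2⟩ := hQ p hpQ
      have hppos : 0 < p := hpp.pos
      have hpR : (0 : ℝ) < p := by exact_mod_cast hppos
      obtain ⟨m, rfl⟩ := hpn
      rw [Nat.mul_div_cancel_left m hppos] at hne
      have ham : a m ≠ 0 := right_ne_zero_of_mul hne
      obtain ⟨h1, h2⟩ := ha3 m ham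
      push_cast
      constructor
      · calc N * z ^ (l + 1) = z * (N * z ^ l) := by ring
          _ ≤ p * (N * z ^ l) := mul_le_mul_of_nonneg_right hp1 (by positivity)
          _ < p * m := mul_lt_mul_of_pos_left h1 hpR
      · calc (p : ℝ) * m ≤ (Real.exp 1 * z) * (4 * N * (Real.exp 1 * z) ^ l) := by
              refine mul_le_mul hp2 h2 (Nat.cast_nonneg m) (by positivity)
          _ = 4 * N * (Real.exp 1 * z) ^ (l + 1) := by ring

/-- Induction on `l`: `a_{l+1}(n) = ∑_{p ∈ Q, p | n} (b p/p) a_l(n/p)`, `|a_l(n)| ≤ ω(n)^l/n` (`ω = om Q`), `a_l(n) = 0` unless `N z^l < n ≤ 4N(ez)^l`. Then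
`∑ |a_l(n)|² ≤ (N z^l)^{-2} ∑_{n ≤ y} ω(n)^{2l} ≤ (N z^l)^{-2} (2l)! ∑_{n≤y} e^{ω(n)} ≤ (N z^l)^{-2} (2l)! y e^4`, `y = 4N(ez)^l` (`exp_om`, `LP_le_two`, `x^k ≤ k! e^x`). -/
theorem mom_coef : ∃ C : ℝ, 0 < C ∧ ∀ (Q S : Finset ℕ) (b c : ℕ → ℂ) (z N : ℝ) (l : ℕ), 1 ≤ z → 0 < N →
    (∀ p ∈ Q, p.Prime ∧ z ≤ p ∧ (p : ℝ) ≤ Real.exp 1 * z) →
    (∀ m ∈ S, N < m ∧ (m : ℝ) ≤ 4 * N) → (∀ n, ‖b n‖ ≤ 1) → (∀ n, ‖c n‖ ≤ 1) →
    ∃ a : ℕ → ℂ, (∀ t, dp Q (fun p => b p / p) t ^ l * dp S (fun m => c m / m) t =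
        dp (Icc 1 ⌊4 * N * (Real.exp 1 * z) ^ l⌋₊) a t) ∧
      ∑ n ∈ Icc 1 ⌊4 * N * (Real.exp 1 * z) ^ l⌋₊, ‖a n‖ ^ 2 ≤
        C * (2 * l).factorial * Real.exp 1 ^ l / (N * z ^ l) := by
  refine ⟨4 * Real.exp 4, by positivity, ?_⟩
  intro Q S b c z N l hz hN hQ hS hb hc
  obtain ⟨a, ha1, ha2, ha3⟩ := mom_ind Q S b c z N hz hN hQ hS hb hc l
  refine ⟨a, ha1, ?_⟩
  set M : ℕ := ⌊4 * N * (Real.exp 1 * z) ^ l⌋₊ with hM
  have hzl : 0 < N * z ^ l := by positivity
  have hterm : ∀ n ∈ Icc 1 M, ‖a n‖ ^ 2 ≤ ((2 * l).factorial : ℝ) / (N * z ^ l) ^ 2 * Real.exp (om Q n) := by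
    intro n hn
    by_cases h0 : a n = 0
    · rw [h0, norm_zero, zero_pow two_ne_zero]
      positivity
    · obtain ⟨h1, h2⟩ := ha3 n h0
      have hnR : (0 : ℝ) < n := hzl.trans h1
      have hfac : ((om Q n : ℝ)) ^ (2 * l) ≤ (2 * l).factorial * Real.exp (om Q n) := by
        have := Real.pow_div_factorial_le_exp (om Q n : ℝ) (Nat.cast_nonneg _) (2 * l)
        have hf : (0 : ℝ) < (2 * l).factorial := by exact_mod_cast Nat.factorial_pos _
        rw [div_le_iff₀ hf] at this
        linarith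
      calc ‖a n‖ ^ 2 ≤ ((om Q n : ℝ) ^ l / n) ^ 2 := pow_le_pow_left₀ (norm_nonneg _) (ha2 n) 2
        _ = (om Q n : ℝ) ^ (2 * l) / (n : ℝ) ^ 2 := by
            rw [div_pow, ← pow_mul, mul_comm l 2]
        _ ≤ ((2 * l).factorial * Real.exp (om Q n)) / (N * z ^ l) ^ 2 := by
            refine div_le_div₀ (by positivity) hfac (by positivity) ?_
            exact pow_le_pow_left₀ hzl.le h1.le 2
        _ = _ := by ring
  have hprime : ∀ p ∈ Q, p.Prime := fun p hp => (hQ p hp).1
  have hexp := exp_om Q hprime M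
  have hL := LP_le_two Q z hz (fun p hp => (hQ p hp).2)
  have hMle : (M : ℝ) ≤ 4 * N * (Real.exp 1 * z) ^ l := Nat.floor_le (by positivity)
  calc ∑ n ∈ Icc 1 M, ‖a n‖ ^ 2
      ≤ ∑ n ∈ Icc 1 M, ((2 * l).factorial : ℝ) / (N * z ^ l) ^ 2 * Real.exp (om Q n) :=
        Finset.sum_le_sum hterm
    _ = ((2 * l).factorial : ℝ) / (N * z ^ l) ^ 2 * ∑ n ∈ Icc 1 M, Real.exp (om Q n) := by
        rw [Finset.mul_sum]
    _ ≤ ((2 * l).factorial : ℝ) / (N * z ^ l) ^ 2 * (4 * N * (Real.exp 1 * z) ^ l * Real.exp 4) := by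
        refine mul_le_mul_of_nonneg_left ?_ (by positivity)
        refine hexp.trans ?_
        refine mul_le_mul hMle ?_ (Real.exp_pos _).le (by positivity)
        exact Real.exp_le_exp.2 (by linarith)
    _ = 4 * Real.exp 4 * (2 * l).factorial * Real.exp 1 ^ l / (N * z ^ l) := by
        rw [mul_pow (Real.exp 1) z l]
        have hz' : z ^ l ≠ 0 := by positivity
        field_simp

end Pool.Agent.Mrd
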