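import Pool.Agent.Mrd.Defs2
import Pool.Agent.Mrd.Mert

/-!
Mrd PAR: numerical facts about the parameters. With `x = K 4^{j-1}`: `p_{j-1} = 3^x`, `q_{j-1} = 9^x`, `p_j = 3^{4x}`, `q_j = 3^{8x}`, `2^j ≤ 2√x`.
-/

set_option autoImplicit false

namespace Pool.Agent.Mrd

open Finset MeasureTheory Filter Topology

private theorem par_pow_a : ∀ x : ℕ, 16 ≤ x → 256 * x * (3 + 16 * x) ≤ 3 ^ x := by
  intro x hx
  induction x, hx using Nat.le_induction with
  | base => norm_num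
  | succ n hn ih =>
    rw [pow_succ]
    nlinarith

private theorem par_pow_b : ∀ x : ℕ, 10 ≤ x → 224 * x ^ 2 ≤ 3 ^ x := by
  intro x hx
  induction x, hx using Nat.le_induction with
  | base => norm_num
  | succ n hn ih =>
    rw [pow_succ 3 n]
    nlinarith

private theorem par_two_le_four (j : ℕ) : 2 ^ j ≤ 4 ^ j := Nat.pow_le_pow_left (by norm_num) j

private theorem par_log3_pos : 1 < Real.log 3 := by
  rw [Real.lt_log_iff_exp_lt (by norm_num)]
  exact lt_trans Real.exp_one_lt_d9 (by norm_num)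

private theorem par_log3_le : Real.log 3 ≤ 2 := by
  rw [Real.log_le_iff_le_exp (by norm_num)]
  have h1 : (2 : ℝ) ≤ Real.exp 1 := by
    have := Real.add_one_le_exp (1 : ℝ)
    linarith
  have h2 : Real.exp 2 = Real.exp 1 * Real.exp 1 := by
    rw [← Real.exp_add]; norm_num
  rw [h2]
  nlinarith

private theorem par_pj_cast (K j : ℕ) : ((pj K j : ℕ) : ℝ) = 3 ^ (K * 4 ^ j) := by
  unfold pj
  push_cast
  rfl

private theorem par_qj_cast (K j : ℕ) : ((qj K j : ℕ) : ℝ) = ((pj K j : ℕ) : ℝ) ^ 2 := by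
  unfold qj
  push_cast
  rfl

/-- `mertens`: `LP = log(q_j/p_j) + O(1/p_j) = K 4^j log 3 + O(3^{-K})`, `log 3 > 1.09`. -/
theorem par_LP : ∃ K₀ : ℕ, ∀ K j : ℕ, K₀ ≤ K → (K : ℝ) * 4 ^ j ≤ LP (Pj K j) := by
  obtain ⟨C, hC, hM⟩ := mertens
  refine ⟨⌈C / (Real.log 3 - 1)⌉₊, ?_⟩
  intro K j hK
  have hp1 : (1 : ℝ) ≤ pj K j := by
    rw [par_pj_cast]
    exact one_le_pow₀ (by norm_num)
  have hq : ((qj K j : ℕ) : ℝ) = ((pj K j : ℕ) : ℝ) ^ 2 := par_qj_cast K j
  have hpq : (pj K j : ℝ) ≤ qj K j := by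
    rw [hq]
    nlinarith
  have h2 : (2 : ℝ) ≤ Real.exp (pj K j) := by
    have := Real.add_one_le_exp (pj K j : ℝ)
    linarith
  have h := hM (Real.exp (pj K j)) (Real.exp (qj K j)) h2 (Real.exp_le_exp.mpr hpq)
  rw [Real.log_exp, Real.log_exp] at h
  have hdiv : (qj K j : ℝ) / pj K j = pj K j := by
    rw [hq]
    field_simp
  rw [hdiv] at h
  have hlog : Real.log (pj K j : ℝ) = (K : ℝ) * 4 ^ j * Real.log 3 := by
    rw [par_pj_cast, Real.log_pow]
    push_cast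
    ring
  rw [hlog] at h
  have h' := (abs_le.mp h).1
  have hCp : C / (pj K j : ℝ) ≤ C := div_le_self hC.le hp1
  have hd : 0 < Real.log 3 - 1 := by
    have := par_log3_pos
    linarith
  have hKC : C / (Real.log 3 - 1) ≤ K := (Nat.le_ceil _).trans (by exact_mod_cast hK)
  rw [div_le_iff₀ hd] at hKC
  have h4 : (1 : ℝ) ≤ 4 ^ j := one_le_pow₀ (by norm_num)
  have hK0 : (0 : ℝ) ≤ K := Nat.cast_nonneg K
  have hmul : (K : ℝ) * (Real.log 3 - 1) ≤ (K : ℝ) * 4 ^ j * (Real.log 3 - 1) := by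
    have : (K : ℝ) ≤ K * 4 ^ j := by nlinarith
    exact mul_le_mul_of_nonneg_right this hd.le
  unfold Pj
  nlinarith

/-- `a_j - a_{j-1} = 2^{-j}/16`, `2a_{j-1} ≤ 3/8`, `l = ⌈V/V'⌉ ≤ V/V' + 1`, `l V' ≤ V + V'`: the left side is `≤ -2^{-j}V/8 + (3/8)V' + 2l(1 + log 2l)`;
`(3/8)V' ≤ 2^{-j}V/32` since `V ≥ p_j = q_{j-1}²`; `l ≤ 2V/p_{j-1}`, `2l(1+log 2l) ≤ (4V/p_{j-1})(1 + log(4 q_j)) ≤ 2^{-j}V/32` for `K ≥ K₀`. -/
theorem par_exp : ∃ K₀ : ℕ, ∀ K j : ℕ, K₀ ≤ K → 1 ≤ j → ∀ V V' : ℝ, (pj K j : ℝ) ≤ V →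
    V ≤ qj K j → (pj K (j - 1) : ℝ) ≤ V' → V' ≤ qj K (j - 1) →
    -2 * aj j * V + 2 * aj (j - 1) * (⌈V / V'⌉₊ * V') +
      2 * ⌈V / V'⌉₊ * (1 + Real.log (2 * ⌈V / V'⌉₊)) ≤ -((1 / 2 : ℝ) ^ j * V / 16) := by
  refine ⟨16, ?_⟩
  intro K j hK hj V V' hV1 hV2 hV3 hV4
  obtain ⟨i, rfl⟩ : ∃ i, j = i + 1 := ⟨j - 1, by omega⟩
  simp only [Nat.add_sub_cancel] at hV3 hV4 ⊢
  set x : ℕ := K * 4 ^ i with hx
  have hx16 : 16 ≤ x := by
    have : 1 ≤ 4 ^ i := Nat.one_le_pow _ _ (by norm_num)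
    calc 16 ≤ K * 1 := by omega
      _ ≤ K * 4 ^ i := Nat.mul_le_mul_left K this
  have h2x : 2 ^ (i + 1) ≤ 2 * x := by
    have h1 : 2 ^ i ≤ 4 ^ i := par_two_le_four i
    have h2 : 4 ^ i ≤ x := by
      rw [hx]
      exact Nat.le_mul_of_pos_left _ (by omega)
    rw [pow_succ]
    omega
  have hp0 : ((pj K i : ℕ) : ℝ) = 3 ^ x := par_pj_cast K i
  have hp1 : ((pj K (i + 1) : ℕ) : ℝ) = (3 ^ x) ^ 4 := by
    rw [par_pj_cast, ← pow_mul]
    congr 1
    rw [hx, pow_succ]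
    ring
  have hq0 : ((qj K i : ℕ) : ℝ) = (3 ^ x) ^ 2 := by rw [par_qj_cast, hp0]
  have hq1 : ((qj K (i + 1) : ℕ) : ℝ) = (3 ^ x) ^ 8 := by
    rw [par_qj_cast, hp1, ← pow_mul]
  set b : ℝ := 3 ^ x with hb
  have hxR : (16 : ℝ) ≤ x := by exact_mod_cast hx16
  have hbx : 256 * (x : ℝ) * (3 + 16 * x) ≤ b := by
    have := par_pow_a x hx16
    rw [hb]
    exact_mod_cast this
  have hb1 : (1 : ℝ) ≤ b := by
    rw [hb]
    exact one_le_pow₀ (by norm_num)
  have hb0 : (0 : ℝ) < b := by linarith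
  rw [hp1] at hV1
  rw [hq1] at hV2
  rw [hp0] at hV3
  rw [hq0] at hV4
  have hV'0 : 0 < V' := by linarith
  have hb4 : b ^ 2 ≤ b ^ 4 := pow_le_pow_right₀ hb1 (by norm_num)
  have hV'V : V' ≤ V := by linarith
  have hV0 : 0 < V := by linarith
  set l : ℕ := ⌈V / V'⌉₊ with hl
  have hl1 : (l : ℝ) ≤ V / V' + 1 := (Nat.ceil_lt_add_one (by positivity)).le
  have hlV : (l : ℝ) * V' ≤ V + V' := by
    calc (l : ℝ) * V' ≤ (V / V' + 1) * V' := mul_le_mul_of_nonneg_right hl1 hV'0.le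
      _ = V + V' := by field_simp
  have hlpos : 0 < l := Nat.ceil_pos.mpr (by positivity)
  have hlR : (1 : ℝ) ≤ l := by exact_mod_cast hlpos
  have hl2 : (l : ℝ) ≤ 2 * V / b := by
    have h1 : V / V' ≤ V / b := div_le_div_of_nonneg_left hV0.le hb0 hV3
    have h2 : (1 : ℝ) ≤ V / V' := (one_le_div hV'0).mpr hV'V
    calc (l : ℝ) ≤ V / V' + 1 := hl1
      _ ≤ V / V' + V / V' := by linarith
      _ ≤ V / b + V / b := by linarith
      _ = 2 * V / b := by ring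
  have ha : aj (i + 1) - aj i = (1 / 16) * (1 / 2) ^ (i + 1) := by
    unfold aj
    rw [pow_succ]
    ring
  have hai : aj i ≤ 3 / 16 := by
    unfold aj
    have : (0 : ℝ) ≤ (1 / 2) ^ i := by positivity
    linarith
  have hai0 : 0 ≤ aj i := by
    unfold aj
    have : ((1 : ℝ) / 2) ^ i ≤ 1 := pow_le_one₀ (by norm_num) (by norm_num)
    linarith
  set h : ℝ := (1 / 2) ^ (i + 1) with hh
  have hh0 : 0 < h := by positivity
  have hhx : 1 / (2 * (x : ℝ)) ≤ h := by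
    rw [hh, one_div_pow, one_div_le_one_div (by positivity) (by positivity)]
    exact_mod_cast h2x
  -- first term
  have t1 : 2 * aj i * (l * V') ≤ 2 * aj i * V + 3 / 8 * V' := by
    have : 2 * aj i * (l * V') ≤ 2 * aj i * (V + V') :=
      mul_le_mul_of_nonneg_left hlV (by linarith)
    nlinarith
  have t2 : 3 / 8 * V' ≤ h * V / 32 := by
    have h1 : 3 / 8 * V' ≤ 3 / 8 * b ^ 2 := by linarith
    have h2 : 12 * (2 * (x : ℝ)) ≤ b ^ 2 := by nlinarith
    have h3 : 12 ≤ h * b ^ 2 := by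
      calc (12 : ℝ) = 1 / (2 * (x : ℝ)) * (12 * (2 * (x : ℝ))) := by field_simp
        _ ≤ h * b ^ 2 := mul_le_mul hhx h2 (by positivity) hh0.le
    have h4 : 12 * b ^ 2 ≤ h * b ^ 4 := by nlinarith
    have h5 : h * b ^ 4 ≤ h * V := mul_le_mul_of_nonneg_left hV1 hh0.le
    linarith
  -- second term
  have hlog : Real.log (2 * l) ≤ 2 + 16 * x := by
    have h1 : (2 : ℝ) * l ≤ 4 * b ^ 8 := by
      have : 2 * V / b ≤ 2 * V := div_le_self (by linarith) hb1
      linarith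
    have h2 : Real.log (2 * l) ≤ Real.log (4 * b ^ 8) := Real.log_le_log (by positivity) h1
    have h3 : Real.log (4 * b ^ 8) = 2 * Real.log 2 + 8 * (x * Real.log 3) := by
      rw [Real.log_mul (by norm_num) (by positivity), Real.log_pow, hb, Real.log_pow]
      rw [show (4 : ℝ) = 2 ^ 2 by norm_num, Real.log_pow]
      push_cast
      ring
    have h4 : Real.log 2 ≤ 1 := by
      have := Real.log_two_lt_d9
      linarith
    have h5 := par_log3_le
    have h6 : (x : ℝ) * Real.log 3 ≤ x * 2 := mul_le_mul_of_nonneg_left h5 (by positivity)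
    linarith
  have t3 : 2 * (l : ℝ) * (1 + Real.log (2 * l)) ≤ h * V / 32 := by
    have h0 : 0 ≤ 1 + Real.log (2 * l) := by
      have : 0 ≤ Real.log (2 * l) := Real.log_nonneg (by linarith)
      linarith
    have h1 : 2 * (l : ℝ) * (1 + Real.log (2 * l)) ≤ 2 * (2 * V / b) * (3 + 16 * x) := by
      apply mul_le_mul
      · linarith
      · linarith
      · exact h0
      · positivity
    have h2 : 2 * (2 * V / b) * (3 + 16 * x) = V * (4 * (3 + 16 * x) / b) := by ring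
    have h3 : 4 * (3 + 16 * (x : ℝ)) / b ≤ h / 32 := by
      rw [div_le_iff₀ hb0]
      calc 4 * (3 + 16 * (x : ℝ)) = 1 / (2 * (x : ℝ)) / 32 * (256 * (x : ℝ) * (3 + 16 * x)) := by
            field_simp
            ring
        _ ≤ h / 32 * b := by
            apply mul_le_mul (by linarith) hbx (by positivity) (by positivity)
    calc 2 * (l : ℝ) * (1 + Real.log (2 * l)) ≤ 2 * (2 * V / b) * (3 + 16 * x) := h1
      _ = V * (4 * (3 + 16 * x) / b) := h2
      _ ≤ V * (h / 32) := mul_le_mul_of_nonneg_left h3 hV0.le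
      _ = h * V / 32 := by ring
  have hfin : -2 * aj (i + 1) * V = -2 * aj i * V - h * V / 8 := by
    have : aj (i + 1) = aj i + (1 / 16) * h := by linarith
    rw [this]
    ring
  rw [hfin]
  linarith

/-- doubly exponential decay against polynomials -/
theorem par_sum (C : ℝ) : ∃ K₀ : ℕ, ∀ K j : ℕ, K₀ ≤ K →
    C * ((Hj K j * qj K j + 1 : ℕ) : ℝ) ^ 3 * Real.exp (-((1 / 2 : ℝ) ^ j * pj K j / 16)) ≤
      (1 / 2) ^ j / K := by
  refine ⟨max ⌈C⌉₊ 10, ?_⟩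
  intro K j hK
  have hK1 : ⌈C⌉₊ ≤ K := le_trans (le_max_left _ _) hK
  have hK2 : 10 ≤ K := le_trans (le_max_right _ _) hK
  have hCK : C ≤ K := (Nat.le_ceil C).trans (by exact_mod_cast hK1)
  set y : ℕ := K * 4 ^ j with hy
  have h4 : 1 ≤ 4 ^ j := Nat.one_le_pow _ _ (by norm_num)
  have hKy : K ≤ y := by
    rw [hy]
    exact Nat.le_mul_of_pos_right K (by omega)
  have hy10 : 10 ≤ y := le_trans hK2 hKy
  have h2y : 2 ^ j * K ≤ y := by
    rw [hy, mul_comm K]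
    exact Nat.mul_le_mul_right K (par_two_le_four j)
  have h2y' : 2 ^ j ≤ y := le_trans (Nat.le_mul_of_pos_right _ (by omega)) h2y
  have hyR : (10 : ℝ) ≤ y := by exact_mod_cast hy10
  have hKyR : (K : ℝ) ≤ y := by exact_mod_cast hKy
  have hH : ((Hj K j * qj K j + 1 : ℕ) : ℝ) ≤ Real.exp (4 * y) := by
    have e1 : ((Hj K j * qj K j + 1 : ℕ) : ℝ) = y * (3 ^ y) ^ 2 + 1 := by
      push_cast
      rw [par_qj_cast, par_pj_cast]
      unfold Hj
      rw [hy]
    rw [e1]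
    have h9 : (1 : ℝ) ≤ (3 ^ y) ^ 2 := by
      have : (1 : ℝ) ≤ 3 ^ y := one_le_pow₀ (by norm_num)
      nlinarith
    have e2 : (y : ℝ) * (3 ^ y) ^ 2 + 1 ≤ (y + 1) * (3 ^ y) ^ 2 := by nlinarith
    have e3 : (y : ℝ) + 1 ≤ Real.exp y := Real.add_one_le_exp _
    have e4 : ((3 : ℝ) ^ y) ^ 2 ≤ Real.exp (3 * y) := by
      have h3 : (9 : ℝ) ≤ Real.exp 3 := by
        have a1 : (2.7 : ℝ) ≤ Real.exp 1 := by
          have := Real.exp_one_gt_d9
          linarith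
        have a2 : Real.exp 3 = Real.exp 1 * Real.exp 1 * Real.exp 1 := by
          rw [← Real.exp_add, ← Real.exp_add]; norm_num
        rw [a2]
        nlinarith
      calc ((3 : ℝ) ^ y) ^ 2 = 9 ^ y := by
            rw [← pow_mul, mul_comm, pow_mul]; norm_num
        _ ≤ (Real.exp 3) ^ y := pow_le_pow_left₀ (by norm_num) h3 y
        _ = Real.exp (3 * y) := by
            rw [← Real.exp_nat_mul]; ring_nf
    calc (y : ℝ) * (3 ^ y) ^ 2 + 1 ≤ (y + 1) * (3 ^ y) ^ 2 := e2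
      _ ≤ Real.exp y * Real.exp (3 * y) := mul_le_mul e3 e4 (by positivity) (Real.exp_pos _).le
      _ = Real.exp (4 * y) := by rw [← Real.exp_add]; ring_nf
  have hH3 : ((Hj K j * qj K j + 1 : ℕ) : ℝ) ^ 3 ≤ Real.exp (12 * y) := by
    calc ((Hj K j * qj K j + 1 : ℕ) : ℝ) ^ 3 ≤ (Real.exp (4 * y)) ^ 3 :=
          pow_le_pow_left₀ (by positivity) hH 3
      _ = Real.exp (12 * y) := by
          rw [← Real.exp_nat_mul]
          congr 1
          push_cast
          ring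
  have hdec : (14 : ℝ) * y ≤ (1 / 2 : ℝ) ^ j * pj K j / 16 := by
    rw [par_pj_cast, ← hy]
    have hb := par_pow_b y hy10
    have hbR : (224 : ℝ) * y ^ 2 ≤ 3 ^ y := by exact_mod_cast hb
    have h2R : (2 : ℝ) ^ j ≤ y := by exact_mod_cast h2y'
    have h2pos : (0 : ℝ) < 2 ^ j := by positivity
    rw [one_div_pow, div_mul_eq_mul_div, one_mul, le_div_iff₀ (by norm_num), le_div_iff₀ h2pos]
    calc 14 * (y : ℝ) * 16 * 2 ^ j ≤ 14 * (y : ℝ) * 16 * y := by
          apply mul_le_mul_of_nonneg_left h2R (by positivity)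
      _ = 224 * (y : ℝ) ^ 2 := by ring
      _ ≤ 3 ^ y := hbR
  have hexp : Real.exp (-((1 / 2 : ℝ) ^ j * pj K j / 16)) ≤ Real.exp (-(14 * y)) := by
    apply Real.exp_le_exp.mpr
    linarith
  have hCe : C ≤ Real.exp y := by
    have := Real.add_one_le_exp (y : ℝ)
    linarith
  have hmain : C * ((Hj K j * qj K j + 1 : ℕ) : ℝ) ^ 3 * Real.exp (-((1 / 2 : ℝ) ^ j * pj K j / 16)) ≤
      Real.exp (-y) := by
    calc C * ((Hj K j * qj K j + 1 : ℕ) : ℝ) ^ 3 * Real.exp (-((1 / 2 : ℝ) ^ j * pj K j / 16))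
        ≤ Real.exp y * ((Hj K j * qj K j + 1 : ℕ) : ℝ) ^ 3 *
            Real.exp (-((1 / 2 : ℝ) ^ j * pj K j / 16)) := by
          apply mul_le_mul_of_nonneg_right _ (Real.exp_pos _).le
          apply mul_le_mul_of_nonneg_right hCe (by positivity)
      _ ≤ Real.exp y * Real.exp (12 * y) * Real.exp (-(14 * y)) := by
          apply mul_le_mul _ hexp (Real.exp_pos _).le (by positivity)
          exact mul_le_mul_of_nonneg_left hH3 (Real.exp_pos _).le
      _ = Real.exp (-y) := by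
          rw [← Real.exp_add, ← Real.exp_add]
          congr 1
          ring
  refine hmain.trans ?_
  have hyy : (2 : ℝ) ^ j * K ≤ y := by exact_mod_cast h2y
  have hKpos : (0 : ℝ) < K := by
    have : (10 : ℝ) ≤ K := by exact_mod_cast hK2
    linarith
  have hey : (y : ℝ) ≤ Real.exp y := by
    have := Real.add_one_le_exp (y : ℝ)
    linarith
  rw [one_div_pow, div_div, Real.exp_neg, ← one_div]
  exact one_div_le_one_div_of_le (by positivity) (hyy.trans hey)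

/-- for `X` large there is `J` with `q_J ≤ √log X < q_{J+1}` (then `p_J > (log X)^{1/16}`: `q_{J+1} = p_J^8`); `J + 1 ≤ log X` -/
theorem par_J (K : ℕ) (hK : 1 ≤ K) : ∃ X₀ : ℝ, ∀ X : ℝ, X₀ ≤ X → ∃ J : ℕ,
    (qj K J : ℝ) ≤ Real.sqrt (Real.log X) ∧ Real.sqrt (Real.log X) < qj K (J + 1) ∧
    Real.log X < (pj K J : ℝ) ^ 16 ∧ (J + 1 : ℝ) ≤ Real.log X := by
  classical
  refine ⟨Real.exp ((qj K 0 : ℝ) ^ 2), ?_⟩
  intro X hX
  have hXpos : 0 < X := lt_of_lt_of_le (Real.exp_pos _) hX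
  have hL : (qj K 0 : ℝ) ^ 2 ≤ Real.log X := by
    rw [Real.le_log_iff_exp_le hXpos]
    exact hX
  have hL0 : 0 ≤ Real.log X := le_trans (by positivity) hL
  have hs0 : (qj K 0 : ℝ) ≤ Real.sqrt (Real.log X) := Real.le_sqrt_of_sq_le hL
  have hgrow : ∀ j : ℕ, j + 1 ≤ qj K j := by
    intro j
    have h1 : j < 4 ^ j := Nat.lt_pow_self (by norm_num)
    have h2 : 4 ^ j ≤ K * 4 ^ j := Nat.le_mul_of_pos_left _ (by omega)
    have h3 : K * 4 ^ j < 3 ^ (K * 4 ^ j) := Nat.lt_pow_self (by norm_num)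
    have h4 : pj K j ≤ qj K j := by
      unfold qj
      exact Nat.le_self_pow (by norm_num) _
    have h5 : pj K j = 3 ^ (K * 4 ^ j) := rfl
    omega
  have hex : ∃ m : ℕ, Real.sqrt (Real.log X) < qj K m := by
    obtain ⟨m, hm⟩ := exists_nat_gt (Real.sqrt (Real.log X))
    refine ⟨m, hm.trans_le ?_⟩
    have := hgrow m
    have h : m ≤ qj K m := by omega
    exact_mod_cast h
  set m := Nat.find hex with hm
  have hm1 : Real.sqrt (Real.log X) < qj K m := Nat.find_spec hex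
  have hm0 : m ≠ 0 := by
    intro h0
    rw [h0] at hm1
    linarith
  obtain ⟨J, hJ⟩ : ∃ J, m = J + 1 := ⟨m - 1, by omega⟩
  have hJ1 : (qj K J : ℝ) ≤ Real.sqrt (Real.log X) := by
    have := Nat.find_min hex (m := J) (by omega)
    exact not_lt.mp this
  rw [hJ] at hm1
  refine ⟨J, hJ1, hm1, ?_, ?_⟩
  · have hq : ((qj K (J + 1) : ℕ) : ℝ) = (pj K J : ℝ) ^ 8 := by
      rw [par_qj_cast, par_pj_cast, par_pj_cast, ← pow_mul, ← pow_mul]
      congr 1
      rw [pow_succ]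
      ring
    rw [hq] at hm1
    have h1 : Real.log X = Real.sqrt (Real.log X) ^ 2 := (Real.sq_sqrt hL0).symm
    rw [h1]
    calc Real.sqrt (Real.log X) ^ 2 < ((pj K J : ℝ) ^ 8) ^ 2 :=
          pow_lt_pow_left₀ hm1 (Real.sqrt_nonneg _) (by norm_num)
      _ = (pj K J : ℝ) ^ 16 := by rw [← pow_mul]
  · have h1 : ((J + 1 : ℕ) : ℝ) ≤ qj K J := by exact_mod_cast hgrow J
    push_cast at h1
    have h2 : (1 : ℝ) ≤ Real.sqrt (Real.log X) := by
      have : (0 : ℝ) ≤ J := Nat.cast_nonneg J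
      linarith
    have h3 : Real.sqrt (Real.log X) ≤ Real.log X := by
      have := Real.sq_sqrt hL0
      nlinarith
    linarith

end Pool.Agent.Mrd
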