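import Pool.Agent.Mrd.Defs2

/-!
Mrd TK: Turan-Kubilius in intervals, exponential moment of `om`.
-/

set_option autoImplicit false

namespace Pool.Agent.Mrd

open Finset MeasureTheory Filter Topology

private theorem TK_cnt_eq (d y Y : ℕ) :
    ((Ioc y (y + Y)).filter (fun n => d ∣ n)).card + y / d = (y + Y) / d := by
  classical
  rw [← Nat.Ioc_filter_dvd_card_eq_div y d, ← Nat.Ioc_filter_dvd_card_eq_div (y + Y) d,
    ← Finset.card_union_of_disjoint]
  · congr 1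
    ext n
    simp only [Finset.mem_union, Finset.mem_filter, Finset.mem_Ioc]
    constructor
    · rintro (⟨⟨h1, h2⟩, h3⟩ | ⟨⟨h1, h2⟩, h3⟩)
      · exact ⟨⟨by omega, h2⟩, h3⟩
      · exact ⟨⟨h1, by omega⟩, h3⟩
    · rintro ⟨⟨h1, h2⟩, h3⟩
      by_cases h : n ≤ y
      · exact Or.inr ⟨⟨h1, h⟩, h3⟩
      · exact Or.inl ⟨⟨by omega, h2⟩, h3⟩
  · rw [Finset.disjoint_left]
    intro n hn hn'
    rw [Finset.mem_filter, Finset.mem_Ioc] at hn hn'
    omega

private theorem TK_cnt_le (d y Y : ℕ) (hd : 0 < d) :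
    (((Ioc y (y + Y)).filter (fun n => d ∣ n)).card : ℝ) ≤ (Y : ℝ) / d + 1 := by
  have h := TK_cnt_eq d y Y
  have h' : ((((Ioc y (y + Y)).filter (fun n => d ∣ n)).card : ℕ) : ℝ) + ((y / d : ℕ) : ℝ) =
      (((y + Y) / d : ℕ) : ℝ) := by exact_mod_cast h
  have hd' : (0 : ℝ) < d := by exact_mod_cast hd
  have h1 : (((y + Y) / d : ℕ) : ℝ) ≤ ((y + Y : ℕ) : ℝ) / d := Nat.cast_div_le
  have h2 : (y : ℝ) / d < ((y / d : ℕ) : ℝ) + 1 := by
    rw [div_lt_iff₀ hd']
    have := Nat.lt_div_mul_add hd (a := y)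
    have h3 : ((y : ℕ) : ℝ) < (((y / d) * d + d : ℕ) : ℝ) := by exact_mod_cast this
    push_cast at h3
    nlinarith
  have h3 : ((y + Y : ℕ) : ℝ) / d = (y : ℝ) / d + (Y : ℝ) / d := by
    push_cast
    rw [add_div]
  linarith

private theorem TK_le_cnt (d y Y : ℕ) (hd : 0 < d) :
    (Y : ℝ) / d - 1 ≤ (((Ioc y (y + Y)).filter (fun n => d ∣ n)).card : ℝ) := by
  have h := TK_cnt_eq d y Y
  have h' : ((((Ioc y (y + Y)).filter (fun n => d ∣ n)).card : ℕ) : ℝ) + ((y / d : ℕ) : ℝ) =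
      (((y + Y) / d : ℕ) : ℝ) := by exact_mod_cast h
  have hd' : (0 : ℝ) < d := by exact_mod_cast hd
  have h1 : ((y / d : ℕ) : ℝ) ≤ (y : ℝ) / d := Nat.cast_div_le
  have h2 : ((y + Y : ℕ) : ℝ) / d < (((y + Y) / d : ℕ) : ℝ) + 1 := by
    rw [div_lt_iff₀ hd']
    have := Nat.lt_div_mul_add hd (a := y + Y)
    have h3 : ((y + Y : ℕ) : ℝ) < ((((y + Y) / d) * d + d : ℕ) : ℝ) := by exact_mod_cast this
    push_cast at h3 ⊢
    nlinarith
  have h3 : ((y + Y : ℕ) : ℝ) / d = (y : ℝ) / d + (Y : ℝ) / d := by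
    push_cast
    rw [add_div]
  linarith

private theorem TK_om_eq (P : Finset ℕ) (n : ℕ) :
    (om P n : ℝ) = ∑ p ∈ P, (if p ∣ n then (1 : ℝ) else 0) := by
  unfold om
  rw [Finset.card_filter]
  push_cast
  rfl

private theorem TK_LP_le (P : Finset ℕ) (hP : ∀ p ∈ P, p.Prime) : LP P ≤ P.card := by
  unfold LP
  calc ∑ p ∈ P, (1 : ℝ) / p ≤ ∑ p ∈ P, (1 : ℝ) := by
        refine Finset.sum_le_sum fun p hp => ?_
        have h1 : (1 : ℝ) ≤ p := by exact_mod_cast (hP p hp).one_lt.le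
        rw [div_le_one (by linarith)]
        exact h1
    _ = P.card := by simp

private theorem TK_LP_nonneg (P : Finset ℕ) : 0 ≤ LP P :=
  Finset.sum_nonneg fun p _ => by positivity

/-- Expand: `∑ ω² = ∑_{p,p'} #{n : p | n, p' | n} ≤ Y L² + Y L + |P|²` (each count is `≤ Y/[p,p'] + 1`), `∑ ω ≥ Y L - |P|`, `L ≤ |P|`. -/
theorem tk (P : Finset ℕ) (hP : ∀ p ∈ P, p.Prime) (y Y : ℕ) :
    ∑ n ∈ Ioc y (y + Y), ((om P n : ℝ) - LP P) ^ 2 ≤ Y * LP P + 3 * (P.card : ℝ) ^ 2 := by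
  classical
  have hL0 := TK_LP_nonneg P
  have hLc := TK_LP_le P hP
  -- second moment
  have h2 : ∑ n ∈ Ioc y (y + Y), (om P n : ℝ) ^ 2 ≤
      Y * LP P ^ 2 + (P.card : ℝ) ^ 2 + Y * LP P := by
    have e1 : ∑ n ∈ Ioc y (y + Y), (om P n : ℝ) ^ 2 =
        ∑ p ∈ P, ∑ q ∈ P, (((Ioc y (y + Y)).filter (fun n => p ∣ n ∧ q ∣ n)).card : ℝ) := by
      calc ∑ n ∈ Ioc y (y + Y), (om P n : ℝ) ^ 2
          = ∑ n ∈ Ioc y (y + Y), ∑ p ∈ P, ∑ q ∈ P,
              (if p ∣ n ∧ q ∣ n then (1 : ℝ) else 0) := by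
            refine Finset.sum_congr rfl fun n _ => ?_
            rw [TK_om_eq, sq, Finset.sum_mul_sum]
            refine Finset.sum_congr rfl fun p _ => Finset.sum_congr rfl fun q _ => ?_
            by_cases h1 : p ∣ n <;> by_cases h3 : q ∣ n <;> simp [h1, h3]
        _ = _ := by
            rw [Finset.sum_comm]
            refine Finset.sum_congr rfl fun p _ => ?_
            rw [Finset.sum_comm]
            refine Finset.sum_congr rfl fun q _ => ?_
            rw [Finset.card_filter]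
            push_cast
            rfl
    rw [e1]
    have e2 : ∀ p ∈ P, ∀ q ∈ P, (((Ioc y (y + Y)).filter (fun n => p ∣ n ∧ q ∣ n)).card : ℝ) ≤
        Y * ((1 : ℝ) / p) * ((1 : ℝ) / q) + 1 + (if p = q then Y * ((1 : ℝ) / p) else 0) := by
      intro p hp q hq
      have hp' := (hP p hp).pos
      have hq' := (hP q hq).pos
      by_cases hpq : p = q
      · subst hpq
        rw [if_pos rfl]
        have h3 := TK_cnt_le p y Y hp'
        have h4 : (Ioc y (y + Y)).filter (fun n => p ∣ n ∧ p ∣ n) =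
            (Ioc y (y + Y)).filter (fun n => p ∣ n) := by
          simp only [and_self]
        rw [h4]
        have h5 : (0 : ℝ) ≤ Y * ((1 : ℝ) / p) * ((1 : ℝ) / p) := by positivity
        have h6 : (Y : ℝ) / p = Y * ((1 : ℝ) / p) := by ring
        rw [h6] at h3
        linarith
      · rw [if_neg hpq]
        have h3 := TK_cnt_le (p * q) y Y (Nat.mul_pos hp' hq')
        have h4 : (Ioc y (y + Y)).filter (fun n => p ∣ n ∧ q ∣ n) =
            (Ioc y (y + Y)).filter (fun n => p * q ∣ n) := by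
          refine Finset.filter_congr fun n _ => ?_
          constructor
          · rintro ⟨ha, hb⟩
            exact Nat.Coprime.mul_dvd_of_dvd_of_dvd
              ((Nat.coprime_primes (hP p hp) (hP q hq)).2 hpq) ha hb
          · intro ha
            exact ⟨dvd_trans (dvd_mul_right _ _) ha, dvd_trans (dvd_mul_left _ _) ha⟩
        rw [h4]
        have h6 : (Y : ℝ) / ((p * q : ℕ) : ℝ) = Y * ((1 : ℝ) / p) * ((1 : ℝ) / q) := by
          push_cast
          rw [one_div, one_div, mul_assoc, ← mul_inv, div_eq_mul_inv]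
        rw [h6] at h3
        linarith
    calc ∑ p ∈ P, ∑ q ∈ P, (((Ioc y (y + Y)).filter (fun n => p ∣ n ∧ q ∣ n)).card : ℝ)
        ≤ ∑ p ∈ P, ∑ q ∈ P, (Y * ((1 : ℝ) / p) * ((1 : ℝ) / q) + 1 +
            (if p = q then Y * ((1 : ℝ) / p) else 0)) :=
          Finset.sum_le_sum fun p hp => Finset.sum_le_sum fun q hq => e2 p hp q hq
      _ = Y * LP P ^ 2 + (P.card : ℝ) ^ 2 + Y * LP P := by
          have e3 : ∀ p ∈ P, ∑ q ∈ P, (Y * ((1 : ℝ) / p) * ((1 : ℝ) / q) + 1 +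
              (if p = q then Y * ((1 : ℝ) / p) else 0)) =
              Y * ((1 : ℝ) / p) * LP P + P.card + Y * ((1 : ℝ) / p) := by
            intro p hp
            rw [Finset.sum_add_distrib, Finset.sum_add_distrib, ← Finset.mul_sum,
              Finset.sum_ite_eq, if_pos hp]
            simp [LP]
          rw [Finset.sum_congr rfl e3, Finset.sum_add_distrib, Finset.sum_add_distrib,
            ← Finset.sum_mul, ← Finset.mul_sum, Finset.sum_const, nsmul_eq_mul]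
          unfold LP
          ring
  -- first moment
  have h1 : Y * LP P - P.card ≤ ∑ n ∈ Ioc y (y + Y), (om P n : ℝ) := by
    have e1 : ∑ n ∈ Ioc y (y + Y), (om P n : ℝ) =
        ∑ p ∈ P, (((Ioc y (y + Y)).filter (fun n => p ∣ n)).card : ℝ) := by
      rw [Finset.sum_congr rfl (fun n _ => TK_om_eq P n), Finset.sum_comm]
      refine Finset.sum_congr rfl fun p _ => ?_
      rw [Finset.card_filter]
      push_cast
      rfl
    rw [e1]
    calc Y * LP P - P.card = ∑ p ∈ P, ((Y : ℝ) / p - 1) := by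
          rw [Finset.sum_sub_distrib, Finset.sum_const, nsmul_eq_mul, mul_one]
          unfold LP
          rw [Finset.mul_sum]
          congr 1
          refine Finset.sum_congr rfl fun p _ => ?_
          ring
      _ ≤ _ := Finset.sum_le_sum fun p hp => TK_le_cnt p y Y (hP p hp).pos
  have e0 : ∑ n ∈ Ioc y (y + Y), ((om P n : ℝ) - LP P) ^ 2 =
      ∑ n ∈ Ioc y (y + Y), (om P n : ℝ) ^ 2 - 2 * LP P * ∑ n ∈ Ioc y (y + Y), (om P n : ℝ) +
        Y * LP P ^ 2 := by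
    have : ∀ n ∈ Ioc y (y + Y), ((om P n : ℝ) - LP P) ^ 2 =
        (om P n : ℝ) ^ 2 - 2 * LP P * (om P n : ℝ) + LP P ^ 2 := fun n _ => by ring
    rw [Finset.sum_congr rfl this, Finset.sum_add_distrib, Finset.sum_sub_distrib,
      ← Finset.mul_sum, Finset.sum_const, nsmul_eq_mul, Nat.card_Ioc]
    congr 2
    simp
  rw [e0]
  have hc0 : (0 : ℝ) ≤ P.card := Nat.cast_nonneg _
  have h3 : 2 * LP P * (Y * LP P - P.card) ≤
      2 * LP P * ∑ n ∈ Ioc y (y + Y), (om P n : ℝ) :=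
    mul_le_mul_of_nonneg_left h1 (by linarith)
  have h4 : LP P * P.card ≤ P.card * P.card := mul_le_mul_of_nonneg_right hLc hc0
  nlinarith

/-- `e^{ω(n)} = ∏_{p ∈ P, p | n} (1 + (e-1)) = ∑_{D ⊂ P, ∏D | n} (e-1)^{|D|}`, so the sum is `≤ M ∏ (1 + (e-1)/p) ≤ M e^{2L}`. -/
theorem exp_om (P : Finset ℕ) (hP : ∀ p ∈ P, p.Prime) (M : ℕ) :
    ∑ n ∈ Icc 1 M, Real.exp (om P n) ≤ M * Real.exp (2 * LP P) := by
  classical
  have he1 : Real.exp 1 - 1 ≤ 2 := by
    have := Real.exp_one_lt_d9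
    linarith
  have he0 : 0 ≤ Real.exp 1 - 1 := by
    have := Real.add_one_le_exp (1 : ℝ)
    linarith
  have e1 : ∀ n : ℕ, Real.exp (om P n) =
      ∑ D ∈ P.powerset, ∏ p ∈ D, ((Real.exp 1 - 1) * (if p ∣ n then (1 : ℝ) else 0)) := by
    intro n
    rw [← Finset.prod_one_add, TK_om_eq, Real.exp_sum]
    refine Finset.prod_congr rfl fun p _ => ?_
    by_cases h : p ∣ n <;> simp [h]
  have e2 : ∀ D ∈ P.powerset, ∑ n ∈ Icc 1 M,
      ∏ p ∈ D, ((Real.exp 1 - 1) * (if p ∣ n then (1 : ℝ) else 0)) ≤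
      M * ∏ p ∈ D, ((Real.exp 1 - 1) * ((1 : ℝ) / p)) := by
    intro D hD
    have hD' : D ⊆ P := Finset.mem_powerset.1 hD
    have e3 : ∀ n : ℕ, ∏ p ∈ D, ((Real.exp 1 - 1) * (if p ∣ n then (1 : ℝ) else 0)) =
        (Real.exp 1 - 1) ^ D.card * (if (∏ p ∈ D, p) ∣ n then (1 : ℝ) else 0) := by
      intro n
      rw [Finset.prod_mul_distrib, Finset.prod_const]
      congr 1
      by_cases h : (∏ p ∈ D, p) ∣ n
      · rw [if_pos h]
        refine Finset.prod_eq_one fun p hp => ?_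
        rw [if_pos (dvd_trans (Finset.dvd_prod_of_mem _ hp) h)]
      · rw [if_neg h]
        by_contra hne
        apply h
        refine Finset.prod_primes_dvd n (fun p hp => (hP p (hD' hp)).prime) fun p hp => ?_
        by_contra hpn
        exact hne (Finset.prod_eq_zero hp (by rw [if_neg hpn]))
    rw [Finset.sum_congr rfl (fun n _ => e3 n), ← Finset.mul_sum, Finset.prod_mul_distrib,
      Finset.prod_const]
    have hcard : ∑ n ∈ Icc 1 M, (if (∏ p ∈ D, p) ∣ n then (1 : ℝ) else 0) =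
        (((Ioc 0 M).filter (fun n => (∏ p ∈ D, p) ∣ n)).card : ℝ) := by
      rw [Finset.card_filter]
      push_cast
      rfl
    rw [hcard, Nat.Ioc_filter_dvd_card_eq_div]
    have h5 : ((M / ∏ p ∈ D, p : ℕ) : ℝ) ≤ (M : ℝ) / ((∏ p ∈ D, p : ℕ) : ℝ) := Nat.cast_div_le
    have h6 : (M : ℝ) / ((∏ p ∈ D, p : ℕ) : ℝ) = M * ∏ p ∈ D, ((1 : ℝ) / p) := by
      push_cast
      rw [Finset.prod_div_distrib, Finset.prod_const_one]
      ring
    rw [h6] at h5
    have h7 : 0 ≤ (Real.exp 1 - 1) ^ D.card := pow_nonneg he0 _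
    calc (Real.exp 1 - 1) ^ D.card * ((M / ∏ p ∈ D, p : ℕ) : ℝ)
        ≤ (Real.exp 1 - 1) ^ D.card * (M * ∏ p ∈ D, ((1 : ℝ) / p)) :=
          mul_le_mul_of_nonneg_left h5 h7
      _ = _ := by ring
  calc ∑ n ∈ Icc 1 M, Real.exp (om P n)
      = ∑ D ∈ P.powerset, ∑ n ∈ Icc 1 M,
          ∏ p ∈ D, ((Real.exp 1 - 1) * (if p ∣ n then (1 : ℝ) else 0)) := by
        rw [Finset.sum_congr rfl (fun n _ => e1 n), Finset.sum_comm]
    _ ≤ ∑ D ∈ P.powerset, M * ∏ p ∈ D, ((Real.exp 1 - 1) * ((1 : ℝ) / p)) :=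
        Finset.sum_le_sum e2
    _ = M * ∏ p ∈ P, (1 + (Real.exp 1 - 1) * ((1 : ℝ) / p)) := by
        rw [← Finset.mul_sum, Finset.prod_one_add]
    _ ≤ M * Real.exp (2 * LP P) := by
        refine mul_le_mul_of_nonneg_left ?_ (Nat.cast_nonneg _)
        unfold LP
        rw [Finset.mul_sum, Real.exp_sum]
        refine Finset.prod_le_prod (fun p _ => by positivity) fun p _ => ?_
        have h8 : (Real.exp 1 - 1) * ((1 : ℝ) / p) ≤ 2 * ((1 : ℝ) / p) :=
          mul_le_mul_of_nonneg_right he1 (by positivity)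
        have h9 := Real.add_one_le_exp (2 * ((1 : ℝ) / p))
        linarith

private theorem TK_harm (a k : ℕ) (ha : 1 ≤ a) :
    ∑ n ∈ Ioc a (a + k), (1 : ℝ) / n ≤ Real.log ((a + k : ℕ) / a) := by
  induction k with
  | zero =>
    have : (a : ℝ) ≠ 0 := by
      have : (1 : ℝ) ≤ a := by exact_mod_cast ha
      positivity
    simp [this]
  | succ k ih =>
    have ha' : (0 : ℝ) < a := by exact_mod_cast ha
    rw [← Nat.add_assoc, ← Finset.insert_Ioc_right_eq_Ioc_add_one (by omega : a ≤ a + k),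
      Finset.sum_insert (by simp)]
    have hk : (0 : ℝ) < ((a + k : ℕ) : ℝ) := by
      have : 0 < a + k := by omega
      exact_mod_cast this
    have hk1 : (0 : ℝ) < ((a + k + 1 : ℕ) : ℝ) := by positivity
    have h1 := Real.one_sub_inv_le_log_of_pos (x := ((a + k + 1 : ℕ) : ℝ) / ((a + k : ℕ) : ℝ))
      (div_pos hk1 hk)
    have h2 : 1 - (((a + k + 1 : ℕ) : ℝ) / ((a + k : ℕ) : ℝ))⁻¹ = 1 / ((a + k + 1 : ℕ) : ℝ) := by
      rw [inv_div]
      rw [eq_div_iff hk1.ne', sub_mul, div_mul_cancel₀ _ hk1.ne']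
      push_cast
      ring
    rw [h2, Real.log_div hk1.ne' hk.ne'] at h1
    rw [Real.log_div hk.ne' ha'.ne'] at ih
    rw [Real.log_div hk1.ne' ha'.ne']
    linarith

/-- `∑_{z ≤ p ≤ ez} 1/p ≤ ∑_{z ≤ n ≤ ez} 1/n ≤ 1/z + 1 ≤ 2` -/
theorem LP_le_two (Q : Finset ℕ) (z : ℝ) (hz : 1 ≤ z)
    (hQ : ∀ p ∈ Q, z ≤ p ∧ (p : ℝ) ≤ Real.exp 1 * z) : LP Q ≤ 2 := by
  classical
  rcases Q.eq_empty_or_nonempty with h | ⟨q, hq⟩
  · subst h
    simp [LP]
  set a := ⌈z⌉₊ with ha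
  set b := ⌊Real.exp 1 * z⌋₊ with hb
  have ha1 : 1 ≤ a := by
    rw [ha, Nat.one_le_ceil_iff]
    linarith
  have haz : z ≤ a := Nat.le_ceil z
  have hbz : (b : ℝ) ≤ Real.exp 1 * z := Nat.floor_le (by positivity)
  have hsub : Q ⊆ Icc a b := by
    intro p hp
    rw [Finset.mem_Icc]
    exact ⟨Nat.ceil_le.2 (hQ p hp).1, Nat.le_floor (hQ p hp).2⟩
  have hab : a ≤ b := by
    have := hsub hq
    rw [Finset.mem_Icc] at this
    omega
  obtain ⟨k, hk⟩ := Nat.exists_eq_add_of_le hab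
  have h1 : LP Q ≤ ∑ n ∈ Icc a b, (1 : ℝ) / n :=
    Finset.sum_le_sum_of_subset_of_nonneg hsub fun n _ _ => by positivity
  have h2 : ∑ n ∈ Icc a b, (1 : ℝ) / n = 1 / a + ∑ n ∈ Ioc a b, (1 : ℝ) / n := by
    rw [← Finset.Icc_erase_left]
    exact (Finset.add_sum_erase (Icc a b) (fun n : ℕ => (1 : ℝ) / n)
      (Finset.mem_Icc.2 ⟨le_rfl, hab⟩)).symm
  have h3 := TK_harm a k ha1
  rw [← hk] at h3
  have ha0 : (0 : ℝ) < a := by
    have : (1 : ℝ) ≤ a := by exact_mod_cast ha1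
    linarith
  have h4 : Real.log ((b : ℝ) / a) ≤ 1 := by
    have hb0 : (0 : ℝ) < b := by
      have : 0 < b := by omega
      exact_mod_cast this
    rw [Real.log_le_iff_le_exp (by positivity), div_le_iff₀ ha0]
    exact hbz.trans (mul_le_mul_of_nonneg_left haz (Real.exp_pos 1).le)
  have h5 : (1 : ℝ) / a ≤ 1 := by
    rw [div_le_one ha0]
    exact_mod_cast ha1
  linarith

end Pool.Agent.Mrd
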