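import Pool.Agent.Mrd.ZsP

/-!
Mrd TRAP: smooth sums `Zw N τ = ∑ wt(n/N) n^{-iτ}`.
-/

set_option autoImplicit false

namespace Pool.Agent.Mrd

open Finset MeasureTheory Filter Topology

private noncomputable def trE (τ u : ℝ) : ℂ :=
  Complex.exp (-((τ * Real.log u : ℝ) : ℂ) * Complex.I)

private theorem trE_norm (τ u : ℝ) : ‖trE τ u‖ = 1 := by
  unfold trE
  rw [show (-((τ * Real.log u : ℝ) : ℂ) * Complex.I) = ((-(τ * Real.log u) : ℝ) : ℂ) * Complex.I by
    push_cast; ring]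
  exact Complex.norm_exp_ofReal_mul_I _

private theorem trwt_nonneg (u : ℝ) : 0 ≤ wt u := le_max_left _ _

private theorem trwt_le_one (u : ℝ) : wt u ≤ 1 := max_le zero_le_one (min_le_left _ _)

private theorem trwt_lip (u v : ℝ) : |wt u - wt v| ≤ 2 * |u - v| := by
  unfold wt
  refine (abs_max_sub_max_le_max _ _ _ _).trans ?_
  rw [sub_self, abs_zero]
  refine max_le (by positivity) ?_
  refine (abs_min_sub_min_le_max _ _ _ _).trans ?_
  rw [sub_self, abs_zero]
  refine max_le (by positivity) ?_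
  refine (abs_min_sub_min_le_max _ _ _ _).trans ?_
  refine max_le ?_ ?_
  · rw [show 2 * u - 1 - (2 * v - 1) = 2 * (u - v) by ring, abs_mul, abs_of_pos (by norm_num : (0 : ℝ) < 2)]
  · rw [show 4 - u - (4 - v) = -(u - v) by ring, abs_neg]
    linarith [abs_nonneg (u - v)]

private theorem trwt_low {u : ℝ} (h : u ≤ 1 / 2) : wt u = 0 := by
  unfold wt
  exact max_eq_left (min_le_of_right_le (min_le_of_left_le (by linarith)))

private theorem trwt_high {u : ℝ} (h : 4 ≤ u) : wt u = 0 := by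
  unfold wt
  exact max_eq_left (min_le_of_right_le (min_le_of_right_le (by linarith)))

private theorem trwt_one {u : ℝ} (h : 1 / 2 ≤ u) (h' : u ≤ 1) : wt u = 2 * u - 1 := by
  unfold wt
  rw [min_eq_left (by linarith : 2 * u - 1 ≤ 4 - u), min_eq_right (by linarith), max_eq_right (by linarith)]

private theorem trwt_two {u : ℝ} (h : 1 ≤ u) (h' : u ≤ 3) : wt u = 1 := by
  unfold wt
  rw [min_eq_left (le_min (by linarith) (by linarith)), max_eq_right (by linarith)]

private theorem trwt_three {u : ℝ} (h : 3 ≤ u) (h' : u ≤ 4) : wt u = 4 - u := by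
  unfold wt
  rw [min_eq_right (by linarith : 4 - u ≤ 2 * u - 1), min_eq_right (by linarith), max_eq_right (by linarith)]

private theorem trE_contAt (τ : ℝ) {u : ℝ} (hu : 0 < u) : ContinuousAt (trE τ) u := by
  unfold trE
  have h : ContinuousAt (fun v => τ * Real.log v) u :=
    continuousAt_const.mul (Real.continuousAt_log hu.ne')
  exact ((Complex.continuous_ofReal.continuousAt.comp h).neg.mul continuousAt_const).cexp

private noncomputable def trG (τ u : ℝ) : ℂ := ((wt u : ℝ) : ℂ) * trE τ u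

private theorem trG_cont (τ : ℝ) : Continuous (trG τ) := by
  have hw : Continuous wt := by
    unfold wt
    fun_prop
  rw [continuous_iff_continuousAt]
  intro u
  rcases lt_or_ge u (1 / 2) with h | h
  · have h0 : trG τ =ᶠ[𝓝 u] fun _ => 0 := by
      filter_upwards [Iio_mem_nhds h] with v hv
      unfold trG
      rw [trwt_low (le_of_lt hv)]
      simp
    exact continuousAt_const.congr h0.symm
  · unfold trG
    exact (Complex.continuous_ofReal.comp hw).continuousAt.mul (trE_contAt τ (by linarith))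

private theorem trE_deriv (τ : ℝ) {u : ℝ} (hu : 0 < u) :
    HasDerivAt (trE τ) (trE τ u * (-((τ * u⁻¹ : ℝ) : ℂ) * Complex.I)) u := by
  have h1 : HasDerivAt (fun v : ℝ => -((τ * Real.log v : ℝ) : ℂ) * Complex.I)
      (-((τ * u⁻¹ : ℝ) : ℂ) * Complex.I) u :=
    (((Real.hasDerivAt_log hu.ne').const_mul τ).ofReal_comp).neg.mul_const Complex.I
  exact h1.cexp

private noncomputable def trA (τ : ℝ) : ℂ := 1 - (τ : ℂ) * Complex.I
private noncomputable def trB (τ : ℝ) : ℂ := 2 - (τ : ℂ) * Complex.I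

private theorem trA_ne (τ : ℝ) : trA τ ≠ 0 := by
  intro h
  have := congrArg Complex.re h
  simp [trA] at this

private theorem trB_ne (τ : ℝ) : trB τ ≠ 0 := by
  intro h
  have := congrArg Complex.re h
  simp [trB] at this

private theorem trAB_norm (τ : ℝ) : 1 + τ ^ 2 ≤ ‖trA τ * trB τ‖ := by
  have h1 : ‖trA τ‖ ^ 2 = 1 + τ ^ 2 := by
    rw [Complex.sq_norm, Complex.normSq_apply]
    simp [trA]
    ring
  have h2 : ‖trB τ‖ ^ 2 = 4 + τ ^ 2 := by
    rw [Complex.sq_norm, Complex.normSq_apply]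
    simp [trB]
    ring
  rw [← pow_le_pow_iff_left₀ (by positivity) (norm_nonneg _) two_ne_zero, norm_mul, mul_pow, h1, h2]
  nlinarith [sq_nonneg τ]

private noncomputable def trF1 (τ u : ℝ) : ℂ := (u : ℂ) * trE τ u / trA τ
private noncomputable def trF2 (τ u : ℝ) : ℂ := (u : ℂ) ^ 2 * trE τ u / (trA τ * trB τ)

private theorem trF1_deriv (τ : ℝ) {u : ℝ} (hu : 0 < u) : HasDerivAt (trF1 τ) (trE τ u) u := by
  have h1 : HasDerivAt (fun v : ℝ => (v : ℂ)) 1 u := by
    simpa using (hasDerivAt_id u).ofReal_comp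
  have h2 := ((h1.mul (trE_deriv τ hu)).div_const (trA τ))
  refine h2.congr_deriv ?_
  have ha := trA_ne τ
  have hu' : (u : ℂ) ≠ 0 := by exact_mod_cast hu.ne'
  rw [div_eq_iff ha]
  unfold trA
  push_cast
  field_simp
  ring

private theorem trF2_deriv (τ : ℝ) {u : ℝ} (hu : 0 < u) : HasDerivAt (trF2 τ) (trF1 τ u) u := by
  have h1 : HasDerivAt (fun v : ℝ => (v : ℂ)) 1 u := by
    simpa using (hasDerivAt_id u).ofReal_comp
  have h1' : HasDerivAt (fun v : ℝ => (v : ℂ) ^ 2) (2 * (u : ℂ)) u := by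
    refine HasDerivAt.congr_deriv (h1.pow 2) ?_
    simp
  have h2 := ((h1'.mul (trE_deriv τ hu)).div_const (trA τ * trB τ))
  refine h2.congr_deriv ?_
  have ha := trA_ne τ
  have hb := trB_ne τ
  have hu' : (u : ℂ) ≠ 0 := by exact_mod_cast hu.ne'
  unfold trF1
  rw [div_eq_div_iff (mul_ne_zero ha hb) ha]
  have hb' : trB τ = 2 - (τ : ℂ) * Complex.I := rfl
  rw [hb']
  push_cast
  field_simp
  ring

private theorem trF2_norm (τ : ℝ) {u : ℝ} (hu : 0 ≤ u) : ‖trF2 τ u‖ ≤ u ^ 2 / (1 + τ ^ 2) := by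
  unfold trF2
  rw [norm_div, norm_mul, trE_norm, mul_one, norm_pow, Complex.norm_real, Real.norm_of_nonneg hu]
  exact div_le_div_of_nonneg_left (by positivity) (by positivity) (trAB_norm τ)

private noncomputable def trV (τ : ℝ) : ℂ :=
  trF2 τ 4 - trF2 τ 3 - 2 * trF2 τ 1 + 2 * trF2 τ (1 / 2)

private theorem trV_norm (τ : ℝ) : ‖trV τ‖ ≤ 28 / (1 + τ ^ 2) := by
  have h4 := trF2_norm τ (u := 4) (by norm_num)
  have h3 := trF2_norm τ (u := 3) (by norm_num)
  have h1 := trF2_norm τ (u := 1) (by norm_num)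
  have h0 := trF2_norm τ (u := 1 / 2) (by norm_num)
  have hp : (0 : ℝ) < 1 + τ ^ 2 := by positivity
  have e : ‖trV τ‖ ≤ ‖trF2 τ 4‖ + ‖trF2 τ 3‖ + 2 * ‖trF2 τ 1‖ + 2 * ‖trF2 τ (1 / 2)‖ := by
    unfold trV
    refine (norm_add_le _ _).trans ?_
    have e1 := norm_sub_le (trF2 τ 4 - trF2 τ 3) (2 * trF2 τ 1)
    have e2 := norm_sub_le (trF2 τ 4) (trF2 τ 3)
    rw [norm_mul] at e1
    rw [norm_mul]
    have e3 : ‖(2 : ℂ)‖ = 2 := by norm_num
    rw [e3] at e1 ⊢
    linarith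
  refine e.trans ?_
  have k : (28 : ℝ) / (1 + τ ^ 2) = 4 ^ 2 / (1 + τ ^ 2) + 3 ^ 2 / (1 + τ ^ 2) +
      2 * (1 ^ 2 / (1 + τ ^ 2)) + (2 * ((1 / 2) ^ 2 / (1 + τ ^ 2))) + (1 / 2) / (1 + τ ^ 2) := by
    field_simp
    norm_num
  rw [k]
  have : 0 ≤ (1 / 2) / (1 + τ ^ 2) := by positivity
  linarith

private theorem trG_int (τ : ℝ) {X : ℝ} (hX : 4 ≤ X) : ∫ u in (0 : ℝ)..X, trG τ u = trV τ := by
  have hI : ∀ a b : ℝ, IntervalIntegrable (trG τ) volume a b := fun a b =>
    (trG_cont τ).intervalIntegrable a b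
  have i0 : ∫ u in (0 : ℝ)..(1 / 2), trG τ u = 0 := by
    rw [intervalIntegral.integral_congr (g := fun _ => (0 : ℂ))]
    · simp
    · intro u hu
      rw [Set.uIcc_of_le (by norm_num)] at hu
      simp only [trG]
      rw [trwt_low hu.2]
      simp
  have i4 : ∫ u in (4 : ℝ)..X, trG τ u = 0 := by
    rw [intervalIntegral.integral_congr (g := fun _ => (0 : ℂ))]
    · simp
    · intro u hu
      rw [Set.uIcc_of_le hX] at hu
      simp only [trG]
      rw [trwt_high hu.1]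
      simp
  have hlin : ∀ (α β : ℝ) (v : ℝ), HasDerivAt (fun v : ℝ => (((α * v + β : ℝ)) : ℂ)) ((α : ℝ) : ℂ) v := by
    intro α β v
    have := (((hasDerivAt_id v).const_mul α).add_const β).ofReal_comp
    simpa using this
  have i1 : ∫ u in (1 / 2 : ℝ)..1, trG τ u =
      (((2 * 1 + (-1) : ℝ) : ℂ) * trF1 τ 1 - 2 * trF2 τ 1) -
      (((2 * (1 / 2) + (-1) : ℝ) : ℂ) * trF1 τ (1 / 2) - 2 * trF2 τ (1 / 2)) := by
    refine intervalIntegral.integral_eq_sub_of_hasDerivAt
      (f := fun v : ℝ => ((2 * v + (-1) : ℝ) : ℂ) * trF1 τ v - 2 * trF2 τ v) ?_ (hI _ _)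
    intro u hu
    rw [Set.uIcc_of_le (by norm_num)] at hu
    have hu0 : 0 < u := by linarith [hu.1]
    have h := ((hlin 2 (-1) u).mul (trF1_deriv τ hu0)).sub ((trF2_deriv τ hu0).const_mul 2)
    refine h.congr_deriv ?_
    unfold trG
    rw [trwt_one hu.1 hu.2]
    push_cast
    ring
  have i2 : ∫ u in (1 : ℝ)..3, trG τ u = trF1 τ 3 - trF1 τ 1 := by
    refine intervalIntegral.integral_eq_sub_of_hasDerivAt (f := trF1 τ) ?_ (hI _ _)
    intro u hu
    rw [Set.uIcc_of_le (by norm_num)] at hu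
    have hu0 : 0 < u := by linarith [hu.1]
    refine (trF1_deriv τ hu0).congr_deriv ?_
    unfold trG
    rw [trwt_two hu.1 hu.2]
    simp
  have i3 : ∫ u in (3 : ℝ)..4, trG τ u =
      (((-1 * 4 + 4 : ℝ) : ℂ) * trF1 τ 4 + trF2 τ 4) -
      (((-1 * 3 + 4 : ℝ) : ℂ) * trF1 τ 3 + trF2 τ 3) := by
    refine intervalIntegral.integral_eq_sub_of_hasDerivAt
      (f := fun v : ℝ => ((-1 * v + 4 : ℝ) : ℂ) * trF1 τ v + trF2 τ v) ?_ (hI _ _)
    intro u hu
    rw [Set.uIcc_of_le (by norm_num)] at hu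
    have hu0 : 0 < u := by linarith [hu.1]
    have h := ((hlin (-1) 4 u).mul (trF1_deriv τ hu0)).add (trF2_deriv τ hu0)
    refine h.congr_deriv ?_
    unfold trG
    rw [trwt_three hu.1 hu.2]
    push_cast
    ring
  rw [← intervalIntegral.integral_add_adjacent_intervals (hI 0 (1 / 2)) (hI (1 / 2) X),
    ← intervalIntegral.integral_add_adjacent_intervals (hI (1 / 2) 1) (hI 1 X),
    ← intervalIntegral.integral_add_adjacent_intervals (hI 1 3) (hI 3 X),
    ← intervalIntegral.integral_add_adjacent_intervals (hI 3 4) (hI 4 X), i0, i1, i2, i3, i4]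
  unfold trV
  push_cast
  ring

/-- the function summed -/
private noncomputable def trg (N τ u : ℝ) : ℂ := trE τ N * trG τ (u / N)

private theorem trg_eq {N τ u : ℝ} (hN : 0 < N) (hu : 0 < u) :
    trg N τ u = ((wt (u / N) : ℝ) : ℂ) * trE τ u := by
  have h : trE τ N * trE τ (u / N) = trE τ u := by
    unfold trE
    rw [← Complex.exp_add, Real.log_div hu.ne' hN.ne']
    congr 1
    push_cast
    ring
  unfold trg trG
  rw [← h]
  ring

private theorem trE_lip (τ : ℝ) {u v : ℝ} (hu : 0 < u) (huv : u ≤ v) :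
    ‖trE τ u - trE τ v‖ ≤ |τ| * ((v - u) / u) := by
  have hv : 0 < v := lt_of_lt_of_le hu huv
  have h1 : trE τ u - trE τ v =
      -(trE τ u * (Complex.exp (Complex.I * ((τ * (Real.log u - Real.log v) : ℝ) : ℂ)) - 1)) := by
    unfold trE
    rw [mul_sub, ← Complex.exp_add, mul_one, neg_sub]
    congr 2
    push_cast
    ring
  rw [h1, norm_neg, norm_mul, trE_norm, one_mul]
  refine (Real.norm_exp_I_mul_ofReal_sub_one_le).trans ?_
  rw [Real.norm_eq_abs, abs_mul]
  refine mul_le_mul_of_nonneg_left ?_ (abs_nonneg _)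
  have h2 : Real.log u ≤ Real.log v := Real.log_le_log hu huv
  rw [abs_of_nonpos (by linarith), neg_sub]
  have h3 := Real.log_le_sub_one_of_pos (div_pos hv hu)
  rw [Real.log_div hv.ne' hu.ne'] at h3
  have h4 : (v - u) / u = v / u - 1 := by
    rw [sub_div, div_self hu.ne']
  rw [h4]
  exact h3

private theorem trg_lip {N τ u v : ℝ} (hN : 0 < N) (hu : 0 < u) (huv : u ≤ v) :
    ‖trg N τ v - trg N τ u‖ ≤ 2 * (1 + |τ|) / N * (v - u) := by
  have hv : 0 < v := lt_of_lt_of_le hu huv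
  rw [trg_eq hN hu, trg_eq hN hv]
  have h1 : ((wt (v / N) : ℝ) : ℂ) * trE τ v - ((wt (u / N) : ℝ) : ℂ) * trE τ u =
      (((wt (v / N) - wt (u / N) : ℝ)) : ℂ) * trE τ v +
        -(((wt (u / N) : ℝ) : ℂ) * (trE τ u - trE τ v)) := by
    push_cast
    ring
  rw [h1]
  refine (norm_add_le _ _).trans ?_
  rw [norm_neg, norm_mul, norm_mul, trE_norm, mul_one, Complex.norm_real, Complex.norm_real,
    Real.norm_eq_abs, Real.norm_of_nonneg (trwt_nonneg _)]
  have h2 : |wt (v / N) - wt (u / N)| ≤ 2 / N * (v - u) := by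
    refine (trwt_lip _ _).trans ?_
    rw [← sub_div, abs_div, abs_of_nonneg (sub_nonneg.2 huv), abs_of_pos hN]
    apply le_of_eq
    ring
  have h3 : wt (u / N) * ‖trE τ u - trE τ v‖ ≤ 2 * |τ| / N * (v - u) := by
    rcases le_or_gt (u / N) (1 / 2) with h | h
    · rw [trwt_low h, zero_mul]
      have : 0 ≤ v - u := sub_nonneg.2 huv
      positivity
    · have h4 := trE_lip τ hu huv
      have h5 : N / 2 < u := by
        rw [lt_div_iff₀ hN] at h
        linarith
      have h6 : |τ| * ((v - u) / u) ≤ 2 * |τ| / N * (v - u) := by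
        have h7 : (v - u) / u ≤ (v - u) / (N / 2) :=
          div_le_div_of_nonneg_left (sub_nonneg.2 huv) (by positivity) h5.le
        calc |τ| * ((v - u) / u) ≤ |τ| * ((v - u) / (N / 2)) :=
              mul_le_mul_of_nonneg_left h7 (abs_nonneg _)
          _ = 2 * |τ| / N * (v - u) := by
              field_simp
      calc wt (u / N) * ‖trE τ u - trE τ v‖ ≤ 1 * ‖trE τ u - trE τ v‖ :=
            mul_le_mul_of_nonneg_right (trwt_le_one _) (norm_nonneg _)
        _ ≤ _ := by rw [one_mul]; exact h4.trans h6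
  calc _ ≤ 2 / N * (v - u) + 2 * |τ| / N * (v - u) := add_le_add h2 h3
    _ = _ := by ring

private theorem trZw_norm (N τ : ℝ) (hN : 0 < N) : ‖Zw N τ‖ ≤ 4 * N := by
  unfold Zw
  refine (norm_sum_le _ _).trans ?_
  calc ∑ n ∈ Icc 1 ⌊4 * N⌋₊, ‖((wt (n / N) : ℝ) : ℂ) * tw τ n‖ ≤ ∑ n ∈ Icc 1 ⌊4 * N⌋₊, (1 : ℝ) := by
        refine Finset.sum_le_sum fun n _ => ?_
        rw [norm_mul, tw_norm, mul_one, Complex.norm_real, Real.norm_of_nonneg (trwt_nonneg _)]
        exact trwt_le_one _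
    _ = (⌊4 * N⌋₊ : ℝ) := by simp
    _ ≤ 4 * N := Nat.floor_le (by positivity)

private theorem trZw_eq (N τ : ℝ) (hN : 0 < N) :
    Zw N τ = ∑ i ∈ range (⌊4 * N⌋₊ + 1), trg N τ ((i + 1 : ℕ) : ℝ) := by
  rw [Finset.sum_range_succ]
  have h1 : trg N τ ((⌊4 * N⌋₊ + 1 : ℕ) : ℝ) = 0 := by
    have h2 : 4 ≤ ((⌊4 * N⌋₊ + 1 : ℕ) : ℝ) / N := by
      rw [le_div_iff₀ hN]
      push_cast
      exact (Nat.lt_floor_add_one (4 * N)).le
    unfold trg trG
    rw [trwt_high h2]
    simp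
  rw [h1, add_zero]
  unfold Zw
  rw [show Icc 1 ⌊4 * N⌋₊ = Ico 1 (⌊4 * N⌋₊ + 1) by
    ext x
    simp only [Finset.mem_Icc, Finset.mem_Ico]
    omega]
  rw [Finset.sum_Ico_eq_sum_range]
  refine Finset.sum_congr rfl fun i _ => ?_
  rw [add_comm 1 i, trg_eq hN (by positivity)]
  rfl

/-- `V τ = ∫_{1/2}^4 wt(u) u^{-iτ} du`. Two integrations by parts on the three linear pieces give `|V τ| ≤ C/(1+τ²)`. For `g(u) = wt(u/N) u^{-iτ}`,
`∫_0^∞ g = N^{1-iτ} V τ` and `|∑_{n ≥ 1} g(n) - ∫_0^∞ g| ≤ ∫ |g'| ≤ ∫ (|wt'(u/N)|/N + |τ| wt(u/N)/u) du ≤ 2 + 3|τ|` (on `[n-1,n]`: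
`|g(n) - ∫_{n-1}^n g| ≤ ∫_{n-1}^n |g'|`, `g` is Lipschitz; `g = 0` near 0 and beyond `4N`). -/
theorem zw_near : ∃ C : ℝ, 0 < C ∧ ∃ V : ℝ → ℂ, (∀ τ, ‖V τ‖ ≤ C / (1 + τ ^ 2)) ∧ ∀ N τ : ℝ, 0 < N →
    ‖Zw N τ - (N : ℂ) * Complex.exp (-((τ * Real.log N : ℝ) : ℂ) * Complex.I) * V τ‖ ≤
      C * (1 + |τ|) := by
  refine ⟨32, by norm_num, trV, fun τ => ?_, fun N τ hN => ?_⟩
  · refine (trV_norm τ).trans ?_
    have hp : (0 : ℝ) < 1 + τ ^ 2 := by positivity
    exact div_le_div_of_nonneg_right (by norm_num) hp.le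
  change ‖Zw N τ - (N : ℂ) * trE τ N * trV τ‖ ≤ _
  have hτ := abs_nonneg τ
  rcases lt_or_ge N 1 with h | h
  · refine (norm_sub_le _ _).trans ?_
    have h1 := trZw_norm N τ hN
    have h2 := trV_norm τ
    have h3 : (28 : ℝ) / (1 + τ ^ 2) ≤ 28 := by
      rw [div_le_iff₀ (by positivity)]
      nlinarith [sq_nonneg τ]
    have h4 : ‖(N : ℂ) * trE τ N * trV τ‖ ≤ 28 := by
      rw [norm_mul, norm_mul, trE_norm, mul_one, Complex.norm_real, Real.norm_of_nonneg hN.le]
      calc N * ‖trV τ‖ ≤ 1 * ‖trV τ‖ := mul_le_mul_of_nonneg_right h.le (norm_nonneg _)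
        _ ≤ 28 := by rw [one_mul]; exact h2.trans h3
    linarith
  · set R := ⌊4 * N⌋₊ + 1 with hR
    have hR1 : 4 * N ≤ (R : ℝ) := by
      rw [hR]
      push_cast
      exact (Nat.lt_floor_add_one (4 * N)).le
    have hR2 : (R : ℝ) ≤ 4 * N + 1 := by
      rw [hR]
      push_cast
      linarith [Nat.floor_le (show 0 ≤ 4 * N by positivity)]
    have hc : Continuous (trg N τ) := by
      unfold trg
      exact continuous_const.mul ((trG_cont τ).comp (continuous_id.div_const N))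
    have hint : ∫ u in (0 : ℝ)..R, trg N τ u = (N : ℂ) * trE τ N * trV τ := by
      unfold trg
      rw [intervalIntegral.integral_const_mul, intervalIntegral.integral_comp_div _ hN.ne',
        zero_div, trG_int τ (by rw [le_div_iff₀ hN]; exact hR1), Complex.real_smul]
      ring
    have hsum : ∑ i ∈ range R, ∫ u in ((i : ℕ) : ℝ)..((i + 1 : ℕ) : ℝ), trg N τ u =
        ∫ u in (0 : ℝ)..R, trg N τ u := by
      have := intervalIntegral.sum_integral_adjacent_intervals (f := trg N τ) (μ := volume)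
        (a := fun i : ℕ => (i : ℝ)) (n := R) (fun k _ => hc.intervalIntegrable _ _)
      rw [this]
      simp
    rw [← hint, ← hsum, trZw_eq N τ hN, ← Finset.sum_sub_distrib]
    refine (norm_sum_le _ _).trans ?_
    have hK : ∀ i ∈ range R, ‖trg N τ ((i + 1 : ℕ) : ℝ) -
        ∫ u in ((i : ℕ) : ℝ)..((i + 1 : ℕ) : ℝ), trg N τ u‖ ≤ 2 * (1 + |τ|) / N := by
      intro i _
      have h1 : trg N τ ((i + 1 : ℕ) : ℝ) - ∫ u in ((i : ℕ) : ℝ)..((i + 1 : ℕ) : ℝ), trg N τ u =
          ∫ u in ((i : ℕ) : ℝ)..((i + 1 : ℕ) : ℝ), (trg N τ ((i + 1 : ℕ) : ℝ) - trg N τ u) := by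
        rw [intervalIntegral.integral_sub intervalIntegrable_const (hc.intervalIntegrable _ _),
          intervalIntegral.integral_const]
        push_cast
        rw [add_sub_cancel_left, one_smul]
      rw [h1]
      have h2 := intervalIntegral.norm_integral_le_of_norm_le_const (a := ((i : ℕ) : ℝ))
        (b := ((i + 1 : ℕ) : ℝ)) (C := 2 * (1 + |τ|) / N)
        (f := fun u => trg N τ ((i + 1 : ℕ) : ℝ) - trg N τ u) ?_
      · refine h2.trans ?_
        push_cast
        rw [add_sub_cancel_left, abs_one, mul_one]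
      · intro u hu
        rw [Set.uIoc_of_le (by push_cast; linarith)] at hu
        have hu0 : 0 < u := lt_of_le_of_lt (Nat.cast_nonneg i) hu.1
        refine (trg_lip hN hu0 hu.2).trans ?_
        have h3 : ((i + 1 : ℕ) : ℝ) - u ≤ 1 := by
          have := hu.1
          push_cast
          linarith
        calc 2 * (1 + |τ|) / N * (((i + 1 : ℕ) : ℝ) - u) ≤ 2 * (1 + |τ|) / N * 1 :=
              mul_le_mul_of_nonneg_left h3 (by positivity)
          _ = _ := mul_one _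
    refine (Finset.sum_le_sum hK).trans ?_
    rw [Finset.sum_const, card_range, nsmul_eq_mul]
    calc (R : ℝ) * (2 * (1 + |τ|) / N) ≤ (5 * N) * (2 * (1 + |τ|) / N) := by
          refine mul_le_mul_of_nonneg_right (by linarith) (by positivity)
      _ = 10 * (1 + |τ|) := by
          field_simp
          ring
      _ ≤ 32 * (1 + |τ|) := by nlinarith

private theorem trabel (w : ℕ → ℂ) (z : ℕ → ℂ) (M k : ℕ) (h : M ≤ k) :
    ∑ n ∈ Ioc M k, w n * z n = w (k + 1) * (∑ n ∈ Ioc M k, z n) +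
      ∑ n ∈ Ioc M k, (w n - w (n + 1)) * (∑ i ∈ Ioc M n, z i) := by
  induction k, h using Nat.le_induction with
  | base => simp
  | succ k hk ih =>
    have e : Ioc M (k + 1) = insert (k + 1) (Ioc M k) := by
      ext x
      simp only [Finset.mem_Ioc, Finset.mem_insert]
      omega
    have hn : k + 1 ∉ Ioc M k := by
      simp
    have e2 : ∀ f : ℕ → ℂ, ∑ n ∈ Ioc M (k + 1), f n = f (k + 1) + ∑ n ∈ Ioc M k, f n := by
      intro f
      rw [e, Finset.sum_insert hn]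
    rw [e2 (fun n => w n * z n), ih, e2 (fun n => (w n - w (n + 1)) * (∑ i ∈ Ioc M n, z i)), e2 z]
    ring

/-- Partial summation from `zs_all` (exponent `2A`): `wt(n/N)` is monotone on each of `(N/2, N]`, `(N, 3N]`, `(3N, 4N]`, so each piece is
`≤ 2 sup |zs 0 τ M N'|`. Cut further so that the ratios are `≤ 8` and the starting points `M ≥ N/2 - 1 ≥ 1`, `|τ| ≤ N^A ≤ M^{2A}` for `N ≥ N₀`;
small `N` trivially (`|Zw| ≤ 4N`). -/
theorem zw_far (A : ℝ) (hA : 1 ≤ A) : ∃ C c : ℝ, 0 < C ∧ 0 < c ∧ c ≤ 1 ∧ ∀ N τ : ℝ, 1 ≤ N → 0 < |τ| →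
    |τ| ≤ N ^ A → ‖Zw N τ‖ ≤ C * (N / |τ| + N ^ (1 - c)) := by
  obtain ⟨C, c, hC, hc, hc1, H⟩ := zs_all (2 * A) (by linarith)
  refine ⟨64 + 16 * C, c, by positivity, hc, hc1, ?_⟩
  intro N τ hN hτ hτA
  have hN0 : 0 < N := by linarith
  have hpow : 1 ≤ N ^ (1 - c) := Real.one_le_rpow hN (by linarith)
  have hq : 0 ≤ N / |τ| := by positivity
  rcases lt_or_ge N 16 with h | h
  · have h1 := trZw_norm N τ hN0
    nlinarith
  -- large N
  set M0 := ⌊N / 2⌋₊ with hM0
  set M1 := ⌊N⌋₊ with hM1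
  set k := ⌊4 * N⌋₊ with hk
  have a1 : (M0 : ℝ) ≤ N / 2 := Nat.floor_le (by positivity)
  have a2 : N / 2 < M0 + 1 := Nat.lt_floor_add_one _
  have b1 : (M1 : ℝ) ≤ N := Nat.floor_le (by positivity)
  have b2 : N < M1 + 1 := Nat.lt_floor_add_one _
  have c1 : (k : ℝ) ≤ 4 * N := Nat.floor_le (by positivity)
  have c2 : 4 * N < k + 1 := Nat.lt_floor_add_one _
  have hM01 : M0 ≤ M1 := by
    have : (M0 : ℝ) < M1 + 1 := by linarith
    have : M0 < M1 + 1 := by exact_mod_cast this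
    omega
  have hM1k : M1 ≤ k := by
    have : (M1 : ℝ) < k + 1 := by linarith
    have : M1 < k + 1 := by exact_mod_cast this
    omega
  have hzs : ∀ M n : ℕ, zs 0 τ M n = ∑ i ∈ Ioc M n, tw τ i := by
    intro M n
    unfold zs tw
    simp
  have hgood : ∀ M n : ℕ, N / 4 ≤ (M : ℝ) → (M : ℝ) ≤ N → M ≤ n → n ≤ 8 * M →
      ‖∑ i ∈ Ioc M n, tw τ i‖ ≤ C * (N / |τ| + N ^ (1 - c)) := by
    intro M n hM hMN hn hn8
    have hM1' : (1 : ℝ) ≤ M := by linarith
    have hM1'' : 1 ≤ M := by exact_mod_cast hM1'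
    have hτM : |τ| ≤ (M : ℝ) ^ (2 * A) := by
      refine hτA.trans ?_
      have h1 : N ≤ (M : ℝ) ^ (2 : ℝ) := by
        rw [Real.rpow_two]
        nlinarith
      calc N ^ A ≤ ((M : ℝ) ^ (2 : ℝ)) ^ A := Real.rpow_le_rpow hN0.le h1 (by linarith)
        _ = (M : ℝ) ^ (2 * A) := by rw [← Real.rpow_mul (by positivity)]
    have h2 := H 0 τ M n le_rfl zero_le_one hM1'' hn hn8 hτ hτM
    rw [hzs] at h2
    refine h2.trans (mul_le_mul_of_nonneg_left (add_le_add ?_ ?_) hC.le)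
    · exact div_le_div_of_nonneg_right hMN hτ.le
    · exact Real.rpow_le_rpow (by positivity) hMN (by linarith)
  have hS : ∀ n ∈ Ioc M0 k, ‖∑ i ∈ Ioc M0 n, tw τ i‖ ≤ 2 * (C * (N / |τ| + N ^ (1 - c))) := by
    intro n hn
    rw [Finset.mem_Ioc] at hn
    have hpos : 0 ≤ C * (N / |τ| + N ^ (1 - c)) := by positivity
    rcases le_or_gt n M1 with h1 | h1
    · have h8 : n ≤ 8 * M0 := by
        have : (M1 : ℝ) < 8 * M0 + 1 := by linarith
        have : M1 < 8 * M0 + 1 := by exact_mod_cast this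
        omega
      have := hgood M0 n (by linarith) (by linarith) hn.1.le h8
      linarith
    · have h80 : M1 ≤ 8 * M0 := by
        have : (M1 : ℝ) < 8 * M0 + 1 := by linarith
        have : M1 < 8 * M0 + 1 := by exact_mod_cast this
        omega
      have h81 : n ≤ 8 * M1 := by
        have : (k : ℝ) < 8 * M1 + 1 := by linarith
        have : k < 8 * M1 + 1 := by exact_mod_cast this
        omega
      have e1 := hgood M0 M1 (by linarith) (by linarith) hM01 h80
      have e2 := hgood M1 n (by linarith) b1 h1.le h81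
      have e3 : ∑ i ∈ Ioc M0 n, tw τ i = ∑ i ∈ Ioc M0 M1, tw τ i + ∑ i ∈ Ioc M1 n, tw τ i := by
        rw [← Finset.sum_union]
        · congr 1
          ext x
          simp only [Finset.mem_Ioc, Finset.mem_union]
          omega
        · rw [Finset.disjoint_left]
          intro x hx hx'
          rw [Finset.mem_Ioc] at hx hx'
          omega
      rw [e3]
      refine (norm_add_le _ _).trans ?_
      linarith
  have hZ : Zw N τ = ∑ n ∈ Ioc M0 k, ((wt (n / N) : ℝ) : ℂ) * tw τ n := by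
    unfold Zw
    symm
    refine Finset.sum_subset ?_ ?_
    · intro x hx
      rw [Finset.mem_Ioc] at hx
      rw [Finset.mem_Icc]
      omega
    · intro x hx hx'
      rw [Finset.mem_Icc] at hx
      rw [Finset.mem_Ioc] at hx'
      have hx2 : x ≤ M0 := by omega
      have hx3 : (x : ℝ) / N ≤ 1 / 2 := by
        rw [div_le_iff₀ hN0]
        have : (x : ℝ) ≤ M0 := by exact_mod_cast hx2
        linarith
      rw [trwt_low hx3]
      simp
  rw [hZ, trabel (fun n => ((wt (n / N) : ℝ) : ℂ)) (fun n => tw τ n) M0 k (hM01.trans hM1k)]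
  have hlast : wt (((k + 1 : ℕ) : ℝ) / N) = 0 := by
    apply trwt_high
    rw [le_div_iff₀ hN0]
    push_cast
    exact c2.le
  rw [hlast, Complex.ofReal_zero, zero_mul, zero_add]
  refine (norm_sum_le _ _).trans ?_
  have hterm : ∀ n ∈ Ioc M0 k, ‖(((wt ((n : ℝ) / N) : ℝ) : ℂ) - ((wt (((n + 1 : ℕ) : ℝ) / N) : ℝ) : ℂ)) *
      ∑ i ∈ Ioc M0 n, tw τ i‖ ≤ 2 / N * (2 * (C * (N / |τ| + N ^ (1 - c)))) := by
    intro n hn
    rw [norm_mul]
    refine mul_le_mul ?_ (hS n hn) (norm_nonneg _) (by positivity)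
    rw [← Complex.ofReal_sub, Complex.norm_real, Real.norm_eq_abs]
    refine (trwt_lip _ _).trans ?_
    rw [← sub_div]
    push_cast
    rw [sub_add_cancel_left, abs_div, abs_neg, abs_one, abs_of_pos hN0]
    apply le_of_eq
    ring
  refine (Finset.sum_le_sum hterm).trans ?_
  rw [Finset.sum_const, nsmul_eq_mul, Nat.card_Ioc]
  have hcard : (((k - M0 : ℕ)) : ℝ) ≤ 4 * N := by
    have : k - M0 ≤ k := Nat.sub_le _ _
    have : (((k - M0 : ℕ)) : ℝ) ≤ k := by exact_mod_cast this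
    linarith
  calc (((k - M0 : ℕ)) : ℝ) * (2 / N * (2 * (C * (N / |τ| + N ^ (1 - c)))))
      ≤ (4 * N) * (2 / N * (2 * (C * (N / |τ| + N ^ (1 - c))))) :=
        mul_le_mul_of_nonneg_right hcard (by positivity)
    _ = 16 * C * (N / |τ| + N ^ (1 - c)) := by
        field_simp
        ring
    _ ≤ (64 + 16 * C) * (N / |τ| + N ^ (1 - c)) := by
        refine mul_le_mul_of_nonneg_right (by linarith) (by positivity)

end Pool.Agent.Mrd
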