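import Pool.Agent.Mrd.Kern

/-!
Mrd UNIT: mean values of Dirichlet series over intervals of length one.
-/

set_option autoImplicit false

namespace Pool.Agent.Mrd

open Finset MeasureTheory Filter Topology

private theorem unit_summable : Summable (fun z : ℤ => 1 / (1 + (z : ℝ) ^ 2)) := by
  have h1 : Summable (fun z : ℤ => 1 / (z : ℝ) ^ 2) := Real.summable_one_div_int_pow.2 (by norm_num)
  have h2 : Summable (fun z : ℤ => if z = 0 then (1 : ℝ) else 0) := (hasSum_ite_eq 0 1).summable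
  refine Summable.of_nonneg_of_le (fun z => by positivity) (fun z => ?_) (h1.add h2)
  by_cases hz : z = 0
  · subst hz
    simp
  · rw [if_neg hz, add_zero]
    have : (0 : ℝ) < (z : ℝ) ^ 2 := by
      have : (z : ℝ) ≠ 0 := by exact_mod_cast hz
      positivity
    exact one_div_le_one_div_of_le this (by linarith)

private theorem unit_sum_le (J : ℕ) (K : ℕ) :
    ∑ j ∈ range K, 1 / (1 + ((J : ℝ) - j) ^ 2) ≤ ∑' z : ℤ, 1 / (1 + (z : ℝ) ^ 2) := by
  have h : ∑ j ∈ range K, 1 / (1 + ((J : ℝ) - j) ^ 2) =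
      ∑ z ∈ (range K).image (fun j : ℕ => (J : ℤ) - (j : ℤ)), 1 / (1 + (z : ℝ) ^ 2) := by
    rw [Finset.sum_image]
    · refine Finset.sum_congr rfl fun j _ => ?_
      push_cast
      rfl
    · intro x _ y _ hxy
      simp only at hxy
      omega
  rw [h]
  exact unit_summable.sum_le_tsum _ (fun z _ => by positivity)

private theorem unit_kernel {n m : ℕ} (hn : 1 ≤ n) (hm : 1 ≤ m) :
    2 * 1 / (1 + (1 * (Real.log n - Real.log m)) ^ 2) ≤
      6 * (1 / (1 + ((⌊Real.log n⌋₊ : ℝ) - ⌊Real.log m⌋₊) ^ 2)) := by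
  have hn0 : 0 ≤ Real.log n := Real.log_nonneg (by exact_mod_cast hn)
  have hm0 : 0 ≤ Real.log m := Real.log_nonneg (by exact_mod_cast hm)
  have a1 := Nat.floor_le hn0
  have a2 := Nat.lt_floor_add_one (Real.log n)
  have b1 := Nat.floor_le hm0
  have b2 := Nat.lt_floor_add_one (Real.log m)
  set x := Real.log n - Real.log m with hx
  set d := (⌊Real.log n⌋₊ : ℝ) - ⌊Real.log m⌋₊ with hd
  have h1 : |x - d| ≤ 1 := by
    rw [abs_le]
    constructor <;> linarith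
  have h2 : 1 + d ^ 2 ≤ 3 * (1 + x ^ 2) := by
    rw [abs_le] at h1
    have h3 : (x - d) ^ 2 ≤ 1 := by nlinarith [h1.1, h1.2]
    nlinarith [sq_nonneg (2 * x - d), h3]
  rw [one_mul, mul_one]
  rw [mul_one_div, div_le_div_iff₀ (by positivity) (by positivity)]
  nlinarith

private theorem unit_block {m j : ℕ} (hm : 1 ≤ m) :
    ⌊Real.log m⌋₊ = j ↔ m ∈ Finset.Ico ⌈Real.exp j⌉₊ ⌈Real.exp (j + 1)⌉₊ := by
  have hm' : (0 : ℝ) < m := by exact_mod_cast hm
  have hm0 : 0 ≤ Real.log m := Real.log_nonneg (by exact_mod_cast hm)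
  rw [Nat.floor_eq_iff hm0, Finset.mem_Ico, Nat.ceil_le, Nat.lt_ceil, Real.le_log_iff_exp_le hm',
    Real.log_lt_iff_lt_exp hm']

private theorem unit_inner (a : ℕ → ℂ) (B : ℝ) (ha : a 0 = 0)
    (hB : ∀ j : ℕ, ∑ n ∈ Finset.Ico ⌈Real.exp j⌉₊ ⌈Real.exp (j + 1)⌉₊, ‖a n‖ ≤ B) (M n : ℕ)
    (hn : 1 ≤ n) :
    ∑ m ∈ range M, ‖a m‖ * (2 * 1 / (1 + (1 * (Real.log n - Real.log m)) ^ 2)) ≤
      6 * (∑' z : ℤ, 1 / (1 + (z : ℝ) ^ 2)) * B := by
  have hB0 : 0 ≤ B := le_trans (Finset.sum_nonneg fun _ _ => norm_nonneg _) (hB 0)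
  set J := ⌊Real.log n⌋₊
  have h1 : ∑ m ∈ range M, ‖a m‖ * (2 * 1 / (1 + (1 * (Real.log n - Real.log m)) ^ 2)) ≤
      ∑ m ∈ range M, ‖a m‖ * (6 * (1 / (1 + ((J : ℝ) - ⌊Real.log m⌋₊) ^ 2))) := by
    refine Finset.sum_le_sum fun m _ => ?_
    rcases Nat.eq_zero_or_pos m with h | h
    · subst h
      simp [ha]
    · exact mul_le_mul_of_nonneg_left (unit_kernel hn h) (norm_nonneg _)
  refine h1.trans ?_
  -- split into blocks
  have h2 : ∀ m ∈ range M, ⌊Real.log m⌋₊ ∈ range (M + 1) := by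
    intro m hm
    rw [Finset.mem_range] at hm ⊢
    rcases Nat.eq_zero_or_pos m with h | h
    · subst h
      simp
    have hm' : (0 : ℝ) < m := by exact_mod_cast h
    have : Real.log m ≤ m := by
      have := Real.log_le_sub_one_of_pos hm'
      linarith
    have h3 : ⌊Real.log m⌋₊ ≤ m := by
      have := Nat.floor_le_floor this
      simpa using this
    omega
  rw [← Finset.sum_fiberwise_of_maps_to h2]
  have h3 : ∀ j ∈ range (M + 1), ∑ m ∈ (range M).filter (fun m : ℕ => ⌊Real.log (m : ℝ)⌋₊ = j),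
      ‖a m‖ * (6 * (1 / (1 + ((J : ℝ) - ⌊Real.log m⌋₊) ^ 2))) ≤
      B * (6 * (1 / (1 + ((J : ℝ) - j) ^ 2))) := by
    intro j _
    have h4 : ∑ m ∈ (range M).filter (fun m : ℕ => ⌊Real.log (m : ℝ)⌋₊ = j),
        ‖a m‖ * (6 * (1 / (1 + ((J : ℝ) - ⌊Real.log m⌋₊) ^ 2))) =
        (∑ m ∈ (range M).filter (fun m : ℕ => ⌊Real.log (m : ℝ)⌋₊ = j), ‖a m‖) * (6 * (1 / (1 + ((J : ℝ) - j) ^ 2))) := by
      rw [Finset.sum_mul]
      refine Finset.sum_congr rfl fun m hm => ?_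
      rw [(Finset.mem_filter.1 hm).2]
    rw [h4]
    refine mul_le_mul_of_nonneg_right ?_ (by positivity)
    refine le_trans ?_ (hB j)
    rw [← Finset.sum_filter_add_sum_filter_not ((range M).filter (fun m : ℕ => ⌊Real.log (m : ℝ)⌋₊ = j)) (fun m => m = 0)]
    have h5 : ∑ m ∈ ((range M).filter (fun m : ℕ => ⌊Real.log (m : ℝ)⌋₊ = j)).filter (fun m => m = 0), ‖a m‖ = 0 := by
      refine Finset.sum_eq_zero fun m hm => ?_
      rw [(Finset.mem_filter.1 hm).2, ha, norm_zero]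
    rw [h5, zero_add]
    refine Finset.sum_le_sum_of_subset_of_nonneg ?_ (fun _ _ _ => norm_nonneg _)
    intro m hm
    rw [Finset.mem_filter, Finset.mem_filter] at hm
    exact (unit_block (Nat.one_le_iff_ne_zero.2 hm.2)).1 hm.1.2
  refine (Finset.sum_le_sum h3).trans ?_
  rw [← Finset.mul_sum, ← Finset.mul_sum]
  have h6 := unit_sum_le J (M + 1)
  calc B * (6 * ∑ j ∈ range (M + 1), 1 / (1 + ((J : ℝ) - j) ^ 2))
      ≤ B * (6 * ∑' z : ℤ, 1 / (1 + (z : ℝ) ^ 2)) := by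
        refine mul_le_mul_of_nonneg_left ?_ hB0
        linarith
    _ = _ := by ring

private theorem unit_finite (a : ℕ → ℂ) (B c : ℝ) (ha : a 0 = 0) (hs : Summable (fun n => ‖a n‖))
    (hB : ∀ j : ℕ, ∑ n ∈ Finset.Ico ⌈Real.exp j⌉₊ ⌈Real.exp (j + 1)⌉₊, ‖a n‖ ≤ B) (M : ℕ) :
    ∫ t in c..(c + 1), ‖dp (range M) a t‖ ^ 2 ≤
      Real.exp 1 * (6 * (∑' z : ℤ, 1 / (1 + (z : ℝ) ^ 2))) * B * ∑' n, ‖a n‖ := by
  have hB0 : 0 ≤ B := le_trans (Finset.sum_nonneg fun _ _ => norm_nonneg _) (hB 0)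
  have hC0 : 0 ≤ ∑' z : ℤ, 1 / (1 + (z : ℝ) ^ 2) := tsum_nonneg fun z => by positivity
  have h1 := l2_kern (range M) a (A := c) (B := c + 1) (c := c) (T := 1) one_pos (by linarith)
    (by linarith) (by linarith)
  refine h1.trans ?_
  have h2 : ∑ n ∈ range M, ∑ m ∈ range M, ‖a n‖ * ‖a m‖ *
        (2 * 1 / (1 + (1 * (Real.log n - Real.log m)) ^ 2)) ≤
      ∑ n ∈ range M, ‖a n‖ * (6 * (∑' z : ℤ, 1 / (1 + (z : ℝ) ^ 2)) * B) := by
    refine Finset.sum_le_sum fun n _ => ?_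
    simp_rw [mul_assoc ‖a n‖]
    rw [← Finset.mul_sum]
    rcases Nat.eq_zero_or_pos n with h | h
    · subst h
      simp [ha]
    · exact mul_le_mul_of_nonneg_left (unit_inner a B ha hB M n h) (norm_nonneg _)
  have h3 : ∑ n ∈ range M, ‖a n‖ ≤ ∑' n, ‖a n‖ := hs.sum_le_tsum _ fun _ _ => norm_nonneg _
  calc _ ≤ Real.exp 1 * ∑ n ∈ range M, ‖a n‖ * (6 * (∑' z : ℤ, 1 / (1 + (z : ℝ) ^ 2)) * B) :=
        mul_le_mul_of_nonneg_left h2 (Real.exp_pos _).le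
    _ = (Real.exp 1 * (6 * (∑' z : ℤ, 1 / (1 + (z : ℝ) ^ 2))) * B) * ∑ n ∈ range M, ‖a n‖ := by
        rw [← Finset.sum_mul]
        ring
    _ ≤ (Real.exp 1 * (6 * (∑' z : ℤ, 1 / (1 + (z : ℝ) ^ 2))) * B) * ∑' n, ‖a n‖ :=
        mul_le_mul_of_nonneg_left h3 (by positivity)

/-- For the partial sums over `n < M`: `l2_kern` with `T = 1` and the interval `[c, c+1]` (centre `c`), the double sum is
`≤ ∑_n ‖a n‖ ∑_j B * 2/(1 + max(0, |j - j_n| - 1)^2)` where `log n ∈ [j_n, j_n + 1)` (for `m` in the block `j`, that is `m` in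
`Ico ⌈e^j⌉ ⌈e^(j+1)⌉`, `log m ∈ [j, j+1)` and `|log n - log m| ≥ |j - j_n| - 1`), hence `≤ C B ∑ ‖a n‖`. Then let `M → ∞` (the series
converges uniformly in `t`). -/
theorem unit_mvt : ∃ C : ℝ, 0 < C ∧ ∀ (a : ℕ → ℂ) (B c : ℝ), a 0 = 0 → Summable (fun n => ‖a n‖) →
    (∀ j : ℕ, ∑ n ∈ Finset.Ico ⌈Real.exp j⌉₊ ⌈Real.exp (j + 1)⌉₊, ‖a n‖ ≤ B) →
    ∫ t in c..(c + 1), ‖∑' n, a n * tw t n‖ ^ 2 ≤ C * B * ∑' n, ‖a n‖ := by
  have hC0 : 0 < ∑' z : ℤ, 1 / (1 + (z : ℝ) ^ 2) :=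
    unit_summable.tsum_pos (fun z => by positivity) 0 (by positivity)
  refine ⟨Real.exp 1 * (6 * (∑' z : ℤ, 1 / (1 + (z : ℝ) ^ 2))), by positivity, ?_⟩
  intro a B c ha hs hB
  have hterm : ∀ t : ℝ, Summable (fun n => a n * tw t n) := by
    intro t
    refine Summable.of_norm ?_
    simpa only [norm_mul, tw_norm, mul_one] using hs
  have hlim : Tendsto (fun M : ℕ => ∫ t in c..(c + 1), ‖dp (range M) a t‖ ^ 2) atTop
      (𝓝 (∫ t in c..(c + 1), ‖∑' n, a n * tw t n‖ ^ 2)) := by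
    refine intervalIntegral.tendsto_integral_filter_of_dominated_convergence
      (fun _ => (∑' n, ‖a n‖) ^ 2) ?_ ?_ ?_ ?_
    · refine Eventually.of_forall fun M => ?_
      exact ((dp_continuous (range M) a).norm.pow 2).aestronglyMeasurable
    · refine Eventually.of_forall fun M => ?_
      refine ae_of_all _ fun t _ => ?_
      rw [Real.norm_of_nonneg (by positivity)]
      refine pow_le_pow_left₀ (norm_nonneg _) ?_ 2
      exact (dp_norm_le _ _ _).trans (hs.sum_le_tsum _ fun _ _ => norm_nonneg _)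
    · exact intervalIntegrable_const
    · refine ae_of_all _ fun t _ => ?_
      exact ((hterm t).hasSum.tendsto_sum_nat.norm).pow 2
  exact le_of_tendsto hlim (Eventually.of_forall fun M => unit_finite a B c ha hs hB M)

end Pool.Agent.Mrd
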