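import Pool.Agent.Mrd.Defs

/-!
Mrd VDC: van der Corput's inequality.
-/

set_option autoImplicit false

namespace Pool.Agent.Mrd

open Finset MeasureTheory Filter Topology

private noncomputable def vdc_w (a b : ℤ) (z : ℤ → ℂ) (n : ℤ) : ℂ := if n ∈ Finset.Ioc a b then z n else 0

private noncomputable def vdc_c (a b : ℤ) (z : ℤ → ℂ) (h : ℕ) : ℂ :=
  ∑ n ∈ Finset.Ioc a (b - (h : ℤ)), z (n + (h : ℤ)) * (starRingEnd ℂ) (z n)

private theorem vdc_shift (a b : ℤ) (F : ℤ → ℂ) (hF : ∀ m, m ∉ Finset.Ioc a b → F m = 0) (q j : ℕ) (hj : j < q) :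
    ∑ n ∈ Finset.Ioc (a - q) b, F (n + j) = ∑ m ∈ Finset.Ioc a b, F m := by
  have h1 : ∑ n ∈ Finset.Ioc (a - q) b, F (n + j) = ∑ m ∈ Finset.Ioc (a - q + j) (b + j), F m := by
    refine Finset.sum_bij' (fun n _ => n + (j : ℤ)) (fun m _ => m - (j : ℤ)) ?_ ?_ ?_ ?_ ?_
    · intro n hn
      rw [Finset.mem_Ioc] at hn ⊢
      omega
    · intro n hn
      rw [Finset.mem_Ioc] at hn ⊢
      omega
    · intro n _
      ring
    · intro n _
      ring
    · intro n _
      rfl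
  rw [h1]
  symm
  refine Finset.sum_subset ?_ ?_
  · intro m hm
    rw [Finset.mem_Ioc] at hm ⊢
    omega
  · intro m _ hm
    exact hF m hm

private theorem vdc_T (a b : ℤ) (z : ℤ → ℂ) (q j k : ℕ) (hk : k < q) (hkj : k ≤ j) :
    ∑ n ∈ Finset.Ioc (a - q) b, vdc_w a b z (n + j) * (starRingEnd ℂ) (vdc_w a b z (n + k)) =
      vdc_c a b z (j - k) := by
  have h1 := vdc_shift a b (fun m => vdc_w a b z (m + (j - k : ℕ)) * (starRingEnd ℂ) (vdc_w a b z m)) (by
    intro m hm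
    simp only [vdc_w, hm, if_false, map_zero, mul_zero]) q k hk
  have h2 : ∀ n : ℤ, n + (k : ℤ) + ((j - k : ℕ) : ℤ) = n + j := by
    intro n
    omega
  simp only [h2] at h1
  rw [h1, vdc_c]
  symm
  rw [← Finset.sum_subset (s₁ := Finset.Ioc a (b - ((j - k : ℕ) : ℤ))) (s₂ := Finset.Ioc a b)]
  · refine Finset.sum_congr rfl ?_
    intro m hm
    rw [Finset.mem_Ioc] at hm
    have e1 : m ∈ Finset.Ioc a b := by
      rw [Finset.mem_Ioc]
      omega
    have e2 : m + ((j - k : ℕ) : ℤ) ∈ Finset.Ioc a b := by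
      rw [Finset.mem_Ioc]
      omega
    simp only [vdc_w, e1, e2, if_true]
  · intro m hm
    rw [Finset.mem_Ioc] at hm ⊢
    omega
  · intro m hm hm2
    have e2 : m + ((j - k : ℕ) : ℤ) ∉ Finset.Ioc a b := by
      rw [Finset.mem_Ioc] at hm hm2 ⊢
      omega
    simp only [vdc_w, e2, if_false, zero_mul]

private theorem vdc_Tn (a b : ℤ) (z : ℤ → ℂ) (q j k : ℕ) (hj : j < q) (hk : k < q) :
    ‖∑ n ∈ Finset.Ioc (a - q) b, vdc_w a b z (n + j) * (starRingEnd ℂ) (vdc_w a b z (n + k))‖ =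
      ‖vdc_c a b z (max j k - min j k)‖ := by
  rcases le_total k j with h | h
  · rw [vdc_T a b z q j k hk h, max_eq_left h, min_eq_right h]
  · rw [max_eq_right h, min_eq_left h, ← vdc_T a b z q k j hj h]
    rw [← RCLike.norm_conj (∑ n ∈ Finset.Ioc (a - q) b, vdc_w a b z (n + k) * (starRingEnd ℂ) (vdc_w a b z (n + j)))]
    congr 1
    rw [map_sum]
    refine Finset.sum_congr rfl ?_
    intro n _
    rw [map_mul, Complex.conj_conj, mul_comm]

private theorem vdc_row (c : ℕ → ℝ) (hc : ∀ h, 0 ≤ c h) (q j : ℕ) (hj : j < q) :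
    ∑ k ∈ Finset.range q, c (max j k - min j k) ≤ c 0 + 2 * ∑ h ∈ Finset.Ico 1 q, c h := by
  have h1 : Finset.range q = Finset.range j ∪ ({j} ∪ Finset.Ico (j + 1) q) := by
    ext k
    simp only [Finset.mem_range, Finset.mem_union, Finset.mem_singleton, Finset.mem_Ico]
    omega
  have d1 : Disjoint (Finset.range j) ({j} ∪ Finset.Ico (j + 1) q) := by
    rw [Finset.disjoint_left]
    intro k hk hk2
    simp only [Finset.mem_range, Finset.mem_union, Finset.mem_singleton, Finset.mem_Ico] at hk hk2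
    omega
  have d2 : Disjoint ({j} : Finset ℕ) (Finset.Ico (j + 1) q) := by
    rw [Finset.disjoint_left]
    intro k hk hk2
    simp only [Finset.mem_singleton, Finset.mem_Ico] at hk hk2
    omega
  rw [h1, Finset.sum_union d1, Finset.sum_union d2, Finset.sum_singleton]
  have e0 : c (max j j - min j j) = c 0 := by
    simp
  have e1 : ∑ k ∈ Finset.range j, c (max j k - min j k) ≤ ∑ h ∈ Finset.Ico 1 q, c h := by
    have : ∑ k ∈ Finset.range j, c (max j k - min j k) = ∑ h ∈ Finset.Ico 1 (j + 1), c h := by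
      refine Finset.sum_bij' (fun k _ => j - k) (fun h _ => j - h) ?_ ?_ ?_ ?_ ?_
      · intro k hk
        simp only [Finset.mem_range, Finset.mem_Ico] at hk ⊢
        omega
      · intro k hk
        simp only [Finset.mem_range, Finset.mem_Ico] at hk ⊢
        omega
      · intro k hk
        simp only [Finset.mem_range] at hk
        omega
      · intro k hk
        simp only [Finset.mem_Ico] at hk
        omega
      · intro k hk
        simp only [Finset.mem_range] at hk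
        rw [max_eq_left (by omega), min_eq_right (by omega)]
    rw [this]
    refine Finset.sum_le_sum_of_subset_of_nonneg ?_ ?_
    · intro k hk
      simp only [Finset.mem_Ico] at hk ⊢
      omega
    · intro k _ _
      exact hc k
  have e2 : ∑ k ∈ Finset.Ico (j + 1) q, c (max j k - min j k) ≤ ∑ h ∈ Finset.Ico 1 q, c h := by
    have : ∑ k ∈ Finset.Ico (j + 1) q, c (max j k - min j k) = ∑ h ∈ Finset.Ico 1 (q - j), c h := by
      refine Finset.sum_bij' (fun k _ => k - j) (fun h _ => h + j) ?_ ?_ ?_ ?_ ?_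
      · intro k hk
        simp only [Finset.mem_Ico] at hk ⊢
        omega
      · intro k hk
        simp only [Finset.mem_Ico] at hk ⊢
        omega
      · intro k hk
        simp only [Finset.mem_Ico] at hk
        omega
      · intro k hk
        omega
      · intro k hk
        simp only [Finset.mem_Ico] at hk
        rw [max_eq_right (by omega), min_eq_left (by omega)]
    rw [this]
    refine Finset.sum_le_sum_of_subset_of_nonneg ?_ ?_
    · intro k hk
      simp only [Finset.mem_Ico] at hk ⊢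
      omega
    · intro k _ _
      exact hc k
  rw [e0]
  linarith

/-- Extend `z` by 0 outside `(a,b]`. `q ∑ z_n = ∑_{n ∈ (a-q, b]} ∑_{0≤j<q} z_{n+j}`; Cauchy-Schwarz over the at most `L + q ≤ 2L`
values of `n`; expand: `q² |∑ z|² ≤ 2L (q ∑|z_n|² + 2 Re ∑_{h=1}^{q-1} (q-h) ∑_n z_{n+h} conj z_n)`. -/
theorem vdc (a b : ℤ) (z : ℤ → ℂ) (hz : ∀ n, ‖z n‖ ≤ 1) (q : ℕ) (L : ℝ) (hab : a ≤ b)
    (hL : (b - a : ℝ) ≤ L) (hq : 1 ≤ q) (hqL : (q : ℝ) ≤ L) :
    ‖∑ n ∈ Finset.Ioc a b, z n‖ ^ 2 ≤ (2 * L / q) * (L + 2 * ∑ h ∈ Finset.Ico 1 q,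
      ‖∑ n ∈ Finset.Ioc a (b - (h : ℤ)), z (n + (h : ℤ)) * (starRingEnd ℂ) (z n)‖) := by
  have hq0 : (0 : ℝ) < q := by
    exact_mod_cast hq
  have hL0 : 0 < L := lt_of_lt_of_le hq0 hqL
  set S : ℂ := ∑ n ∈ Finset.Ioc a b, z n with hS
  set w := vdc_w a b z with hw
  set R : ℝ := L + 2 * ∑ h ∈ Finset.Ico 1 q, ‖vdc_c a b z h‖ with hR
  have hws : ∑ m ∈ Finset.Ioc a b, w m = S := by
    rw [hS]
    refine Finset.sum_congr rfl ?_
    intro m hm
    simp only [hw, vdc_w, hm, if_true]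
  -- q S as a double sum
  have h1 : (q : ℂ) * S = ∑ n ∈ Finset.Ioc (a - q) b, ∑ j ∈ Finset.range q, w (n + j) := by
    rw [Finset.sum_comm]
    have : ∀ j ∈ Finset.range q, ∑ n ∈ Finset.Ioc (a - q) b, w (n + j) = S := by
      intro j hj
      rw [← hws]
      refine vdc_shift a b w ?_ q j (Finset.mem_range.1 hj)
      intro m hm
      simp only [hw, vdc_w, hm, if_false]
    rw [Finset.sum_congr rfl this, Finset.sum_const, Finset.card_range, nsmul_eq_mul]
  have hcard : ((Finset.Ioc (a - q) b).card : ℝ) ≤ 2 * L := by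
    rw [Int.card_Ioc]
    have : (((b - (a - (q : ℤ))).toNat : ℕ) : ℝ) = (b : ℝ) - a + q := by
      have e : (((b - (a - (q : ℤ))).toNat : ℕ) : ℤ) = b - (a - q) := Int.toNat_of_nonneg (by omega)
      have e2 : (((b - (a - (q : ℤ))).toNat : ℕ) : ℝ) = ((((b - (a - (q : ℤ))).toNat : ℕ) : ℤ) : ℝ) := by
        norm_cast
      rw [e2, e]
      push_cast
      ring
    rw [this]
    linarith
  -- Cauchy Schwarz
  have h2 : ‖(q : ℂ) * S‖ ^ 2 ≤ (2 * L) * ∑ n ∈ Finset.Ioc (a - q) b, ‖∑ j ∈ Finset.range q, w (n + j)‖ ^ 2 := by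
    have e1 : ‖(q : ℂ) * S‖ ≤ ∑ n ∈ Finset.Ioc (a - q) b, ‖∑ j ∈ Finset.range q, w (n + j)‖ := by
      rw [h1]
      exact norm_sum_le _ _
    have e2 : (∑ n ∈ Finset.Ioc (a - q) b, ‖∑ j ∈ Finset.range q, w (n + j)‖) ^ 2 ≤
        ((Finset.Ioc (a - q) b).card : ℝ) * ∑ n ∈ Finset.Ioc (a - q) b, ‖∑ j ∈ Finset.range q, w (n + j)‖ ^ 2 :=
      sq_sum_le_card_mul_sum_sq
    have e3 : 0 ≤ ∑ n ∈ Finset.Ioc (a - q) b, ‖∑ j ∈ Finset.range q, w (n + j)‖ ^ 2 :=
      Finset.sum_nonneg (fun n _ => by positivity)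
    calc ‖(q : ℂ) * S‖ ^ 2 ≤ (∑ n ∈ Finset.Ioc (a - q) b, ‖∑ j ∈ Finset.range q, w (n + j)‖) ^ 2 :=
          pow_le_pow_left₀ (norm_nonneg _) e1 2
      _ ≤ _ := e2
      _ ≤ _ := mul_le_mul_of_nonneg_right hcard e3
  -- expansion
  have h3 : ((∑ n ∈ Finset.Ioc (a - q) b, ‖∑ j ∈ Finset.range q, w (n + j)‖ ^ 2 : ℝ) : ℂ) =
      ∑ j ∈ Finset.range q, ∑ k ∈ Finset.range q, ∑ n ∈ Finset.Ioc (a - q) b,
        w (n + j) * (starRingEnd ℂ) (w (n + k)) := by
    have e1 : ∀ n : ℤ, ((‖∑ j ∈ Finset.range q, w (n + j)‖ ^ 2 : ℝ) : ℂ) =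
        ∑ j ∈ Finset.range q, ∑ k ∈ Finset.range q, w (n + j) * (starRingEnd ℂ) (w (n + k)) := by
      intro n
      rw [← Finset.sum_mul_sum, ← map_sum, Complex.mul_conj, Complex.normSq_eq_norm_sq]
    rw [Complex.ofReal_sum, Finset.sum_congr rfl (fun n _ => e1 n), Finset.sum_comm]
    refine Finset.sum_congr rfl ?_
    intro j _
    rw [Finset.sum_comm]
  have h4 : ∑ n ∈ Finset.Ioc (a - q) b, ‖∑ j ∈ Finset.range q, w (n + j)‖ ^ 2 ≤ q * R := by
    have e0 : 0 ≤ ∑ n ∈ Finset.Ioc (a - q) b, ‖∑ j ∈ Finset.range q, w (n + j)‖ ^ 2 :=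
      Finset.sum_nonneg (fun n _ => by positivity)
    have e1 : ∑ n ∈ Finset.Ioc (a - q) b, ‖∑ j ∈ Finset.range q, w (n + j)‖ ^ 2 =
        ‖((∑ n ∈ Finset.Ioc (a - q) b, ‖∑ j ∈ Finset.range q, w (n + j)‖ ^ 2 : ℝ) : ℂ)‖ := by
      rw [Complex.norm_real, Real.norm_eq_abs, abs_of_nonneg e0]
    rw [e1, h3]
    have ec0 : ‖vdc_c a b z 0‖ ≤ L := by
      have : ‖vdc_c a b z 0‖ ≤ ((Finset.Ioc a b).card : ℝ) := by
        rw [vdc_c]
        simp only [Nat.cast_zero, sub_zero, add_zero]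
        refine le_trans (norm_sum_le _ _) ?_
        calc ∑ n ∈ Finset.Ioc a b, ‖z n * (starRingEnd ℂ) (z n)‖ ≤ ∑ n ∈ Finset.Ioc a b, (1 : ℝ) := by
              refine Finset.sum_le_sum ?_
              intro n _
              rw [norm_mul, RCLike.norm_conj]
              exact mul_le_one₀ (hz n) (norm_nonneg _) (hz n)
          _ = _ := by simp
      have e2 : ((Finset.Ioc a b).card : ℝ) = b - a := by
        rw [Int.card_Ioc]
        have e : (((b - a).toNat : ℕ) : ℤ) = b - a := Int.toNat_of_nonneg (by omega)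
        have e2 : (((b - a).toNat : ℕ) : ℝ) = ((((b - a).toNat : ℕ) : ℤ) : ℝ) := by
          norm_cast
        rw [e2, e]
        push_cast
        ring
      linarith
    calc ‖∑ j ∈ Finset.range q, ∑ k ∈ Finset.range q, ∑ n ∈ Finset.Ioc (a - q) b,
            w (n + j) * (starRingEnd ℂ) (w (n + k))‖
        ≤ ∑ j ∈ Finset.range q, ∑ k ∈ Finset.range q, ‖∑ n ∈ Finset.Ioc (a - q) b,
            w (n + j) * (starRingEnd ℂ) (w (n + k))‖ := by
          refine le_trans (norm_sum_le _ _) ?_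
          exact Finset.sum_le_sum (fun j _ => norm_sum_le _ _)
      _ = ∑ j ∈ Finset.range q, ∑ k ∈ Finset.range q, ‖vdc_c a b z (max j k - min j k)‖ := by
          refine Finset.sum_congr rfl ?_
          intro j hj
          refine Finset.sum_congr rfl ?_
          intro k hk
          exact vdc_Tn a b z q j k (Finset.mem_range.1 hj) (Finset.mem_range.1 hk)
      _ ≤ ∑ j ∈ Finset.range q, R := by
          refine Finset.sum_le_sum ?_
          intro j hj
          refine le_trans (vdc_row (fun h => ‖vdc_c a b z h‖) (fun h => norm_nonneg _) q j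
            (Finset.mem_range.1 hj)) ?_
          rw [hR]
          linarith
      _ = q * R := by
          rw [Finset.sum_const, Finset.card_range, nsmul_eq_mul]
  have h5 : (q : ℝ) ^ 2 * ‖S‖ ^ 2 ≤ 2 * L * (q * R) := by
    have e1 : ‖(q : ℂ) * S‖ ^ 2 = (q : ℝ) ^ 2 * ‖S‖ ^ 2 := by
      rw [norm_mul, mul_pow]
      congr 2
      exact RCLike.norm_natCast q
    rw [← e1]
    exact le_trans h2 (mul_le_mul_of_nonneg_left h4 (by positivity))
  have h6 : ‖S‖ ^ 2 ≤ 2 * L / q * R := by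
    rw [div_mul_eq_mul_div, le_div_iff₀ hq0]
    have : q * (‖S‖ ^ 2 * q) ≤ q * (2 * L * R) := by
      nlinarith [h5]
    exact le_of_mul_le_mul_left this hq0
  exact h6

end Pool.Agent.Mrd
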